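import Pool.Agent.KS6_23.ML.XTools

/-!
# Project ML, module CNTN: the number of points of period `n` with a given multiplier
-/

set_option autoImplicit false

open Set Filter Metric Topology Polynomial

namespace Pool.Agent.KS6_23.ML.CNTN

open Pool.Agent.KS6_23.ML.Basic Pool.Agent.KS6_23.ML.XTools

/-! ### Polynomials of bounded growth -/

theorem natDegree_le_of_growth {Q : ℂ[X]} {K : ℝ} {m : ℕ}
    (h : ∀ c : ℂ, 1 ≤ ‖c‖ → ‖Q.eval c‖ ≤ K * ‖c‖ ^ m) : Q.natDegree ≤ m := by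
  by_contra hd
  push Not at hd
  set d := Q.natDegree with hdd
  have hQ : Q ≠ 0 := by
    rintro rfl
    simp at hdd
    omega
  set K₂ : ℝ := ∑ i ∈ Finset.range d, ‖Q.coeff i‖ with hK₂
  have h1 : ∀ c : ℂ, 1 ≤ ‖c‖ → ‖Q.leadingCoeff‖ * ‖c‖ ^ d ≤ (|K| + K₂) * ‖c‖ ^ (d - 1) := by
    intro c hc
    have h2 : Q.leadingCoeff * c ^ d = Q.eval c - ∑ i ∈ Finset.range d, Q.coeff i * c ^ i := by
      rw [Polynomial.eval_eq_sum_range, ← hdd, Finset.sum_range_succ]
      simp [Polynomial.leadingCoeff, ← hdd]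
    have h3 : ‖Q.leadingCoeff * c ^ d‖ ≤ |K| * ‖c‖ ^ (d - 1) + K₂ * ‖c‖ ^ (d - 1) := by
      rw [h2]
      refine (norm_sub_le _ _).trans (add_le_add ?_ ?_)
      · refine (h c hc).trans ?_
        refine mul_le_mul (le_abs_self K) (pow_le_pow_right₀ hc (by omega)) (by positivity)
          (abs_nonneg _)
      · refine (norm_sum_le _ _).trans ?_
        rw [hK₂, Finset.sum_mul]
        refine Finset.sum_le_sum fun i hi => ?_
        rw [norm_mul, norm_pow]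
        rw [Finset.mem_range] at hi
        exact mul_le_mul_of_nonneg_left (pow_le_pow_right₀ hc (by omega)) (norm_nonneg _)
    rw [norm_mul, norm_pow] at h3
    linarith
  have hlead : 0 < ‖Q.leadingCoeff‖ := norm_pos_iff.2 (Polynomial.leadingCoeff_ne_zero.2 hQ)
  have hKK : 0 ≤ |K| + K₂ := add_nonneg (abs_nonneg _) (Finset.sum_nonneg fun i _ => norm_nonneg _)
  set x : ℝ := (|K| + K₂) / ‖Q.leadingCoeff‖ + 1 with hx
  have hx1 : 1 ≤ x := by
    rw [hx]
    have := div_nonneg hKK hlead.le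
    linarith
  have h4 := h1 (x : ℂ) (by rw [Complex.norm_real, Real.norm_of_nonneg (by linarith)]; exact hx1)
  rw [Complex.norm_real, Real.norm_of_nonneg (by linarith : (0 : ℝ) ≤ x)] at h4
  have h5 : x ^ d = x * x ^ (d - 1) := by
    rw [← pow_succ']
    congr 1
    omega
  rw [h5] at h4
  have h6 : 0 < x ^ (d - 1) := by positivity
  have h7 : ‖Q.leadingCoeff‖ * x ≤ |K| + K₂ := by
    rw [← mul_assoc] at h4
    exact le_of_mul_le_mul_right h4 h6
  have h8 : ‖Q.leadingCoeff‖ * x = |K| + K₂ + ‖Q.leadingCoeff‖ := by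
    rw [hx]
    field_simp
  linarith

/-- a polynomial which is small near a point has a zero of high order -/
theorem le_rootMultiplicity {Q : ℂ[X]} (hQ : Q ≠ 0) {c₀ : ℂ} {K : ℝ} {k : ℕ}
    (h : ∀ᶠ c in 𝓝 c₀, ‖Q.eval c‖ ≤ K * ‖c - c₀‖ ^ k) : k ≤ Q.rootMultiplicity c₀ := by
  by_contra hk
  push Not at hk
  set m := Q.rootMultiplicity c₀ with hm
  obtain ⟨q, hq, hq0⟩ := Polynomial.exists_eq_pow_rootMultiplicity_mul_and_not_dvd Q hQ c₀
  rw [← hm] at hq
  have hq1 : q.eval c₀ ≠ 0 := fun h0 => hq0 (Polynomial.dvd_iff_isRoot.2 h0)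
  -- `‖q(c)‖ ≤ K ‖c - c₀‖ ^ (k - m)` for `c ≠ c₀`
  have h1 : ∀ᶠ c in 𝓝[≠] c₀, ‖q.eval c‖ ≤ |K| * ‖c - c₀‖ ^ (k - m) := by
    have h2 := h.filter_mono (nhdsWithin_le_nhds (s := {c₀}ᶜ))
    filter_upwards [h2, self_mem_nhdsWithin] with c hc hne
    have hpos : 0 < ‖c - c₀‖ := norm_pos_iff.2 (sub_ne_zero.2 hne)
    rw [hq] at hc
    simp only [Polynomial.eval_mul, Polynomial.eval_pow, Polynomial.eval_sub, Polynomial.eval_X,
      Polynomial.eval_C, norm_mul, norm_pow] at hc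
    have h3 : ‖c - c₀‖ ^ k = ‖c - c₀‖ ^ m * ‖c - c₀‖ ^ (k - m) := by
      rw [← pow_add]
      congr 1
      omega
    rw [h3] at hc
    have h4 : ‖c - c₀‖ ^ m * ‖q.eval c‖ ≤ ‖c - c₀‖ ^ m * (K * ‖c - c₀‖ ^ (k - m)) := by linarith
    have h5 := le_of_mul_le_mul_left h4 (by positivity)
    refine h5.trans ?_
    exact mul_le_mul_of_nonneg_right (le_abs_self K) (by positivity)
  have h6 : Tendsto (fun c => ‖q.eval c‖) (𝓝[≠] c₀) (𝓝 ‖q.eval c₀‖) :=
    ((q.continuous.norm).tendsto c₀).mono_left nhdsWithin_le_nhds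
  have h7 : Tendsto (fun c => |K| * ‖c - c₀‖ ^ (k - m)) (𝓝[≠] c₀) (𝓝 0) := by
    have h8 : Continuous fun c : ℂ => |K| * ‖c - c₀‖ ^ (k - m) := by fun_prop
    have h9 := (h8.tendsto c₀).mono_left (nhdsWithin_le_nhds (s := {c₀}ᶜ))
    simp only [sub_self, norm_zero] at h9
    rw [zero_pow (by omega), mul_zero] at h9
    exact h9
  have h10 := le_of_tendsto_of_tendsto h6 h7 h1
  exact hq1 (norm_le_zero_iff.1 h10)

/-! ### The polynomials -/

/-- the iterates as polynomials in `z` over the polynomials in `c` -/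
noncomputable def Fp : ℕ → ℂ[X][X]
  | 0 => X
  | k + 1 => Fp k ^ 2 + C X

theorem Fp_eval (k : ℕ) (c z : ℂ) : ((Fp k).map (evalRingHom c)).eval z = (f c)^[k] z := by
  induction k with
  | zero => simp [Fp]
  | succ k ih =>
    rw [Function.iterate_succ_apply', Fp, Polynomial.map_add, Polynomial.map_pow,
      Polynomial.eval_add, Polynomial.eval_pow, ih]
    simp [f]

theorem Fp_monic (k : ℕ) : (Fp k).Monic ∧ (Fp k).natDegree = 2 ^ k := by
  induction k with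
  | zero => exact ⟨monic_X, by simp [Fp]⟩
  | succ k ih =>
    have h1 : (Fp k ^ 2).Monic := ih.1.pow 2
    have h2 : (Fp k ^ 2).natDegree = 2 ^ (k + 1) := by
      rw [ih.1.natDegree_pow, ih.2]
      ring
    have h3 : (C X : ℂ[X][X]).degree < (Fp k ^ 2).degree := by
      rw [Polynomial.degree_eq_natDegree h1.ne_zero, h2]
      refine lt_of_le_of_lt Polynomial.degree_C_le ?_
      exact_mod_cast (by positivity : 0 < 2 ^ (k + 1))
    refine ⟨h1.add_of_left h3, ?_⟩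
    rw [Fp, Polynomial.natDegree_add_eq_left_of_degree_lt h3, h2]

noncomputable def PZ (n : ℕ) : ℂ[X][X] := Fp n - X

theorem PZ_monic {n : ℕ} (hn : 1 ≤ n) : (PZ n).Monic ∧ (PZ n).natDegree = 2 ^ n := by
  have h := Fp_monic n
  have h3 : (X : ℂ[X][X]).degree < (Fp n).degree := by
    rw [Polynomial.degree_eq_natDegree h.1.ne_zero, h.2, Polynomial.degree_X]
    have : 1 < 2 ^ n := Nat.one_lt_two_pow (by omega)
    exact_mod_cast this
  exact ⟨h.1.sub_of_left h3, by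
    rw [PZ, Polynomial.natDegree_sub_eq_left_of_natDegree_lt, h.2]
    exact Polynomial.natDegree_lt_natDegree (by exact Polynomial.X_ne_zero) h3⟩

noncomputable def MZ (n : ℕ) (ρ : ℂ) : ℂ[X][X] :=
  (∏ k ∈ Finset.range n, (C (C 2) * Fp k)) - C (C ρ)

theorem MZ_eval (n : ℕ) (ρ c z : ℂ) : ((MZ n ρ).map (evalRingHom c)).eval z = mul n c z - ρ := by
  rw [mul_eq_prod, MZ, Polynomial.map_sub, Polynomial.map_prod, Polynomial.eval_sub,
    Polynomial.eval_prod]
  congr 1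
  · refine Finset.prod_congr rfl fun k _ => ?_
    rw [Polynomial.map_mul, Polynomial.eval_mul, Fp_eval]
    simp
  · simp

/-- the roots -/
noncomputable def rts (n : ℕ) (c : ℂ) : Multiset ℂ := ((PZ n).map (evalRingHom c)).roots

theorem mem_rts {n : ℕ} (hn : 1 ≤ n) {c z : ℂ} : z ∈ rts n c ↔ (f c)^[n] z = z := by
  have h1 : (PZ n).map (evalRingHom c) ≠ 0 := ((PZ_monic hn).1.map _).ne_zero
  rw [rts, Polynomial.mem_roots h1, Polynomial.IsRoot, PZ, Polynomial.map_sub, Polynomial.eval_sub,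
    Fp_eval]
  simp [sub_eq_zero]

theorem card_rts {n : ℕ} (hn : 1 ≤ n) (c : ℂ) : Multiset.card (rts n c) = 2 ^ n := by
  rw [rts, ← (IsAlgClosed.splits _).natDegree_eq_card_roots, (PZ_monic hn).1.natDegree_map,
    (PZ_monic hn).2]

/-- the polynomial in `c` whose roots are the parameters with a multiplier `ρ` -/
noncomputable def QQ (n : ℕ) (ρ : ℂ) : ℂ[X] :=
  resultant (PZ n) (MZ n ρ) (PZ n).natDegree (MZ n ρ).natDegree

theorem QQ_eval {n : ℕ} (hn : 1 ≤ n) (ρ c : ℂ) :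
    (QQ n ρ).eval c = ((rts n c).map fun z => mul n c z - ρ).prod := by
  have h1 : (QQ n ρ).eval c = evalRingHom c (QQ n ρ) := rfl
  have h2 : ((PZ n).map (evalRingHom c)).natDegree = (PZ n).natDegree := (PZ_monic hn).1.natDegree_map _
  rw [h1, QQ, ← Polynomial.resultant_map_map]
  rw [← h2, Polynomial.resultant_eq_prod_eval _ _ _ Polynomial.natDegree_map_le
    (IsAlgClosed.splits _), ((PZ_monic hn).1.map _).leadingCoeff, one_pow, one_mul]
  rw [rts]
  congr 2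
  funext z
  exact MZ_eval n ρ c z

/-! ### Bounds -/

theorem per_bound {n : ℕ} (hn : 1 ≤ n) {c z : ℂ} (h : (f c)^[n] z = z) : ‖z‖ ≤ 1 + √‖c‖ := by
  by_contra hz
  push Not at hz
  have hs0 := Real.sqrt_nonneg ‖c‖
  have hs : √‖c‖ ^ 2 = ‖c‖ := Real.sq_sqrt (norm_nonneg c)
  have key : ∀ w : ℂ, ‖z‖ ≤ ‖w‖ → ‖z‖ < ‖f c w‖ := by
    intro w hw
    have h1 : ‖w‖ ^ 2 ≤ ‖f c w‖ + ‖c‖ := by
      have h2 : w ^ 2 = f c w - c := by simp [f]
      rw [← norm_pow, h2]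
      exact norm_sub_le _ _
    nlinarith
  have h2 : ∀ k, ‖z‖ ≤ ‖(f c)^[k] z‖ := by
    intro k
    induction k with
    | zero => exact le_rfl
    | succ k ih =>
      rw [Function.iterate_succ_apply']
      exact (key _ ih).le
  obtain ⟨m, rfl⟩ : ∃ m, n = m + 1 := ⟨n - 1, by omega⟩
  have h3 := key _ (h2 m)
  have h4 : f c ((f c)^[m] z) = (f c)^[m + 1] z := (Function.iterate_succ_apply' (f c) m z).symm
  rw [h4, h] at h3
  exact lt_irrefl _ h3

theorem per_iter {n : ℕ} {c z : ℂ} (h : (f c)^[n] z = z) (k : ℕ) :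
    (f c)^[n] ((f c)^[k] z) = (f c)^[k] z := by
  rw [← Function.iterate_add_apply, add_comm, Function.iterate_add_apply, h]

theorem mul_bound {n : ℕ} (hn : 1 ≤ n) {c z : ℂ} (h : (f c)^[n] z = z) :
    ‖mul n c z‖ ≤ (2 * (1 + √‖c‖)) ^ n := by
  rw [mul_eq_prod, norm_prod]
  calc ∏ k ∈ Finset.range n, ‖2 * (f c)^[k] z‖ ≤ ∏ _k ∈ Finset.range n, (2 * (1 + √‖c‖)) := by
        refine Finset.prod_le_prod (fun k _ => norm_nonneg _) fun k _ => ?_
        rw [norm_mul]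
        have := per_bound hn (per_iter h k)
        have h2 : ‖(2 : ℂ)‖ = 2 := by simp
        rw [h2]
        linarith
    _ = (2 * (1 + √‖c‖)) ^ n := by simp

theorem norm_prod_le' (s : Multiset ℂ) (g : ℂ → ℂ) {K : ℝ} (hK : 0 ≤ K)
    (h : ∀ z ∈ s, ‖g z‖ ≤ K) : ‖(s.map g).prod‖ ≤ K ^ Multiset.card s := by
  induction s using Multiset.induction with
  | empty => simp
  | cons a s ih =>
    rw [Multiset.map_cons, Multiset.prod_cons, Multiset.card_cons, pow_succ', norm_mul]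
    exact mul_le_mul (h a (Multiset.mem_cons_self a s))
      (ih fun z hz => h z (Multiset.mem_cons_of_mem hz)) (norm_nonneg _) hK

theorem QQ_growth {n : ℕ} (hn : 1 ≤ n) (ρ : ℂ) : (QQ n ρ).natDegree ≤ n * 2 ^ (n - 1) := by
  refine natDegree_le_of_growth (K := (4 ^ n + ‖ρ‖) ^ 2 ^ n) fun c hc => ?_
  have hx : 1 ≤ √‖c‖ := by rwa [Real.one_le_sqrt]
  have hs : √‖c‖ ^ 2 = ‖c‖ := Real.sq_sqrt (norm_nonneg c)
  rw [QQ_eval hn]
  have h1 : ∀ z ∈ rts n c, ‖mul n c z - ρ‖ ≤ (4 ^ n + ‖ρ‖) * √‖c‖ ^ n := by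
    intro z hz
    rw [mem_rts hn] at hz
    have h2 := mul_bound hn hz
    have h3 : (2 * (1 + √‖c‖)) ^ n ≤ (4 * √‖c‖) ^ n :=
      pow_le_pow_left₀ (by positivity) (by linarith) n
    have h4 : (1 : ℝ) ≤ √‖c‖ ^ n := one_le_pow₀ hx
    have h5 : ‖ρ‖ ≤ ‖ρ‖ * √‖c‖ ^ n := le_mul_of_one_le_right (norm_nonneg _) h4
    calc ‖mul n c z - ρ‖ ≤ ‖mul n c z‖ + ‖ρ‖ := norm_sub_le _ _
      _ ≤ (4 * √‖c‖) ^ n + ‖ρ‖ * √‖c‖ ^ n := by linarith
      _ = _ := by rw [mul_pow]; ring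
  refine (norm_prod_le' _ _ (by positivity) h1).trans (le_of_eq ?_)
  rw [card_rts hn, mul_pow]
  congr 1
  calc (√‖c‖ ^ n) ^ 2 ^ n = (√‖c‖ ^ 2) ^ (n * 2 ^ (n - 1)) := by
        rw [← pow_mul, ← pow_mul]
        congr 1
        obtain ⟨m, rfl⟩ : ∃ m, n = m + 1 := ⟨n - 1, by omega⟩
        rw [Nat.add_sub_cancel, pow_succ]
        ring
    _ = ‖c‖ ^ (n * 2 ^ (n - 1)) := by rw [hs]

theorem QQ_ne {n : ℕ} (hn : 1 ≤ n) (ρ : ℂ) : QQ n ρ ≠ 0 := by
  intro h0
  set T : ℝ := ‖ρ‖ + 5 with hT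
  have hρ := norm_nonneg ρ
  set c : ℂ := ((T ^ 2 : ℝ) : ℂ) with hc
  have hcn : ‖c‖ = T ^ 2 := by rw [hc, Complex.norm_real, Real.norm_of_nonneg (by positivity)]
  have hsq : √‖c‖ = T := by rw [hcn, Real.sqrt_sq (by linarith)]
  have h1 : (QQ n ρ).eval c = 0 := by rw [h0]; simp
  rw [QQ_eval hn, Multiset.prod_eq_zero_iff, Multiset.mem_map] at h1
  obtain ⟨z, hz, h2⟩ := h1
  rw [mem_rts hn] at hz
  have h3 : ∀ k, T ≤ ‖2 * (f c)^[k] z‖ := by
    intro k
    have h4 := per_bound hn (per_iter hz (k + 1))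
    rw [hsq] at h4
    have h5 : ‖c‖ ≤ ‖(f c)^[k + 1] z‖ + ‖(f c)^[k] z‖ ^ 2 := by
      have h6 : c = (f c)^[k + 1] z - ((f c)^[k] z) ^ 2 := by
        rw [Function.iterate_succ_apply']
        simp [f]
      calc ‖c‖ = ‖(f c)^[k + 1] z - ((f c)^[k] z) ^ 2‖ := by rw [← h6]
        _ ≤ _ := by rw [← norm_pow]; exact norm_sub_le _ _
    rw [hcn] at h5
    have h7 : ‖(2 : ℂ) * (f c)^[k] z‖ = 2 * ‖(f c)^[k] z‖ := by rw [norm_mul]; simp
    rw [h7]
    have h8 := norm_nonneg ((f c)^[k] z)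
    by_contra h9
    push Not at h9
    nlinarith
  have h4 : T ≤ ‖mul n c z‖ := by
    rw [mul_eq_prod, norm_prod]
    calc T ≤ T ^ n := le_self_pow₀ (by linarith) (by omega)
      _ = ∏ _k ∈ Finset.range n, T := by simp
      _ ≤ _ := Finset.prod_le_prod (fun k _ => by linarith) fun k _ => h3 k
  have h5 : mul n c z = ρ := by linear_combination h2
  rw [h5] at h4
  linarith

/-! ### Multiplicities -/

theorem card_le_mult {n : ℕ} (hn : 1 ≤ n) {ρ : ℂ} (hρ : ρ ≠ 1) (c₀ : ℂ) (s : Finset ℂ)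
    (h : ∀ z ∈ s, (f c₀)^[n] z = z ∧ mul n c₀ z = ρ) :
    s.card ≤ (QQ n ρ).rootMultiplicity c₀ := by
  classical
  have h1 : ∀ z ∈ s, ∃ (δ : ℝ) (y : ℂ → ℂ), 0 < δ ∧ DifferentiableOn ℂ y (ball c₀ δ) ∧
      y c₀ = z ∧ ∀ c ∈ ball c₀ δ, (f c)^[n] (y c) = y c := by
    intro z hz
    obtain ⟨δ, η, y, hδ, _, h2, h3, h4, _⟩ := ift_fix (h z hz).1 (by rw [(h z hz).2]; exact hρ)
    exact ⟨δ, y, hδ, h2, h3, h4⟩
  choose! δ y hδ hyd hy0 hyf using h1
  have hda : ∀ z ∈ s, DifferentiableAt ℂ (y z) c₀ := fun z hz =>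
    (hyd z hz).differentiableAt (isOpen_ball.mem_nhds (mem_ball_self (hδ z hz)))
  -- the multiplier is `ρ + O(c - c₀)`
  have h2 : ∀ z ∈ s, ∃ K : ℝ, ∀ᶠ c in 𝓝 c₀, ‖mul n c (y z c) - ρ‖ ≤ K * ‖c - c₀‖ := by
    intro z hz
    have h3 : DifferentiableAt ℂ (fun c => mul n c (y z c)) c₀ := by
      have h4 : AnalyticAt ℂ (fun p : ℂ × ℂ => mul n p.1 p.2) (c₀, y z c₀) := ana_mul n c₀ _
      exact h4.differentiableAt.comp c₀ (differentiableAt_id.prodMk (hda z hz))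
    have h5 := h3.isBigO_sub
    rw [hy0 z hz, (h z hz).2] at h5
    obtain ⟨K, hK⟩ := h5.bound
    exact ⟨K, hK⟩
  choose! K hK using h2
  -- the periodic points are different
  have h3 : ∀ᶠ c in 𝓝 c₀, ∀ z ∈ s, ∀ z' ∈ s, z ≠ z' → y z c ≠ y z' c := by
    rw [Filter.eventually_all_finset]
    intro z hz
    rw [Filter.eventually_all_finset]
    intro z' hz'
    by_cases hzz : z = z'
    · exact Eventually.of_forall fun c hne => (hne hzz).elim
    · have h4 : ContinuousAt (fun c => y z c - y z' c) c₀ :=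
        (hda z hz).continuousAt.sub (hda z' hz').continuousAt
      have h5 : y z c₀ - y z' c₀ ≠ 0 := by
        rw [hy0 z hz, hy0 z' hz']
        exact sub_ne_zero.2 hzz
      filter_upwards [h4.eventually_ne h5] with c hc _ he
      exact hc (by rw [he, sub_self])
  have h4 : ∀ᶠ c in 𝓝 c₀, ∀ z ∈ s, c ∈ ball c₀ (δ z) := by
    rw [Filter.eventually_all_finset]
    exact fun z hz => ball_mem_nhds c₀ (hδ z hz)
  have h5 : ∀ᶠ c in 𝓝 c₀, ∀ z ∈ s, ‖mul n c (y z c) - ρ‖ ≤ K z * ‖c - c₀‖ := by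
    rw [Filter.eventually_all_finset]
    exact hK
  -- the other factors are bounded
  set K₀ : ℝ := (2 * (1 + √(‖c₀‖ + 1))) ^ n + ‖ρ‖ + 1 with hK₀
  have hK₀1 : 1 ≤ K₀ := by
    have : 0 ≤ (2 * (1 + √(‖c₀‖ + 1))) ^ n := by positivity
    have := norm_nonneg ρ
    rw [hK₀]
    linarith
  have h6 : ∀ᶠ c in 𝓝 c₀, ∀ w, (f c)^[n] w = w → ‖mul n c w - ρ‖ ≤ K₀ := by
    filter_upwards [ball_mem_nhds c₀ one_pos] with c hc w hw
    have h7 : ‖c‖ ≤ ‖c₀‖ + 1 := by
      rw [mem_ball, dist_eq_norm] at hc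
      have := norm_sub_norm_le c c₀
      linarith
    have h8 : (2 * (1 + √‖c‖)) ^ n ≤ (2 * (1 + √(‖c₀‖ + 1))) ^ n := by
      refine pow_le_pow_left₀ (by positivity) ?_ n
      have := Real.sqrt_le_sqrt h7
      linarith
    have h9 := mul_bound hn hw
    calc ‖mul n c w - ρ‖ ≤ ‖mul n c w‖ + ‖ρ‖ := norm_sub_le _ _
      _ ≤ K₀ := by rw [hK₀]; linarith
  refine le_rootMultiplicity (QQ_ne hn ρ) (K := (∏ z ∈ s, K z) * K₀ ^ 2 ^ n) ?_
  filter_upwards [h3, h4, h5, h6] with c h3 h4 h5 h6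
  set t : Finset ℂ := s.image fun z => y z c with ht
  have hinj : Set.InjOn (fun z => y z c) s := by
    intro z hz z' hz' he
    by_contra hne
    exact h3 z hz z' hz' hne he
  have htr : t.val ≤ rts n c := by
    rw [Finset.val_le_iff_val_subset]
    intro w hw
    rw [Finset.mem_val, ht, Finset.mem_image] at hw
    obtain ⟨z, hz, rfl⟩ := hw
    exact (mem_rts hn).2 (hyf z hz c (h4 z hz))
  obtain ⟨r, hr⟩ := Multiset.le_iff_exists_add.1 htr
  have hrc : Multiset.card r ≤ 2 ^ n := by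
    have := card_rts hn c
    rw [hr, Multiset.card_add] at this
    omega
  rw [QQ_eval hn, hr, Multiset.map_add, Multiset.prod_add, norm_mul]
  have h7 : ‖(t.val.map fun z => mul n c z - ρ).prod‖ ≤ (∏ z ∈ s, K z) * ‖c - c₀‖ ^ s.card := by
    have h8 : (t.val.map fun z => mul n c z - ρ).prod = ∏ w ∈ t, (mul n c w - ρ) := rfl
    rw [h8, ht, Finset.prod_image hinj, norm_prod]
    calc ∏ z ∈ s, ‖mul n c (y z c) - ρ‖ ≤ ∏ z ∈ s, (K z * ‖c - c₀‖) :=
          Finset.prod_le_prod (fun z _ => norm_nonneg _) fun z hz => h5 z hz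
      _ = _ := by rw [Finset.prod_mul_distrib, Finset.prod_const]
  have h8 : ‖(r.map fun z => mul n c z - ρ).prod‖ ≤ K₀ ^ 2 ^ n := by
    refine (norm_prod_le' r _ (by linarith) fun w hw => h6 w ?_).trans
      (pow_le_pow_right₀ hK₀1 hrc)
    rw [← mem_rts hn, hr]
    exact Multiset.mem_add.2 (Or.inr hw)
  calc _ ≤ ((∏ z ∈ s, K z) * ‖c - c₀‖ ^ s.card) * K₀ ^ 2 ^ n :=
        mul_le_mul h7 h8 (norm_nonneg _) ((norm_nonneg _).trans h7)
    _ = _ := by ring

/-- **The number of points of period `n` with a given multiplier.** -/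
theorem cntn : S_CNTN := by
  classical
  intro n hn
  constructor
  · intro ρ
    refine Set.Finite.subset ((QQ n ρ).roots.toFinset.finite_toSet) ?_
    rintro c ⟨z, hz, hm⟩
    rw [Finset.mem_coe, Multiset.mem_toFinset, Polynomial.mem_roots (QQ_ne hn ρ),
      Polynomial.IsRoot, QQ_eval hn, Multiset.prod_eq_zero_iff, Multiset.mem_map]
    exact ⟨z, (mem_rts hn).2 hz, by rw [hm, sub_self]⟩
  · intro ρ hρ S hS
    have h1 : ∀ c ∈ S.image Prod.fst, (S.filter fun x => x.1 = c).card ≤ (QQ n ρ).roots.count c := by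
      intro c _
      rw [Polynomial.count_roots]
      have h2 : (S.filter fun x => x.1 = c).card = ((S.filter fun x => x.1 = c).image Prod.snd).card := by
        rw [Finset.card_image_of_injOn]
        intro x hx x' hx' he
        rw [Finset.mem_coe, Finset.mem_filter] at hx hx'
        exact Prod.ext (hx.2.trans hx'.2.symm) he
      rw [h2]
      refine card_le_mult hn hρ c _ fun z hz => ?_
      rw [Finset.mem_image] at hz
      obtain ⟨x, hx, rfl⟩ := hz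
      rw [Finset.mem_filter] at hx
      have := hS x hx.1
      rwa [hx.2] at this
    calc S.card = ∑ c ∈ S.image Prod.fst, (S.filter fun x => x.1 = c).card :=
          Finset.card_eq_sum_card_image Prod.fst S
      _ ≤ ∑ c ∈ S.image Prod.fst, (QQ n ρ).roots.count c := Finset.sum_le_sum h1
      _ ≤ Multiset.card (QQ n ρ).roots := by
          refine (Finset.sum_le_sum_of_subset (Finset.subset_union_left
            (s₂ := (QQ n ρ).roots.toFinset))).trans (le_of_eq ?_)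
          exact Multiset.sum_count_eq_card fun c hc =>
            Finset.mem_union_right _ (Multiset.mem_toFinset.2 hc)
      _ ≤ (QQ n ρ).natDegree := Polynomial.card_roots' _
      _ ≤ n * 2 ^ (n - 1) := QQ_growth hn ρ

end Pool.Agent.KS6_23.ML.CNTN
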