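import Pool.Agent.KS6_23.ML.CodeA

set_option autoImplicit false

/-! # Project ML, module 5: codes of the periodic points outside of `M` -/

open Complex Set Filter Metric Topology

namespace Pool.Agent.KS6_23.ML.CODE

open Pool.Agent.KS6_23.ML Pool.Agent.KS6_23.ML.Basic Pool.Agent.KS6_23.ML.XTools

section

variable {G : ℂ → ℂ → ℝ} {B : ℂ → ℂ → ℂ} {cc : ℂ → ℂ} {lam : ℂ → ℂ → ℂ}

open Classical in
/-- the point with the code `e` -/
noncomputable def ZZ (cc : ℂ → ℂ) (lam : ℂ → ℂ → ℂ) (e : ℕ → Bool) (w : ℂ) : ℂ :=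
  if h : ∃ z, HC cc lam w e z then h.choose else 0

theorem ZZ_spec (h : Base G B cc) (hl : Lam B cc lam) {w : ℂ} (hw : w ∈ HP) {n : ℕ}
    (hn : 1 ≤ n) {e : ℕ → Bool} (he : Per n e) : HC cc lam w e (ZZ cc lam e w) := by
  obtain ⟨z, hz, -⟩ := HC_exists h hl hw hn he
  have h1 : ∃ z, HC cc lam w e z := ⟨z, hz⟩
  unfold ZZ
  rw [dif_pos h1]
  exact h1.choose_spec

theorem ZZ_eq (h : Base G B cc) (hl : Lam B cc lam) {w : ℂ} (hw : w ∈ HP) {n : ℕ}
    (hn : 1 ≤ n) {e : ℕ → Bool} (he : Per n e) {z : ℂ} (hz : HC cc lam w e z) :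
    ZZ cc lam e w = z :=
  HC_uniq h hl hw (ZZ_spec h hl hw hn he) hz

theorem ZZ_fix (h : Base G B cc) (hl : Lam B cc lam) {w : ℂ} (hw : w ∈ HP) {n : ℕ}
    (hn : 1 ≤ n) {e : ℕ → Bool} (he : Per n e) :
    (f (cc w))^[n] (ZZ cc lam e w) = ZZ cc lam e w := by
  obtain ⟨z, hz, hf, -⟩ := HC_exists h hl hw hn he
  rw [ZZ_eq h hl hw hn he hz]
  exact hf

theorem per_sh {n : ℕ} {e : ℕ → Bool} (he : Per n e) (k : ℕ) : Per n (sh k e) := by
  intro j
  have := he (j + k)
  unfold sh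
  rw [← this]
  congr 1
  ring

theorem per_opp {n : ℕ} {e : ℕ → Bool} (he : Per n e) : Per n (opp e) := by
  intro j
  unfold opp
  rw [he j]

theorem per_mod {n : ℕ} {e : ℕ → Bool} (he : Per n e) (k : ℕ) : e k = e (k % n) := by
  have h1 : ∀ j i : ℕ, e (i + j * n) = e i := by
    intro j
    induction j with
    | zero => intro i; simp
    | succ j ih =>
      intro i
      rw [Nat.succ_mul, ← add_assoc, he, ih]
  have h2 := h1 (k / n) (k % n)
  rwa [Nat.mod_add_div' k n] at h2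

theorem iter_mod {c z : ℂ} {n : ℕ} (hz : (f c)^[n] z = z) (k : ℕ) :
    (f c)^[k] z = (f c)^[k % n] z := by
  conv_lhs => rw [← Nat.mod_add_div' k n, Function.iterate_add_apply, iter_mul c z n hz]

theorem ZZ_rep (h : Base G B cc) (hl : Lam B cc lam) {w : ℂ} (hw : w ∈ HP) {n : ℕ}
    (hn : 1 ≤ n) {e : ℕ → Bool} (he : Per n e) : 1 < ‖mul n (cc w) (ZZ cc lam e w)‖ := by
  obtain ⟨z, hz, hf, hzV, hb, hd⟩ := HC_exists h hl hw hn he
  rw [ZZ_eq h hl hw hn he hz]
  have h1 : HasDerivAt (br lam w n e) (deriv (br lam w n e) z) z :=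
    ((br_diff h hl hw n e).differentiableAt ((VV_open h w).mem_nhds hzV)).hasDerivAt
  have h2 : HasDerivAt ((f (cc w))^[n]) (mul n (cc w) z) (br lam w n e z) := by
    rw [hb]; exact hasDerivAt_iter n (cc w) z
  have h3 := h2.comp z h1
  have h4 : (fun u : ℂ => u) =ᶠ[𝓝 z] (f (cc w))^[n] ∘ br lam w n e := by
    filter_upwards [(VV_open h w).mem_nhds hzV] with u hu
    exact (f_br h hl hw n e u hu).symm
  have h5 := (h3.congr_of_eventuallyEq h4).unique (hasDerivAt_id z)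
  have h6 := congrArg norm h5
  rw [norm_mul, norm_one] at h6
  by_contra hcon
  push Not at hcon
  have h7 := norm_nonneg (deriv (br lam w n e) z)
  nlinarith

/-- the local form of the periodic points with a given code -/
theorem ZZ_local (h : Base G B cc) (hl : Lam B cc lam) {w₀ : ℂ} (hw₀ : w₀ ∈ HP) {n : ℕ}
    (hn : 1 ≤ n) {e : ℕ → Bool} (he : Per n e) : DifferentiableAt ℂ (ZZ cc lam e) w₀ := by
  have hHP : IsOpen HP := isOpen_lt continuous_const continuous_re
  have hfix := ZZ_fix h hl hw₀ hn he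
  have hrep := ZZ_rep h hl hw₀ hn he
  have hspec := ZZ_spec h hl hw₀ hn he
  obtain ⟨z₀, hz₀⟩ : ∃ z₀, z₀ = ZZ cc lam e w₀ := ⟨_, rfl⟩
  rw [← hz₀] at hfix hrep hspec
  have hne1 : mul n (cc w₀) z₀ ≠ 1 := by
    intro h1
    rw [h1, norm_one] at hrep
    exact lt_irrefl _ hrep
  obtain ⟨δ, η, y, hδ, hη, hy, hy0, hyF, -⟩ := ift_fix hfix hne1
  have hccd : DifferentiableAt ℂ cc w₀ := h.pdiff.differentiableAt (hHP.mem_nhds hw₀)
  have hyd : DifferentiableAt ℂ y (cc w₀) := hy.differentiableAt (ball_mem_nhds _ hδ)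
  have hyc : ContinuousAt (fun w => y (cc w)) w₀ := hyd.continuousAt.comp' hccd.continuousAt
  have hev1 : ∀ᶠ w in 𝓝 w₀, cc w ∈ ball (cc w₀) δ :=
    hccd.continuousAt (ball_mem_nhds _ hδ)
  -- the orbit
  have hyk : ∀ k, ContinuousAt (fun w => (f (cc w))^[k] (y (cc w))) w₀ := by
    intro k
    exact ((cont_iter k).continuousAt (x := (cc w₀, y (cc w₀)))).comp'
      (f := fun w => (cc w, y (cc w))) (hccd.continuousAt.prodMk hyc)
  have hev2 : ∀ k, ∀ᶠ w in 𝓝 w₀, (f (cc w))^[k] (y (cc w)) =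
      gg lam w (e k) ((f (cc w))^[k + 1] (y (cc w))) := by
    intro k
    have hin0 : (f (cc w₀))^[k + 1] (y (cc w₀)) ∉ Gam B cc w₀ := by
      refine not_Gam h hw₀ (cc_mem h hw₀ ?_)
      rw [hy0]
      exact G_per h hn (iter_fix hfix (k + 1))
    have hlc : ContinuousAt (fun w => lam w ((f (cc w))^[k + 1] (y (cc w)))) w₀ := by
      have h2 : ContinuousAt (fun p : ℂ × ℂ => lam p.1 p.2)
          (w₀, (f (cc w₀))^[k + 1] (y (cc w₀))) :=
        hl.cont.continuousAt (hl.opn.mem_nhds ⟨hw₀, hin0⟩)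
      exact h2.comp' (f := fun w : ℂ => (w, (f (cc w))^[k + 1] (y (cc w))))
        (continuousAt_id.prodMk (hyk (k + 1)))
    have hgc : ContinuousAt (fun w => gg lam w (e k) ((f (cc w))^[k + 1] (y (cc w)))) w₀ := by
      unfold gg
      exact ((hlc.div_const 2).add_const _).cexp
    have hsum := (hyk k).add hgc
    have hne : (f (cc w₀))^[k] (y (cc w₀)) +
        gg lam w₀ (e k) ((f (cc w₀))^[k + 1] (y (cc w₀))) ≠ 0 := by
      rw [hy0, ← hspec.2 k]
      have h3 : (f (cc w₀))^[k] z₀ ≠ 0 := by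
        rw [hspec.2 k]; exact gg_ne _ _ _
      intro h4
      apply h3
      have h5 : (2 : ℂ) * (f (cc w₀))^[k] z₀ = 0 := by rw [two_mul]; exact h4
      simpa using h5
    have hev3 := hsum.eventually_ne hne
    filter_upwards [hev1, hev3, hHP.mem_nhds hw₀] with w hw1 hw2 hw3
    have hfw := hyF (cc w) hw1
    have hin : (f (cc w))^[k + 1] (y (cc w)) ∉ Gam B cc w :=
      not_Gam h hw3 (cc_mem h hw3 (G_per h hn (iter_fix hfw (k + 1))))
    have hsq : gg lam w (e k) ((f (cc w))^[k + 1] (y (cc w))) ^ 2 =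
        ((f (cc w))^[k] (y (cc w))) ^ 2 := by
      rw [gg_sq hl hw3 hin, iter_succ]
      ring
    rcases sq_eq_sq_iff_eq_or_eq_neg.1 hsq with h3 | h3
    · exact h3.symm
    · exfalso
      apply hw2
      show (f (cc w))^[k] (y (cc w)) + gg lam w (e k) ((f (cc w))^[k + 1] (y (cc w))) = 0
      rw [h3]
      ring
  have hev4 : ∀ᶠ w in 𝓝 w₀, ∀ k ∈ Finset.range n, (f (cc w))^[k] (y (cc w)) =
      gg lam w (e k) ((f (cc w))^[k + 1] (y (cc w))) :=
    (Filter.eventually_all_finset _).2 fun k _ => hev2 k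
  have hEq : ZZ cc lam e =ᶠ[𝓝 w₀] fun w => y (cc w) := by
    filter_upwards [hev1, hev4, hHP.mem_nhds hw₀] with w hw1 hw2 hw3
    have hfw := hyF (cc w) hw1
    refine ZZ_eq h hl hw3 hn he ⟨⟨n, hn, hfw⟩, fun k => ?_⟩
    have h1 : k % n < n := Nat.mod_lt _ (by omega)
    have h2 := hw2 (k % n) (Finset.mem_range.2 h1)
    have h3 : (f (cc w))^[k + 1] (y (cc w)) = (f (cc w))^[k % n + 1] (y (cc w)) := by
      rw [Function.iterate_succ_apply', Function.iterate_succ_apply', iter_mod hfw k]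
    rw [h3, iter_mod hfw k, per_mod he k]
    exact h2
  exact (hyd.comp w₀ hccd).congr_of_eventuallyEq hEq

theorem gg_T (hl : Lam B cc lam) {w : ℂ} (hw : w ∈ HP) {u : ℂ} (hu : u ∉ Gam B cc w) (ε : Bool) :
    gg lam (w + tpi) ε u = gg lam w (!ε) u := by
  unfold gg
  rw [hl.per w hw u hu]
  cases ε
  · simp only [bt, Bool.not_false, if_true, ofReal_one, mul_one]
    unfold tpi
    congr 1
    simp
    ring
  · simp only [bt, Bool.not_true, if_true, ofReal_one, mul_one]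
    have h1 : (lam w u + tpi) / 2 + Real.pi * I = lam w u / 2 + 2 * Real.pi * I := by
      unfold tpi; ring
    rw [h1, exp_add, exp_two_pi_mul_I]
    simp

end

/-- **Module 5.** -/
theorem code : S_CODE := by
  intro G B cc lam h hl
  obtain ⟨ell, hell⟩ : ∃ ell : (ℕ → Bool) → ℂ → ℂ, ell = fun e w =>
      Real.log 2 + lam w (ZZ cc lam (sh 1 e) w) / 2 + Real.pi * bt (e 0) * I := ⟨_, rfl⟩
  have hHP : IsOpen HP := isOpen_lt continuous_const continuous_re
  have hG0 : ∀ n, 1 ≤ n → ∀ e, Per n e → ∀ w ∈ HP, G (cc w) (ZZ cc lam e w) = 0 :=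
    fun n hn e he w hw => G_per h hn (ZZ_fix h hl hw hn he)
  have hmem : ∀ n, 1 ≤ n → ∀ e, Per n e → ∀ w ∈ HP, ZZ cc lam e w ∉ Gam B cc w :=
    fun n hn e he w hw => not_Gam h hw (cc_mem h hw (hG0 n hn e he w hw))
  have hzf : ∀ n, 1 ≤ n → ∀ e, Per n e → ∀ w ∈ HP,
      f (cc w) (ZZ cc lam e w) = ZZ cc lam (sh 1 e) w := by
    intro n hn e he w hw
    exact (ZZ_eq h hl hw hn (per_sh he 1) (HC_sh (ZZ_spec h hl hw hn he))).symm
  have hcode : ∀ n, 1 ≤ n → ∀ e, Per n e → ∀ w ∈ HP,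
      ZZ cc lam e w = exp (lam w (ZZ cc lam (sh 1 e) w) / 2 + Real.pi * bt (e 0) * I) := by
    intro n hn e he w hw
    have h1 := (ZZ_spec h hl hw hn he).2 0
    rw [Function.iterate_zero, id, zero_add, Function.iterate_one, hzf n hn e he w hw] at h1
    exact h1
  have hzT : ∀ n, 1 ≤ n → ∀ e, Per n e → ∀ w ∈ HP,
      ZZ cc lam e (w + tpi) = ZZ cc lam (opp e) w := by
    intro n hn e he w hw
    have hwT : w + tpi ∈ HP := by
      have := HP_add_int hw 1
      simpa using this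
    have h1 := ZZ_spec h hl hw hn (per_opp he)
    obtain ⟨h2, h3⟩ := h1
    refine ZZ_eq h hl hwT hn he ⟨?_, fun k => ?_⟩
    · rw [h.pper w hw]; exact h2
    · rw [h.pper w hw, gg_T hl hw]
      · exact h3 k
      · refine not_Gam h hw (cc_mem h hw ?_)
        exact G_per h hn (iter_fix (ZZ_fix h hl hw hn (per_opp he)) (k + 1))
  refine ⟨ZZ cc lam, ell, hG0, hmem, ?_, ?_, hzf, hcode, ?_, ?_, ?_, ?_, hzT, ?_⟩
  · intro n hn e he w hw
    exact (ZZ_local h hl hw hn he).differentiableWithinAt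
  · intro n hn e he w hw
    refine DifferentiableAt.differentiableWithinAt ?_
    refine diff_of_exp (h := fun u => 2 * ZZ cc lam e u) ?_ ?_
      ((ZZ_local h hl hw hn he).const_mul 2)
    · rw [hell]
      have h1 : ContinuousAt (fun u => lam u (ZZ cc lam (sh 1 e) u)) w := by
        have h2 : ContinuousAt (fun p : ℂ × ℂ => lam p.1 p.2) (w, ZZ cc lam (sh 1 e) w) :=
          hl.cont.continuousAt (hl.opn.mem_nhds ⟨hw, hmem n hn _ (per_sh he 1) w hw⟩)
        exact h2.comp' (f := fun u : ℂ => (u, ZZ cc lam (sh 1 e) u))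
          (continuousAt_id.prodMk (ZZ_local h hl hw hn (per_sh he 1)).continuousAt)
      exact (continuousAt_const.add (h1.div_const 2)).add_const _
    · filter_upwards [hHP.mem_nhds hw] with u hu
      rw [hell]
      simp only
      rw [add_assoc, exp_add, ← hcode n hn e he u hu]
      congr 1
      rw [← ofReal_exp, Real.exp_log (by norm_num)]
      norm_num
  · intro n hn e he w hw
    rw [hell]
  · intro n hn e e' he he' w hw heq
    have h1 := ZZ_spec h hl hw hn he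
    have h2 := ZZ_spec h hl hw hn he'
    rw [← heq] at h2
    funext k
    have h3 := h1.2 k
    rw [h2.2 k] at h3
    exact (gg_inj h3).symm
  · intro n hn w hw z hz
    obtain ⟨e, he⟩ := HC_surj h hl hw hn hz
    have hp := HC_per he hz
    exact ⟨e, hp, ZZ_eq h hl hw hn hp he⟩
  · intro n hn e he w hw
    exact ZZ_rep h hl hw hn he
  · intro n hn e he w hw
    rw [hell]
    simp only
    have h1 : sh 1 (opp e) = opp (sh 1 e) := rfl
    rw [hzT n hn _ (per_sh he 1) w hw, h1,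
      hl.per w hw _ (hmem n hn _ (per_opp (per_sh he 1)) w hw)]
    unfold opp bt tpi
    cases e 0
    · simp
      ring
    · simp
      ring

end Pool.Agent.KS6_23.ML.CODE
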