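import Pool.Agent.KS6_23.ML.Stm2

set_option autoImplicit false

/-!
# Project ML, module 16: the critical value is always in the same gap of the angles
-/

open Complex Set Filter Metric Topology MeasureTheory

namespace Pool.Agent.KS6_23.ML.COMB

open Pool.Agent.KS6_23.ML

/-- indices with the same codes -/
def Eqv (e e' : ℕ → Bool) (k k' : ℕ) : Prop :=
  (∀ j, e (k + j) = e (k' + j)) ∧ ∀ j, e' (k + j) = e' (k' + j)

/-- the side of the angles, up to integers -/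
def H (η : ℝ) (e : ℕ → Bool) (θ : ℕ → ℝ) : Prop :=
  ∀ k, ∃ m : ℤ, bt (e k) + 2 * m < 2 * θ k - η ∧ 2 * θ k - η < bt (e k) + 2 * m + 1

/-- the bit as an integer -/
def bi (b : Bool) : ℤ := if b then 1 else 0

theorem bi_cast (b : Bool) : ((bi b : ℤ) : ℝ) = bt b := by
  cases b <;> simp [bi, bt]

theorem bi_inj {b b' : Bool} (h : bi b % 2 = bi b' % 2) : b = b' := by
  cases b <;> cases b' <;> simp_all [bi]

theorem H_of_side {η : ℝ} {e : ℕ → Bool} {θ : ℕ → ℝ} (h : Side η e θ) : H η e θ := by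
  intro k
  obtain ⟨h1, h2⟩ := h k
  refine ⟨0, ?_, ?_⟩
  · push_cast; linarith
  · push_cast; linarith

theorem H_congr {η : ℝ} {e : ℕ → Bool} {θ θ' : ℕ → ℝ} (h : H η e θ')
    (hθ : ∀ k, ∃ m : ℤ, θ' k = θ k + m) : H η e θ := by
  intro k
  obtain ⟨m, hm⟩ := hθ k
  obtain ⟨m', h1, h2⟩ := h k
  rw [hm] at h1 h2
  refine ⟨m' - m, ?_, ?_⟩
  · push_cast; linarith
  · push_cast; linarith

theorem H_at {η : ℝ} {e : ℕ → Bool} {θ : ℕ → ℝ} (h : H η e θ) (k : ℕ) (m : ℤ) : ∃ A : ℤ,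
    A % 2 = bi (e k) % 2 ∧ (A : ℝ) < 2 * (θ k + m) - η ∧ 2 * (θ k + m) - η < A + 1 := by
  obtain ⟨m', h1, h2⟩ := h k
  refine ⟨bi (e k) + 2 * m' + 2 * m, by omega, ?_, ?_⟩
  · push_cast; rw [bi_cast]; linarith
  · push_cast; rw [bi_cast]; linarith

/-- the linking relation -/
def Lk (θ : ℕ → ℝ) (k i k' i' : ℕ) : Prop := ∃ m0 m1 m2 m3 : ℤ,
  θ k + m0 < θ i + m1 ∧ θ i + m1 < θ k' + m2 ∧ θ k' + m2 < θ i' + m3 ∧ θ i' + m3 < θ k + m0 + 1

theorem le_of_lt_of_lt {A A' : ℤ} {x y η : ℝ} (h1 : (A : ℝ) < 2 * x - η) (h2 : x < y)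
    (h3 : 2 * y - η < A' + 1) : A ≤ A' := by
  have : (A : ℝ) < A' + 1 := by linarith
  have : A < A' + 1 := by exact_mod_cast this
  omega

theorem link_code {η : ℝ} {e : ℕ → Bool} {θ : ℕ → ℝ} (h : H η e θ) {k i k' i' : ℕ}
    (hk : e k = e k') (hi : e i = e i') (hL : Lk θ k i k' i') : e k = e i := by
  obtain ⟨m0, m1, m2, m3, h1, h2, h3, h4⟩ := hL
  obtain ⟨A0, p0, q0, r0⟩ := H_at h k m0
  obtain ⟨A1, p1, q1, r1⟩ := H_at h i m1
  obtain ⟨A2, p2, q2, r2⟩ := H_at h k' m2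
  obtain ⟨A3, p3, q3, r3⟩ := H_at h i' m3
  have l1 : A0 ≤ A1 := le_of_lt_of_lt q0 h1 r1
  have l2 : A1 ≤ A2 := le_of_lt_of_lt q1 h2 r2
  have l3 : A2 ≤ A3 := le_of_lt_of_lt q2 h3 r3
  have l4 : A3 ≤ A0 + 2 := by
    refine le_of_lt_of_lt q3 h4 ?_
    push_cast; linarith
  rw [← hk] at p2
  rw [← hi] at p3
  apply bi_inj
  omega

theorem link_step {η : ℝ} {N : ℕ} {e : ℕ → Bool} {θ : ℕ → ℝ} {a : ℕ → ℤ} (hA : Ang N θ a)
    (h : H η e θ) {k i k' i' : ℕ}
    (hk : e k = e k') (hi : e i = e i') (hL : Lk θ k i k' i') :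
    Lk θ (k + 1) (i + 1) (k' + 1) (i' + 1) := by
  have hc := link_code h hk hi hL
  obtain ⟨m0, m1, m2, m3, h1, h2, h3, h4⟩ := hL
  obtain ⟨A0, p0, q0, r0⟩ := H_at h k m0
  obtain ⟨A1, p1, q1, r1⟩ := H_at h i m1
  obtain ⟨A2, p2, q2, r2⟩ := H_at h k' m2
  obtain ⟨A3, p3, q3, r3⟩ := H_at h i' m3
  have l1 : A0 ≤ A1 := le_of_lt_of_lt q0 h1 r1
  have l2 : A1 ≤ A2 := le_of_lt_of_lt q1 h2 r2
  have l3 : A2 ≤ A3 := le_of_lt_of_lt q2 h3 r3
  have l4 : A3 ≤ A0 + 2 := by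
    refine le_of_lt_of_lt q3 h4 ?_
    push_cast; linarith
  rw [← hk] at p2
  rw [← hi, ← hc] at p3
  rw [← hc] at p1
  have s0 := hA.step k
  have s1 := hA.step i
  have s2 := hA.step k'
  have s3 := hA.step i'
  by_cases c1 : A1 = A0 + 2
  · -- jump between the first and the second
    have : (A1 : ℝ) = A0 + 2 := by exact_mod_cast c1
    refine ⟨a k + 2 * m0 + 1, a i + 2 * m1, a k' + 2 * m2, a i' + 2 * m3, ?_, ?_, ?_, ?_⟩ <;>
    · push_cast; linarith
  · by_cases c2 : A2 = A0 + 2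
    · have c1' : A1 = A0 := by omega
      have e1 : (A1 : ℝ) = A0 := by exact_mod_cast c1'
      have e2 : (A2 : ℝ) = A0 + 2 := by exact_mod_cast c2
      refine ⟨a k + 2 * m0 + 1, a i + 2 * m1 + 1, a k' + 2 * m2, a i' + 2 * m3, ?_, ?_, ?_, ?_⟩ <;>
      · push_cast; linarith
    · by_cases c3 : A3 = A0 + 2
      · have c2' : A2 = A0 := by omega
        have e2 : (A2 : ℝ) = A0 := by exact_mod_cast c2'
        have e3 : (A3 : ℝ) = A0 + 2 := by exact_mod_cast c3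
        refine ⟨a k + 2 * m0 + 1, a i + 2 * m1 + 1, a k' + 2 * m2 + 1, a i' + 2 * m3,
          ?_, ?_, ?_, ?_⟩ <;>
        · push_cast; linarith
      · have c3' : A3 = A0 := by omega
        have e3 : (A3 : ℝ) = A0 := by exact_mod_cast c3'
        refine ⟨a k + 2 * m0, a i + 2 * m1, a k' + 2 * m2, a i' + 2 * m3, ?_, ?_, ?_, ?_⟩ <;>
        · push_cast; linarith

/-- classes with different codes are not linked -/
theorem eqv_of_link {η η' : ℝ} {N : ℕ} {e e' : ℕ → Bool} {θ : ℕ → ℝ} {a : ℕ → ℤ}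
    (hA : Ang N θ a) (h : H η e θ) (h' : H η' e' θ) {k i k' i' : ℕ} (hk : Eqv e e' k k')
    (hi : Eqv e e' i i') (hL : Lk θ k i k' i') : Eqv e e' k i := by
  have hall : ∀ j, Lk θ (k + j) (i + j) (k' + j) (i' + j) := by
    intro j
    induction j with
    | zero => exact hL
    | succ j ih => exact link_step hA h (hk.1 j) (hi.1 j) ih
  exact ⟨fun j => link_code h (hk.1 j) (hi.1 j) (hall j),
    fun j => link_code h' (hk.2 j) (hi.2 j) (hall j)⟩

theorem code_eq {η : ℝ} {e : ℕ → Bool} {θ : ℕ → ℝ} (h : H η e θ) {i k : ℕ} {m : ℤ}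
    (he : θ i = θ k + m) : e i = e k := by
  obtain ⟨A0, p0, q0, r0⟩ := H_at h i 0
  obtain ⟨A1, p1, q1, r1⟩ := H_at h k m
  rw [← he] at q1 r1
  push_cast at q0 r0
  rw [add_zero] at q0 r0
  have e1 : (A0 : ℝ) < A1 + 1 := by linarith
  have e2 : (A1 : ℝ) < A0 + 1 := by linarith
  have e3 : A0 < A1 + 1 := by exact_mod_cast e1
  have e4 : A1 < A0 + 1 := by exact_mod_cast e2
  apply bi_inj
  omega

theorem congr_add {N : ℕ} {θ : ℕ → ℝ} {a : ℕ → ℤ} (hA : Ang N θ a) {i k : ℕ} {m : ℤ}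
    (he : θ i = θ k + m) (j : ℕ) : ∃ m' : ℤ, θ (i + j) = θ (k + j) + m' := by
  induction j with
  | zero => exact ⟨m, he⟩
  | succ j ih =>
    obtain ⟨m', hm'⟩ := ih
    have s0 := hA.step (i + j)
    have s1 := hA.step (k + j)
    refine ⟨2 * m' + a (k + j) - a (i + j), ?_⟩
    rw [← add_assoc, ← add_assoc]
    push_cast
    linarith

theorem eqv_of_congr {η η' : ℝ} {N : ℕ} {e e' : ℕ → Bool} {θ : ℕ → ℝ} {a : ℕ → ℤ}
    (hA : Ang N θ a) (h : H η e θ) (h' : H η' e' θ) {i k : ℕ} {m : ℤ}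
    (he : θ i = θ k + m) : Eqv e e' i k := by
  refine ⟨fun j => ?_, fun j => ?_⟩
  · obtain ⟨m', hm'⟩ := congr_add hA he j
    exact code_eq h hm'
  · obtain ⟨m', hm'⟩ := congr_add hA he j
    exact code_eq h' hm'

theorem Eqv.symm {e e' : ℕ → Bool} {k k' : ℕ} (h : Eqv e e' k k') : Eqv e e' k' k :=
  ⟨fun j => (h.1 j).symm, fun j => (h.2 j).symm⟩

theorem Eqv.trans {e e' : ℕ → Bool} {k k' k'' : ℕ} (h : Eqv e e' k k') (h' : Eqv e e' k' k'') :
    Eqv e e' k k'' :=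
  ⟨fun j => (h.1 j).trans (h'.1 j), fun j => (h.2 j).trans (h'.2 j)⟩

theorem per_mul {α : Type*} {x : ℕ → α} {N : ℕ} (h : ∀ k, x (k + N) = x k) (k q : ℕ) :
    x (k + N * q) = x k := by
  induction q with
  | zero => simp
  | succ q ih => rw [Nat.mul_succ, ← add_assoc, h, ih]

theorem per_mod {α : Type*} {x : ℕ → α} {N : ℕ} (h : ∀ k, x (k + N) = x k) (k : ℕ) :
    x (k % N) = x k := by
  have := per_mul h (k % N) (k / N)
  rw [Nat.mod_add_div] at this
  exact this.symm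

theorem eqv_mod {e e' : ℕ → Bool} {N : ℕ} (h : Per N e) (h' : Per N e') (k : ℕ) :
    Eqv e e' (k % N) k := by
  have key : ∀ (x : ℕ → Bool), Per N x → ∀ j, x (k % N + j) = x (k + j) := by
    intro x hx j
    have := per_mul hx (k % N + j) (k / N)
    rw [← this]
    congr 1
    have := Nat.mod_add_div k N
    omega
  exact ⟨key e h, key e' h'⟩

/-- the predecessors of equivalent indices are equivalent -/
theorem eqv_pred {e e' : ℕ → Bool} {N : ℕ} (hN : 1 ≤ N) (h : Per N e) (h' : Per N e') {k k' : ℕ}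
    (hk : Eqv e e' k k') : Eqv e e' (k + N - 1) (k' + N - 1) := by
  have key : ∀ (x : ℕ → Bool), Per N x → (∀ j, x (k + j) = x (k' + j)) →
      ∀ j, x (k + N - 1 + j) = x (k' + N - 1 + j) := by
    intro x hx hxk j
    have h1 : k + N - 1 + j = k + (N - 1 + j) := by omega
    have h2 : k' + N - 1 + j = k' + (N - 1 + j) := by omega
    rw [h1, h2, hxk]
  exact ⟨key e h hk.1, key e' h' hk.2⟩

/-- there are different angles in every class -/
theorem nontrivial {n N : ℕ} {θ : ℕ → ℝ} {a : ℕ → ℤ} {e : ℕ → Bool} {η : ℝ} (hd : n ∣ N)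
    (he : Per n e) (hA : Ang N θ a) (hS : Side η e θ)
    (hni : ¬ ((N : ℤ) ∣ n * ∑ k ∈ Finset.range N, a k)) (i : ℕ) (m : ℤ) :
    θ (i + n) ≠ θ i + m := by
  intro hi
  apply hni
  have h1 : ∀ j, ∃ m' : ℤ, θ (j + n) = θ j + m' := by
    intro j
    obtain ⟨m', hm'⟩ := congr_add hA hi (j + N * i - i)
    have hN := hA.pos
    have hle : i ≤ N * i := Nat.le_mul_of_pos_left i hN
    have e1 : i + n + (j + N * i - i) = (j + n) + N * i := by omega
    have e2 : i + (j + N * i - i) = j + N * i := by omega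
    rw [e1, e2, per_mul hA.per, per_mul hA.per] at hm'
    exact ⟨m', hm'⟩
  have h2 : ∀ j, θ (j + n) = θ j := by
    intro j
    obtain ⟨m', hm'⟩ := h1 j
    obtain ⟨s1, s2⟩ := hS j
    obtain ⟨s3, s4⟩ := hS (j + n)
    rw [he j] at s3 s4
    have e1 : (m' : ℝ) < 1 := by linarith
    have e2 : (-1 : ℝ) < m' := by linarith
    have e3 : m' < 1 := by exact_mod_cast e1
    have e4 : -1 < m' := by exact_mod_cast e2
    have e5 : m' = 0 := by omega
    rw [hm', e5]; simp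
  have h3 : ∀ j, a (j + n) = a j := by
    intro j
    have s0 := hA.step j
    have s1 := hA.step (j + n)
    have e1 : j + n + 1 = (j + 1) + n := by ring
    rw [e1, h2, h2] at s1
    have : (a (j + n) : ℝ) = a j := by linarith
    exact_mod_cast this
  obtain ⟨q, rfl⟩ := hd
  have h4 : ∀ q : ℕ, ∑ k ∈ Finset.range (n * q), a k = q * ∑ k ∈ Finset.range n, a k := by
    intro q
    induction q with
    | zero => simp
    | succ q ih =>
      rw [Nat.mul_succ, Finset.sum_range_add, ih]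
      have : ∑ x ∈ Finset.range n, a (n * q + x) = ∑ x ∈ Finset.range n, a x := by
        refine Finset.sum_congr rfl fun x _ => ?_
        rw [add_comm (n * q) x]
        exact per_mul h3 x q
      rw [this]
      push_cast
      ring
  rw [h4 q]
  refine ⟨∑ k ∈ Finset.range n, a k, ?_⟩
  push_cast
  ring

/-- the minimal distance -/
noncomputable def Dm (θ : ℕ → ℝ) (k k' : ℕ) : ℝ := 1 - Int.fract (θ k - θ k')

theorem Dm_pos (θ : ℕ → ℝ) (k k' : ℕ) : 0 < Dm θ k k' := by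
  unfold Dm
  linarith [Int.fract_lt_one (θ k - θ k')]

theorem Dm_le (θ : ℕ → ℝ) (k k' : ℕ) (m : ℤ) (h : 0 < θ k' + m - θ k) :
    Dm θ k k' ≤ θ k' + m - θ k := by
  have h1 : Int.fract (θ k - θ k') = θ k - θ k' - ⌊θ k - θ k'⌋ := rfl
  unfold Dm
  rw [h1]
  have h2 : ⌊θ k - θ k'⌋ < m := by
    rw [Int.floor_lt]
    linarith
  have h3 : (⌊θ k - θ k'⌋ : ℝ) + 1 ≤ m := by exact_mod_cast h2
  linarith

theorem Dm_eq (θ : ℕ → ℝ) (k k' : ℕ) : ∃ m : ℤ, θ k' + m = θ k + Dm θ k k' := by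
  refine ⟨⌊θ k - θ k'⌋ + 1, ?_⟩
  have h1 : Int.fract (θ k - θ k') = θ k - θ k' - ⌊θ k - θ k'⌋ := rfl
  unfold Dm
  rw [h1]
  push_cast
  ring

open Classical in
theorem exists_min {N : ℕ} {e e' : ℕ → Bool} {θ : ℕ → ℝ} {a : ℕ → ℤ} (hA : Ang N θ a)
    (he : Per N e) (he' : Per N e') : ∃ k₀ k₀' : ℕ, Eqv e e' k₀ k₀' ∧
      ∀ k k', Eqv e e' k k' → Dm θ k₀ k₀' ≤ Dm θ k k' := by
  have hN := hA.pos
  set T : Finset (ℕ × ℕ) := (Finset.range N ×ˢ Finset.range N).filter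
    (fun p => Eqv e e' p.1 p.2) with hT
  have hne : T.Nonempty := by
    refine ⟨(0, 0), ?_⟩
    rw [hT, Finset.mem_filter, Finset.mem_product, Finset.mem_range]
    exact ⟨⟨hN, hN⟩, fun _ => rfl, fun _ => rfl⟩
  obtain ⟨p, hp, hmin⟩ := T.exists_min_image (fun p => Dm θ p.1 p.2) hne
  rw [hT, Finset.mem_filter] at hp
  refine ⟨p.1, p.2, hp.2, fun k k' hk => ?_⟩
  have h1 : Eqv e e' (k % N) (k' % N) :=
    ((eqv_mod he he' k).trans hk).trans (eqv_mod he he' k').symm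
  have h2 := hmin (k % N, k' % N) (by
    rw [hT, Finset.mem_filter, Finset.mem_product, Finset.mem_range, Finset.mem_range]
    exact ⟨⟨Nat.mod_lt _ hN, Nat.mod_lt _ hN⟩, h1⟩)
  have h3 : Dm θ (k % N) (k' % N) = Dm θ k k' := by
    unfold Dm
    rw [per_mod hA.per, per_mod hA.per]
  simp only at h2
  rwa [h3] at h2

/-- the critical value is in the minimal interval -/
theorem crit_mem {η : ℝ} {N : ℕ} {e e' : ℕ → Bool} {θ : ℕ → ℝ} {a : ℕ → ℤ} (hA : Ang N θ a)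
    (he : Per N e) (he' : Per N e') (h : ∀ k, ∃ m : ℤ, bt (e k) + 2 * m < 2 * θ k - η ∧
      2 * θ k - η < bt (e k) + 2 * m + 1) {k₀ k₀' : ℕ} (hk : Eqv e e' k₀ k₀')
    (hmin : ∀ k k', Eqv e e' k k' → Dm θ k₀ k₀' ≤ Dm θ k k') (hlt : Dm θ k₀ k₀' < 1) :
    ∃ l : ℤ, θ k₀ < η + l ∧ η + l < θ k₀ + Dm θ k₀ k₀' := by
  have hN := hA.pos
  set d := Dm θ k₀ k₀' with hd
  have hd0 : 0 < d := Dm_pos θ k₀ k₀'
  obtain ⟨m₀, hm₀⟩ := Dm_eq θ k₀ k₀'
  rw [← hd] at hm₀
  have hpred := eqv_pred hN he he' hk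
  set K := k₀ + N - 1 with hK
  set K' := k₀' + N - 1 with hK'
  have s0 := hA.step K
  have s1 := hA.step K'
  have e1 : K + 1 = k₀ + N := by omega
  have e2 : K' + 1 = k₀' + N := by omega
  rw [e1, hA.per] at s0
  rw [e2, hA.per] at s1
  obtain ⟨m1, p1, q1⟩ := h K
  obtain ⟨m2, p2, q2⟩ := h K'
  have hcode : e K' = e K := by
    have := hpred.1 0
    simpa using this.symm
  rw [hcode] at p2 q2
  -- `2 δ = d + j`
  obtain ⟨j, hj⟩ : ∃ j : ℤ, j = a K' - a K - m₀ - 2 * (m2 - m1) := ⟨_, rfl⟩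
  have hδ : 2 * (θ K' - (m2 - m1) - θ K) = d + j := by
    rw [hj]; push_cast
    linarith
  have j1 : (j : ℝ) < 1 := by linarith
  have j2 : (-2 : ℝ) < j := by linarith
  have j3 : j < 1 := by exact_mod_cast j1
  have j4 : -2 < j := by exact_mod_cast j2
  have j5 : j = 0 ∨ j = -1 := by omega
  rcases j5 with j5 | j5
  · exfalso
    rw [j5] at hδ
    push_cast at hδ
    have h1 := hmin K K' hpred
    have h2 := Dm_le θ K K' (-(m2 - m1)) (by push_cast; linarith)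
    push_cast at h2
    linarith
  · rw [j5] at hδ
    push_cast at hδ
    -- `2 θ K - 2 m1 = θ k₀ + a K - 2 m1`
    refine ⟨bi (e K) + 1 - a K + 2 * m1, ?_, ?_⟩
    · push_cast; rw [bi_cast]; linarith
    · push_cast; rw [bi_cast]; linarith

theorem comb : S_COMB := by
  intro n N θ θ' a a' e e' η η' hn hd he he' hA hA' hθ hS hS' hni
  have hN := hA.pos
  have perN : ∀ x : ℕ → Bool, Per n x → Per N x := by
    intro x hx k
    obtain ⟨q, rfl⟩ := hd
    exact per_mul hx k q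
  have heN := perN e he
  have heN' := perN e' he'
  have hH := H_of_side hS
  have hH' : H η' e' θ := H_congr (H_of_side hS') hθ
  have hnt := nontrivial hd he hA hS hni
  obtain ⟨k₀, k₀', hk, hmin⟩ := exists_min hA heN heN'
  set d := Dm θ k₀ k₀' with hdd
  have hd0 : 0 < d := Dm_pos θ k₀ k₀'
  -- the equivalence of `i` and `i + n`
  have heqn : ∀ i, Eqv e e' i (i + n) := by
    intro i
    refine ⟨fun j => ?_, fun j => ?_⟩
    · have := he (i + j)
      rw [← this]; congr 1; ring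
    · have := he' (i + j)
      rw [← this]; congr 1; ring
  have hlt : d < 1 := by
    have h1 := hmin 0 (0 + n) (heqn 0)
    have h2 : Dm θ 0 (0 + n) < 1 := by
      unfold Dm
      have h3 : 0 ≤ Int.fract (θ 0 - θ (0 + n)) := Int.fract_nonneg _
      rcases eq_or_lt_of_le h3 with h4 | h4
      · exfalso
        have h5 : Int.fract (θ 0 - θ (0 + n)) = θ 0 - θ (0 + n) - ⌊θ 0 - θ (0 + n)⌋ := rfl
        rw [← h4] at h5
        exact hnt 0 (-⌊θ 0 - θ (0 + n)⌋) (by push_cast; linarith)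
      · linarith
    linarith
  -- distances are at least `d`
  have hdist : ∀ k k', Eqv e e' k k' → ∀ m : ℤ, 0 < θ k' + m - θ k → d ≤ θ k' + m - θ k :=
    fun k k' hkk m hm => (hmin k k' hkk).trans (Dm_le θ k k' m hm)
  obtain ⟨m₀, hm₀⟩ := Dm_eq θ k₀ k₀'
  rw [← hdd] at hm₀
  -- no angle in the interval
  have hgap : ∀ (i : ℕ) (m : ℤ), ¬ (θ k₀ < θ i + m ∧ θ i + m < θ k₀ + d) := by
    rintro i m ⟨g1, g2⟩
    have hne : ¬ Eqv e e' k₀ i := by
      intro hE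
      have := hdist k₀ i hE m (by linarith)
      linarith
    -- the representative of `θ (i + n)` in `[θ k₀, θ k₀ + 1)`
    obtain ⟨m3, hm3a, hm3b⟩ : ∃ m3 : ℤ, θ k₀ ≤ θ (i + n) + m3 ∧ θ (i + n) + m3 < θ k₀ + 1 := by
      refine ⟨-⌊θ (i + n) - θ k₀⌋, ?_, ?_⟩
      · have := Int.floor_le (θ (i + n) - θ k₀)
        push_cast; linarith
      · have := Int.lt_floor_add_one (θ (i + n) - θ k₀)
        push_cast; linarith
    have hEn := heqn i
    rcases eq_or_lt_of_le hm3a with c0 | c0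
    · -- equal to `θ k₀`
      exact hne ((eqv_of_congr hA hH hH' (i := k₀) (k := i + n) (m := m3) c0).trans hEn.symm)
    rcases lt_trichotomy (θ (i + n) + m3) (θ k₀ + d) with c1 | c1 | c1
    · -- in the interval
      rcases lt_trichotomy (θ (i + n) + m3) (θ i + m) with c2 | c2 | c2
      · have := hdist (i + n) i hEn.symm (m - m3) (by push_cast; linarith)
        push_cast at this
        linarith
      · exact hnt i (m - m3) (by push_cast; linarith)
      · have := hdist i (i + n) hEn (m3 - m) (by push_cast; linarith)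
        push_cast at this
        linarith
    · -- equal to `θ k₀'`
      have h1 : θ (i + n) = θ k₀' + ((m₀ - m3 : ℤ) : ℝ) := by push_cast; linarith
      exact hne (hk.trans ((eqv_of_congr hA hH hH' h1).symm.trans hEn.symm))
    · refine hne (eqv_of_link hA hH hH' hk hEn ⟨0, m, m₀, m3, ?_, ?_, ?_, ?_⟩)
      · push_cast; linarith
      · linarith
      · linarith
      · push_cast; linarith
  obtain ⟨l1, g1, g2⟩ := crit_mem hA heN heN' hH hk hmin hlt
  obtain ⟨l2, g3, g4⟩ : ∃ l : ℤ, θ k₀ < η' + l ∧ η' + l < θ k₀ + Dm θ k₀ k₀' := by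
    have hk' : Eqv e' e k₀ k₀' := ⟨hk.2, hk.1⟩
    have hmin' : ∀ k k', Eqv e' e k k' → Dm θ k₀ k₀' ≤ Dm θ k k' :=
      fun k k' hkk => hmin k k' ⟨hkk.2, hkk.1⟩
    exact crit_mem hA heN' heN hH' hk' hmin' hlt
  refine ⟨l2 - l1, fun x hx k m hxe => ?_⟩
  have hsub : θ k₀ < x + l1 ∧ x + l1 < θ k₀ + d := by
    rw [mem_uIcc] at hx
    push_cast at hx
    rcases hx with ⟨h1, h2⟩ | ⟨h1, h2⟩
    · constructor <;> linarith
    · constructor <;> linarith
  refine hgap k (m + l1) ⟨?_, ?_⟩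
  · push_cast; linarith [hsub.1]
  · push_cast; linarith [hsub.2]

end Pool.Agent.KS6_23.ML.COMB
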