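import Pool.Agent.KS6_23.ML.DltC

/-!
# Project ML, module 13 (DLT): the landing theorem of Douady

A repelling periodic point of `f c`, `c ∈ M`, is the landing point of a periodic ray. The proof: the
univalent function `W` of a backward branch (`DltB`) satisfies `ρ ^ i W (h) = W (2 ^ (n i) h + M 2 π i)`
for some `i ≥ 1`, because otherwise the area of `log W` modulo the lattice would be finite, and the
growth of `W` would be slower than it is (`DltC`). The fixed line of `h ↦ 2 ^ (n i) h + M 2 π i` is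
the ray.
-/

set_option autoImplicit false

open Complex Set Filter Metric Topology MeasureTheory

namespace Pool.Agent.KS6_23.ML.DLT

open Pool.Agent.KS6_23.ML Koenigs SecTools Basic DltA DltB DltC

variable {G : ℂ → ℂ → ℝ} {B : ℂ → ℂ → ℂ} {cc : ℂ → ℂ} {c z ρ : ℂ} {n : ℕ} {m : ℕ → ℤ} {r : ℝ}
  {s φ : ℂ → ℂ}

theorem line_mem {x : ℝ} (hx : 0 < x) (t : ℝ) : ((x : ℂ) + t * tpi) ∈ HP := by
  show 0 < ((x : ℂ) + t * tpi).re
  rw [add_re, real_mul_tpi_re, ofReal_re]
  linarith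

/-- the periodic ray -/
theorem exists_ray (S : Sit G B cc c z ρ n m r s φ) : ∃ (i : ℕ) (t : ℝ) (a : ℤ), 1 ≤ i ∧
    (2 ^ (n * i) - 1) * t = a ∧
    Tendsto (fun j : ℕ => B c (((1 / (2 ^ (n * i)) ^ j : ℝ) : ℂ) + t * tpi)) atTop (𝓝 z) := by
  obtain ⟨i, hi, h₁, hh₁, h₂, hh₂, he⟩ := exists_coin S
  obtain ⟨M, -, -, hM⟩ := S.coin hh₁ hh₂ he
  obtain ⟨k, hk⟩ := eventually_atTop.1 hM
  have hn := S.hn
  have hni : 1 ≤ n * i := Nat.mul_pos hn hi
  obtain ⟨lam, hlam⟩ : ∃ lam : ℝ, lam = 2 ^ (n * i) := ⟨_, rfl⟩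
  have hlam2 : 2 ≤ lam := by
    rw [hlam]
    calc (2 : ℝ) = 2 ^ 1 := by norm_num
      _ ≤ 2 ^ (n * i) := pow_le_pow_right₀ (by norm_num) hni
  have hlamC : ((lam : ℝ) : ℂ) = 2 ^ (n * i) := by rw [hlam]; push_cast; rfl
  obtain ⟨t₀, ht₀⟩ : ∃ t₀ : ℝ, t₀ = -M / (lam - 1) := ⟨_, rfl⟩
  have hne : lam - 1 ≠ 0 := by linarith
  have ht₀' : lam * t₀ + M = t₀ := by
    rw [ht₀]
    field_simp
    ring
  have ht₀C : (2 : ℂ) ^ (n * i) * t₀ + M = t₀ := by
    rw [← hlamC]
    exact_mod_cast ht₀'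
  obtain ⟨t, ht⟩ : ∃ t : ℝ, t = (t₀ + m k) / 2 ^ (n * k) := ⟨_, rfl⟩
  have h2ne : ∀ k : ℕ, (2 : ℂ) ^ k ≠ 0 := fun k => pow_ne_zero _ two_ne_zero
  have h2pos : ∀ k : ℕ, (0 : ℝ) < 2 ^ k := fun k => by positivity
  -- the values on the line
  have hval : ∀ x : ℝ, yy B c n m k ((x : ℂ) + t₀ * tpi) =
      B c (((x / 2 ^ (n * k) : ℝ) : ℂ) + t * tpi) := by
    intro x
    unfold yy
    congr 1
    rw [ht]
    push_cast
    field_simp
    ring
  -- the step
  have hstep : ∀ (l : ℕ) (x : ℝ), k ≤ l → 0 < x →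
      yy B c n m (l + i) (((lam * x : ℝ) : ℂ) + t₀ * tpi) = yy B c n m l ((x : ℂ) + t₀ * tpi) := by
    intro l x hl hx
    rw [← hk l hl _ (line_mem hx t₀)]
    congr 1
    push_cast
    rw [hlamC]
    linear_combination (-tpi) * ht₀C
  have hiter : ∀ (j : ℕ) (x : ℝ), 0 < x → yy B c n m (k + j * i) (((lam ^ j * x : ℝ) : ℂ) + t₀ * tpi) =
      yy B c n m k ((x : ℂ) + t₀ * tpi) := by
    intro j
    induction j with
    | zero => intro x _; simp
    | succ j ih =>
      intro x hx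
      rw [← ih x hx, ← hstep (k + j * i) (lam ^ j * x) (Nat.le_add_right _ _) (by positivity)]
      congr 1
      · ring
      · congr 2
        ring
  refine ⟨i, t, ?_⟩
  -- periodicity
  have hper : ∃ a : ℤ, (2 ^ (n * i) - 1) * t = a := by
    have h1 : ∀ (j l : ℕ) (h : ℂ), h ∈ HP →
        (f c)^[n * j] (yy B c n m (l + j) h) = yy B c n m l h := by
      intro j
      induction j with
      | zero => intro l h _; simp
      | succ j ih =>
        intro l h hh
        rw [mul_add, mul_one, Function.iterate_add_apply]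
        rw [show l + (j + 1) = (l + j) + 1 by ring, yy_g S.hb S.hc (S.hB.comp _) hh]
        exact ih l h hh
    have h2 := h1 i k (((lam * 2 ^ (n * k) : ℝ) : ℂ) + t₀ * tpi)
      (line_mem (mul_pos (by linarith) (h2pos _)) t₀)
    rw [hstep k _ le_rfl (h2pos _), hval, hval, div_self (h2pos _).ne',
      mul_div_cancel_right₀ _ (h2pos _).ne', iter_B S.hb S.hc (line_mem one_pos t)] at h2
    have h3 : (2 : ℂ) ^ (n * i) * (((1 : ℝ) : ℂ) + t * tpi) =
        ((lam : ℝ) : ℂ) + ((lam * t : ℝ) : ℂ) * tpi := by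
      rw [← hlamC]
      push_cast
      ring
    rw [h3] at h2
    obtain ⟨a, ha⟩ := S.hb.binj c _ _ (GM S.hb S.hc (line_mem (by linarith) (lam * t)))
      (GM S.hb S.hc (line_mem (by linarith) t)) h2
    refine ⟨-a, ?_⟩
    have h4 : ((t : ℝ) : ℂ) * tpi = (((lam * t : ℝ) : ℂ) + a) * tpi := by
      linear_combination ha
    have h5 := mul_right_cancel₀ tpi_ne h4
    have h6 : t = lam * t + a := by exact_mod_cast h5
    rw [← hlam]
    push_cast
    linarith
  obtain ⟨a, ha⟩ := hper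
  refine ⟨a, hi, ha, ?_⟩
  -- landing
  have h1 := S.hB.conv _ (line_mem (h2pos (n * k)) t₀)
  have h2 : Tendsto (fun j : ℕ => k + j * i) atTop atTop := by
    refine tendsto_atTop_mono (fun j => ?_) tendsto_id
    show j ≤ k + j * i
    nlinarith
  refine (h1.comp h2).congr fun j => ?_
  simp only [Function.comp_apply]
  have hlj : 0 < lam ^ j := by positivity
  have h3 := hiter j (2 ^ (n * k) / lam ^ j) (div_pos (h2pos _) hlj)
  rw [mul_div_cancel₀ _ hlj.ne'] at h3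
  rw [h3, hval]
  congr 2
  rw [hlam]
  field_simp

/-- integers from fractional parts -/
theorem fract_step (x : ℝ) : 2 * Int.fract x = Int.fract (2 * x) + ((⌊2 * x⌋ - 2 * ⌊x⌋ : ℤ) : ℝ) := by
  unfold Int.fract
  push_cast
  ring

/-- **The landing theorem of Douady.** -/
theorem dlt : S_DLT := by
  intro G B cc hb c z n hc hn hz hrep
  obtain ⟨r, s, φ, -, hL⟩ := exists_lin (differentiable_iter c n) hz rfl hrep one_pos
  obtain ⟨m, hB⟩ := exists_br hb hc hn hz hrep hL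
  have S : Sit G B cc c z (mul n c z) n m r s φ := ⟨hb, hc, hn, hz, hrep, hL, hB⟩
  obtain ⟨i, t, a, hi, ha, hlim⟩ := exists_ray S
  -- the period
  classical
  have hex : ∃ q : ℕ, 1 ≤ q ∧ ∃ a : ℤ, ((2 : ℝ) ^ (n * q) - 1) * t = a := ⟨i, hi, a, ha⟩
  obtain ⟨q, hq⟩ : ∃ q, q = Nat.find hex := ⟨_, rfl⟩
  obtain ⟨hq1, b, hqb⟩ : 1 ≤ q ∧ ∃ a : ℤ, ((2 : ℝ) ^ (n * q) - 1) * t = a := by
    rw [hq]; exact Nat.find_spec hex
  have hmin : ∀ q' : ℕ, 1 ≤ q' → q' < q → ¬ ∃ a : ℤ, ((2 : ℝ) ^ (n * q') - 1) * t = a := by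
    intro q' h1 h2 h3
    rw [hq] at h2
    exact Nat.find_min hex h2 ⟨h1, h3⟩
  obtain ⟨θ, hθ⟩ : ∃ θ : ℕ → ℝ, θ = fun k => Int.fract (2 ^ k * t) := ⟨_, rfl⟩
  obtain ⟨α, hα⟩ : ∃ α : ℕ → ℤ, α = fun k => ⌊(2 : ℝ) * (2 ^ k * t)⌋ - 2 * ⌊(2 : ℝ) ^ k * t⌋ :=
    ⟨_, rfl⟩
  have hstep : ∀ k, 2 * θ k = θ (k + 1) + α k := by
    intro k
    rw [hθ, hα]
    have h1 := fract_step (2 ^ k * t)
    have h2 : (2 : ℝ) ^ (k + 1) * t = 2 * (2 ^ k * t) := by ring
    simp only
    rw [h2]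
    exact h1
  have hper : ∀ k, θ (k + n * q) = θ k := by
    intro k
    rw [hθ]
    have h1 : (2 : ℝ) ^ (k + n * q) * t = 2 ^ k * t + ((2 ^ k * b : ℤ) : ℝ) := by
      rw [pow_add]
      push_cast
      linear_combination (2 : ℝ) ^ k * hqb
    simp only
    rw [h1, Int.fract_add_intCast]
  have hang : Ang (n * q) θ α := by
    refine ⟨Nat.mul_pos hn hq1, hstep, hper, fun k => ?_⟩
    have h1 := hstep (k + n * q)
    rw [show k + n * q + 1 = (k + 1) + n * q by ring, hper, hper, hstep k] at h1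
    have h2 := add_left_cancel h1
    exact_mod_cast h2.symm
  refine ⟨n * q, θ, α, dvd_mul_right n q, hang, ?_, ?_⟩
  · -- different angles
    have hlt : ∀ i j : ℕ, i < j → j < q → ∀ a : ℤ, θ (i * n) ≠ θ (j * n) + a := by
      intro i j hij hjq a he
      refine hmin (q - j + i) (by omega) (by omega) ?_
      rw [hθ] at he
      simp only [Int.fract] at he
      obtain ⟨l, hl⟩ : ∃ l : ℤ, (2 : ℝ) ^ (i * n) * t = 2 ^ (j * n) * t + l := by
        refine ⟨⌊(2 : ℝ) ^ (i * n) * t⌋ - ⌊(2 : ℝ) ^ (j * n) * t⌋ + a, ?_⟩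
        push_cast
        linarith
      refine ⟨2 ^ (n * (q - j)) * l + b, ?_⟩
      have h1 : (2 : ℝ) ^ (n * (q - j + i)) = 2 ^ (n * (q - j)) * 2 ^ (i * n) := by
        rw [← pow_add]
        congr 1
        ring
      have h2 : (2 : ℝ) ^ (n * q) = 2 ^ (n * (q - j)) * 2 ^ (j * n) := by
        rw [← pow_add]
        congr 1
        have : q - j + j = q := by omega
        calc n * q = n * (q - j + j) := by rw [this]
          _ = _ := by ring
      rw [h2] at hqb
      rw [h1]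
      push_cast
      linear_combination (2 : ℝ) ^ (n * (q - j)) * hl + hqb
    intro i hi j hj a he
    rw [Nat.mul_div_cancel_left q (by omega)] at hi hj
    rcases lt_trichotomy i j with h | h | h
    · exact absurd he (hlt i j h hj a)
    · exact h
    · exfalso
      refine hlt j i h hi (-a) ?_
      push_cast
      linarith
  · -- landing
    intro κ β zz Λ hκ hsec hland k
    have hκ2 : 0 < κ / 2 := by positivity
    obtain ⟨lam, hlam⟩ : ∃ lam : ℝ, lam = 2 ^ (n * i) := ⟨_, rfl⟩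
    have hlam2 : 2 ≤ lam := by
      rw [hlam]
      calc (2 : ℝ) = 2 ^ 1 := by norm_num
        _ ≤ 2 ^ (n * i) := pow_le_pow_right₀ (by norm_num) (Nat.mul_pos hn hi)
    rw [← hlam] at hlim
    have h1 : Tendsto (fun j : ℕ => ((2 ^ k * (1 / lam ^ j) : ℝ) : ℂ)) atTop (𝓝[Sk (κ / 2)] 0) := by
      refine tendsto_nhdsWithin_iff.2 ⟨?_, Eventually.of_forall fun j =>
        ofReal_mem_Sk hκ2 (by positivity)⟩
      have h2 : Tendsto (fun j : ℕ => (2 : ℝ) ^ k * (1 / lam ^ j)) atTop (𝓝 0) := by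
        have h3 : Tendsto (fun j : ℕ => (1 / lam) ^ j) atTop (𝓝 0) :=
          tendsto_pow_atTop_nhds_zero_of_lt_one (by positivity) (by
            rw [div_lt_one (by linarith)]
            linarith)
        have h4 := h3.const_mul ((2 : ℝ) ^ k)
        rw [mul_zero] at h4
        refine h4.congr fun j => ?_
        rw [div_pow, one_pow]
      have h5 := (Complex.continuous_ofReal.tendsto 0).comp h2
      rw [Complex.ofReal_zero] at h5
      exact h5
    have h2 := (hland.lim k).comp h1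
    have h3 : Tendsto (fun j : ℕ => (f c)^[k] (B c (((1 / lam ^ j : ℝ) : ℂ) + t * tpi))) atTop
        (𝓝 ((f c)^[k] z)) :=
      ((differentiable_iter c k).continuous.tendsto z).comp hlim
    refine tendsto_nhds_unique h2 (h3.congr fun j => ?_)
    simp only [Function.comp_apply]
    have hx : (0 : ℝ) < 1 / lam ^ j := by positivity
    have hx2 : (0 : ℝ) < 2 ^ k * (1 / lam ^ j) := by positivity
    have hmem : ((2 ^ k * (1 / lam ^ j) : ℝ) : ℂ) ∈ Sk κ := ofReal_mem_Sk hκ hx2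
    have hGc : G c c = 0 := (hb.gM c).2 hc
    rw [hsec.base k _ hmem (by rw [hGc, ofReal_re]; linarith),
      iter_B hb hc (line_mem hx t)]
    rw [← bper_int hb (GM hb hc (line_mem hx2 (θ k))) ⌊(2 : ℝ) ^ k * t⌋]
    congr 1
    rw [hθ]
    simp only [Int.fract]
    push_cast
    ring

end Pool.Agent.KS6_23.ML.DLT
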