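import Pool.Agent.KS6_23.ML.SecTools

set_option autoImplicit false

/-!
# Project ML, module 9: periodic rays (extended sectors) land
-/

open Complex Set Filter Metric Topology MeasureTheory

namespace Pool.Agent.KS6_23.ML.LAND

open SecTools

/-! ## Tools of complex analysis -/

/-- a bound of the derivative of a bounded function without zeros -/
theorem deriv_bound {g : ℂ → ℂ} {z : ℂ} {r M : ℝ} (hr : 0 < r)
    (hg : DifferentiableOn ℂ g (ball z r)) (h0 : ∀ w ∈ ball z r, g w ≠ 0)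
    (hM : ∀ w ∈ ball z r, ‖g w‖ < M) :
    ‖deriv g z‖ * r ≤ 2 * (‖g z‖ * (Real.log M - Real.log ‖g z‖)) := by
  have hz : z ∈ ball z r := mem_ball_self hr
  obtain ⟨F, hF, hF2⟩ := exists_log (convex_ball z r) ⟨z, hz⟩ isOpen_ball hg h0
  have hFre : ∀ w ∈ ball z r, (F w).re = Real.log ‖g w‖ := by
    intro w hw
    rw [← hF2 w hw, norm_exp, Real.log_exp]
  set u : ℂ → ℂ := fun w => Real.log M - F w with hu
  have hure : ∀ w ∈ ball z r, 0 < (u w).re := by
    intro w hw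
    have h1 : (u w).re = Real.log M - Real.log ‖g w‖ := by
      simp only [hu, sub_re, ofReal_re, hFre w hw]
    rw [h1]
    have := Real.log_lt_log (norm_pos_iff.2 (h0 w hw)) (hM w hw)
    linarith
  set u0 := u z with hu0
  have hu0re := hure z hz
  have hden : ∀ w ∈ ball z r, u w + (starRingEnd ℂ) u0 ≠ 0 := by
    intro w hw h
    have h1 := congrArg re h
    simp only [add_re, conj_re, zero_re] at h1
    have := hure w hw
    linarith
  set v : ℂ → ℂ := fun w => (u w - u0) / (u w + (starRingEnd ℂ) u0) with hv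
  have hud : DifferentiableOn ℂ u (ball z r) := (differentiableOn_const _).sub hF
  have hvd : DifferentiableOn ℂ v (ball z r) :=
    (hud.sub_const _).div (hud.add_const _) hden
  have hvz : v z = 0 := by simp [hv, hu0]
  have hmaps : MapsTo v (ball z r) (closedBall (v z) 1) := by
    intro w hw
    rw [hvz, mem_closedBall_zero_iff]
    have h1 : v w = (u w - u0) / (u w + (starRingEnd ℂ) u0) := rfl
    rw [h1, norm_div, div_le_one (norm_pos_iff.2 (hden w hw))]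
    have h2 := hure w hw
    have h3 : ‖u w - u0‖ ^ 2 ≤ ‖u w + (starRingEnd ℂ) u0‖ ^ 2 := by
      rw [← normSq_eq_norm_sq, ← normSq_eq_norm_sq, normSq_apply, normSq_apply]
      simp only [sub_re, sub_im, add_re, add_im, conj_re, conj_im]
      nlinarith [mul_pos h2 hu0re]
    exact le_of_sq_le_sq h3 (norm_nonneg _)
  have hder := norm_deriv_le_div_of_mapsTo_ball hvd hmaps hr
  -- the derivatives
  have hFz : HasDerivAt F (deriv F z) z := (hF.differentiableAt (ball_mem_nhds z hr)).hasDerivAt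
  have huz : HasDerivAt u (-deriv F z) z := by
    have := hFz.const_sub (Real.log M : ℂ)
    exact this
  have hvz' : HasDerivAt v ((-deriv F z) / (u0 + (starRingEnd ℂ) u0)) z := by
    have h1 := (huz.sub_const u0).fun_div (huz.add_const ((starRingEnd ℂ) u0)) (hden z hz)
    have h2 : (-deriv F z * (u z + (starRingEnd ℂ) u0) - (u z - u0) * -deriv F z) /
        (u z + (starRingEnd ℂ) u0) ^ 2 = (-deriv F z) / (u0 + (starRingEnd ℂ) u0) := by
      rw [← hu0, sub_self, zero_mul, sub_zero, sq]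
      rw [mul_div_mul_right _ _ (hden z hz)]
    rw [← h2]
    exact h1
  rw [hvz'.deriv] at hder
  have hsum : u0 + (starRingEnd ℂ) u0 = ((2 * u0.re : ℝ) : ℂ) := by
    rw [add_conj]
  rw [hsum, norm_div, norm_neg, norm_real, Real.norm_of_nonneg (by positivity)] at hder
  have hgz : HasDerivAt g (exp (F z) * deriv F z) z := by
    have h1 : HasDerivAt (fun w => exp (F w)) (exp (F z) * deriv F z) z := hFz.cexp
    apply h1.congr_of_eventuallyEq
    filter_upwards [ball_mem_nhds z hr] with w hw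
    exact (hF2 w hw).symm
  rw [hgz.deriv, hF2 z hz, norm_mul]
  rw [div_le_div_iff₀ (by positivity) hr] at hder
  have hu0e : u0.re = Real.log M - Real.log ‖g z‖ := by
    simp only [hu0, hu, sub_re, ofReal_re, hFre z hz]
  rw [hu0e] at hder
  have := norm_nonneg (g z)
  nlinarith

/-- the part of the sector close to 0 -/
def S (κ δ : ℝ) : Set ℂ := {ζ : ℂ | ζ ∈ Sk κ ∧ ζ.re < δ}

theorem convex_S (κ δ : ℝ) : Convex ℝ (S κ δ) := by
  apply (convex_Sk κ).inter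
  have : {ζ : ℂ | ζ.re < δ} = reCLM ⁻¹' (Iio δ) := rfl
  exact (convex_Iio δ).linear_preimage reLm

theorem isOpen_S (κ δ : ℝ) : IsOpen (S κ δ) :=
  (isOpen_Sk κ).inter (isOpen_lt continuous_re continuous_const)

theorem S_mem {κ δ : ℝ} (hδ : 0 < δ) : S κ δ ∈ 𝓝[Sk κ] (0 : ℂ) := by
  rw [mem_nhdsWithin]
  refine ⟨{ζ : ℂ | ζ.re < δ}, isOpen_lt continuous_re continuous_const, by simpa using hδ, ?_⟩
  rintro ζ ⟨h1, h2⟩
  exact ⟨h2, h1⟩

theorem mem_S_iff_eventually {κ : ℝ} (hκ : 0 < κ) {p : ℂ → Prop} :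
    (∀ᶠ ζ in 𝓝[Sk κ] (0 : ℂ), p ζ) ↔ ∃ δ : ℝ, 0 < δ ∧ ∀ ζ ∈ S κ δ, p ζ := by
  constructor
  · intro h
    rw [eventually_nhdsWithin_iff, Metric.eventually_nhds_iff_ball] at h
    obtain ⟨ε, hε, h⟩ := h
    refine ⟨ε / (1 + κ), by positivity, ?_⟩
    rintro ζ ⟨h1, h2⟩
    apply h ζ _ h1
    rw [mem_ball_zero_iff]
    have h3 := re_pos_of_mem hκ h1
    have h4 : |ζ.im| < κ * ζ.re := h1
    have h5 := norm_le_abs_re_add_abs_im ζ
    rw [abs_of_pos h3] at h5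
    rw [lt_div_iff₀ (by positivity)] at h2
    nlinarith
  · rintro ⟨δ, hδ, h⟩
    filter_upwards [S_mem hδ] with ζ hζ using h ζ hζ

/-- a function whose limit points are in a uniformly discrete set has a limit -/
theorem exists_limit {κ : ℝ} (hκ : 0 < κ) {g : ℂ → ℂ} (hg : ContinuousOn g (Sk κ)) {P : Set ℂ}
    {s : ℝ} (hs : 0 < s) (hP : ∀ p ∈ P, ∀ p' ∈ P, p ≠ p' → s ≤ ‖p - p'‖)
    (hl : ∀ ε : ℝ, 0 < ε → ∃ δ : ℝ, 0 < δ ∧ ∀ ζ ∈ S κ δ, ∃ p ∈ P, ‖g ζ - p‖ < ε) :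
    ∃ p ∈ P, Tendsto g (𝓝[Sk κ] 0) (𝓝 p) := by
  obtain ⟨δ₀, hδ₀, h0⟩ := hl (s / 2) (by positivity)
  have hx : ((δ₀ / 2 : ℝ) : ℂ) ∈ S κ δ₀ :=
    ⟨ofReal_mem_Sk hκ (by positivity), by rw [ofReal_re]; linarith⟩
  obtain ⟨p₀, hp₀, hxp⟩ := h0 _ hx
  -- all values are close to `p₀`
  have hall : ∀ ζ ∈ S κ δ₀, ‖g ζ - p₀‖ < s / 2 := by
    intro ζ hζ
    by_contra hcon
    push Not at hcon
    have hc : ContinuousOn (fun ζ => ‖g ζ - p₀‖) (S κ δ₀) :=
      ((hg.mono (fun ζ h => h.1)).sub continuousOn_const).norm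
    obtain ⟨η, hη, hη2⟩ := (convex_S κ δ₀).isPreconnected.intermediate_value hx hζ hc
      ⟨hxp.le, hcon⟩
    obtain ⟨p, hp, hηp⟩ := h0 η hη
    simp only at hη2
    rcases eq_or_ne p p₀ with h | h
    · rw [h] at hηp; linarith
    · have h1 := hP p hp p₀ hp₀ h
      have h2 : ‖p - p₀‖ ≤ ‖g η - p₀‖ + ‖g η - p‖ := by
        have : p - p₀ = (g η - p₀) - (g η - p) := by ring
        rw [this]; exact norm_sub_le _ _
      linarith
  refine ⟨p₀, hp₀, ?_⟩
  rw [Metric.tendsto_nhds]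
  intro ε hε
  obtain ⟨δ₁, hδ₁, h1⟩ := hl (min ε (s / 2)) (lt_min hε (by positivity))
  rw [mem_S_iff_eventually hκ]
  refine ⟨min δ₀ δ₁, lt_min hδ₀ hδ₁, ?_⟩
  rintro ζ ⟨hζ1, hζ2⟩
  have hζ0 : ζ ∈ S κ δ₀ := ⟨hζ1, lt_of_lt_of_le hζ2 (min_le_left _ _)⟩
  obtain ⟨p, hp, hζp⟩ := h1 ζ ⟨hζ1, lt_of_lt_of_le hζ2 (min_le_right _ _)⟩
  rcases eq_or_ne p p₀ with h | h
  · rw [dist_eq_norm, ← h]
    exact lt_of_lt_of_le hζp (min_le_left _ _)
  · exfalso
    have h2 := hP p hp p₀ hp₀ h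
    have h3 : ‖p - p₀‖ ≤ ‖g ζ - p₀‖ + ‖g ζ - p‖ := by
      have : p - p₀ = (g ζ - p₀) - (g ζ - p) := by ring
      rw [this]; exact norm_sub_le _ _
    have h4 := hall ζ hζ0
    have h5 := lt_of_lt_of_le hζp (min_le_right _ _)
    linarith

/-- a finite set is uniformly discrete -/
theorem finite_sep {P : Set ℂ} (hP : P.Finite) :
    ∃ s : ℝ, 0 < s ∧ ∀ p ∈ P, ∀ p' ∈ P, p ≠ p' → s ≤ ‖p - p'‖ := by
  have hfin : (P ×ˢ P).Finite := hP.prod hP
  have : ∀ x ∈ P ×ˢ P, ∀ᶠ s in 𝓝[>] (0 : ℝ), x.1 ≠ x.2 → s ≤ ‖x.1 - x.2‖ := by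
    intro x _
    by_cases h : x.1 = x.2
    · exact Eventually.of_forall fun s h' => absurd h h'
    · have hpos : 0 < ‖x.1 - x.2‖ := norm_pos_iff.2 (sub_ne_zero.2 h)
      filter_upwards [Ioo_mem_nhdsGT hpos] with s hs _
      exact hs.2.le
  have h2 := (hfin.eventually_all).2 this
  have h3 : ∀ᶠ s in 𝓝[>] (0 : ℝ), 0 < s := self_mem_nhdsWithin
  obtain ⟨s, hs1, hs2⟩ := (h3.and h2).exists
  exact ⟨s, hs1, fun p hp p' hp' hne => hs2 (p, p') ⟨hp, hp'⟩ hne⟩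

/-! ## Polynomial facts -/

theorem f_iter_differentiable (c : ℂ) (n : ℕ) : Differentiable ℂ ((f c)^[n]) := by
  have : Differentiable ℂ (f c) := by
    unfold f; fun_prop
  exact this.iterate n

theorem f_iter_continuous (c : ℂ) (n : ℕ) : Continuous ((f c)^[n]) :=
  (f_iter_differentiable c n).continuous

/-- periodic points are finite in number -/
theorem finite_fix (c : ℂ) {n : ℕ} (hn : 1 ≤ n) : {z : ℂ | (f c)^[n] z = z}.Finite := by
  let p : Polynomial ℂ := Polynomial.X ^ 2 + Polynomial.C c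
  have hp : p.natDegree = 2 := by
    simp only [p]
    compute_degree!
  have heval : ∀ z, (p.comp^[n] Polynomial.X).eval z = (f c)^[n] z := by
    intro z
    rw [Polynomial.iterate_comp_eval]
    have : (fun x => p.eval x) = f c := by
      ext x
      simp [p, f]
    rw [this, Polynomial.eval_X]
  have hdeg : (p.comp^[n] Polynomial.X).natDegree = 2 ^ n := by
    rw [Polynomial.natDegree_iterate_comp, hp, Polynomial.natDegree_X, mul_one]
  have hne : p.comp^[n] Polynomial.X - Polynomial.X ≠ 0 := by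
    intro h
    have h1 := sub_eq_zero.1 h
    rw [h1, Polynomial.natDegree_X] at hdeg
    have : 2 ≤ 2 ^ n := by
      calc 2 = 2 ^ 1 := by norm_num
        _ ≤ 2 ^ n := Nat.pow_le_pow_right (by norm_num) hn
    omega
  apply (Polynomial.rootSet_finite (p.comp^[n] Polynomial.X - Polynomial.X) ℂ).subset
  intro z hz
  rw [Polynomial.mem_rootSet]
  refine ⟨hne, ?_⟩
  have hz' : (f c)^[n] z = z := hz
  simp only [map_sub, Polynomial.aeval_X, Polynomial.coe_aeval_eq_eval, heval, hz', sub_self]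

/-! ## The sectors -/

variable {G : ℂ → ℂ → ℝ} {B : ℂ → ℂ → ℂ} {cc : ℂ → ℂ}

theorem iter_step {c : ℂ} {N : ℕ} {θ : ℕ → ℝ} {κ : ℝ} {β : ℕ → ℂ → ℂ}
    (hs : Sec G B c N θ κ β) (j : ℕ) : ∀ k, ∀ ζ ∈ Sk κ,
      (f c)^[j] (β k ζ) = β (k + j) (2 ^ j * ζ) := by
  induction j with
  | zero => intro k ζ _; simp
  | succ j ih =>
    intro k ζ hζ
    have h1 := ih (k + 1) (2 * ζ) (two_mul_mem_Sk hζ)
    rw [Function.iterate_succ_apply, hs.step k ζ hζ, h1]
    congr 1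
    · ring
    · ring

theorem iter_N {c : ℂ} {N : ℕ} {θ : ℕ → ℝ} {κ : ℝ} {β : ℕ → ℂ → ℂ}
    (hs : Sec G B c N θ κ β) (k : ℕ) {ζ : ℂ} (hζ : ζ ∈ Sk κ) :
      (f c)^[N] (β k ζ) = β k (2 ^ N * ζ) := by
  rw [iter_step hs N k ζ hζ, hs.per]
  have := mul_mem_Sk (r := 2 ^ N) (by positivity) hζ
  simpa using this

/-- a bound -/
theorem beta_bound (hb : Base G B cc) {c : ℂ} {N : ℕ} {θ : ℕ → ℝ} {κ : ℝ} {β : ℕ → ℂ → ℂ}
    (hs : Sec G B c N θ κ β) (k : ℕ) {ζ : ℂ} (hζ : ζ ∈ Sk κ) :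
    ‖β k ζ‖ ≤ Real.exp ζ.re * (4 * (1 + ‖c‖)) := by
  rcases eq_or_ne (β k ζ) 0 with h | h
  · rw [h, norm_zero]; positivity
  · have h1 := hb.glow c (β k ζ)
    rw [hs.grn k ζ hζ] at h1
    have h2 : (0 : ℝ) < 4 * (1 + ‖c‖) := by positivity
    have h3 : Real.log ‖β k ζ‖ ≤ Real.log (Real.exp ζ.re * (4 * (1 + ‖c‖))) := by
      rw [Real.log_mul (Real.exp_pos _).ne' h2.ne', Real.log_exp]; exact h1
    exact (Real.log_le_log_iff (norm_pos_iff.2 h) (by positivity)).1 h3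

/-- points with small Green's function are close to the filled Julia set -/
theorem near_K (hb : Base G B cc) (c : ℂ) (R : ℝ) {ε : ℝ} (hε : 0 < ε) :
    ∃ δ : ℝ, 0 < δ ∧ ∀ z, ‖z‖ ≤ R → G c z < δ → ∃ z₀, G c z₀ = 0 ∧ ‖z - z₀‖ < ε := by
  by_contra hcon
  push Not at hcon
  have hGc : Continuous (G c) := hb.gcont.comp (Continuous.prodMk_right c)
  have hcpt : IsCompact ({z : ℂ | ‖z‖ ≤ R} ∩ {z | ∀ z₀, G c z₀ = 0 → ε ≤ ‖z - z₀‖}) := by
    apply IsCompact.inter_right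
    · have : {z : ℂ | ‖z‖ ≤ R} = closedBall 0 R := by
        ext z; simp
      rw [this]; exact isCompact_closedBall 0 R
    · have : {z : ℂ | ∀ z₀, G c z₀ = 0 → ε ≤ ‖z - z₀‖} =
          ⋂ z₀ : ℂ, ⋂ _ : G c z₀ = 0, {z : ℂ | ε ≤ ‖z - z₀‖} := by
        ext z; simp
      rw [this]
      apply isClosed_iInter
      intro z₀
      apply isClosed_iInter
      intro _
      exact isClosed_le continuous_const (continuous_id.sub continuous_const).norm
  obtain ⟨z1, h1, h2, h3⟩ := hcon 1 one_pos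
  obtain ⟨z2, ⟨hz2, hz2'⟩, hmin⟩ := hcpt.exists_isMinOn ⟨z1, h1, h3⟩ hGc.continuousOn
  have hpos : 0 < G c z2 := by
    rcases (hb.gnn c z2).eq_or_lt with h | h
    · exfalso
      have := hz2' z2 h.symm
      simp at this
      linarith
    · exact h
  obtain ⟨z3, h4, h5, h6⟩ := hcon (G c z2) hpos
  have h7 := hmin (show z3 ∈ _ from ⟨h4, h6⟩)
  have h8 : G c z2 ≤ G c z3 := h7
  linarith

/-- the derivative in the smaller sector -/
theorem deriv_small (hb : Base G B cc) {c : ℂ} {N : ℕ} {θ : ℕ → ℝ} {κ : ℝ} {β : ℕ → ℂ → ℂ}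
    (hκ : 0 < κ) (hs : Sec G B c N θ κ β) (k : ℕ) {e : ℝ} (he : 0 < e) :
    ∃ δ : ℝ, 0 < δ ∧ ∀ ζ ∈ S (κ / 2) δ, ‖deriv (β k) ζ‖ * ζ.re ≤ e := by
  set ρ : ℝ := κ / (2 * (1 + κ)) with hρ
  have hρ0 : 0 < ρ := by positivity
  have hρ1 : ρ < 1 := by
    rw [hρ, div_lt_one (by positivity)]; linarith
  have hball : ∀ ζ ∈ Sk (κ / 2), ball ζ (ρ * ζ.re) ⊆ Sk κ := by
    intro ζ hζ η hη
    rw [mem_ball, dist_eq_norm] at hη
    have hpos := re_pos_of_mem (by positivity) hζ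
    have h1 : |ζ.im| < κ / 2 * ζ.re := hζ
    have h2 := abs_re_le_norm (η - ζ)
    have h3 := abs_im_le_norm (η - ζ)
    rw [sub_re] at h2
    rw [sub_im] at h3
    have h4 := (abs_le.1 (h2.trans hη.le)).1
    have h5 : |η.im| ≤ |ζ.im| + |η.im - ζ.im| := by
      have : η.im = ζ.im + (η.im - ζ.im) := by ring
      calc |η.im| = |ζ.im + (η.im - ζ.im)| := by rw [← this]
        _ ≤ _ := abs_add_le _ _
    show |η.im| < κ * η.re
    have h6 : ρ * (1 + κ) = κ / 2 := by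
      rw [hρ]; field_simp
    have h7 : κ * η.re ≥ κ * (ζ.re - ρ * ζ.re) := by nlinarith
    have h8 : ρ * ζ.re * (1 + κ) = κ / 2 * ζ.re := by
      calc ρ * ζ.re * (1 + κ) = (ρ * (1 + κ)) * ζ.re := by ring
        _ = κ / 2 * ζ.re := by rw [h6]
    nlinarith
  -- the bound of the functions
  set M : ℝ := Real.exp 2 * (4 * (1 + ‖c‖)) + (4 * (1 + ‖c‖)) + 1 with hM
  have hM0 : 0 < M := by positivity
  -- the scalar function
  have hlim : Tendsto (fun d : ℝ => 2 * (d * (Real.log M - Real.log d)) / ρ) (𝓝[>] 0) (𝓝 0) := by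
    have h1 : Tendsto (fun d : ℝ => Real.log d * d) (𝓝[>] 0) (𝓝 0) := by
      simpa only [Real.rpow_one] using tendsto_log_mul_rpow_nhdsGT_zero zero_lt_one
    have h2 : Tendsto (fun d : ℝ => d * Real.log M) (𝓝[>] 0) (𝓝 0) := by
      have : Tendsto (fun d : ℝ => d * Real.log M) (𝓝 0) (𝓝 (0 * Real.log M)) :=
        tendsto_id.mul_const _
      rw [zero_mul] at this
      exact this.mono_left nhdsWithin_le_nhds
    have h3 := ((h2.sub h1).const_mul 2).div_const ρ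
    simp only [sub_zero, mul_zero, zero_div] at h3
    apply h3.congr
    intro d; ring
  have hev := hlim.eventually (gt_mem_nhds he)
  rw [eventually_nhdsWithin_iff, Metric.eventually_nhds_iff_ball] at hev
  obtain ⟨ε, hε, hev⟩ := hev
  obtain ⟨δ, hδ, hnear⟩ := near_K hb c (Real.exp 1 * (4 * (1 + ‖c‖))) hε
  refine ⟨min δ 1, lt_min hδ one_pos, ?_⟩
  rintro ζ ⟨hζ, hζδ⟩
  have hζκ : ζ ∈ Sk κ := Sk_mono (by positivity) (by linarith) hζ
  have hpos := re_pos_of_mem hκ hζκ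
  have hζ1 : ζ.re < 1 := lt_of_lt_of_le hζδ (min_le_right _ _)
  obtain ⟨z₀, hz₀, hd⟩ := hnear (β k ζ) ((beta_bound hb hs k hζκ).trans
    (mul_le_mul_of_nonneg_right (Real.exp_le_exp.2 hζ1.le) (by positivity)))
    (by rw [hs.grn k ζ hζκ]; exact lt_of_lt_of_le hζδ (min_le_left _ _))
  have hz₀b : ‖z₀‖ ≤ 4 * (1 + ‖c‖) := by
    have h1 := hb.gK c z₀ hz₀
    have h2 := norm_nonneg z₀
    have h3 := norm_nonneg c
    by_contra hcon
    push Not at hcon
    nlinarith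
  have hsub := hball ζ hζ
  have hbd := deriv_bound (g := fun η => β k η - z₀) (z := ζ) (r := ρ * ζ.re) (M := M)
    (by positivity) (((hs.diff k).mono hsub).sub_const z₀) (by
      intro η hη h
      have h1 : β k η = z₀ := sub_eq_zero.1 h
      have h2 := hs.grn k η (hsub hη)
      rw [h1, hz₀] at h2
      have := re_pos_of_mem hκ (hsub hη)
      linarith) (by
      intro η hη
      have h1 := beta_bound hb hs k (hsub hη)
      have h2 : η.re ≤ 2 := by
        rw [mem_ball, dist_eq_norm] at hη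
        have h3 := abs_re_le_norm (η - ζ)
        rw [sub_re] at h3
        have h4 := (abs_le.1 (h3.trans hη.le)).2
        nlinarith
      have h3 : Real.exp η.re ≤ Real.exp 2 := Real.exp_le_exp.2 h2
      have h4 := norm_sub_le (β k η) z₀
      have h5 : Real.exp η.re * (4 * (1 + ‖c‖)) ≤ Real.exp 2 * (4 * (1 + ‖c‖)) :=
        mul_le_mul_of_nonneg_right h3 (by positivity)
      linarith)
  have hne : β k ζ - z₀ ≠ 0 := by
    intro h
    have h1 : β k ζ = z₀ := sub_eq_zero.1 h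
    have h2 := hs.grn k ζ hζκ
    rw [h1, hz₀] at h2
    linarith
  have hdpos : 0 < ‖β k ζ - z₀‖ := norm_pos_iff.2 hne
  have h1 := hev ‖β k ζ - z₀‖ (by rw [mem_ball, dist_zero_right, norm_norm]; exact hd) hdpos
  rw [deriv_sub_const] at hbd
  rw [div_lt_iff₀ hρ0] at h1
  have h2 : ‖deriv (β k) ζ‖ * ζ.re * ρ < e * ρ := by
    calc ‖deriv (β k) ζ‖ * ζ.re * ρ = ‖deriv (β k) ζ‖ * (ρ * ζ.re) := by ring
      _ ≤ _ := hbd
      _ < e * ρ := h1
  exact (lt_of_mul_lt_mul_right h2 hρ0.le).le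

/-- `f^N` moves the points of the sector only a little -/
theorem moves (hb : Base G B cc) {c : ℂ} {N : ℕ} {θ : ℕ → ℝ} {κ : ℝ} {β : ℕ → ℂ → ℂ}
    (hκ : 0 < κ) (hs : Sec G B c N θ κ β) (k : ℕ) {e : ℝ} (he : 0 < e) :
    ∃ δ : ℝ, 0 < δ ∧ ∀ ζ ∈ S (κ / 2) δ, ‖(f c)^[N] (β k ζ) - β k ζ‖ < e := by
  set C : ℝ := 2 ^ N * (1 + κ) with hC
  have hC0 : 0 < C := by positivity
  obtain ⟨δ, hδ, h⟩ := deriv_small hb hκ hs k (show 0 < e / (2 * C) by positivity)
  refine ⟨δ / 2 ^ N, by positivity, ?_⟩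
  rintro ζ ⟨hζ, hζδ⟩
  have hζκ : ζ ∈ Sk κ := Sk_mono (by positivity) (by linarith) hζ
  have hpos := re_pos_of_mem hκ hζκ
  rw [lt_div_iff₀ (by positivity)] at hζδ
  rw [iter_N hs k hζκ]
  -- the convex set
  have hconv : Convex ℝ (S (κ / 2) δ ∩ {η : ℂ | ζ.re ≤ η.re}) :=
    (convex_S _ _).inter ((convex_Ici ζ.re).linear_preimage reLm)
  have h2N : (1 : ℝ) ≤ 2 ^ N := one_le_pow₀ (by norm_num)
  have hre : ((2 : ℂ) ^ N * ζ).re = 2 ^ N * ζ.re := by
    have : (2 : ℂ) ^ N = ((2 ^ N : ℝ) : ℂ) := by push_cast; rfl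
    rw [this, re_ofReal_mul]
  have hm1 : ζ ∈ S (κ / 2) δ ∩ {η : ℂ | ζ.re ≤ η.re} := by
    refine ⟨⟨hζ, by nlinarith⟩, ?_⟩
    show ζ.re ≤ ζ.re
    exact le_refl _
  have hm2 : (2 : ℂ) ^ N * ζ ∈ S (κ / 2) δ ∩ {η : ℂ | ζ.re ≤ η.re} := by
    refine ⟨⟨?_, by rw [hre]; linarith⟩, ?_⟩
    · have := mul_mem_Sk (r := 2 ^ N) (by positivity) hζ
      simpa using this
    · show ζ.re ≤ ((2 : ℂ) ^ N * ζ).re
      rw [hre]; nlinarith
  have hmv := hconv.norm_image_sub_le_of_norm_deriv_le (f := β k) (C := e / (2 * C) / ζ.re)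
    (fun η hη => (hs.diff k).differentiableAt ((isOpen_Sk κ).mem_nhds
      (Sk_mono (by positivity) (by linarith) hη.1.1))) (by
      intro η hη
      have h1 := h η hη.1
      have h2 : ζ.re ≤ η.re := hη.2
      rw [le_div_iff₀ hpos]
      calc ‖deriv (β k) η‖ * ζ.re ≤ ‖deriv (β k) η‖ * η.re :=
            mul_le_mul_of_nonneg_left h2 (norm_nonneg _)
        _ ≤ _ := h1) hm1 hm2
  have hnorm : ‖(2 : ℂ) ^ N * ζ - ζ‖ ≤ C * ζ.re := by
    have h1 : (2 : ℂ) ^ N * ζ - ζ = (((2 : ℝ) ^ N - 1 : ℝ) : ℂ) * ζ := by push_cast; ring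
    rw [h1, norm_mul, norm_real, Real.norm_of_nonneg (by linarith)]
    have h2 := norm_le_abs_re_add_abs_im ζ
    rw [abs_of_pos hpos] at h2
    have h3 : |ζ.im| < κ / 2 * ζ.re := hζ
    have h4 : ‖ζ‖ ≤ (1 + κ) * ζ.re := by nlinarith
    calc ((2 : ℝ) ^ N - 1) * ‖ζ‖ ≤ 2 ^ N * ‖ζ‖ :=
          mul_le_mul_of_nonneg_right (by linarith) (norm_nonneg _)
      _ ≤ 2 ^ N * ((1 + κ) * ζ.re) := mul_le_mul_of_nonneg_left h4 (by positivity)
      _ = C * ζ.re := by rw [hC]; ring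
  calc ‖β k (2 ^ N * ζ) - β k ζ‖ ≤ e / (2 * C) / ζ.re * ‖(2 : ℂ) ^ N * ζ - ζ‖ := hmv
    _ ≤ e / (2 * C) / ζ.re * (C * ζ.re) := mul_le_mul_of_nonneg_left hnorm (by positivity)
    _ = e / 2 := by field_simp
    _ < e := by linarith

/-- the sectors land -/
theorem lands (hb : Base G B cc) {c : ℂ} {N : ℕ} {θ : ℕ → ℝ} {a : ℕ → ℤ} {κ : ℝ} {β : ℕ → ℂ → ℂ}
    (ha : Ang N θ a) (hκ : 0 < κ) (hs : Sec G B c N θ κ β) (k : ℕ) :
    ∃ z : ℂ, (f c)^[N] z = z ∧ Tendsto (β k) (𝓝[Sk (κ / 2)] 0) (𝓝 z) := by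
  have hN := ha.pos
  have hfin := finite_fix c hN
  obtain ⟨s, hs0, hsep⟩ := finite_sep hfin
  obtain ⟨p, hp, hlim⟩ := exists_limit (κ := κ / 2) (by positivity) (g := β k)
    ((hs.diff k).continuousOn.mono (Sk_mono (by positivity) (by linarith))) hs0 hsep (by
      intro ε hε
      -- compactness: if `f^N z` is close to `z` then `z` is close to a fixed point
      have hcont : Continuous (fun z => ‖(f c)^[N] z - z‖) :=
        ((f_iter_continuous c N).sub continuous_id).norm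
      have hcomp : ∃ m : ℝ, 0 < m ∧ ∀ z, ‖z‖ ≤ Real.exp 1 * (4 * (1 + ‖c‖)) →
          ‖(f c)^[N] z - z‖ < m → ∃ p ∈ {z : ℂ | (f c)^[N] z = z}, ‖z - p‖ < ε := by
        by_contra hcon
        push Not at hcon
        have hcpt : IsCompact ({z : ℂ | ‖z‖ ≤ Real.exp 1 * (4 * (1 + ‖c‖))} ∩
            {z | ∀ p ∈ {z : ℂ | (f c)^[N] z = z}, ε ≤ ‖z - p‖}) := by
          apply IsCompact.inter_right
          · have : {z : ℂ | ‖z‖ ≤ Real.exp 1 * (4 * (1 + ‖c‖))} =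
                closedBall 0 (Real.exp 1 * (4 * (1 + ‖c‖))) := by
              ext z; simp
            rw [this]; exact isCompact_closedBall 0 _
          · have : {z : ℂ | ∀ p ∈ {z : ℂ | (f c)^[N] z = z}, ε ≤ ‖z - p‖} =
                ⋂ p : ℂ, ⋂ _ : p ∈ {z : ℂ | (f c)^[N] z = z}, {z : ℂ | ε ≤ ‖z - p‖} := by
              ext z; simp
            rw [this]
            apply isClosed_iInter
            intro p
            apply isClosed_iInter
            intro _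
            exact isClosed_le continuous_const (continuous_id.sub continuous_const).norm
        obtain ⟨z1, h1, h2, h3⟩ := hcon 1 one_pos
        obtain ⟨z2, ⟨hz2, hz2'⟩, hmin⟩ := hcpt.exists_isMinOn ⟨z1, h1, h3⟩ hcont.continuousOn
        have hpos : 0 < ‖(f c)^[N] z2 - z2‖ := by
          rw [norm_pos_iff]
          intro h
          have := hz2' z2 (sub_eq_zero.1 h)
          rw [sub_self, norm_zero] at this
          linarith
        obtain ⟨z3, h4, h5, h6⟩ := hcon _ hpos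
        have h7 : ‖(f c)^[N] z2 - z2‖ ≤ ‖(f c)^[N] z3 - z3‖ := hmin (show z3 ∈ _ from ⟨h4, h6⟩)
        linarith
      obtain ⟨m, hm, hm2⟩ := hcomp
      obtain ⟨δ, hδ, hmv⟩ := moves hb hκ hs k hm
      refine ⟨min δ 1, lt_min hδ one_pos, ?_⟩
      rintro ζ ⟨hζ, hζδ⟩
      have hζκ : ζ ∈ Sk κ := Sk_mono (by positivity) (by linarith) hζ
      have hζ1 : ζ.re < 1 := lt_of_lt_of_le hζδ (min_le_right _ _)
      exact hm2 (β k ζ) ((beta_bound hb hs k hζκ).trans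
        (mul_le_mul_of_nonneg_right (Real.exp_le_exp.2 hζ1.le) (by positivity)))
        (hmv ζ ⟨hζ, lt_of_lt_of_le hζδ (min_le_left _ _)⟩))
  exact ⟨p, hp, hlim⟩

theorem neBot_Sk {κ : ℝ} (hκ : 0 < κ) : (𝓝[Sk κ] (0 : ℂ)).NeBot := by
  rw [← mem_closure_iff_nhdsWithin_neBot, Metric.mem_closure_iff]
  intro ε hε
  refine ⟨((ε / 2 : ℝ) : ℂ), ofReal_mem_Sk hκ (by positivity), ?_⟩
  rw [dist_eq_norm, zero_sub, norm_neg, norm_real, Real.norm_of_nonneg (by positivity)]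
  linarith

theorem tendsto_mul_Sk {κ : ℝ} {r : ℝ} (hr : 0 < r) :
    Tendsto (fun ζ : ℂ => (r : ℂ) * ζ) (𝓝[Sk κ] 0) (𝓝[Sk κ] 0) := by
  apply tendsto_nhdsWithin_of_tendsto_nhds_of_eventually_within
  · have : Tendsto (fun ζ : ℂ => (r : ℂ) * ζ) (𝓝 0) (𝓝 ((r : ℂ) * 0)) := tendsto_id.const_mul _
    rw [mul_zero] at this
    exact this.mono_left nhdsWithin_le_nhds
  · filter_upwards [self_mem_nhdsWithin] with ζ hζ using mul_mem_Sk hr hζ

/-- Green's function of iterates -/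
theorem G_iter (hb : Base G B cc) (c : ℂ) (z : ℂ) (m : ℕ) :
    G c ((f c)^[m] z) = 2 ^ m * G c z := by
  induction m with
  | zero => simp
  | succ m ih => rw [Function.iterate_succ_apply', hb.gf, ih]; ring

/-- the landing point is not attracting -/
theorem one_le_mul (hb : Base G B cc) {c : ℂ} {N : ℕ} (hN : 1 ≤ N) {z₀ : ℂ}
    (hz₀ : (f c)^[N] z₀ = z₀) (hacc : ∀ δ : ℝ, 0 < δ → ∃ z, ‖z - z₀‖ < δ ∧ 0 < G c z) :
    1 ≤ ‖mul N c z₀‖ := by
  by_contra hcon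
  push Not at hcon
  obtain ⟨r, hr1, hr2⟩ := exists_between hcon
  have hr0 : 0 < r := lt_of_le_of_lt (norm_nonneg _) hr1
  have hder : HasDerivAt ((f c)^[N]) (mul N c z₀) z₀ :=
    ((f_iter_differentiable c N) z₀).hasDerivAt
  have hev : ∀ᶠ z in 𝓝 z₀, ‖(f c)^[N] z - z₀‖ ≤ r * ‖z - z₀‖ := by
    have h1 := hder.isLittleO
    have h2 := h1.def (show 0 < r - ‖mul N c z₀‖ by linarith)
    filter_upwards [h2] with z hz
    rw [hz₀] at hz
    have h3 : (f c)^[N] z - z₀ = ((f c)^[N] z - z₀ - (z - z₀) • mul N c z₀) +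
        (z - z₀) • mul N c z₀ := by ring
    rw [h3]
    calc _ ≤ ‖(f c)^[N] z - z₀ - (z - z₀) • mul N c z₀‖ + ‖(z - z₀) • mul N c z₀‖ :=
          norm_add_le _ _
      _ ≤ (r - ‖mul N c z₀‖) * ‖z - z₀‖ + ‖z - z₀‖ * ‖mul N c z₀‖ := by
          rw [norm_smul]; linarith
      _ = r * ‖z - z₀‖ := by ring
  obtain ⟨δ, hδ, hball⟩ := Metric.eventually_nhds_iff_ball.1 hev
  obtain ⟨z, hz1, hz2⟩ := hacc δ hδ
  have hstay : ∀ m : ℕ, ‖((f c)^[N])^[m] z - z₀‖ < δ := by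
    intro m
    induction m with
    | zero => simpa using hz1
    | succ m ih =>
      rw [Function.iterate_succ_apply']
      have h1 := hball (((f c)^[N])^[m] z) (by rwa [mem_ball, dist_eq_norm])
      calc _ ≤ r * ‖((f c)^[N])^[m] z - z₀‖ := h1
        _ ≤ 1 * ‖((f c)^[N])^[m] z - z₀‖ :=
            mul_le_mul_of_nonneg_right hr2.le (norm_nonneg _)
        _ < δ := by rw [one_mul]; exact ih
  -- the Green's function is bounded on this orbit
  have hbd : ∀ m : ℕ, G c (((f c)^[N])^[m] z) ≤ Real.log (1 + ‖c‖ + (‖z₀‖ + δ)) := by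
    intro m
    apply (hb.gup c _).trans
    apply Real.log_le_log (by positivity)
    have h1 : ‖((f c)^[N])^[m] z‖ ≤ ‖z₀‖ + δ := by
      have h2 : ((f c)^[N])^[m] z = z₀ + (((f c)^[N])^[m] z - z₀) := by ring
      rw [h2]
      calc _ ≤ ‖z₀‖ + ‖((f c)^[N])^[m] z - z₀‖ := norm_add_le _ _
        _ ≤ ‖z₀‖ + δ := by linarith [hstay m]
    linarith
  have hval : ∀ m : ℕ, G c (((f c)^[N])^[m] z) = 2 ^ (N * m) * G c z := by
    intro m
    rw [← Function.iterate_mul, G_iter hb]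
  obtain ⟨m, hm⟩ := pow_unbounded_of_one_lt (Real.log (1 + ‖c‖ + (‖z₀‖ + δ)) / G c z)
    (by norm_num : (1 : ℝ) < 2)
  rw [div_lt_iff₀ hz2] at hm
  have h1 := hbd m
  rw [hval m] at h1
  have h2 : (2 : ℝ) ^ m ≤ 2 ^ (N * m) := pow_le_pow_right₀ (by norm_num) (by nlinarith)
  nlinarith

/-- **Module 9**: landing -/
theorem land : S_LAND := by
  intro G B cc hb c N θ a κ β ha hκ hs
  have hκ2 : 0 < κ / 2 := by positivity
  have hsub : Sk (κ / 2) ⊆ Sk κ := Sk_mono hκ2 (by linarith)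
  have hNB := neBot_Sk hκ2
  choose zz hzz1 hzz2 using lands hb ha hκ hs
  have hGc : Continuous (G c) := hb.gcont.comp (Continuous.prodMk_right c)
  have hfc : Continuous (f c) := by unfold f; fun_prop
  have hstep : ∀ k, f c (zz k) = zz (k + 1) := by
    intro k
    have h1 : Tendsto (fun ζ => f c (β k ζ)) (𝓝[Sk (κ / 2)] 0) (𝓝 (f c (zz k))) :=
      (hfc.tendsto _).comp (hzz2 k)
    have h2 : Tendsto (fun ζ => β (k + 1) (2 * ζ)) (𝓝[Sk (κ / 2)] 0) (𝓝 (zz (k + 1))) := by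
      have := (hzz2 (k + 1)).comp (tendsto_mul_Sk (κ := κ / 2) (r := 2) (by norm_num))
      simpa [Function.comp_def] using this
    refine tendsto_nhds_unique (h1.congr' ?_) h2
    filter_upwards [self_mem_nhdsWithin] with ζ hζ using hs.step k ζ (hsub hζ)
  have hper : ∀ k, zz (k + N) = zz k := by
    intro k
    refine tendsto_nhds_unique ((hzz2 (k + N)).congr' ?_) (hzz2 k)
    filter_upwards [self_mem_nhdsWithin] with ζ hζ using hs.per k ζ (hsub hζ)
  have hG : ∀ k, G c (zz k) = 0 := by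
    intro k
    have h1 : Tendsto (fun ζ => G c (β k ζ)) (𝓝[Sk (κ / 2)] 0) (𝓝 (G c (zz k))) :=
      (hGc.tendsto _).comp (hzz2 k)
    have h2 : Tendsto (fun ζ : ℂ => ζ.re) (𝓝[Sk (κ / 2)] 0) (𝓝 (0 : ℂ).re) :=
      (continuous_re.tendsto 0).mono_left nhdsWithin_le_nhds
    rw [zero_re] at h2
    refine tendsto_nhds_unique (h1.congr' ?_) h2
    filter_upwards [self_mem_nhdsWithin] with ζ hζ using hs.grn k ζ (hsub hζ)
  -- the point is different from the values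
  have hne : ∀ ζ ∈ Sk κ, β 0 ζ - zz 0 ≠ 0 := by
    intro ζ hζ h
    have h1 := hs.grn 0 ζ hζ
    rw [sub_eq_zero.1 h, hG 0] at h1
    have := re_pos_of_mem hκ hζ
    linarith
  obtain ⟨F, hF1, hF2⟩ := exists_log (convex_Sk κ) ⟨_, ofReal_mem_Sk hκ one_pos⟩ (isOpen_Sk κ)
    ((hs.diff 0).sub_const (zz 0)) hne
  -- multiplier
  have hacc : ∀ δ : ℝ, 0 < δ → ∃ z, ‖z - zz 0‖ < δ ∧ 0 < G c z := by
    intro δ hδ
    have h1 := (Metric.tendsto_nhds.1 (hzz2 0)) δ hδ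
    obtain ⟨ζ, hζ1, hζ2⟩ := (h1.and self_mem_nhdsWithin).exists
    refine ⟨β 0 ζ, by rwa [dist_eq_norm] at hζ1, ?_⟩
    rw [hs.grn 0 ζ (hsub hζ2)]
    exact re_pos_of_mem hκ2 hζ2
  have hmul := one_le_mul hb ha.pos (hzz1 0) hacc
  have hmul0 : mul N c (zz 0) ≠ 0 := by
    intro h
    rw [h, norm_zero] at hmul
    linarith
  have h2N : ∀ ζ ∈ Sk κ, (2 : ℂ) ^ N * ζ ∈ Sk κ := by
    intro ζ hζ
    have := mul_mem_Sk (r := 2 ^ N) (by positivity) hζ
    simpa using this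
  -- the quotient
  have hquot : Tendsto (fun ζ => exp (F (2 ^ N * ζ) - F ζ)) (𝓝[Sk (κ / 2)] 0)
      (𝓝 (mul N c (zz 0))) := by
    have hder : HasDerivAt ((f c)^[N]) (mul N c (zz 0)) (zz 0) :=
      ((f_iter_differentiable c N) (zz 0)).hasDerivAt
    rw [hasDerivAt_iff_tendsto_slope] at hder
    have h1 : Tendsto (β 0) (𝓝[Sk (κ / 2)] 0) (𝓝[≠] (zz 0)) := by
      apply tendsto_nhdsWithin_of_tendsto_nhds_of_eventually_within _ (hzz2 0)
      filter_upwards [self_mem_nhdsWithin] with ζ hζ h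
      exact hne ζ (hsub hζ) (sub_eq_zero.2 h)
    apply (hder.comp h1).congr'
    filter_upwards [self_mem_nhdsWithin] with ζ hζ
    have hζ' := hsub hζ
    rw [Function.comp_apply, slope_def_field, exp_sub, hF2 _ (h2N ζ hζ'), hF2 ζ hζ',
      iter_N hs 0 hζ', hzz1 0]
  -- the limit of the difference
  have hHc : ContinuousOn (fun ζ => F (2 ^ N * ζ) - F ζ) (Sk (κ / 2)) := by
    intro ζ hζ
    have h1 : ContinuousAt F ζ :=
      (hF1.differentiableAt ((isOpen_Sk κ).mem_nhds (hsub hζ))).continuousAt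
    have h2 : ContinuousAt F (2 ^ N * ζ) :=
      (hF1.differentiableAt ((isOpen_Sk κ).mem_nhds (h2N ζ (hsub hζ)))).continuousAt
    have h3 : ContinuousAt (fun ζ : ℂ => (2 : ℂ) ^ N * ζ) ζ := by fun_prop
    exact ((ContinuousAt.comp (f := fun ζ : ℂ => (2 : ℂ) ^ N * ζ) h2 h3).sub h1).continuousWithinAt
  obtain ⟨Λ, hΛ1, hΛ2⟩ := exists_limit hκ2 hHc (P := {x : ℂ | exp x = mul N c (zz 0)})
    (s := 1) one_pos (by
      intro p hp p' hp' hne
      have h1 : exp p = exp p' := by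
        rw [show exp p = mul N c (zz 0) from hp, show exp p' = mul N c (zz 0) from hp']
      obtain ⟨n, hn⟩ := exp_eq_exp_iff_exists_int.1 h1
      have hn0 : n ≠ 0 := by
        rintro rfl
        apply hne
        rw [hn]; simp
      rw [hn, add_sub_cancel_left, norm_mul]
      have h2 : ‖2 * (Real.pi : ℂ) * I‖ = 2 * Real.pi := by
        simp [abs_of_pos Real.pi_pos]
      rw [h2]
      have h3 : (1 : ℝ) ≤ ‖(n : ℂ)‖ := by
        rw [norm_intCast, ← Int.cast_abs]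
        exact_mod_cast Int.one_le_abs hn0
      have := Real.pi_gt_three
      nlinarith) (by
      intro ε hε
      have h1 : Tendsto (fun ζ => log (exp (F (2 ^ N * ζ) - F ζ) / mul N c (zz 0)))
          (𝓝[Sk (κ / 2)] 0) (𝓝 0) := by
        have h2 := hquot.div_const (mul N c (zz 0))
        rw [div_self hmul0] at h2
        have h3 : ContinuousAt log 1 := continuousAt_clog (by simp)
        have h4 := h3.tendsto.comp h2
        rw [log_one] at h4
        exact h4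
      have h2 := (Metric.tendsto_nhds.1 h1) ε hε
      obtain ⟨δ, hδ, h3⟩ := (mem_S_iff_eventually hκ2).1 h2
      refine ⟨δ, hδ, fun ζ hζ => ?_⟩
      have h4 := h3 ζ hζ
      rw [dist_zero_right] at h4
      refine ⟨F (2 ^ N * ζ) - F ζ - log (exp (F (2 ^ N * ζ) - F ζ) / mul N c (zz 0)), ?_, ?_⟩
      · show exp _ = _
        rw [exp_sub, exp_log (div_ne_zero (exp_ne_zero _) hmul0)]
        field_simp
      · rw [sub_sub_cancel]; exact h4)
  refine ⟨zz, Λ, ⟨hzz2, F, hF1, hF2, hΛ2⟩, hstep, hper, hG, hΛ1, ?_⟩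
  have h1 : ‖exp Λ‖ = ‖mul N c (zz 0)‖ := by rw [show exp Λ = mul N c (zz 0) from hΛ1]
  rw [norm_exp] at h1
  rw [← h1] at hmul
  exact Real.one_le_exp_iff.1 hmul

end Pool.Agent.KS6_23.ML.LAND
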