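import Pool.Agent.KS6_23.ML.UNR
import Pool.Agent.KS6_23.ML.LAND

set_option autoImplicit false

/-! # Project ML: the extension theorem -/

open Complex Set Filter Metric Topology MeasureTheory

namespace Pool.Agent.KS6_23.ML.EXT

open Pool.Agent.KS6_23.ML Pool.Agent.KS6_23.ML.Basic Pool.Agent.KS6_23.ML.LabC
open Pool.Agent.KS6_23.ML.Curve Pool.Agent.KS6_23.ML.UNR

theorem fibre_finite (hCn : S_CNTN) {n : ℕ} (hn : 1 ≤ n) (s : ℂ) :
    {x : ℂ × ℂ × ℂ | x ∈ XX n univ ∧ x.2.2 = s}.Finite := by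
  have h1 : (⋃ c ∈ {c : ℂ | ∃ z, (f c)^[n] z = z ∧ mul n c z = exp s},
      (fun z : ℂ => ((c, z, s) : ℂ × ℂ × ℂ)) '' {z : ℂ | (f c)^[n] z = z}).Finite :=
    ((hCn n hn).1 (exp s)).biUnion fun c _ => (LAND.finite_fix c hn).image _
  refine h1.subset ?_
  rintro ⟨c, z, s'⟩ ⟨⟨_, h2, h3⟩, h4⟩
  simp only at h4 h2 h3
  subst h4
  simp only [mem_iUnion]
  exact ⟨c, ⟨z, h2, h3⟩, z, h2, rfl⟩

/-- the projection to the logarithm of the multiplier -/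
def pr (n : ℕ) (x : XX n univ) : ℂ := x.1.2.2

theorem pr_cont (n : ℕ) : Continuous (pr n) := by
  unfold pr
  fun_prop

theorem pr_closed (hK : S_XCPT) {n : ℕ} (hn : 1 ≤ n) : IsClosedMap (pr n) := by
  intro C hC
  rw [← isSeqClosed_iff_isClosed]
  intro ss s hss hlim
  choose x hxC hxs using hss
  have hs : Tendsto (fun k => (x k).1.2.2) atTop (𝓝 s) := by
    have : (fun k => (x k).1.2.2) = ss := by
      funext k
      exact hxs k
    rw [this]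
    exact hlim
  obtain ⟨a, φ, hφ, ha1, ha2, ha3⟩ := xlim hK hn (x := fun k => (x k).1) (fun k => (x k).2) hs
  refine ⟨⟨a, ha3⟩, ?_, ha2⟩
  refine hC.isSeqClosed (x := fun k => x (φ k)) (fun k => hxC _) ?_
  rw [tendsto_subtype_rng]
  exact ha1

theorem cov (hX : S_XLOC) (hK : S_XCPT) (hCn : S_CNTN) {n : ℕ} (hn : 1 ≤ n) {D : Set ℂ}
    (hD : IsOpen D) (h1 : ∀ s ∈ D, exp s ≠ 1) (hU : ∀ x ∈ XX n D, Unr n x) :
    IsCoveringMapOn (pr n) D := by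
  refine (pr_closed hK hn).isCoveringMapOn_of_isLocalHomeomorphOn (fun s _ => ?_) ?_
  · refine Set.Finite.of_finite_image (f := Subtype.val) ?_ Subtype.val_injective.injOn
    refine (fibre_finite hCn hn s).subset ?_
    rintro _ ⟨x, hx, rfl⟩
    exact ⟨x.2, hx⟩
  · rw [isLocalHomeomorphOn_iff_isOpenEmbedding_restrict]
    intro a ha
    have haD : a.1 ∈ XX n D := ⟨ha, a.2.2⟩
    obtain ⟨ε, ψ, ζ, hε, hψ, hζ, hψ0, hζ0, hmem, η, hη, huni⟩ := xsec hX hn a.2 (h1 _ ha)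
      (hU _ haD)
    set U : Set (XX n univ) := ball a η ∩ (pr n) ⁻¹' D with hUdef
    have hUo : IsOpen U := isOpen_ball.inter (hD.preimage (pr_cont n))
    have haU : U ∈ 𝓝 a := hUo.mem_nhds ⟨mem_ball_self hη, ha⟩
    refine ⟨U, haU, ?_⟩
    refine IsOpenEmbedding.of_continuous_injective_isOpenMap ?_ ?_ ?_
    · exact (pr_cont n).comp continuous_subtype_val
    · rintro ⟨x, hx⟩ ⟨x', hx'⟩ hxx
      have e1 : x.1.2.2 = x'.1.2.2 := hxx
      obtain ⟨_, e2⟩ := huni x.1 x.2 hx.1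
      obtain ⟨_, e3⟩ := huni x'.1 x'.2 hx'.1
      have e4 : x.1 = x'.1 := by rw [e2, e3, e1]
      exact Subtype.ext (Subtype.ext e4)
    · rw [isOpenMap_iff_nhds_le]
      intro x S hS
      have hS1 : ∀ᶠ y : U in 𝓝 x, y.1.1.2.2 ∈ S := hS
      have hS2 : ∀ᶠ y : XX n univ in 𝓝 x.1, y.1.2.2 ∈ S := by
        have h2 : ∀ᶠ y : XX n univ in map Subtype.val (𝓝 x), y.1.2.2 ∈ S := hS1
        rwa [map_nhds_subtype_val, hUo.nhdsWithin_eq x.2] at h2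
      have hS3 : ∀ᶠ y : ℂ × ℂ × ℂ in 𝓝 x.1.1, y ∈ XX n univ → y.2.2 ∈ S := by
        have h2 : ∀ᶠ y : ℂ × ℂ × ℂ in map Subtype.val (𝓝 x.1), y.2.2 ∈ S := hS2
        rw [map_nhds_subtype_val] at h2
        exact eventually_nhdsWithin_iff.1 h2
      have h2 := sigma_open hX hCn hn x.1.2 (h1 _ x.2.2) hS3
      change S ∈ 𝓝 x.1.1.2.2
      filter_upwards [h2] with s hs
      obtain ⟨y, _, hy1, hy2⟩ := hs
      rw [← hy1]
      exact hy2

theorem ext (hUnr : S_UNR) (hX : S_XLOC) (hK : S_XCPT) (hCn : S_CNTN) : S_EXT := by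
  obtain ⟨κ₀, hκ0, hκ1, hunr⟩ := hUnr
  refine ⟨κ₀, hκ0, hκ1, fun n t hn ht c₀ z₀ hf hm => ?_⟩
  have hrt := rad_le hκ0 hκ1 (t := t) hn
  have hr0 := rad_pos hκ0 (t := t) ht hn
  set D : Set ℂ := DD κ₀ n t with hD
  have hDb : D = ball (tpi * (t : ℂ)) (κ₀ * dZ t ^ 2 / n) := rfl
  have hDo : IsOpen D := isOpen_ball
  have h1 : ∀ s ∈ D, exp s ≠ 1 := fun s hs => exp_ne_one hrt hs
  have hU : ∀ x ∈ XX n D, Unr n x := fun x hx => hunr n t hn ht x hx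
  have hcov := cov hX hK hCn hn hDo h1 hU
  have : ContractibleSpace D := contractibleSpace_ball hr0
  have : LocallyPathConnectedSpace D := hDo.locallyPathConnectedSpace
  have hs0 : tpi * (t : ℂ) ∈ D := mem_ball_self hr0
  set e₀ : XX n univ := ⟨(c₀, z₀, tpi * (t : ℂ)), mem_univ _, hf, hm⟩ with he₀
  obtain ⟨F, ⟨hF0, hFp⟩, _⟩ := hcov.existsUnique_continuousMap_lifts
    (A := D) (⟨Subtype.val, continuous_subtype_val⟩ : C(D, ℂ)) (a₀ := ⟨tpi * (t : ℂ), hs0⟩)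
    (e₀ := e₀) rfl (fun a => a.2)
  have hFs : ∀ s (hs : s ∈ D), (F ⟨s, hs⟩).1.2.2 = s := fun s hs => congrFun hFp ⟨s, hs⟩
  classical
  set ψ : ℂ → ℂ := fun s => if h : s ∈ D then (F ⟨s, h⟩).1.1 else 0 with hψ
  set ζ : ℂ → ℂ := fun s => if h : s ∈ D then (F ⟨s, h⟩).1.2.1 else 0 with hζ
  have hψs : ∀ s (hs : s ∈ D), ψ s = (F ⟨s, hs⟩).1.1 := fun s hs => dif_pos hs
  have hζs : ∀ s (hs : s ∈ D), ζ s = (F ⟨s, hs⟩).1.2.1 := fun s hs => dif_pos hs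
  -- local form
  have hloc : ∀ s ∈ D, DifferentiableAt ℂ ψ s ∧ DifferentiableAt ℂ ζ s ∧ deriv ψ s ≠ 0 := by
    intro s hs
    set a : XX n univ := F ⟨s, hs⟩ with ha
    have has : a.1.2.2 = s := hFs s hs
    have haD : a.1 ∈ XX n D := ⟨by rw [has]; exact hs, a.2.2⟩
    obtain ⟨ε, ψ', ζ', hε, hψ', hζ', hψ0, hζ0, hmem, η, hη, huni⟩ := xsec hX hn a.2
      (h1 _ haD.1) (hU _ haD)
    rw [has] at hψ' hζ' hψ0 hζ0 hmem huni
    have hev : ∀ᶠ s' : D in 𝓝 ⟨s, hs⟩, dist (F s').1 a.1 < η := by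
      have h2 : Tendsto (fun s' : D => (F s').1) (𝓝 ⟨s, hs⟩) (𝓝 a.1) :=
        (continuous_subtype_val.comp F.continuous).tendsto _
      exact h2.eventually (ball_mem_nhds _ hη)
    have hev2 : ∀ᶠ s' in 𝓝 s, ∀ h : s' ∈ D, dist (F ⟨s', h⟩).1 a.1 < η := by
      rw [nhds_subtype_eq_comap, eventually_comap] at hev
      filter_upwards [hev] with s' g1 g2
      exact g1 ⟨s', g2⟩ rfl
    have hev3 : ∀ᶠ s' in 𝓝 s, ψ s' = ψ' s' ∧ ζ s' = ζ' s' := by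
      filter_upwards [hev2, hDo.mem_nhds hs] with s' g1 g2
      obtain ⟨_, h3⟩ := huni (F ⟨s', g2⟩).1 (F ⟨s', g2⟩).2 (g1 g2)
      rw [hFs s' g2] at h3
      rw [hψs s' g2, hζs s' g2, h3]
      exact ⟨rfl, rfl⟩
    have e1 : ψ =ᶠ[𝓝 s] ψ' := by filter_upwards [hev3] with s' g using g.1
    have e2 : ζ =ᶠ[𝓝 s] ζ' := by filter_upwards [hev3] with s' g using g.2
    have hn1 : ball s ε ∈ 𝓝 s := ball_mem_nhds _ hε
    refine ⟨(hψ'.differentiableAt hn1).congr_of_eventuallyEq e1,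
      (hζ'.differentiableAt hn1).congr_of_eventuallyEq e2, ?_⟩
    rw [e1.deriv_eq]
    exact (hmem s (mem_ball_self hε)).2
  refine ⟨ψ, ζ, fun s hs => (hloc s hs).1.differentiableWithinAt,
    fun s hs => (hloc s hs).2.1.differentiableWithinAt, ?_, ?_, ?_⟩
  · rw [hψs _ hs0, hF0]
  · rw [hζs _ hs0, hF0]
  · intro s hs
    have hmem : (ψ s, ζ s, s) ∈ XX n D := by
      have h2 : ((ψ s, ζ s, s) : ℂ × ℂ × ℂ) = (F ⟨s, hs⟩).1 :=
        Prod.ext (hψs s hs) (Prod.ext (hζs s hs) (hFs s hs).symm)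
      rw [h2]
      exact ⟨by rw [hFs s hs]; exact hs, (F ⟨s, hs⟩).2.2⟩
    refine ⟨hmem, ?_, (hloc s hs).2.2⟩
    refine hK.2 n (ψ s) (ζ s) hn hmem.2.1 ?_
    rw [hmem.2.2, norm_exp]
    simp only
    have h3 : s.re < 1 / 2 := by
      have h4 : ‖s - tpi * t‖ < κ₀ * dZ t ^ 2 / n := by
        rw [← dist_eq_norm]
        exact hs
      have h5 : (s - tpi * (t : ℂ)).re = s.re := by
        rw [sub_re, _root_.mul_comm, real_mul_tpi_re, sub_zero]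
      have h6 : dZ t ≤ 1 / 2 := abs_sub_round t
      have h7 := (le_abs_self _).trans (abs_re_le_norm (s - tpi * (t : ℂ)))
      rw [h5] at h7
      linarith
    have h4 : Real.exp s.re ≤ Real.exp 1 := Real.exp_le_exp.2 (by linarith)
    have h5 := Real.exp_one_lt_d9
    linarith

end Pool.Agent.KS6_23.ML.EXT
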