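import Pool.Agent.KS6_23.ML.SecTools

set_option autoImplicit false

/-!
# Project ML, module 4: the branch of the logarithm of `z - cc w`

The branch is given by the continuous logarithm of `(B (cc w) (w + s) - z) exp (-(w + s))` on
`[0, ∞)`, normalised at infinity.
-/

open Complex Set Filter Metric Topology MeasureTheory

namespace Pool.Agent.KS6_23.ML.LAM

open SecTools

/-! ## Continuous logarithms on `[0, ∞)` -/

/-- `L` is the continuous logarithm of `g` on `[0, ∞)`, with the limit zero at infinity -/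
structure IsLog (g L : ℝ → ℂ) : Prop where
  cont : ContinuousOn L (Ici 0)
  eq : ∀ s, 0 ≤ s → exp (L s) = g s
  lim : Tendsto L atTop (𝓝 0)

theorem norm_of_exp_eq_one {z : ℂ} (h : exp z = 1) : z = 0 ∨ 1 < ‖z‖ := by
  rw [exp_eq_one_iff] at h
  obtain ⟨n, hn⟩ := h
  rcases eq_or_ne n 0 with h0 | h0
  · left; rw [hn, h0]; simp
  · right
    rw [hn, norm_mul, norm_mul, norm_mul]
    have h1 : (1 : ℝ) ≤ |(n : ℝ)| := by
      have := Int.one_le_abs h0
      exact_mod_cast this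
    have h2 : ‖(n : ℂ)‖ = |(n : ℝ)| := norm_intCast n
    rw [h2, norm_I, norm_real, Real.norm_eq_abs, abs_of_pos Real.pi_pos]
    simp only [Complex.norm_ofNat, mul_one]
    nlinarith [Real.pi_gt_three]

theorem const_of_exp_eq {a b : ℝ} {D : ℝ → ℂ} (hab : a ≤ b) (hD : ContinuousOn D (Icc a b))
    (h1 : ∀ s ∈ Icc a b, exp (D s) = 1) : D a = D b := by
  by_contra hne
  have hexp : ∀ s ∈ Icc a b, exp (D s - D a) = 1 := by
    intro s hs
    rw [exp_sub, h1 s hs, h1 a (left_mem_Icc.2 hab), div_one]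
  have hc : ContinuousOn (fun s => ‖D s - D a‖) (Icc a b) := (hD.sub continuousOn_const).norm
  have hb : 1 < ‖D b - D a‖ := by
    rcases norm_of_exp_eq_one (hexp b (right_mem_Icc.2 hab)) with h | h
    · exact absurd (sub_eq_zero.1 h).symm hne
    · exact h
  have hmem : (1 : ℝ) ∈ Icc (‖D a - D a‖) (‖D b - D a‖) := by
    rw [sub_self, norm_zero]
    exact ⟨zero_le_one, hb.le⟩
  obtain ⟨t, ht, ht1⟩ := intermediate_value_Icc hab hc hmem
  simp only at ht1
  rcases norm_of_exp_eq_one (hexp t ht) with h | h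
  · rw [h, norm_zero] at ht1; exact zero_ne_one ht1
  · linarith

theorem IsLog.unique {g L L' : ℝ → ℂ} (h : IsLog g L) (h' : IsLog g L') :
    ∀ s, 0 ≤ s → L s = L' s := by
  intro s hs
  have hg : ∀ t, 0 ≤ t → exp (L t - L' t) = 1 := by
    intro t ht
    rw [exp_sub, h.eq t ht, h'.eq t ht]
    refine div_self ?_
    rw [← h.eq t ht]
    exact exp_ne_zero _
  have hconst : ∀ t, s ≤ t → L s - L' s = L t - L' t := by
    intro t hst
    refine const_of_exp_eq (D := fun t => L t - L' t) hst ?_ ?_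
    · exact (h.cont.sub h'.cont).mono (fun u hu => hs.trans hu.1)
    · intro u hu
      exact hg u (hs.trans hu.1)
  have hlim : Tendsto (fun t => L t - L' t) atTop (𝓝 0) := by
    simpa using h.lim.sub h'.lim
  have hlim2 : Tendsto (fun _ : ℝ => L s - L' s) atTop (𝓝 0) := by
    refine hlim.congr' ?_
    filter_upwards [eventually_ge_atTop s] with t ht
    exact (hconst t ht).symm
  have := tendsto_nhds_unique hlim2 tendsto_const_nhds
  exact (sub_eq_zero.1 this.symm)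

theorem exists_isLog {g : ℝ → ℂ} (hg : ContinuousOn g (Ici 0)) (h0 : ∀ s, 0 ≤ s → g s ≠ 0)
    (hl : Tendsto g atTop (𝓝 1)) : ∃ L, IsLog g L := by
  have hsc : IsSimplyConnected (univ : Set ℝ) := by
    have := (convex_univ : Convex ℝ (univ : Set ℝ)).contractibleSpace univ_nonempty
    exact SimplyConnectedSpace.ofContractible (univ : Set ℝ)
  have hg' : Continuous (fun s : ℝ => g (max s 0)) :=
    hg.comp_continuous (by fun_prop) (fun s => le_max_right s 0)
  obtain ⟨L0, hL0, hL0e⟩ := exists_continuousOn_eqOn_exp_comp hsc isOpen_univ hg'.continuousOn (by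
    rintro ⟨s, -, h⟩
    exact h0 _ (le_max_right s 0) h)
  have he : ∀ s, 0 ≤ s → exp (L0 s) = g s := by
    intro s hs
    have := hL0e (mem_univ s)
    simp only [Function.comp, max_eq_left hs] at this
    exact this
  -- for large `s` the value `g s` is close to `1`
  obtain ⟨S, hS⟩ : ∃ S : ℝ, ∀ s, S ≤ s → ‖g s - 1‖ < 1 / 2 := by
    rw [tendsto_iff_norm_sub_tendsto_zero] at hl
    exact eventually_atTop.1 (hl.eventually (gt_mem_nhds (by norm_num)))
  set T := max S 0 with hT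
  have hT0 : 0 ≤ T := le_max_right _ _
  have hslit : ∀ s, T ≤ s → g s ∈ slitPlane := by
    intro s hs
    have h1 := hS s ((le_max_left _ _).trans hs)
    rw [mem_slitPlane_iff]
    left
    have h2 := (abs_re_le_norm (g s - 1)).trans_lt h1
    rw [sub_re, one_re] at h2
    linarith [(abs_lt.1 h2).1]
  have hgT : ∀ s, T ≤ s → ContinuousOn (fun t => L0 t - log (g t)) (Icc T s) := by
    intro s hs
    refine (hL0.mono (subset_univ _)).sub ?_
    exact (hg.mono (fun u hu => hT0.trans hu.1)).clog (fun u hu => hslit u hu.1)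
  have hconst : ∀ s, T ≤ s → L0 T - log (g T) = L0 s - log (g s) := by
    intro s hs
    refine const_of_exp_eq (D := fun t => L0 t - log (g t)) hs (hgT s hs) ?_
    intro u hu
    have hu0 : 0 ≤ u := hT0.trans hu.1
    rw [exp_sub, he u hu0, exp_log (h0 u hu0), div_self (h0 u hu0)]
  set κ := L0 T - log (g T) with hκ
  have hκ1 : exp κ = 1 := by
    rw [hκ, exp_sub, he T hT0, exp_log (h0 T hT0), div_self (h0 T hT0)]
  refine ⟨fun s => L0 s - κ, ⟨?_, ?_, ?_⟩⟩
  · exact (hL0.mono (subset_univ _)).sub continuousOn_const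
  · intro s hs
    rw [exp_sub, he s hs, hκ1, div_one]
  · have h1 : Tendsto (fun s => log (g s)) atTop (𝓝 0) := by
      have := hl.clog (by simp)
      simpa using this
    refine h1.congr' ?_
    filter_upwards [eventually_ge_atTop T] with s hs
    rw [hconst s hs]; ring

/-- a function which is close to `1` -/
theorem isLog_log {g : ℝ → ℂ} (hg : ContinuousOn g (Ici 0)) (h1 : ∀ s, 0 ≤ s → g s ∈ slitPlane)
    (hl : Tendsto g atTop (𝓝 1)) : IsLog g (fun s => log (g s)) := by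
  refine ⟨hg.clog h1, fun s hs => exp_log (slitPlane_ne_zero (h1 s hs)), ?_⟩
  have := hl.clog (by simp)
  simpa using this

theorem mem_slitPlane_of_norm_sub_one_lt {z : ℂ} (h : ‖z - 1‖ < 1) : z ∈ slitPlane := by
  rw [mem_slitPlane_iff]
  left
  have h2 := (abs_re_le_norm (z - 1)).trans_lt h
  rw [sub_re, one_re] at h2
  linarith [(abs_lt.1 h2).1]

/-! ## The function `gg` -/

section

variable {G : ℂ → ℂ → ℝ} {B : ℂ → ℂ → ℂ} {cc : ℂ → ℂ}

/-- the normalised difference -/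
noncomputable def gg (B : ℂ → ℂ → ℂ) (cc : ℂ → ℂ) (w z : ℂ) (s : ℝ) : ℂ :=
  (B (cc w) (w + s) - z) * exp (-(w + s))

open Classical in
/-- the branch of the logarithm -/
noncomputable def lam (B : ℂ → ℂ → ℂ) (cc : ℂ → ℂ) (w z : ℂ) : ℂ :=
  w + Real.pi * I + if h : ∃ L, IsLog (gg B cc w z) L then h.choose 0 else 0

theorem lam_eq {w z : ℂ} {L : ℝ → ℂ} (h : IsLog (gg B cc w z) L) :
    lam B cc w z = w + Real.pi * I + L 0 := by
  have h1 : ∃ L, IsLog (gg B cc w z) L := ⟨L, h⟩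
  unfold lam
  rw [dif_pos h1, h1.choose_spec.unique h 0 le_rfl]

theorem dom (hb : Base G B cc) {w : ℂ} (hw : w ∈ HP) {s : ℝ} (hs : 0 ≤ s) :
    G (cc w) (cc w) < 2 * (w + s).re := by
  have h : 0 < w.re := hw
  rw [hb.pG w hw, add_re, ofReal_re]
  linarith

theorem gg_ne_zero_iff (w z : ℂ) (s : ℝ) : gg B cc w z s ≠ 0 ↔ z ≠ B (cc w) (w + s) := by
  unfold gg
  rw [ne_eq, mul_eq_zero, not_or, sub_eq_zero]
  exact ⟨fun h e => h.1 e.symm, fun h => ⟨fun e => h e.symm, exp_ne_zero _⟩⟩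

theorem notMem_Gam_iff (w z : ℂ) :
    z ∉ Gam B cc w ↔ ∀ s : ℝ, 0 ≤ s → gg B cc w z s ≠ 0 := by
  constructor
  · intro h s hs
    rw [gg_ne_zero_iff]
    intro e
    refine h ⟨w + s, by simp, by simp [hs], e⟩
  · rintro h ⟨ξ, h1, h2, h3⟩
    have := h (ξ.re - w.re) (by linarith)
    rw [gg_ne_zero_iff] at this
    apply this
    rw [h3]
    congr 1
    apply Complex.ext
    · simp
    · simp [h1]

theorem gg_bound (hb : Base G B cc) : ∃ K : ℝ, 1 ≤ K ∧ ∀ w ∈ HP, ∀ z : ℂ, ∀ s : ℝ,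
    1 ≤ w.re + s → K * ‖cc w‖ ≤ Real.exp (2 * (w.re + s)) →
    ‖gg B cc w z s - 1‖ ≤ K * ‖cc w‖ * Real.exp (-(2 * (w.re + s))) +
      ‖z‖ * Real.exp (-(w.re + s)) := by
  obtain ⟨K, hK1, hK⟩ := hb.basym
  refine ⟨K, hK1, fun w hw z s hs hcc => ?_⟩
  have hre : (w + s).re = w.re + s := by simp
  have h1 := (hK (cc w) (w + s) (by rw [hre]; exact hs) (by rw [hre]; exact hcc)).2
  rw [hre] at h1
  have h2 : gg B cc w z s - 1 = (B (cc w) (w + s) * exp (-(w + s)) - 1) - z * exp (-(w + s)) := by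
    unfold gg; ring
  rw [h2]
  refine (norm_sub_le _ _).trans (add_le_add h1 ?_)
  rw [norm_mul, norm_exp, neg_re, hre]

theorem gg_tendsto (hb : Base G B cc) {w : ℂ} (hw : w ∈ HP) (z : ℂ) :
    Tendsto (gg B cc w z) atTop (𝓝 1) := by
  obtain ⟨K, hK1, hK⟩ := gg_bound hb
  have h1 : Tendsto (fun s : ℝ => w.re + s) atTop atTop := tendsto_atTop_add_const_left _ _ tendsto_id
  have h2 : Tendsto (fun s : ℝ => 2 * (w.re + s)) atTop atTop := h1.const_mul_atTop (by norm_num)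
  have h3 : Tendsto (fun s : ℝ => K * ‖cc w‖ * Real.exp (-(2 * (w.re + s))) +
      ‖z‖ * Real.exp (-(w.re + s))) atTop (𝓝 0) := by
    have := ((Real.tendsto_exp_neg_atTop_nhds_zero.comp h2).const_mul (K * ‖cc w‖)).add
      ((Real.tendsto_exp_neg_atTop_nhds_zero.comp h1).const_mul ‖z‖)
    simpa using this
  rw [tendsto_iff_norm_sub_tendsto_zero]
  refine squeeze_zero' (Eventually.of_forall fun _ => norm_nonneg _) ?_ h3
  filter_upwards [h1.eventually_ge_atTop 1,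
    (Real.tendsto_exp_atTop.comp h2).eventually_ge_atTop (K * ‖cc w‖)] with s hs1 hs2
  exact hK w hw z s hs1 hs2

theorem isOpen_HP : IsOpen HP := isOpen_lt continuous_const continuous_re

theorem gg_contAt (hb : Base G B cc) {w : ℂ} (hw : w ∈ HP) (z : ℂ) {s : ℝ} (hs : 0 ≤ s) :
    ContinuousAt (fun p : (ℂ × ℂ) × ℝ => gg B cc p.1.1 p.1.2 p.2) ((w, z), s) := by
  have hopen : IsOpen {p : ℂ × ℂ | G p.1 p.1 < 2 * p.2.re} := by
    refine isOpen_lt ?_ ?_
    · exact hb.gcont.comp (continuous_fst.prodMk continuous_fst)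
    · exact continuous_const.mul (continuous_re.comp continuous_snd)
  have hBat : ContinuousAt (fun p : ℂ × ℂ => B p.1 p.2) (cc w, w + s) :=
    hb.bcont.continuousAt (hopen.mem_nhds (dom hb hw hs))
  have hcc : ContinuousAt cc w := (hb.pdiff.differentiableAt (isOpen_HP.mem_nhds hw)).continuousAt
  have h1 : ContinuousAt (fun p : (ℂ × ℂ) × ℝ => (cc p.1.1, p.1.1 + (p.2 : ℂ))) ((w, z), s) := by
    refine ContinuousAt.prodMk ?_ ?_
    · exact ContinuousAt.comp (x := ((w, z), s)) (f := fun p : (ℂ × ℂ) × ℝ => p.1.1) (g := cc) hcc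
        (by fun_prop)
    · fun_prop
  have h2 : ContinuousAt (fun p : (ℂ × ℂ) × ℝ => B (cc p.1.1) (p.1.1 + (p.2 : ℂ))) ((w, z), s) :=
    ContinuousAt.comp (x := ((w, z), s)) (f := fun p : (ℂ × ℂ) × ℝ => (cc p.1.1, p.1.1 + (p.2 : ℂ)))
      (g := fun p : ℂ × ℂ => B p.1 p.2) hBat h1
  unfold gg
  exact (h2.sub (by fun_prop)).mul (by fun_prop)

theorem gg_cont (hb : Base G B cc) {w : ℂ} (hw : w ∈ HP) (z : ℂ) :
    ContinuousOn (gg B cc w z) (Ici 0) := by
  intro s hs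
  have h1 := gg_contAt hb hw z hs
  have h2 : ContinuousAt (fun s : ℝ => ((w, z), s)) s := by fun_prop
  exact (ContinuousAt.comp (f := fun s : ℝ => ((w, z), s)) h1 h2).continuousWithinAt

/-- uniform convergence -/
theorem gg_unif (hb : Base G B cc) {w₀ : ℂ} (hw : w₀ ∈ HP) (z₀ : ℂ) {ε : ℝ} (hε : 0 < ε) :
    ∀ᶠ p : ℂ × ℂ in 𝓝 (w₀, z₀), ∀ s : ℝ, 0 ≤ s →
      ‖gg B cc p.1 p.2 s - gg B cc w₀ z₀ s‖ < ε := by
  obtain ⟨K, hK1, hK⟩ := gg_bound hb
  -- the part at infinity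
  have hcc : ContinuousAt cc w₀ := (hb.pdiff.differentiableAt (isOpen_HP.mem_nhds hw)).continuousAt
  have hccn : ∀ᶠ p : ℂ × ℂ in 𝓝 (w₀, z₀), ‖cc p.1‖ < ‖cc w₀‖ + 1 := by
    have h1 : ContinuousAt (fun p : ℂ × ℂ => ‖cc p.1‖) (w₀, z₀) :=
      (ContinuousAt.comp (x := (w₀, z₀)) (f := fun p : ℂ × ℂ => p.1) (g := cc) hcc
        continuousAt_fst).norm
    exact h1.eventually (gt_mem_nhds (by simp))
  have hzn : ∀ᶠ p : ℂ × ℂ in 𝓝 (w₀, z₀), ‖p.2‖ < ‖z₀‖ + 1 := by
    have h1 : ContinuousAt (fun p : ℂ × ℂ => ‖p.2‖) (w₀, z₀) := by fun_prop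
    exact h1.eventually (gt_mem_nhds (by simp))
  have hHP : ∀ᶠ p : ℂ × ℂ in 𝓝 (w₀, z₀), p.1 ∈ HP :=
    continuousAt_fst.eventually (isOpen_HP.mem_nhds hw)
  have h2 : Tendsto (fun s : ℝ => 2 * s) atTop atTop := tendsto_id.const_mul_atTop (by norm_num)
  have h3 : Tendsto (fun s : ℝ => K * (‖cc w₀‖ + 1) * Real.exp (-(2 * s)) +
      (‖z₀‖ + 1) * Real.exp (-s)) atTop (𝓝 0) := by
    have := ((Real.tendsto_exp_neg_atTop_nhds_zero.comp h2).const_mul (K * (‖cc w₀‖ + 1))).add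
      (Real.tendsto_exp_neg_atTop_nhds_zero.const_mul (‖z₀‖ + 1))
    simpa using this
  obtain ⟨S, hS⟩ := eventually_atTop.1 (((h3.eventually (gt_mem_nhds (half_pos hε))).and
    ((Real.tendsto_exp_atTop.comp h2).eventually_ge_atTop (K * (‖cc w₀‖ + 1)))).and
    ((eventually_ge_atTop (1 : ℝ)).and (eventually_ge_atTop (0 : ℝ))))
  have hfar : ∀ p : ℂ × ℂ, p.1 ∈ HP → ‖cc p.1‖ < ‖cc w₀‖ + 1 → ‖p.2‖ < ‖z₀‖ + 1 →
      ∀ s, S ≤ s → ‖gg B cc p.1 p.2 s - 1‖ < ε / 2 := by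
    intro p hp1 hp2 hp3 s hs
    obtain ⟨⟨ha, hb1⟩, hc1, hc2⟩ := hS s hs
    simp only [Function.comp] at hb1
    have hp0 : 0 < p.1.re := hp1
    have hexp : Real.exp (2 * s) ≤ Real.exp (2 * (p.1.re + s)) := Real.exp_le_exp.2 (by linarith)
    have h4 := hK p.1 hp1 p.2 s (by linarith) (by
      refine le_trans ?_ (hb1.trans hexp)
      exact mul_le_mul_of_nonneg_left hp2.le (by linarith))
    refine h4.trans_lt (lt_of_le_of_lt ?_ ha)
    have e1 : Real.exp (-(2 * (p.1.re + s))) ≤ Real.exp (-(2 * s)) :=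
      Real.exp_le_exp.2 (by linarith)
    have e2 : Real.exp (-(p.1.re + s)) ≤ Real.exp (-s) := Real.exp_le_exp.2 (by linarith)
    refine add_le_add ?_ ?_
    · exact mul_le_mul (mul_le_mul_of_nonneg_left hp2.le (by linarith)) e1 (Real.exp_pos _).le
        (by positivity)
    · exact mul_le_mul hp3.le e2 (Real.exp_pos _).le (by positivity)
  -- the compact part
  have hK2 : IsCompact (Icc (0 : ℝ) (max S 0)) := isCompact_Icc
  have hnear : ∀ᶠ p : ℂ × ℂ in 𝓝 (w₀, z₀), ∀ s ∈ Icc (0 : ℝ) (max S 0),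
      ‖gg B cc p.1 p.2 s - gg B cc w₀ z₀ s‖ < ε := by
    refine hK2.eventually_forall_of_forall_eventually ?_
    intro s hs
    have h1 := gg_contAt hb hw z₀ hs.1
    have h5 : ContinuousAt (fun q : (ℂ × ℂ) × ℝ => (((w₀, z₀), q.2) : (ℂ × ℂ) × ℝ))
        ((w₀, z₀), s) := by fun_prop
    have h6 : ContinuousAt (fun q : (ℂ × ℂ) × ℝ => gg B cc w₀ z₀ q.2) ((w₀, z₀), s) :=
      ContinuousAt.comp (x := ((w₀, z₀), s))
        (f := fun q : (ℂ × ℂ) × ℝ => (((w₀, z₀), q.2) : (ℂ × ℂ) × ℝ))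
        (g := fun p : (ℂ × ℂ) × ℝ => gg B cc p.1.1 p.1.2 p.2) h1 h5
    have h7 := (h1.sub h6).norm
    exact h7.eventually (gt_mem_nhds (by simpa using hε))
  filter_upwards [hccn, hzn, hHP, hnear] with p hp1 hp2 hp3 hp4 s hs
  rcases le_total s (max S 0) with h | h
  · exact hp4 s ⟨hs, h⟩
  · have hs' : S ≤ s := (le_max_left _ _).trans h
    have ha := hfar p hp3 hp1 hp2 s hs'
    have hb2 : ‖gg B cc w₀ z₀ s - 1‖ < ε / 2 :=
      hfar (w₀, z₀) hw (lt_add_one ‖cc w₀‖) (lt_add_one ‖z₀‖) s hs'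
    have h8 : gg B cc p.1 p.2 s - gg B cc w₀ z₀ s =
        (gg B cc p.1 p.2 s - 1) - (gg B cc w₀ z₀ s - 1) := by ring
    rw [h8]
    exact (norm_sub_le _ _).trans_lt (by linarith)

theorem gg_lower (hb : Base G B cc) {w₀ : ℂ} (hw : w₀ ∈ HP) {z₀ : ℂ} (hz : z₀ ∉ Gam B cc w₀) :
    ∃ m : ℝ, 0 < m ∧ ∀ s, 0 ≤ s → m ≤ ‖gg B cc w₀ z₀ s‖ := by
  rw [notMem_Gam_iff] at hz
  have h1 := gg_tendsto hb hw z₀
  rw [tendsto_iff_norm_sub_tendsto_zero] at h1
  obtain ⟨S, hS⟩ := eventually_atTop.1 (h1.eventually (gt_mem_nhds (show (0 : ℝ) < 1 / 2 by norm_num)))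
  have hc : ContinuousOn (fun s => ‖gg B cc w₀ z₀ s‖) (Icc 0 (max S 0)) :=
    ((gg_cont hb hw z₀).mono (fun u hu => hu.1)).norm
  obtain ⟨s₁, hs₁, hmin⟩ := isCompact_Icc.exists_isMinOn
    (nonempty_Icc.2 (le_max_right S 0)) hc
  have hpos : 0 < ‖gg B cc w₀ z₀ s₁‖ := norm_pos_iff.2 (hz s₁ hs₁.1)
  refine ⟨min ‖gg B cc w₀ z₀ s₁‖ (1 / 2), lt_min hpos (by norm_num), fun s hs => ?_⟩
  rcases le_total s (max S 0) with h | h
  · exact (min_le_left _ _).trans (hmin ⟨hs, h⟩)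
  · refine (min_le_right _ _).trans ?_
    have h2 := hS s ((le_max_left _ _).trans h)
    have h3 : ‖(1 : ℂ)‖ ≤ ‖gg B cc w₀ z₀ s‖ + ‖gg B cc w₀ z₀ s - 1‖ := by
      have : (1 : ℂ) = gg B cc w₀ z₀ s - (gg B cc w₀ z₀ s - 1) := by ring
      calc ‖(1 : ℂ)‖ = ‖gg B cc w₀ z₀ s - (gg B cc w₀ z₀ s - 1)‖ := by rw [← this]
        _ ≤ _ := norm_sub_le _ _
    rw [norm_one] at h3
    linarith

theorem exists_isLog_gg (hb : Base G B cc) {w : ℂ} (hw : w ∈ HP) {z : ℂ} (hz : z ∉ Gam B cc w) :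
    ∃ L, IsLog (gg B cc w z) L :=
  exists_isLog (gg_cont hb hw z) ((notMem_Gam_iff w z).1 hz) (gg_tendsto hb hw z)

/-! ## The properties of `lam` -/

theorem lam_exp (hb : Base G B cc) {w : ℂ} (hw : w ∈ HP) {z : ℂ} (hz : z ∉ Gam B cc w) :
    exp (lam B cc w z) = z - cc w := by
  obtain ⟨L, hL⟩ := exists_isLog_gg hb hw hz
  rw [lam_eq hL, exp_add, exp_add, exp_pi_mul_I, hL.eq 0 le_rfl]
  unfold gg
  rw [ofReal_zero, add_zero, hb.pB w hw, exp_neg]
  field_simp [exp_ne_zero w]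
  ring

theorem opn (hb : Base G B cc) : IsOpen {p : ℂ × ℂ | p.1 ∈ HP ∧ p.2 ∉ Gam B cc p.1} := by
  rw [isOpen_iff_mem_nhds]
  rintro ⟨w₀, z₀⟩ ⟨hw, hz⟩
  simp only at hw hz
  obtain ⟨m, hm, hm2⟩ := gg_lower hb hw hz
  have hHP : ∀ᶠ p : ℂ × ℂ in 𝓝 (w₀, z₀), p.1 ∈ HP :=
    continuousAt_fst.eventually (isOpen_HP.mem_nhds hw)
  filter_upwards [gg_unif hb hw z₀ hm, hHP] with p hp hp2
  refine ⟨hp2, ?_⟩
  rw [notMem_Gam_iff]
  intro s hs h0
  have h1 := hp s hs
  rw [h0, zero_sub, norm_neg] at h1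
  linarith [hm2 s hs]

theorem lam_cont (hb : Base G B cc) : ContinuousOn (fun p : ℂ × ℂ => lam B cc p.1 p.2)
    {p : ℂ × ℂ | p.1 ∈ HP ∧ p.2 ∉ Gam B cc p.1} := by
  rintro ⟨w₀, z₀⟩ ⟨hw, hz⟩
  simp only at hw hz
  refine ContinuousAt.continuousWithinAt ?_
  obtain ⟨m, hm, hm2⟩ := gg_lower hb hw hz
  obtain ⟨L, hL⟩ := exists_isLog_gg hb hw hz
  have hz' := (notMem_Gam_iff w₀ z₀).1 hz
  have hHP : ∀ᶠ p : ℂ × ℂ in 𝓝 (w₀, z₀), p.1 ∈ HP :=
    continuousAt_fst.eventually (isOpen_HP.mem_nhds hw)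
  have key : ∀ᶠ p : ℂ × ℂ in 𝓝 (w₀, z₀), lam B cc p.1 p.2 =
      p.1 + Real.pi * I + (L 0 + log (gg B cc p.1 p.2 0 / gg B cc w₀ z₀ 0)) := by
    filter_upwards [gg_unif hb hw z₀ hm, hHP] with p hp hp2
    have hq : ∀ s, 0 ≤ s → gg B cc p.1 p.2 s / gg B cc w₀ z₀ s ∈ slitPlane := by
      intro s hs
      apply mem_slitPlane_of_norm_sub_one_lt
      have h1 : gg B cc p.1 p.2 s / gg B cc w₀ z₀ s - 1 =
          (gg B cc p.1 p.2 s - gg B cc w₀ z₀ s) / gg B cc w₀ z₀ s := by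
        rw [sub_div, div_self (hz' s hs)]
      rw [h1, norm_div, div_lt_one (norm_pos_iff.2 (hz' s hs))]
      exact (hp s hs).trans_le (hm2 s hs)
    have hql : Tendsto (fun s => gg B cc p.1 p.2 s / gg B cc w₀ z₀ s) atTop (𝓝 1) := by
      have := (gg_tendsto hb hp2 p.2).div (gg_tendsto hb hw z₀) one_ne_zero
      rw [div_one] at this
      exact this
    have hlog := isLog_log ((gg_cont hb hp2 p.2).div (gg_cont hb hw z₀)
      (fun s hs => hz' s hs)) hq hql
    have hL2 : IsLog (gg B cc p.1 p.2)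
        (fun s => L s + log (gg B cc p.1 p.2 s / gg B cc w₀ z₀ s)) := by
      refine ⟨hL.cont.add hlog.cont, ?_, ?_⟩
      · intro s hs
        have h1 : exp (log (gg B cc p.1 p.2 s / gg B cc w₀ z₀ s)) =
            gg B cc p.1 p.2 s / gg B cc w₀ z₀ s := hlog.eq s hs
        rw [exp_add, hL.eq s hs, h1, mul_div_cancel₀ _ (hz' s hs)]
      · simpa using hL.lim.add hlog.lim
    exact lam_eq hL2
  have hcont : ContinuousAt (fun p : ℂ × ℂ => p.1 + Real.pi * I + (L 0 +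
      log (gg B cc p.1 p.2 0 / gg B cc w₀ z₀ 0))) (w₀, z₀) := by
    have h1 := gg_contAt hb hw z₀ (le_refl (0 : ℝ))
    have h2 : ContinuousAt (fun p : ℂ × ℂ => (p, (0 : ℝ))) (w₀, z₀) := by fun_prop
    have h3 : ContinuousAt (fun p : ℂ × ℂ => gg B cc p.1 p.2 0) (w₀, z₀) :=
      ContinuousAt.comp (x := (w₀, z₀)) (f := fun p : ℂ × ℂ => (p, (0 : ℝ)))
        (g := fun p : (ℂ × ℂ) × ℝ => gg B cc p.1.1 p.1.2 p.2) h1 h2
    have h4 : ContinuousAt (fun p : ℂ × ℂ => gg B cc p.1 p.2 0 / gg B cc w₀ z₀ 0) (w₀, z₀) :=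
      h3.div_const _
    have h5 := h4.clog (by
      simp only
      rw [div_self (hz' 0 le_rfl)]; simp)
    exact (continuousAt_fst.add continuousAt_const).add (continuousAt_const.add h5)
  exact hcont.congr (key.mono fun _ h => h.symm)

theorem gg_per (hb : Base G B cc) {w : ℂ} (hw : w ∈ HP) (z : ℂ) {s : ℝ} (hs : 0 ≤ s) :
    gg B cc (w + tpi) z s = gg B cc w z s := by
  unfold gg
  have h1 : w + tpi + (s : ℂ) = (w + s) + tpi := by ring
  have h2 : exp (-(w + s + tpi)) = exp (-(w + s)) := by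
    rw [neg_add, exp_add, exp_neg tpi]
    have : exp tpi = 1 := by
      unfold tpi
      exact exp_two_pi_mul_I
    rw [this]; simp
  rw [hb.pper w hw, h1, hb.bper _ _ (dom hb hw hs), h2]

theorem tpi_re : tpi.re = 0 := by simp [tpi]

theorem tpi_im : tpi.im = 2 * Real.pi := by simp [tpi]

theorem add_tpi_mem {w : ℂ} (hw : w ∈ HP) : w + tpi ∈ HP := by
  have : 0 < w.re := hw
  simp only [HP, mem_ofPred_eq, add_re, tpi_re]
  linarith

theorem lam_per (hb : Base G B cc) {w : ℂ} (hw : w ∈ HP) {z : ℂ} (hz : z ∉ Gam B cc w) :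
    lam B cc (w + tpi) z = lam B cc w z + tpi := by
  obtain ⟨L, hL⟩ := exists_isLog_gg hb hw hz
  have hL2 : IsLog (gg B cc (w + tpi) z) L :=
    ⟨hL.cont, fun s hs => by rw [hL.eq s hs, gg_per hb hw z hs], hL.lim⟩
  rw [lam_eq hL, lam_eq hL2]; ring

theorem norm_cc_le (hb : Base G B cc) {w : ℂ} (hw : w ∈ HP) : ‖cc w‖ ≤ 4 * Real.exp w.re := by
  have h := hb.gcc (cc w)
  rw [hb.pG w hw] at h
  rcases eq_or_ne (cc w) 0 with h0 | h0
  · rw [h0, norm_zero]; positivity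
  · have h1 : 0 < ‖cc w‖ := norm_pos_iff.2 h0
    rw [← Real.exp_log h1]
    refine (Real.exp_le_exp.2 h).trans ?_
    rw [Real.exp_add, Real.exp_log (by norm_num)]
    linarith

theorem sml (hb : Base G B cc) : ∀ δ : ℝ, 0 < δ → ∃ R : ℝ, 1 ≤ R ∧ ∀ w : ℂ, R ≤ w.re →
    ∀ z : ℂ, ‖z‖ ≤ Real.exp (3 / 4 * w.re) →
      z ∉ Gam B cc w ∧ ‖lam B cc w z - (w + Real.pi * I)‖ ≤ δ := by
  intro δ hδ
  obtain ⟨K, hK1, hK⟩ := gg_bound hb
  set η := min (1 / 2) (δ / 2) with hη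
  have hη0 : 0 < η := lt_min (by norm_num) (half_pos hδ)
  have h4 : Tendsto (fun R : ℝ => 1 / 4 * R) atTop atTop := tendsto_id.const_mul_atTop (by norm_num)
  have h3 : Tendsto (fun R : ℝ => (4 * K + 1) * Real.exp (-(1 / 4 * R))) atTop (𝓝 0) := by
    have := (Real.tendsto_exp_neg_atTop_nhds_zero.comp h4).const_mul (4 * K + 1)
    simpa using this
  obtain ⟨R, ⟨hR1, hR2⟩, hR3⟩ := (((h3.eventually (gt_mem_nhds hη0)).and
    (Real.tendsto_exp_atTop.eventually_ge_atTop (4 * K))).and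
    (eventually_ge_atTop (1 : ℝ))).exists
  refine ⟨R, hR3, fun w hw z hz => ?_⟩
  have hwHP : w ∈ HP := show 0 < w.re by linarith
  have hcc := norm_cc_le hb hwHP
  have hgg : ∀ s, 0 ≤ s → ‖gg B cc w z s - 1‖ ≤ η := by
    intro s hs
    have h1 : K * ‖cc w‖ ≤ Real.exp (2 * (w.re + s)) := by
      calc K * ‖cc w‖ ≤ K * (4 * Real.exp w.re) := mul_le_mul_of_nonneg_left hcc (by linarith)
        _ = (4 * K) * Real.exp w.re := by ring
        _ ≤ Real.exp R * Real.exp w.re := mul_le_mul_of_nonneg_right hR2 (Real.exp_pos _).le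
        _ = Real.exp (R + w.re) := (Real.exp_add _ _).symm
        _ ≤ Real.exp (2 * (w.re + s)) := Real.exp_le_exp.2 (by linarith)
    refine (hK w hwHP z s (by linarith) h1).trans ?_
    have e1 : K * ‖cc w‖ * Real.exp (-(2 * (w.re + s))) ≤ 4 * K * Real.exp (-(1 / 4 * R)) := by
      calc K * ‖cc w‖ * Real.exp (-(2 * (w.re + s)))
          ≤ K * (4 * Real.exp w.re) * Real.exp (-(2 * (w.re + s))) :=
            mul_le_mul_of_nonneg_right (mul_le_mul_of_nonneg_left hcc (by linarith))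
              (Real.exp_pos _).le
        _ = 4 * K * Real.exp (w.re + -(2 * (w.re + s))) := by rw [Real.exp_add]; ring
        _ ≤ _ := mul_le_mul_of_nonneg_left (Real.exp_le_exp.2 (by linarith)) (by linarith)
    have e2 : ‖z‖ * Real.exp (-(w.re + s)) ≤ Real.exp (-(1 / 4 * R)) := by
      calc ‖z‖ * Real.exp (-(w.re + s)) ≤ Real.exp (3 / 4 * w.re) * Real.exp (-(w.re + s)) :=
            mul_le_mul_of_nonneg_right hz (Real.exp_pos _).le
        _ = Real.exp (3 / 4 * w.re + -(w.re + s)) := (Real.exp_add _ _).symm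
        _ ≤ _ := Real.exp_le_exp.2 (by linarith)
    calc _ ≤ 4 * K * Real.exp (-(1 / 4 * R)) + Real.exp (-(1 / 4 * R)) := add_le_add e1 e2
      _ = (4 * K + 1) * Real.exp (-(1 / 4 * R)) := by ring
      _ ≤ η := hR1.le
  have hη1 : η ≤ 1 / 2 := min_le_left _ _
  have hslit : ∀ s, 0 ≤ s → gg B cc w z s ∈ slitPlane := fun s hs =>
    mem_slitPlane_of_norm_sub_one_lt ((hgg s hs).trans_lt (by linarith))
  refine ⟨?_, ?_⟩
  · rw [notMem_Gam_iff]
    exact fun s hs => slitPlane_ne_zero (hslit s hs)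
  · rw [lam_eq (isLog_log (gg_cont hb hwHP z) hslit (gg_tendsto hb hwHP z)), add_sub_cancel_left]
    have h1 := norm_log_one_add_half_le_self (z := gg B cc w z 0 - 1) ((hgg 0 le_rfl).trans hη1)
    rw [add_sub_cancel] at h1
    refine h1.trans ?_
    have h2 := hgg 0 le_rfl
    have h5 : η ≤ δ / 2 := min_le_right _ _
    linarith

/-! ### The asymptotics -/

theorem norm_one_sub_ge (r α : ℝ) :
    (1 + r) * Real.sin (α / 2) ≤ ‖1 - (r : ℂ) * exp (α * I)‖ := by
  have h1 : ‖1 - (r : ℂ) * exp (α * I)‖ ^ 2 = (1 - r) ^ 2 + 4 * r * Real.sin (α / 2) ^ 2 := by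
    rw [← normSq_eq_norm_sq, normSq_apply]
    have hre : (1 - (r : ℂ) * exp (α * I)).re = 1 - r * Real.cos α := by
      simp [exp_ofReal_mul_I_re]
    have him : (1 - (r : ℂ) * exp (α * I)).im = - (r * Real.sin α) := by
      simp [exp_ofReal_mul_I_im]
    rw [hre, him]
    have hc : Real.cos α = 1 - 2 * Real.sin (α / 2) ^ 2 := by
      have h2 := Real.cos_two_mul (α / 2)
      have h3 := Real.sin_sq_add_cos_sq (α / 2)
      rw [mul_div_cancel₀ α (two_ne_zero)] at h2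
      rw [h2]; linarith
    have hs := Real.sin_sq_add_cos_sq α
    have hs2 : Real.sin α ^ 2 = 1 - Real.cos α ^ 2 := by linarith
    have : (1 - r * Real.cos α) * (1 - r * Real.cos α) + -(r * Real.sin α) * -(r * Real.sin α) =
        1 - 2 * r * Real.cos α + r ^ 2 * (Real.sin α ^ 2 + Real.cos α ^ 2) := by ring
    rw [this, hs, hc]; ring
  have hsle : Real.sin (α / 2) ^ 2 ≤ 1 := Real.sin_sq_le_one _
  refine le_of_sq_le_sq ?_ (norm_nonneg _)
  rw [h1]
  nlinarith [sq_nonneg (1 - r)]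

theorem one_sub_mem_slitPlane {r α : ℝ} (hr : 0 ≤ r) (h0 : 0 < α) (h1 : α < 2 * Real.pi) :
    1 - (r : ℂ) * exp (α * I) ∈ slitPlane := by
  have hre : (1 - (r : ℂ) * exp (α * I)).re = 1 - r * Real.cos α := by
    simp [exp_ofReal_mul_I_re]
  have him : (1 - (r : ℂ) * exp (α * I)).im = - (r * Real.sin α) := by
    simp [exp_ofReal_mul_I_im]
  rw [mem_slitPlane_iff, hre, him]
  rcases eq_or_lt_of_le hr with h | h
  · left; rw [← h]; simp
  · by_cases hs : Real.sin α = 0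
    · left
      have h2 : α = Real.pi := by
        rcases lt_trichotomy α Real.pi with h3 | h3 | h3
        · exact absurd hs (Real.sin_pos_of_pos_of_lt_pi h0 h3).ne'
        · exact h3
        · exfalso
          have h4 : 0 < Real.sin (α - Real.pi) :=
            Real.sin_pos_of_pos_of_lt_pi (by linarith) (by linarith)
          rw [Real.sin_sub_pi, hs] at h4
          simp at h4
      rw [h2, Real.cos_pi]
      linarith
    · right
      rw [neg_ne_zero]
      exact mul_ne_zero h.ne' hs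

theorem eps_bound (hb : Base G B cc) {w : ℂ} (hw : w ∈ HP) : ∃ M : ℝ, 0 ≤ M ∧ ∀ s, 0 ≤ s →
    ‖gg B cc w 0 s - 1‖ ≤ M * Real.exp (-(w.re + s)) := by
  obtain ⟨K, hK1, hK⟩ := gg_bound hb
  have hw0 : 0 < w.re := hw
  have h1 : Tendsto (fun s : ℝ => w.re + s) atTop atTop := tendsto_atTop_add_const_left _ _ tendsto_id
  have h2 : Tendsto (fun s : ℝ => 2 * (w.re + s)) atTop atTop := h1.const_mul_atTop (by norm_num)
  obtain ⟨S, hS⟩ := eventually_atTop.1 ((h1.eventually_ge_atTop 1).and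
    ((Real.tendsto_exp_atTop.comp h2).eventually_ge_atTop (K * ‖cc w‖)))
  have hcont : ContinuousOn (fun s => ‖gg B cc w 0 s - 1‖) (Icc 0 (max S 0)) :=
    (((gg_cont hb hw 0).mono (fun u hu => hu.1)).sub continuousOn_const).norm
  obtain ⟨D, hD⟩ := isCompact_Icc.bddAbove_image hcont
  have hD' : ∀ s ∈ Icc (0 : ℝ) (max S 0), ‖gg B cc w 0 s - 1‖ ≤ D := fun s hs =>
    hD (mem_image_of_mem _ hs)
  have hD0 : 0 ≤ D := (norm_nonneg _).trans (hD' 0 ⟨le_rfl, le_max_right _ _⟩)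
  refine ⟨K * ‖cc w‖ + D * Real.exp (w.re + max S 0), by positivity, fun s hs => ?_⟩
  rcases le_total s (max S 0) with h | h
  · have h3 := hD' s ⟨hs, h⟩
    have h4 : 1 ≤ Real.exp (w.re + max S 0) * Real.exp (-(w.re + s)) := by
      rw [← Real.exp_add]
      exact Real.one_le_exp (by linarith)
    calc ‖gg B cc w 0 s - 1‖ ≤ D * 1 := by linarith
      _ ≤ D * (Real.exp (w.re + max S 0) * Real.exp (-(w.re + s))) :=
        mul_le_mul_of_nonneg_left h4 hD0
      _ ≤ (K * ‖cc w‖ + D * Real.exp (w.re + max S 0)) * Real.exp (-(w.re + s)) := by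
        have : 0 ≤ K * ‖cc w‖ * Real.exp (-(w.re + s)) := by positivity
        nlinarith
  · obtain ⟨ha, hb1⟩ := hS s ((le_max_left _ _).trans h)
    have h3 := hK w hw 0 s ha hb1
    rw [norm_zero, zero_mul, add_zero] at h3
    have h4 : Real.exp (-(2 * (w.re + s))) ≤ Real.exp (-(w.re + s)) :=
      Real.exp_le_exp.2 (by linarith)
    calc _ ≤ K * ‖cc w‖ * Real.exp (-(2 * (w.re + s))) := h3
      _ ≤ K * ‖cc w‖ * Real.exp (-(w.re + s)) := mul_le_mul_of_nonneg_left h4 (by positivity)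
      _ ≤ _ := by
        have : 0 ≤ D * Real.exp (w.re + max S 0) * Real.exp (-(w.re + s)) := by positivity
        nlinarith

/-- `B c (s + x i)` is asymptotic to `exp (s + x i)` -/
theorem B_asym (hb : Base G B cc) (c : ℂ) (x : ℝ) :
    Tendsto (fun s : ℝ => B c (s + x * I) * exp (-(s + x * I)) - 1) atTop (𝓝 0) := by
  obtain ⟨K, hK1, hK⟩ := hb.basym
  have h2 : Tendsto (fun s : ℝ => 2 * s) atTop atTop := tendsto_id.const_mul_atTop (by norm_num)
  have h3 : Tendsto (fun s : ℝ => K * ‖c‖ * Real.exp (-(2 * s))) atTop (𝓝 0) := by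
    simpa using (Real.tendsto_exp_neg_atTop_nhds_zero.comp h2).const_mul (K * ‖c‖)
  rw [tendsto_zero_iff_norm_tendsto_zero]
  refine squeeze_zero' (Eventually.of_forall fun _ => norm_nonneg _) ?_ h3
  filter_upwards [eventually_ge_atTop (1 : ℝ),
    (Real.tendsto_exp_atTop.comp h2).eventually_ge_atTop (K * ‖c‖)] with s hs1 hs2
  have hre : ((s : ℂ) + x * I).re = s := by simp
  have := (hK c (s + x * I) (by rw [hre]; exact hs1) (by rw [hre]; exact hs2)).2
  rwa [hre] at this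

theorem gg_split (w z : ℂ) (s : ℝ) : gg B cc w z s = gg B cc w 0 s - z * exp (-(w + s)) := by
  unfold gg; ring

theorem asy (hb : Base G B cc) {w : ℂ} (hw : w ∈ HP) {x : ℝ} (hx : w.im < x)
    (hx2 : x < w.im + 2 * Real.pi) :
    Tendsto (fun s : ℝ => lam B cc w (B (cc w) (s + x * I)) - (s + x * I)) atTop (𝓝 0) := by
  obtain ⟨M, hM0, hM⟩ := eps_bound hb hw
  have hw0 : 0 < w.re := hw
  set α := x - w.im with hα
  have hα0 : 0 < α := by linarith
  have hα1 : α < 2 * Real.pi := by linarith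
  set S0 := Real.sin (α / 2) with hS0
  have hS0p : 0 < S0 := Real.sin_pos_of_pos_of_lt_pi (by linarith) (by linarith)
  have hε := B_asym hb (cc w) x
  set ε : ℝ → ℂ := fun s => B (cc w) (s + x * I) * exp (-(s + x * I)) - 1 with hεdef
  -- the modulus of the quotient
  set r : ℝ → ℝ → ℝ := fun s t => Real.exp (s - w.re - t) with hr
  have hρ : ∀ s t : ℝ, exp ((s + x * I) - (w + t)) = (r s t : ℂ) * exp (α * I) := by
    intro s t
    rw [hr]
    simp only
    rw [ofReal_exp, ← exp_add]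
    congr 1
    apply Complex.ext
    · simp [sub_add_eq_sub_sub]
    · simp [hα]
  have hgg : ∀ s t : ℝ, gg B cc w (B (cc w) (s + x * I)) t =
      1 + (gg B cc w 0 t - 1) - (1 + ε s) * ((r s t : ℂ) * exp (α * I)) := by
    intro s t
    rw [gg_split, ← hρ s t]
    have h1 : exp ((s + x * I) - (w + t)) = exp (s + x * I) * exp (-(w + t)) := by
      rw [← exp_add]; ring_nf
    have h2 : (1 + ε s) * exp (s + x * I) = B (cc w) (s + x * I) := by
      simp only [hεdef]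
      rw [add_sub_cancel, mul_assoc, ← exp_add]
      simp
    rw [h1, ← mul_assoc, h2]
    ring
  have hne : ∀ s t : ℝ, 1 - (r s t : ℂ) * exp (α * I) ∈ slitPlane := fun s t =>
    one_sub_mem_slitPlane (Real.exp_pos _).le hα0 hα1
  have hne0 : ∀ s t : ℝ, 1 - (r s t : ℂ) * exp (α * I) ≠ 0 := fun s t =>
    slitPlane_ne_zero (hne s t)
  set η : ℝ → ℝ := fun s => (M * Real.exp (-s) + ‖ε s‖) / S0 with hη
  have hηlim : Tendsto η atTop (𝓝 0) := by
    have h1 := (Real.tendsto_exp_neg_atTop_nhds_zero.const_mul M).add hε.norm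
    have h2 := h1.div_const S0
    simpa using h2
  have hquot : ∀ s t : ℝ, 0 ≤ t → ‖gg B cc w (B (cc w) (s + x * I)) t /
      (1 - (r s t : ℂ) * exp (α * I)) - 1‖ ≤ η s := by
    intro s t ht
    have hrpos : 0 < r s t := Real.exp_pos _
    have h1 : gg B cc w (B (cc w) (s + x * I)) t / (1 - (r s t : ℂ) * exp (α * I)) - 1 =
        ((gg B cc w 0 t - 1) - ε s * ((r s t : ℂ) * exp (α * I))) /
          (1 - (r s t : ℂ) * exp (α * I)) := by
      rw [hgg s t, eq_div_iff (hne0 s t), sub_mul, div_mul_cancel₀ _ (hne0 s t)]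
      ring
    have h2 : ‖(gg B cc w 0 t - 1) - ε s * ((r s t : ℂ) * exp (α * I))‖ ≤
        (M * Real.exp (-s) + ‖ε s‖) * r s t := by
      refine (norm_sub_le _ _).trans ?_
      rw [norm_mul, norm_mul, norm_exp_ofReal_mul_I, mul_one, norm_real, Real.norm_eq_abs,
        abs_of_pos hrpos]
      have h3 : Real.exp (-(w.re + t)) = Real.exp (-s) * r s t := by
        rw [hr]; simp only
        rw [← Real.exp_add]; congr 1; ring
      have h4 := hM t ht
      rw [h3] at h4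
      linarith
    have h5 := norm_one_sub_ge (r s t) α
    rw [h1, norm_div, div_le_iff₀ (norm_pos_iff.2 (hne0 s t))]
    have h6 : η s * S0 = M * Real.exp (-s) + ‖ε s‖ := by
      rw [hη]; simp only
      rw [div_mul_cancel₀ _ hS0p.ne']
    have h7 : 0 ≤ η s := by
      rw [hη]; simp only; positivity
    calc _ ≤ (M * Real.exp (-s) + ‖ε s‖) * r s t := h2
      _ = η s * (r s t * S0) := by rw [← h6]; ring
      _ ≤ η s * ((1 + r s t) * S0) := by
        refine mul_le_mul_of_nonneg_left ?_ h7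
        nlinarith
      _ ≤ _ := mul_le_mul_of_nonneg_left h5 h7
  have hrcont : ∀ s : ℝ, Continuous (fun t : ℝ => 1 - (r s t : ℂ) * exp (α * I)) := by
    intro s
    have : Continuous (r s) := by
      rw [hr]; simp only
      fun_prop
    fun_prop
  have hrlim : ∀ s : ℝ, Tendsto (fun t : ℝ => 1 - (r s t : ℂ) * exp (α * I)) atTop (𝓝 1) := by
    intro s
    have h1 : Tendsto (r s) atTop (𝓝 0) := by
      rw [hr]; simp only
      refine Real.tendsto_exp_atBot.comp ?_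
      exact tendsto_atBot_add_const_left _ _ tendsto_neg_atTop_atBot
    have h2 : Tendsto (fun t : ℝ => (r s t : ℂ)) atTop (𝓝 ((0 : ℝ) : ℂ)) :=
      (continuous_ofReal.tendsto 0).comp h1
    have h3 := (h2.mul_const (exp (α * I))).const_sub 1
    simpa using h3
  -- the logarithm
  have hlam : ∀ s : ℝ, η s < 1 → lam B cc w (B (cc w) (s + x * I)) = w + Real.pi * I +
      (log (1 - (r s 0 : ℂ) * exp (α * I)) + log (gg B cc w (B (cc w) (s + x * I)) 0 /
        (1 - (r s 0 : ℂ) * exp (α * I)))) := by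
    intro s hs
    have hq : ∀ t, 0 ≤ t → gg B cc w (B (cc w) (s + x * I)) t /
        (1 - (r s t : ℂ) * exp (α * I)) ∈ slitPlane := fun t ht =>
      mem_slitPlane_of_norm_sub_one_lt ((hquot s t ht).trans_lt hs)
    have hlog1 := isLog_log (hrcont s).continuousOn (fun t _ => hne s t) (hrlim s)
    have hlog2 := isLog_log (((gg_cont hb hw _).div (hrcont s).continuousOn
      (fun t _ => hne0 s t))) hq (by
        have := (gg_tendsto hb hw (B (cc w) (s + x * I))).div (hrlim s) one_ne_zero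
        rw [div_one] at this
        exact this)
    have hL : IsLog (gg B cc w (B (cc w) (s + x * I))) (fun t =>
        log (1 - (r s t : ℂ) * exp (α * I)) + log (gg B cc w (B (cc w) (s + x * I)) t /
        (1 - (r s t : ℂ) * exp (α * I)))) := by
      refine ⟨hlog1.cont.add hlog2.cont, fun t ht => ?_, by simpa using hlog1.lim.add hlog2.lim⟩
      rw [exp_add, exp_log (hne0 s t), exp_log (slitPlane_ne_zero (hq t ht)),
        mul_div_cancel₀ _ (hne0 s t)]
    exact lam_eq hL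
  -- the first logarithm for large `s`
  have hinv : Tendsto (fun s : ℝ => ((r s 0 : ℂ) * exp (α * I))⁻¹) atTop (𝓝 0) := by
    rw [tendsto_zero_iff_norm_tendsto_zero]
    have h1 : Tendsto (fun s : ℝ => Real.exp (-(s - w.re))) atTop (𝓝 0) :=
      Real.tendsto_exp_neg_atTop_nhds_zero.comp (tendsto_atTop_add_const_right _ _ tendsto_id)
    refine h1.congr fun s => ?_
    rw [norm_inv, norm_mul, norm_exp_ofReal_mul_I, mul_one, norm_real, Real.norm_eq_abs,
      abs_of_pos (Real.exp_pos _), Real.exp_neg, sub_zero]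
  have hlog1 : Tendsto (fun s : ℝ => log (1 - ((r s 0 : ℂ) * exp (α * I))⁻¹)) atTop (𝓝 0) := by
    have h1 := (hinv.const_sub 1).clog (by simp)
    simpa using h1
  have hpi : 0 < min α (2 * Real.pi - α) := lt_min hα0 (by linarith)
  have hfirst : ∀ᶠ s : ℝ in atTop, log (1 - (r s 0 : ℂ) * exp (α * I)) =
      ((s - w.re : ℝ) : ℂ) + (α - Real.pi : ℝ) * I +
        log (1 - ((r s 0 : ℂ) * exp (α * I))⁻¹) := by
    have h2 := hlog1.norm
    rw [norm_zero] at h2
    filter_upwards [h2.eventually (gt_mem_nhds hpi)] with s hs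
    set ℓ := log (1 - ((r s 0 : ℂ) * exp (α * I))⁻¹) with hℓ
    have h3 : |ℓ.im| < min α (2 * Real.pi - α) := (abs_im_le_norm _).trans_lt hs
    have h4 : |ℓ.im| < α := h3.trans_le (min_le_left _ _)
    have h5 : |ℓ.im| < 2 * Real.pi - α := h3.trans_le (min_le_right _ _)
    have him : (((s - w.re : ℝ) : ℂ) + (α - Real.pi : ℝ) * I + ℓ).im = α - Real.pi + ℓ.im := by
      simp
    have hρ0 : (r s 0 : ℂ) * exp (α * I) ≠ 0 :=
      mul_ne_zero (ofReal_ne_zero.2 (Real.exp_pos _).ne') (exp_ne_zero _)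
    have hne2 : 1 - ((r s 0 : ℂ) * exp (α * I))⁻¹ ≠ 0 := by
      intro h
      have h6 : ((r s 0 : ℂ) * exp (α * I))⁻¹ = 1 := (sub_eq_zero.1 h).symm
      rw [inv_eq_one] at h6
      exact hne0 s 0 (by rw [h6, sub_self])
    rw [← log_exp (x := ((s - w.re : ℝ) : ℂ) + (α - Real.pi : ℝ) * I + ℓ)
      (by rw [him]; linarith [(abs_lt.1 h4).1]) (by rw [him]; linarith [(abs_lt.1 h5).2])]
    congr 1
    rw [exp_add, hℓ, exp_log hne2, mul_sub, mul_one]
    have h7 : exp (((s - w.re : ℝ) : ℂ) + (α - Real.pi : ℝ) * I) =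
        -((r s 0 : ℂ) * exp (α * I)) := by
      rw [← hρ s 0]
      have : ((s - w.re : ℝ) : ℂ) + (α - Real.pi : ℝ) * I =
          ((s + x * I) - (w + (0 : ℝ))) - Real.pi * I := by
        apply Complex.ext
        · simp
        · simp [hα]
      rw [this, exp_sub, exp_pi_mul_I, div_neg, div_one]
    rw [h7, neg_mul, mul_inv_cancel₀ hρ0]
    ring
  have hquot0 : Tendsto (fun s : ℝ => gg B cc w (B (cc w) (s + x * I)) 0 /
      (1 - (r s 0 : ℂ) * exp (α * I))) atTop (𝓝 1) := by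
    rw [tendsto_iff_norm_sub_tendsto_zero]
    exact squeeze_zero (fun _ => norm_nonneg _) (fun s => hquot s 0 le_rfl) hηlim
  have hlog2 : Tendsto (fun s : ℝ => log (gg B cc w (B (cc w) (s + x * I)) 0 /
      (1 - (r s 0 : ℂ) * exp (α * I)))) atTop (𝓝 0) := by
    have h1 := hquot0.clog (by simp)
    simpa using h1
  have hsum := hlog1.add hlog2
  rw [add_zero] at hsum
  refine hsum.congr' ?_
  filter_upwards [hfirst, hηlim.eventually (gt_mem_nhds zero_lt_one)] with s hs1 hs2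
  rw [hlam s hs2, hs1]
  have : w + Real.pi * I + (((s - w.re : ℝ) : ℂ) + (α - Real.pi : ℝ) * I) = s + x * I := by
    apply Complex.ext
    · simp
    · simp [hα]
  rw [← this]
  ring

/-! ### The rays -/

theorem B_notMem_Gam (hb : Base G B cc) {w : ℂ} (hw : w ∈ HP) {ξ : ℂ} (h1 : w.re < 2 * ξ.re)
    (h2 : w.im < ξ.im) (h3 : ξ.im < w.im + 2 * Real.pi) : B (cc w) ξ ∉ Gam B cc w := by
  rintro ⟨ξ', ha, hb1, hc⟩
  have hw0 : 0 < w.re := hw
  obtain ⟨k, hk⟩ := hb.binj (cc w) ξ ξ' (by rw [hb.pG w hw]; exact h1)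
    (by rw [hb.pG w hw]; linarith) hc
  have him : ξ'.im = ξ.im + k * (2 * Real.pi) := by
    rw [hk]; simp [tpi]
  have hpi := Real.pi_pos
  rw [ha] at him
  have hk1 : (k : ℝ) < 0 := by
    by_contra h
    push Not at h
    have : 0 ≤ (k : ℝ) * (2 * Real.pi) := by positivity
    linarith
  have hk2 : (-1 : ℝ) < k := by
    by_contra h
    push Not at h
    have : (k : ℝ) * (2 * Real.pi) ≤ -1 * (2 * Real.pi) :=
      mul_le_mul_of_nonneg_right h (by positivity)
    linarith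
  have hk3 : k < 0 := by exact_mod_cast hk1
  have hk4 : -1 < k := by exact_mod_cast hk2
  omega

theorem B_ne_zero (hb : Base G B cc) {w : ℂ} (hw : w ∈ HP) {ξ : ℂ} (h1 : w.re < 2 * ξ.re) :
    B (cc w) ξ ≠ 0 := by
  intro h
  have hw0 : 0 < w.re := hw
  have h2 := hb.bf (cc w) ξ (by rw [hb.pG w hw]; exact h1)
  rw [h] at h2
  have h3 : B (cc w) w = B (cc w) (2 * ξ) := by
    rw [hb.pB w hw, ← h2]; simp [f]
  have hre : (2 * ξ).re = 2 * ξ.re := by simp
  obtain ⟨k, hk⟩ := hb.binj (cc w) w (2 * ξ) (by rw [hb.pG w hw]; linarith)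
    (by rw [hb.pG w hw, hre]; linarith) h3
  have h4 : (2 * ξ).re = w.re := by rw [hk]; simp [tpi]
  rw [hre] at h4
  linarith

theorem ray (hb : Base G B cc) {w : ℂ} (hw : w ∈ HP) {ξ : ℂ} (h1 : w.re < 2 * ξ.re)
    (h2 : w.im < 2 * ξ.im) (h3 : 2 * ξ.im < w.im + 2 * Real.pi) :
    exp (lam B cc w (B (cc w) (2 * ξ)) / 2) = B (cc w) ξ := by
  have hw0 : 0 < w.re := hw
  set U : Set ℂ := {ξ : ℂ | w.re < 2 * ξ.re ∧ w.im < 2 * ξ.im ∧ 2 * ξ.im < w.im + 2 * Real.pi}
    with hU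
  have hUconv : Convex ℝ U := by
    have e1 : Convex ℝ {ξ : ℂ | w.re / 2 < ξ.re} := convex_halfSpace_re_gt _
    have e2 : Convex ℝ {ξ : ℂ | w.im / 2 < ξ.im} := convex_halfSpace_im_gt _
    have e3 : Convex ℝ {ξ : ℂ | ξ.im < (w.im + 2 * Real.pi) / 2} := convex_halfSpace_im_lt _
    have : U = {ξ : ℂ | w.re / 2 < ξ.re} ∩ ({ξ : ℂ | w.im / 2 < ξ.im} ∩
        {ξ : ℂ | ξ.im < (w.im + 2 * Real.pi) / 2}) := by
      ext ξ
      simp only [hU, mem_ofPred_eq, mem_inter_iff]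
      constructor
      · rintro ⟨a, b, c⟩
        exact ⟨by linarith, by linarith, by linarith⟩
      · rintro ⟨a, b, c⟩
        exact ⟨by linarith, by linarith, by linarith⟩
    rw [this]
    exact e1.inter (e2.inter e3)
  have hre : ∀ ξ : ℂ, (2 * ξ).re = 2 * ξ.re := fun ξ => by simp
  have him : ∀ ξ : ℂ, (2 * ξ).im = 2 * ξ.im := fun ξ => by simp
  have hdom1 : ∀ ξ ∈ U, G (cc w) (cc w) < 2 * ξ.re := by
    rintro ξ ⟨a, -, -⟩
    rw [hb.pG w hw]; exact a
  have hdom2 : ∀ ξ ∈ U, G (cc w) (cc w) < 2 * (2 * ξ).re := by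
    rintro ξ ⟨a, -, -⟩
    rw [hb.pG w hw, hre]; linarith
  have hGam : ∀ ξ ∈ U, B (cc w) (2 * ξ) ∉ Gam B cc w := by
    rintro ξ ⟨a, b, c⟩
    exact B_notMem_Gam hb hw (by rw [hre]; linarith) (by rw [him]; exact b) (by rw [him]; exact c)
  have hB1 : ContinuousOn (fun ξ => B (cc w) ξ) U := fun ξ hξ =>
    (hb.bdiff (cc w) ξ (hdom1 ξ hξ)).continuousAt.continuousWithinAt
  have hB2 : ContinuousOn (fun ξ => B (cc w) (2 * ξ)) U := by
    intro ξ hξ
    have := (hb.bdiff (cc w) (2 * ξ) (hdom2 ξ hξ)).continuousAt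
    exact (ContinuousAt.comp (f := fun ξ : ℂ => 2 * ξ) this (by fun_prop)).continuousWithinAt
  have hlam : ContinuousOn (fun ξ => lam B cc w (B (cc w) (2 * ξ))) U := by
    have := (lam_cont hb).comp (f := fun ξ => (w, B (cc w) (2 * ξ))) (s := U)
      (continuousOn_const.prodMk hB2) (fun ξ hξ => ⟨hw, hGam ξ hξ⟩)
    exact this
  have hg : ContinuousOn (fun ξ => exp (lam B cc w (B (cc w) (2 * ξ)) / 2)) U :=
    (hlam.div_const 2).cexp
  have hsq : ∀ ξ ∈ U, exp (lam B cc w (B (cc w) (2 * ξ)) / 2) ^ 2 = (B (cc w) ξ) ^ 2 := by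
    intro ξ hξ
    rw [← exp_nat_mul]
    have e1 : ((2 : ℕ) : ℂ) * (lam B cc w (B (cc w) (2 * ξ)) / 2) =
        lam B cc w (B (cc w) (2 * ξ)) := by push_cast; ring
    rw [e1, lam_exp hb hw (hGam ξ hξ), ← hb.bf (cc w) ξ (hdom1 ξ hξ)]
    simp [f]
  have hne : ∀ ξ ∈ U, B (cc w) ξ ≠ 0 := fun ξ hξ => B_ne_zero hb hw hξ.1
  -- a point with equality
  obtain ⟨ξ₀, hξ₀, heq⟩ : ∃ ξ₀ ∈ U, exp (lam B cc w (B (cc w) (2 * ξ₀)) / 2) = B (cc w) ξ₀ := by
    have hpi := Real.pi_pos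
    set x : ℝ := w.im + Real.pi with hx
    have ha := asy hb hw (x := x) (by linarith) (by linarith)
    have hbs := B_asym hb (cc w) (x / 2)
    -- `ξ s = (s + x i)/2`
    have h4 : Tendsto (fun s : ℝ => s / 2) atTop atTop := tendsto_id.atTop_div_const (by norm_num)
    have h5 := hbs.comp h4
    have hprod : Tendsto (fun s : ℝ => exp ((lam B cc w (B (cc w) (s + x * I)) -
        (s + x * I)) / 2)) atTop (𝓝 1) := by
      have := (ha.div_const 2).cexp
      simpa using this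
    have h6 : Tendsto (fun s : ℝ => B (cc w) ((s / 2 : ℝ) + (x / 2 : ℝ) * I) *
        exp (-((s / 2 : ℝ) + (x / 2 : ℝ) * I))) atTop (𝓝 1) := by
      have := h5.add_const 1
      rw [zero_add] at this
      refine this.congr fun s => ?_
      simp only [Function.comp]
      ring
    have hquot := (hprod.div h6 one_ne_zero)
    rw [div_one] at hquot
    have hev := (Metric.tendsto_nhds.1 hquot) 1 one_pos
    obtain ⟨s, hs1, hs2⟩ := (hev.and (eventually_gt_atTop w.re)).exists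
    set ξ₀ : ℂ := (s / 2 : ℝ) + (x / 2 : ℝ) * I with hξ₀
    have hr0 : ξ₀.re = s / 2 := by simp [hξ₀]
    have hi0 : ξ₀.im = x / 2 := by simp [hξ₀]
    have hmem : ξ₀ ∈ U := by
      refine ⟨?_, ?_, ?_⟩
      · rw [hr0]; linarith
      · rw [hi0]; linarith
      · rw [hi0]; linarith
    have h2ξ : 2 * ξ₀ = s + x * I := by
      rw [hξ₀]; push_cast; ring
    refine ⟨ξ₀, hmem, ?_⟩
    have hdis : exp (lam B cc w (B (cc w) (2 * ξ₀)) / 2) = B (cc w) ξ₀ ∨
        exp (lam B cc w (B (cc w) (2 * ξ₀)) / 2) = -B (cc w) ξ₀ := sq_eq_sq_iff_eq_or_eq_neg.1 (hsq ξ₀ hmem)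
    rcases hdis with h | h
    · exact h
    · exfalso
      have h7 : exp ((lam B cc w (B (cc w) (s + x * I)) - (s + x * I)) / 2) /
          (B (cc w) ξ₀ * exp (-ξ₀)) = -1 := by
        rw [← h2ξ, sub_div, exp_sub, h, exp_neg]
        have e1 := hne ξ₀ hmem
        have e2 : 2 * ξ₀ / 2 = ξ₀ := by ring
        rw [e2]
        have e3 := exp_ne_zero ξ₀
        field_simp
      simp only [Pi.div_apply] at hs1
      rw [h7] at hs1
      rw [dist_eq_norm] at hs1
      norm_num at hs1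
  exact sq_eq_on hUconv.isPreconnected hg hB1 hne hsq hξ₀ heq ξ ⟨h1, h2, h3⟩

end

theorem lam_exists : S_LAM := fun _ B cc hb => ⟨lam B cc,
  { eq := fun _ hw _ hz => lam_exp hb hw hz
    cont := lam_cont hb
    opn := opn hb
    per := fun _ hw _ hz => lam_per hb hw hz
    ray := fun _ hw _ h1 h2 h3 => ray hb hw h1 h2 h3
    asy := fun _ hw _ hx hx2 => asy hb hw hx hx2
    sml := sml hb }⟩

end Pool.Agent.KS6_23.ML.LAM
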