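import Pool.Agent.KS6_23.ML.BASE
import Pool.Agent.KS6_23.ML.LAM
import Pool.Agent.KS6_23.ML.CODE
import Pool.Graph.R_pool_sql_team_seeded_1acbe0a2.Y93.ML.Bdy
import Pool.Graph.R_pool_sql_team_seeded_1acbe0a2.Y334.FU.Link

set_option autoImplicit false

/-! # Project ML, module 19: periodic points which are not repelling, and the Mandelbrot set -/

open Complex Set Filter Metric Topology

namespace Pool.Agent.KS6_23.ML.FRO

open Pool.Agent.KS6_23.ML Pool.Agent.KS6_23.ML.Basic Pool.Agent.KS6_23.ML.XTools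

theorem mem_MM {n : ℕ} {c z : ℂ} (hn : 1 ≤ n) (hz : (f c)^[n] z = z) (hm : ‖mul n c z‖ ≤ 1) :
    c ∈ MM := by
  by_contra hc
  obtain ⟨G, B, cc, h⟩ := BASE.base
  obtain ⟨lam, hl⟩ := LAM.lam_exists G B cc h
  obtain ⟨Z, ell, hC⟩ := CODE.code G B cc lam h hl
  obtain ⟨w, hw, rfl⟩ := h.psurj c hc
  obtain ⟨e, he, rfl⟩ := hC.surj n hn w hw z hz
  have := hC.rep n hn e he w hw
  linarith

theorem fro : S_FRO := by
  intro n c z hn hz hm
  refine ⟨mem_MM hn hz hm, fun h1 h2 => ?_⟩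
  rw [Metric.mem_closure_iff]
  intro δ hδ
  obtain ⟨t, ht, htM⟩ := Pool.Agent.Y93.ML.near_outside (t₀ := c) (z₀ := z) hn hz h2 h1
    (fun c' z' N hN hfix hlt => Pool.Agent.Y334.FU.fatouU (d := 2) le_rfl (c := c') (z := z')
      (N := N) ⟨hN, hfix, hlt⟩) hδ
  refine ⟨t, htM, ?_⟩
  rw [dist_comm]
  exact ht

end Pool.Agent.KS6_23.ML.FRO
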