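import Pool.Agent.KS6_23.ML.Circ

/-!
# Project ML, module GEN: angles with a given itinerary, for a dense set of critical values
-/

set_option autoImplicit false

open Set Filter Metric Topology

namespace Pool.Agent.KS6_23.ML.GEN

open Circ

/-- the orbit of `η` under multiplication by `2 ^ n` is dense modulo one -/
def Good (n : ℕ) (η : ℝ) : Prop := ∀ A B : ℝ, A < B → ∃ (j : ℕ) (m : ℤ),
  A < 2 ^ (n * j) * η - m ∧ 2 ^ (n * j) * η - m < B

theorem good_dense {n : ℕ} (hn : 1 ≤ n) : Dense {η : ℝ | Good n η} := by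
  let O : ℚ × ℚ → Set ℝ := fun p => if p.1 < p.2 then
    ⋃ (j : ℕ) (m : ℤ), {η : ℝ | (p.1 : ℝ) < 2 ^ (n * j) * η - m ∧ 2 ^ (n * j) * η - m < (p.2 : ℝ)}
    else univ
  have hO : ∀ p, IsOpen (O p) := by
    intro p
    simp only [O]
    split_ifs
    · refine isOpen_iUnion fun j => isOpen_iUnion fun m => ?_
      have hc : Continuous fun η : ℝ => 2 ^ (n * j) * η - (m : ℝ) := by fun_prop
      exact (isOpen_lt continuous_const hc).inter (isOpen_lt hc continuous_const)
    · exact isOpen_univ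
  have hD : ∀ p, Dense (O p) := by
    intro p
    simp only [O]
    split_ifs with hp
    · rw [Metric.dense_iff]
      intro η₀ ε hε
      obtain ⟨j, hj⟩ := pow_unbounded_of_one_lt (1 / ε) (one_lt_two : (1 : ℝ) < 2)
      have hj2 : (1 : ℝ) / ε < 2 ^ (n * j) := hj.trans_le (pow_le_pow_right₀ one_le_two (by nlinarith))
      have hp2 : (p.1 : ℝ) < p.2 := by exact_mod_cast hp
      have hpos : (0 : ℝ) < 2 ^ (n * j) := by positivity
      set w : ℝ := ((p.1 : ℝ) + p.2) / 2 with hw
      set m : ℤ := ⌊2 ^ (n * j) * η₀ - w⌋ + 1 with hm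
      have h1 : 2 ^ (n * j) * η₀ - w < m := by
        rw [hm]
        push_cast
        exact Int.lt_floor_add_one _
      have h2 : (m : ℝ) ≤ 2 ^ (n * j) * η₀ - w + 1 := by
        rw [hm]
        push_cast
        linarith [Int.floor_le (2 ^ (n * j) * η₀ - w)]
      refine ⟨(m + w) / 2 ^ (n * j), ?_, ?_⟩
      · rw [Metric.mem_ball, Real.dist_eq]
        have h3 : (m + w) / 2 ^ (n * j) - η₀ = (m - (2 ^ (n * j) * η₀ - w)) / 2 ^ (n * j) := by
          field_simp
          ring
        rw [h3, abs_div, abs_of_pos hpos, abs_of_pos (by linarith), div_lt_iff₀ hpos]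
        rw [div_lt_iff₀ hε] at hj2
        linarith
      · simp only [mem_iUnion]
        refine ⟨j, m, ?_⟩
        have h4 : 2 ^ (n * j) * ((m + w) / 2 ^ (n * j)) - m = w := by
          field_simp
          ring
        simp only [mem_ofPred_eq]
        rw [h4, hw]
        constructor <;> linarith
    · exact dense_univ
  have h1 : Dense (⋂ p, O p) := dense_iInter_of_isOpen hO hD
  refine h1.mono ?_
  intro η hη A B hAB
  rw [mem_iInter] at hη
  obtain ⟨u, hu1, hu2⟩ := exists_rat_btwn hAB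
  obtain ⟨v, hv1, hv2⟩ := exists_rat_btwn hu2
  have huv : u < v := by exact_mod_cast hv1
  have h2 := hη (u, v)
  simp only [O] at h2
  rw [if_pos huv] at h2
  simp only [mem_iUnion] at h2
  obtain ⟨j, m, h3, h4⟩ := h2
  exact ⟨j, m, hu1.trans h3, h4.trans hv2⟩

/-- the lower end of the plateau -/
noncomputable def lo (e : Bool) (η : ℝ) : ℝ := η / 2 + bt e / 2 + 1 / 2

/-- in the interior of the plateau, modulo one -/
def Fl (e : Bool) (η x : ℝ) : Prop := ∃ m : ℤ, lo e η < x - m ∧ x - m < lo e η + 1 / 2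

theorem Fl.add_int {e : Bool} {η x : ℝ} (h : Fl e η x) (m : ℤ) : Fl e η (x + m) := by
  obtain ⟨k, h1, h2⟩ := h
  refine ⟨k + m, ?_, ?_⟩ <;> push_cast <;> linarith

theorem FL_plateau {e : Bool} {η x : ℝ} (h0 : lo e η ≤ x) (h1 : x ≤ lo e η + 1 / 2) :
    FL e η x = η + bt e + 1 := by
  unfold lo at h0 h1
  exact FL_flat (by linarith) (by linarith)

/-- outside of the open plateau the map is the doubling map, modulo one -/
theorem FL_not {e : Bool} {η x : ℝ} (h : ¬ Fl e η x) : ∃ m : ℤ, FL e η x = 2 * x + m := by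
  set u := x - η / 2 - bt e / 2 with hu
  have h1 := Int.floor_add_fract u
  have h0 := Int.fract_nonneg u
  have h2 : Int.fract u ≤ 1 / 2 := by
    by_contra h3
    push Not at h3
    refine h ⟨⌊u⌋, ?_, ?_⟩
    · unfold lo
      linarith
    · unfold lo
      linarith [Int.fract_lt_one u]
  refine ⟨-⌊u⌋, ?_⟩
  have h4 : FL e η x = FL e η (x - ⌊u⌋) + ⌊u⌋ := by
    rw [CircleDeg1Lift.map_sub_int]
    ring
  rw [h4, FL_side (by linarith) (by linarith)]
  push_cast
  ring

theorem per_sh {n : ℕ} {e : ℕ → Bool} (h : Per n e) (k : ℕ) : Per n (sh k e) := by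
  intro i
  simp only [sh]
  rw [add_right_comm, h]

theorem per_mul {n : ℕ} {e : ℕ → Bool} (h : Per n e) (k j : ℕ) : e (k + n * j) = e k := by
  have := congrFun (sh_mul h j) k
  simpa [sh] using this

/-- the orbit of a plateau enters the interior of a plateau -/
theorem rec1 {n : ℕ} {e : ℕ → Bool} {η : ℝ} (he : Per n e) (hη : Good n η) :
    ∃ s, 1 ≤ s ∧ ∀ x, lo (e 0) η ≤ x → x ≤ lo (e 0) η + 1 / 2 → Fl (e s) η (Ph e η s x) := by
  set v : ℝ := η + bt (e 0) + 1 with hv
  have hw : ∀ j x, lo (e 0) η ≤ x → x ≤ lo (e 0) η + 1 / 2 →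
      Ph e η (1 + j) x = Ph (sh 1 e) η j v := by
    intro j x h0 h1
    rw [Ph_add, CircleDeg1Lift.mul_apply]
    congr 1
    rw [← zero_add 1, Ph_succ_apply, Ph_zero]
    exact FL_plateau h0 h1
  by_contra hcon
  push Not at hcon
  have h1 : ∀ j, ¬ Fl (e (1 + j)) η (Ph (sh 1 e) η j v) := by
    intro j hj
    obtain ⟨x, h0, h1, h2⟩ := hcon (1 + j) (by omega)
    rw [hw j x h0 h1] at h2
    exact h2 hj
  have h2 : ∀ j, ∃ m : ℤ, Ph (sh 1 e) η j v = 2 ^ j * η + m := by
    intro j
    induction j with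
    | zero =>
      rcases h : e 0 with _ | _
      · exact ⟨1, by simp [Ph_zero, hv, h, bt]⟩
      · exact ⟨2, by simp [Ph_zero, hv, h, bt]; ring⟩
    | succ j ih =>
      obtain ⟨m, hm⟩ := ih
      have h3 := h1 j
      rw [add_comm 1 j] at h3
      obtain ⟨k, hk⟩ := FL_not h3
      refine ⟨2 * m + k, ?_⟩
      rw [Ph_succ_apply]
      simp only [sh] at hk ⊢
      rw [hk, hm]
      push_cast
      ring
  obtain ⟨j, m, h3, h4⟩ := hη (lo (e 1) η) (lo (e 1) η + 1 / 2) (by linarith)
  refine h1 (n * j) ?_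
  rw [per_mul he]
  obtain ⟨k, hk⟩ := h2 (n * j)
  rw [hk]
  exact Fl.add_int ⟨m, h3, h4⟩ k

/-- return from the plateau with index `k` to the plateau with index `k + s` -/
def R (e : ℕ → Bool) (η : ℝ) (k s : ℕ) : Prop := ∀ x, lo (e k) η ≤ x → x ≤ lo (e k) η + 1 / 2 →
  Fl (e (k + s)) η (Ph (sh k e) η s x)

theorem R.trans {e : ℕ → Bool} {η : ℝ} {k s t : ℕ} (h : R e η k s) (h' : R e η (k + s) t) :
    R e η k (s + t) := by
  intro x h0 h1
  obtain ⟨m, h2, h3⟩ := h x h0 h1
  have h4 := h' _ h2.le h3.le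
  have h5 : Ph (sh k e) η (s + t) x = Ph (sh (k + s) e) η t (Ph (sh k e) η s x - m) + m := by
    rw [Ph_add, CircleDeg1Lift.mul_apply, CircleDeg1Lift.map_sub_int, sub_add_cancel]
    congr 2
    funext i
    simp only [sh]
    congr 1
    ring
  rw [h5, ← add_assoc]
  exact h4.add_int m

theorem exists_return {n : ℕ} {e : ℕ → Bool} {η : ℝ} (hn : 1 ≤ n) (he : Per n e)
    (hη : Good n η) : ∃ k s, 1 ≤ s ∧ n ∣ s ∧ R e η k s := by
  have h1 : ∀ k, ∃ s, 1 ≤ s ∧ R e η k s := by
    intro k
    obtain ⟨s, hs, h⟩ := rec1 (per_sh he k) hη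
    refine ⟨s, hs, fun x h0 h1 => ?_⟩
    have h2 := h x (by simpa [sh] using h0) (by simpa [sh] using h1)
    simpa [sh, add_comm] using h2
  choose s hs hR using h1
  let K : ℕ → ℕ := fun i => Nat.rec 0 (fun _ k => k + s k) i
  have hK : ∀ i, K (i + 1) = K i + s (K i) := fun i => rfl
  have h2 : ∀ i d, ∃ t, K (i + (d + 1)) = K i + t ∧ 1 ≤ t ∧ R e η (K i) t := by
    intro i d
    induction d with
    | zero => exact ⟨s (K i), rfl, hs _, hR _⟩
    | succ d ih =>
      obtain ⟨t, h3, h4, h5⟩ := ih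
      refine ⟨t + s (K (i + (d + 1))), ?_, by omega, ?_⟩
      · rw [show i + (d + 1 + 1) = (i + (d + 1)) + 1 by ring, hK, h3]
        ring
      · refine h5.trans ?_
        rw [← h3]
        exact hR _
  -- pigeonhole
  obtain ⟨i, j, hij, h3⟩ := Finite.exists_ne_map_eq_of_infinite
    (fun i : ℕ => (⟨K i % n, Nat.mod_lt _ hn⟩ : Fin n))
  simp only [Fin.mk.injEq] at h3
  wlog hlt : i < j generalizing i j
  · exact this j i hij.symm h3.symm (by omega)
  obtain ⟨d, rfl⟩ : ∃ d, j = i + (d + 1) := ⟨j - i - 1, by omega⟩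
  obtain ⟨t, h4, h5, h6⟩ := h2 i d
  refine ⟨K i, t, h5, ?_, h6⟩
  rw [h4] at h3
  have h7 : K i ≡ K i + t [MOD n] := h3
  have h8 := (Nat.modEq_iff_dvd' (Nat.le_add_right (K i) t)).1 h7
  simpa using h8

/-- the periodic point on the right of the plateau -/
theorem core {e : ℕ → Bool} {η : ℝ} {s : ℕ} (hs : 1 ≤ s)
    (hR : ∀ x, lo (e 0) η ≤ x → x ≤ lo (e 0) η + 1 / 2 → Fl (e 0) η (Ph e η s x)) :
    ∃ (x : ℝ) (p : ℤ), Ph e η s x = x + p ∧ ∀ y < x, Ph e η s y < x + p := by
  set A := lo (e 0) η with hA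
  set v := Ph e η s A with hv
  have hcont : Continuous fun y => Ph e η s y :=
    (Ph_cont e s).comp (continuous_const.prodMk continuous_id)
  have hconst : ∀ x, A ≤ x → x ≤ A + 1 / 2 → Ph e η s x = v := by
    intro x h0 h1
    obtain ⟨t, rfl⟩ : ∃ t, s = 1 + t := ⟨s - 1, by omega⟩
    rw [hv, Ph_add, CircleDeg1Lift.mul_apply, CircleDeg1Lift.mul_apply]
    congr 1
    rw [← zero_add 1, Ph_succ_apply, Ph_succ_apply, Ph_zero]
    simp only [CircleDeg1Lift.coe_one, id]
    rw [FL_plateau h0 h1, FL_plateau le_rfl (by linarith)]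
  obtain ⟨p, h1, h2⟩ := hR A le_rfl (by linarith)
  set xs := v - p with hxs
  have hxsv : Ph e η s xs = v := hconst xs h1.le h2.le
  set S : Set ℝ := {y | A + 1 / 2 ≤ y ∧ y ≤ xs + 1 ∧ y + p ≤ Ph e η s y} with hS
  have hSc : IsClosed S :=
    (isClosed_le continuous_const continuous_id).inter
      ((isClosed_le continuous_id continuous_const).inter
        (isClosed_le (continuous_id.add continuous_const) hcont))
  have hSn : xs + 1 ∈ S := by
    refine ⟨by linarith, le_rfl, ?_⟩
    rw [CircleDeg1Lift.map_add_one, hxsv]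
    linarith
  have hSb : BddBelow S := ⟨A + 1 / 2, fun y hy => hy.1⟩
  have hθ : sInf S ∈ S := hSc.csInf_mem ⟨_, hSn⟩ hSb
  set x := sInf S with hx
  have hii : ∀ y < x, Ph e η s y < x + p := by
    intro y hy
    have h3 : xs < x := by linarith [hθ.1]
    set y' := (max xs y + x) / 2 with hy'
    have h4 : max xs y < x := max_lt h3 hy
    have h5 : y' < x := by linarith
    have h6 : xs < y' := by linarith [le_max_left xs y]
    have h7 : y < y' := by linarith [le_max_right xs y]
    have h8 : Ph e η s y' < y' + p := by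
      by_cases hB : y' ≤ A + 1 / 2
      · rw [hconst y' (by linarith) hB]
        linarith
      · by_contra h9
        push Not at h9 hB
        exact absurd (csInf_le hSb ⟨hB.le, by linarith [hθ.2.1], h9⟩) (not_le.2 h5)
    linarith [(Ph e η s).monotone h7.le]
  refine ⟨x, p, le_antisymm ?_ hθ.2.2, hii⟩
  have h3 : Tendsto (fun y => Ph e η s y) (𝓝[<] x) (𝓝 (Ph e η s x)) :=
    (hcont.tendsto x).mono_left nhdsWithin_le_nhds
  exact le_of_tendsto h3 (eventually_nhdsWithin_of_forall fun y hy => (hii y hy).le)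

theorem iter {Φ : CircleDeg1Lift} {x : ℝ} {p : ℤ} (h1 : Φ x = x + p) (h2 : ∀ y < x, Φ y < x + p)
    (j : ℕ) : (Φ ^ j) x = x + j * p ∧ ∀ y < x, (Φ ^ j) y < x + j * p := by
  induction j with
  | zero => exact ⟨by simp, fun y hy => by simpa using hy⟩
  | succ j ih =>
    have h3 : ∀ y, (Φ ^ (j + 1)) y = (Φ ^ j) (Φ y - p) + p := by
      intro y
      rw [pow_succ, CircleDeg1Lift.mul_apply, CircleDeg1Lift.map_sub_int, sub_add_cancel]
    constructor
    · rw [h3, h1, add_sub_cancel_right, ih.1]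
      push_cast
      ring
    · intro y hy
      rw [h3]
      have h4 := ih.2 (Φ y - p) (by linarith [h2 y hy])
      push_cast
      linarith

theorem lt_all {e : ℕ → Bool} {η : ℝ} {s : ℕ} (hs : 1 ≤ s) (he : Per s e) {x : ℝ} {p : ℤ}
    (h1 : Ph e η s x = x + p) (h2 : ∀ y < x, Ph e η s y < x + p) (i : ℕ) {y : ℝ} (hy : y < x) :
    Ph e η i y < Ph e η i x := by
  refine lt_of_le_of_ne ((Ph e η i).monotone hy.le) fun h => ?_
  have h3 := iter h1 h2 i
  obtain ⟨t, ht⟩ : ∃ t, s * i = i + t := ⟨s * i - i, by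
    have : i ≤ s * i := Nat.le_mul_of_pos_left i hs
    omega⟩
  rw [← Ph_mul he, ht, Ph_add] at h3
  have h4 := h3.2 y hy
  rw [CircleDeg1Lift.mul_apply, h, ← CircleDeg1Lift.mul_apply, h3.1] at h4
  exact lt_irrefl _ h4

theorem not_plateau {n : ℕ} {e : ℕ → Bool} {η : ℝ} (hen : Per n e) (hη : Good n η) {s : ℕ}
    (hs : 1 ≤ s) (he : Per s e) {x : ℝ} {p : ℤ} (h1 : Ph e η s x = x + p)
    (h2 : ∀ y < x, Ph e η s y < x + p) (i : ℕ) (m : ℤ) :
    ¬ (lo (e i) η ≤ Ph e η i x - m ∧ Ph e η i x - m ≤ lo (e i) η + 1 / 2) := by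
  have ha : ∀ (i : ℕ) (m : ℤ), ¬ (lo (e i) η < Ph e η i x - m ∧
      Ph e η i x - m ≤ lo (e i) η + 1 / 2) := by
    rintro i m ⟨h3, h4⟩
    have hcont : Continuous fun y => Ph e η i y :=
      (Ph_cont e i).comp (continuous_const.prodMk continuous_id)
    have h5 : ∀ᶠ y in 𝓝[<] x, lo (e i) η < Ph e η i y - m :=
      (((hcont.sub continuous_const).tendsto x).mono_left nhdsWithin_le_nhds).eventually
        (lt_mem_nhds h3)
    obtain ⟨y, h6, h7⟩ := (h5.and self_mem_nhdsWithin).exists
    have hyx : y < x := h7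
    have h8 : Ph e η (i + 1) y = Ph e η (i + 1) x := by
      rw [Ph_succ_apply, Ph_succ_apply]
      have h9 := (Ph e η i).monotone hyx.le
      have h10 : FL (e i) η (Ph e η i y - m) = FL (e i) η (Ph e η i x - m) := by
        rw [FL_plateau h6.le (by linarith), FL_plateau h3.le h4]
      rw [CircleDeg1Lift.map_sub_int, CircleDeg1Lift.map_sub_int] at h10
      linarith
    exact (lt_all hs he h1 h2 (i + 1) hyx).ne h8
  rintro ⟨h3, h4⟩
  rcases h3.eq_or_lt with h5 | h5
  · obtain ⟨t, _, ht⟩ := rec1 (per_sh hen i) hη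
    have h6 := ht (Ph e η i x - m) (by simpa [sh] using h3) (by simpa [sh] using h4)
    have h7 : Ph (sh i e) η t (Ph e η i x - m) = Ph e η (i + t) x - m := by
      rw [CircleDeg1Lift.map_sub_int, Ph_add, CircleDeg1Lift.mul_apply]
    rw [h7] at h6
    obtain ⟨k, h8, h9⟩ := h6
    refine ha (i + t) (m + k) ⟨?_, ?_⟩
    · rw [add_comm i t]
      simp only [sh] at h8
      rw [add_comm t i]
      rw [add_comm t i] at h8
      push_cast
      linarith
    · simp only [sh] at h9
      rw [add_comm t i] at h9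
      push_cast
      linarith
  · exact ha i m ⟨h5, h4⟩

/-- the angles, before the choice of the minimal period -/
theorem angles {n : ℕ} {e : ℕ → Bool} {η : ℝ} (hn : 1 ≤ n) (he : Per n e) (hη : Good n η) :
    ∃ (s : ℕ) (θ : ℕ → ℝ) (a : ℕ → ℤ), 1 ≤ s ∧ n ∣ s ∧ (∀ k, 2 * θ k = θ (k + 1) + a k) ∧
      (∀ k, θ (k + s) = θ k) ∧ Side η e θ := by
  obtain ⟨k₀, s, hs, hns, hR⟩ := exists_return hn he hη
  set e' := sh k₀ e with he'
  have hen' : Per n e' := per_sh he k₀
  have hes' : Per s e' := by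
    obtain ⟨d, rfl⟩ := hns
    exact fun k => per_mul hen' k d
  have hR' : ∀ x, lo (e' 0) η ≤ x → x ≤ lo (e' 0) η + 1 / 2 → Fl (e' 0) η (Ph e' η s x) := by
    intro x h0 h1
    have h2 := hR x (by simpa [he', sh] using h0) (by simpa [he', sh] using h1)
    have h3 : e (k₀ + s) = e' 0 := by
      have := hes' 0
      simp only [he', sh, zero_add] at this ⊢
      rw [add_comm, this]
    rwa [h3] at h2
  obtain ⟨x, p, h1, h2⟩ := core hs hR'
  set y : ℕ → ℝ := fun i => Ph e' η i x with hy
  set u : ℕ → ℝ := fun i => y i - η / 2 - bt (e' i) / 2 with hu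
  have hfr : ∀ i, 0 < Int.fract (u i) ∧ Int.fract (u i) < 1 / 2 := by
    intro i
    have h3 := Int.floor_add_fract (u i)
    have h4 := Int.fract_nonneg (u i)
    have h5 := Int.fract_lt_one (u i)
    have h6 := not_plateau hen' hη hs hes' h1 h2 i
    constructor
    · rcases h4.eq_or_lt with h7 | h7
      · exfalso
        refine h6 (⌊u i⌋ - 1) ⟨?_, ?_⟩ <;> unfold lo <;> push_cast <;>
          simp only [hu, hy] at h3 h7 ⊢ <;> linarith
      · exact h7
    · by_contra h7
      push Not at h7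
      refine h6 (⌊u i⌋) ⟨?_, ?_⟩ <;> unfold lo <;> simp only [hu, hy] at h3 h7 h5 ⊢ <;> linarith
  have hstep : ∀ i, y (i + 1) = 2 * (y i - ⌊u i⌋) + ⌊u i⌋ := by
    intro i
    have h3 := Int.floor_add_fract (u i)
    simp only [hy]
    rw [Ph_succ_apply]
    have h4 : FL (e' i) η (Ph e' η i x) = FL (e' i) η (Ph e' η i x - ⌊u i⌋) + ⌊u i⌋ := by
      rw [CircleDeg1Lift.map_sub_int]
      ring
    rw [h4, FL_side]
    · simp only [hu, hy] at h3 ⊢
      linarith [(hfr i).1]
    · have := (hfr i).2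
      simp only [hu, hy] at h3 this ⊢
      linarith
  have hyp : ∀ i, y (i + s) = y i + p := by
    intro i
    simp only [hy]
    rw [add_comm i s, Ph_add, CircleDeg1Lift.mul_apply, h1, CircleDeg1Lift.map_add_int]
    have h3 : sh s e' = e' := funext fun k => hes' k
    rw [h3]
  have hup : ∀ i, ⌊u (i + s)⌋ = ⌊u i⌋ + p := by
    intro i
    have : u (i + s) = u i + p := by
      simp only [hu]
      rw [hyp, hes']
      ring
    rw [this, Int.floor_add_intCast]
  obtain ⟨t, ht⟩ : ∃ t, t + k₀ = n * k₀ := ⟨n * k₀ - k₀, by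
    have : k₀ ≤ n * k₀ := Nat.le_mul_of_pos_left k₀ hn
    omega⟩
  have het : ∀ k, e' (k + t) = e k := by
    intro k
    simp only [he', sh]
    rw [add_assoc, ht, per_mul he]
  refine ⟨s, fun k => y (k + t) - ⌊u (k + t)⌋, fun k => ⌊u (k + t + 1)⌋ - ⌊u (k + t)⌋, hs, hns,
    ?_, ?_, ?_⟩
  · intro k
    simp only
    have h3 := hstep (k + t)
    rw [show k + 1 + t = k + t + 1 by ring, h3]
    push_cast
    ring
  · intro k
    simp only
    rw [show k + s + t = k + t + s by ring, hyp, hup]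
    push_cast
    ring
  · intro k
    have h3 := Int.floor_add_fract (u (k + t))
    have h4 := hfr (k + t)
    rw [← het k]
    simp only [hu] at h3 h4 ⊢
    constructor <;> linarith [h4.1, h4.2]

/-- **Angles with a given itinerary.** -/
theorem gen : S_GEN := by
  intro n e hn he
  refine (good_dense hn).mono ?_
  intro η hη
  have hη : Good n η := hη
  obtain ⟨s, θ, a, hs, hns, hst, hper, hside⟩ := angles hn he hη
  -- two angles of the same side which agree modulo one are equal
  have huniq : ∀ (i j : ℕ) (m : ℤ), e i = e j → θ i = θ j + m → m = 0 := by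
    intro i j m hij h
    have h1 := hside i
    have h2 := hside j
    rw [hij] at h1
    have h3 : (m : ℝ) < 1 := by linarith [h1.2, h2.1]
    have h4 : (-1 : ℝ) < m := by linarith [h1.1, h2.2]
    have h5 : m < 1 := by exact_mod_cast h3
    have h6 : -1 < m := by exact_mod_cast h4
    omega
  have hnext : ∀ i j : ℕ, e (i + 1) = e (j + 1) → θ i = θ j → θ (i + 1) = θ (j + 1) := by
    intro i j hij h
    have h1 := hst i
    have h2 := hst j
    have h3 : θ (i + 1) = θ (j + 1) + ((a j - a i : ℤ) : ℝ) := by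
      push_cast
      linarith
    have h4 := huniq _ _ _ hij h3
    rw [h4] at h3
    simpa using h3
  have hprop : ∀ i j : ℕ, (∀ k, e (i + k) = e (j + k)) → θ i = θ j → ∀ k, θ (i + k) = θ (j + k) := by
    intro i j hij h k
    induction k with
    | zero => exact h
    | succ k ih => exact hnext _ _ (hij (k + 1)) ih
  -- the minimal period
  have hex : ∃ q, 1 ≤ q ∧ θ (n * q) = θ 0 := by
    obtain ⟨d, rfl⟩ := hns
    refine ⟨d, Nat.pos_of_ne_zero (by rintro rfl; simp at hs), ?_⟩
    have := hper 0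
    rwa [zero_add] at this
  classical
  set q := Nat.find hex with hq
  obtain ⟨hq1, hq2⟩ := Nat.find_spec hex
  have hmin : ∀ r, 1 ≤ r → θ (n * r) = θ 0 → q ≤ r := fun r h1 h2 => Nat.find_min' hex ⟨h1, h2⟩
  have hen : ∀ k j, e (k + n * j) = e k := fun k j => per_mul he k j
  have hperq : ∀ k, θ (k + n * q) = θ k := by
    intro k
    have := hprop (n * q) 0 (fun k => by rw [zero_add, add_comm, hen]) hq2 k
    rwa [zero_add, add_comm] at this
  refine ⟨n * q, θ, a, dvd_mul_right n q, ⟨Nat.mul_pos hn hq1, hst, hperq, ?_⟩, hside, ?_, ?_⟩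
  · intro k
    have h1 := hst k
    have h2 := hst (k + n * q)
    rw [hperq, show k + n * q + 1 = k + 1 + n * q by ring, hperq] at h2
    have h3 : (a (k + n * q) : ℝ) = a k := by linarith
    exact_mod_cast h3
  · have hdist : ∀ i j : ℕ, i < j → j < q → θ (i * n) = θ (j * n) → False := by
      intro i j hij hj h
      have h1 := hprop (i * n) (j * n) (fun k => by
        rw [mul_comm i, mul_comm j, add_comm, hen, add_comm, hen]) h (n * (q - j))
      have h2 : j * n + n * (q - j) = n * q := by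
        rw [mul_comm j, ← mul_add]
        congr 1
        omega
      have h3 : i * n + n * (q - j) = n * (q - (j - i)) := by
        rw [mul_comm i, ← mul_add]
        congr 1
        omega
      rw [h2, h3, hq2] at h1
      have := hmin (q - (j - i)) (by omega) h1
      omega
    intro i hi j hj m h
    have hnq : n * q / n = q := Nat.mul_div_cancel_left q hn
    rw [hnq] at hi hj
    have h1 := huniq (i * n) (j * n) m (by
      have h2 := hen 0 i
      have h3 := hen 0 j
      rw [zero_add, mul_comm] at h2 h3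
      rw [h2, h3]) h
    rw [h1, Int.cast_zero, add_zero] at h
    rcases lt_trichotomy i j with h4 | h4 | h4
    · exact (hdist i j h4 hj h).elim
    · exact h4
    · exact (hdist j i h4 hi h.symm).elim
  · intro k m hηk
    -- the orbit of the angle would enter the plateau
    have h1 : ∀ j, ∃ c : ℤ, θ (k + j) = 2 ^ j * η + c := by
      intro j
      induction j with
      | zero => exact ⟨-m, by rw [hηk]; push_cast; simp⟩
      | succ j ih =>
        obtain ⟨c, hc⟩ := ih
        refine ⟨2 * c - a (k + j), ?_⟩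
        have := hst (k + j)
        rw [← add_assoc]
        push_cast
        rw [pow_succ]
        linarith
    obtain ⟨j, m', h2, h3⟩ := hη (lo (e k) η) (lo (e k) η + 1 / 2) (by linarith)
    obtain ⟨c, hc⟩ := h1 (n * j)
    have h4 := hside (k + n * j)
    rw [hen k j, hc] at h4
    unfold lo at h2 h3
    have h5 : (0 : ℝ) < ((-m' - c : ℤ) : ℝ) := by
      push_cast
      linarith [h4.2]
    have h6 : ((-m' - c : ℤ) : ℝ) < 1 := by
      push_cast
      linarith [h4.1]
    have h7 : (0 : ℤ) < -m' - c := by exact_mod_cast h5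
    have h8 : -m' - c < (1 : ℤ) := by exact_mod_cast h6
    omega

end Pool.Agent.KS6_23.ML.GEN
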