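import Pool.Agent.KS6_23.ML.Stm

/-!
# Project ML, module GL: the area lemma for families of curvilinear strips
-/

set_option autoImplicit false

open Complex Set Filter Metric Topology MeasureTheory
open scoped ENNReal

namespace Pool.Agent.KS6_23.ML.GL

/-- the area formula for an injective holomorphic map -/
theorem area {s : Set ℂ} (hs : MeasurableSet s) {g : ℂ → ℂ}
    (hd : ∀ x ∈ s, DifferentiableAt ℂ g x) (inj : InjOn g s) (F : ℂ → ℝ≥0∞) :
    ∫⁻ w in g '' s, F w = ∫⁻ u in s, ENNReal.ofReal (‖deriv g u‖ ^ 2) * F (g u) := by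
  have h1 := lintegral_image_eq_lintegral_abs_det_fderiv_mul volume hs
    (f' := fun x => (ContinuousLinearMap.toSpanSingleton ℂ (deriv g x)).restrictScalars ℝ)
    (fun x hx => ((hd x hx).hasDerivAt.hasFDerivAt.restrictScalars ℝ).hasFDerivWithinAt) inj F
  rw [h1]
  have h2 : ∀ x, |((ContinuousLinearMap.toSpanSingleton ℂ (deriv g x)).restrictScalars ℝ).det|
      = ‖deriv g x‖ ^ 2 := by
    intro x
    simp [ContinuousLinearMap.det, LinearMap.det_restrictScalars, Algebra.norm_complex_eq,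
      Complex.normSq_eq_norm_sq]
  simp only [h2]

/-- closed rectangles -/
def Rc (a b c d : ℝ) : Set ℂ := Icc a b ×ℂ Icc c d

theorem isCompact_Rc (a b c d : ℝ) : IsCompact (Rc a b c d) := isCompact_Icc.reProdIm isCompact_Icc

theorem Rc_preimage (a b c d : ℝ) :
    Complex.measurableEquivRealProd.symm ⁻¹' (Rc a b c d) = Icc a b ×ˢ Icc c d := by
  ext ⟨x, y⟩
  simp only [Rc, mem_preimage, Complex.mem_reProdIm, Complex.measurableEquivRealProd_symm_apply,
    mem_prod]

theorem volume_Rc (a b c d : ℝ) :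
    volume (Rc a b c d) = ENNReal.ofReal (b - a) * ENNReal.ofReal (d - c) := by
  have h := (Complex.volume_preserving_equiv_real_prod.symm).measure_preimage
    (s := Rc a b c d) (isCompact_Rc a b c d).isClosed.measurableSet.nullMeasurableSet
  rw [← h, Rc_preimage, Measure.volume_eq_prod, Measure.prod_prod, Real.volume_Icc, Real.volume_Icc]

theorem integral_Rc {a b c d : ℝ} (hab : a ≤ b) (hcd : c ≤ d) (φ : ℂ → ℂ)
    (hφ : ContinuousOn φ (Rc a b c d)) :
    ∫ u in Rc a b c d, φ u = ∫ y in c..d, ∫ x in a..b, φ (x + y * I) := by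
  have h := (Complex.volume_preserving_equiv_real_prod.symm).setIntegral_preimage_emb
    (Complex.measurableEquivRealProd.symm.measurableEmbedding) φ (Rc a b c d)
  rw [← h, Rc_preimage, Measure.volume_eq_prod, ← Measure.prod_restrict, integral_prod_symm]
  · rw [intervalIntegral.integral_of_le hcd, ← integral_Icc_eq_integral_Ioc]
    refine setIntegral_congr_fun measurableSet_Icc fun y _ => ?_
    rw [intervalIntegral.integral_of_le hab, ← integral_Icc_eq_integral_Ioc]
    refine setIntegral_congr_fun measurableSet_Icc fun x _ => ?_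
    have : Complex.measurableEquivRealProd.symm (x, y) = (x : ℂ) + y * I := by
      rw [Complex.measurableEquivRealProd_symm_apply]
      apply Complex.ext <;> simp
    simp only [this]
  · rw [Measure.prod_restrict, ← Measure.volume_eq_prod, ← Rc_preimage]
    exact ((Complex.volume_preserving_equiv_real_prod.symm).integrableOn_comp_preimage
      (Complex.measurableEquivRealProd.symm.measurableEmbedding)).2
      (hφ.integrableOn_compact (isCompact_Rc a b c d))

/-- lower bound of the area -/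
theorem lower {g : ℂ → ℂ} {U : Set ℂ} (hU : IsOpen U) (hg : DifferentiableOn ℂ g U) {a b α : ℝ}
    (hab : a ≤ b) (hα : 0 ≤ α) (hsub : Rc a b (-α) α ⊆ U) (c L : ℂ) (E : ℝ)
    (hE : ∀ y ∈ Icc (-α) α, ‖g (b + y * I) - g (a + y * I) - L‖ ≤ E) :
    2 * α * (2 * ((starRingEnd ℂ) c * L).re - 2 * ‖c‖ * E - ‖c‖ ^ 2 * (b - a)) ≤
      ∫ u in Rc a b (-α) α, ‖deriv g u‖ ^ 2 := by
  have hcd : -α ≤ α := by linarith
  have hg' : DifferentiableOn ℂ (deriv g) U := hg.deriv hU
  have hc' : ContinuousOn (deriv g) (Rc a b (-α) α) := hg'.continuousOn.mono hsub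
  have hcomp := isCompact_Rc a b (-α) α
  -- the integral of the derivative
  have h1 : ∫ u in Rc a b (-α) α, deriv g u = ∫ y in (-α)..α, (g (b + y * I) - g (a + y * I)) := by
    rw [integral_Rc hab hcd _ hc']
    refine intervalIntegral.integral_congr fun y hy => ?_
    rw [uIcc_of_le hcd] at hy
    have hmem : ∀ x ∈ uIcc a b, ((x : ℂ) + y * I) ∈ Rc a b (-α) α := by
      intro x hx
      rw [uIcc_of_le hab] at hx
      simp only [Rc, Complex.mem_reProdIm]
      simpa using ⟨hx, hy⟩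
    have hder : ∀ x ∈ uIcc a b, HasDerivAt (fun x : ℝ => g (x + y * I)) (deriv g (x + y * I)) x := by
      intro x hx
      have hd : HasDerivAt g (deriv g (x + y * I)) (x + y * I) :=
        ((hg _ (hsub (hmem x hx))).differentiableAt (hU.mem_nhds (hsub (hmem x hx)))).hasDerivAt
      have h2 : HasDerivAt (fun x : ℝ => (x : ℂ) + y * I) 1 x :=
        (Complex.ofRealCLM.hasDerivAt (x := x)).add_const _
      have h3 := hd.scomp x h2
      rw [one_smul] at h3
      exact h3
    exact intervalIntegral.integral_eq_sub_of_hasDerivAt hder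
      ((hc'.comp (by fun_prop) hmem).intervalIntegrable)
  have hLc : ContinuousOn (fun y : ℝ => g (b + y * I) - g (a + y * I)) (uIcc (-α) α) := by
    rw [uIcc_of_le hcd]
    refine ContinuousOn.sub ?_ ?_
    · refine (hg.continuousOn.mono hsub).comp (by fun_prop) ?_
      intro y hy
      simp only [Rc, Complex.mem_reProdIm]
      simpa using ⟨hab, hy⟩
    · refine (hg.continuousOn.mono hsub).comp (by fun_prop) ?_
      intro y hy
      simp only [Rc, Complex.mem_reProdIm]
      simpa using ⟨hab, hy⟩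
  have h3 : ‖(∫ u in Rc a b (-α) α, deriv g u) - (2 * α : ℝ) * L‖ ≤ E * (2 * α) := by
    have h4 : (∫ y in (-α)..α, (g (b + y * I) - g (a + y * I))) - (2 * α : ℝ) * L =
        ∫ y in (-α)..α, (g (b + y * I) - g (a + y * I) - L) := by
      rw [intervalIntegral.integral_sub hLc.intervalIntegrable (by simp)]
      simp only [intervalIntegral.integral_const, sub_neg_eq_add, Complex.real_smul]
      push_cast
      ring
    rw [h1, h4]
    have h5 : ∀ y ∈ uIoc (-α) α, ‖g (b + y * I) - g (a + y * I) - L‖ ≤ E := by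
      intro y hy
      rw [uIoc_of_le hcd] at hy
      exact hE y ⟨hy.1.le, hy.2⟩
    refine (intervalIntegral.norm_integral_le_of_norm_le_const h5).trans ?_
    rw [abs_of_nonneg (by linarith)]
    apply le_of_eq
    ring
  -- the area of the rectangle
  have h6 : (volume.real (Rc a b (-α) α)) = 2 * α * (b - a) := by
    rw [measureReal_def, volume_Rc, ENNReal.toReal_mul, ENNReal.toReal_ofReal (by linarith),
      ENNReal.toReal_ofReal (by linarith)]
    ring
  -- expand the square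
  have i1 : IntegrableOn (fun u => ‖deriv g u‖ ^ 2) (Rc a b (-α) α) :=
    (hc'.norm.pow 2).integrableOn_compact hcomp
  have i2 : IntegrableOn (deriv g) (Rc a b (-α) α) := hc'.integrableOn_compact hcomp
  have i3 : IntegrableOn (fun u => (starRingEnd ℂ) c * deriv g u) (Rc a b (-α) α) :=
    i2.const_mul _
  have i4 : IntegrableOn (fun u => ((starRingEnd ℂ) c * deriv g u).re) (Rc a b (-α) α) := i3.re
  have i5 : IntegrableOn (fun _ : ℂ => ‖c‖ ^ 2) (Rc a b (-α) α) :=
    integrableOn_const (by rw [volume_Rc]; exact ENNReal.mul_ne_top (by simp) (by simp))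
  have h7 : ∫ u in Rc a b (-α) α, (2 * ((starRingEnd ℂ) c * deriv g u).re - ‖c‖ ^ 2) ≤
      ∫ u in Rc a b (-α) α, ‖deriv g u‖ ^ 2 := by
    refine integral_mono ((i4.const_mul 2).sub i5) i1 fun u => ?_
    have h8 : 0 ≤ ‖deriv g u - c‖ ^ 2 := by positivity
    rw [← Complex.normSq_eq_norm_sq] at h8
    simp only [← Complex.normSq_eq_norm_sq]
    simp only [Complex.normSq_apply, Complex.sub_re, Complex.sub_im, Complex.mul_re,
      Complex.conj_re, Complex.conj_im] at h8 ⊢
    nlinarith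
  have h9 : ∫ u in Rc a b (-α) α, (2 * ((starRingEnd ℂ) c * deriv g u).re - ‖c‖ ^ 2) =
      2 * ((starRingEnd ℂ) c * ∫ u in Rc a b (-α) α, deriv g u).re - ‖c‖ ^ 2 * (2 * α * (b - a)) := by
    rw [integral_sub (i4.const_mul 2) i5, integral_const_mul, setIntegral_const, h6, smul_eq_mul]
    have h10 : ∫ u in Rc a b (-α) α, ((starRingEnd ℂ) c * deriv g u).re =
        (∫ u in Rc a b (-α) α, (starRingEnd ℂ) c * deriv g u).re := by
      have := integral_re (𝕜 := ℂ) i3
      simpa using this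
    rw [h10, integral_const_mul]
    ring
  have h11 : ((starRingEnd ℂ) c * ((2 * α : ℝ) * L)).re - ‖c‖ * (E * (2 * α)) ≤
      ((starRingEnd ℂ) c * ∫ u in Rc a b (-α) α, deriv g u).re := by
    have h12 : ‖(starRingEnd ℂ) c * ((∫ u in Rc a b (-α) α, deriv g u) - (2 * α : ℝ) * L)‖ ≤
        ‖c‖ * (E * (2 * α)) := by
      rw [norm_mul, RCLike.norm_conj]
      exact mul_le_mul_of_nonneg_left h3 (norm_nonneg _)
    have h13 := (abs_le.1 ((Complex.abs_re_le_norm _).trans h12)).1
    rw [mul_sub, Complex.sub_re] at h13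
    linarith
  have h14 : ((starRingEnd ℂ) c * ((2 * α : ℝ) * L)).re = 2 * α * ((starRingEnd ℂ) c * L).re := by
    have : (starRingEnd ℂ) c * (((2 * α : ℝ) : ℂ) * L) = ((2 * α : ℝ) : ℂ) * ((starRingEnd ℂ) c * L) := by
      ring
    rw [this, Complex.re_ofReal_mul]
  rw [h14] at h11
  rw [h9] at h7
  nlinarith

/-- the logarithmic area of a ring -/
theorem ring_le {a b : ℝ} (_hab : a ≤ b) :
    ∫⁻ w in {w : ℂ | Real.exp a ≤ ‖w‖ ∧ ‖w‖ ≤ Real.exp b}, ENNReal.ofReal (1 / ‖w‖ ^ 2) ≤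
      ENNReal.ofReal (b - a) * ENNReal.ofReal (2 * Real.pi) := by
  let R : Set ℂ := Icc a b ×ℂ Ioc (-Real.pi) Real.pi
  have hR : MeasurableSet R :=
    (measurableSet_Icc.preimage Complex.measurable_re).inter
      (measurableSet_Ioc.preimage Complex.measurable_im)
  have hsub : {w : ℂ | Real.exp a ≤ ‖w‖ ∧ ‖w‖ ≤ Real.exp b} ⊆ exp '' R := by
    intro w hw
    have hw0 : w ≠ 0 := by
      rintro rfl
      have := hw.1
      rw [norm_zero] at this
      exact absurd this (not_le.2 (Real.exp_pos a))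
    have hn : 0 < ‖w‖ := norm_pos_iff.2 hw0
    refine ⟨log w, ?_, exp_log hw0⟩
    simp only [R, Complex.mem_reProdIm, Complex.log_re, Complex.log_im, mem_Icc, mem_Ioc]
    exact ⟨⟨(Real.le_log_iff_exp_le hn).2 hw.1, (Real.log_le_iff_le_exp hn).2 hw.2⟩,
      Complex.neg_pi_lt_arg w, Complex.arg_le_pi w⟩
  have hinj : InjOn exp R := by
    intro u hu v hv h
    simp only [R, Complex.mem_reProdIm, mem_Ioc] at hu hv
    exact Complex.exp_inj_of_neg_pi_lt_of_le_pi hu.2.1 hu.2.2 hv.2.1 hv.2.2 h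
  calc ∫⁻ w in {w : ℂ | Real.exp a ≤ ‖w‖ ∧ ‖w‖ ≤ Real.exp b}, ENNReal.ofReal (1 / ‖w‖ ^ 2)
      ≤ ∫⁻ w in exp '' R, ENNReal.ofReal (1 / ‖w‖ ^ 2) := lintegral_mono_set hsub
    _ = ∫⁻ u in R, ENNReal.ofReal (‖deriv exp u‖ ^ 2) * ENNReal.ofReal (1 / ‖exp u‖ ^ 2) :=
        area hR (fun x _ => Complex.differentiable_exp x) hinj _
    _ = ∫⁻ u in R, 1 := by
        refine lintegral_congr fun u => ?_
        rw [Complex.deriv_exp, ← ENNReal.ofReal_mul (by positivity)]
        have : ‖exp u‖ ≠ 0 := norm_ne_zero_iff.2 (exp_ne_zero u)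
        rw [mul_one_div_cancel (pow_ne_zero 2 this), ENNReal.ofReal_one]
    _ = volume R := by rw [setLIntegral_one]
    _ ≤ volume (Rc a b (-Real.pi) Real.pi) := by
        refine measure_mono fun u hu => ?_
        simp only [R, Rc, Complex.mem_reProdIm] at hu ⊢
        exact ⟨hu.1, hu.2.1.le, hu.2.2⟩
    _ = ENNReal.ofReal (b - a) * ENNReal.ofReal (2 * Real.pi) := by
        rw [volume_Rc]
        congr 2
        ring

/-- upper bound of the area -/
theorem upper (q : ℕ) (g : ℕ → ℂ → ℂ) {Q : Set ℂ} (hQ : IsCompact Q)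
    (hd : ∀ j < q, ∀ u ∈ Q, DifferentiableAt ℂ (g j) u)
    (inj : ∀ j < q, ∀ j' < q, ∀ u ∈ Q, ∀ u' ∈ Q, exp (g j u) = exp (g j' u') → j = j' ∧ u = u')
    {a b : ℝ} (hab : a ≤ b) (hre : ∀ j < q, ∀ u ∈ Q, a ≤ (g j u).re ∧ (g j u).re ≤ b) :
    ∑ j ∈ Finset.range q, ∫⁻ u in Q, ENNReal.ofReal (‖deriv (g j) u‖ ^ 2) ≤
      ENNReal.ofReal (b - a) * ENNReal.ofReal (2 * Real.pi) := by
  let h : ℕ → ℂ → ℂ := fun j u => exp (g j u)
  have hhd : ∀ j < q, ∀ u ∈ Q, HasDerivAt (h j) (exp (g j u) * deriv (g j) u) u := fun j hj u hu =>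
    (hd j hj u hu).hasDerivAt.cexp
  have h1 : ∀ j ∈ Finset.range q, ∫⁻ u in Q, ENNReal.ofReal (‖deriv (g j) u‖ ^ 2) =
      ∫⁻ w in h j '' Q, ENNReal.ofReal (1 / ‖w‖ ^ 2) := by
    intro j hj
    rw [Finset.mem_range] at hj
    rw [area hQ.isClosed.measurableSet (fun u hu => (hhd j hj u hu).differentiableAt)
      (fun u hu v hv huv => (inj j hj j hj u hu v hv huv).2)]
    refine setLIntegral_congr_fun hQ.isClosed.measurableSet fun u hu => ?_
    rw [(hhd j hj u hu).deriv, ← ENNReal.ofReal_mul (by positivity)]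
    congr 1
    have : ‖exp (g j u)‖ ≠ 0 := norm_ne_zero_iff.2 (exp_ne_zero _)
    simp only [h, norm_mul]
    field_simp
  rw [Finset.sum_congr rfl h1, ← lintegral_biUnion_finset]
  · refine (lintegral_mono_set ?_).trans (ring_le hab)
    intro w hw
    simp only [mem_iUnion, exists_prop, Finset.mem_range, mem_image] at hw
    obtain ⟨j, hj, u, hu, rfl⟩ := hw
    simp only [h, mem_ofPred_eq, Complex.norm_exp]
    exact ⟨Real.exp_le_exp.2 (hre j hj u hu).1, Real.exp_le_exp.2 (hre j hj u hu).2⟩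
  · intro i hi j hj hij
    rw [Finset.mem_coe, Finset.mem_range] at hi hj
    refine Set.disjoint_left.2 ?_
    rintro w ⟨u, hu, rfl⟩ ⟨v, hv, hvu⟩
    exact hij ((inj j hj i hi v hv u hu hvu).1).symm
  · intro j hj
    rw [Finset.mem_range] at hj
    exact (hQ.image_of_continuousOn fun u hu =>
      (hhd j hj u hu).continuousAt.continuousWithinAt).isClosed.measurableSet

/-- the strip which corresponds to the sector -/
theorem exp_mem_Sk {κ : ℝ} {u : ℂ} (hu : |u.im| < Real.arctan κ) : exp u ∈ Sk κ := by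
  have h1 : |u.im| < Real.pi / 2 := hu.trans (Real.arctan_lt_pi_div_two κ)
  have h2 := abs_lt.1 h1
  have hcos : 0 < Real.cos u.im := Real.cos_pos_of_mem_Ioo ⟨h2.1, h2.2⟩
  have h3 : |Real.tan u.im| < κ := by
    have h4 := abs_lt.1 hu
    rw [abs_lt]
    constructor
    · have : Real.tan (-Real.arctan κ) < Real.tan u.im :=
        Real.tan_lt_tan_of_lt_of_lt_pi_div_two (by linarith [Real.arctan_lt_pi_div_two κ]) h2.2 h4.1
      rwa [Real.tan_neg, Real.tan_arctan] at this
    · have : Real.tan u.im < Real.tan (Real.arctan κ) :=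
        Real.tan_lt_tan_of_lt_of_lt_pi_div_two h2.1 (Real.arctan_lt_pi_div_two κ) h4.2
      rwa [Real.tan_arctan] at this
  simp only [Sk, mem_ofPred_eq, Complex.exp_im, Complex.exp_re]
  rw [abs_mul, abs_of_pos (Real.exp_pos _)]
  have h5 : |Real.sin u.im| < κ * Real.cos u.im := by
    rw [Real.tan_eq_sin_div_cos, abs_div, abs_of_pos hcos, div_lt_iff₀ hcos] at h3
    exact h3
  have := Real.exp_pos u.re
  nlinarith

/-- comparison of linear functions -/
theorem le_of_all {A B C : ℝ} (h : ∀ n : ℕ, 1 ≤ n → n * A ≤ n * B + C) : A ≤ B := by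
  by_contra hAB
  push Not at hAB
  obtain ⟨n, hn⟩ := exists_nat_gt (C / (A - B))
  have h1 := h (n + 1) (by omega)
  rw [div_lt_iff₀ (by linarith)] at hn
  push_cast at h1
  nlinarith

set_option maxHeartbeats 1000000 in
/-- the inequality in a smaller sector, with an error term -/
theorem key {κ lamb : ℝ} {q : ℕ} {F : ℕ → ℂ → ℂ} {Λ : ℂ} (_hκ : 0 < κ) (hl : 1 < lamb)
    (hd : ∀ j < q, DifferentiableOn ℂ (F j) (Sk κ)) {δ : ℝ} (hδ : 0 < δ)
    (hinj : ∀ j < q, ∀ j' < q, ∀ ζ ∈ Sk κ, ∀ ζ' ∈ Sk κ, ‖ζ‖ < δ → ‖ζ'‖ < δ →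
      exp (F j ζ) = exp (F j' ζ') → j = j' ∧ ζ = ζ')
    (hlim : ∀ j < q, Tendsto (fun ζ => F j (lamb * ζ) - F j ζ) (𝓝[Sk κ] 0) (𝓝 Λ))
    {α ε : ℝ} (hα : 0 < α) (hακ : α < Real.arctan κ) (hε : 0 < ε) :
    q * (2 * α * ‖Λ‖ ^ 2 / Real.log lamb - 4 * α * ‖Λ‖ * ε / Real.log lamb) ≤
      2 * Real.pi * (|Λ.re| + 2 * ε) := by
  have hℓ : 0 < Real.log lamb := Real.log_pos hl
  set ℓ := Real.log lamb with hℓdef
  have hexpℓ : exp (ℓ : ℂ) = lamb := by
    rw [← Complex.ofReal_exp, hℓdef, Real.exp_log (by linarith)]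
  -- the threshold
  have h1 : ∀ᶠ ζ in 𝓝[Sk κ] (0 : ℂ), ∀ j ∈ Finset.range q, dist (F j (lamb * ζ) - F j ζ) Λ < ε := by
    rw [Filter.eventually_all_finset]
    intro j hj
    exact (hlim j (Finset.mem_range.1 hj)).eventually (Metric.ball_mem_nhds Λ hε)
  rw [eventually_nhdsWithin_iff, Metric.eventually_nhds_iff] at h1
  obtain ⟨ρ, hρ, h1⟩ := h1
  set X : ℝ := Real.log (min δ ρ) - 1 with hX
  have hmin : 0 < min δ ρ := lt_min hδ hρ
  have hexpX : Real.exp X < min δ ρ := by
    calc Real.exp X < Real.exp (Real.log (min δ ρ)) := Real.exp_lt_exp.2 (by linarith)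
      _ = min δ ρ := Real.exp_log hmin
  have hnorm : ∀ u : ℂ, u.re ≤ X → ‖exp u‖ < min δ ρ := by
    intro u hu
    rw [Complex.norm_exp]
    exact (Real.exp_le_exp.2 hu).trans_lt hexpX
  -- the strip
  set T : Set ℂ := {u : ℂ | |u.im| < Real.arctan κ} with hT
  have hTo : IsOpen T := isOpen_lt (continuous_abs.comp Complex.continuous_im) continuous_const
  have hTS : ∀ u ∈ T, exp u ∈ Sk κ := fun u hu => exp_mem_Sk hu
  let g : ℕ → ℂ → ℂ := fun j u => F j (exp u)
  have hgd : ∀ j < q, DifferentiableOn ℂ (g j) T := fun j hj =>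
    (hd j hj).comp Complex.differentiable_exp.differentiableOn hTS
  have hTsub : ∀ (u : ℂ) (x : ℝ), u ∈ T → u - x ∈ T := by
    intro u x hu
    simpa [hT] using hu
  have hstep : ∀ j < q, ∀ u ∈ T, u.re ≤ X → ‖g j (u + ℓ) - g j u - Λ‖ ≤ ε := by
    intro j hj u hu huX
    have h2 := h1 (y := exp u) (by rw [dist_zero_right]; exact (hnorm u huX).trans_le (min_le_right _ _))
      (hTS u hu) j (Finset.mem_range.2 hj)
    rw [dist_eq_norm] at h2
    have h3 : exp (u + ℓ) = lamb * exp u := by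
      rw [Complex.exp_add, hexpℓ, mul_comm]
    simp only [g, h3]
    exact h2.le
  have hiter : ∀ j < q, ∀ u ∈ T, u.re ≤ X → ∀ m : ℕ, ‖g j (u - (m * ℓ : ℝ)) - (g j u - m * Λ)‖ ≤ m * ε := by
    intro j hj u hu huX m
    induction m with
    | zero => simp
    | succ m ih =>
      have h2 := hstep j hj (u - ((m + 1 : ℕ) * ℓ : ℝ)) (hTsub _ _ hu) (by
        simp only [Complex.sub_re, Complex.ofReal_re]
        have : 0 ≤ ((m + 1 : ℕ) : ℝ) * ℓ := by positivity
        linarith)
      have h3 : u - (((m + 1 : ℕ) : ℝ) * ℓ : ℝ) + ℓ = u - (m * ℓ : ℝ) := by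
        push_cast
        ring
      rw [h3] at h2
      have h4 : g j (u - (((m + 1 : ℕ) : ℝ) * ℓ : ℝ)) - (g j u - ((m + 1 : ℕ) : ℂ) * Λ) =
          (g j (u - (m * ℓ : ℝ)) - (g j u - m * Λ)) -
            (g j (u - (m * ℓ : ℝ)) - g j (u - (((m + 1 : ℕ) : ℝ) * ℓ : ℝ)) - Λ) := by
        push_cast
        ring
      rw [h4]
      refine (norm_sub_le _ _).trans ?_
      have h5 : ((m + 1 : ℕ) : ℝ) * ε = m * ε + ε := by
        push_cast
        ring
      rw [h5]
      exact add_le_add ih h2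
  -- a bound in a fundamental rectangle
  have hRT : ∀ a b : ℝ, Rc a b (-α) α ⊆ T := by
    intro a b u hu
    simp only [Rc, Complex.mem_reProdIm, mem_Icc] at hu
    simp only [hT, mem_ofPred_eq]
    exact (abs_le.2 hu.2).trans_lt hακ
  obtain ⟨M, hM⟩ : ∃ M : ℝ, ∀ j ∈ Finset.range q, ∀ u ∈ Rc (X - ℓ) X (-α) α, ‖g j u‖ ≤ M := by
    have h2 : ∀ j ∈ Finset.range q, ∃ M : ℝ, ∀ u ∈ Rc (X - ℓ) X (-α) α, ‖g j u‖ ≤ M := fun j hj =>
      (isCompact_Rc _ _ _ _).exists_bound_of_continuousOn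
        ((hgd j (Finset.mem_range.1 hj)).continuousOn.mono (hRT _ _))
    choose! M hM using h2
    refine ⟨∑ j ∈ Finset.range q, |M j|, fun j hj u hu => (hM j hj u hu).trans ?_⟩
    exact (le_abs_self _).trans
      (Finset.single_le_sum (f := fun j => |M j|) (fun i _ => abs_nonneg _) hj)
  have hM0 : 0 ≤ |M| := abs_nonneg M
  -- the main estimate
  have hmain : ∀ n : ℕ, 1 ≤ n →
      n * (q * (2 * α * ‖Λ‖ ^ 2 / ℓ - 4 * α * ‖Λ‖ * ε / ℓ)) ≤
        n * (2 * Real.pi * (|Λ.re| + 2 * ε)) + 4 * Real.pi * |M| := by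
    intro n hn
    have hn0 : (0 : ℝ) ≤ n := Nat.cast_nonneg n
    have hnℓ : 0 ≤ n * ℓ := by positivity
    set Q : Set ℂ := Rc (X - n * ℓ) X (-α) α with hQ
    have hQT : Q ⊆ T := hRT _ _
    set an : ℝ := min 0 (-(n * Λ.re)) - |M| - n * ε with han
    set bn : ℝ := max 0 (-(n * Λ.re)) + |M| + n * ε with hbn
    have hab : bn - an = n * |Λ.re| + 2 * |M| + 2 * (n * ε) := by
      have h2 : max 0 (-(n * Λ.re)) - min 0 (-(n * Λ.re)) = n * |Λ.re| := by
        rw [max_sub_min_eq_abs]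
        rw [sub_zero, abs_neg, abs_mul, abs_of_nonneg hn0]
      rw [han, hbn]
      linarith
    have hab0 : an ≤ bn := by
      have : 0 ≤ n * |Λ.re| := by positivity
      have : 0 ≤ n * ε := by positivity
      linarith
    -- real parts
    have hre : ∀ j < q, ∀ v ∈ Q, an ≤ (g j v).re ∧ (g j v).re ≤ bn := by
      intro j hj v hv
      have hvT := hQT hv
      simp only [hQ, Rc, Complex.mem_reProdIm, mem_Icc] at hv
      set m := ⌊(X - v.re) / ℓ⌋₊ with hm
      have h0 : 0 ≤ (X - v.re) / ℓ := div_nonneg (by linarith [hv.1.2]) hℓ.le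
      have hm1 : (m : ℝ) * ℓ ≤ X - v.re := by
        have := Nat.floor_le h0
        rwa [le_div_iff₀ hℓ] at this
      have hm2 : X - v.re < (m + 1) * ℓ := by
        have := Nat.lt_floor_add_one ((X - v.re) / ℓ)
        rwa [div_lt_iff₀ hℓ] at this
      have hmn : (m : ℝ) ≤ n := by
        have h2 : (X - v.re) / ℓ ≤ n := by
          rw [div_le_iff₀ hℓ]
          linarith [hv.1.1]
        exact (Nat.floor_le h0).trans h2
      have huT : v + (m * ℓ : ℝ) ∈ T := by
        simpa [hT] using hvT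
      have hure : (v + (m * ℓ : ℝ)).re = v.re + m * ℓ := by simp
      have huX : (v + (m * ℓ : ℝ)).re ≤ X := by
        rw [hure]
        linarith
      have h3 := hiter j hj _ huT huX m
      rw [add_sub_cancel_right] at h3
      have h4 : ‖g j (v + (m * ℓ : ℝ))‖ ≤ |M| := by
        refine (hM j (Finset.mem_range.2 hj) _ ?_).trans (le_abs_self M)
        simp only [Rc, Complex.mem_reProdIm, mem_Icc]
        rw [hure]
        refine ⟨⟨by linarith, by linarith⟩, ?_⟩
        simpa using hv.2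
      have h5 : ‖g j v + m * Λ‖ ≤ |M| + n * ε := by
        have h6 : g j v + m * Λ = (g j v - (g j (v + (m * ℓ : ℝ)) - m * Λ)) + g j (v + (m * ℓ : ℝ)) := by
          ring
        rw [h6]
        refine (norm_add_le _ _).trans ?_
        have : (m : ℝ) * ε ≤ n * ε := mul_le_mul_of_nonneg_right hmn hε.le
        linarith
      have h7 := (Complex.abs_re_le_norm _).trans h5
      have h8 : (g j v + m * Λ).re = (g j v).re + m * Λ.re := by
        rw [Complex.add_re, ← Complex.ofReal_natCast, Complex.re_ofReal_mul]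
      rw [h8, abs_le] at h7
      have hm0 : (0 : ℝ) ≤ m := Nat.cast_nonneg m
      have h9 : min 0 (-(n * Λ.re)) ≤ -(m * Λ.re) ∧ -(m * Λ.re) ≤ max 0 (-(n * Λ.re)) := by
        rcases le_total 0 Λ.re with h | h
        · refine ⟨(min_le_right _ _).trans ?_, le_trans ?_ (le_max_left _ _)⟩ <;> nlinarith
        · refine ⟨(min_le_left _ _).trans ?_, le_trans ?_ (le_max_right _ _)⟩ <;> nlinarith
      constructor
      · rw [han]; linarith [h7.1, h9.1]
      · rw [hbn]; linarith [h7.2, h9.2]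
    -- injectivity
    have hinjg : ∀ j < q, ∀ j' < q, ∀ u ∈ Q, ∀ u' ∈ Q, exp (g j u) = exp (g j' u') →
        j = j' ∧ u = u' := by
      intro j hj j' hj' u hu u' hu' h
      have huT := hQT hu
      have hu'T := hQT hu'
      simp only [hQ, Rc, Complex.mem_reProdIm, mem_Icc] at hu hu'
      obtain ⟨h2, h3⟩ := hinj j hj j' hj' _ (hTS u huT) _ (hTS u' hu'T)
        ((hnorm u hu.1.2).trans_le (min_le_left _ _)) ((hnorm u' hu'.1.2).trans_le (min_le_left _ _)) h
      refine ⟨h2, ?_⟩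
      have hpi := Real.arctan_lt_pi_div_two κ
      have hpp := Real.pi_pos
      exact Complex.exp_inj_of_neg_pi_lt_of_le_pi (by linarith [hu.2.1]) (by linarith [hu.2.2])
        (by linarith [hu'.2.1]) (by linarith [hu'.2.2]) h3
    have hdQ : ∀ j < q, ∀ u ∈ Q, DifferentiableAt ℂ (g j) u := fun j hj u hu =>
      ((hgd j hj) u (hQT hu)).differentiableAt (hTo.mem_nhds (hQT hu))
    have hup := upper q g (isCompact_Rc _ _ _ _) hdQ hinjg hab0 hre
    -- real version
    have hint : ∀ j < q, IntegrableOn (fun u => ‖deriv (g j) u‖ ^ 2) Q := fun j hj =>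
      ((((hgd j hj).deriv hTo).continuousOn.mono hQT).norm.pow 2).integrableOn_compact
        (isCompact_Rc _ _ _ _)
    have hup2 : ∑ j ∈ Finset.range q, ∫ u in Q, ‖deriv (g j) u‖ ^ 2 ≤ (bn - an) * (2 * Real.pi) := by
      have h2 : ∀ j ∈ Finset.range q, ∫⁻ u in Q, ENNReal.ofReal (‖deriv (g j) u‖ ^ 2) =
          ENNReal.ofReal (∫ u in Q, ‖deriv (g j) u‖ ^ 2) := by
        intro j hj
        rw [ofReal_integral_eq_lintegral_ofReal (hint j (Finset.mem_range.1 hj))]
        exact Eventually.of_forall fun u => by positivity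
      rw [Finset.sum_congr rfl h2, ← ENNReal.ofReal_sum_of_nonneg
        (fun j _ => integral_nonneg fun u => by positivity),
        ← ENNReal.ofReal_mul (by linarith)] at hup
      exact (ENNReal.ofReal_le_ofReal_iff (mul_nonneg (by linarith) (by positivity))).1 hup
    -- lower bound
    have hlow : ∀ j ∈ Finset.range q, n * (2 * α * ‖Λ‖ ^ 2 / ℓ - 4 * α * ‖Λ‖ * ε / ℓ) ≤
        ∫ u in Q, ‖deriv (g j) u‖ ^ 2 := by
      intro j hj
      rw [Finset.mem_range] at hj
      have h2 := lower hTo (hgd j hj) (a := X - n * ℓ) (b := X) (by linarith) hα.le hQT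
        (Λ / ℓ) (n * Λ) (n * ε) (by
          intro y hy
          have huT : ((X : ℂ) + y * I) ∈ T := by
            simp only [hT, mem_ofPred_eq]
            simpa using (abs_le.2 hy).trans_lt hακ
          have h3 := hiter j hj _ huT (by simp) n
          have h4 : ((X - n * ℓ : ℝ) : ℂ) + y * I = X + y * I - (n * ℓ : ℝ) := by
            push_cast
            ring
          rw [h4, norm_sub_rev]
          have h5 : ∀ A B : ℂ, n * Λ - (A - B) = B - (A - n * Λ) := fun A B => by ring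
          rw [h5]
          exact h3)
      refine le_trans (le_of_eq ?_) h2
      have h6 : ((starRingEnd ℂ) (Λ / ℓ) * (n * Λ)).re = n * ‖Λ‖ ^ 2 / ℓ := by
        have : (starRingEnd ℂ) (Λ / ℓ) * (n * Λ) = ((n / ℓ : ℝ) : ℂ) * ((starRingEnd ℂ) Λ * Λ) := by
          rw [map_div₀, Complex.conj_ofReal]
          push_cast
          ring
        rw [this, Complex.re_ofReal_mul, mul_comm ((starRingEnd ℂ) Λ), Complex.mul_conj,
          Complex.ofReal_re, Complex.normSq_eq_norm_sq]
        ring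
      have h7 : ‖Λ / ℓ‖ = ‖Λ‖ / ℓ := by
        rw [norm_div, Complex.norm_real, Real.norm_of_nonneg hℓ.le]
      rw [h6, h7]
      field_simp
      ring
    have hsum := (Finset.sum_le_sum hlow).trans hup2
    rw [Finset.sum_const, Finset.card_range, nsmul_eq_mul, hab] at hsum
    have : 4 * Real.pi * |M| = 2 * |M| * (2 * Real.pi) := by ring
    nlinarith [Real.pi_pos]
  exact le_of_all hmain

/-- **The area lemma.** -/
theorem gl : S_GL := by
  intro κ lamb q F Λ hκ hl _hq hd hδ hlim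
  obtain ⟨δ, hδ, hinj⟩ := hδ
  have hℓ : 0 < Real.log lamb := Real.log_pos hl
  have hA : 0 < Real.arctan κ := Real.arctan_pos.2 hκ
  have h1 : ∀ α ∈ Ioo 0 (Real.arctan κ), 2 * α * (q * ‖Λ‖ ^ 2) ≤
      2 * Real.pi * Real.log lamb * |Λ.re| := by
    intro α hα
    set K : ℝ := 4 * Real.pi + q * (4 * α * ‖Λ‖ / Real.log lamb) with hK
    have hKp : 0 < K := by
      have : 0 ≤ q * (4 * α * ‖Λ‖ / Real.log lamb) := by
        have := hα.1.le
        positivity
      have := Real.pi_pos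
      rw [hK]
      linarith
    have h2 : q * (2 * α * ‖Λ‖ ^ 2 / Real.log lamb) ≤ 2 * Real.pi * |Λ.re| := by
      refine le_of_forall_pos_le_add fun η hη => ?_
      have h3 := key hκ hl hd hδ hinj hlim hα.1 hα.2 (div_pos hη hKp)
      have h4 : q * (2 * α * ‖Λ‖ ^ 2 / Real.log lamb) ≤ 2 * Real.pi * |Λ.re| + K * (η / K) := by
        rw [hK] at h3 ⊢
        have : q * (2 * α * ‖Λ‖ ^ 2 / Real.log lamb -
            4 * α * ‖Λ‖ * (η / (4 * Real.pi + q * (4 * α * ‖Λ‖ / Real.log lamb))) / Real.log lamb) =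
            q * (2 * α * ‖Λ‖ ^ 2 / Real.log lamb) - q * (4 * α * ‖Λ‖ / Real.log lamb) *
            (η / (4 * Real.pi + q * (4 * α * ‖Λ‖ / Real.log lamb))) := by
          ring
        rw [this] at h3
        linarith
      rwa [mul_div_cancel₀ _ hKp.ne'] at h4
    have h5 : q * (2 * α * ‖Λ‖ ^ 2 / Real.log lamb) * Real.log lamb = 2 * α * (q * ‖Λ‖ ^ 2) := by
      field_simp
    rw [← h5]
    calc _ ≤ 2 * Real.pi * |Λ.re| * Real.log lamb := mul_le_mul_of_nonneg_right h2 hℓ.le
      _ = _ := by ring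
  have h2 : Tendsto (fun α : ℝ => 2 * α * (q * ‖Λ‖ ^ 2)) (𝓝[<] (Real.arctan κ))
      (𝓝 (2 * Real.arctan κ * (q * ‖Λ‖ ^ 2))) :=
    (Continuous.tendsto (by fun_prop) _).mono_left nhdsWithin_le_nhds
  have h3 : 2 * Real.arctan κ * (q * ‖Λ‖ ^ 2) ≤ 2 * Real.pi * Real.log lamb * |Λ.re| :=
    le_of_tendsto h2 (eventually_of_mem (Ioo_mem_nhdsLT hA) h1)
  calc _ = 2 * Real.arctan κ * (q * ‖Λ‖ ^ 2) := by ring
    _ ≤ _ := h3

end Pool.Agent.KS6_23.ML.GL
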