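import Pool.Agent.KS6_23.ML.Basic

set_option autoImplicit false

/-! # Project ML: labels outside of `M` -/

open Complex Set Filter Metric Topology MeasureTheory

namespace Pool.Agent.KS6_23.ML.LabA

open Pool.Agent.KS6_23.ML Pool.Agent.KS6_23.ML.Basic

/-! ## sectors and uniqueness of the landing data -/

theorem isOpen_Sk (κ : ℝ) : IsOpen (Sk κ) := by
  unfold Sk
  exact isOpen_lt (by fun_prop) (by fun_prop)

theorem convex_Sk (κ : ℝ) : Convex ℝ (Sk κ) := by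
  intro x hx y hy a b ha hb hab
  unfold Sk at *
  simp only [mem_ofPred_eq, abs_lt] at *
  simp only [add_re, add_im, real_smul, mul_re, mul_im, ofReal_re, ofReal_im, zero_mul, sub_zero,
    add_zero]
  obtain ⟨h1, h2⟩ := hx
  obtain ⟨h3, h4⟩ := hy
  rcases eq_or_lt_of_le ha with h | h
  · subst h
    have : b = 1 := by linarith
    subst this
    constructor <;> linarith
  · constructor
    · have e1 : 0 < a * (x.im + κ * x.re) := mul_pos h (by linarith)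
      have e2 : 0 ≤ b * (y.im + κ * y.re) := mul_nonneg hb (by linarith)
      nlinarith
    · have e1 : 0 < a * (κ * x.re - x.im) := mul_pos h (by linarith)
      have e2 : 0 ≤ b * (κ * y.re - y.im) := mul_nonneg hb (by linarith)
      nlinarith

theorem smul_Sk {κ r : ℝ} (hr : 0 < r) {ζ : ℂ} (h : ζ ∈ Sk κ) : (r : ℂ) * ζ ∈ Sk κ := by
  unfold Sk at *
  simp only [mem_ofPred_eq] at *
  simp only [mul_re, mul_im, ofReal_re, ofReal_im, zero_mul, sub_zero, add_zero, abs_mul,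
    abs_of_pos hr]
  have := mul_lt_mul_of_pos_left h hr
  linarith

theorem pow_Sk {κ : ℝ} (N : ℕ) {ζ : ℂ} (h : ζ ∈ Sk κ) : (2 : ℂ) ^ N * ζ ∈ Sk κ := by
  have := smul_Sk (r := 2 ^ N) (by positivity) h
  push_cast at this
  exact this

theorem real_mem_Sk {κ x : ℝ} (hκ : 0 < κ) (hx : 0 < x) : (x : ℂ) ∈ Sk κ := by
  unfold Sk
  simp only [mem_ofPred_eq, ofReal_im, ofReal_re, abs_zero]
  positivity

theorem tendsto_real_Sk {κ : ℝ} (hκ : 0 < κ) :
    Tendsto (fun x : ℝ => (x : ℂ)) (𝓝[>] 0) (𝓝[Sk κ] 0) := by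
  rw [tendsto_nhdsWithin_iff]
  constructor
  · have : Tendsto (fun x : ℝ => (x : ℂ)) (𝓝 0) (𝓝 ((0 : ℝ) : ℂ)) :=
      Complex.continuous_ofReal.tendsto 0
    rw [ofReal_zero] at this
    exact this.mono_left nhdsWithin_le_nhds
  · filter_upwards [self_mem_nhdsWithin] with x hx
    exact real_mem_Sk hκ hx

theorem neBot_Sk {κ : ℝ} (hκ : 0 < κ) : (𝓝[Sk κ] (0 : ℂ)).NeBot :=
  (tendsto_real_Sk hκ).neBot

theorem logs_differ {U : Set ℂ} (hU : IsOpen U) (hc : IsPreconnected U) {F F' : ℂ → ℂ}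
    (h1 : DifferentiableOn ℂ F U) (h2 : DifferentiableOn ℂ F' U)
    (h : ∀ ζ ∈ U, exp (F ζ) = exp (F' ζ)) : ∃ a : ℂ, ∀ ζ ∈ U, F ζ = F' ζ + a := by
  have hd : DifferentiableOn ℂ (fun ζ => F ζ - F' ζ) U := h1.sub h2
  have h0 : U.EqOn (deriv (fun ζ => F ζ - F' ζ)) 0 := by
    intro ζ hζ
    have hn := hU.mem_nhds hζ
    have d1 := (h1.differentiableAt hn).hasDerivAt
    have d2 := (h2.differentiableAt hn).hasDerivAt
    have e1 := d1.cexp
    have e2 := d2.cexp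
    have e3 : (fun ζ => exp (F ζ)) =ᶠ[𝓝 ζ] fun ζ => exp (F' ζ) := by
      filter_upwards [hn] with x hx using h x hx
    have e4 := e1.unique (e2.congr_of_eventuallyEq e3)
    rw [h ζ hζ] at e4
    have e5 := mul_left_cancel₀ (exp_ne_zero _) e4
    have e6 : HasDerivAt (fun ζ => F ζ - F' ζ) (deriv F ζ - deriv F' ζ) ζ := d1.sub d2
    rw [e6.deriv, e5, sub_self]
    rfl
  obtain ⟨a, ha⟩ := hU.exists_is_const_of_deriv_eq_zero hc hd h0
  exact ⟨a, fun ζ hζ => by rw [← ha ζ hζ]; ring⟩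

theorem land_unique {N : ℕ} {κ : ℝ} {β : ℕ → ℂ → ℂ} {zz zz' : ℕ → ℂ} {Λ Λ' : ℂ} (hκ : 0 < κ)
    (h : Land N κ β zz Λ) (h' : Land N κ β zz' Λ') : zz = zz' ∧ Λ = Λ' := by
  have hk2 : 0 < κ / 2 := by positivity
  have := neBot_Sk hk2
  have hz : zz = zz' := by
    funext k
    exact tendsto_nhds_unique (h.lim k) (h'.lim k)
  refine ⟨hz, ?_⟩
  subst hz
  obtain ⟨F, hF1, hF2, hF3⟩ := h.lam
  obtain ⟨F', hF1', hF2', hF3'⟩ := h'.lam
  obtain ⟨a, ha⟩ := logs_differ (isOpen_Sk κ) (convex_Sk κ).isPreconnected hF1 hF1'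
    (fun ζ hζ => by rw [hF2 ζ hζ, hF2' ζ hζ])
  refine tendsto_nhds_unique hF3 (hF3'.congr' ?_)
  filter_upwards [self_mem_nhdsWithin] with ζ hζ
  have h1 : ζ ∈ Sk κ := Sk_mono hk2 (by linarith) hζ
  rw [ha _ h1, ha _ (pow_Sk N h1)]
  ring

/-! ## codes -/

theorem per_sh {n : ℕ} {e : ℕ → Bool} (h : Per n e) (k : ℕ) : Per n (sh k e) := by
  intro j
  have := h (j + k)
  unfold sh
  rw [← this]
  congr 1
  ring

theorem per_opp {n : ℕ} {e : ℕ → Bool} (h : Per n e) : Per n (opp e) := by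
  intro j
  unfold opp
  rw [h j]

theorem opp_opp (e : ℕ → Bool) : opp (opp e) = e := by
  funext k
  simp [opp]

theorem per_mul {n : ℕ} {e : ℕ → Bool} (h : Per n e) (q : ℕ) : Per (n * q) e := by
  induction q with
  | zero => intro k; simp
  | succ q ih =>
    intro k
    have := h (k + n * q)
    rw [Nat.mul_succ, ← Nat.add_assoc, this, ih k]

theorem per_dvd {n N : ℕ} {e : ℕ → Bool} (h : Per n e) (hd : n ∣ N) : Per N e := by
  obtain ⟨q, rfl⟩ := hd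
  exact per_mul h q

theorem ones_add {n : ℕ} (e : ℕ → Bool) : ones n (opp e) + ones n e = n := by
  unfold ones opp
  have h := Finset.card_filter_add_card_filter_not (s := Finset.range n) (p := fun k => e k = true)
  rw [Finset.card_range] at h
  rw [_root_.add_comm]
  convert h using 2
  congr 1
  ext k
  simp

theorem sum_bt (n : ℕ) (e : ℕ → Bool) : ∑ k ∈ Finset.range n, bt (e k) = ones n e := by
  unfold ones bt
  rw [Finset.card_filter]
  push_cast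
  rfl

/-- the label -/
noncomputable def lb (n : ℕ) (e : ℕ → Bool) (m : ℤ) : (Fin (n - 1) → Bool) × ZMod n :=
  if e 0 = false then (fun i => e (i + 1), (m : ZMod n))
  else (fun i => opp e (i + 1), ((m + ones n (opp e) : ℤ) : ZMod n))

theorem lb_T (n : ℕ) (e : ℕ → Bool) (m : ℤ) : lb n (opp e) (m + ones n (opp e)) = lb n e m := by
  unfold lb
  by_cases h : e 0 = false
  · have h' : ¬ (opp e 0 = false) := by simp [opp, h]
    rw [if_neg h', if_pos h, opp_opp]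
    have : (m + ones n (opp e) + ones n e : ℤ) = m + n := by
      have := ones_add (n := n) e
      zify at this
      linarith
    rw [this]
    simp
  · have h' : opp e 0 = false := by simpa [opp] using h
    rw [if_pos h', if_neg h]

theorem lb_surj {n : ℕ} (hn : 1 ≤ n) (v : (Fin (n - 1) → Bool) × ZMod n) :
    ∃ (e : ℕ → Bool) (m : ℤ), Per n e ∧ lb n e m = v := by
  obtain ⟨v1, v2⟩ := v
  have : NeZero n := ⟨by omega⟩
  refine ⟨fun k => if h : k % n = 0 then false else v1 ⟨k % n - 1, by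
    have := Nat.mod_lt k (show 0 < n by omega)
    omega⟩, (v2.val : ℤ), ?_, ?_⟩
  · intro k
    simp
  · unfold lb
    rw [if_pos (by simp)]
    congr 1
    · funext i
      have h1 : ((i : ℕ) + 1) % n = i + 1 := Nat.mod_eq_of_lt (by have := i.2; omega)
      simp [h1]
    · simp

/-! ## representations of points outside of `M` -/

section
variable {G : ℂ → ℂ → ℝ} {B : ℂ → ℂ → ℂ} {cc : ℂ → ℂ} {lam : ℂ → ℂ → ℂ}
  {Z ell : (ℕ → Bool) → ℂ → ℂ}

/-- `x` is given by the code `e` and the integer `m` at `w` -/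
structure Rep (cc : ℂ → ℂ) (Z ell : (ℕ → Bool) → ℂ → ℂ) (n : ℕ) (w : ℂ) (e : ℕ → Bool) (m : ℤ)
    (x : ℂ × ℂ × ℂ) : Prop where
  per : Per n e
  hw : w ∈ HP
  hc : cc w = x.1
  hz : Z e w = x.2.1
  hL : LL ell n e w = x.2.2 + m * tpi

theorem LL_T (hB : Base G B cc) (hC : Code G B cc lam Z ell) {n : ℕ} (hn : 1 ≤ n)
    {e : ℕ → Bool} (he : Per n e) {w : ℂ} (hw : w ∈ HP) :
    LL ell n e (w + tpi) = LL ell n (opp e) w + ones n e * tpi := by
  unfold LL
  have h1 : ∀ k ∈ Finset.range n, ell (sh k e) (w + tpi) =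
      ell (sh k (opp e)) w + bt (e k) * tpi := by
    intro k _
    have := hC.eT n hn (sh k e) (per_sh he k) w hw
    rw [this]
    congr 2
    simp [sh]
  rw [Finset.sum_congr rfl h1, Finset.sum_add_distrib, ← Finset.sum_mul]
  congr 2
  have := sum_bt n e
  have h2 : ((∑ k ∈ Finset.range n, bt (e k) : ℝ) : ℂ) = ((ones n e : ℝ) : ℂ) := by rw [this]
  push_cast at h2
  exact h2

theorem exp_ell (hC : Code G B cc lam Z ell) {n : ℕ} (hn : 1 ≤ n) {e : ℕ → Bool}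
    (he : Per n e) {w : ℂ} (hw : w ∈ HP) : exp (ell e w) = 2 * Z e w := by
  rw [hC.ell_eq n hn e he w hw, add_assoc, exp_add, ← hC.code n hn e he w hw]
  congr 1
  rw [← ofReal_exp, Real.exp_log (by norm_num)]
  norm_num

theorem iter_Z (hC : Code G B cc lam Z ell) {n : ℕ} (hn : 1 ≤ n) {e : ℕ → Bool}
    (he : Per n e) {w : ℂ} (hw : w ∈ HP) (k : ℕ) : (f (cc w))^[k] (Z e w) = Z (sh k e) w := by
  induction k with
  | zero => rfl
  | succ k ih =>
    rw [Function.iterate_succ', Function.comp_apply, ih,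
      hC.zf n hn (sh k e) (per_sh he k) w hw]
    congr 1
    funext j
    unfold sh
    congr 1
    ring

theorem Z_fix (hC : Code G B cc lam Z ell) {n : ℕ} (hn : 1 ≤ n) {e : ℕ → Bool}
    (he : Per n e) {w : ℂ} (hw : w ∈ HP) : (f (cc w))^[n] (Z e w) = Z e w := by
  rw [iter_Z hC hn he hw]
  congr 1
  funext k
  exact he k

theorem exp_LL (hC : Code G B cc lam Z ell) {n : ℕ} (hn : 1 ≤ n) {e : ℕ → Bool}
    (he : Per n e) {w : ℂ} (hw : w ∈ HP) : exp (LL ell n e w) = mul n (cc w) (Z e w) := by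
  unfold LL
  rw [exp_sum, mul_eq_prod]
  refine Finset.prod_congr rfl fun k _ => ?_
  rw [exp_ell hC hn (per_sh he k) hw, iter_Z hC hn he hw]

theorem LL_mul (hC : Code G B cc lam Z ell) {n : ℕ} {e : ℕ → Bool}
    (he : Per n e) (w : ℂ) (q : ℕ) : LL ell (n * q) e w = q * LL ell n e w := by
  induction q with
  | zero => simp [LL]
  | succ q ih =>
    have h1 : LL ell (n * (q + 1)) e w = LL ell (n * q) e w + LL ell n e w := by
      unfold LL
      rw [Nat.mul_succ, Finset.sum_range_add]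
      congr 1
      refine Finset.sum_congr rfl fun k _ => ?_
      congr 1
      funext j
      unfold sh
      have := per_mul he q (j + k)
      rw [← this]
      congr 1
      ring
    rw [h1, ih]
    push_cast
    ring

theorem rep_T (hB : Base G B cc) (hC : Code G B cc lam Z ell) {n : ℕ} (hn : 1 ≤ n)
    {w : ℂ} {e : ℕ → Bool} {m : ℤ} {x : ℂ × ℂ × ℂ} (h : Rep cc Z ell n w e m x) :
    Rep cc Z ell n (w + tpi) (opp e) (m + ones n (opp e)) x := by
  refine ⟨per_opp h.per, ?_, ?_, ?_, ?_⟩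
  · have := HP_add_int h.hw 1
    simpa using this
  · rw [hB.pper w h.hw, h.hc]
  · rw [hC.zT n hn (opp e) (per_opp h.per) w h.hw, opp_opp, h.hz]
  · rw [LL_T hB hC hn (per_opp h.per) h.hw, opp_opp, h.hL]
    push_cast
    ring

theorem rep_unique_w (hC : Code G B cc lam Z ell) {n : ℕ} (hn : 1 ≤ n)
    {w : ℂ} {e e' : ℕ → Bool} {m m' : ℤ} {x : ℂ × ℂ × ℂ} (h : Rep cc Z ell n w e m x)
    (h' : Rep cc Z ell n w e' m' x) : e = e' ∧ m = m' := by
  have h1 : e = e' := hC.inj n hn e e' h.per h'.per w h.hw (by rw [h.hz, h'.hz])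
  subst h1
  refine ⟨rfl, ?_⟩
  have h2 := h.hL
  rw [h'.hL] at h2
  have h3 := add_left_cancel h2
  have h4 := mul_right_cancel₀ tpi_ne h3
  exact_mod_cast h4.symm

theorem rep_exists (hB : Base G B cc) (hC : Code G B cc lam Z ell) {n : ℕ} (hn : 1 ≤ n)
    {D : Set ℂ} {x : ℂ × ℂ × ℂ} (hx : x ∈ XX n D) {w : ℂ} (hw : w ∈ HP) (hc : cc w = x.1) :
    ∃ (e : ℕ → Bool) (m : ℤ), Rep cc Z ell n w e m x := by
  obtain ⟨_, h1, h2⟩ := hx
  rw [← hc] at h1 h2
  obtain ⟨e, he, hz⟩ := hC.surj n hn w hw _ h1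
  have h3 := exp_LL hC hn he hw
  rw [hz, h2, exp_eq_iff] at h3
  obtain ⟨m, hm⟩ := h3
  exact ⟨e, m, he, hw, hc, hz, hm⟩

theorem rep_nat (hB : Base G B cc) (hC : Code G B cc lam Z ell) {n : ℕ} (hn : 1 ≤ n)
    {x : ℂ × ℂ × ℂ} (k : ℕ) : ∀ {w : ℂ} {e : ℕ → Bool} {m : ℤ}, Rep cc Z ell n w e m x →
    ∃ (e' : ℕ → Bool) (m' : ℤ), Rep cc Z ell n (w + k * tpi) e' m' x ∧
      lb n e' m' = lb n e m := by
  induction k with
  | zero =>
    intro w e m h
    refine ⟨e, m, ?_, rfl⟩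
    simpa using h
  | succ k ih =>
    intro w e m h
    obtain ⟨e', m', h1, h2⟩ := ih (rep_T hB hC hn h)
    refine ⟨e', m', ?_, ?_⟩
    · convert h1 using 1
      push_cast
      ring
    · rw [h2, lb_T]

theorem rep_int (hB : Base G B cc) (hC : Code G B cc lam Z ell) {n : ℕ} (hn : 1 ≤ n)
    {x : ℂ × ℂ × ℂ} {D : Set ℂ} (hx : x ∈ XX n D) (k : ℤ) {w : ℂ} {e : ℕ → Bool} {m : ℤ}
    (h : Rep cc Z ell n w e m x) :
    ∃ (e' : ℕ → Bool) (m' : ℤ), Rep cc Z ell n (w + k * tpi) e' m' x ∧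
      lb n e' m' = lb n e m := by
  obtain ⟨j, rfl | rfl⟩ := k.eq_nat_or_neg
  · obtain ⟨e', m', h1, h2⟩ := rep_nat hB hC hn j h
    exact ⟨e', m', by exact_mod_cast h1, h2⟩
  · have hw' : w + ((-(j : ℤ) : ℤ) : ℂ) * tpi ∈ HP := HP_add_int h.hw _
    have hc' : cc (w + ((-(j : ℤ) : ℤ) : ℂ) * tpi) = x.1 := by rw [cc_per_int hB h.hw, h.hc]
    obtain ⟨e', m', h1⟩ := rep_exists hB hC hn hx hw' hc'
    refine ⟨e', m', h1, ?_⟩
    obtain ⟨e'', m'', h2, h3⟩ := rep_nat hB hC hn j h1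
    have e0 : w + ((-(j : ℤ) : ℤ) : ℂ) * tpi + (j : ℂ) * tpi = w := by
      push_cast
      ring
    rw [e0] at h2
    obtain ⟨h4, h5⟩ := rep_unique_w hC hn h h2
    rw [h4, h5, h3]

/-- the label does not depend on the representation -/
theorem lb_unique (hB : Base G B cc) (hC : Code G B cc lam Z ell) {n : ℕ} (hn : 1 ≤ n)
    {x : ℂ × ℂ × ℂ} {D : Set ℂ} (hx : x ∈ XX n D) {w w' : ℂ} {e e' : ℕ → Bool} {m m' : ℤ}
    (h : Rep cc Z ell n w e m x) (h' : Rep cc Z ell n w' e' m' x) : lb n e m = lb n e' m' := by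
  obtain ⟨k, hk⟩ := cc_inj hB h.hw h'.hw (by rw [h.hc, h'.hc])
  obtain ⟨e'', m'', h1, h2⟩ := rep_int hB hC hn hx k h
  rw [← hk] at h1
  obtain ⟨h3, h4⟩ := rep_unique_w hC hn h' h1
  rw [h3, h4, h2]

/-- the representation is locally constant -/
theorem rep_local (hB : Base G B cc) (hC : Code G B cc lam Z ell) (hX : S_XLOC) {n : ℕ}
    (hn : 1 ≤ n) {x₀ : ℂ × ℂ × ℂ} {D : Set ℂ} (hx : x₀ ∈ XX n D) (hs : exp x₀.2.2 ≠ 1) {w₀ : ℂ}
    {e : ℕ → Bool} {m : ℤ} (h : Rep cc Z ell n w₀ e m x₀) :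
    ∀ᶠ y in 𝓝 x₀, y ∈ XX n D → ∃ w, Rep cc Z ell n w e m y := by
  obtain ⟨c₀, z₀, s₀⟩ := x₀
  obtain ⟨hsD, hf, hm⟩ := hx
  simp only at hsD hf hm hs
  obtain ⟨δ, ζ, σ, hδ, hζ, hσ, hζ0, hσ0, h1, h2⟩ := hX n c₀ z₀ s₀ hn hf hm hs
  have hHP : IsOpen HP := isOpen_lt continuous_const Complex.continuous_re
  have hc0 : cc w₀ = c₀ := h.hc
  have hz0 : Z e w₀ = z₀ := h.hz
  have hL0 : LL ell n e w₀ = s₀ + m * tpi := h.hL
  have hnhds := hHP.mem_nhds h.hw
  have hccA : AnalyticAt ℂ cc w₀ := hB.pdiff.analyticAt hnhds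
  have hZc : ContinuousAt (Z e) w₀ := ((hC.zdiff n hn e h.per).differentiableAt hnhds).continuousAt
  have hLc : ContinuousAt (LL ell n e) w₀ := by
    unfold LL
    refine tendsto_finsetSum _ fun k _ => ?_
    exact ((hC.edif n hn (sh k e) (per_sh h.per k)).differentiableAt hnhds).continuousAt
  have hopen : 𝓝 (cc w₀) ≤ map cc (𝓝 w₀) := by
    rcases hccA.eventually_constant_or_nhds_le_map_nhds with hcst | hle
    · exfalso
      -- cc is injective near w₀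
      have h5 : ∀ᶠ w in 𝓝 w₀, cc w = cc w₀ ∧ w ∈ HP ∧ ‖w - w₀‖ < 1 := by
        filter_upwards [hcst, hnhds, ball_mem_nhds w₀ one_pos] with w a1 a2 a3
        exact ⟨a1, a2, by simpa [dist_eq_norm] using a3⟩
      obtain ⟨ε, hε, hball⟩ := Metric.eventually_nhds_iff_ball.1 h5
      have h6 := hball (w₀ + ((min (ε / 2) (1/2) : ℝ) : ℂ)) (by
        rw [mem_ball, dist_eq_norm]
        simp only [add_sub_cancel_left, norm_real, Real.norm_eq_abs]
        rw [abs_of_pos (by positivity)]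
        exact lt_of_le_of_lt (min_le_left _ _) (by linarith))
      obtain ⟨k, hk⟩ := cc_inj hB h.hw h6.2.1 h6.1.symm
      have h7 := add_left_cancel hk
      have h8 := congrArg Complex.re h7
      rw [int_mul_tpi_re, ofReal_re] at h8
      have : 0 < min (ε / 2) (1/2 : ℝ) := by positivity
      linarith
    · exact hle
  -- the neighbourhood of w₀
  have hU : ∀ᶠ w in 𝓝 w₀, w ∈ HP ∧ cc w ∈ ball c₀ δ ∧ Z e w ∈ ball z₀ δ ∧
      ‖LL ell n e w - (s₀ + m * tpi)‖ < 1 := by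
    have a1 : ∀ᶠ w in 𝓝 w₀, cc w ∈ ball c₀ δ := by
      have : cc w₀ ∈ ball c₀ δ := by rw [hc0]; exact mem_ball_self hδ
      exact hccA.continuousAt.eventually_mem (isOpen_ball.mem_nhds this)
    have a2 : ∀ᶠ w in 𝓝 w₀, Z e w ∈ ball z₀ δ := by
      have : Z e w₀ ∈ ball z₀ δ := by rw [hz0]; exact mem_ball_self hδ
      exact hZc.eventually_mem (isOpen_ball.mem_nhds this)
    have a3 : ∀ᶠ w in 𝓝 w₀, LL ell n e w ∈ ball (s₀ + m * tpi) 1 := by
      have : LL ell n e w₀ ∈ ball (s₀ + m * tpi) 1 := by rw [hL0]; exact mem_ball_self one_pos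
      exact hLc.eventually_mem (isOpen_ball.mem_nhds this)
    filter_upwards [hnhds, a1, a2, a3] with w b1 b2 b3 b4
    exact ⟨b1, b2, b3, by simpa [dist_eq_norm] using b4⟩
  have hV : cc '' {w | w ∈ HP ∧ cc w ∈ ball c₀ δ ∧ Z e w ∈ ball z₀ δ ∧
      ‖LL ell n e w - (s₀ + m * tpi)‖ < 1} ∈ 𝓝 c₀ := by
    have h9 := hopen (image_mem_map hU)
    rw [hc0] at h9
    exact h9
  have c1 : ∀ᶠ y : ℂ × ℂ × ℂ in 𝓝 (c₀, z₀, s₀), y.1 ∈ cc '' {w | w ∈ HP ∧ cc w ∈ ball c₀ δ ∧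
      Z e w ∈ ball z₀ δ ∧ ‖LL ell n e w - (s₀ + m * tpi)‖ < 1} :=
    (continuous_fst.tendsto (c₀, z₀, s₀)).eventually_mem hV
  have c2 : ∀ᶠ y : ℂ × ℂ × ℂ in 𝓝 (c₀, z₀, s₀), y.2.1 ∈ ball z₀ δ :=
    ((continuous_fst.comp continuous_snd).tendsto (c₀, z₀, s₀)).eventually_mem
      (ball_mem_nhds _ hδ)
  have c3 : ∀ᶠ y : ℂ × ℂ × ℂ in 𝓝 (c₀, z₀, s₀), y.2.2 ∈ ball s₀ 1 :=
    ((continuous_snd.comp continuous_snd).tendsto (c₀, z₀, s₀)).eventually_mem
      (ball_mem_nhds _ one_pos)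
  filter_upwards [c1, c2, c3] with y d1 d2 d3 hy
  obtain ⟨w, ⟨hw1, hw2, hw3, hw4⟩, hw5⟩ := d1
  obtain ⟨_, hy1, hy2⟩ := hy
  have hZf := Z_fix hC hn h.per hw1
  have g1 := h2 (cc w) hw2 (Z e w) hw3 hZf
  have g2 := h2 y.1 (hw5 ▸ hw2) y.2.1 d2 hy1
  have hzz : Z e w = y.2.1 := by rw [g1.1, g2.1, hw5]
  refine ⟨w, h.per, hw1, hw5, hzz, ?_⟩
  have h3 := exp_LL hC hn h.per hw1
  rw [hzz, hw5, hy2, exp_eq_iff] at h3
  obtain ⟨m', hm'⟩ := h3
  have hmm : m' = m := by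
    have e1 : ‖((m' - m : ℤ) : ℂ) * tpi‖ < 2 := by
      have : ((m' - m : ℤ) : ℂ) * tpi = (LL ell n e w - (s₀ + m * tpi)) - (y.2.2 - s₀) := by
        rw [hm']
        push_cast
        ring
      rw [this]
      have d3' : ‖y.2.2 - s₀‖ < 1 := by simpa [dist_eq_norm] using d3
      calc _ ≤ _ := norm_sub_le _ _
        _ < 2 := by linarith
    rw [norm_mul, norm_tpi] at e1
    by_contra hne
    have h5 : (1 : ℝ) ≤ ‖((m' - m : ℤ) : ℂ)‖ := by
      rw [Complex.norm_intCast]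
      have : 1 ≤ |m' - m| := Int.one_le_abs (by omega)
      exact_mod_cast this
    have := Real.pi_gt_three
    nlinarith
  rw [hm', hmm]

end

end Pool.Agent.KS6_23.ML.LabA
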