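import Pool.Agent.KS6_23.ML.LAM
import Pool.Agent.KS6_23.ML.LabA

set_option autoImplicit false

/-!
# Project ML, module 11: the rays with a given itinerary land at the point with this code
-/

open Complex Set Filter Metric Topology MeasureTheory

namespace Pool.Agent.KS6_23.ML.IDENT

open Pool.Agent.KS6_23.ML Pool.Agent.KS6_23.ML.Basic

variable {G : ℂ → ℂ → ℝ} {B : ℂ → ℂ → ℂ} {cc : ℂ → ℂ} {lam : ℂ → ℂ → ℂ}

/-- the hypotheses -/
structure Ctx (G : ℂ → ℂ → ℝ) (B : ℂ → ℂ → ℂ) (cc : ℂ → ℂ) (lam : ℂ → ℂ → ℂ) (w : ℂ) (N : ℕ)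
    (e : ℕ → Bool) (θ : ℕ → ℝ) (a : ℕ → ℤ) (κ : ℝ) (β : ℕ → ℂ → ℂ) (zz : ℕ → ℂ) : Prop where
  base : Base G B cc
  lm : Lam B cc lam
  hw : w ∈ HP
  ang : Ang N θ a
  kpos : 0 < κ
  side : Side (w.im / (2 * Real.pi)) e θ
  free : Free cc (cc w) θ κ
  sec : Sec G B (cc w) N θ κ β
  lim : ∀ k, Tendsto (β k) (𝓝[Sk (κ / 2)] 0) (𝓝 (zz k))

/-- the rays as functions on the real line, constant on `(-∞, 0]` -/
noncomputable def bb (β : ℕ → ℂ → ℂ) (zz : ℕ → ℂ) (k : ℕ) (y : ℝ) : ℂ :=
  if 0 < y then β k y else zz k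

theorem bb_pos {β : ℕ → ℂ → ℂ} {zz : ℕ → ℂ} {k : ℕ} {y : ℝ} (hy : 0 < y) :
    bb β zz k y = β k y := if_pos hy

theorem bb_nonpos {β : ℕ → ℂ → ℂ} {zz : ℕ → ℂ} {k : ℕ} {y : ℝ} (hy : y ≤ 0) :
    bb β zz k y = zz k := if_neg (not_lt.2 hy)

section

variable {w : ℂ} {N : ℕ} {e : ℕ → Bool} {θ : ℕ → ℝ} {a : ℕ → ℤ} {κ : ℝ} {β : ℕ → ℂ → ℂ}
  {zz : ℕ → ℂ}

theorem tendsto_beta (h : Ctx G B cc lam w N e θ a κ β zz) (k : ℕ) :
    Tendsto (fun x : ℝ => β k x) (𝓝[>] 0) (𝓝 (zz k)) :=
  (h.lim k).comp (LabA.tendsto_real_Sk (half_pos h.kpos))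

theorem bb_cont (h : Ctx G B cc lam w N e θ a κ β zz) (k : ℕ) : Continuous (bb β zz k) := by
  rw [continuous_iff_continuousAt]
  intro y
  rcases lt_trichotomy y 0 with hy | hy | hy
  · refine continuousAt_const.congr (f := fun _ => zz k) ?_
    filter_upwards [gt_mem_nhds hy] with x hx
    exact (bb_nonpos hx.le).symm
  · subst hy
    rw [ContinuousAt, bb_nonpos le_rfl, ← nhdsLE_sup_nhdsGT, tendsto_sup]
    constructor
    · refine tendsto_const_nhds.congr' ?_
      filter_upwards [self_mem_nhdsWithin] with x hx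
      exact (bb_nonpos hx).symm
    · refine (tendsto_beta h k).congr' ?_
      filter_upwards [self_mem_nhdsWithin] with x hx
      exact (bb_pos hx).symm
  · have h1 : ContinuousAt (β k) (y : ℂ) :=
      ((h.sec.diff k).differentiableAt ((LabA.isOpen_Sk κ).mem_nhds
        (LabA.real_mem_Sk h.kpos hy))).continuousAt
    have h2 : ContinuousAt (fun x : ℝ => β k x) y :=
      ContinuousAt.comp (f := fun x : ℝ => (x : ℂ)) h1 (by fun_prop)
    refine h2.congr ?_
    filter_upwards [lt_mem_nhds hy] with x hx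
    exact (bb_pos hx).symm

theorem G_bb (h : Ctx G B cc lam w N e θ a κ β zz) (k : ℕ) (y : ℝ) :
    G (cc w) (bb β zz k y) = max y 0 := by
  have hpos : ∀ x : ℝ, 0 < x → G (cc w) (β k x) = x := by
    intro x hx
    rw [h.sec.grn k x (LabA.real_mem_Sk h.kpos hx), ofReal_re]
  rcases lt_or_ge 0 y with hy | hy
  · rw [bb_pos hy, hpos y hy, max_eq_left hy.le]
  · rw [bb_nonpos hy, max_eq_right hy]
    have hG : Continuous (fun z => G (cc w) z) := h.base.gcont.comp (by fun_prop : Continuous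
      fun z : ℂ => (cc w, z))
    have h1 : Tendsto (fun x : ℝ => G (cc w) (β k x)) (𝓝[>] 0) (𝓝 (G (cc w) (zz k))) :=
      (hG.tendsto _).comp (tendsto_beta h k)
    have h2 : Tendsto (fun x : ℝ => G (cc w) (β k x)) (𝓝[>] 0) (𝓝 0) := by
      have h3 : Tendsto (fun x : ℝ => x) (𝓝[>] 0) (𝓝 0) := nhdsWithin_le_nhds
      refine h3.congr' ?_
      filter_upwards [self_mem_nhdsWithin] with x hx
      exact (hpos x hx).symm
    exact tendsto_nhds_unique h1 h2

theorem f_cont (c : ℂ) : Continuous (f c) := by unfold f; fun_prop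

theorem f_bb (h : Ctx G B cc lam w N e θ a κ β zz) (k : ℕ) (y : ℝ) :
    f (cc w) (bb β zz k y) = bb β zz (k + 1) (2 * y) := by
  have hpos : ∀ (x : ℝ), 0 < x → f (cc w) (β k x) = β (k + 1) ((2 * x : ℝ) : ℂ) := by
    intro x hx
    rw [h.sec.step k x (LabA.real_mem_Sk h.kpos hx)]
    push_cast; rfl
  rcases lt_or_ge 0 y with hy | hy
  · rw [bb_pos hy, bb_pos (by linarith), hpos y hy]
  · rw [bb_nonpos hy, bb_nonpos (by linarith)]
    have h1 : Tendsto (fun x : ℝ => f (cc w) (β k x)) (𝓝[>] 0) (𝓝 (f (cc w) (zz k))) :=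
      ((f_cont (cc w)).tendsto _).comp (tendsto_beta h k)
    have h2 : Tendsto (fun x : ℝ => f (cc w) (β k x)) (𝓝[>] 0) (𝓝 (zz (k + 1))) := by
      have h3 : Tendsto (fun x : ℝ => 2 * x) (𝓝[>] 0) (𝓝[>] 0) := by
        rw [tendsto_nhdsWithin_iff]
        constructor
        · have : Tendsto (fun x : ℝ => 2 * x) (𝓝 0) (𝓝 (2 * 0)) :=
            (continuous_const.mul continuous_id).tendsto 0
          rw [mul_zero] at this
          exact this.mono_left nhdsWithin_le_nhds
        · filter_upwards [self_mem_nhdsWithin] with x hx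
          have : (0 : ℝ) < x := hx
          exact mem_Ioi.2 (by linarith)
      refine ((tendsto_beta h (k + 1)).comp h3).congr' ?_
      filter_upwards [self_mem_nhdsWithin] with x hx
      exact (hpos x hx).symm
    exact tendsto_nhds_unique h1 h2

/-- the values of the rays for large Green's function -/
theorem bb_large (h : Ctx G B cc lam w N e θ a κ β zz) (k : ℕ) {y : ℝ} (hy : w.re < 2 * y)
    (hy0 : 0 < y) : bb β zz k y = B (cc w) (y + θ k * tpi) := by
  rw [bb_pos hy0]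
  refine h.sec.base k y (LabA.real_mem_Sk h.kpos hy0) ?_
  rw [h.base.pG w h.hw, ofReal_re]
  exact hy

theorem bb_notMem (h : Ctx G B cc lam w N e θ a κ β zz) (k : ℕ) (y : ℝ) :
    bb β zz k y ∉ Gam B cc w := by
  rintro ⟨ξ, h1, h2, h3⟩
  have hw0 : 0 < w.re := h.hw
  have hG := G_bb h k y
  rw [h3, h.base.bG (cc w) ξ (by rw [h.base.pG w h.hw]; linarith)] at hG
  have hy : 0 < y := by
    by_contra hy
    push Not at hy
    rw [max_eq_right hy] at hG
    linarith
  rw [max_eq_left hy.le] at hG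
  have hlt : w.re < 2 * y := by linarith
  have h4 := bb_large h k hlt hy
  have hre : (((y : ℝ) : ℂ) + θ k * tpi).re = y := by
    rw [add_re, real_mul_tpi_re, ofReal_re, add_zero]
  obtain ⟨m, hm⟩ := h.base.binj (cc w) (y + θ k * tpi) ξ
    (by rw [h.base.pG w h.hw, hre]; exact hlt)
    (by rw [h.base.pG w h.hw]; linarith) (h4.symm.trans h3)
  have h5 := h.free w h.hw rfl k m
  have h6 : w.im - 2 * Real.pi * (θ k + m) = 0 := by
    rw [← h1, hm, add_im, int_mul_tpi_im, add_im, real_mul_tpi_im, ofReal_im]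
    ring
  rw [h6, abs_zero] at h5
  have := mul_pos h.kpos hw0
  linarith

theorem bb_ne_zero (h : Ctx G B cc lam w N e θ a κ β zz) (k : ℕ) (y : ℝ) :
    bb β zz k y ≠ 0 := by
  intro h0
  have h1 := f_bb h k y
  rw [h0] at h1
  have h2 : bb β zz (k + 1) (2 * y) = B (cc w) w := by
    rw [h.base.pB w h.hw, ← h1]; simp [f]
  exact bb_notMem h (k + 1) (2 * y) ⟨w, rfl, le_rfl, h2⟩

theorem lam_bb_cont (h : Ctx G B cc lam w N e θ a κ β zz) (k : ℕ) :
    Continuous (fun y : ℝ => lam w (bb β zz k (2 * y))) := by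
  have h1 : Continuous (fun y : ℝ => (w, bb β zz k (2 * y))) :=
    continuous_const.prodMk ((bb_cont h k).comp (continuous_const.mul continuous_id))
  exact h.lm.cont.comp_continuous h1 (fun y => ⟨h.hw, bb_notMem h k (2 * y)⟩)

theorem bt_cases (b : Bool) : bt b = 0 ∨ bt b = 1 := by
  unfold bt; cases b <;> simp

theorem exp_bt_sq (b : Bool) (ℓ : ℂ) : exp (ℓ / 2 + Real.pi * bt b * I) ^ 2 = exp ℓ := by
  rw [← exp_nat_mul]
  have h1 : ((2 : ℕ) : ℂ) * (ℓ / 2 + Real.pi * bt b * I) = ℓ + bt b * (2 * Real.pi * I) := by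
    push_cast; ring
  rw [h1, exp_add]
  rcases bt_cases b with hb | hb
  · rw [hb]; simp
  · rw [hb]; simp [exp_two_pi_mul_I]

/-- equality for large `y` -/
theorem bb_exp_large (h : Ctx G B cc lam w N e θ a κ β zz) (k : ℕ) {y : ℝ} (hy : w.re < y) :
    bb β zz k y = exp (lam w (bb β zz (k + 1) (2 * y)) / 2 + Real.pi * bt (e k) * I) := by
  have hw0 : 0 < w.re := h.hw
  have hpi := Real.pi_pos
  have hy0 : 0 < y := by linarith
  -- `ξ` is the preimage on the side zero
  set ξ : ℂ := y + (θ k - bt (e k) / 2 : ℝ) * tpi with hξ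
  have hξre : ξ.re = y := by rw [hξ, add_re, real_mul_tpi_re, ofReal_re, add_zero]
  have hξim : ξ.im = 2 * Real.pi * (θ k - bt (e k) / 2) := by
    rw [hξ, add_im, real_mul_tpi_im, ofReal_im, zero_add]
  obtain ⟨s1, s2⟩ := h.side k
  have hwim : w.im = 2 * Real.pi * (w.im / (2 * Real.pi)) := by field_simp
  have hdom : G (cc w) (cc w) < 2 * ξ.re := by rw [h.base.pG w h.hw, hξre]; linarith
  have hdom2 : G (cc w) (cc w) < 2 * (2 * ξ).re := by
    have : (2 * ξ).re = 2 * ξ.re := by simp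
    rw [this, h.base.pG w h.hw, hξre]; linarith
  have hB2 : bb β zz (k + 1) (2 * y) = B (cc w) (2 * ξ) := by
    rw [bb_large h (k + 1) (by linarith) (by linarith)]
    -- `θ (k+1) = 2 θ k - a k`
    obtain ⟨m, hm⟩ : ∃ m : ℤ, (m : ℝ) = bt (e k) := by
      rcases bt_cases (e k) with hb | hb
      · exact ⟨0, by rw [hb]; simp⟩
      · exact ⟨1, by rw [hb]; simp⟩
    have hst := h.ang.step k
    have hth : θ (k + 1) = 2 * θ k - a k := by linarith
    have e1 : ((2 * y : ℝ) : ℂ) + θ (k + 1) * tpi = 2 * ξ + ((m - a k : ℤ) : ℂ) * tpi := by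
      rw [hξ, hth, ← hm]
      push_cast
      ring
    rw [e1, bper_int h.base hdom2]
  have hray := h.lm.ray w h.hw ξ (by rw [hξre]; linarith)
    (by rw [hξim]; nlinarith) (by rw [hξim]; nlinarith)
  rw [hB2, exp_add, hray]
  rcases bt_cases (e k) with hb | hb
  · rw [bb_large h k (by linarith) hy0, hξ, hb]
    simp
  · have hne : bb β zz k y ≠ B (cc w) ξ := by
      intro he
      rw [bb_large h k (by linarith) hy0] at he
      have hre : (((y : ℝ) : ℂ) + θ k * tpi).re = y := by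
        rw [add_re, real_mul_tpi_re, ofReal_re, add_zero]
      obtain ⟨m, hm⟩ := h.base.binj (cc w) (y + θ k * tpi) ξ
        (by rw [h.base.pG w h.hw, hre]; linarith) hdom he
      have h7 := congrArg im hm
      rw [hξim, add_im, int_mul_tpi_im, add_im, real_mul_tpi_im, ofReal_im, hb] at h7
      have h8 : (2 * m : ℝ) = -1 := by
        have : 2 * Real.pi * (-1 / 2) = 2 * Real.pi * m := by linarith
        have h9 : (-1 / 2 : ℝ) = m := mul_left_cancel₀ (by positivity) this
        linarith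
      have h10 : 2 * m = -1 := by exact_mod_cast h8
      omega
    have hsq : bb β zz k y ^ 2 = B (cc w) ξ ^ 2 := by
      have h7 := f_bb h k y
      rw [hB2, ← h.base.bf (cc w) ξ hdom] at h7
      simpa [f] using h7
    rcases sq_eq_sq_iff_eq_or_eq_neg.1 hsq with h7 | h7
    · exact absurd h7 hne
    · rw [h7, hb]
      simp [exp_pi_mul_I]

theorem bb_exp (h : Ctx G B cc lam w N e θ a κ β zz) (k : ℕ) (y : ℝ) :
    bb β zz k y = exp (lam w (bb β zz (k + 1) (2 * y)) / 2 + Real.pi * bt (e k) * I) := by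
  have hsq : ∀ y : ℝ, bb β zz k y ^ 2 =
      exp (lam w (bb β zz (k + 1) (2 * y)) / 2 + Real.pi * bt (e k) * I) ^ 2 := by
    intro y
    rw [exp_bt_sq, h.lm.eq w h.hw _ (bb_notMem h (k + 1) (2 * y)), ← f_bb h k y]
    simp [f]
  have hcont : Continuous (fun y : ℝ =>
      exp (lam w (bb β zz (k + 1) (2 * y)) / 2 + Real.pi * bt (e k) * I)) :=
    (((lam_bb_cont h (k + 1)).div_const 2).add continuous_const).cexp
  have hdis := (isPreconnected_univ (α := ℝ)).eq_or_eq_neg_of_sq_eq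
    (f := bb β zz k) (g := fun y : ℝ =>
      exp (lam w (bb β zz (k + 1) (2 * y)) / 2 + Real.pi * bt (e k) * I))
    (bb_cont h k).continuousOn hcont.continuousOn (fun y _ => hsq y)
    (fun {y} _ => exp_ne_zero _)
  rcases hdis with hd | hd
  · exact hd (mem_univ y)
  · exfalso
    have h1 := hd (mem_univ (w.re + 1))
    rw [bb_exp_large h k (by linarith)] at h1
    simp only [Pi.neg_apply] at h1
    exact exp_ne_zero _ (self_eq_neg.1 h1)

/-! ## The landing point -/

theorem zz_exp (h : Ctx G B cc lam w N e θ a κ β zz) (k : ℕ) :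
    zz k = exp (lam w (zz (k + 1)) / 2 + Real.pi * bt (e k) * I) := by
  have := bb_exp h k 0
  rwa [mul_zero, bb_nonpos le_rfl, bb_nonpos le_rfl] at this

theorem zz_f (h : Ctx G B cc lam w N e θ a κ β zz) (k : ℕ) : f (cc w) (zz k) = zz (k + 1) := by
  have := f_bb h k 0
  rwa [mul_zero, bb_nonpos le_rfl, bb_nonpos le_rfl] at this

theorem zz_notMem (h : Ctx G B cc lam w N e θ a κ β zz) (k : ℕ) : zz k ∉ Gam B cc w := by
  have := bb_notMem h k 0
  rwa [bb_nonpos le_rfl] at this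

theorem zz_per (h : Ctx G B cc lam w N e θ a κ β zz) (k : ℕ) : zz (k + N) = zz k := by
  have h1 := tendsto_beta h (k + N)
  have h2 : Tendsto (fun x : ℝ => β (k + N) x) (𝓝[>] 0) (𝓝 (zz k)) := by
    refine (tendsto_beta h k).congr' ?_
    filter_upwards [self_mem_nhdsWithin] with x hx
    exact (h.sec.per k x (LabA.real_mem_Sk h.kpos hx)).symm
  exact tendsto_nhds_unique h1 h2

theorem zz_iter (h : Ctx G B cc lam w N e θ a κ β zz) (k : ℕ) :
    (f (cc w))^[k] (zz 0) = zz k := by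
  induction k with
  | zero => rfl
  | succ k ih => rw [Function.iterate_succ', Function.comp_apply, ih, zz_f h]

theorem bt_inj {b b' : Bool} (h : exp (Real.pi * bt b * I) = exp (Real.pi * bt b' * I)) :
    b = b' := by
  cases b <;> cases b' <;> simp_all [bt, exp_pi_mul_I]
  · norm_num at h
  · norm_num at h

theorem zz_eq_Z {Z ell : (ℕ → Bool) → ℂ → ℂ} (h : Ctx G B cc lam w N e θ a κ β zz)
    (hC : Code G B cc lam Z ell) : ∀ k, zz k = Z (sh k e) w := by
  have hN := h.ang.pos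
  have hfix : (f (cc w))^[N] (zz 0) = zz 0 := by
    rw [zz_iter h]
    have := zz_per h 0
    rwa [zero_add] at this
  obtain ⟨e', he', hZ⟩ := hC.surj N hN w h.hw (zz 0) hfix
  have hk : ∀ k, zz k = Z (sh k e') w := by
    intro k
    rw [← zz_iter h k, ← hZ, LabA.iter_Z hC hN he' h.hw]
  have hee : e' = e := by
    funext k
    have h1 := zz_exp h k
    have h2 := hC.code N hN (sh k e') (LabA.per_sh he' k) w h.hw
    have h3 : sh 1 (sh k e') = sh (k + 1) e' := by
      funext j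
      unfold sh
      congr 1
      ring
    have h4 : sh k e' 0 = e' k := by
      unfold sh
      rw [zero_add]
    rw [h3, h4, ← hk k, ← hk (k + 1)] at h2
    rw [h1, exp_add, exp_add] at h2
    exact (bt_inj (mul_left_cancel₀ (exp_ne_zero _) h2)).symm
  rw [← hee]
  exact hk

/-! ## The logarithm of the multiplier -/

theorem log_asym (h : Ctx G B cc lam w N e θ a κ β zz) (k : ℕ) :
    Tendsto (fun y : ℝ => lam w (bb β zz (k + 1) (2 * y)) / 2 + Real.pi * bt (e k) * I -
      (y + θ k * tpi)) atTop (𝓝 0) := by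
  have hw0 : 0 < w.re := h.hw
  have hpi := Real.pi_pos
  obtain ⟨s1, s2⟩ := h.side k
  have hwim : w.im = 2 * Real.pi * (w.im / (2 * Real.pi)) := by field_simp
  set x : ℝ := 2 * Real.pi * (2 * θ k - bt (e k)) with hx
  have ha := h.lm.asy w h.hw x (by rw [hx]; nlinarith) (by rw [hx]; nlinarith)
  have h2 : Tendsto (fun y : ℝ => 2 * y) atTop atTop := tendsto_id.const_mul_atTop (by norm_num)
  have h3 := (ha.comp h2).div_const 2
  rw [zero_div] at h3
  refine h3.congr' ?_
  filter_upwards [eventually_gt_atTop w.re] with y hy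
  have hB2 : bb β zz (k + 1) (2 * y) = B (cc w) ((2 * y : ℝ) + x * I) := by
    rw [bb_large h (k + 1) (by linarith) (by linarith)]
    obtain ⟨m, hm⟩ : ∃ m : ℤ, (m : ℝ) = bt (e k) := by
      rcases bt_cases (e k) with hb | hb
      · exact ⟨0, by rw [hb]; simp⟩
      · exact ⟨1, by rw [hb]; simp⟩
    have hst := h.ang.step k
    have hth : θ (k + 1) = 2 * θ k - a k := by linarith
    have e1 : ((2 * y : ℝ) : ℂ) + θ (k + 1) * tpi =
        ((2 * y : ℝ) + x * I) + ((m - a k : ℤ) : ℂ) * tpi := by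
      rw [hx, hth, ← hm]
      unfold tpi
      push_cast
      ring
    rw [e1, bper_int h.base]
    rw [h.base.pG w h.hw]
    simp only [add_re, ofReal_re, mul_re, I_re, mul_zero, ofReal_im, I_im, mul_one, sub_self,
      add_zero]
    linarith
  simp only [Function.comp]
  rw [hB2, hx]
  unfold tpi
  push_cast
  ring

theorem bb_bound (h : Ctx G B cc lam w N e θ a κ β zz) (k : ℕ) : ∃ C : ℝ, 0 ≤ C ∧
    ∀ y : ℝ, 0 ≤ y → ‖bb β zz k y - exp (y + θ k * tpi)‖ ≤ C := by
  obtain ⟨K, hK1, hK⟩ := h.base.basym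
  have hw0 : 0 < w.re := h.hw
  have h2 : Tendsto (fun s : ℝ => 2 * s) atTop atTop := tendsto_id.const_mul_atTop (by norm_num)
  obtain ⟨S, hS⟩ := eventually_atTop.1 (((eventually_ge_atTop (1 : ℝ)).and
    ((Real.tendsto_exp_atTop.comp h2).eventually_ge_atTop (K * ‖cc w‖))).and
    (eventually_gt_atTop w.re))
  have hcont : ContinuousOn (fun y : ℝ => ‖bb β zz k y - exp (y + θ k * tpi)‖)
      (Icc 0 (max S 0)) :=
    ((bb_cont h k).sub (by fun_prop)).norm.continuousOn
  obtain ⟨D, hD⟩ := isCompact_Icc.bddAbove_image hcont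
  have hD' : ∀ s ∈ Icc (0 : ℝ) (max S 0), ‖bb β zz k s - exp (s + θ k * tpi)‖ ≤ D := fun s hs =>
    hD (mem_image_of_mem _ hs)
  have hD0 : 0 ≤ D := (norm_nonneg _).trans (hD' 0 ⟨le_rfl, le_max_right _ _⟩)
  refine ⟨K * ‖cc w‖ + D, by positivity, fun y hy => ?_⟩
  have hKc : 0 ≤ K * ‖cc w‖ := by positivity
  rcases le_total y (max S 0) with hyS | hyS
  · linarith [hD' y ⟨hy, hyS⟩]
  · obtain ⟨⟨ha, hb1⟩, hc⟩ := hS y ((le_max_left _ _).trans hyS)
    have hre : ((y : ℂ) + θ k * tpi).re = y := by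
      rw [add_re, real_mul_tpi_re, ofReal_re, add_zero]
    have h3 := (hK (cc w) (y + θ k * tpi) (by rw [hre]; exact ha) (by rw [hre]; exact hb1)).2
    rw [hre] at h3
    rw [bb_large h k (by linarith) (by linarith)]
    have h4 : B (cc w) (y + θ k * tpi) - exp (y + θ k * tpi) =
        (B (cc w) (y + θ k * tpi) * exp (-(y + θ k * tpi)) - 1) * exp (y + θ k * tpi) := by
      rw [sub_mul, mul_assoc, ← exp_add]
      simp
    rw [h4, norm_mul, norm_exp, hre]
    calc _ ≤ K * ‖cc w‖ * Real.exp (-(2 * y)) * Real.exp y :=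
          mul_le_mul_of_nonneg_right h3 (Real.exp_pos _).le
      _ = K * ‖cc w‖ * Real.exp (-y) := by
          rw [mul_assoc, ← Real.exp_add]; congr 2; ring
      _ ≤ K * ‖cc w‖ * 1 := mul_le_mul_of_nonneg_left
          (Real.exp_le_one_iff.2 (by linarith)) hKc
      _ ≤ _ := by linarith

theorem add_ne (h : Ctx G B cc lam w N e θ a κ β zz) (k : ℕ) (y t : ℝ) :
    bb β zz k y + bb β zz k t ≠ 0 := by
  intro h0
  have h1 : bb β zz k y = -bb β zz k t := eq_neg_of_add_eq_zero_left h0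
  have h2 : bb β zz (k + 1) (2 * y) = bb β zz (k + 1) (2 * t) := by
    rw [← f_bb h, ← f_bb h, h1]
    simp [f]
  have h3 := G_bb h (k + 1) (2 * y)
  rw [h2, G_bb h] at h3
  have hzero : bb β zz k y = bb β zz k t → False := by
    intro h4
    rw [h4] at h0
    have : (2 : ℂ) * bb β zz k t = 0 := by rw [two_mul]; exact h0
    exact bb_ne_zero h k t ((mul_eq_zero.1 this).resolve_left two_ne_zero)
  rcases le_or_gt y 0 with hy | hy
  · rcases le_or_gt t 0 with ht | ht
    · exact hzero (by rw [bb_nonpos hy, bb_nonpos ht])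
    · rw [max_eq_left (by linarith), max_eq_right (by linarith)] at h3
      linarith
  · rcases le_or_gt t 0 with ht | ht
    · rw [max_eq_right (by linarith), max_eq_left (by linarith)] at h3
      linarith
    · rw [max_eq_left (by linarith), max_eq_left (by linarith)] at h3
      have : y = t := by linarith
      exact hzero (by rw [this])

/-- the normalised sum -/
noncomputable def gq (β : ℕ → ℂ → ℂ) (zz : ℕ → ℂ) (θ : ℕ → ℝ) (k : ℕ) (p : ℝ × ℝ) : ℂ :=
  (bb β zz k p.1 + bb β zz k p.2) / (((Real.exp p.1 + Real.exp p.2 : ℝ) : ℂ) * exp (θ k * tpi))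

theorem gq_den_ne (θ : ℝ) (y t : ℝ) :
    ((Real.exp y + Real.exp t : ℝ) : ℂ) * exp (θ * tpi) ≠ 0 := by
  refine mul_ne_zero (ofReal_ne_zero.2 ?_) (exp_ne_zero _)
  have := Real.exp_pos y
  have := Real.exp_pos t
  linarith

theorem norm_exp_tpi (θ : ℝ) : ‖exp (θ * tpi)‖ = 1 := by
  rw [norm_exp, real_mul_tpi_re, Real.exp_zero]

theorem gq_cont (h : Ctx G B cc lam w N e θ a κ β zz) (k : ℕ) : Continuous (gq β zz θ k) := by
  unfold gq
  refine Continuous.div ?_ ?_ (fun p => gq_den_ne (θ k) p.1 p.2)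
  · exact ((bb_cont h k).comp continuous_fst).add ((bb_cont h k).comp continuous_snd)
  · exact (continuous_ofReal.comp ((Real.continuous_exp.comp continuous_fst).add
      (Real.continuous_exp.comp continuous_snd))).mul continuous_const

theorem gq_ne (h : Ctx G B cc lam w N e θ a κ β zz) (k : ℕ) (p : ℝ × ℝ) : gq β zz θ k p ≠ 0 :=
  div_ne_zero (add_ne h k p.1 p.2) (gq_den_ne (θ k) p.1 p.2)

theorem gq_bound (h : Ctx G B cc lam w N e θ a κ β zz) (k : ℕ) : ∃ C : ℝ, 0 ≤ C ∧
    ∀ y t : ℝ, 0 ≤ y → 0 ≤ t → ‖gq β zz θ k (y, t) - 1‖ ≤ C * Real.exp (-y) := by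
  obtain ⟨C, hC0, hC⟩ := bb_bound h k
  refine ⟨2 * C, by positivity, fun y t hy ht => ?_⟩
  have hd := gq_den_ne (θ k) y t
  have h1 : gq β zz θ k (y, t) - 1 = ((bb β zz k y - exp (y + θ k * tpi)) +
      (bb β zz k t - exp (t + θ k * tpi))) /
        (((Real.exp y + Real.exp t : ℝ) : ℂ) * exp (θ k * tpi)) := by
    unfold gq
    rw [eq_div_iff hd, sub_mul, div_mul_cancel₀ _ hd, exp_add, exp_add]
    push_cast
    ring
  have hsum : 0 < Real.exp y + Real.exp t := by positivity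
  rw [h1, norm_div, norm_mul, norm_exp_tpi, mul_one, norm_real, Real.norm_eq_abs,
    abs_of_pos hsum, div_le_iff₀ hsum]
  have h2 := norm_add_le (bb β zz k y - exp (y + θ k * tpi)) (bb β zz k t - exp (t + θ k * tpi))
  have h3 := hC y hy
  have h4 := hC t ht
  have h5 : 1 ≤ Real.exp (-y) * (Real.exp y + Real.exp t) := by
    rw [mul_add, ← Real.exp_add]
    have : Real.exp (-y + y) = 1 := by simp
    rw [this]
    have : 0 < Real.exp (-y) * Real.exp t := by positivity
    linarith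
  calc _ ≤ 2 * C := by linarith
    _ = 2 * C * 1 := by ring
    _ ≤ 2 * C * (Real.exp (-y) * (Real.exp y + Real.exp t)) :=
      mul_le_mul_of_nonneg_left h5 (by positivity)
    _ = _ := by ring

theorem isSimplyConnected_univ : IsSimplyConnected (univ : Set (ℝ × ℝ)) := by
  have := (convex_univ : Convex ℝ (univ : Set (ℝ × ℝ))).contractibleSpace univ_nonempty
  exact SimplyConnectedSpace.ofContractible (univ : Set (ℝ × ℝ))

theorem exists_L (h : Ctx G B cc lam w N e θ a κ β zz) (k : ℕ) : ∃ L : ℝ → ℂ,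
    LAM.IsLog (fun y => gq β zz θ k (y, 0)) L ∧
      L 0 = lam w (zz (k + 1)) / 2 + Real.pi * bt (e k) * I - θ k * tpi := by
  obtain ⟨H, hH, hHe⟩ := exists_continuousOn_eqOn_exp_comp isSimplyConnected_univ isOpen_univ
    (gq_cont h k).continuousOn (by
      rintro ⟨p, -, hp⟩
      exact gq_ne h k p hp)
  rw [continuousOn_univ] at hH
  have hHe' : ∀ p, exp (H p) = gq β zz θ k p := fun p => hHe (mem_univ p)
  -- the diagonal
  set Ld : ℝ → ℂ := fun y => lam w (bb β zz (k + 1) (2 * y)) / 2 + Real.pi * bt (e k) * I -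
      (y + θ k * tpi) with hLd
  have hLdc : Continuous Ld := by
    have h1 := ((lam_bb_cont h (k + 1)).div_const 2).add
      (continuous_const (y := ((Real.pi * bt (e k) * I : ℂ))))
    exact h1.sub (by fun_prop)
  have hLde : ∀ y, exp (Ld y) = gq β zz θ k (y, y) := by
    intro y
    have h1 : gq β zz θ k (y, y) = bb β zz k y / exp (y + θ k * tpi) := by
      unfold gq
      simp only
      have h2 := gq_den_ne (θ k) y y
      rw [div_eq_div_iff h2 (exp_ne_zero _), exp_add]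
      push_cast
      ring
    rw [h1, hLd]
    simp only
    rw [exp_sub, ← bb_exp h k y]
  have hdiag : ∀ y, 0 ≤ y → H (0, 0) - Ld 0 = H (y, y) - Ld y := by
    intro y hy
    refine LAM.const_of_exp_eq (D := fun y => H (y, y) - Ld y) hy ?_ ?_
    · exact ((hH.comp (continuous_id.prodMk continuous_id)).sub hLdc).continuousOn
    · intro s _
      rw [exp_sub, hHe', hLde, div_self (gq_ne h k _)]
  set δ := H (0, 0) - Ld 0 with hδ
  have hδ1 : exp δ = 1 := by
    rw [hδ, exp_sub, hHe', hLde, div_self (gq_ne h k _)]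
  obtain ⟨C, hC0, hC⟩ := gq_bound h k
  have hexp : Tendsto (fun y : ℝ => C * Real.exp (-y)) atTop (𝓝 0) := by
    simpa using Real.tendsto_exp_neg_atTop_nhds_zero.const_mul C
  have hslit : ∀ᶠ y : ℝ in atTop, ∀ t : ℝ, 0 ≤ t → gq β zz θ k (y, t) ∈ slitPlane := by
    filter_upwards [hexp.eventually (gt_mem_nhds one_pos), eventually_ge_atTop 0] with y hy hy0 t ht
    exact LAM.mem_slitPlane_of_norm_sub_one_lt ((hC y t hy0 ht).trans_lt hy)
  have hlim : ∀ t : ℝ → ℝ, (∀ y, 0 ≤ y → 0 ≤ t y) →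
      Tendsto (fun y : ℝ => log (gq β zz θ k (y, t y))) atTop (𝓝 0) := by
    intro t ht
    have h1 : Tendsto (fun y : ℝ => gq β zz θ k (y, t y)) atTop (𝓝 1) := by
      rw [tendsto_iff_norm_sub_tendsto_zero]
      refine squeeze_zero' (Eventually.of_forall fun _ => norm_nonneg _) ?_ hexp
      filter_upwards [eventually_ge_atTop 0] with y hy
      exact hC y (t y) hy (ht y hy)
    have := h1.clog (by simp)
    simpa using this
  refine ⟨fun y => H (y, 0) - δ, ⟨?_, ?_, ?_⟩, ?_⟩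
  · exact ((hH.comp (continuous_id.prodMk continuous_const)).sub continuous_const).continuousOn
  · intro y _
    rw [exp_sub, hHe', hδ1, div_one]
  · have h1 := ((log_asym h k).sub (hlim (fun y => y) (fun y hy => hy))).add
      (hlim (fun _ => 0) (fun _ _ => le_rfl))
    rw [sub_zero, add_zero] at h1
    refine h1.congr' ?_
    filter_upwards [hslit, eventually_ge_atTop 0] with y hy hy0
    have h2 : H (y, 0) - log (gq β zz θ k (y, 0)) = H (y, y) - log (gq β zz θ k (y, y)) := by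
      refine LAM.const_of_exp_eq (D := fun t => H (y, t) - log (gq β zz θ k (y, t))) hy0 ?_ ?_
      · refine (hH.comp (continuous_const.prodMk continuous_id)).continuousOn.sub ?_
        refine ((gq_cont h k).comp (continuous_const.prodMk continuous_id)).continuousOn.clog ?_
        intro t ht
        exact hy t ht.1
      · intro t _
        rw [exp_sub, hHe', exp_log (gq_ne h k _), div_self (gq_ne h k _)]
    have h3 := hdiag y hy0
    have h4 : Ld y = lam w (bb β zz (k + 1) (2 * y)) / 2 + Real.pi * bt (e k) * I -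
      (y + θ k * tpi) := rfl
    rw [← h4]
    have h5 : Ld y = H (y, y) - δ := by rw [h3]; ring
    rw [h5]
    linear_combination -h2
  · have h1 : Ld 0 = lam w (zz (k + 1)) / 2 + Real.pi * bt (e k) * I - θ k * tpi := by
      simp only [hLd]
      rw [mul_zero, bb_nonpos le_rfl, ofReal_zero, zero_add]
    simp only
    rw [← h1, hδ]
    ring

theorem telescope (h : Ctx G B cc lam w N e θ a κ β zz) (x : ℝ) (n : ℕ) :
    bb β zz n (2 ^ n * x) - zz n = (bb β zz 0 x - zz 0) *
      ∏ k ∈ Finset.range n, (bb β zz k (2 ^ k * x) + zz k) := by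
  induction n with
  | zero => simp
  | succ n ih =>
    rw [Finset.prod_range_succ, ← mul_assoc, ← ih]
    have h1 : (2 : ℝ) ^ (n + 1) * x = 2 * (2 ^ n * x) := by ring
    rw [h1, ← f_bb h n, ← zz_f h n]
    unfold f
    ring

theorem tendsto_log_exp_add_one :
    Tendsto (fun t : ℝ => Real.log (Real.exp t + 1) - t) atTop (𝓝 0) := by
  have h1 : Tendsto (fun t : ℝ => Real.log (1 + Real.exp (-t))) atTop (𝓝 (Real.log (1 + 0))) :=
    (Real.tendsto_exp_neg_atTop_nhds_zero.const_add 1).log (by norm_num)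
  rw [add_zero, Real.log_one] at h1
  refine h1.congr fun t => ?_
  have h2 : Real.exp t + 1 = Real.exp t * (1 + Real.exp (-t)) := by
    rw [mul_add, ← Real.exp_add]; simp
  rw [h2, Real.log_mul (Real.exp_pos _).ne' (by positivity), Real.log_exp]
  ring

/-- asymptotics of the logarithm of the ray -/
theorem F_asym (h : Ctx G B cc lam w N e θ a κ β zz) {F : ℂ → ℂ}
    (hF : DifferentiableOn ℂ F (Sk κ)) (hF2 : ∀ ζ ∈ Sk κ, exp (F ζ) = β 0 ζ - zz 0) :
    ∃ κ₀ : ℂ, Tendsto (fun x : ℝ => F x - x) atTop (𝓝 κ₀) := by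
  obtain ⟨C, hC0, hC⟩ := bb_bound h 0
  have hFc : ContinuousOn (fun x : ℝ => F x) (Ioi 0) := by
    intro x hx
    have h1 : ContinuousAt F (x : ℂ) :=
      (hF.differentiableAt ((LabA.isOpen_Sk κ).mem_nhds
        (LabA.real_mem_Sk h.kpos hx))).continuousAt
    exact (ContinuousAt.comp (f := fun x : ℝ => (x : ℂ)) h1 (by fun_prop)).continuousWithinAt
  set φ : ℝ → ℂ := fun x => F ((x + 1 : ℝ) : ℂ) - ((x + 1 : ℝ) + θ 0 * tpi) with hφ
  have hφc : ContinuousOn φ (Ici 0) := by
    refine ContinuousOn.sub ?_ (by fun_prop)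
    refine hFc.comp (f := fun x : ℝ => x + 1) (by fun_prop) ?_
    intro x hx
    have : (0 : ℝ) ≤ x := hx
    exact mem_Ioi.2 (by linarith)
  have hφe : ∀ x : ℝ, 0 ≤ x → exp (φ x) = (bb β zz 0 (x + 1) - zz 0) /
      exp ((x + 1 : ℝ) + θ 0 * tpi) := by
    intro x hx
    simp only [hφ]
    rw [exp_sub, hF2 _ (LabA.real_mem_Sk h.kpos (by linarith)), bb_pos (by linarith)]
  have hlim : Tendsto (fun x => exp (φ x)) atTop (𝓝 1) := by
    rw [tendsto_iff_norm_sub_tendsto_zero]
    have h1 : Tendsto (fun x : ℝ => (C + ‖zz 0‖) * Real.exp (-x)) atTop (𝓝 0) := by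
      simpa using Real.tendsto_exp_neg_atTop_nhds_zero.const_mul (C + ‖zz 0‖)
    refine squeeze_zero' (Eventually.of_forall fun _ => norm_nonneg _) ?_ h1
    filter_upwards [eventually_ge_atTop 0] with x hx
    rw [hφe x hx]
    have h2 : (bb β zz 0 (x + 1) - zz 0) / exp ((x + 1 : ℝ) + θ 0 * tpi) - 1 =
        ((bb β zz 0 (x + 1) - exp ((x + 1 : ℝ) + θ 0 * tpi)) - zz 0) /
          exp ((x + 1 : ℝ) + θ 0 * tpi) := by
      rw [eq_div_iff (exp_ne_zero _), sub_mul, div_mul_cancel₀ _ (exp_ne_zero _)]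
      ring
    have hre : (((x + 1 : ℝ) : ℂ) + θ 0 * tpi).re = x + 1 := by
      rw [add_re, real_mul_tpi_re, ofReal_re, add_zero]
    rw [h2, norm_div, norm_exp, hre, div_eq_mul_inv, ← Real.exp_neg]
    refine mul_le_mul ((norm_sub_le _ _).trans (add_le_add (hC (x + 1) (by linarith)) le_rfl))
      (Real.exp_le_exp.2 (by linarith)) (Real.exp_pos _).le (by positivity)
  obtain ⟨L, hL⟩ := LAM.exists_isLog (g := fun x => exp (φ x)) hφc.cexp
    (fun x _ => exp_ne_zero _) hlim
  have hconst : ∀ x, 0 ≤ x → φ 0 - L 0 = φ x - L x := by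
    intro x hx
    refine LAM.const_of_exp_eq (D := fun x => φ x - L x) hx ?_ ?_
    · exact (hφc.mono (fun u hu => hu.1)).sub (hL.cont.mono (fun u hu => hu.1))
    · intro u hu
      rw [exp_sub, hL.eq u hu.1, div_self (exp_ne_zero _)]
  have h3 : Tendsto φ atTop (𝓝 (φ 0 - L 0)) := by
    have h4 := hL.lim.add_const (φ 0 - L 0)
    rw [zero_add] at h4
    refine h4.congr' ?_
    filter_upwards [eventually_ge_atTop 0] with x hx
    rw [hconst x hx]; ring
  refine ⟨φ 0 - L 0 + θ 0 * tpi, ?_⟩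
  have h5 : Tendsto (fun x : ℝ => x - 1) atTop atTop :=
    tendsto_atTop_add_const_right _ (-1) tendsto_id
  have h6 := (h3.comp h5).add_const (θ 0 * tpi)
  refine h6.congr fun x => ?_
  simp only [Function.comp, hφ]
  rw [sub_add_cancel]
  ring

theorem sum_theta (h : Ctx G B cc lam w N e θ a κ β zz) :
    ∑ k ∈ Finset.range N, θ k = ((∑ k ∈ Finset.range N, a k : ℤ) : ℝ) := by
  have h1 : ∑ k ∈ Finset.range N, θ (k + 1) = ∑ k ∈ Finset.range N, θ k := by
    have h2 := Finset.sum_range_succ' θ N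
    rw [Finset.sum_range_succ] at h2
    have h3 : θ N = θ 0 := by
      have := h.ang.per 0
      rwa [zero_add] at this
    linarith
  have h4 : ∑ k ∈ Finset.range N, (2 * θ k) = ∑ k ∈ Finset.range N, (θ (k + 1) + a k) :=
    Finset.sum_congr rfl fun k _ => h.ang.step k
  rw [← Finset.mul_sum, Finset.sum_add_distrib, h1] at h4
  push_cast
  linarith

theorem Lambda_eq {Z ell : (ℕ → Bool) → ℂ → ℂ} (h : Ctx G B cc lam w N e θ a κ β zz)
    (hC : Code G B cc lam Z ell) (hper : Per N e) {F : ℂ → ℂ} {Λ : ℂ}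
    (hF : DifferentiableOn ℂ F (Sk κ)) (hF2 : ∀ ζ ∈ Sk κ, exp (F ζ) = β 0 ζ - zz 0)
    (hF3 : Tendsto (fun ζ => F (2 ^ N * ζ) - F ζ) (𝓝[Sk (κ / 2)] 0) (𝓝 Λ)) :
    Λ = LL ell N e w - (((∑ k ∈ Finset.range N, a k : ℤ)) : ℂ) * tpi := by
  choose L hL hL0 using exists_L h
  set P : ℝ → ℂ := fun x => ∑ k ∈ Finset.range N,
    (L k (2 ^ k * x) + θ k * tpi + Real.log (Real.exp (2 ^ k * x) + 1)) with hP
  have hpow : ∀ (k : ℕ) (x : ℝ), 0 ≤ x → 0 ≤ 2 ^ k * x := fun k x hx => by positivity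
  have hPexp : ∀ x, 0 ≤ x → exp (P x) = ∏ k ∈ Finset.range N, (bb β zz k (2 ^ k * x) + zz k) := by
    intro x hx
    simp only [hP]
    rw [exp_sum]
    refine Finset.prod_congr rfl fun k _ => ?_
    have h1 := (hL k).eq (2 ^ k * x) (hpow k x hx)
    have h2 : exp ((Real.log (Real.exp (2 ^ k * x) + 1) : ℝ) : ℂ) =
        ((Real.exp (2 ^ k * x) + 1 : ℝ) : ℂ) := by
      rw [← ofReal_exp, Real.exp_log (by positivity)]
    rw [exp_add, exp_add, h1, h2]
    have h3 := gq_den_ne (θ k) (2 ^ k * x) 0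
    unfold gq
    simp only
    rw [bb_nonpos (le_refl (0 : ℝ))]
    rw [Real.exp_zero] at h3 ⊢
    rw [mul_assoc, _root_.mul_comm (exp (θ k * tpi)), div_mul_cancel₀ _ h3]
  have hPcont : ContinuousOn P (Ici 0) := by
    simp only [hP]
    refine continuousOn_finsetSum _ fun k _ => ?_
    refine ContinuousOn.add (ContinuousOn.add ?_ continuousOn_const) ?_
    · exact (hL k).cont.comp (by fun_prop) (fun x hx => hpow k x hx)
    · refine (continuous_ofReal.comp ?_).continuousOn
      refine Continuous.log (by fun_prop) (fun x => ?_)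
      positivity
  have hFc : ContinuousOn (fun x : ℝ => F x) (Ioi 0) := by
    intro x hx
    have h1 : ContinuousAt F (x : ℂ) :=
      (hF.differentiableAt ((LabA.isOpen_Sk κ).mem_nhds
        (LabA.real_mem_Sk h.kpos hx))).continuousAt
    exact (ContinuousAt.comp (f := fun x : ℝ => (x : ℂ)) h1 (by fun_prop)).continuousWithinAt
  set D : ℝ → ℂ := fun x => F ((2 ^ N * x : ℝ) : ℂ) - F x - P x with hD
  have hDcont : ContinuousOn D (Ioi 0) := by
    refine (ContinuousOn.sub ?_ hFc).sub (hPcont.mono Ioi_subset_Ici_self)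
    refine hFc.comp (f := fun x : ℝ => 2 ^ N * x) (by fun_prop) ?_
    intro x hx
    have : (0 : ℝ) < x := hx
    exact mem_Ioi.2 (by positivity)
  have hDexp : ∀ x, 0 < x → exp (D x) = 1 := by
    intro x hx
    have hx2 : (0 : ℝ) < 2 ^ N * x := by positivity
    have h1 := telescope h x N
    have h2 : bb β zz N (2 ^ N * x) = β 0 ((2 ^ N * x : ℝ) : ℂ) := by
      rw [bb_pos hx2]
      have := h.sec.per 0 ((2 ^ N * x : ℝ) : ℂ) (LabA.real_mem_Sk h.kpos hx2)
      rwa [zero_add] at this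
    have h3 : zz N = zz 0 := by
      have := zz_per h 0
      rwa [zero_add] at this
    rw [h2, h3, bb_pos hx, ← hPexp x hx.le, ← hF2 _ (LabA.real_mem_Sk h.kpos hx),
      ← hF2 _ (LabA.real_mem_Sk h.kpos hx2)] at h1
    simp only [hD]
    rw [exp_sub, exp_sub, h1]
    field_simp [exp_ne_zero]
  have hDconst : ∀ x y, 0 < x → x ≤ y → D x = D y := by
    intro x y hx hxy
    refine LAM.const_of_exp_eq hxy (hDcont.mono (fun u hu => hx.trans_le hu.1)) ?_
    intro u hu
    exact hDexp u (hx.trans_le hu.1)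
  have hD1 : ∀ x, 0 < x → D x = D 1 := by
    intro x hx
    rcases le_total x 1 with h1 | h1
    · exact hDconst x 1 hx h1
    · exact (hDconst 1 x one_pos h1).symm
  -- the limit at zero
  have hP0 : P 0 = LL ell N e w := by
    simp only [hP]
    unfold LL
    refine Finset.sum_congr rfl fun k _ => ?_
    have hN := h.ang.pos
    rw [hC.ell_eq N hN (sh k e) (LabA.per_sh hper k) w h.hw]
    have h3 : sh 1 (sh k e) = sh (k + 1) e := by
      funext j
      unfold sh
      congr 1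
      ring
    have h4 : sh k e 0 = e k := by
      unfold sh
      rw [zero_add]
    rw [h3, h4, mul_zero, Real.exp_zero, hL0 k, ← zz_eq_Z h hC (k + 1)]
    norm_num
    ring
  have hlim0 : Tendsto D (𝓝[>] 0) (𝓝 (Λ - P 0)) := by
    have h1 : Tendsto (fun x : ℝ => F (2 ^ N * (x : ℂ)) - F x) (𝓝[>] 0) (𝓝 Λ) :=
      hF3.comp (LabA.tendsto_real_Sk (half_pos h.kpos))
    have h2 : Tendsto P (𝓝[>] 0) (𝓝 (P 0)) :=
      (hPcont 0 (mem_Ici.2 le_rfl)).tendsto.mono_left (nhdsWithin_mono _ Ioi_subset_Ici_self)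
    refine (h1.sub h2).congr fun x => ?_
    simp only [hD]
    push_cast
    ring
  have hlim0' : Tendsto D (𝓝[>] 0) (𝓝 (D 1)) := by
    refine tendsto_const_nhds.congr' ?_
    filter_upwards [self_mem_nhdsWithin] with x hx
    exact (hD1 x hx).symm
  have hΛ : Λ - P 0 = D 1 := tendsto_nhds_unique hlim0 hlim0'
  -- the limit at infinity
  obtain ⟨κ₀, hκ₀⟩ := F_asym h hF hF2
  have hN2 : Tendsto (fun x : ℝ => 2 ^ N * x) atTop atTop :=
    tendsto_id.const_mul_atTop (by positivity)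
  have hA : Tendsto (fun x : ℝ => (F ((2 ^ N * x : ℝ) : ℂ) - (2 ^ N * x : ℝ)) - (F x - x))
      atTop (𝓝 0) := by
    have := (hκ₀.comp hN2).sub hκ₀
    rw [sub_self] at this
    exact this
  have hB : Tendsto (fun x : ℝ => ∑ k ∈ Finset.range N, (L k (2 ^ k * x) +
      ((Real.log (Real.exp (2 ^ k * x) + 1) - 2 ^ k * x : ℝ) : ℂ))) atTop (𝓝 0) := by
    have h1 : Tendsto (fun x : ℝ => ∑ k ∈ Finset.range N, (L k (2 ^ k * x) +
      ((Real.log (Real.exp (2 ^ k * x) + 1) - 2 ^ k * x : ℝ) : ℂ))) atTop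
        (𝓝 (∑ k ∈ Finset.range N, ((0 : ℂ) + ((0 : ℝ) : ℂ)))) := by
      refine tendsto_finsetSum _ fun k _ => ?_
      have hk2 : Tendsto (fun x : ℝ => 2 ^ k * x) atTop atTop :=
        tendsto_id.const_mul_atTop (by positivity)
      refine ((hL k).lim.comp hk2).add ?_
      exact (continuous_ofReal.tendsto 0).comp (tendsto_log_exp_add_one.comp hk2)
    simpa using h1
  have hgeom : ∀ x : ℝ, (∑ k ∈ Finset.range N, 2 ^ k * x) = 2 ^ N * x - x := by
    intro x
    rw [← Finset.sum_mul]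
    have : ∀ n : ℕ, (∑ k ∈ Finset.range n, (2 : ℝ) ^ k) = 2 ^ n - 1 := by
      intro n
      induction n with
      | zero => simp
      | succ n ih => rw [Finset.sum_range_succ, ih]; ring
    rw [this N]; ring
  have hlimI : Tendsto D atTop (𝓝 (-(∑ k ∈ Finset.range N, (θ k : ℂ)) * tpi)) := by
    have h1 := (hA.sub hB).add_const (-(∑ k ∈ Finset.range N, (θ k : ℂ)) * tpi)
    rw [sub_zero, zero_add] at h1
    refine h1.congr fun x => ?_
    simp only [hD, hP]
    have h2 := hgeom x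
    have h3 : (∑ k ∈ Finset.range N, ((2 : ℂ) ^ k * (x : ℂ))) = 2 ^ N * x - x := by
      have := congrArg (fun r : ℝ => (r : ℂ)) h2
      push_cast at this
      exact this
    rw [Finset.sum_add_distrib, Finset.sum_add_distrib, Finset.sum_add_distrib,
      ← Finset.sum_mul]
    push_cast
    rw [Finset.sum_sub_distrib, h3]
    ring
  have hlimI' : Tendsto D atTop (𝓝 (D 1)) := by
    refine tendsto_const_nhds.congr' ?_
    filter_upwards [eventually_gt_atTop 0] with x hx
    exact (hD1 x hx).symm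
  have hD1e : D 1 = -(∑ k ∈ Finset.range N, (θ k : ℂ)) * tpi := tendsto_nhds_unique hlimI' hlimI
  have hth : (∑ k ∈ Finset.range N, (θ k : ℂ)) = ((∑ k ∈ Finset.range N, a k : ℤ) : ℂ) := by
    have := congrArg (fun r : ℝ => (r : ℂ)) (sum_theta h)
    push_cast at this
    push_cast
    exact this
  rw [hth] at hD1e
  rw [← hP0, eq_add_of_sub_eq hΛ, hD1e]
  ring

end

theorem ident : S_IDENT := by
  intro G B cc lam Z ell hb hl hC w hw N e θ a κ β zz Λ hper hang hκ hside hfree hsec hland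
  have h : Ctx G B cc lam w N e θ a κ β zz :=
    ⟨hb, hl, hw, hang, hκ, hside, hfree, hsec, hland.lim⟩
  obtain ⟨F, hF, hF2, hF3⟩ := hland.lam
  refine ⟨?_, Lambda_eq h hC hper hF hF2 hF3⟩
  have := zz_eq_Z h hC 0
  rw [this]
  congr 1

end Pool.Agent.KS6_23.ML.IDENT
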