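import Pool.Agent.KS6_23.ML.Curve
import Pool.Agent.KS6_23.ML.LAND

set_option autoImplicit false

/-! # Project ML: an open and closed set of periodic points over `M` contains a parameter of the
boundary of `M` -/

open Complex Set Filter Metric Topology MeasureTheory

namespace Pool.Agent.KS6_23.ML.INT

open Pool.Agent.KS6_23.ML Pool.Agent.KS6_23.ML.Basic Pool.Agent.KS6_23.ML.LabC
open Pool.Agent.KS6_23.ML.Curve

theorem finite_logs {t r : ℝ} (hr : r ≤ dZ t) (v : ℂ) :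
    {s : ℂ | s ∈ ball (tpi * (t : ℂ)) r ∧ exp s = v}.Subsingleton := by
  rintro s ⟨h1, h2⟩ s' ⟨h3, h4⟩
  have h5 : exp s = exp s' := by rw [h2, h4]
  rw [exp_eq_iff] at h5
  obtain ⟨k, hk⟩ := h5
  have h6 : ‖(k : ℂ) * tpi‖ < 2 * r := by
    have : (k : ℂ) * tpi = (s - tpi * t) - (s' - tpi * t) := by rw [hk]; ring
    rw [this]
    rw [mem_ball, dist_eq_norm] at h1 h3
    refine (norm_sub_le _ _).trans_lt ?_
    linarith
  have h7 : dZ t ≤ 1 / 2 := abs_sub_round t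
  have hk0 : k = 0 := by
    by_contra hne
    rw [norm_mul, norm_tpi] at h6
    have h8 : (1 : ℝ) ≤ ‖((k : ℤ) : ℂ)‖ := by
      rw [Complex.norm_intCast]
      have : 1 ≤ |k| := Int.one_le_abs hne
      exact_mod_cast this
    have := Real.pi_gt_three
    nlinarith
  rw [hk, hk0]
  simp

theorem finite_sF {n : ℕ} (hn : 1 ≤ n) {t r : ℝ} (hr : r ≤ dZ t) {F : Set ℂ} (hF : F.Finite) :
    {s : ℂ | ∃ c ∈ F, ∃ z, (c, z, s) ∈ XX n (ball (tpi * t) r)}.Finite := by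
  have h1 : (⋃ c ∈ F, ⋃ z ∈ {z : ℂ | (f c)^[n] z = z},
      {s : ℂ | s ∈ ball (tpi * (t : ℂ)) r ∧ exp s = mul n c z}).Finite :=
    hF.biUnion fun c _ => (LAND.finite_fix c hn).biUnion fun z _ => (finite_logs hr _).finite
  refine h1.subset ?_
  rintro s ⟨c, hc, z, h2, h3, h4⟩
  simp only [mem_iUnion]
  exact ⟨c, hc, z, h3, h2, h4.symm⟩

theorem int (hBase : S_BASE) (hFr : S_FRO) (hT : S_TRV) (hX : S_XLOC) (hK : S_XCPT)
    (hCn : S_CNTN) : S_INT := by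
  intro n t r hn hr hrt F hF A hA hA1 hA2
  obtain ⟨G, B, cc, hB⟩ := hBase
  have hMc : IsClosed MM := MM_closed hB
  by_contra hcon
  push Not at hcon
  set D : Set ℂ := ball (tpi * (t : ℂ)) r with hD
  have hDo : IsOpen (D ∩ HP) := isOpen_ball.inter isOpen_HP
  -- openness of `A`
  have hop : ∀ x ∈ A, ∀ᶠ y in 𝓝 x, y ∈ XX n (D ∩ HP) → y ∈ A := by
    intro x hx
    obtain ⟨h1, h2⟩ := hA1 x hx
    have h3 := (hA2 x h1 h2).1 hx
    have h4 : x.1 ∈ interior MM := by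
      by_contra h
      exact hcon x hx ⟨subset_closure h2.1, h⟩
    have h5 : ∀ᶠ y : ℂ × ℂ × ℂ in 𝓝 x, y.1 ∈ MM :=
      (continuous_fst.tendsto x).eventually_mem (mem_interior_iff_mem_nhds.1 h4)
    have h6 : ∀ᶠ y : ℂ × ℂ × ℂ in 𝓝 x, y.1 ∈ (Fᶜ : Set ℂ) :=
      (continuous_fst.tendsto x).eventually_mem (hF.isClosed.isOpen_compl.mem_nhds h2.2)
    filter_upwards [h3, h5, h6] with y g1 g2 g3 g4
    exact g1 g4 ⟨g2, g3⟩
  -- closedness off the fibres of `F`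
  have hcl : ∀ x ∈ XX n (D ∩ HP), x.1 ∉ F → x ∉ A → ∀ᶠ y in 𝓝 x, y ∈ XX n (D ∩ HP) → y ∉ A := by
    intro x hx hxF hxA
    by_cases hxM : x.1 ∈ MM
    · have h3 := (hA2 x hx ⟨hxM, hxF⟩).2 hxA
      filter_upwards [h3] with y g1 g2 g3
      exact g1 g2 (hA1 y g3).2 g3
    · have h5 : ∀ᶠ y : ℂ × ℂ × ℂ in 𝓝 x, y.1 ∈ (MMᶜ : Set ℂ) :=
        (continuous_fst.tendsto x).eventually_mem (hMc.isOpen_compl.mem_nhds hxM)
      filter_upwards [h5] with y g1 g2 g3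
      exact g1 (hA1 y g3).2.1
  -- limits
  have hlim : ∀ x : ℕ → ℂ × ℂ × ℂ, (∀ k, x k ∈ A) → ∀ s, Tendsto (fun k => (x k).2.2) atTop (𝓝 s) →
      ∃ (a : ℂ × ℂ × ℂ) (φ : ℕ → ℕ), StrictMono φ ∧ Tendsto (x ∘ φ) atTop (𝓝 a) ∧ a.2.2 = s ∧
      a ∈ XX n univ := fun x hx s hs => xlim hK hn
    (fun k => XX_mono (subset_univ _) (hA1 _ (hx k)).1) hs
  set SF : Set ℂ := {s : ℂ | ∃ c ∈ F, ∃ z, (c, z, s) ∈ XX n (ball (tpi * t) r)} with hSF
  have hSFfin : SF.Finite := finite_sF hn hrt hF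
  -- values of `s` on `A` are open
  have hval : ∀ x ∈ A, ∀ᶠ s in 𝓝 x.2.2, ∃ y ∈ A, y.2.2 = s := by
    intro x hx
    have h1 := (hA1 x hx).1
    have h2 : ∀ᶠ y in 𝓝 x, y ∈ XX n univ → y ∈ A := by
      have h3 : ∀ᶠ y : ℂ × ℂ × ℂ in 𝓝 x, y.2.2 ∈ D ∩ HP :=
        ((continuous_snd.comp continuous_snd).tendsto x).eventually_mem (hDo.mem_nhds h1.1)
      filter_upwards [hop x hx, h3] with y g1 g2 g3
      exact g1 ⟨g2, g3.2⟩
    have h3 := sigma_open hX hCn hn (XX_mono (subset_univ _) h1) (exp_ne_one hrt h1.1.1) h2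
    filter_upwards [h3] with s hs
    obtain ⟨y, _, hy1, hy2⟩ := hs
    exact ⟨y, hy2, hy1⟩
  -- a starting point with a good imaginary part
  obtain ⟨x₁, hx₁⟩ := hA
  have him : (Complex.im '' SF).Finite := hSFfin.image _
  obtain ⟨x₂, hx₂, hx₂s⟩ : ∃ x ∈ A, x.2.2.im ∉ Complex.im '' SF := by
    obtain ⟨ε, hε, hball⟩ := Metric.eventually_nhds_iff_ball.1 (hval x₁ hx₁)
    have hinf : (Ioo (x₁.2.2.im) (x₁.2.2.im + ε)).Infinite := Ioo_infinite (by linarith)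
    obtain ⟨v, hv1, hv2⟩ := hinf.exists_notMem_finite him
    have hmem : (⟨x₁.2.2.re, v⟩ : ℂ) ∈ ball x₁.2.2 ε := by
      rw [mem_ball, dist_eq_norm]
      have : (⟨x₁.2.2.re, v⟩ : ℂ) - x₁.2.2 = ((v - x₁.2.2.im : ℝ) : ℂ) * I := by
        apply Complex.ext <;> simp
      rw [this, norm_mul, norm_I, norm_real, Real.norm_eq_abs, mul_one, abs_lt]
      constructor <;> linarith [hv1.1, hv1.2]
    obtain ⟨y, hy, hys⟩ := hball _ hmem
    refine ⟨y, hy, ?_⟩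
    rw [hys]
    exact hv2
  set v : ℝ := x₂.2.2.im with hv
  have hx₂1 := (hA1 x₂ hx₂).1
  have hre₂ : 0 < x₂.2.2.re := hx₂1.1.2
  have hin : ∀ τ : ℝ, 0 ≤ τ → τ ≤ x₂.2.2.re → (⟨τ, v⟩ : ℂ) ∈ D := by
    intro τ h1 h2
    have h3 : x₂.2.2 ∈ D := hx₂1.1.1
    rw [hD, mem_ball, dist_eq_norm] at h3 ⊢
    refine lt_of_le_of_lt ?_ h3
    have e1 : (tpi * (t : ℂ)).re = 0 := by rw [_root_.mul_comm, real_mul_tpi_re]
    rw [Complex.norm_def, Complex.norm_def]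
    apply Real.sqrt_le_sqrt
    rw [normSq_apply, normSq_apply, sub_re, sub_im, sub_re, sub_im, e1]
    have e2 : (⟨τ, v⟩ : ℂ).re = τ := rfl
    have e3 : (⟨τ, v⟩ : ℂ).im = v := rfl
    rw [e2, e3, hv]
    nlinarith
  -- the segment
  set u : Set ℝ := {τ | 0 < τ ∧ ∃ x ∈ A, x.2.2 = ⟨τ, v⟩} with hu
  have huo : IsOpen u := by
    rw [isOpen_iff_mem_nhds]
    rintro τ ⟨h1, x, hx, hxs⟩
    have h2 := hval x hx
    rw [hxs] at h2
    have h3 : Continuous fun τ : ℝ => (⟨τ, v⟩ : ℂ) := by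
      have : (fun τ : ℝ => (⟨τ, v⟩ : ℂ)) = fun τ : ℝ => (τ : ℂ) + v * I := by
        funext τ
        exact Complex.mk_eq_add_mul_I _ _
      rw [this]
      fun_prop
    filter_upwards [h3.continuousAt.eventually h2, lt_mem_nhds h1] with τ' g1 g2
    obtain ⟨y, hy, hys⟩ := g1
    exact ⟨g2, y, hy, hys⟩
  have hseg : Ioc 0 x₂.2.2.re ⊆ u := by
    refine isPreconnected_Ioc.subset_of_closure_inter_subset huo
      ⟨x₂.2.2.re, ⟨hre₂, le_rfl⟩, hre₂, x₂, hx₂, rfl⟩ ?_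
    rintro τ ⟨h1, h2, h3⟩
    obtain ⟨τs, hτs, hτlim⟩ := mem_closure_iff_seq_limit.1 h1
    choose hpos x hx hxs using hτs
    have hs : Tendsto (fun k => (x k).2.2) atTop (𝓝 (⟨τ, v⟩ : ℂ)) := by
      have : (fun k => (x k).2.2) = fun k => ((τs k : ℝ) : ℂ) + v * I := by
        funext k
        rw [hxs k, Complex.mk_eq_add_mul_I]
      rw [this]
      have e1 : (⟨τ, v⟩ : ℂ) = (τ : ℂ) + v * I := Complex.mk_eq_add_mul_I _ _
      rw [e1]
      exact ((Complex.continuous_ofReal.tendsto τ).comp hτlim).add_const _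
    obtain ⟨a, φ, hφ, ha1, ha2, ha3⟩ := hlim x hx _ hs
    have haX : a ∈ XX n (D ∩ HP) := by
      refine ⟨?_, ha3.2⟩
      rw [ha2]
      exact ⟨hin τ h2.le h3, h2⟩
    have haF : a.1 ∉ F := by
      intro h
      apply hx₂s
      refine ⟨a.2.2, ⟨a.1, h, a.2.1, haX.1.1, haX.2⟩, ?_⟩
      rw [ha2]
    have haA : a ∈ A := by
      by_contra h
      have h4 := ha1.eventually (hcl a haX haF h)
      obtain ⟨k, hk⟩ := h4.exists
      exact hk (hA1 _ (hx _)).1 (hx _)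
    exact ⟨h2, a, haA, ha2⟩
  -- the limit at the imaginary axis
  set s₀ : ℂ := ⟨0, v⟩ with hs₀
  have hs₀D : s₀ ∈ D := hin 0 le_rfl hre₂.le
  have hseq : ∀ k : ℕ, ∃ x ∈ A, x.2.2 = ⟨x₂.2.2.re / (k + 1), v⟩ := by
    intro k
    have hk : (0 : ℝ) < k + 1 := by positivity
    have hm : x₂.2.2.re / (k + 1) ∈ Ioc 0 x₂.2.2.re := by
      refine ⟨by positivity, ?_⟩
      rw [div_le_iff₀ hk]
      have : (0 : ℝ) ≤ k := Nat.cast_nonneg k
      nlinarith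
    exact (hseg hm).2
  choose x hx hxs using hseq
  have hs : Tendsto (fun k => (x k).2.2) atTop (𝓝 s₀) := by
    have : (fun k => (x k).2.2) = fun k : ℕ => ((x₂.2.2.re / (k + 1) : ℝ) : ℂ) + v * I := by
      funext k
      rw [hxs k, Complex.mk_eq_add_mul_I]
    rw [this]
    have e1 : s₀ = ((0 : ℝ) : ℂ) + v * I := by rw [hs₀, Complex.mk_eq_add_mul_I]
    rw [e1]
    refine ((Complex.continuous_ofReal.tendsto 0).comp ?_).add_const _
    have h1 := tendsto_one_div_add_atTop_nhds_zero_nat (𝕜 := ℝ)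
    have h2 := h1.const_mul x₂.2.2.re
    rw [mul_zero] at h2
    refine h2.congr fun k => ?_
    ring
  obtain ⟨a, φ, hφ, ha1, ha2, ha3⟩ := hlim x hx _ hs
  have hane : exp a.2.2 ≠ 1 := by
    rw [ha2]
    exact exp_ne_one hrt hs₀D
  have hnorm : ‖mul n a.1 a.2.1‖ = 1 := by
    rw [ha3.2.2, ha2, norm_exp]
    simp [hs₀]
  have hmne : mul n a.1 a.2.1 ≠ 1 := by
    rw [ha3.2.2]
    exact hane
  have hunr : Unr n a := by
    intro ζ h1 h2 h3
    exact hT n a.1 a.2.1 ζ hn ha3.2.1 (by rw [ha3.2.2]; exact exp_ne_zero _) hmne hnorm.le h1 h2 h3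
  obtain ⟨ε, ψ, ζ, hε, hψ, hζ, hψ0, hζ0, hmem, η, hη, huni⟩ := xsec hX hn ha3 hane hunr
  rw [ha2] at hψ hζ hψ0 hζ0 hmem huni
  -- a small half disc
  have hsmall : ∃ ε' : ℝ, 0 < ε' ∧ ε' ≤ ε ∧ ball s₀ ε' ⊆ D ∧ ∀ s ∈ ball s₀ ε', 0 < s.re → s ∉ SF := by
    have h1 : D ∈ 𝓝 s₀ := isOpen_ball.mem_nhds hs₀D
    obtain ⟨ε₁, hε₁, hb⟩ := Metric.mem_nhds_iff.1 h1
    have h2 : (SF \ {s₀})ᶜ ∈ 𝓝 s₀ :=
      (hSFfin.subset sdiff_subset).isClosed.isOpen_compl.mem_nhds (by simp)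
    obtain ⟨ε₂, hε₂, hb2⟩ := Metric.mem_nhds_iff.1 h2
    refine ⟨min ε (min ε₁ ε₂), by positivity, min_le_left _ _, ?_, ?_⟩
    · exact (ball_subset_ball ((min_le_right _ _).trans (min_le_left _ _))).trans hb
    · intro s hs hsre hsF
      have h3 := hb2 (ball_subset_ball ((min_le_right _ _).trans (min_le_right _ _)) hs)
      apply h3
      refine ⟨hsF, ?_⟩
      intro h4
      rw [mem_singleton_iff] at h4
      rw [h4] at hsre
      simp [hs₀] at hsre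
  obtain ⟨ε', hε', hεε, hbD, hbF⟩ := hsmall
  set H : ℂ → ℂ × ℂ × ℂ := fun s => (ψ s, ζ s, s) with hH
  have hHc : ∀ s ∈ ball s₀ ε, ContinuousAt H s := by
    intro s hs
    have hn1 := isOpen_ball.mem_nhds hs
    exact (hψ.differentiableAt hn1).continuousAt.prodMk
      ((hζ.differentiableAt hn1).continuousAt.prodMk continuousAt_id)
  have hHX : ∀ s ∈ ball s₀ ε' ∩ HP, H s ∈ XX n (D ∩ HP) := by
    rintro s ⟨h1, h2⟩
    exact ⟨⟨hbD h1, h2⟩, (hmem s (ball_subset_ball hεε h1)).1.2⟩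
  set W : Set ℂ := {s | s ∈ ball s₀ ε' ∩ HP ∧ H s ∈ A} with hW
  have hWo : IsOpen W := by
    rw [isOpen_iff_mem_nhds]
    rintro s ⟨h1, h2⟩
    have h3 := (hHc s (ball_subset_ball hεε h1.1)).eventually (hop _ h2)
    have h4 : ∀ᶠ s' in 𝓝 s, s' ∈ ball s₀ ε' ∩ HP := (isOpen_ball.inter isOpen_HP).mem_nhds h1
    filter_upwards [h3, h4] with s' g1 g2
    exact ⟨g2, g1 (hHX s' g2)⟩
  have hWall : ball s₀ ε' ∩ HP ⊆ W := by
    have hconv : Convex ℝ (ball s₀ ε' ∩ HP) :=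
      (convex_ball _ _).inter (convex_halfSpace_gt (f := Complex.re)
        { map_add := fun _ _ => add_re _ _, map_smul := fun _ _ => by simp } 0)
    refine hconv.isPreconnected.subset_of_closure_inter_subset hWo ?_ ?_
    · -- a point of the sequence
      have h1 : ∀ᶠ k in atTop, dist ((x ∘ φ) k) a < η := ha1.eventually (ball_mem_nhds a hη)
      have h2 : ∀ᶠ k in atTop, (x (φ k)).2.2 ∈ ball s₀ ε' :=
        (hs.comp hφ.tendsto_atTop).eventually (ball_mem_nhds s₀ hε')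
      obtain ⟨k, hk1, hk2⟩ := (h1.and h2).exists
      have h3 := hA1 _ (hx (φ k))
      obtain ⟨_, h4⟩ := huni _ (XX_mono (subset_univ _) h3.1) hk1
      have hmm : (x (φ k)).2.2 ∈ ball s₀ ε' ∩ HP := ⟨hk2, h3.1.1.2⟩
      refine ⟨(x (φ k)).2.2, hmm, hmm, ?_⟩
      have h5 : H (x (φ k)).2.2 = x (φ k) := h4.symm
      rw [h5]
      exact hx _
    · rintro s ⟨h1, h2⟩
      refine ⟨h2, ?_⟩
      by_contra hHs
      have hHF : (H s).1 ∉ F := by
        intro h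
        refine hbF s h2.1 h2.2 ⟨(H s).1, h, (H s).2.1, ?_⟩
        exact ⟨hbD h2.1, (hHX s h2).2⟩
      have h3 := (hHc s (ball_subset_ball hεε h2.1)).eventually (hcl _ (hHX s h2) hHF hHs)
      obtain ⟨s', g1, g2⟩ := (mem_closure_iff_frequently.1 h1).and_eventually h3 |>.exists
      exact g2 (hHX s' g1.1) g1.2
  -- the parameters near `a.1` are in `M`
  have hnear : MM ∈ 𝓝 a.1 := by
    obtain ⟨δ, ζ', σ, hδ, hζ', hσ', hζ0', hσ0', e1, e2⟩ := hX n a.1 a.2.1 a.2.2 hn ha3.2.1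
      ha3.2.2 hane
    have hn0 := ball_mem_nhds a.1 hδ
    have hg : ContinuousAt (fun c : ℂ => ((c, ζ' c, σ c) : ℂ × ℂ × ℂ)) a.1 :=
      continuousAt_id.prodMk ((hζ'.differentiableAt hn0).continuousAt.prodMk
        (hσ'.differentiableAt hn0).continuousAt)
    have hg0 : ((a.1, ζ' a.1, σ a.1) : ℂ × ℂ × ℂ) = a := by rw [hζ0', hσ0']
    have h1 : ∀ᶠ c in 𝓝 a.1, dist ((c, ζ' c, σ c) : ℂ × ℂ × ℂ) a < η := by
      have h2 := hg.tendsto
      rw [hg0] at h2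
      exact h2.eventually (ball_mem_nhds a hη)
    have h2 : ∀ᶠ c in 𝓝 a.1, σ c ∈ ball s₀ ε' := by
      refine (hσ'.differentiableAt hn0).continuousAt.eventually_mem ?_
      rw [hσ0', ha2]
      exact ball_mem_nhds _ hε'
    filter_upwards [hn0, h1, h2] with c g1 g2 g3
    obtain ⟨k1, k2⟩ := e1 c g1
    by_cases hre : 0 < (σ c).re
    · have h5 : ((c, ζ' c, σ c) : ℂ × ℂ × ℂ) ∈ XX n univ := ⟨mem_univ _, k1, k2⟩
      obtain ⟨_, h6⟩ := huni _ h5 g2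
      have h7 := hWall ⟨g3, hre⟩
      have h8 : H (σ c) = (c, ζ' c, σ c) := h6.symm
      have h9 := (hA1 _ h7.2).2.1
      rw [h8] at h9
      exact h9
    · refine (hFr n c (ζ' c) hn k1 ?_).1
      rw [k2, norm_exp]
      exact Real.exp_le_one_iff.2 (not_lt.1 hre)
  have hfin := (hFr n a.1 a.2.1 hn ha3.2.1 hnorm.le).2 hnorm hmne
  obtain ⟨c, hc1, hc2⟩ := (mem_closure_iff_frequently.1 hfin).and_eventually hnear |>.exists
  exact hc1 hc2

end Pool.Agent.KS6_23.ML.INT
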