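import Pool.Agent.KS6_23.ML.LabB

set_option autoImplicit false

/-! # Project ML: every label occurs -/

open Complex Set Filter Metric Topology MeasureTheory

namespace Pool.Agent.KS6_23.ML.LabD

open Pool.Agent.KS6_23.ML Pool.Agent.KS6_23.ML.Basic Pool.Agent.KS6_23.ML.LabA
open Pool.Agent.KS6_23.ML.LabB

theorem surj_of_shift {ρ : ℝ → ℝ} (hc : Continuous ρ) {n : ℕ} (hn : 1 ≤ n)
    (h : ∀ η, ρ (η + 2) = ρ η + n) : Function.Surjective ρ := by
  have hnat : ∀ (k : ℕ) (η : ℝ), ρ (η + 2 * k) = ρ η + n * k := by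
    intro k
    induction k with
    | zero => intro η; simp
    | succ k ih =>
      intro η
      have : η + 2 * ((k + 1 : ℕ) : ℝ) = (η + 2 * k) + 2 := by push_cast; ring
      rw [this, h, ih]
      push_cast
      ring
  have h1 : ∀ y : ℝ, ∃ a, y ≤ ρ a := by
    intro y
    obtain ⟨k, hk⟩ := exists_nat_ge (y - ρ 0)
    refine ⟨0 + 2 * k, ?_⟩
    rw [hnat]
    have : (1 : ℝ) ≤ n := by exact_mod_cast hn
    have hk0 : (0 : ℝ) ≤ k := Nat.cast_nonneg k
    nlinarith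
  have h2 : ∀ y : ℝ, ∃ a, ρ a ≤ y := by
    intro y
    obtain ⟨k, hk⟩ := exists_nat_ge (ρ 0 - y)
    refine ⟨-(2 * k), ?_⟩
    have := hnat k (-(2 * k))
    rw [neg_add_cancel] at this
    have h1 : (1 : ℝ) ≤ n := by exact_mod_cast hn
    have hk0 : (0 : ℝ) ≤ k := Nat.cast_nonneg k
    nlinarith
  intro y
  obtain ⟨a, ha⟩ := h1 y
  obtain ⟨b, hb⟩ := h2 y
  have : y ∈ ρ '' (Set.univ : Set ℝ) := by
    have hcn := isPreconnected_univ.image ρ hc.continuousOn
    exact hcn.ordConnected.out ⟨b, mem_univ _, rfl⟩ ⟨a, mem_univ _, rfl⟩ ⟨hb, ha⟩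
  obtain ⟨x, _, hx⟩ := this
  exact ⟨x, hx⟩

theorem exists_gap {N : ℕ} {θ : ℕ → ℝ} {a : ℕ → ℤ} (ha : Ang N θ a) {η : ℝ}
    (h : ∀ (k : ℕ) (m : ℤ), η ≠ θ k + m) : ∃ δ : ℝ, 0 < δ ∧ ∀ (k : ℕ) (m : ℤ),
      δ ≤ |η - (θ k + m)| := by
  have hpos : ∀ k, 0 < |η - θ k - round (η - θ k)| := by
    intro k
    refine abs_pos.2 fun h0 => h k (round (η - θ k)) ?_
    linarith
  obtain ⟨k₀, hk₀, hmin⟩ := Finset.exists_min_image (Finset.range N)
    (fun k => |η - θ k - round (η - θ k)|) ⟨0, Finset.mem_range.2 ha.pos⟩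
  refine ⟨|η - θ k₀ - round (η - θ k₀)|, hpos k₀, ?_⟩
  have hmod : ∀ k, θ k = θ (k % N) := by
    intro k
    have h1 : ∀ (j i : ℕ), θ (i + N * j) = θ i := by
      intro j
      induction j with
      | zero => intro i; simp
      | succ j ih =>
        intro i
        have : i + N * (j + 1) = (i + N * j) + N := by ring
        rw [this, ha.per, ih]
    conv_lhs => rw [← Nat.mod_add_div k N]
    exact h1 _ _
  intro k m
  have h1 := hmin (k % N) (Finset.mem_range.2 (Nat.mod_lt _ ha.pos))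
  refine h1.trans ?_
  rw [← hmod k]
  have e1 : η - (θ k + m) = η - θ k - m := by ring
  rw [e1]
  exact round_le (η - θ k) m

section
variable {G : ℂ → ℂ → ℝ} {B : ℂ → ℂ → ℂ} {cc : ℂ → ℂ} {lam : ℂ → ℂ → ℂ}
  {Z ell : (ℕ → Bool) → ℂ → ℂ}

theorem label_occurs (hB : Base G B cc) (hLam : Lam B cc lam) (hC : Code G B cc lam Z ell)
    (hSec : S_SEC) (hLand : S_LAND) (hP : S_PLY) (hI : S_IDENT) (hRot : S_ROT) (hGen : S_GEN)
    {n : ℕ} (hn : 1 ≤ n) {e : ℕ → Bool} (he : Per n e) (m : ℤ) (t : ℝ) {r : ℝ} (hr : 0 < r) :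
    ∃ x ∈ XX n (ball (tpi * t) r ∩ HP), x.1 ∉ MM ∧ ∃ w, Rep cc Z ell n w e m x := by
  obtain ⟨ρ, hρc, hρs, hρv⟩ := hRot n e hn he
  have hpi := Real.pi_pos
  have hn0 : (0 : ℝ) < n := by exact_mod_cast hn
  have hlog : 0 < Real.log 2 := Real.log_pos (by norm_num)
  obtain ⟨Q, hQ⟩ := exists_nat_gt (8 * n * Real.log 2 / r)
  set K : ℕ := Nat.factorial Q with hK
  have hK0 : (0 : ℝ) < K := by exact_mod_cast Nat.factorial_pos Q
  obtain ⟨v, hv1, hv2⟩ : ∃ v : ℝ, |v - (m + t)| < r / (4 * Real.pi) ∧ Irrational v := by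
    obtain ⟨v, h1, h2, h3⟩ := exists_irrational_btwn
      (show (m + t : ℝ) < m + t + r / (4 * Real.pi) by
        have : 0 < r / (4 * Real.pi) := by positivity
        linarith)
    refine ⟨v, ?_, h1⟩
    rw [abs_lt]
    constructor <;> linarith
  set j : ℤ := ⌊K * v⌋ with hj
  set U : Set ℝ := {y | |y - (m + t)| < r / (4 * Real.pi) ∧ (j : ℝ) < K * y ∧ K * y < j + 1} with hU
  have hUo : IsOpen U := by
    have h1 : IsOpen {y : ℝ | |y - (m + t)| < r / (4 * Real.pi)} :=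
      isOpen_lt (by fun_prop) continuous_const
    have h2 : IsOpen {y : ℝ | (j : ℝ) < K * y} := isOpen_lt continuous_const (by fun_prop)
    have h3 : IsOpen {y : ℝ | K * y < (j : ℝ) + 1} := isOpen_lt (by fun_prop) continuous_const
    have : U = {y : ℝ | |y - (m + t)| < r / (4 * Real.pi)} ∩ ({y : ℝ | (j : ℝ) < K * y} ∩
        {y : ℝ | K * y < (j : ℝ) + 1}) := by
      ext y
      simp [hU]
    rw [this]
    exact h1.inter (h2.inter h3)
  have hvU : v ∈ U := by
    refine ⟨hv1, ?_, Int.lt_floor_add_one _⟩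
    refine lt_of_le_of_ne (Int.floor_le _) fun h => ?_
    have h1 : v = ((j : ℚ) / (K : ℚ) : ℚ) := by
      push_cast
      rw [eq_div_iff hK0.ne', _root_.mul_comm]
      exact h.symm
    exact hv2 ⟨_, h1.symm⟩
  obtain ⟨η₀, hη₀⟩ := surj_of_shift hρc hn hρs v
  obtain ⟨η, hηU, N, θ, a, hd, ha, hside, hdist, hne⟩ := (hGen n e hn he).inter_open_nonempty
    (ρ ⁻¹' U) (hUo.preimage hρc) ⟨η₀, by simpa [hη₀] using hvU⟩
  obtain ⟨hU1, hU2, hU3⟩ := hηU
  have hval := hρv η N θ a hd ha hside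
  set S : ℤ := ∑ k ∈ Finset.range N, a k with hS
  have hNq : N = n * (N / n) := (Nat.mul_div_cancel' hd).symm
  set q : ℕ := N / n with hq
  have hq1 : 1 ≤ q := div_pos' hn ha.pos hd
  have hq0 : (0 : ℝ) < q := by exact_mod_cast hq1
  have hρq : (S : ℝ) = q * ρ η := by
    have h1 : (N : ℝ) = n * q := by
      have : ((N : ℕ) : ℝ) = ((n * q : ℕ) : ℝ) := by rw [← hNq]
      rw [this]
      push_cast
      ring
    rw [h1, mul_assoc] at hval
    exact mul_left_cancel₀ hn0.ne' hval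
  have hqQ : Q < q := by
    by_contra hcon
    push Not at hcon
    have hdv : q ∣ K := Nat.dvd_factorial (by omega) hcon
    obtain ⟨i, hi⟩ := hdv
    have h1 : (K : ℝ) * ρ η = ((i : ℤ) * S : ℤ) := by
      have : (K : ℝ) = q * i := by rw [hi]; push_cast; ring
      rw [this]
      push_cast
      rw [hρq]
      ring
    rw [h1] at hU2 hU3
    have h2 : j < (i : ℤ) * S := by exact_mod_cast hU2
    have h3 : (i : ℤ) * S < j + 1 := by exact_mod_cast hU3
    omega
  obtain ⟨δ, hδ, hgap⟩ := exists_gap ha hne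
  set w : ℂ := ((Real.pi * δ : ℝ) : ℂ) + η * tpi with hw
  have hwre : w.re = Real.pi * δ := by rw [hw, add_re, real_mul_tpi_re, ofReal_re, add_zero]
  have hwim : w.im = 2 * Real.pi * η := by
    rw [hw, add_im, real_mul_tpi_im, ofReal_im, zero_add]
  have hwHP : w ∈ HP := by
    change 0 < w.re
    rw [hwre]
    positivity
  have hfree : Free cc (cc w) θ 2 := by
    intro w' hw' hcw k i
    obtain ⟨l, hl⟩ := cc_inj hB hwHP hw' hcw.symm
    have h1 : w'.re = Real.pi * δ := by rw [hl, add_re, int_mul_tpi_re, hwre, add_zero]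
    have h2 : w'.im = 2 * Real.pi * (η + l) := by
      rw [hl, add_im, int_mul_tpi_im, hwim]
      ring
    rw [h1, h2]
    have h3 := hgap k (i - l)
    have h4 : 2 * Real.pi * (η + l) - 2 * Real.pi * (θ k + i) =
        2 * Real.pi * (η - (θ k + ((i - l : ℤ) : ℝ))) := by
      push_cast
      ring
    rw [h4, abs_mul, abs_of_pos (by positivity : (0 : ℝ) < 2 * Real.pi)]
    calc 2 * (Real.pi * δ) = 2 * Real.pi * δ := by ring
      _ ≤ _ := by gcongr
  obtain ⟨β, hβ⟩ := hSec G B cc hB (cc w) N θ a 2 ha two_pos hfree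
  obtain ⟨zz, Λ, hL, g1, g2, g3, g4, g5⟩ := hLand G B cc hB (cc w) N θ a 2 β ha two_pos hβ
  have hside' : Side (w.im / (2 * Real.pi)) e θ := by
    have : w.im / (2 * Real.pi) = η := by
      rw [hwim]
      field_simp
    rw [this]
    exact hside
  obtain ⟨i1, i2⟩ := hI G B cc lam Z ell hB hLam hC w hwHP N e θ a 2 β zz Λ (per_dvd he hd) ha
    two_pos hside' hfree hβ hL
  have hfix := Z_fix hC hn he hwHP
  have hzj : ∀ j, zz (j * n) = zz 0 := by
    intro j
    rw [← zz_iter g1, i1]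
    exact iter_mul _ _ n hfix j
  have hply := hP G B cc hB (cc w) n N θ a 2 β zz Λ hn hd ha two_pos hβ hL hdist hzj
  have hLN : LL ell N e w = (q : ℂ) * LL ell n e w := by
    conv_lhs => rw [hNq]
    exact LL_mul hC he w q
  set Y : ℂ := LL ell n e w - tpi * (ρ η : ℂ) with hY
  have hΛY : Λ = q * Y := by
    rw [i2, hLN, hY]
    have : ((∑ k ∈ Finset.range N, a k : ℤ) : ℂ) = (q : ℂ) * (ρ η : ℂ) := by
      have h1 : ((S : ℝ) : ℂ) = ((q * ρ η : ℝ) : ℂ) := by rw [hρq]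
      push_cast at h1
      exact_mod_cast h1
    rw [this]
    ring
  have hYn : ‖Y‖ < r / 2 := by
    have h1 : Real.arctan (2 / 2) = Real.pi / 4 := by norm_num
    rw [h1, hΛY, norm_mul, norm_natCast] at hply
    have h2 : ((q : ℂ) * Y).re = q * Y.re := by simp
    rw [h2] at hply
    have h3 : Y.re ≤ ‖Y‖ := (le_abs_self _).trans (abs_re_le_norm _)
    have h4 : (Real.pi / 2 * q) * (q * ‖Y‖ ^ 2) ≤ (Real.pi / 2 * q) * (4 * n * Real.log 2 * ‖Y‖) := by
      calc (Real.pi / 2 * q) * (q * ‖Y‖ ^ 2) = 2 * (Real.pi / 4) * (q * ‖Y‖) ^ 2 := by ring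
        _ ≤ 2 * Real.pi * n * Real.log 2 * (q * Y.re) := hply
        _ ≤ 2 * Real.pi * n * Real.log 2 * (q * ‖Y‖) := by gcongr
        _ = _ := by ring
    have h5 := le_of_mul_le_mul_left h4 (by positivity)
    have h6 : q * ‖Y‖ ≤ 4 * n * Real.log 2 := by
      rcases eq_or_lt_of_le (norm_nonneg Y) with h | h
      · rw [← h, mul_zero]
        positivity
      · have h7 : (q * ‖Y‖) * ‖Y‖ ≤ (4 * n * Real.log 2) * ‖Y‖ := by
          calc (q * ‖Y‖) * ‖Y‖ = q * ‖Y‖ ^ 2 := by ring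
            _ ≤ _ := h5
        exact le_of_mul_le_mul_right h7 h
    have h7 : 8 * n * Real.log 2 / r < q := hQ.trans (by exact_mod_cast hqQ)
    rw [div_lt_iff₀ hr] at h7
    by_contra hcon
    push Not at hcon
    have h8 : q * (r / 2) ≤ q * ‖Y‖ := by gcongr
    linarith
  have hre : 0 < (LL ell n e w).re := by
    have h1 := hC.rep n hn e he w hwHP
    rw [← exp_LL hC hn he hwHP, norm_exp] at h1
    exact Real.one_lt_exp_iff.1 h1
  refine ⟨(cc w, Z e w, LL ell n e w - m * tpi), ⟨⟨?_, ?_⟩, hfix, ?_⟩, cc_not_mem hB hwHP, w,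
    he, hwHP, rfl, rfl, by ring⟩
  · rw [mem_ball, dist_eq_norm]
    simp only
    have h1 : LL ell n e w - m * tpi - tpi * t = Y + ((ρ η - (m + t) : ℝ) : ℂ) * tpi := by
      rw [hY]
      push_cast
      ring
    rw [h1]
    have h2 : ‖((ρ η - (m + t) : ℝ) : ℂ) * tpi‖ < r / 2 := by
      rw [norm_mul, norm_tpi, norm_real, Real.norm_eq_abs]
      calc |ρ η - (m + t)| * (2 * Real.pi) < r / (4 * Real.pi) * (2 * Real.pi) := by
            gcongr
        _ = r / 2 := by field_simp; ring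
    calc _ ≤ ‖Y‖ + ‖((ρ η - (m + t) : ℝ) : ℂ) * tpi‖ := norm_add_le _ _
      _ < r := by linarith
  · change 0 < (LL ell n e w - m * tpi).re
    rw [sub_re, int_mul_tpi_re, sub_zero]
    exact hre
  · simp only
    rw [← exp_LL hC hn he hwHP, exp_eq_iff]
    exact ⟨m, by ring⟩

end

end Pool.Agent.KS6_23.ML.LabD
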