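import Pool.Agent.KS6_23.ML.LabC
import Pool.Agent.KS6_23.ML.LabD

set_option autoImplicit false

/-! # Project ML: labels and classes -/

open Complex Set Filter Metric Topology MeasureTheory

namespace Pool.Agent.KS6_23.ML.LAB

open Pool.Agent.KS6_23.ML Pool.Agent.KS6_23.ML.Basic Pool.Agent.KS6_23.ML.LabA
open Pool.Agent.KS6_23.ML.LabB Pool.Agent.KS6_23.ML.LabC Pool.Agent.KS6_23.ML.LabD

theorem dZ_nn (t : ℝ) : 0 ≤ dZ t := abs_nonneg _

theorem dZ_le (t : ℝ) : dZ t ≤ 1 / 2 := abs_sub_round t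

theorem rad_pos {t : ℝ} (ht : dZ t ≠ 0) {n : ℕ} (hn : 1 ≤ n) : 0 < 1 / 4 * dZ t ^ 2 / (n : ℝ) := by
  have h1 : 0 < dZ t := lt_of_le_of_ne (dZ_nn t) (Ne.symm ht)
  have h2 : (0 : ℝ) < n := by exact_mod_cast hn
  positivity

theorem rad_le {t : ℝ} {n : ℕ} (hn : 1 ≤ n) : 1 / 4 * dZ t ^ 2 / (n : ℝ) ≤ dZ t := by
  have h1 := dZ_nn t
  have h2 := dZ_le t
  have h3 : (1 : ℝ) ≤ n := by exact_mod_cast hn
  rw [div_le_iff₀ (by linarith)]
  nlinarith

section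
variable {G : ℂ → ℂ → ℝ} {B : ℂ → ℂ → ℂ} {cc : ℂ → ℂ} {lam : ℂ → ℂ → ℂ}
  {Z ell : (ℕ → Bool) → ℂ → ℂ}

/-- the class is not an integer -/
theorem not_dvd {n : ℕ} (hn : 1 ≤ n) {t : ℝ} (ht : dZ t ≠ 0) {q : ℕ} (hq : 1 ≤ q) {p : ℤ}
    {s : ℂ} (hs : s ∈ DD (1 / 4) n t)
    (hb : ‖s - tpi * ((p / q : ℝ) : ℂ)‖ ^ 2 ≤ 2 * n * Real.log 2 / q * s.re) :
    ¬ ((q : ℤ) ∣ p) := by
  rintro ⟨k, rfl⟩
  have hq0 : (0 : ℝ) < q := by exact_mod_cast hq
  have hq1 : (1 : ℝ) ≤ q := by exact_mod_cast hq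
  have hn0 : (0 : ℝ) < n := by exact_mod_cast hn
  have h1 : ((((q : ℤ) * k : ℤ) : ℝ) / q : ℝ) = k := by
    push_cast
    field_simp
  rw [h1] at hb
  have hd := lt_of_le_of_ne (dZ_nn t) (Ne.symm ht)
  have hd2 := dZ_le t
  have hlog := Real.log_two_lt_d9
  have hlog0 : 0 < Real.log 2 := Real.log_pos (by norm_num)
  unfold DD at hs
  rw [mem_ball, dist_eq_norm] at hs
  set R : ℝ := 1 / 4 * dZ t ^ 2 / n with hR
  have hRn : R * n = 1 / 4 * dZ t ^ 2 := by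
    rw [hR]
    field_simp
  have hRle : R ≤ dZ t ^ 2 / 4 := by
    have h3 : (1 : ℝ) ≤ n := by exact_mod_cast hn
    rw [hR, div_le_iff₀ hn0]
    nlinarith [sq_nonneg (dZ t)]
  have hre : s.re < R := by
    have h2 : (s - tpi * (t : ℂ)).re = s.re := by
      rw [sub_re, _root_.mul_comm, real_mul_tpi_re, sub_zero]
    rw [← h2]
    exact lt_of_le_of_lt ((le_abs_self _).trans (abs_re_le_norm _)) hs
  have hb2 : ‖s - tpi * ((k : ℝ) : ℂ)‖ ^ 2 ≤ dZ t ^ 2 := by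
    refine hb.trans ?_
    have h2 : 2 * n * Real.log 2 / q * s.re ≤ 2 * n * Real.log 2 / q * R := by
      gcongr
    refine h2.trans ?_
    have h3 : 2 * n * Real.log 2 / q * R ≤ 2 * n * Real.log 2 * R := by
      have h4 : 0 ≤ R := by positivity
      have h5 : 2 * n * Real.log 2 / q ≤ 2 * n * Real.log 2 := div_le_self (by positivity) hq1
      gcongr
    refine h3.trans ?_
    have h4 : 2 * n * Real.log 2 * R = 2 * Real.log 2 * (R * n) := by ring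
    rw [h4, hRn]
    nlinarith [sq_nonneg (dZ t)]
  have hb3 : ‖s - tpi * ((k : ℝ) : ℂ)‖ ≤ dZ t := by
    nlinarith [norm_nonneg (s - tpi * ((k : ℝ) : ℂ))]
  have h2 := dist_tpi_int (t := t) k
  have h3 : ‖tpi * (t : ℂ) - k * tpi‖ ≤ ‖s - tpi * t‖ + ‖s - tpi * ((k : ℝ) : ℂ)‖ := by
    have : tpi * (t : ℂ) - k * tpi = (s - tpi * ((k : ℝ) : ℂ)) - (s - tpi * t) := by
      push_cast
      ring
    rw [this]
    refine (norm_sub_le _ _).trans ?_
    linarith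
  have := Real.pi_gt_three
  nlinarith

/-- the relation between points and labels -/
def RL (G : ℂ → ℂ → ℝ) (B : ℂ → ℂ → ℂ) (cc : ℂ → ℂ) (Z ell : (ℕ → Bool) → ℂ → ℂ) (n : ℕ)
    (D : Set ℂ) (x : ℂ × ℂ × ℂ) (i : (Fin (n - 1) → Bool) × ZMod n) : Prop :=
  (x.1 ∉ MM ∧ ∃ w e m, Rep cc Z ell n w e m x ∧ lb n e m = i) ∨
  (x.1 ∈ MM ∧ ∃ (N : ℕ) (θ : ℕ → ℝ) (a : ℕ → ℤ) (p : ℤ), n ∣ N ∧ Ang N θ a ∧ Dist n N θ ∧
    LM G B n N θ p x ∧ ∃ y ∈ XX n D, y.1 ∉ MM ∧ LE G B cc n N θ p y ∧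
      ∃ w e m, Rep cc Z ell n w e m y ∧ lb n e m = i)

end

/-- all the hypotheses -/
structure Hyp : Prop where
  base : S_BASE
  lam : S_LAM
  code : S_CODE
  sec : S_SEC
  land : S_LAND
  ply : S_PLY
  stab : S_STAB
  dlt : S_DLT
  ident : S_IDENT
  rot : S_ROT
  gen : S_GEN
  comb : S_COMB
  cntn : S_CNTN
  xloc : S_XLOC
  int : S_INT

theorem LM_not_dvd {G : ℂ → ℂ → ℝ} {B : ℂ → ℂ → ℂ} {cc : ℂ → ℂ} (hB : Base G B cc) (H : Hyp)
    {n N : ℕ} (hn : 1 ≤ n) {θ : ℕ → ℝ} {a : ℕ → ℤ} {p : ℤ} (hd : n ∣ N) (ha : Ang N θ a)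
    (hdist : Dist n N θ) {t : ℝ} (ht : dZ t ≠ 0) {x : ℂ × ℂ × ℂ}
    (hx : x ∈ XX n (DD (1 / 4) n t ∩ HP)) (hc : x.1 ∈ MM) (hL : LM G B n N θ p x) :
    ¬ (((N / n : ℕ) : ℤ) ∣ p) := by
  have hb := LM_bound hB H.sec H.land H.ply hn hd ha hdist hx hc hL
  exact not_dvd hn ht (div_pos' hn ha.pos hd) hx.1.1 hb

theorem lab (H : Hyp) : S_LAB := by
  obtain ⟨G, B, cc, hB⟩ := H.base
  obtain ⟨lam, hLam⟩ := H.lam G B cc hB
  obtain ⟨Z, ell, hC⟩ := H.code G B cc lam hB hLam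
  refine ⟨1 / 4, by norm_num, by norm_num, fun n t hn ht => ?_⟩
  set D : Set ℂ := DD (1 / 4) n t ∩ HP with hD
  have hr0 := rad_pos ht hn
  have hrt := rad_le (t := t) hn
  have : NeZero n := ⟨by omega⟩
  -- existence
  have hex : ∀ x ∈ XX n D, ∃ i, RL G B cc Z ell n D x i := by
    intro x hx
    by_cases hc : x.1 ∈ MM
    · obtain ⟨N, θ, a, p, hd, ha, hdist, hL⟩ := exists_LM hB H.sec H.land H.stab H.dlt hn hx hc
      obtain ⟨y, hy, hyc, hE, _⟩ := common_exterior hB H.sec H.land H.stab H.ply H.xloc H.int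
        H.cntn hn hd hd ha ha hr0 hrt hx hc hL hL
      obtain ⟨w, hw, hcw⟩ := hB.psurj y.1 hyc
      obtain ⟨e, m, hR⟩ := rep_exists hB hC hn hy hw hcw
      exact ⟨lb n e m, Or.inr ⟨hc, N, θ, a, p, hd, ha, hdist, hL, y, hy, hyc, hE, w, e, m, hR, rfl⟩⟩
    · obtain ⟨w, hw, hcw⟩ := hB.psurj x.1 hc
      obtain ⟨e, m, hR⟩ := rep_exists hB hC hn hx hw hcw
      exact ⟨lb n e m, Or.inl ⟨hc, w, e, m, hR, rfl⟩⟩
  -- uniqueness
  have huniq : ∀ x ∈ XX n D, ∀ i i', RL G B cc Z ell n D x i → RL G B cc Z ell n D x i' → i = i' := by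
    intro x hx i i' h h'
    rcases h with ⟨hc, w, e, m, hR, rfl⟩ | ⟨hc, N, θ, a, p, hd, ha, hdist, hL, y, hy, hyc, hE,
      w, e, m, hR, rfl⟩
    · rcases h' with ⟨hc', w', e', m', hR', rfl⟩ | ⟨hc', _⟩
      · exact lb_unique hB hC hn hx hR hR'
      · exact absurd hc' hc
    · rcases h' with ⟨hc', _⟩ | ⟨hc', N', θ', a', p', hd', ha', hdist', hL', y', hy', hyc', hE',
        w', e', m', hR', rfl⟩
      · exact absurd hc hc'
      · obtain ⟨v, hv, hvc, hv1, hv2⟩ := common_exterior hB H.sec H.land H.stab H.ply H.xloc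
          H.int H.cntn hn hd hd' ha ha' hr0 hrt hx hc hL hL'
        obtain ⟨w'', hw'', hcw''⟩ := hB.psurj v.1 hvc
        obtain ⟨e'', m'', hR''⟩ := rep_exists hB hC hn hv hw'' hcw''
        have hp := LM_not_dvd hB H hn hd ha hdist ht hx hc hL
        have hp' := LM_not_dvd hB H hn hd' ha' hdist' ht hx hc hL'
        have e1 := same_label hB hLam hC H.ident H.comb hn hd ha hp hv hR hR'' hE hv1
        have e2 := same_label hB hLam hC H.ident H.comb hn hd' ha' hp' hv hR' hR'' hE' hv2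
        rw [e1, e2]
  -- local constancy
  have hloc : ∀ x ∈ XX n D, ∀ i, RL G B cc Z ell n D x i →
      ∀ᶠ y in 𝓝 x, y ∈ XX n D → RL G B cc Z ell n D y i := by
    intro x hx i h
    rcases h with ⟨hc, w, e, m, hR, rfl⟩ | ⟨hc, N, θ, a, p, hd, ha, hdist, hL, y₀, hy₀, hyc, hE,
      w, e, m, hR, rfl⟩
    · have h1 := rep_local hB hC H.xloc hn hx (exp_ne_one hrt hx.1.1) hR
      have h2 : ∀ᶠ y : ℂ × ℂ × ℂ in 𝓝 x, y.1 ∈ (MMᶜ : Set ℂ) :=
        (continuous_fst.tendsto x).eventually_mem ((MM_closed hB).isOpen_compl.mem_nhds hc)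
      filter_upwards [h1, h2] with y h3 h4 hy
      obtain ⟨w', hR'⟩ := h3 hy
      exact Or.inl ⟨h4, w', e, m, hR', rfl⟩
    · have h1 := LM_stab hB H.sec H.land H.stab H.xloc hn hd ha hx hc hL
      filter_upwards [h1] with y h2 hy
      obtain ⟨h3, h4⟩ := h2 hy
      by_cases hyM : y.1 ∈ MM
      · exact Or.inr ⟨hyM, N, θ, a, p, hd, ha, hdist, h3 hyM, y₀, hy₀, hyc, hE, w, e, m, hR, rfl⟩
      · obtain ⟨w', hw', hcw'⟩ := hB.psurj y.1 hyM
        obtain ⟨e', m', hR'⟩ := rep_exists hB hC hn hy hw' hcw'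
        have hp := LM_not_dvd hB H hn hd ha hdist ht hx hc hL
        have e1 := same_label hB hLam hC H.ident H.comb hn hd ha hp hy hR hR' hE h4
        exact Or.inl ⟨hyM, w', e', m', hR', e1.symm⟩
  -- the numbering of the labels
  have hcard : Fintype.card ((Fin (n - 1) → Bool) × ZMod n) = n * 2 ^ (n - 1) := by
    rw [Fintype.card_prod, Fintype.card_fun, Fintype.card_bool, Fintype.card_fin, ZMod.card]
    ring
  set E : ((Fin (n - 1) → Bool) × ZMod n) ≃ Fin (n * 2 ^ (n - 1)) := Fintype.equivFinOfCardEq hcard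
  classical
  refine ⟨fun x => if h : ∃ i, RL G B cc Z ell n D x i then E h.choose else E (fun _ => false, 0),
    ?_, ?_⟩
  · intro x hx
    obtain ⟨i, hi⟩ := hex x hx
    have hl : ∀ y ∈ XX n D, RL G B cc Z ell n D y i →
        (if h : ∃ i, RL G B cc Z ell n D y i then E h.choose else E (fun _ => false, 0)) = E i := by
      intro y hy hyi
      have h : ∃ i, RL G B cc Z ell n D y i := ⟨i, hyi⟩
      rw [dif_pos h]
      congr 1
      exact huniq y hy _ _ h.choose_spec hyi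
    have h1 := hloc x hx i hi
    rw [eventually_nhdsWithin_iff]
    filter_upwards [h1] with y hy hyX
    rw [hl y hyX (hy hyX), hl x hx hi]
  · intro k
    obtain ⟨e, m, he, hlb⟩ := lb_surj hn (E.symm k)
    obtain ⟨x, hx, hxc, w, hR⟩ := label_occurs hB hLam hC H.sec H.land H.ply H.ident H.rot H.gen hn
      he m t hr0
    refine ⟨x, hx, ?_⟩
    have hi : RL G B cc Z ell n D x (E.symm k) := Or.inl ⟨hxc, w, e, m, hR, hlb⟩
    have h : ∃ i, RL G B cc Z ell n D x i := ⟨_, hi⟩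
    simp only [dif_pos h]
    rw [huniq x hx _ _ h.choose_spec hi, Equiv.apply_symm_apply]

theorem cls (H : Hyp) : S_CLS := by
  obtain ⟨G, B, cc, hB⟩ := H.base
  obtain ⟨lam, hLam⟩ := H.lam G B cc hB
  obtain ⟨Z, ell, hC⟩ := H.code G B cc lam hB hLam
  refine ⟨1 / 4, by norm_num, by norm_num, fun n t hn ht => ?_⟩
  set D : Set ℂ := DD (1 / 4) n t ∩ HP with hD
  have hr0 := rad_pos ht hn
  have hrt := rad_le (t := t) hn
  set CL : ℂ × ℂ × ℂ → ℝ → Prop := fun x v => ∃ (N : ℕ) (θ : ℕ → ℝ) (a : ℕ → ℤ) (p : ℤ), n ∣ N ∧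
    Ang N θ a ∧ Dist n N θ ∧ LM G B n N θ p x ∧ v = p / (N / n : ℕ) with hCL
  have hex : ∀ x ∈ XX n D, x.1 ∈ MM → ∃ v, CL x v := by
    intro x hx hc
    obtain ⟨N, θ, a, p, hd, ha, hdist, hL⟩ := exists_LM hB H.sec H.land H.stab H.dlt hn hx hc
    exact ⟨_, N, θ, a, p, hd, ha, hdist, hL, rfl⟩
  have huniq : ∀ x ∈ XX n D, x.1 ∈ MM → ∀ v v', CL x v → CL x v' → v = v' := by
    rintro x hx hc v v' ⟨N, θ, a, p, hd, ha, hdist, hL, rfl⟩
      ⟨N', θ', a', p', hd', ha', hdist', hL', rfl⟩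
    obtain ⟨y, hy, hyc, hv1, hv2⟩ := common_exterior hB H.sec H.land H.stab H.ply H.xloc
      H.int H.cntn hn hd hd' ha ha' hr0 hrt hx hc hL hL'
    obtain ⟨w, hw, hcw⟩ := hB.psurj y.1 hyc
    obtain ⟨e, m, hR⟩ := rep_exists hB hC hn hy hw hcw
    obtain ⟨θ1, a1, h1, _, h3, h4⟩ := LE_side hB hLam hC H.ident hn hd ha hR hv1
    obtain ⟨θ2, a2, g1, _, g3, g4⟩ := LE_side hB hLam hC H.ident hn hd' ha' hR hv2
    obtain ⟨ρ, _, _, hρ⟩ := H.rot n e hn hR.per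
    have hn0 : (n : ℝ) ≠ 0 := by
      have : (0 : ℝ) < n := by exact_mod_cast hn
      exact this.ne'
    have key : ∀ (M : ℕ) (b : ℤ) (θ₀ : ℕ → ℝ) (a₀ : ℕ → ℤ), n ∣ M → Ang M θ₀ a₀ →
        Side (w.im / (2 * Real.pi)) e θ₀ →
        ∑ k ∈ Finset.range M, a₀ k = ((M / n : ℕ) : ℤ) * m + b →
        ((b : ℝ) / (M / n : ℕ)) = ρ (w.im / (2 * Real.pi)) - m := by
      intro M b θ₀ a₀ hdM h1 h3 h4
      have h5 := hρ _ M θ₀ a₀ hdM h1 h3
      rw [h4] at h5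
      have hq0 : ((M / n : ℕ) : ℝ) ≠ 0 := by
        have := div_pos' hn h1.pos hdM
        have : (0 : ℝ) < (M / n : ℕ) := by exact_mod_cast this
        exact this.ne'
      have hM : (M : ℝ) = n * (M / n : ℕ) := by
        have := (Nat.mul_div_cancel' hdM).symm
        exact_mod_cast this
      have h6 : (n : ℝ) * ((((M / n : ℕ) : ℤ) * m + b : ℤ) : ℝ) =
          n * ((M / n : ℕ) * ρ (w.im / (2 * Real.pi))) := by
        rw [h5, hM]
        ring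
      have h7 := mul_left_cancel₀ hn0 h6
      rw [Int.cast_add, Int.cast_mul, Int.cast_natCast] at h7
      rw [div_eq_iff hq0]
      linarith
    rw [key N p θ1 a1 hd h1 h3 h4, key N' p' θ2 a2 hd' g1 g3 g4]
  classical
  set cl : ℂ × ℂ × ℂ → ℝ := fun x => if h : ∃ v, CL x v then h.choose else 0 with hcl
  have hcleq : ∀ x ∈ XX n D, x.1 ∈ MM → ∀ v, CL x v → cl x = v := by
    intro x hx hc v hv
    have h : ∃ v, CL x v := ⟨v, hv⟩
    rw [hcl]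
    simp only [dif_pos h]
    exact huniq x hx hc _ _ h.choose_spec hv
  refine ⟨cl, fun x hx hc => ?_⟩
  obtain ⟨v, N, θ, a, p, hd, ha, hdist, hL, hv⟩ := hex x hx hc
  have hclx := hcleq x hx hc v ⟨N, θ, a, p, hd, ha, hdist, hL, hv⟩
  constructor
  · refine ⟨p, N / n, div_pos' hn ha.pos hd, by rw [hclx, hv], ?_⟩
    rw [hclx, hv]
    exact LM_bound hB H.sec H.land H.ply hn hd ha hdist hx hc hL
  · have h1 := LM_stab hB H.sec H.land H.stab H.xloc hn hd ha hx hc hL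
    filter_upwards [h1] with y h2 hy hyM
    rw [hclx]
    exact hcleq y hy hyM v ⟨N, θ, a, p, hd, ha, hdist, (h2 hy).1 hyM, hv⟩

end Pool.Agent.KS6_23.ML.LAB
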