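import Pool.Agent.KS6_23.ML.EXT

set_option autoImplicit false

/-! # Project ML: the limbs are small -/

open Complex Set Filter Metric Topology MeasureTheory

namespace Pool.Agent.KS6_23.ML.LIMB

open Pool.Agent.KS6_23.ML Pool.Agent.KS6_23.ML.Basic Pool.Agent.KS6_23.ML.LabC
open Pool.Agent.KS6_23.ML.Curve Pool.Agent.KS6_23.ML.UNR

/-- images of the classes are open in `M`, and closed up to one point -/
theorem image_class {D E : Set ℂ} {ψ : ℂ → ℂ} {s₀ : ℂ} {ρ : ℝ} (hDo : IsOpen D)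
    (hψ : DifferentiableOn ℂ ψ D) (hd : ∀ s ∈ D, deriv ψ s ≠ 0)
    (hED : E ⊆ D ∩ HP) (hb : ∀ s ∈ E, ‖s - s₀‖ ^ 2 ≤ 2 * ρ * s.re)
    (hball : closedBall s₀ (2 * ρ) ⊆ D) (hs₀ : s₀.re = 0)
    (hop : ∀ s ∈ E, ∀ᶠ s' in 𝓝 s, s' ∈ D ∩ HP → ψ s' ∈ MM → s' ∈ E)
    (hcl : ∀ s ∈ D ∩ HP, s ∈ closure E → s ∈ E) :
    (∀ c ∈ ψ '' E, ∀ᶠ c' in 𝓝 c, c' ∈ MM → c' ∈ ψ '' E) ∧
      closure (ψ '' E) ⊆ insert (ψ s₀) (ψ '' E) ∧ E ⊆ closedBall s₀ (2 * ρ) := by
  have hE2 : E ⊆ closedBall s₀ (2 * ρ) := by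
    intro s hs
    have h1 := hb s hs
    have h2 : s.re ≤ ‖s - s₀‖ := by
      have h3 : (s - s₀).re = s.re := by rw [sub_re, hs₀, sub_zero]
      rw [← h3]
      exact (le_abs_self _).trans (abs_re_le_norm _)
    have h4 : 0 < s.re := (hED hs).2
    have h5 : 0 < ‖s - s₀‖ := lt_of_lt_of_le h4 h2
    have hρ : 0 ≤ ρ := by
      by_contra hneg
      push Not at hneg
      nlinarith [sq_nonneg ‖s - s₀‖]
    rw [mem_closedBall, dist_eq_norm]
    have h6 : ‖s - s₀‖ * ‖s - s₀‖ ≤ 2 * ρ * ‖s - s₀‖ := by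
      calc ‖s - s₀‖ * ‖s - s₀‖ = ‖s - s₀‖ ^ 2 := by ring
        _ ≤ 2 * ρ * s.re := h1
        _ ≤ 2 * ρ * ‖s - s₀‖ := by gcongr
    exact le_of_mul_le_mul_right h6 h5
  refine ⟨?_, ?_, hE2⟩
  · rintro _ ⟨s, hs, rfl⟩
    have hsD := (hED hs).1
    have hA : AnalyticAt ℂ ψ s := hψ.analyticAt (hDo.mem_nhds hsD)
    have hle : 𝓝 (ψ s) ≤ map ψ (𝓝 s) := by
      rcases hA.eventually_constant_or_nhds_le_map_nhds with h | h
      · exfalso
        apply hd s hsD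
        have : ψ =ᶠ[𝓝 s] fun _ => ψ s := h
        rw [this.deriv_eq]
        simp
      · exact h
    have h1 : ∀ᶠ s' in 𝓝 s, s' ∈ D ∩ HP ∧ (ψ s' ∈ MM → s' ∈ E) := by
      filter_upwards [hop s hs, (hDo.inter isOpen_HP).mem_nhds (hED hs)] with s' g1 g2
      exact ⟨g2, g1 g2⟩
    have h2 := hle (image_mem_map h1)
    filter_upwards [h2] with c' hc' hcM
    obtain ⟨s', ⟨_, h3⟩, rfl⟩ := hc'
    exact ⟨s', h3 hcM, rfl⟩
  · intro c hc
    obtain ⟨cs, hcs, hlim⟩ := mem_closure_iff_seq_limit.1 hc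
    choose s hs hsc using hcs
    obtain ⟨a, ha, φ, hφ, hal⟩ := (isCompact_closedBall s₀ (2 * ρ)).tendsto_subseq
      (fun k => hE2 (hs k))
    have haD : a ∈ D := hball ha
    have hψa : ψ a = c := by
      have h1 : Tendsto (fun k => ψ (s (φ k))) atTop (𝓝 (ψ a)) :=
        ((hψ.differentiableAt (hDo.mem_nhds haD)).continuousAt.tendsto).comp hal
      have h2 : Tendsto (fun k => ψ (s (φ k))) atTop (𝓝 c) := by
        simp only [hsc]
        exact hlim.comp hφ.tendsto_atTop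
      exact tendsto_nhds_unique h1 h2
    have hbd : ‖a - s₀‖ ^ 2 ≤ 2 * ρ * a.re := by
      have h1 : Tendsto (fun k => ‖s (φ k) - s₀‖ ^ 2) atTop (𝓝 (‖a - s₀‖ ^ 2)) :=
        ((hal.sub_const s₀).norm).pow 2
      have h2 : Tendsto (fun k => 2 * ρ * (s (φ k)).re) atTop (𝓝 (2 * ρ * a.re)) :=
        ((Complex.continuous_re.tendsto a).comp hal).const_mul _
      exact le_of_tendsto_of_tendsto' h1 h2 fun k => hb _ (hs _)
    have hare : 0 ≤ a.re := by
      have h2 : Tendsto (fun k => (s (φ k)).re) atTop (𝓝 a.re) :=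
        (Complex.continuous_re.tendsto a).comp hal
      exact ge_of_tendsto' h2 fun k => ((hED (hs _)).2 : 0 < (s (φ k)).re).le
    rcases eq_or_lt_of_le hare with h0 | h0
    · left
      rw [← h0, mul_zero] at hbd
      have h3 : ‖a - s₀‖ = 0 := by
        have := norm_nonneg (a - s₀)
        nlinarith
      have h4 : a = s₀ := sub_eq_zero.1 (norm_eq_zero.1 h3)
      rw [← hψa, h4]
    · right
      refine ⟨a, hcl a ⟨haD, h0⟩ ?_, hψa⟩
      exact mem_closure_of_tendsto hal (Eventually.of_forall fun k => hs _)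

/-- a nonempty proper subset of `M` which is open in `M` and closed up to a point has the point
in the closure -/
theorem conn_lemma (hc : IsPreconnected MM) {A : Set ℂ} {a m : ℂ}
    (hne : A.Nonempty) (hA : A ⊆ MM) (hm : m ∈ MM) (hmA : m ∉ A)
    (hop : ∀ c ∈ A, ∀ᶠ c' in 𝓝 c, c' ∈ MM → c' ∈ A) (hcl : closure A ⊆ insert a A) :
    a ∈ closure A := by
  by_contra ha
  have hAc : closure A ⊆ A := by
    intro c hc'
    rcases hcl hc' with h | h
    · exact absurd (h ▸ hc') ha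
    · exact h
  set u : Set ℂ := ⋃ c ∈ A, ⋃ ε ∈ {ε : ℝ | ∀ c' ∈ ball c ε, c' ∈ MM → c' ∈ A}, ball c ε with hu
  have huo : IsOpen u := isOpen_biUnion fun c _ => isOpen_biUnion fun ε _ => isOpen_ball
  have hAu : A ⊆ u := by
    intro c hc'
    obtain ⟨ε, hε, hb⟩ := Metric.eventually_nhds_iff_ball.1 (hop c hc')
    simp only [hu, mem_iUnion]
    exact ⟨c, hc', ε, hb, mem_ball_self hε⟩
  have huA : MM ∩ u ⊆ A := by
    rintro x ⟨hx, hxu⟩
    simp only [hu, mem_iUnion] at hxu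
    obtain ⟨c, hc', ε, hb, hxε⟩ := hxu
    exact hb x hxε hx
  obtain ⟨c, hc'⟩ := hne
  obtain ⟨x, hx, hxu, hxv⟩ := hc u (closure A)ᶜ huo isClosed_closure.isOpen_compl
    (by
      intro x hx
      by_cases h : x ∈ closure A
      · exact Or.inl (hAu (hAc h))
      · exact Or.inr h)
    ⟨c, hA hc', hAu hc'⟩ ⟨m, hm, fun h => hmA (hAc h)⟩
  exact hxv (subset_closure (huA ⟨hx, hxu⟩))

theorem rad_mono {κ κ' t : ℝ} (h : κ ≤ κ') (n : ℕ) : DD κ n t ⊆ DD κ' n t := by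
  unfold DD
  apply ball_subset_ball
  gcongr

/-- denominators of fractions close to a given fraction are large -/
theorem frac_close {p : ℤ} {q : ℕ} (hq : 1 ≤ q) {p' : ℤ} {q' : ℕ} (hq' : 1 ≤ q')
    (hne : (p' / q' : ℝ) ≠ p / q) : 1 / (q' : ℝ) ≤ q * |(p' / q' : ℝ) - p / q| := by
  have h1 : (0 : ℝ) < q := by exact_mod_cast hq
  have h2 : (0 : ℝ) < q' := by exact_mod_cast hq'
  have h3 : (p' / q' : ℝ) - p / q = ((p' * q - p * q' : ℤ) : ℝ) / (q' * q) := by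
    push_cast
    field_simp
  have h4 : (p' * q - p * q' : ℤ) ≠ 0 := by
    intro h0
    apply hne
    have : (p' / q' : ℝ) - p / q = 0 := by rw [h3, h0]; simp
    linarith
  have h5 : (1 : ℝ) ≤ |((p' * q - p * q' : ℤ) : ℝ)| := by
    rw [← Int.cast_abs]
    have := Int.one_le_abs h4
    exact_mod_cast this
  rw [h3, abs_div, abs_of_pos (by positivity : (0 : ℝ) < q' * q)]
  rw [mul_div_assoc', div_le_div_iff₀ h2 (by positivity)]
  calc 1 * ((q' : ℝ) * q) = q * q' * 1 := by ring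
    _ ≤ q * q' * |((p' * q - p * q' : ℤ) : ℝ)| := by gcongr
    _ = _ := by ring

/-- the denominator of a reduced fraction is the smallest one -/
theorem den_le {p : ℤ} {q : ℕ} (hq : 1 ≤ q) (hco : IsCoprime p (q : ℤ)) {p' : ℤ} {q' : ℕ}
    (hq' : 1 ≤ q') (h : (p / q : ℝ) = p' / q') : (q : ℝ) ≤ q' := by
  have h1 : (0 : ℝ) < q := by exact_mod_cast hq
  have h2 : (0 : ℝ) < q' := by exact_mod_cast hq'
  rw [div_eq_div_iff h1.ne' h2.ne'] at h
  have h3 : p * q' = p' * q := by exact_mod_cast h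
  have h4 : (q : ℤ) ∣ p * q' := ⟨p', by rw [h3]; ring⟩
  have h5 : (q : ℤ) ∣ q' := hco.symm.dvd_of_dvd_mul_left h4
  have h6 : q ∣ q' := by exact_mod_cast h5
  exact_mod_cast Nat.le_of_dvd (by omega) h6

theorem limb (hBase : S_BASE) (hExt : S_EXT) (hCls : S_CLS) (hFr : S_FRO) (hK : S_XCPT) :
    S_LIMB := by
  obtain ⟨G, B₀, cc, hB⟩ := hBase
  obtain ⟨κ₁, hκ₁, hκ₁1, hext⟩ := hExt
  obtain ⟨κ₂, hκ₂, hκ₂1, hcls⟩ := hCls
  have hMc : IsClosed MM := MM_closed hB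
  have hlog : 0 < Real.log 2 := Real.log_pos (by norm_num)
  set κ₀ : ℝ := min κ₁ κ₂ with hκ₀
  have hκ0 : 0 < κ₀ := lt_min hκ₁ hκ₂
  have hκ01 : κ₀ ≤ 1 := (min_le_left _ _).trans hκ₁1
  refine ⟨48 * Real.log 2 / κ₀, by positivity, ?_⟩
  intro n q p c₀ z₀ B hn hq hco ht hL c hcB
  set t : ℝ := p / q with htdef
  have hn0 : (0 : ℝ) < n := by exact_mod_cast hn
  have hq0 : (0 : ℝ) < q := by exact_mod_cast hq
  have hdpos : 0 < dZ t := lt_of_le_of_ne (abs_nonneg _) (Ne.symm ht)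
  set R : ℝ := κ₀ * dZ t ^ 2 / n with hR
  have hR0 : 0 < R := by positivity
  set ρ : ℝ := n * Real.log 2 / q with hρ
  have hρ0 : 0 < ρ := by positivity
  set s₀ : ℂ := tpi * (t : ℂ) with hs₀
  have hs₀re : s₀.re = 0 := by rw [hs₀, _root_.mul_comm, real_mul_tpi_re]
  have hnorm1 : ‖mul n c₀ z₀‖ = 1 := by
    rw [hL.mlt, norm_exp, ← hs₀, hs₀re, Real.exp_zero]
  have hc₀M : c₀ ∈ MM := (hFr n c₀ z₀ hn hL.fix hnorm1.le).1
  have hc₀6 : ‖c₀‖ ≤ 6 := hK.2 n c₀ z₀ hn hL.fix (by rw [hnorm1]; norm_num)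
  have hcM : c ∈ MM := (hL.sub hcB).1
  -- the trivial case
  by_cases htriv : R / 2 ≤ 2 * ρ
  · have hc6 : ‖c‖ ≤ 6 := by
      have h1 := (hB.gM c).2 hcM
      have h2 := hB.gcc c
      rw [h1, zero_add] at h2
      rcases eq_or_ne c 0 with h | h
      · rw [h]; simp
      · have h3 : 0 < ‖c‖ := norm_pos_iff.2 h
        have h4 := (Real.log_le_log_iff h3 (by norm_num)).1 h2
        linarith
    have h1 : ‖c - c₀‖ ≤ 12 := by
      refine (norm_sub_le _ _).trans ?_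
      linarith
    refine h1.trans ?_
    have h2 : 12 ≤ 48 * ρ / R := by
      rw [le_div_iff₀ hR0]
      linarith
    refine h2.trans (le_of_eq ?_)
    rw [hρ, hR]
    field_simp
  push Not at htriv
  have hsub1 : ball s₀ R ⊆ DD κ₁ n t := rad_mono (min_le_left _ _) n
  have hsub2 : ball s₀ R ⊆ DD κ₂ n t := rad_mono (min_le_right _ _) n
  obtain ⟨ψ, ζ, hψ', hζ', hψ0, hζ0, hψX⟩ := hext n t hn ht c₀ z₀ hL.fix hL.mlt
  obtain ⟨cl, hcl⟩ := hcls n t hn ht
  set D : Set ℂ := ball s₀ R with hD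
  have hDo : IsOpen D := isOpen_ball
  have hψ : DifferentiableOn ℂ ψ D := hψ'.mono hsub1
  have hζ : DifferentiableOn ℂ ζ D := hζ'.mono hsub1
  have hd : ∀ s ∈ D, deriv ψ s ≠ 0 := fun s hs => (hψX s (hsub1 hs)).2.2
  have hψc : ∀ s ∈ D, ContinuousAt ψ s := fun s hs =>
    (hψ.differentiableAt (hDo.mem_nhds hs)).continuousAt
  have hζc : ∀ s ∈ D, ContinuousAt ζ s := fun s hs =>
    (hζ.differentiableAt (hDo.mem_nhds hs)).continuousAt
  have hs₀D : s₀ ∈ D := mem_ball_self hR0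
  set X : ℂ → ℂ × ℂ × ℂ := fun s => (ψ s, ζ s, s) with hX
  have hXc : ∀ s ∈ D, ContinuousAt X s := fun s hs =>
    (hψc s hs).prodMk ((hζc s hs).prodMk continuousAt_id)
  have hXmem : ∀ s ∈ D, (f (ψ s))^[n] (ζ s) = ζ s ∧ mul n (ψ s) (ζ s) = exp s := fun s hs =>
    (hψX s (hsub1 hs)).1.2
  have hX2 : ∀ s ∈ D ∩ HP, X s ∈ XX n (DD κ₂ n t ∩ HP) := fun s hs =>
    ⟨⟨hsub2 hs.1, hs.2⟩, hXmem s hs.1⟩
  -- the classes
  set E : ℝ → Set ℂ := fun v => {s | s ∈ D ∩ HP ∧ ψ s ∈ MM ∧ cl (X s) = v} with hE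
  have hEop : ∀ v, ∀ s ∈ E v, ∀ᶠ s' in 𝓝 s, s' ∈ D ∩ HP → ψ s' ∈ MM → s' ∈ E v := by
    rintro v s ⟨h1, h2, h3⟩
    have h4 := (hcl (X s) (hX2 s h1) h2).2
    filter_upwards [(hXc s h1.1).eventually h4] with s' g1 g2 g3
    exact ⟨g2, g3, by rw [g1 (hX2 s' g2) g3, h3]⟩
  have hEcl : ∀ v, ∀ s ∈ D ∩ HP, s ∈ closure (E v) → s ∈ E v := by
    intro v s h1 h2
    have hM : ψ s ∈ MM := by
      have h3 : ψ s ∈ closure MM := by
        refine mem_closure_of_frequently_of_tendsto ?_ (hψc s h1.1).tendsto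
        exact (mem_closure_iff_frequently.1 h2).mono fun s' h => h.2.1
      rwa [hMc.closure_eq] at h3
    have h4 := (hcl (X s) (hX2 s h1) hM).2
    obtain ⟨s', h5, h6⟩ := ((mem_closure_iff_frequently.1 h2).and_eventually
      ((hXc s h1.1).eventually h4)).exists
    exact ⟨h1, hM, by rw [← h6 (hX2 s' h5.1) h5.2.1, h5.2.2]⟩
  -- the horodiscs
  have hEb : ∀ s ∈ E t, ‖s - s₀‖ ^ 2 ≤ 2 * ρ * s.re := by
    rintro s ⟨h1, h2, h3⟩
    obtain ⟨p', q', hq', h4, h5⟩ := (hcl (X s) (hX2 s h1) h2).1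
    rw [h3] at h4 h5
    have h6 : (q : ℝ) ≤ q' := den_le hq hco hq' h4
    have h7 : 0 < s.re := h1.2
    calc ‖s - s₀‖ ^ 2 ≤ 2 * n * Real.log 2 / q' * s.re := h5
      _ ≤ 2 * n * Real.log 2 / q * s.re := by gcongr
      _ = 2 * ρ * s.re := by rw [hρ]; ring
  have hball0 : closedBall s₀ (2 * ρ) ⊆ D := closedBall_subset_ball (by linarith)
  obtain ⟨hLop, hLcl, hE2⟩ := image_class hDo hψ hd (fun s hs => hs.1) hEb hball0 hs₀re (hEop t)
    (hEcl t)
  -- injectivity near `s₀`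
  obtain ⟨ε₁, hε₁, hε₁R, hinj⟩ : ∃ ε₁ : ℝ, 0 < ε₁ ∧ ε₁ ≤ R ∧ InjOn ψ (ball s₀ ε₁) := by
    have hA : AnalyticAt ℂ ψ s₀ := hψ.analyticAt (hDo.mem_nhds hs₀D)
    have hst : HasStrictDerivAt ψ (deriv ψ s₀) s₀ := hA.hasStrictDerivAt
    set P := (hst.hasStrictFDerivAt_equiv (hd s₀ hs₀D)).toOpenPartialHomeomorph ψ with hP
    have hmem : s₀ ∈ P.source :=
      (hst.hasStrictFDerivAt_equiv (hd s₀ hs₀D)).mem_toOpenPartialHomeomorph_source
    obtain ⟨ε, hε, hb⟩ := Metric.mem_nhds_iff.1 (P.open_source.mem_nhds hmem)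
    refine ⟨min ε R, by positivity, min_le_right _ _, ?_⟩
    have h1 : InjOn ψ P.source := P.injOn
    exact h1.mono ((ball_subset_ball (min_le_left _ _)).trans hb)
  -- attracting parameters near `c₀` are not in `B`
  obtain ⟨δ, hδ, hatt⟩ := hL.att
  obtain ⟨ε₂, hε₂, hε₂1, hnear⟩ : ∃ ε₂ : ℝ, 0 < ε₂ ∧ ε₂ ≤ ε₁ ∧ ∀ s ∈ ball s₀ ε₂,
      ‖ψ s - c₀‖ < δ ∧ ‖ζ s - z₀‖ < δ := by
    have h1 : ∀ᶠ s in 𝓝 s₀, ‖ψ s - c₀‖ < δ ∧ ‖ζ s - z₀‖ < δ := by
      have h2 := (hψc s₀ hs₀D).eventually (ball_mem_nhds _ hδ)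
      have h3 := (hζc s₀ hs₀D).eventually (ball_mem_nhds _ hδ)
      filter_upwards [h2, h3] with s g1 g2
      rw [hψ0] at g1
      rw [hζ0] at g2
      exact ⟨by simpa [dist_eq_norm] using g1, by simpa [dist_eq_norm] using g2⟩
    obtain ⟨ε, hε, hb⟩ := Metric.eventually_nhds_iff_ball.1 h1
    exact ⟨min ε ε₁, by positivity, min_le_right _ _, fun s hs =>
      hb s (ball_subset_ball (min_le_left _ _) hs)⟩
  have hε₂D : ball s₀ ε₂ ⊆ D := ball_subset_ball (hε₂1.trans hε₁R)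
  have hneg : ∀ s ∈ ball s₀ ε₂, s.re < 0 → ψ s ∈ MM ∧ ψ s ∉ B := by
    intro s hs hre
    obtain ⟨h1, h2⟩ := hXmem s (hε₂D hs)
    have h3 : ‖mul n (ψ s) (ζ s)‖ < 1 := by
      rw [h2, norm_exp]
      exact Real.exp_lt_one_iff.2 hre
    exact ⟨(hFr n (ψ s) (ζ s) hn h1 h3.le).1,
      hatt _ _ (hnear s hs).1 (hnear s hs).2 h1 h3⟩
  -- the part of `B` outside of the image of the class `t`
  set B₂ : Set ℂ := B \ (ψ '' E t) with hB₂
  obtain ⟨O, hO, hBO⟩ := hL.opn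
  obtain ⟨K, hKc, hBK⟩ := hL.cls
  have hc₀B : c₀ ∉ B := fun h => (hL.sub h).2 rfl
  have hB₂op : ∀ c ∈ B₂, ∀ᶠ c' in 𝓝 c, c' ∈ MM → c' ∈ B₂ := by
    rintro c ⟨h1, h2⟩
    have h3 : c ≠ c₀ := fun h => hc₀B (h ▸ h1)
    have h4 : c ∈ O := by
      rw [hBO] at h1
      exact h1.1
    have h5 : c ∉ closure (ψ '' E t) := by
      intro h
      rcases hLcl h with h6 | h6
      · rw [hψ0] at h6
        exact h3 h6
      · exact h2 h6
    filter_upwards [hO.mem_nhds h4, isClosed_closure.isOpen_compl.mem_nhds h5,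
      isOpen_ne.mem_nhds h3] with c' g1 g2 g3 g4
    refine ⟨?_, fun h => g2 (subset_closure h)⟩
    rw [hBO]
    exact ⟨g1, g4, g3⟩
  have hB₂M : B₂ ⊆ MM := fun c h => (hL.sub h.1).1
  have hB₂cl : closure B₂ ⊆ insert c₀ B₂ := by
    intro c h
    by_cases hc : c = c₀
    · exact Or.inl hc
    right
    have h1 : c ∈ MM := hMc.closure_subset_iff.2 hB₂M h
    have h2 : c ∈ K := by
      refine hKc.closure_subset_iff.2 (fun x hx => ?_) h
      have := hx.1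
      rw [hBK] at this
      exact this.1
    refine ⟨by rw [hBK]; exact ⟨h2, h1, hc⟩, fun h3 => ?_⟩
    obtain ⟨c', h4, h5⟩ := ((mem_closure_iff_frequently.1 h).and_eventually (hLop c h3)).exists
    exact h4.2 (h5 (hB₂M h4))
  have hB₂empty : ¬ B₂.Nonempty := by
    intro hne
    have hc₀cl : c₀ ∈ closure B₂ := conn_lemma hB.conn.isPreconnected hne hB₂M hc₀M
      (fun h => hc₀B h.1) hB₂op hB₂cl
    -- the scale
    set M₁ : ℝ := 2 * n * Real.log 2 * q with hM₁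
    have hM₁0 : 0 < M₁ := by positivity
    -- choose `ε`
    obtain ⟨ε, hε, hε2, hεs⟩ : ∃ ε : ℝ, 0 < ε ∧ ε ≤ ε₂ ∧
        (M₁ + 2 * Real.pi) * (ε + √(2 * n * Real.log 2 * ε)) < ε₂ := by
      have h1 : Tendsto (fun ε : ℝ => (M₁ + 2 * Real.pi) * (ε + √(2 * n * Real.log 2 * ε))) (𝓝[>] 0)
          (𝓝 ((M₁ + 2 * Real.pi) * (0 + √(2 * n * Real.log 2 * 0)))) := by
        have : Continuous (fun ε : ℝ => (M₁ + 2 * Real.pi) * (ε + √(2 * n * Real.log 2 * ε))) := by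
          fun_prop
        exact (this.tendsto 0).mono_left nhdsWithin_le_nhds
      rw [mul_zero, Real.sqrt_zero, add_zero, mul_zero] at h1
      have h2 := h1.eventually (gt_mem_nhds hε₂)
      have h3 : ∀ᶠ ε : ℝ in 𝓝[>] 0, 0 < ε := self_mem_nhdsWithin
      have h4 : ∀ᶠ ε : ℝ in 𝓝[>] 0, ε ≤ ε₂ := nhdsWithin_le_nhds (ge_mem_nhds hε₂)
      obtain ⟨ε, h5, h6, h7⟩ := (h2.and (h3.and h4)).exists
      exact ⟨ε, h6, h7, h5⟩
    -- a point of `B₂` near `c₀`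
    have himg : ψ '' ball s₀ ε ∈ 𝓝 c₀ := by
      have hA : AnalyticAt ℂ ψ s₀ := hψ.analyticAt (hDo.mem_nhds hs₀D)
      have hle : 𝓝 (ψ s₀) ≤ map ψ (𝓝 s₀) := by
        rcases hA.eventually_constant_or_nhds_le_map_nhds with h | h
        · exfalso
          apply hd s₀ hs₀D
          have : ψ =ᶠ[𝓝 s₀] fun _ => ψ s₀ := h
          rw [this.deriv_eq]
          simp
        · exact h
      rw [hψ0] at hle
      exact hle (image_mem_map (ball_mem_nhds s₀ hε))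
    obtain ⟨c₁, hc₁, s, hs, hsc⟩ := ((mem_closure_iff_frequently.1 hc₀cl).and_eventually himg).exists
    have hsε₂ : s ∈ ball s₀ ε₂ := ball_subset_ball hε2 hs
    have hsD : s ∈ D := hε₂D hsε₂
    have hsM : ψ s ∈ MM := by rw [hsc]; exact hB₂M hc₁
    have hss : ‖s - s₀‖ < ε := by rw [← dist_eq_norm]; exact hs
    -- points of `B₂` on the imaginary axis are impossible
    have haxis : ∀ s' ∈ ball s₀ ε₂, s'.re = 0 → ψ s' ∉ B₂ := by
      intro s' hs' hre hB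
      have h1 := hB₂op _ hB
      have h2 : Tendsto (fun τ : ℝ => s' - (τ : ℂ)) (𝓝[>] 0) (𝓝 s') := by
        have : Continuous fun τ : ℝ => s' - (τ : ℂ) := by fun_prop
        have h3 := this.tendsto 0
        rw [ofReal_zero, sub_zero] at h3
        exact h3.mono_left nhdsWithin_le_nhds
      have h4 : ∀ᶠ τ : ℝ in 𝓝[>] 0, ψ (s' - τ) ∈ MM → ψ (s' - τ) ∈ B₂ :=
        ((hψc s' (hε₂D hs')).tendsto.comp h2).eventually h1
      have h5 : ∀ᶠ τ : ℝ in 𝓝[>] 0, s' - (τ : ℂ) ∈ ball s₀ ε₂ :=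
        h2.eventually (isOpen_ball.mem_nhds hs')
      have h6 : ∀ᶠ τ : ℝ in 𝓝[>] 0, 0 < τ := self_mem_nhdsWithin
      obtain ⟨τ, g1, g2, g3⟩ := (h4.and (h5.and h6)).exists
      obtain ⟨k1, k2⟩ := hneg _ g2 (by
        rw [sub_re, hre, ofReal_re]
        have : (0 : ℝ) < τ := g3
        linarith)
      exact k2 (g1 k1).1
    rcases lt_trichotomy s.re 0 with hre | hre | hre
    · exact (hneg s hsε₂ hre).2 (by rw [hsc]; exact hc₁.1)
    · exact haxis s hsε₂ hre (by rw [hsc]; exact hc₁)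
    · -- the class of `s`
      set v : ℝ := cl (X s) with hv
      have hsE : s ∈ E v := ⟨⟨hsD, hre⟩, hsM, rfl⟩
      have hvt : v ≠ t := by
        intro h
        apply hc₁.2
        rw [← hsc, ← h]
        exact ⟨s, hsE, rfl⟩
      obtain ⟨p₁, q₁, hq₁, h4, h5⟩ := (hcl (X s) (hX2 s ⟨hsD, hre⟩) hsM).1
      set sv : ℂ := tpi * (v : ℂ) with hsv
      have hsvre : sv.re = 0 := by rw [hsv, _root_.mul_comm, real_mul_tpi_re]
      have hsre : s.re ≤ ε := by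
        have h3 : (s - s₀).re = s.re := by rw [sub_re, hs₀re, sub_zero]
        rw [← h3]
        exact ((le_abs_self _).trans (abs_re_le_norm _)).trans hss.le
      -- `v` is close to `t`
      have hsvd : ‖s - sv‖ ≤ √(2 * n * Real.log 2 * ε) := by
        apply Real.le_sqrt_of_sq_le
        have hq₁' : (1 : ℝ) ≤ q₁ := by exact_mod_cast hq₁
        calc ‖s - sv‖ ^ 2 ≤ 2 * n * Real.log 2 / q₁ * s.re := h5
          _ ≤ 2 * n * Real.log 2 * s.re := by
              gcongr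
              exact div_le_self (by positivity) hq₁'
          _ ≤ 2 * n * Real.log 2 * ε := by gcongr
      set Δ : ℝ := ε + √(2 * n * Real.log 2 * ε) with hΔ
      have hΔ0 : 0 ≤ Δ := by positivity
      have hsvs₀ : ‖sv - s₀‖ ≤ Δ := by
        calc ‖sv - s₀‖ = ‖(s - s₀) - (s - sv)‖ := by congr 1; ring
          _ ≤ ‖s - s₀‖ + ‖s - sv‖ := norm_sub_le _ _
          _ ≤ Δ := by rw [hΔ]; linarith
      have hvtabs : |v - t| ≤ Δ := by
        have h6 : sv - s₀ = ((v - t : ℝ) : ℂ) * tpi := by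
          rw [hsv, hs₀]
          push_cast
          ring
        rw [h6, norm_mul, norm_tpi, norm_real, Real.norm_eq_abs] at hsvs₀
        have := Real.pi_gt_three
        nlinarith [abs_nonneg (v - t)]
      -- the horodisc of `v`
      set ρv : ℝ := n * Real.log 2 * (q * Δ) with hρv
      have hEvb : ∀ s' ∈ E v, ‖s' - sv‖ ^ 2 ≤ 2 * ρv * s'.re := by
        rintro s' ⟨g1, g2, g3⟩
        obtain ⟨p', q', hq', g4, g5⟩ := (hcl (X s') (hX2 s' g1) g2).1
        rw [g3] at g4 g5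
        have g6 : 1 / (q' : ℝ) ≤ q * |v - t| := by
          have := frac_close hq hq' (p := p) (p' := p') (by rw [← g4, ← htdef]; exact hvt)
          rw [← g4, ← htdef] at this
          exact this
        have g7 : (0 : ℝ) < s'.re := g1.2
        calc ‖s' - sv‖ ^ 2 ≤ 2 * n * Real.log 2 / q' * s'.re := g5
          _ = 2 * n * Real.log 2 * (1 / q') * s'.re := by ring
          _ ≤ 2 * n * Real.log 2 * (q * |v - t|) * s'.re := by gcongr
          _ ≤ 2 * n * Real.log 2 * (q * Δ) * s'.re := by gcongr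
          _ = 2 * ρv * s'.re := by rw [hρv]; ring
      have h2ρv : 2 * ρv = M₁ * Δ := by rw [hρv, hM₁]; ring
      have hbig : 2 * ρv + Δ < ε₂ := by
        rw [h2ρv]
        have h6 : 1 ≤ 2 * Real.pi := by have := Real.pi_gt_three; linarith
        calc M₁ * Δ + Δ = (M₁ + 1) * Δ := by ring
          _ ≤ (M₁ + 2 * Real.pi) * Δ := by gcongr
          _ < ε₂ := hεs
      have hballv : closedBall sv (2 * ρv) ⊆ ball s₀ ε₂ := by
        intro x hx
        rw [mem_closedBall, dist_eq_norm] at hx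
        rw [mem_ball, dist_eq_norm]
        calc ‖x - s₀‖ = ‖(x - sv) + (sv - s₀)‖ := by congr 1; ring
          _ ≤ _ := norm_add_le _ _
          _ < ε₂ := by linarith
      obtain ⟨hVop, hVcl, hV2⟩ := image_class hDo hψ hd (fun s hs => hs.1) hEvb
        (hballv.trans hε₂D) hsvre (hEop v) (hEcl v)
      have hρv0 : 0 ≤ 2 * ρv := by rw [h2ρv]; positivity
      have hsvball : sv ∈ ball s₀ ε₂ := hballv (mem_closedBall_self hρv0)
      have hε₂ε₁ : ball s₀ ε₂ ⊆ ball s₀ ε₁ := ball_subset_ball hε₂1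
      -- `c₀` is not in the closure of the image of the class `v`
      have hs₀ε₁ : s₀ ∈ ball s₀ ε₁ := mem_ball_self hε₁
      have hsvne : sv ≠ s₀ := by
        intro h
        apply hvt
        rw [hsv, hs₀] at h
        have := mul_left_cancel₀ tpi_ne h
        exact_mod_cast this
      have hc₀V : c₀ ∉ closure (ψ '' E v) := by
        intro h
        rcases hVcl h with h6 | ⟨s', h6, h7⟩
        · rw [← hψ0] at h6
          exact hsvne (hinj (hε₂ε₁ hsvball) hs₀ε₁ h6.symm)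
        · rw [← hψ0] at h7
          have h8 := hinj (hε₂ε₁ (hballv (hV2 h6))) hs₀ε₁ h7
          have h9 : 0 < s'.re := h6.1.2
          rw [h8, hs₀re] at h9
          exact lt_irrefl _ h9
      set B₃ : Set ℂ := B₂ ∩ ψ '' E v with hB₃
      have hB₃ne : B₃.Nonempty := ⟨c₁, hc₁, s, hsE, hsc⟩
      have hB₃op : ∀ c ∈ B₃, ∀ᶠ c' in 𝓝 c, c' ∈ MM → c' ∈ B₃ := by
        rintro c ⟨h6, h7⟩
        filter_upwards [hB₂op c h6, hVop c h7] with c' g1 g2 g3
        exact ⟨g1 g3, g2 g3⟩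
      have hB₃cl : closure B₃ ⊆ insert (ψ sv) B₃ := by
        intro c h
        have h6 : c ∈ closure B₂ := closure_mono inter_subset_left h
        have h7 : c ∈ closure (ψ '' E v) := closure_mono inter_subset_right h
        rcases hVcl h7 with h8 | h8
        · exact Or.inl h8
        · rcases hB₂cl h6 with h9 | h9
          · exact absurd (h9 ▸ h7) hc₀V
          · exact Or.inr ⟨h9, h8⟩
      have h6 : ψ sv ∈ closure B₃ := conn_lemma hB.conn.isPreconnected hB₃ne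
        (fun c h => hB₂M h.1) hc₀M (fun h => hc₀B h.1.1) hB₃op hB₃cl
      have h7 : ψ sv ∈ closure B₂ := closure_mono inter_subset_left h6
      have h8 : ψ sv ≠ c₀ := by
        intro h
        rw [← hψ0] at h
        exact hsvne (hinj (hε₂ε₁ hsvball) hs₀ε₁ h)
      rcases hB₂cl h7 with h9 | h9
      · exact h8 h9
      · exact haxis sv hsvball hsvre h9
  -- conclusion
  have hcE : c ∈ ψ '' E t := by
    by_contra h
    exact hB₂empty ⟨c, hcB, h⟩
  obtain ⟨s, hsE, rfl⟩ := hcE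
  have hs1 : dist s s₀ ≤ 2 * ρ := hE2 hsE
  have hsch := Complex.dist_le_div_mul_dist_of_mapsTo_ball (f := ψ) (c := s₀) (R₁ := R) (R₂ := 12)
    (z := s) hψ (by
      intro x hx
      rw [mem_closedBall, dist_eq_norm]
      refine (norm_sub_le _ _).trans ?_
      have h1 := (hψX x (hsub1 hx)).2.1
      have h2 := (hψX s₀ (hsub1 hs₀D)).2.1
      linarith) hsE.1.1
  rw [hψ0, dist_eq_norm] at hsch
  refine hsch.trans ?_
  calc 12 / R * dist s s₀ ≤ 12 / R * (2 * ρ) := by gcongr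
    _ = 24 * Real.log 2 / κ₀ * n ^ 2 / (q * dZ t ^ 2) := by
      rw [hρ, hR]
      field_simp
      ring
    _ ≤ 48 * Real.log 2 / κ₀ * n ^ 2 / (q * dZ t ^ 2) := by
      gcongr
      norm_num

end Pool.Agent.KS6_23.ML.LIMB
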