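import Pool.Agent.KS6_23.ML.SecTools

set_option autoImplicit false

/-!
# Project ML, module 8: extended sectors are disjoint
-/

open Complex Set Filter Metric Topology MeasureTheory

namespace Pool.Agent.KS6_23.ML.INJ

open SecTools

variable {G : ℂ → ℂ → ℝ} {B : ℂ → ℂ → ℂ} {cc : ℂ → ℂ}

theorem re_add (ζ : ℂ) (x : ℝ) : (ζ + x * tpi).re = ζ.re := by
  simp [tpi]

theorem re_add' (ζ : ℂ) (x : ℤ) : (ζ + x * tpi).re = ζ.re := by
  simp [tpi]

theorem two_re (ζ : ℂ) : (2 * ζ).re = 2 * ζ.re := by simp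

/-- in the range of `B`: equality -/
theorem eq_base (hb : Base G B cc) {c : ℂ} {N : ℕ} {θ : ℕ → ℝ} {κ : ℝ} {β : ℕ → ℂ → ℂ}
    (hs : Sec G B c N θ κ β) {k l : ℕ} {ζ ζ' : ℂ}
    (hζ : ζ ∈ Sk κ) (hζ' : ζ' ∈ Sk κ) (h : β k ζ = β l ζ') (hG : G c c < 2 * ζ.re) :
    ∃ m : ℤ, ζ + θ k * tpi = ζ' + θ l * tpi + m * tpi := by
  have hre : ζ.re = ζ'.re := by
    rw [← hs.grn k ζ hζ, ← hs.grn l ζ' hζ', h]
  have hG' : G c c < 2 * ζ'.re := by rw [← hre]; exact hG
  rw [hs.base k ζ hζ hG, hs.base l ζ' hζ' hG'] at h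
  obtain ⟨m, hm⟩ := hb.binj c _ _ (by rw [re_add]; exact hG) (by rw [re_add]; exact hG') h
  refine ⟨-m, ?_⟩
  push_cast
  linear_combination -hm

/-- `β` is not zero: the critical point would be a critical point of the injective function -/
theorem ne_zero (hb : Base G B cc) {c : ℂ} {N : ℕ} {θ : ℕ → ℝ} {κ : ℝ} {β : ℕ → ℂ → ℂ}
    (hκ : 0 < κ) (hs : Sec G B c N θ κ β) (k : ℕ) {ζ : ℂ} (hζ : ζ ∈ Sk κ) : β k ζ ≠ 0 := by
  intro h0
  have hpos := re_pos_of_mem hκ hζ
  have h1 := hs.grn k ζ hζ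
  have h2 := hb.gf c (β k ζ)
  rw [h1, h0] at h2
  have h3 : f c 0 = c := by simp [f]
  rw [h3] at h2
  -- a small neighbourhood
  have hV : ∀ᶠ η in 𝓝 ζ, η ∈ Sk κ ∧ G c c < 2 * (2 * η).re ∧ ‖η - ζ‖ < 1 := by
    have e1 : ∀ᶠ η in 𝓝 ζ, η ∈ Sk κ := (isOpen_Sk κ).mem_nhds hζ
    have e2 : ∀ᶠ η in 𝓝 ζ, G c c < 2 * (2 * η).re := by
      have : IsOpen {η : ℂ | G c c < 2 * (2 * η).re} :=
        isOpen_lt continuous_const (continuous_const.mul (continuous_re.comp
          (continuous_const.mul continuous_id)))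
      apply this.mem_nhds
      show G c c < 2 * (2 * ζ).re
      rw [two_re, h2]; linarith
    have e3 : ∀ᶠ η in 𝓝 ζ, ‖η - ζ‖ < 1 := by
      filter_upwards [ball_mem_nhds ζ one_pos] with η hη
      rwa [mem_ball, dist_eq_norm] at hη
    exact e1.and (e2.and e3)
  obtain ⟨δ, hδ, hball⟩ := Metric.eventually_nhds_iff_ball.1 hV
  -- injectivity of the square
  have inj : ∀ η ∈ ball ζ δ, ∀ η' ∈ ball ζ δ, β k η ^ 2 = β k η' ^ 2 → η = η' := by
    intro η hη η' hη' hsq
    obtain ⟨a1, a2, a3⟩ := hball η hη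
    obtain ⟨b1, b2, b3⟩ := hball η' hη'
    have e1 : β (k + 1) (2 * η) = β (k + 1) (2 * η') := by
      rw [← hs.step k η a1, ← hs.step k η' b1]
      simp only [f]; rw [hsq]
    obtain ⟨m, hm⟩ := eq_base hb hs (two_mul_mem_Sk a1) (two_mul_mem_Sk b1) e1 a2
    have e2 : 2 * (η - η') = m * tpi := by linear_combination hm
    have e3 : ‖2 * (η - η')‖ < 4 := by
      have : η - η' = (η - ζ) - (η' - ζ) := by ring
      rw [norm_mul, this]
      have h4 := norm_sub_le (η - ζ) (η' - ζ)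
      have h5 : ‖(2 : ℂ)‖ = 2 := by simp
      rw [h5]; linarith
    rw [e2] at e3
    have e4 : ‖(m : ℂ) * tpi‖ = |(m : ℝ)| * (2 * Real.pi) := by
      rw [norm_mul]
      have : ‖tpi‖ = 2 * Real.pi := by
        simp [tpi, abs_of_pos Real.pi_pos]
      rw [this]
      simp
    rw [e4] at e3
    have e5 : m = 0 := by
      by_contra hm0
      have h6 : (1 : ℝ) ≤ |(m : ℝ)| := by
        rw [← Int.cast_abs]
        exact_mod_cast Int.one_le_abs hm0
      have := Real.pi_gt_three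
      nlinarith
    rw [e5] at e2
    have : η - η' = 0 := by
      have h7 : (2 : ℂ) * (η - η') = 0 := by simpa using e2
      rcases mul_eq_zero.1 h7 with h | h
      · norm_num at h
      · exact h
    exact sub_eq_zero.1 this
  -- open mapping
  have han : AnalyticAt ℂ (β k) ζ :=
    ((hs.diff k).analyticOnNhd (isOpen_Sk κ)) ζ hζ
  rcases han.eventually_constant_or_nhds_le_map_nhds with h | h
  · -- constant: contradiction
    obtain ⟨δ', hδ', hc⟩ := Metric.eventually_nhds_iff_ball.1 h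
    have hm : 0 < min δ δ' := lt_min hδ hδ'
    set η : ℂ := ζ + ((min δ δ' / 2 : ℝ) : ℂ) with hη
    have hη1 : ‖η - ζ‖ = min δ δ' / 2 := by
      rw [hη, add_sub_cancel_left, norm_real, Real.norm_of_nonneg (by positivity)]
    have hηb : η ∈ ball ζ δ := by
      rw [mem_ball, dist_eq_norm, hη1]
      have := min_le_left δ δ'
      linarith
    have hηb' : η ∈ ball ζ δ' := by
      rw [mem_ball, dist_eq_norm, hη1]
      have := min_le_right δ δ'
      linarith
    have := inj η hηb ζ (mem_ball_self hδ) (by rw [hc η hηb'])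
    rw [this, sub_self, norm_zero] at hη1
    linarith
  · rw [h0] at h
    have h4 : β k '' (ball ζ δ) ∈ 𝓝 (0 : ℂ) := h (image_mem_map (ball_mem_nhds ζ hδ))
    obtain ⟨ε, hε, hsub⟩ := Metric.mem_nhds_iff.1 h4
    have m1 : ((ε / 2 : ℝ) : ℂ) ∈ ball (0 : ℂ) ε := by
      rw [mem_ball_zero_iff, norm_real, Real.norm_of_nonneg (by positivity)]; linarith
    have m2 : -((ε / 2 : ℝ) : ℂ) ∈ ball (0 : ℂ) ε := by
      rw [mem_ball_zero_iff, norm_neg, norm_real, Real.norm_of_nonneg (by positivity)]; linarith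
    obtain ⟨η, hη, hv⟩ := hsub m1
    obtain ⟨η', hη', hv'⟩ := hsub m2
    have := inj η hη η' hη' (by rw [hv, hv']; ring)
    rw [this, hv'] at hv
    have h5 : ((ε / 2 : ℝ) : ℂ) = 0 := by linear_combination (-1 / 2) * hv
    rw [ofReal_eq_zero] at h5
    linarith

/-- equality propagates to the right -/
theorem propagate (hb : Base G B cc) {c : ℂ} {N : ℕ} {θ : ℕ → ℝ} {κ : ℝ} {β : ℕ → ℂ → ℂ}
    (hκ : 0 < κ) (hs : Sec G B c N θ κ β) (j : ℕ) : ∀ k l, ∀ ζ ∈ Sk κ, ∀ ζ' ∈ Sk κ,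
      G c c < 2 ^ (j + 1) * ζ.re → β k ζ = β l ζ' → ∀ u : ℝ, 0 ≤ u → β k (ζ + u) = β l (ζ' + u) := by
  induction j with
  | zero =>
    intro k l ζ hζ ζ' hζ' hG h u hu
    have hG1 : G c c < 2 * ζ.re := by simpa using hG
    have hre : ζ.re = ζ'.re := by
      rw [← hs.grn k ζ hζ, ← hs.grn l ζ' hζ', h]
    obtain ⟨m, hm⟩ := eq_base hb hs hζ hζ' h hG1
    have r1 : (ζ + u).re = ζ.re + u := by simp
    have r2 : (ζ' + u).re = ζ.re + u := by rw [hre]; simp
    rw [hs.base k _ (add_mem_Sk hκ hu hζ) (by rw [r1]; linarith),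
      hs.base l _ (add_mem_Sk hκ hu hζ') (by rw [r2]; linarith)]
    have e1 : ζ + u + θ k * tpi = (ζ' + u + θ l * tpi) + m * tpi := by linear_combination hm
    rw [e1, B_per hb.toBott]
    rw [re_add, r2]; linarith
  | succ j ih =>
    intro k l ζ hζ ζ' hζ' hG h u hu
    have h1 : β (k + 1) (2 * ζ) = β (l + 1) (2 * ζ') := by
      rw [← hs.step k ζ hζ, ← hs.step l ζ' hζ', h]
    have h2 := ih (k + 1) (l + 1) (2 * ζ) (two_mul_mem_Sk hζ) (2 * ζ') (two_mul_mem_Sk hζ')
      (by rw [two_re]; calc G c c < 2 ^ (j + 1 + 1) * ζ.re := hG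
                        _ = 2 ^ (j + 1) * (2 * ζ.re) := by ring) h1
    have hcont : ∀ (i : ℕ) (η : ℂ), η ∈ Sk κ → ContinuousOn (fun x : ℝ => β i (η + x)) (Ici 0) := by
      intro i η hη x hx
      have h3 : ContinuousAt (β i) (η + x) :=
        ((hs.diff i).differentiableAt ((isOpen_Sk κ).mem_nhds (add_mem_Sk hκ hx hη))).continuousAt
      have h4 : ContinuousAt (fun x : ℝ => η + (x : ℂ)) x := by fun_prop
      exact (ContinuousAt.comp (f := fun x : ℝ => η + (x : ℂ)) h3 h4).continuousWithinAt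
    -- the quotient has the square 1
    have hdis := (isPreconnected_Ici (a := (0 : ℝ))).eq_or_eq_neg_of_sq_eq
      (f := fun x : ℝ => β k (ζ + x) / β l (ζ' + x)) (g := fun _ => (1 : ℂ))
      ((hcont k ζ hζ).div (hcont l ζ' hζ') (fun x hx => ne_zero hb hκ hs l (add_mem_Sk hκ hx hζ')))
      continuousOn_const (by
        intro x hx
        have h5 := h2 (2 * x) (by have : (0 : ℝ) ≤ x := hx; linarith)
        have h6 : β k (ζ + x) ^ 2 = β l (ζ' + x) ^ 2 := by
          have e1 := hs.step k (ζ + x) (add_mem_Sk hκ hx hζ)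
          have e2 := hs.step l (ζ' + x) (add_mem_Sk hκ hx hζ')
          have e3 : 2 * (ζ + x) = 2 * ζ + ((2 * x : ℝ) : ℂ) := by push_cast; ring
          have e4 : 2 * (ζ' + x) = 2 * ζ' + ((2 * x : ℝ) : ℂ) := by push_cast; ring
          rw [e3, h5, ← e4, ← e2] at e1
          simp only [f] at e1
          linear_combination e1
        simp only [Pi.pow_apply]
        rw [div_pow, h6, one_pow, div_self (pow_ne_zero 2 (ne_zero hb hκ hs l (add_mem_Sk hκ hx hζ')))])
      (by simp)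
    rcases hdis with h3 | h3
    · have := h3 hu
      simp only at this
      rwa [div_eq_one_iff_eq (ne_zero hb hκ hs l (add_mem_Sk hκ hu hζ'))] at this
    · exfalso
      have := h3 (mem_Ici.2 (le_refl (0 : ℝ)))
      simp only [ofReal_zero, add_zero, Pi.neg_apply] at this
      rw [h, div_self (ne_zero hb hκ hs l hζ')] at this
      norm_num at this

/-- **Module 8**: extended sectors are disjoint -/
theorem inj : S_INJ := by
  intro G B cc hb c N θ a κ β _ hκ hs k l ζ hζ ζ' hζ' h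
  have hpos := re_pos_of_mem hκ hζ
  obtain ⟨j, hj⟩ := pow_unbounded_of_one_lt (G c c / ζ.re) (by norm_num : (1 : ℝ) < 2)
  have hG : G c c < 2 ^ (j + 1) * ζ.re := by
    rw [div_lt_iff₀ hpos] at hj
    have : (2 : ℝ) ^ (j + 1) = 2 ^ j * 2 := pow_succ _ _
    rw [this]
    have h2 : (0 : ℝ) < 2 ^ j * ζ.re := by positivity
    linarith
  have h1 := propagate hb hκ hs j k l ζ hζ ζ' hζ' hG h (|G c c|) (abs_nonneg _)
  obtain ⟨m, hm⟩ := eq_base hb hs (add_mem_Sk hκ (abs_nonneg _) hζ)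
    (add_mem_Sk hκ (abs_nonneg _) hζ') h1 (by
      have r1 : (ζ + (|G c c| : ℝ)).re = ζ.re + |G c c| := by simp
      rw [r1]
      have := le_abs_self (G c c)
      have := abs_nonneg (G c c)
      linarith)
  exact ⟨m, by linear_combination hm⟩

end Pool.Agent.KS6_23.ML.INJ
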