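import Pool.Agent.KS6_23.ML.LAND
import Pool.Agent.KS6_23.ML.INJ

set_option autoImplicit false

/-!
# Project ML, module 10: the inequality of Pommerenke, Levin and Yoccoz for sectors
-/

open Complex Set Filter Metric Topology MeasureTheory

namespace Pool.Agent.KS6_23.ML.PLY

open SecTools LAND

variable {G : ℂ → ℂ → ℝ} {B : ℂ → ℂ → ℂ} {cc : ℂ → ℂ}

theorem pow_re (n : ℕ) (ζ : ℂ) : (2 : ℂ) ^ n * ζ = ((2 ^ n : ℝ) : ℂ) * ζ := by push_cast; rfl

theorem pow_mem {κ : ℝ} (n : ℕ) {ζ : ℂ} (h : ζ ∈ Sk κ) : (2 : ℂ) ^ n * ζ ∈ Sk κ := by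
  rw [pow_re]
  exact mul_mem_Sk (by positivity) h

theorem tendsto_pow {κ : ℝ} (n : ℕ) :
    Tendsto (fun ζ : ℂ => (2 : ℂ) ^ n * ζ) (𝓝[Sk κ] 0) (𝓝[Sk κ] 0) := by
  have := tendsto_mul_Sk (κ := κ) (r := 2 ^ n) (by positivity)
  simpa using this

/-- differences of logarithms converge -/
theorem log_diff_limit {κ : ℝ} (hκ : 0 < κ) {H : ℂ → ℂ} (hH : ContinuousOn H (Sk κ)) {ρ : ℂ}
    (hρ : ρ ≠ 0) (hlim : Tendsto (fun ζ => exp (H ζ)) (𝓝[Sk κ] 0) (𝓝 ρ)) :
    ∃ l : ℂ, exp l = ρ ∧ Tendsto H (𝓝[Sk κ] 0) (𝓝 l) := by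
  obtain ⟨Λ, hΛ1, hΛ2⟩ := exists_limit hκ hH (P := {x : ℂ | exp x = ρ})
    (s := 1) one_pos (by
      intro p hp p' hp' hne
      have h1 : exp p = exp p' := by
        rw [show exp p = ρ from hp, show exp p' = ρ from hp']
      obtain ⟨n, hn⟩ := exp_eq_exp_iff_exists_int.1 h1
      have hn0 : n ≠ 0 := by
        rintro rfl
        apply hne
        rw [hn]; simp
      rw [hn, add_sub_cancel_left, norm_mul]
      have h2 : ‖2 * (Real.pi : ℂ) * I‖ = 2 * Real.pi := by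
        simp [abs_of_pos Real.pi_pos]
      rw [h2]
      have h3 : (1 : ℝ) ≤ ‖(n : ℂ)‖ := by
        rw [norm_intCast, ← Int.cast_abs]
        exact_mod_cast Int.one_le_abs hn0
      have := Real.pi_gt_three
      nlinarith) (by
      intro ε hε
      have h1 : Tendsto (fun ζ => log (exp (H ζ) / ρ)) (𝓝[Sk κ] 0) (𝓝 0) := by
        have h2 := hlim.div_const ρ
        rw [div_self hρ] at h2
        have h3 : ContinuousAt log 1 := continuousAt_clog (by simp)
        have h4 := h3.tendsto.comp h2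
        rw [log_one] at h4
        exact h4
      have h2 := (Metric.tendsto_nhds.1 h1) ε hε
      obtain ⟨δ, hδ, h3⟩ := (mem_S_iff_eventually hκ).1 h2
      refine ⟨δ, hδ, fun ζ hζ => ?_⟩
      have h4 := h3 ζ hζ
      rw [dist_zero_right] at h4
      refine ⟨H ζ - log (exp (H ζ) / ρ), ?_, ?_⟩
      · show exp _ = _
        rw [exp_sub, exp_log (div_ne_zero (exp_ne_zero _) hρ)]
        field_simp
      · rw [sub_sub_cancel]; exact h4)
  exact ⟨Λ, hΛ1, hΛ2⟩

/-- two logarithms of the same function on a sector -/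
theorem log_unique {κ : ℝ} {F F' : ℂ → ℂ} (hF : ContinuousOn F (Sk κ))
    (hF' : ContinuousOn F' (Sk κ)) (h : ∀ ζ ∈ Sk κ, exp (F ζ) = exp (F' ζ)) :
    ∀ ζ ∈ Sk κ, ∀ ζ' ∈ Sk κ, F ζ - F ζ' = F' ζ - F' ζ' := by
  intro ζ hζ ζ' hζ'
  -- the difference is continuous with values in a discrete set
  have hint : ∀ η ∈ Sk κ, ∃ n : ℤ, F η - F' η = n * (2 * Real.pi * I) := by
    intro η hη
    obtain ⟨n, hn⟩ := exp_eq_exp_iff_exists_int.1 (h η hη)
    exact ⟨n, by rw [hn]; ring⟩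
  obtain ⟨n, hn⟩ := hint ζ hζ
  obtain ⟨n', hn'⟩ := hint ζ' hζ'
  have hcont : ContinuousOn (fun η => ((F η - F' η) / (2 * Real.pi * I)).re) (Sk κ) :=
    continuous_re.comp_continuousOn ((hF.sub hF').div_const _)
  have h2pi : (2 * (Real.pi : ℂ) * I) ≠ 0 := by simp [Real.pi_ne_zero]
  have hval : ∀ η ∈ Sk κ, ∀ m : ℤ, F η - F' η = m * (2 * Real.pi * I) →
      ((F η - F' η) / (2 * Real.pi * I)).re = m := by
    intro η _ m hm
    rw [hm, mul_div_assoc, div_self h2pi, mul_one]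
    simp
  have hnn : n = n' := by
    by_contra hne
    -- a value between
    rcases lt_or_gt_of_ne hne with hlt | hlt
    · have hmem : ((n : ℝ) + 1 / 2) ∈ (fun η => ((F η - F' η) / (2 * Real.pi * I)).re) '' (Sk κ) := by
        apply (convex_Sk κ).isPreconnected.intermediate_value hζ hζ' hcont
        rw [hval ζ hζ n hn, hval ζ' hζ' n' hn']
        have : (n : ℝ) + 1 ≤ n' := by exact_mod_cast hlt
        constructor <;> linarith
      obtain ⟨η, hη, hη2⟩ := hmem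
      obtain ⟨m, hm⟩ := hint η hη
      simp only at hη2
      rw [hval η hη m hm] at hη2
      have h3 : (2 * m : ℝ) = 2 * n + 1 := by linarith
      have h4 : (2 * m : ℤ) = 2 * n + 1 := by exact_mod_cast h3
      omega
    · have hmem : ((n' : ℝ) + 1 / 2) ∈ (fun η => ((F η - F' η) / (2 * Real.pi * I)).re) '' (Sk κ) := by
        apply (convex_Sk κ).isPreconnected.intermediate_value hζ' hζ hcont
        rw [hval ζ hζ n hn, hval ζ' hζ' n' hn']
        have : (n' : ℝ) + 1 ≤ n := by exact_mod_cast hlt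
        constructor <;> linarith
      obtain ⟨η, hη, hη2⟩ := hmem
      obtain ⟨m, hm⟩ := hint η hη
      simp only at hη2
      rw [hval η hη m hm] at hη2
      have h3 : (2 * m : ℝ) = 2 * n' + 1 := by linarith
      have h4 : (2 * m : ℤ) = 2 * n' + 1 := by exact_mod_cast h3
      omega
  rw [hnn] at hn
  linear_combination hn - hn'

/-- uniqueness of the landing data -/
theorem land_unique {N : ℕ} {κ : ℝ} {β : ℕ → ℂ → ℂ} {zz zz' : ℕ → ℂ} {Λ Λ' : ℂ}
    (hκ : 0 < κ) (h : Land N κ β zz Λ) (h' : Land N κ β zz' Λ') : zz = zz' ∧ Λ = Λ' := by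
  have hκ2 : 0 < κ / 2 := by positivity
  have hsub : Sk (κ / 2) ⊆ Sk κ := Sk_mono hκ2 (by linarith)
  have hNB := neBot_Sk hκ2
  have hz : zz = zz' := by
    funext k
    exact tendsto_nhds_unique (h.lim k) (h'.lim k)
  refine ⟨hz, ?_⟩
  obtain ⟨F, hF1, hF2, hF3⟩ := h.lam
  obtain ⟨F', hF1', hF2', hF3'⟩ := h'.lam
  refine tendsto_nhds_unique (hF3.congr' ?_) hF3'
  filter_upwards [self_mem_nhdsWithin] with ζ hζ
  exact log_unique hF1.continuousOn hF1'.continuousOn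
    (fun η hη => by rw [hF2 η hη, hF2' η hη, hz]) _ (pow_mem N (hsub hζ)) _ (hsub hζ)

/-- the real part of `Λ` is not negative -/
theorem re_nonneg (hb : Base G B cc) {c : ℂ} {N : ℕ} {θ : ℕ → ℝ} {a : ℕ → ℤ} {κ : ℝ}
    {β : ℕ → ℂ → ℂ} {zz : ℕ → ℂ} {Λ : ℂ} (ha : Ang N θ a) (hκ : 0 < κ) (hs : Sec G B c N θ κ β)
    (hl : Land N κ β zz Λ) : (∀ k, f c (zz k) = zz (k + 1)) ∧ (∀ k, zz (k + N) = zz k) ∧
      (∀ k, G c (zz k) = 0) ∧ exp Λ = mul N c (zz 0) ∧ 0 ≤ Λ.re := by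
  obtain ⟨zz', Λ', h1, h2, h3, h4, h5, h6⟩ := land G B cc hb c N θ a κ β ha hκ hs
  obtain ⟨rfl, rfl⟩ := land_unique hκ hl h1
  exact ⟨h2, h3, h4, h5, h6⟩

/-- the separation of the rays near 0 -/
theorem separation {n N : ℕ} {θ : ℕ → ℝ} (hD : Dist n N θ) :
    ∃ δ : ℝ, 0 < δ ∧ ∀ j < N / n, ∀ j' < N / n, ∀ ζ ζ' : ℂ, ‖ζ‖ < δ → ‖ζ'‖ < δ →
      (∃ m : ℤ, ζ + θ (j * n) * tpi = ζ' + θ (j' * n) * tpi + m * tpi) → j = j' ∧ ζ = ζ' := by
  have htpi : ‖tpi‖ = 2 * Real.pi := by simp [tpi, abs_of_pos Real.pi_pos]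
  have hpi := Real.pi_gt_three
  have key : ∀ x ∈ (Finset.range (N / n) ×ˢ Finset.range (N / n) : Finset (ℕ × ℕ)),
      ∀ᶠ δ in 𝓝[>] (0 : ℝ), ∀ ζ ζ' : ℂ, ‖ζ‖ < δ → ‖ζ'‖ < δ →
        (∃ m : ℤ, ζ + θ (x.1 * n) * tpi = ζ' + θ (x.2 * n) * tpi + m * tpi) →
          x.1 = x.2 ∧ ζ = ζ' := by
    rintro ⟨j, j'⟩ hx
    rw [Finset.mem_product, Finset.mem_range, Finset.mem_range] at hx
    simp only
    by_cases hjj : j = j'
    · subst hjj
      filter_upwards [Ioo_mem_nhdsGT one_pos] with δ hδ ζ ζ' h1 h2 ⟨m, hm⟩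
      refine ⟨rfl, ?_⟩
      have h3 : ζ - ζ' = m * tpi := by linear_combination hm
      have h4 : ‖ζ - ζ'‖ < 2 := by
        have := norm_sub_le ζ ζ'
        linarith [hδ.2]
      rw [h3, norm_mul, htpi, norm_intCast] at h4
      have h5 : m = 0 := by
        by_contra hm0
        have h6 : (1 : ℝ) ≤ |(m : ℝ)| := by
          rw [← Int.cast_abs]
          exact_mod_cast Int.one_le_abs hm0
        nlinarith
      rw [h5] at h3
      exact sub_eq_zero.1 (by simpa using h3)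
    · -- different rays
      set t : ℝ := θ (j' * n) - θ (j * n) with ht
      have hd : 0 < |t - round t| := by
        rw [abs_pos]
        intro h
        apply hjj
        apply hD j hx.1 j' hx.2 (-round t)
        push_cast
        linarith
      filter_upwards [Ioo_mem_nhdsGT hd] with δ hδ ζ ζ' h1 h2 ⟨m, hm⟩
      exfalso
      have h3 : ζ - ζ' = ((t + m : ℝ) : ℂ) * tpi := by
        rw [ht]; push_cast; linear_combination hm
      have h4 : ‖ζ - ζ'‖ < 2 * δ := by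
        have := norm_sub_le ζ ζ'
        linarith
      rw [h3, norm_mul, htpi, norm_real, Real.norm_eq_abs] at h4
      have h5 : |t - round t| ≤ |t + m| := by
        have := round_le t (-m)
        push_cast at this
        rwa [sub_neg_eq_add] at this
      have h6 := hδ.2
      have h7 := hδ.1
      nlinarith
  have h2 := (Finset.eventually_all _).2 key
  have h3 : ∀ᶠ s in 𝓝[>] (0 : ℝ), 0 < s := self_mem_nhdsWithin
  obtain ⟨δ, hδ1, hδ2⟩ := (h3.and h2).exists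
  refine ⟨δ, hδ1, ?_⟩
  intro j hj j' hj' ζ ζ' h4 h5 h6
  exact hδ2 (j, j') (Finset.mem_product.2 ⟨Finset.mem_range.2 hj, Finset.mem_range.2 hj'⟩) ζ ζ'
    h4 h5 h6

/-- **Module 10**: the inequality of Pommerenke, Levin and Yoccoz -/
theorem ply (hGL : S_GL) : S_PLY := by
  intro G B cc hb c n N θ a κ β zz Λ hn hnN ha hκ hs hl hD hzz
  obtain ⟨hstep, hper, hG0, hexp, hre⟩ := re_nonneg hb ha hκ hs hl
  have hκ2 : 0 < κ / 2 := by positivity
  have hsub : Sk (κ / 2) ⊆ Sk κ := Sk_mono hκ2 (by linarith)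
  have hNB := neBot_Sk hκ2
  have hN := ha.pos
  obtain ⟨q, hq⟩ := hnN
  have hq1 : 1 ≤ q := by
    rcases Nat.eq_zero_or_pos q with h | h
    · rw [h, mul_zero] at hq; omega
    · exact h
  have hNq : N / n = q := by
    rw [hq]; exact Nat.mul_div_cancel_left q (by omega)
  -- the fixed point
  have hfix : ∀ j k, (f c)^[j] (zz k) = zz (k + j) := by
    intro j
    induction j with
    | zero => intro k; rfl
    | succ j ih =>
      intro k
      rw [Function.iterate_succ_apply, hstep, ih]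
      congr 1; ring
  have hfixn : (f c)^[n] (zz 0) = zz 0 := by
    rw [hfix, zero_add]
    have := hzz 1
    rwa [one_mul] at this
  -- different from the values
  have hne : ∀ k, ∀ ζ ∈ Sk κ, β k ζ - zz 0 ≠ 0 := by
    intro k ζ hζ h
    have h1 := hs.grn k ζ hζ
    rw [sub_eq_zero.1 h, hG0 0] at h1
    have := re_pos_of_mem hκ hζ
    linarith
  have hlogs : ∀ k, ∃ F : ℂ → ℂ, DifferentiableOn ℂ F (Sk κ) ∧
      ∀ ζ ∈ Sk κ, exp (F ζ) = β k ζ - zz 0 := fun k =>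
    exists_log (convex_Sk κ) ⟨_, ofReal_mem_Sk hκ one_pos⟩ (isOpen_Sk κ)
      ((hs.diff k).sub_const (zz 0)) (hne k)
  choose L hL1 hL2 using hlogs
  -- multiplier
  have hacc : ∀ δ : ℝ, 0 < δ → ∃ z, ‖z - zz 0‖ < δ ∧ 0 < G c z := by
    intro δ hδ
    have h1 := (Metric.tendsto_nhds.1 (hl.lim 0)) δ hδ
    obtain ⟨ζ, hζ1, hζ2⟩ := (h1.and self_mem_nhdsWithin).exists
    refine ⟨β 0 ζ, by rwa [dist_eq_norm] at hζ1, ?_⟩
    rw [hs.grn 0 ζ (hsub hζ2)]
    exact re_pos_of_mem hκ2 hζ2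
  have hmul0 : mul n c (zz 0) ≠ 0 := by
    intro h
    have hmul := one_le_mul hb hn hfixn hacc
    rw [h, norm_zero] at hmul
    linarith
  -- continuity of the differences
  have hLc : ∀ (k : ℕ) (m : ℕ), ContinuousOn (fun ζ => L k (2 ^ m * ζ)) (Sk (κ / 2)) := by
    intro k m ζ hζ
    have h2 : ContinuousAt (L k) (2 ^ m * ζ) :=
      ((hL1 k).differentiableAt ((isOpen_Sk κ).mem_nhds (pow_mem m (hsub hζ)))).continuousAt
    have h3 : ContinuousAt (fun ζ : ℂ => (2 : ℂ) ^ m * ζ) ζ := by fun_prop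
    exact (ContinuousAt.comp (f := fun ζ : ℂ => (2 : ℂ) ^ m * ζ) h2 h3).continuousWithinAt
  -- passage from `j` to `j + 1`
  have hH : ∀ j, ∃ l : ℂ, Tendsto (fun ζ => L ((j + 1) * n) (2 ^ n * ζ) - L (j * n) ζ)
      (𝓝[Sk (κ / 2)] 0) (𝓝 l) := by
    intro j
    have hquot : Tendsto (fun ζ => exp (L ((j + 1) * n) (2 ^ n * ζ) - L (j * n) ζ))
        (𝓝[Sk (κ / 2)] 0) (𝓝 (mul n c (zz 0))) := by
      have hder : HasDerivAt ((f c)^[n]) (mul n c (zz 0)) (zz 0) :=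
        ((f_iter_differentiable c n) (zz 0)).hasDerivAt
      rw [hasDerivAt_iff_tendsto_slope] at hder
      have h1 : Tendsto (β (j * n)) (𝓝[Sk (κ / 2)] 0) (𝓝[≠] (zz 0)) := by
        have h0 := hl.lim (j * n)
        rw [hzz j] at h0
        apply tendsto_nhdsWithin_of_tendsto_nhds_of_eventually_within _ h0
        filter_upwards [self_mem_nhdsWithin] with ζ hζ h
        exact hne (j * n) ζ (hsub hζ) (sub_eq_zero.2 h)
      apply (hder.comp h1).congr'
      filter_upwards [self_mem_nhdsWithin] with ζ hζ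
      have hζ' := hsub hζ
      rw [Function.comp_apply, slope_def_field, exp_sub, hL2 _ _ (pow_mem n hζ'), hL2 _ ζ hζ',
        iter_step hs n (j * n) ζ hζ', hfixn, show j * n + n = (j + 1) * n by ring]
    have hc : ContinuousOn (fun ζ => L ((j + 1) * n) (2 ^ n * ζ) - L (j * n) ζ) (Sk (κ / 2)) := by
      have h0 := hLc (j * n) 0
      simp only [pow_zero, one_mul] at h0
      exact (hLc ((j + 1) * n) n).sub h0
    obtain ⟨l, -, hl2⟩ := log_diff_limit hκ2 hc hmul0 hquot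
    exact ⟨l, hl2⟩
  have hΛ : ∀ j, Tendsto (fun ζ => L (j * n) (2 ^ N * ζ) - L (j * n) ζ) (𝓝[Sk (κ / 2)] 0)
      (𝓝 Λ) := by
    intro j
    induction j with
    | zero =>
      obtain ⟨F, hF1, hF2, hF3⟩ := hl.lam
      rw [zero_mul]
      refine hF3.congr' ?_
      filter_upwards [self_mem_nhdsWithin] with ζ hζ
      exact log_unique hF1.continuousOn (hL1 0).continuousOn
        (fun η hη => by rw [hF2 η hη, hL2 0 η hη]) _ (pow_mem N (hsub hζ)) _ (hsub hζ)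
    | succ j ih =>
      obtain ⟨l, hl⟩ := hH j
      have h1 := (hl.comp (tendsto_pow N)).sub hl
      have h2 := ih.add h1
      rw [sub_self, add_zero] at h2
      -- substitute `ζ / 2 ^ n`
      have h3 : Tendsto (fun ζ : ℂ => (((2 ^ n)⁻¹ : ℝ) : ℂ) * ζ) (𝓝[Sk (κ / 2)] 0)
          (𝓝[Sk (κ / 2)] 0) := tendsto_mul_Sk (by positivity)
      apply (h2.comp h3).congr
      intro ζ
      simp only [Function.comp_apply]
      have h4 : (2 : ℂ) ^ n * ((((2 ^ n)⁻¹ : ℝ) : ℂ) * ζ) = ζ := by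
        push_cast
        rw [← mul_assoc, mul_inv_cancel₀ (pow_ne_zero n two_ne_zero), one_mul]
      have h5 : (2 : ℂ) ^ n * ((2 : ℂ) ^ N * ((((2 ^ n)⁻¹ : ℝ) : ℂ) * ζ)) = 2 ^ N * ζ := by
        rw [← mul_assoc, mul_comm ((2 : ℂ) ^ n), mul_assoc, h4]
      rw [h4, h5]
      ring
  -- the area lemma
  obtain ⟨δ, hδ, hsep⟩ := separation hD
  have hmain := hGL (κ / 2) (2 ^ N) q (fun j => L (j * n)) Λ hκ2
    (one_lt_pow₀ (by norm_num) (by omega)) hq1
    (fun j _ => (hL1 (j * n)).mono hsub) ⟨δ, hδ, by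
      intro j hj j' hj' ζ hζ ζ' hζ' h1 h2 h3
      rw [hL2 _ ζ (hsub hζ), hL2 _ ζ' (hsub hζ')] at h3
      have h4 : β (j * n) ζ = β (j' * n) ζ' := by
        linear_combination h3
      exact hsep j (by rw [hNq]; exact hj) j' (by rw [hNq]; exact hj') ζ ζ' h1 h2
        (INJ.inj G B cc hb c N θ a κ β ha hκ hs _ _ ζ (hsub hζ) ζ' (hsub hζ') h4)⟩
    (by
      intro j _
      have := hΛ j
      apply this.congr
      intro ζ
      push_cast; rfl)
  rw [abs_of_nonneg hre, Real.log_pow, hq] at hmain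
  have hq0 : (0 : ℝ) < q := by exact_mod_cast hq1
  push_cast at hmain
  have h1 : q * (2 * Real.arctan (κ / 2) * ‖Λ‖ ^ 2) ≤ q * (2 * Real.pi * n * Real.log 2 * Λ.re) := by
    calc _ = 2 * Real.arctan (κ / 2) * q * ‖Λ‖ ^ 2 := by ring
      _ ≤ _ := hmain
      _ = _ := by ring
  exact le_of_mul_le_mul_left h1 hq0

end Pool.Agent.KS6_23.ML.PLY
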