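import Pool.Agent.KS6_23.ML.Circ

/-!
# Project ML, module ROT: rotation numbers
-/

set_option autoImplicit false

open Set Filter Metric Topology

namespace Pool.Agent.KS6_23.ML.ROT

open Circ

theorem cont_tn (n : ℕ) (e : ℕ → Bool) :
    Continuous fun η => (Ph e η n).translationNumber := by
  have hu : TendstoUniformly (fun (k : ℕ) (η : ℝ) => ((Ph e η n) ^ (k + 1)) 0 / ((k + 1 : ℕ) : ℝ))
      (fun η => (Ph e η n).translationNumber) atTop := by
    rw [Metric.tendstoUniformly_iff]
    intro ε hε
    obtain ⟨K, hK⟩ := exists_nat_gt (1 / ε)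
    filter_upwards [eventually_ge_atTop K] with k hk η
    have h1 := (Ph e η n).dist_pow_map_zero_mul_translationNumber_le (k + 1)
    have hk0 : (0 : ℝ) < ((k + 1 : ℕ) : ℝ) := by positivity
    rw [Real.dist_eq] at h1 ⊢
    rw [abs_sub_comm]
    have h2 : ((Ph e η n) ^ (k + 1)) 0 / ((k + 1 : ℕ) : ℝ) - (Ph e η n).translationNumber =
        (((Ph e η n) ^ (k + 1)) 0 - ((k + 1 : ℕ) : ℝ) * (Ph e η n).translationNumber) /
          ((k + 1 : ℕ) : ℝ) := by
      field_simp
    rw [h2, abs_div, abs_of_pos hk0, div_lt_iff₀ hk0]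
    refine h1.trans_lt ?_
    rw [div_lt_iff₀ hε] at hK
    have : (K : ℝ) ≤ k := by exact_mod_cast hk
    push_cast
    nlinarith
  refine hu.continuous (Frequently.of_forall fun k => ?_)
  refine Continuous.div_const ?_ _
  have : ∀ m : ℕ, Continuous fun p : ℝ × ℝ => ((Ph e p.1 n) ^ m) p.2 := by
    intro m
    induction m with
    | zero => exact continuous_snd
    | succ m ih =>
      have h2 : (fun p : ℝ × ℝ => ((Ph e p.1 n) ^ (m + 1)) p.2) =
          fun p : ℝ × ℝ => Ph e p.1 n (((Ph e p.1 n) ^ m) p.2) := by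
        funext p
        rw [pow_succ', CircleDeg1Lift.mul_apply]
      rw [h2]
      exact (Ph_cont e n).comp (continuous_fst.prodMk ih)
  exact (this (k + 1)).comp (continuous_id.prodMk continuous_const)

/-- **Rotation numbers.** -/
theorem rot : S_ROT := by
  intro n e hn he
  refine ⟨fun η => (Ph e η n).translationNumber, cont_tn n e, ?_, ?_⟩
  · intro η
    have h1 : Ph e (η + 2) n = (CircleDeg1Lift.translate (Multiplicative.ofAdd (n : ℝ)) :
        CircleDeg1Lift) * Ph e η n := by
      ext x
      rw [CircleDeg1Lift.mul_apply, CircleDeg1Lift.translate_apply, Ph_shift, add_comm]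
    have hc : Commute (CircleDeg1Lift.translate (Multiplicative.ofAdd (n : ℝ)) : CircleDeg1Lift)
        (Ph e η n) := by
      rw [CircleDeg1Lift.commute_iff_commute]
      intro x
      simp
    simp only
    rw [h1, CircleDeg1Lift.translationNumber_mul_of_commute hc,
      CircleDeg1Lift.translationNumber_translate, add_comm]
  · intro η N θ a hnN hA hS
    obtain ⟨q, rfl⟩ := hnN
    have hq : 0 < q := by
      have := hA.pos
      exact Nat.pos_of_ne_zero (by rintro rfl; simp at this)
    have h1 := Ph_angle hA.step hS (n * q)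
    rw [Ph_mul he, ← zero_add (n * q), hA.per 0] at h1
    rw [zero_add] at h1
    have h2 := CircleDeg1Lift.translationNumber_of_map_pow_eq_add_int _ h1 hq
    simp only
    rw [h2]
    have : (q : ℝ) ≠ 0 := by positivity
    push_cast
    field_simp

end Pool.Agent.KS6_23.ML.ROT
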