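import Pool.Agent.KS6_23.ML.SecTools

set_option autoImplicit false

/-!
# Project ML, module 6: existence of extended sectors
-/

open Complex Set Filter Metric Topology MeasureTheory

namespace Pool.Agent.KS6_23.ML.SEC

open SecTools

/-- the part of the sector where `β` is defined at the level `j` -/
def D (κ g : ℝ) (j : ℕ) : Set ℂ := {ζ : ℂ | ζ ∈ Sk κ ∧ g < 2 ^ (j + 1) * ζ.re}

theorem isOpen_D (κ g : ℝ) (j : ℕ) : IsOpen (D κ g j) := by
  apply (isOpen_Sk κ).inter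
  exact isOpen_lt continuous_const (continuous_const.mul continuous_re)

theorem convex_D (κ g : ℝ) (j : ℕ) : Convex ℝ (D κ g j) := by
  apply (convex_Sk κ).inter
  intro x hx y hy a b ha hb hab
  have hx' : g < 2 ^ (j + 1) * x.re := hx
  have hy' : g < 2 ^ (j + 1) * y.re := hy
  have hre : (a • x + b • y).re = a * x.re + b * y.re := by simp
  show g < 2 ^ (j + 1) * (a • x + b • y).re
  rw [hre]
  have h1 : g = a * g + b * g := by rw [← add_mul, hab, one_mul]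
  rcases eq_or_lt_of_le ha with h | h
  · have hb1 : b = 1 := by linarith
    subst h; subst hb1
    simpa using hy'
  · nlinarith

theorem nonempty_D {κ : ℝ} (hκ : 0 < κ) (g : ℝ) : ∃ u : ℝ, 0 < u ∧ (u : ℂ) ∈ D κ g 0 := by
  refine ⟨|g| + 1, by positivity, ofReal_mem_Sk hκ (by positivity), ?_⟩
  simp only [ofReal_re, zero_add, pow_one]
  have := le_abs_self g
  have := abs_nonneg g
  linarith

theorem D_mono {κ : ℝ} (hκ : 0 < κ) (g : ℝ) {i j : ℕ} (h : i ≤ j) : D κ g i ⊆ D κ g j := by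
  intro ζ hζ
  refine ⟨hζ.1, lt_of_lt_of_le hζ.2 ?_⟩
  have := re_pos_of_mem hκ hζ.1
  apply mul_le_mul_of_nonneg_right _ this.le
  exact pow_le_pow_right₀ (by norm_num) (by omega)

theorem mem_D_of {κ : ℝ} (g : ℝ) {ζ : ℂ} (h : ζ ∈ Sk κ) (h2 : g < 2 * ζ.re) :
    ζ ∈ D κ g 0 := ⟨h, by simpa using h2⟩

theorem two_mul_mem_D {κ g : ℝ} {j : ℕ} {ζ : ℂ} (h : ζ ∈ D κ g (j + 1)) : 2 * ζ ∈ D κ g j := by
  refine ⟨two_mul_mem_Sk h.1, ?_⟩
  have := h.2
  have h2 : (2 * ζ).re = 2 * ζ.re := by simp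
  rw [h2]
  calc g < 2 ^ (j + 1 + 1) * ζ.re := this
    _ = 2 ^ (j + 1) * (2 * ζ.re) := by ring

theorem two_mul_mem_D' {κ g : ℝ} (hκ : 0 < κ) {j : ℕ} {ζ : ℂ} (h : ζ ∈ D κ g j) :
    2 * ζ ∈ D κ g j := two_mul_mem_D (D_mono hκ g (Nat.le_succ j) h)

/-- uniqueness -/
theorem uniq {κ : ℝ} (hκ : 0 < κ) (g : ℝ) {j : ℕ} {u v : ℂ → ℂ} (hu : DifferentiableOn ℂ u (D κ g j))
    (hv : DifferentiableOn ℂ v (D κ g j)) (h : ∀ ζ ∈ D κ g 0, u ζ = v ζ) :
    ∀ ζ ∈ D κ g j, u ζ = v ζ := by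
  obtain ⟨x, -, hx⟩ := nonempty_D hκ g
  have h1 : u =ᶠ[𝓝 (x : ℂ)] v := by
    filter_upwards [(isOpen_D κ g 0).mem_nhds hx] with ζ hζ using h ζ hζ
  have := (hu.analyticOnNhd (isOpen_D κ g j)).eqOn_of_preconnected_of_eventuallyEq
    (hv.analyticOnNhd (isOpen_D κ g j)) (convex_D κ g j).isPreconnected
    (D_mono hκ g (Nat.zero_le j) hx) h1
  exact this

/-- extended sectors of the level `j` -/
structure Lev (G : ℂ → ℂ → ℝ) (B : ℂ → ℂ → ℂ) (c : ℂ) (θ : ℕ → ℝ) (κ : ℝ) (j : ℕ)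
    (β : ℕ → ℂ → ℂ) : Prop where
  diff : ∀ k, DifferentiableOn ℂ (β k) (D κ (G c c) j)
  base : ∀ k, ∀ ζ ∈ D κ (G c c) 0, β k ζ = B c (ζ + θ k * tpi)
  step : ∀ k, ∀ ζ ∈ D κ (G c c) j, f c (β k ζ) = β (k + 1) (2 * ζ)
  grn : ∀ k, ∀ ζ ∈ D κ (G c c) j, G c (β k ζ) = ζ.re

variable {G : ℂ → ℂ → ℝ} {B : ℂ → ℂ → ℂ} {cc : ℂ → ℂ}

theorem lev_zero (hb : Base G B cc) {c : ℂ} {N : ℕ} {θ : ℕ → ℝ} {a : ℕ → ℤ} {κ : ℝ}
    (ha : Ang N θ a) (hκ : 0 < κ) : Lev G B c θ κ 0 (fun k ζ => B c (ζ + θ k * tpi)) := by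
  have hre : ∀ (ζ : ℂ) (x : ℝ), (ζ + x * tpi).re = ζ.re := by
    intro ζ x
    simp [tpi]
  have hdom : ∀ ζ ∈ D κ (G c c) 0, G c c < 2 * ζ.re := by
    intro ζ hζ
    simpa using hζ.2
  refine ⟨?_, fun k ζ _ => rfl, ?_, ?_⟩
  · intro k ζ hζ
    have h1 : DifferentiableAt ℂ (B c) (ζ + θ k * tpi) := by
      apply hb.bdiff
      rw [hre]; exact hdom ζ hζ
    exact (h1.comp ζ (differentiableAt_id.add_const _)).differentiableWithinAt
  · intro k ζ hζ
    have h1 := hdom ζ hζ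
    have hpos := re_pos_of_mem hκ hζ.1
    show f c (B c (ζ + θ k * tpi)) = B c (2 * ζ + θ (k + 1) * tpi)
    rw [hb.bf c _ (by rw [hre]; exact h1)]
    have h2 : 2 * (ζ + θ k * tpi) = (2 * ζ + θ (k + 1) * tpi) + (a k : ℤ) * tpi := by
      have := ha.step k
      have h3 : (2 : ℂ) * θ k = θ (k + 1) + a k := by
        have := congrArg (fun x : ℝ => (x : ℂ)) this
        push_cast at this
        simpa using this
      calc 2 * (ζ + θ k * tpi) = 2 * ζ + (2 * θ k) * tpi := by ring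
        _ = 2 * ζ + (θ (k + 1) + a k) * tpi := by rw [h3]
        _ = _ := by ring
    rw [h2, B_per hb.toBott]
    rw [hre]
    have : (2 * ζ).re = 2 * ζ.re := by simp
    rw [this]; linarith
  · intro k ζ hζ
    show G c (B c (ζ + θ k * tpi)) = ζ.re
    rw [hb.bG c _ (by rw [hre]; exact hdom ζ hζ), hre]

theorem lev_succ (hb : Base G B cc) {c : ℂ} {θ : ℕ → ℝ} {κ : ℝ}
    (hκ : 0 < κ) (hF : Free cc c θ κ) {j : ℕ} {β : ℕ → ℂ → ℂ} (hβ : Lev G B c θ κ j β) :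
    ∃ β', Lev G B c θ κ (j + 1) β' := by
  have hre : ∀ (ζ : ℂ) (x : ℝ), (ζ + x * tpi).re = ζ.re := by
    intro ζ x
    simp [tpi]
  have h2re : ∀ ζ : ℂ, (2 * ζ).re = 2 * ζ.re := by intro ζ; simp
  -- the function of which the square root is taken
  have key : ∀ k, ∀ ζ ∈ D κ (G c c) (j + 1), β (k + 1) (2 * ζ) - c ≠ 0 := by
    intro k ζ hζ h0
    have h1 : β (k + 1) (2 * ζ) = c := sub_eq_zero.1 h0
    have hpos := re_pos_of_mem hκ hζ.1
    have h2 := hβ.grn (k + 1) (2 * ζ) (two_mul_mem_D hζ)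
    rw [h1, h2re] at h2
    have h3 : c ∉ MM := by
      intro h
      rw [(hb.gM c).2 h] at h2
      linarith
    obtain ⟨w, hw, hwc⟩ := hb.psurj c h3
    have hwre : w.re = 2 * ζ.re := by
      rw [← hb.pG w hw, hwc, h2]
    have h4 : 2 * ζ ∈ D κ (G c c) 0 := by
      refine mem_D_of _ (two_mul_mem_Sk hζ.1) ?_
      rw [h2re, h2]; linarith
    have h5 := hβ.base (k + 1) (2 * ζ) h4
    have h6 : B c w = c := by
      have := hb.pB w hw
      rwa [hwc] at this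
    have h7 : B c w = B c (2 * ζ + θ (k + 1) * tpi) := by rw [h6, ← h5, h1]
    obtain ⟨m, hm⟩ := hb.binj c w (2 * ζ + θ (k + 1) * tpi) (by rw [h2, hwre]; linarith)
      (by rw [hre, h2re, h2]; linarith) h7
    have h8 : w = 2 * ζ + (θ (k + 1) + (-m : ℤ)) * tpi := by
      push_cast
      linear_combination -hm
    have h9 := hF w hw hwc (k + 1) (-m)
    have h10 : w.im = 2 * ζ.im + 2 * Real.pi * (θ (k + 1) + (-m : ℤ)) := by
      rw [h8]
      simp [tpi]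
      ring
    rw [h10, hwre] at h9
    have h11 : 2 * ζ.im + 2 * Real.pi * (θ (k + 1) + (-m : ℤ)) -
      2 * Real.pi * (θ (k + 1) + (-m : ℤ)) = 2 * ζ.im := by ring
    rw [h11, abs_mul, abs_of_pos (by norm_num : (0 : ℝ) < 2)] at h9
    have h12 : |ζ.im| < κ * ζ.re := hζ.1
    linarith
  have hne : (D κ (G c c) (j + 1)).Nonempty := by
    obtain ⟨x, -, hx⟩ := nonempty_D hκ (G c c)
    exact ⟨x, D_mono hκ _ (Nat.zero_le _) hx⟩
  have hsq : ∀ k, ∃ F : ℂ → ℂ, DifferentiableOn ℂ F (D κ (G c c) (j + 1)) ∧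
      (∀ z ∈ D κ (G c c) (j + 1), F z ^ 2 = β (k + 1) (2 * z) - c) ∧
      ∀ z ∈ D κ (G c c) j, F z = β k z := by
    intro k
    have hd : DifferentiableOn ℂ (fun z => β (k + 1) (2 * z) - c) (D κ (G c c) (j + 1)) := by
      intro z hz
      have h1 : DifferentiableAt ℂ (β (k + 1)) (2 * z) :=
        (hβ.diff (k + 1)).differentiableAt ((isOpen_D _ _ _).mem_nhds (two_mul_mem_D hz))
      have h2 : DifferentiableAt ℂ (fun z : ℂ => 2 * z) z := by fun_prop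
      exact ((h1.comp z h2).sub_const c).differentiableWithinAt
    obtain ⟨F, hF1, hF2⟩ := exists_sqrt (convex_D _ _ _) hne (isOpen_D κ (G c c) (j + 1)) hd
      (key k)
    have hsub : D κ (G c c) j ⊆ D κ (G c c) (j + 1) := D_mono hκ _ (Nat.le_succ j)
    have hsqj : ∀ z ∈ D κ (G c c) j, β k z ^ 2 = F z ^ 2 := by
      intro z hz
      have h1 := hβ.step k z hz
      rw [hF2 z (hsub hz), ← h1]
      simp [f]
    obtain ⟨x, hx0, hx⟩ := nonempty_D hκ (G c c)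
    have hxj : (x : ℂ) ∈ D κ (G c c) j := D_mono hκ _ (Nat.zero_le _) hx
    have hF0 : ∀ z ∈ D κ (G c c) (j + 1), F z ≠ 0 := by
      intro z hz h
      have := hF2 z hz
      rw [h] at this
      exact key k z hz (by rw [← this]; ring)
    rcases sq_eq_sq_iff_eq_or_eq_neg.1 (hsqj x hxj) with h | h
    · refine ⟨F, hF1, hF2, ?_⟩
      intro z hz
      exact (sq_eq_on (convex_D κ (G c c) j).isPreconnected (hβ.diff k).continuousOn
        (hF1.continuousOn.mono hsub) (fun z hz => hF0 z (hsub hz)) hsqj hxj h z hz).symm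
    · refine ⟨fun z => -F z, hF1.neg, ?_, ?_⟩
      · intro z hz
        simp only [neg_sq]
        exact hF2 z hz
      · intro z hz
        refine (sq_eq_on (h := fun z => -F z) (convex_D κ (G c c) j).isPreconnected
          (hβ.diff k).continuousOn (hF1.neg.continuousOn.mono hsub)
          (fun z hz => neg_ne_zero.2 (hF0 z (hsub hz))) ?_ hxj h z hz).symm
        intro z hz
        simp only [neg_sq]
        exact hsqj z hz
  choose β' h1 h2 h3 using hsq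
  refine ⟨β', h1, ?_, ?_, ?_⟩
  · intro k ζ hζ
    rw [h3 k ζ (D_mono hκ _ (Nat.zero_le _) hζ)]
    exact hβ.base k ζ hζ
  · intro k ζ hζ
    have h4 := h2 k ζ hζ
    rw [h3 (k + 1) (2 * ζ) (two_mul_mem_D hζ)]
    simp only [f]
    rw [h4]; ring
  · intro k ζ hζ
    have h4 := h2 k ζ hζ
    have h5 : f c (β' k ζ) = β (k + 1) (2 * ζ) := by
      simp only [f]
      rw [h4]; ring
    have h6 := hb.gf c (β' k ζ)
    rw [h5, hβ.grn (k + 1) (2 * ζ) (two_mul_mem_D hζ), h2re] at h6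
    linarith

theorem lev_all (hb : Base G B cc) {c : ℂ} {N : ℕ} {θ : ℕ → ℝ} {a : ℕ → ℤ} {κ : ℝ}
    (ha : Ang N θ a) (hκ : 0 < κ) (hF : Free cc c θ κ) (j : ℕ) : ∃ β, Lev G B c θ κ j β := by
  induction j with
  | zero => exact ⟨_, lev_zero hb ha hκ⟩
  | succ j ih =>
    obtain ⟨β, hβ⟩ := ih
    exact lev_succ hb hκ hF hβ

/-- **Module 6**: existence of extended sectors -/
theorem sec : S_SEC := by
  intro G B cc hb c N θ a κ ha hκ hF
  choose b hbl using lev_all (G := G) (B := B) (cc := cc) hb ha hκ hF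
  -- compatibility
  have comp : ∀ i j, i ≤ j → ∀ k, ∀ ζ ∈ D κ (G c c) i, b j k ζ = b i k ζ := by
    intro i j hij k
    apply uniq hκ (G c c) (((hbl j).diff k).mono (D_mono hκ _ hij)) ((hbl i).diff k)
    intro ζ hζ
    rw [(hbl j).base k ζ hζ, (hbl i).base k ζ hζ]
  have hex : ∀ ζ ∈ Sk κ, ∃ j, ζ ∈ D κ (G c c) j := by
    intro ζ hζ
    have hpos := re_pos_of_mem hκ hζ
    obtain ⟨j, hj⟩ := pow_unbounded_of_one_lt (G c c / ζ.re) (by norm_num : (1 : ℝ) < 2)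
    refine ⟨j, hζ, ?_⟩
    rw [div_lt_iff₀ hpos] at hj
    have : (2 : ℝ) ^ (j + 1) = 2 ^ j * 2 := pow_succ _ _
    rw [this]
    have h2 : (0 : ℝ) < 2 ^ j * ζ.re := by positivity
    linarith
  classical
  let jj : ℂ → ℕ := fun ζ => if h : ∃ j, ζ ∈ D κ (G c c) j then Nat.find h else 0
  have hjj : ∀ ζ ∈ Sk κ, ζ ∈ D κ (G c c) (jj ζ) := by
    intro ζ hζ
    have h := hex ζ hζ
    simp only [jj, dif_pos h]
    exact Nat.find_spec h
  have hval : ∀ k, ∀ i, ∀ ζ ∈ D κ (G c c) i, b (jj ζ) k ζ = b i k ζ := by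
    intro k i ζ hζ
    rcases le_total i (jj ζ) with h | h
    · exact comp i (jj ζ) h k ζ hζ
    · exact (comp (jj ζ) i h k ζ (hjj ζ hζ.1)).symm
  refine ⟨fun k ζ => b (jj ζ) k ζ, ?_, ?_, ?_, ?_, ?_⟩
  · intro k ζ hζ
    have h1 := hjj ζ hζ
    have h2 : DifferentiableAt ℂ (b (jj ζ) k) ζ :=
      ((hbl (jj ζ)).diff k).differentiableAt ((isOpen_D _ _ _).mem_nhds h1)
    apply DifferentiableAt.differentiableWithinAt
    apply h2.congr_of_eventuallyEq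
    filter_upwards [(isOpen_D κ (G c c) (jj ζ)).mem_nhds h1] with η hη
    exact hval k (jj ζ) η hη
  · intro k ζ hζ h
    have h0 := mem_D_of (G c c) hζ h
    show b (jj ζ) k ζ = _
    rw [hval k 0 ζ h0, (hbl 0).base k ζ h0]
  · intro k ζ hζ
    have h1 := hjj ζ hζ
    show f c (b (jj ζ) k ζ) = b (jj (2 * ζ)) (k + 1) (2 * ζ)
    rw [(hbl (jj ζ)).step k ζ h1, hval (k + 1) (jj ζ) (2 * ζ) (two_mul_mem_D' hκ h1)]
  · intro k ζ hζ
    exact (hbl (jj ζ)).grn k ζ (hjj ζ hζ)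
  · intro k ζ hζ
    have h1 := hjj ζ hζ
    show b (jj ζ) (k + N) ζ = b (jj ζ) k ζ
    apply uniq hκ (G c c) ((hbl (jj ζ)).diff (k + N)) ((hbl (jj ζ)).diff k) _ ζ h1
    intro η hη
    rw [(hbl (jj ζ)).base (k + N) η hη, (hbl (jj ζ)).base k η hη, ha.per k]

end Pool.Agent.KS6_23.ML.SEC
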