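import Pool.Agent.KS6_23.ML.Basic
import Pool.Graph.R_pool_sql_team_seeded_1acbe0a2.Y475.PC.IFT0

set_option autoImplicit false

/-! # Project ML: joint analyticity of the iterates, the implicit function theorem for the
periodic points -/

open Complex Set Filter Metric Topology

namespace Pool.Agent.KS6_23.ML.XTools

open Pool.Agent.KS6_23.ML Pool.Agent.KS6_23.ML.Basic

theorem iter_succ (c z : ℂ) (n : ℕ) : (f c)^[n + 1] z = ((f c)^[n] z) ^ 2 + c := by
  rw [Function.iterate_succ_apply']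
  rfl

theorem mul_succ (c z : ℂ) (n : ℕ) : mul (n + 1) c z = mul n c z * (2 * (f c)^[n] z) := by
  rw [mul_eq_prod, mul_eq_prod, Finset.prod_range_succ]

theorem ana_iter (n : ℕ) (c z : ℂ) : AnalyticAt ℂ (fun p : ℂ × ℂ => (f p.1)^[n] p.2) (c, z) := by
  induction n with
  | zero => exact analyticAt_snd
  | succ n ih =>
    have : (fun p : ℂ × ℂ => (f p.1)^[n + 1] p.2) = fun p => ((f p.1)^[n] p.2) ^ 2 + p.1 :=
      funext fun p => iter_succ p.1 p.2 n
    rw [this]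
    exact (ih.pow 2).add analyticAt_fst

theorem ana_mul (n : ℕ) (c z : ℂ) : AnalyticAt ℂ (fun p : ℂ × ℂ => mul n p.1 p.2) (c, z) := by
  induction n with
  | zero =>
    have : (fun p : ℂ × ℂ => mul 0 p.1 p.2) = fun _ => 1 :=
      funext fun p => by rw [mul_eq_prod]; simp
    rw [this]
    exact analyticAt_const
  | succ n ih =>
    have : (fun p : ℂ × ℂ => mul (n + 1) p.1 p.2) =
        fun p => mul n p.1 p.2 * (2 * (f p.1)^[n] p.2) := funext fun p => mul_succ p.1 p.2 n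
    rw [this]
    exact ih.mul (analyticAt_const.mul (ana_iter n c z))

theorem cont_iter (n : ℕ) : Continuous (fun p : ℂ × ℂ => (f p.1)^[n] p.2) :=
  continuous_iff_continuousAt.2 fun p => (ana_iter n p.1 p.2).continuousAt

theorem cont_mul (n : ℕ) : Continuous (fun p : ℂ × ℂ => mul n p.1 p.2) :=
  continuous_iff_continuousAt.2 fun p => (ana_mul n p.1 p.2).continuousAt

theorem hasDerivAt_iter (n : ℕ) (c z : ℂ) : HasDerivAt ((f c)^[n]) (mul n c z) z :=
  ((differentiable_iter c n) z).hasDerivAt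

/-- the periodic point near a periodic point with multiplier `≠ 1` -/
theorem ift_fix {n : ℕ} {c₀ z₀ : ℂ} (h : (f c₀)^[n] z₀ = z₀) (hm : mul n c₀ z₀ ≠ 1) :
    ∃ (δ η : ℝ) (y : ℂ → ℂ), 0 < δ ∧ 0 < η ∧ DifferentiableOn ℂ y (ball c₀ δ) ∧ y c₀ = z₀ ∧
      (∀ c ∈ ball c₀ δ, (f c)^[n] (y c) = y c) ∧
      ∀ c ∈ ball c₀ δ, ∀ z ∈ ball z₀ η, (f c)^[n] z = z → z = y c := by
  obtain ⟨δ, η, y, hδ, hη, hy, hy0, hyF, hyu⟩ := Pool.Agent.Y475.PC.ift
    (fun p : ℂ × ℂ => (f p.1)^[n] p.2 - p.2) c₀ z₀ ((ana_iter n c₀ z₀).sub analyticAt_snd)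
    (sub_eq_zero.mpr h) (by
      have h2 : HasDerivAt (fun y => (f c₀)^[n] y - y) (mul n c₀ z₀ - 1) z₀ :=
        (hasDerivAt_iter n c₀ z₀).sub (hasDerivAt_id z₀)
      show deriv (fun y => (f c₀)^[n] y - y) z₀ ≠ 0
      rw [h2.deriv]
      exact sub_ne_zero.mpr hm)
  exact ⟨δ, η, y, hδ, hη, hy, hy0, fun c hc => sub_eq_zero.1 (hyF c hc),
    fun c hc z hz hzf => hyu c hc z hz (sub_eq_zero.2 hzf)⟩

end Pool.Agent.KS6_23.ML.XTools
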