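import Pool.Agent.KS6_23.ML.PLY
import Pool.Agent.KS6_23.ML.SEC
import Pool.Agent.KS6_23.ML.XTools

set_option autoImplicit false

/-!
# Project ML, module 12: stability of landing at repelling points
-/

open Complex Set Filter Metric Topology MeasureTheory

namespace Pool.Agent.KS6_23.ML.STAB

open SecTools LAND PLY

variable {G : ℂ → ℂ → ℝ} {B : ℂ → ℂ → ℂ} {cc : ℂ → ℂ}

theorem re_add (ζ : ℂ) (x : ℝ) : (ζ + x * tpi).re = ζ.re := by
  simp [tpi]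

theorem re_mul (t : ℝ) (ζ : ℂ) : ((t : ℂ) * ζ).re = t * ζ.re := by
  rw [re_ofReal_mul]

/-! ## The rays of the parameter of the centre -/

/-- for `c` in the Mandelbrot set the sectors are arbitrarily large -/
theorem sec_of_mem (hb : Base G B cc) {c : ℂ} (hc : c ∈ MM) {N : ℕ} {θ : ℕ → ℝ} {a : ℕ → ℤ}
    (ha : Ang N θ a) {κ : ℝ} (hκ : 0 < κ) :
    Sec G B c N θ κ (fun k ζ => B c (ζ + θ k * tpi)) := by
  have h0 : G c c = 0 := (hb.gM c).2 hc
  have hD : ∀ ζ ∈ Sk κ, ζ ∈ SEC.D κ (G c c) 0 := by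
    intro ζ hζ
    refine ⟨hζ, ?_⟩
    rw [h0]
    have := re_pos_of_mem hκ hζ
    positivity
  have hl := SEC.lev_zero (c := c) hb ha hκ
  refine ⟨?_, ?_, ?_, ?_, ?_⟩
  · intro k
    exact (hl.diff k).mono hD
  · intro k ζ _ _
    rfl
  · intro k ζ hζ
    exact hl.step k ζ (hD ζ hζ)
  · intro k ζ hζ
    exact hl.grn k ζ (hD ζ hζ)
  · intro k ζ _
    show B c (ζ + θ (k + N) * tpi) = B c (ζ + θ k * tpi)
    rw [ha.per]

/-- the landing data do not depend on the opening of the sector -/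
theorem change_sector (hb : Base G B cc) {c : ℂ} (hc : c ∈ MM) {N : ℕ} {θ : ℕ → ℝ} {a : ℕ → ℤ}
    (ha : Ang N θ a) {κ₀ κ₁ : ℝ} (hκ₀ : 0 < κ₀) (hκ₁ : 0 < κ₁) {β₀ : ℕ → ℂ → ℂ} {zz : ℕ → ℂ}
    {Λ : ℂ} (hs : Sec G B c N θ κ₀ β₀) (hl : Land N κ₀ β₀ zz Λ) :
    Land N κ₁ (fun k ζ => B c (ζ + θ k * tpi)) zz Λ := by
  have h0 : G c c = 0 := (hb.gM c).2 hc
  have hs₁ := sec_of_mem hb hc ha hκ₁
  obtain ⟨zz', Λ', hl', -⟩ := land G B cc hb c N θ a κ₁ _ ha hκ₁ hs₁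
  set κm := min κ₀ κ₁ with hκm
  have hm : 0 < κm := lt_min hκ₀ hκ₁
  have hNB := neBot_Sk (κ := κm / 2) (by positivity)
  have hle0 : κm ≤ κ₀ := min_le_left _ _
  have hle1 : κm ≤ κ₁ := min_le_right _ _
  have hmono0 : 𝓝[Sk (κm / 2)] (0 : ℂ) ≤ 𝓝[Sk (κ₀ / 2)] 0 :=
    nhdsWithin_mono _ (Sk_mono (by positivity) (by linarith))
  have hmono1 : 𝓝[Sk (κm / 2)] (0 : ℂ) ≤ 𝓝[Sk (κ₁ / 2)] 0 :=
    nhdsWithin_mono _ (Sk_mono (by positivity) (by linarith))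
  have hsub0 : Sk κm ⊆ Sk κ₀ := Sk_mono hm hle0
  have hsub1 : Sk κm ⊆ Sk κ₁ := Sk_mono hm hle1
  have hsubm : Sk (κm / 2) ⊆ Sk κm := Sk_mono (by positivity) (by linarith)
  have heq : ∀ k, ∀ ζ ∈ Sk κ₀, β₀ k ζ = B c (ζ + θ k * tpi) := by
    intro k ζ hζ
    apply hs.base k ζ hζ
    rw [h0]
    have := re_pos_of_mem hκ₀ hζ
    positivity
  have hz : zz' = zz := by
    funext k
    refine tendsto_nhds_unique ((hl'.lim k).mono_left hmono1) ?_
    refine ((hl.lim k).mono_left hmono0).congr' ?_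
    filter_upwards [self_mem_nhdsWithin] with ζ hζ
    exact heq k ζ (hsub0 (hsubm hζ))
  obtain ⟨F, hF1, hF2, hF3⟩ := hl.lam
  obtain ⟨F', hF1', hF2', hF3'⟩ := hl'.lam
  have hΛ : Λ' = Λ := by
    refine tendsto_nhds_unique (hF3'.mono_left hmono1) ((hF3.mono_left hmono0).congr' ?_)
    filter_upwards [self_mem_nhdsWithin] with ζ hζ
    apply log_unique (κ := κm) (hF1.continuousOn.mono hsub0) (hF1'.continuousOn.mono hsub1)
    · intro η hη
      rw [hF2 η (hsub0 hη), hF2' η (hsub1 hη), hz, heq 0 η (hsub0 hη)]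
    · exact pow_mem N (hsubm hζ)
    · exact hsubm hζ
  rw [← hz, ← hΛ]
  exact hl'

/-! ## Multipliers along the cycle -/

theorem iter_comm_f (c : ℂ) (n : ℕ) (z : ℂ) : (f c)^[n] (f c z) = f c ((f c)^[n] z) := by
  rw [← Function.iterate_succ_apply, Function.iterate_succ_apply']

theorem mul_shift {c z : ℂ} {n : ℕ} (hn : 1 ≤ n) (hz : (f c)^[n] z = z) (hm : mul n c z ≠ 0) :
    mul n c (f c z) = mul n c z := by
  rw [Basic.mul_eq_prod, Basic.mul_eq_prod]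
  obtain ⟨m, rfl⟩ : ∃ m, n = m + 1 := ⟨n - 1, by omega⟩
  rw [Finset.prod_range_succ, Finset.prod_range_succ']
  congr 1
  rw [← Function.iterate_succ_apply, hz]
  rfl

theorem mul_zz {c : ℂ} {N : ℕ} (hN : 1 ≤ N) {zz : ℕ → ℂ} (hstep : ∀ k, f c (zz k) = zz (k + 1))
    (hfix : ∀ k, (f c)^[N] (zz k) = zz k) (h : 1 < ‖mul N c (zz 0)‖) (k : ℕ) :
    mul N c (zz k) = mul N c (zz 0) := by
  induction k with
  | zero => rfl
  | succ k ih =>
    rw [← hstep k, mul_shift hN (hfix k) _, ih]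
    rw [ih]
    intro h0
    rw [h0, norm_zero] at h
    linarith

/-- the critical value is not on a repelling cycle -/
theorem crit_ne {c z : ℂ} {N : ℕ} (hN : 1 ≤ N) (hz : (f c)^[N] z = z) (h : 1 < ‖mul N c z‖) :
    c ≠ z := by
  intro hcz
  obtain ⟨m, rfl⟩ : ∃ m, N = m + 1 := ⟨N - 1, by omega⟩
  have h1 : (f c)^[m] z = 0 := by
    rw [Function.iterate_succ_apply'] at hz
    have h2 : ((f c)^[m] z) ^ 2 + c = z := hz
    rw [← hcz] at h2
    have h3 : ((f c)^[m] c) ^ 2 = 0 := by linear_combination h2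
    rw [← hcz]
    exact pow_eq_zero_iff (by norm_num) |>.1 h3
  rw [Basic.mul_eq_prod, Finset.prod_range_succ, h1] at h
  simp at h
  linarith

/-! ## The local dynamics near the repelling point -/

/-- the derivative is nearly constant in a small disc, and the disc is expanded -/
theorem local_exp {c₀ z₀ : ℂ} {N : ℕ} (hz : (f c₀)^[N] z₀ = z₀) (h : 1 < ‖mul N c₀ z₀‖) {e ε : ℝ}
    (he : 0 < e) (hε : 0 < ε) : ∃ r δ : ℝ, 0 < r ∧ r < e ∧ 0 < δ ∧ ∀ c, ‖c - c₀‖ < δ →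
      (∀ y ∈ closedBall z₀ r, ∀ y' ∈ closedBall z₀ r,
        ‖(f c)^[N] y - (f c)^[N] y' - mul N c₀ z₀ * (y - y')‖ ≤ ε * ‖y - y'‖) ∧
      ∀ y, ‖y - z₀‖ = r → r < ‖(f c)^[N] y - z₀‖ := by
  set ρ := mul N c₀ z₀ with hρ
  set ε' := min ε ((‖ρ‖ - 1) / 2) with hε'
  have hε'0 : 0 < ε' := lt_min hε (by linarith)
  -- the derivative is close to `ρ`
  have h1 : ∀ᶠ p in 𝓝 ((c₀, z₀) : ℂ × ℂ), ‖mul N p.1 p.2 - ρ‖ < ε' := by
    have := (XTools.cont_mul N).continuousAt (x := ((c₀, z₀) : ℂ × ℂ))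
    have h2 := (Metric.tendsto_nhds.1 this) ε' hε'0
    filter_upwards [h2] with p hp
    rwa [dist_eq_norm] at hp
  rw [Metric.eventually_nhds_iff_ball] at h1
  obtain ⟨s, hs, h1⟩ := h1
  rw [← ball_prod_same] at h1
  set r := min (s / 2) (e / 2) with hr
  have hr0 : 0 < r := lt_min (by positivity) (by positivity)
  have hrs : r < s := lt_of_le_of_lt (min_le_left _ _) (by linarith)
  have hre : r < e := lt_of_le_of_lt (min_le_right _ _) (by linarith)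
  -- the image of `z₀`
  have h3 : ∀ᶠ c in 𝓝 c₀, ‖(f c)^[N] z₀ - z₀‖ < (‖ρ‖ - 1) / 2 * r := by
    have h4 : Continuous (fun c : ℂ => (f c)^[N] z₀) :=
      (XTools.cont_iter N).comp (Continuous.prodMk_left z₀)
    have h5 := h4.continuousAt (x := c₀)
    have h6 := (Metric.tendsto_nhds.1 h5) ((‖ρ‖ - 1) / 2 * r) (mul_pos (by linarith) hr0)
    filter_upwards [h6] with c hc
    rw [dist_eq_norm] at hc
    rwa [hz] at hc
  obtain ⟨δ', hδ', h3⟩ := Metric.eventually_nhds_iff_ball.1 h3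
  refine ⟨r, min s δ', hr0, hre, lt_min hs hδ', ?_⟩
  intro c hc
  have hcs : c ∈ ball c₀ s := by
    rw [mem_ball, dist_eq_norm]; exact lt_of_lt_of_le hc (min_le_left _ _)
  have hcδ : c ∈ ball c₀ δ' := by
    rw [mem_ball, dist_eq_norm]; exact lt_of_lt_of_le hc (min_le_right _ _)
  have hmain : ∀ y ∈ closedBall z₀ r, ∀ y' ∈ closedBall z₀ r,
      ‖(f c)^[N] y - (f c)^[N] y' - ρ * (y - y')‖ ≤ ε' * ‖y - y'‖ := by
    intro y hy y' hy'
    have hder : ∀ x ∈ closedBall z₀ r,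
        HasDerivWithinAt (fun x => (f c)^[N] x - ρ * x) (mul N c x - ρ) (closedBall z₀ r) x := by
      intro x _
      have h5 := (XTools.hasDerivAt_iter N c x).sub ((hasDerivAt_id x).const_mul ρ)
      have h6 : HasDerivAt (fun x => (f c)^[N] x - ρ * x) (mul N c x - ρ) x := by
        rw [mul_one] at h5
        exact h5
      exact h6.hasDerivWithinAt
    have h5 := (convex_closedBall z₀ r).norm_image_sub_le_of_norm_hasDerivWithin_le
      (C := ε') hder (fun x hx => (h1 (c, x) ⟨hcs, closedBall_subset_ball hrs hx⟩).le) hy' hy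
    have h6 : (f c)^[N] y - (f c)^[N] y' - ρ * (y - y') =
        ((f c)^[N] y - ρ * y) - ((f c)^[N] y' - ρ * y') := by ring
    rw [h6]
    exact h5
  refine ⟨fun y hy y' hy' => (hmain y hy y' hy').trans
    (mul_le_mul_of_nonneg_right (min_le_left _ _) (norm_nonneg _)), ?_⟩
  intro y hy
  have h5 := hmain y (by rw [mem_closedBall, dist_eq_norm, hy]) z₀ (mem_closedBall_self hr0.le)
  rw [hy] at h5
  have h6 := h3 c hcδ
  have h8 : ‖ρ‖ * r ≤ ‖(f c)^[N] y - z₀‖ + ‖(f c)^[N] z₀ - z₀‖ + ε' * r := by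
    have h7 : ‖ρ * (y - z₀)‖ ≤ ‖((f c)^[N] y - z₀) - ((f c)^[N] z₀ - z₀)‖ +
          ‖(f c)^[N] y - (f c)^[N] z₀ - ρ * (y - z₀)‖ := by
      have h10 := norm_sub_le (((f c)^[N] y - z₀) - ((f c)^[N] z₀ - z₀))
        ((f c)^[N] y - (f c)^[N] z₀ - ρ * (y - z₀))
      have h11 : ((f c)^[N] y - z₀) - ((f c)^[N] z₀ - z₀) -
        ((f c)^[N] y - (f c)^[N] z₀ - ρ * (y - z₀)) = ρ * (y - z₀) := by ring
      rwa [h11] at h10
    rw [norm_mul, hy] at h7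
    have := norm_sub_le ((f c)^[N] y - z₀) ((f c)^[N] z₀ - z₀)
    linarith
  have h9 : ε' ≤ (‖ρ‖ - 1) / 2 := min_le_right _ _
  nlinarith

/-- a path which is pulled back by an expanding map stays in the disc -/
theorem stay {z₀ : ℂ} {r : ℝ} {F : ℂ → ℂ} (hF : ∀ y, ‖y - z₀‖ = r → r < ‖F y - z₀‖) {b : ℝ → ℂ}
    {T : ℝ} (hT : 1 ≤ T) {p : ℝ} (hp : 1 < p) (hb : ContinuousOn b (Icc 1 T))
    (h1 : ∀ t ∈ Icc 1 T, T ≤ p * t → ‖b t - z₀‖ < r)
    (h2 : ∀ t ∈ Icc 1 T, p * t ≤ T → F (b t) = b (p * t)) : ‖b 1 - z₀‖ < r := by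
  by_contra hcon
  push Not at hcon
  -- the last point outside
  have hcpt : IsCompact (Icc 1 T ∩ {t | r ≤ ‖b t - z₀‖}) := by
    have hcl : IsClosed (Icc 1 T ∩ {t | r ≤ ‖b t - z₀‖}) := by
      have := ContinuousOn.preimage_isClosed_of_isClosed (f := fun t => ‖b t - z₀‖)
        (hb.sub continuousOn_const).norm isClosed_Icc (t := Ici r) isClosed_Ici
      exact this
    exact isCompact_Icc.of_isClosed_subset hcl inter_subset_left
  obtain ⟨t, ⟨ht1, ht2⟩, ht3⟩ := hcpt.exists_isGreatest ⟨1, ⟨le_refl _, hT⟩, hcon⟩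
  have ht2' : r ≤ ‖b t - z₀‖ := ht2
  have hpt : p * t < T := by
    by_contra h
    push Not at h
    have := h1 t ht1 h
    linarith
  have ht0 : 0 < t := lt_of_lt_of_le one_pos ht1.1
  have htp : t < p * t := by nlinarith
  have ht4 : p * t ∈ Icc 1 T := ⟨by linarith [ht1.1], hpt.le⟩
  have hafter : ∀ s ∈ Icc 1 T, t < s → ‖b s - z₀‖ < r := by
    intro s hs hts
    by_contra h
    push Not at h
    have := ht3 ⟨hs, h⟩
    linarith
  -- equality at `t`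
  have heq : ‖b t - z₀‖ = r := by
    apply le_antisymm _ ht2'
    have hlim : Tendsto (fun s => ‖b s - z₀‖) (𝓝[Ioc t T] t) (𝓝 ‖b t - z₀‖) := by
      have h3 : ContinuousWithinAt b (Icc 1 T) t := hb t ht1
      have h4 : ContinuousWithinAt b (Ioc t T) t :=
        h3.mono (fun s hs => ⟨by linarith [ht1.1, hs.1], hs.2⟩)
      exact (h4.sub continuousWithinAt_const).norm
    have hNB : (𝓝[Ioc t T] t).NeBot := by
      rw [← mem_closure_iff_nhdsWithin_neBot, closure_Ioc (by linarith : t ≠ T)]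
      exact ⟨le_refl _, by linarith⟩
    refine le_of_tendsto hlim ?_
    filter_upwards [self_mem_nhdsWithin] with s hs
    exact (hafter s ⟨by linarith [ht1.1, hs.1], hs.2⟩ hs.1).le
  have h5 := hF (b t) heq
  rw [h2 t ht1 hpt.le] at h5
  have h6 := hafter (p * t) ht4 htp
  linarith

/-! ## Nearby parameters -/

/-- `B` is continuous, uniformly on compact sets -/
theorem B_near (hb : Base G B cc) {c₀ : ℂ} (hc₀ : c₀ ∈ MM) {K : Set ℂ} (hK : IsCompact K)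
    (hKp : ∀ ζ ∈ K, 0 < ζ.re) {ε : ℝ} (hε : 0 < ε) :
    ∀ᶠ c in 𝓝 c₀, ∀ ζ ∈ K, G c c < 2 * ζ.re ∧ ‖B c ζ - B c₀ ζ‖ < ε := by
  have h0 : G c₀ c₀ = 0 := (hb.gM c₀).2 hc₀
  have hGc : Continuous (fun c : ℂ => G c c) :=
    Continuous.comp (g := fun p : ℂ × ℂ => G p.1 p.2) (f := fun c : ℂ => (c, c)) hb.gcont
      (by fun_prop)
  have hopen : IsOpen {p : ℂ × ℂ | G p.1 p.1 < 2 * p.2.re} := by
    apply isOpen_lt
    · exact hGc.comp continuous_fst
    · exact continuous_const.mul (continuous_re.comp continuous_snd)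
  apply hK.eventually_forall_of_forall_eventually
  intro ζ hζ
  have hmem : ((c₀, ζ) : ℂ × ℂ) ∈ {p : ℂ × ℂ | G p.1 p.1 < 2 * p.2.re} := by
    show G c₀ c₀ < 2 * ζ.re
    rw [h0]
    have := hKp ζ hζ
    positivity
  have h1 : ContinuousAt (fun p : ℂ × ℂ => B p.1 p.2) (c₀, ζ) :=
    hb.bcont.continuousAt (hopen.mem_nhds hmem)
  have h2 : ContinuousAt (fun p : ℂ × ℂ => B c₀ p.2) (c₀, ζ) := by
    have h3 : ContinuousAt (B c₀) ζ := (hb.bdiff c₀ ζ hmem).continuousAt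
    exact ContinuousAt.comp (g := B c₀) (f := fun p : ℂ × ℂ => p.2) h3 continuousAt_snd
  have h3 := (h1.sub h2).norm
  have h4 : ∀ᶠ p in 𝓝 ((c₀, ζ) : ℂ × ℂ), ‖B p.1 p.2 - B c₀ p.2‖ < ε := by
    have h5 : Tendsto (fun p : ℂ × ℂ => ‖B p.1 p.2 - B c₀ p.2‖) (𝓝 (c₀, ζ))
        (𝓝 ‖B c₀ ζ - B c₀ ζ‖) := h3
    rw [sub_self, norm_zero] at h5
    exact h5.eventually (gt_mem_nhds hε)
  filter_upwards [hopen.mem_nhds hmem, h4] with p hp1 hp2
  exact ⟨hp1, hp2⟩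

theorem G_near (hb : Base G B cc) {c₀ : ℂ} (hc₀ : c₀ ∈ MM) {s : ℝ} (hs : 0 < s) :
    ∀ᶠ c in 𝓝 c₀, G c c < s := by
  have h0 : G c₀ c₀ = 0 := (hb.gM c₀).2 hc₀
  have hGc : Continuous (fun c : ℂ => G c c) :=
    Continuous.comp (g := fun p : ℂ × ℂ => G p.1 p.2) (f := fun c : ℂ => (c, c)) hb.gcont
      (by fun_prop)
  have := hGc.continuousAt (x := c₀)
  have h1 := this.tendsto
  rw [h0] at h1
  exact h1.eventually (gt_mem_nhds hs)

/-- the part of a sector in a neighbourhood of 0 is in a small disc, for all the nearby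
parameters -/
theorem capture (hb : Base G B cc) {c₀ : ℂ} (hc₀ : c₀ ∈ MM) {N : ℕ} {x κ : ℝ}
    (hN : 1 ≤ N) (hκ : 0 < κ) {z₀ : ℂ} (hfix : (f c₀)^[N] z₀ = z₀) (hrep : 1 < ‖mul N c₀ z₀‖)
    (hlim : Tendsto (fun ζ => B c₀ (ζ + x * tpi)) (𝓝[Sk (2 * κ)] 0) (𝓝 z₀)) {e ε : ℝ}
    (he : 0 < e) (hε : 0 < ε) : ∃ r s : ℝ, 0 < r ∧ r < e ∧ 0 < s ∧ ∀ᶠ c in 𝓝 c₀,
      G c c < s / 2 ^ N ∧
      (∀ y ∈ closedBall z₀ r, ∀ y' ∈ closedBall z₀ r,
        ‖(f c)^[N] y - (f c)^[N] y' - mul N c₀ z₀ * (y - y')‖ ≤ ε * ‖y - y'‖) ∧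
      ∀ b : ℂ → ℂ, ∀ ζ ∈ Sk κ, ζ.re ≤ s → ContinuousOn (fun t : ℝ => b (t * ζ)) (Ici 1) →
        (∀ t : ℝ, 1 ≤ t → G c c < 2 * (t * ζ.re) → b (t * ζ) = B c (t * ζ + x * tpi)) →
        (∀ t : ℝ, 1 ≤ t → (f c)^[N] (b (t * ζ)) = b (2 ^ N * (t * ζ))) → ‖b ζ - z₀‖ < r := by
  obtain ⟨r, δ, hr, hre, hδ, hloc⟩ := local_exp hfix hrep he hε
  have h1 := (Metric.tendsto_nhds.1 hlim) (r / 2) (by positivity)
  obtain ⟨s', hs', h1⟩ := (mem_S_iff_eventually (by positivity : 0 < 2 * κ)).1 h1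
  set s := s' / 2 with hs
  have hs0 : 0 < s := by positivity
  have h2N : (1 : ℝ) < 2 ^ N := one_lt_pow₀ (by norm_num) (by omega)
  -- the fundamental piece
  set K₀ : Set ℂ := {ζ : ℂ | |ζ.im| ≤ κ * ζ.re ∧ s / 2 ^ N ≤ ζ.re ∧ ζ.re ≤ s} with hK₀
  have hK₀c : IsCompact K₀ := by
    apply Metric.isCompact_of_isClosed_isBounded
    · apply IsClosed.inter
      · exact isClosed_le (continuous_abs.comp continuous_im) (continuous_const.mul continuous_re)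
      · exact (isClosed_le continuous_const continuous_re).inter
          (isClosed_le continuous_re continuous_const)
    · rw [isBounded_iff_forall_norm_le]
      refine ⟨(1 + κ) * s, ?_⟩
      rintro ζ ⟨h2, h3, h4⟩
      have h5 : 0 < ζ.re := lt_of_lt_of_le (by positivity) h3
      have h6 := norm_le_abs_re_add_abs_im ζ
      rw [abs_of_pos h5] at h6
      nlinarith
  have hKc : IsCompact ((fun ζ => ζ + x * tpi) '' K₀) := hK₀c.image (by fun_prop)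
  have hKp : ∀ η ∈ (fun ζ => ζ + x * tpi) '' K₀, 0 < η.re := by
    rintro _ ⟨ζ, hζ, rfl⟩
    show 0 < (ζ + x * tpi).re
    rw [re_add]
    exact lt_of_lt_of_le (by positivity) hζ.2.1
  refine ⟨r, s, hr, hre, hs0, ?_⟩
  filter_upwards [B_near hb hc₀ hKc hKp (show 0 < r / 2 by positivity),
    G_near hb hc₀ (show 0 < s / 2 ^ N by positivity), ball_mem_nhds c₀ hδ] with c hc1 hc2 hc3
  rw [mem_ball, dist_eq_norm] at hc3
  obtain ⟨hl1, hl2⟩ := hloc c hc3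
  refine ⟨hc2, hl1, ?_⟩
  intro b ζ hζ hζs hbc hbB hbf
  have hζ0 := re_pos_of_mem hκ hζ
  have hT : 1 ≤ s / ζ.re := by rw [one_le_div hζ0]; exact hζs
  have hst := stay (z₀ := z₀) (r := r) (F := (f c)^[N]) hl2 (b := fun t : ℝ => b (t * ζ)) hT
    (p := 2 ^ N) h2N (hbc.mono (fun t ht => ht.1)) (by
      intro t ht htp
      have ht0 : 0 < t := lt_of_lt_of_le one_pos ht.1
      have h3 : s / 2 ^ N ≤ t * ζ.re := by
        rw [div_le_iff₀ (by positivity)]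
        rw [div_le_iff₀ hζ0] at htp
        linarith
      have h4 : t * ζ.re ≤ s := by
        have := ht.2
        rwa [le_div_iff₀ hζ0] at this
      have hK : (t : ℂ) * ζ ∈ K₀ := by
        refine ⟨?_, ?_, ?_⟩
        · have := mul_mem_Sk ht0 hζ
          exact le_of_lt this
        · rw [re_mul]; exact h3
        · rw [re_mul]; exact h4
      obtain ⟨h5, h6⟩ := hc1 ((t : ℂ) * ζ + x * tpi) ⟨(t : ℂ) * ζ, hK, rfl⟩
      rw [re_add, re_mul] at h5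
      show ‖b (t * ζ) - z₀‖ < r
      rw [hbB t ht.1 h5]
      have h7 := h1 ((t : ℂ) * ζ) ⟨Sk_mono hκ (by linarith) (mul_mem_Sk ht0 hζ), by
        rw [re_mul]; linarith⟩
      rw [dist_eq_norm] at h7
      have h8 : B c ((t : ℂ) * ζ + x * tpi) - z₀ =
          (B c ((t : ℂ) * ζ + x * tpi) - B c₀ ((t : ℂ) * ζ + x * tpi)) +
          (B c₀ ((t : ℂ) * ζ + x * tpi) - z₀) := by ring
      rw [h8]
      calc _ ≤ _ := norm_add_le _ _
        _ < r / 2 + r / 2 := add_lt_add h6 h7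
        _ = r := by ring) (by
      intro t ht _
      show (f c)^[N] (b (t * ζ)) = b (((2 ^ N * t : ℝ) : ℂ) * ζ)
      rw [hbf t ht.1]
      congr 1
      push_cast
      ring)
  simpa using hst

/-- the functional equation of `B` along the angles -/
theorem B_iter (hb : Base G B cc) {N : ℕ} {θ : ℕ → ℝ} {a : ℕ → ℤ} (ha : Ang N θ a) {c : ℂ}
    (j : ℕ) : ∀ (k : ℕ) (ζ : ℂ), G c c < 2 * ζ.re →
      (f c)^[j] (B c (ζ + θ k * tpi)) = B c (2 ^ j * ζ + θ (k + j) * tpi) := by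
  induction j with
  | zero => intro k ζ _; simp
  | succ j ih =>
    intro k ζ hζ
    have hpos : 0 < ζ.re := by have := hb.gnn c c; linarith
    have h2 : 2 * (ζ + θ k * tpi) = (2 * ζ + θ (k + 1) * tpi) + (a k : ℤ) * tpi := by
      have := ha.step k
      have h3 : (2 : ℂ) * θ k = θ (k + 1) + a k := by
        have := congrArg (fun x : ℝ => (x : ℂ)) this
        push_cast at this
        simpa using this
      calc 2 * (ζ + θ k * tpi) = 2 * ζ + (2 * θ k) * tpi := by ring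
        _ = 2 * ζ + (θ (k + 1) + a k) * tpi := by rw [h3]
        _ = _ := by ring
    have h3 : (2 * ζ).re = 2 * ζ.re := by simp
    rw [Function.iterate_succ_apply, hb.bf c _ (by rw [re_add]; exact hζ), h2,
      B_per hb.toBott (by rw [re_add, h3]; linarith), ih (k + 1) (2 * ζ) (by rw [h3]; linarith)]
    congr 2
    · ring
    · congr 3
      ring

/-- one angle is not in the sector of the critical value -/
theorem free_one (hb : Base G B cc) {c₀ : ℂ} (hc₀ : c₀ ∈ MM) {N : ℕ} {θ : ℕ → ℝ} {a : ℕ → ℤ}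
    (ha : Ang N θ a) {κ : ℝ} (hκ : 0 < κ) {k : ℕ} {z₀ : ℂ} (hfix : (f c₀)^[N] z₀ = z₀)
    (hrep : 1 < ‖mul N c₀ z₀‖)
    (hlim : Tendsto (fun ζ => B c₀ (ζ + θ k * tpi)) (𝓝[Sk (2 * κ)] 0) (𝓝 z₀)) :
    ∀ᶠ c in 𝓝 c₀, ∀ w ∈ HP, cc w = c → ∀ m : ℤ,
      κ * w.re ≤ |w.im - 2 * Real.pi * (θ k + m)| := by
  have hne : c₀ ≠ z₀ := crit_ne ha.pos hfix hrep
  have he : 0 < ‖c₀ - z₀‖ / 2 := by
    have := norm_pos_iff.2 (sub_ne_zero.2 hne)
    positivity
  obtain ⟨r, s, hr, hre, hs, hev⟩ := capture hb hc₀ ha.pos hκ hfix hrep hlim he one_pos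
  filter_upwards [hev, ball_mem_nhds c₀ he] with c hc1 hc2 w hw hwc m
  obtain ⟨h1, -, h2⟩ := hc1
  by_contra hcon
  push Not at hcon
  have hw0 : 0 < w.re := hw
  have hGw : G c c = w.re := by rw [← hwc]; exact hb.pG w hw
  set ξ : ℂ := w + ((-(θ k + m) : ℝ) : ℂ) * tpi with hξ
  have hξre : ξ.re = w.re := re_add _ _
  have hξim : ξ.im = w.im - 2 * Real.pi * (θ k + m) := by
    rw [hξ, add_im, Basic.real_mul_tpi_im]; ring
  have hξS : ξ ∈ Sk κ := by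
    show |ξ.im| < κ * ξ.re
    rw [hξre, hξim]; exact hcon
  have hdom : ∀ t : ℝ, 1 ≤ t → G c c < 2 * ((t : ℂ) * ξ).re := by
    intro t ht
    rw [re_mul, hξre, hGw]
    nlinarith
  have h2N : (1 : ℝ) ≤ 2 ^ N := one_le_pow₀ (by norm_num)
  have hss : s / 2 ^ N ≤ s := div_le_self hs.le h2N
  have h3 := h2 (fun ζ => B c (ζ + θ k * tpi)) ξ hξS (by rw [hξre, ← hGw]; linarith) (by
      intro t ht
      have ht1 : (1 : ℝ) ≤ t := ht
      have h4 : DifferentiableAt ℂ (B c) ((t : ℂ) * ξ + θ k * tpi) :=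
        hb.bdiff c _ (by rw [re_add]; exact hdom t ht1)
      have h5 : ContinuousAt (fun t : ℝ => (t : ℂ) * ξ + θ k * tpi) t := by fun_prop
      exact (ContinuousAt.comp (f := fun t : ℝ => (t : ℂ) * ξ + θ k * tpi) h4.continuousAt
        h5).continuousWithinAt) (fun t _ _ => rfl) (by
      intro t ht
      show (f c)^[N] (B c (t * ξ + θ k * tpi)) = B c (2 ^ N * (t * ξ) + θ k * tpi)
      rw [B_iter hb ha N k _ (hdom t ht), ha.per])
  have h4 : B c (ξ + θ k * tpi) = c := by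
    have h5 : ξ + θ k * tpi = w + ((-m : ℤ) : ℂ) * tpi := by
      rw [hξ]; push_cast; ring
    rw [h5, B_per hb.toBott (by rw [hGw]; linarith)]
    have := hb.pB w hw
    rwa [hwc] at this
  rw [h4] at h3
  rw [mem_ball, dist_eq_norm] at hc2
  have h5 : ‖c₀ - z₀‖ ≤ ‖c - z₀‖ + ‖c - c₀‖ := by
    have : c₀ - z₀ = (c - z₀) - (c - c₀) := by ring
    rw [this]; exact norm_sub_le _ _
  linarith

/-- the landing points are close -/
theorem zz_one (hb : Base G B cc) {c₀ : ℂ} (hc₀ : c₀ ∈ MM) {N : ℕ} {θ : ℕ → ℝ} {a : ℕ → ℤ}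
    (ha : Ang N θ a) {κ : ℝ} (hκ : 0 < κ) {k : ℕ} {z₀ : ℂ} (hfix : (f c₀)^[N] z₀ = z₀)
    (hrep : 1 < ‖mul N c₀ z₀‖)
    (hlim : Tendsto (fun ζ => B c₀ (ζ + θ k * tpi)) (𝓝[Sk (2 * κ)] 0) (𝓝 z₀)) {e ε : ℝ}
    (he : 0 < e) (hε : 0 < ε) : ∃ r s : ℝ, 0 < r ∧ r < e ∧ 0 < s ∧ ∀ᶠ c in 𝓝 c₀,
      G c c < s / 2 ^ N ∧
      (∀ y ∈ closedBall z₀ r, ∀ y' ∈ closedBall z₀ r,
        ‖(f c)^[N] y - (f c)^[N] y' - mul N c₀ z₀ * (y - y')‖ ≤ ε * ‖y - y'‖) ∧
      ∀ (β : ℕ → ℂ → ℂ) (zz : ℕ → ℂ) (Λ : ℂ), Sec G B c N θ κ β → Land N κ β zz Λ →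
        (∀ ζ ∈ Sk κ, ζ.re ≤ s → β k ζ ∈ closedBall z₀ r) ∧ zz k ∈ closedBall z₀ r := by
  obtain ⟨r, s, hr, hre, hs, hev⟩ := capture hb hc₀ ha.pos hκ hfix hrep hlim he hε
  refine ⟨r, s, hr, hre, hs, ?_⟩
  filter_upwards [hev] with c hc
  obtain ⟨h1, h2, h3⟩ := hc
  refine ⟨h1, h2, ?_⟩
  intro β zz Λ hsec hland
  have h4 : ∀ ζ ∈ Sk κ, ζ.re ≤ s → β k ζ ∈ closedBall z₀ r := by
    intro ζ hζ hζs
    rw [mem_closedBall, dist_eq_norm]
    refine (h3 (β k) ζ hζ hζs ?_ ?_ ?_).le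
    · intro t ht
      have ht0 : (0 : ℝ) < t := lt_of_lt_of_le one_pos ht
      have h4 : DifferentiableAt ℂ (β k) ((t : ℂ) * ζ) :=
        (hsec.diff k).differentiableAt ((isOpen_Sk κ).mem_nhds (mul_mem_Sk ht0 hζ))
      have h5 : ContinuousAt (fun t : ℝ => (t : ℂ) * ζ) t := by fun_prop
      exact (ContinuousAt.comp (f := fun t : ℝ => (t : ℂ) * ζ) h4.continuousAt
        h5).continuousWithinAt
    · intro t ht h
      exact hsec.base k _ (mul_mem_Sk (by linarith) hζ) (by rw [re_mul]; exact h)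
    · intro t ht
      exact iter_N hsec k (mul_mem_Sk (by linarith) hζ)
  refine ⟨h4, ?_⟩
  have hNB := neBot_Sk (κ := κ / 2) (by positivity)
  refine isClosed_closedBall.mem_of_tendsto (hland.lim k) ?_
  filter_upwards [S_mem (κ := κ / 2) hs] with ζ hζ
  exact h4 ζ (Sk_mono (by positivity) (by linarith) hζ.1) hζ.2.le

/-! ## The logarithm of the multiplier -/

/-- two logarithms of the same function on a preconnected set -/
theorem log_const {α : Type} [TopologicalSpace α] {S : Set α} (hS : IsPreconnected S)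
    {F F' : α → ℂ} (hF : ContinuousOn F S) (hF' : ContinuousOn F' S)
    (h : ∀ t ∈ S, exp (F t) = exp (F' t)) :
    ∀ t ∈ S, ∀ u ∈ S, F t - F u = F' t - F' u := by
  intro ζ hζ ζ' hζ'
  have hint : ∀ η ∈ S, ∃ n : ℤ, F η - F' η = n * (2 * Real.pi * I) := by
    intro η hη
    obtain ⟨n, hn⟩ := exp_eq_exp_iff_exists_int.1 (h η hη)
    exact ⟨n, by rw [hn]; ring⟩
  obtain ⟨n, hn⟩ := hint ζ hζ
  obtain ⟨n', hn'⟩ := hint ζ' hζ'
  have hcont : ContinuousOn (fun η => ((F η - F' η) / (2 * Real.pi * I)).re) S :=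
    continuous_re.comp_continuousOn ((hF.sub hF').div_const _)
  have h2pi : (2 * (Real.pi : ℂ) * I) ≠ 0 := by simp [Real.pi_ne_zero]
  have hval : ∀ η ∈ S, ∀ m : ℤ, F η - F' η = m * (2 * Real.pi * I) →
      ((F η - F' η) / (2 * Real.pi * I)).re = m := by
    intro η _ m hm
    rw [hm, mul_div_assoc, div_self h2pi, mul_one]
    simp
  have aux : ∀ x ∈ S, ∀ y ∈ S, ∀ i j : ℤ, F x - F' x = i * (2 * Real.pi * I) →
      F y - F' y = j * (2 * Real.pi * I) → ¬ i < j := by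
    intro x hx y hy i j hi hj hlt
    have hmem : ((i : ℝ) + 1 / 2) ∈ (fun η => ((F η - F' η) / (2 * Real.pi * I)).re) '' S := by
      apply hS.intermediate_value hx hy hcont
      rw [hval x hx i hi, hval y hy j hj]
      have : (i : ℝ) + 1 ≤ j := by exact_mod_cast hlt
      constructor <;> linarith
    obtain ⟨η, hη, hη2⟩ := hmem
    obtain ⟨m, hm⟩ := hint η hη
    simp only at hη2
    rw [hval η hη m hm] at hη2
    have h3 : (2 * m : ℝ) = 2 * i + 1 := by linarith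
    have h4 : (2 * m : ℤ) = 2 * i + 1 := by exact_mod_cast h3
    omega
  have hnn : n = n' := le_antisymm (not_lt.1 (aux ζ' hζ' ζ hζ n' n hn' hn))
    (not_lt.1 (aux ζ hζ ζ' hζ' n n' hn hn'))
  rw [hnn] at hn
  linear_combination hn - hn'

theorem norm_log_near {Q : ℂ} {ε : ℝ} (hε : ε ≤ 1 / 4) (hQ : ‖Q - 1‖ ≤ ε) :
    ‖log Q‖ ≤ 3 / 2 * ε ∧ Q ∈ slitPlane := by
  have h1 : Q = 1 + (Q - 1) := by ring
  constructor
  · rw [h1]
    exact (norm_log_one_add_half_le_self (by linarith)).trans (by linarith)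
  · rw [mem_slitPlane_iff]
    left
    have := (abs_re_le_norm (Q - 1)).trans hQ
    rw [sub_re, one_re] at this
    linarith [(abs_le.1 this).1]

/-- the logarithm of the multiplier can be read off at a definite level -/
theorem H_close {c : ℂ} {N : ℕ} {κ : ℝ} (hκ : 0 < κ) {β0 : ℂ → ℂ} {z z₀ ρ Λ : ℂ} {F : ℂ → ℂ}
    {r s ε : ℝ} (hs : 0 < s) (hε : ε ≤ 1 / 4) (hρ : 1 < ‖ρ‖)
    (hF : ContinuousOn F (Sk κ)) (hexp : ∀ ζ ∈ Sk κ, exp (F ζ) = β0 ζ - z)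
    (hlim : Tendsto (fun ζ => F (2 ^ N * ζ) - F ζ) (𝓝[Sk (κ / 2)] 0) (𝓝 Λ))
    (hstep : ∀ ζ ∈ Sk κ, (f c)^[N] (β0 ζ) = β0 (2 ^ N * ζ)) (hz : (f c)^[N] z = z)
    (hball : ∀ ζ ∈ Sk κ, ζ.re ≤ s → β0 ζ ∈ closedBall z₀ r) (hzb : z ∈ closedBall z₀ r)
    (hloc : ∀ y ∈ closedBall z₀ r, ∀ y' ∈ closedBall z₀ r,
      ‖(f c)^[N] y - (f c)^[N] y' - ρ * (y - y')‖ ≤ ε * ‖y - y'‖) :
    ‖Λ - (F (2 ^ N * s) - F s)‖ ≤ 3 * ε := by
  have hρ0 : ρ ≠ 0 := by
    intro h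
    rw [h, norm_zero] at hρ
    linarith
  set H : ℝ → ℂ := fun t => F (2 ^ N * t) - F t with hH
  have hmem : ∀ t : ℝ, 0 < t → (t : ℂ) ∈ Sk κ := fun t ht => ofReal_mem_Sk hκ ht
  -- the quotient
  have hQ : ∀ t ∈ Ioc 0 s, ‖exp (H t) / ρ - 1‖ ≤ ε := by
    intro t ht
    have ht1 := hmem t ht.1
    have hy := hball t ht1 (by rw [ofReal_re]; exact ht.2)
    have h1 := hloc _ hy z hzb
    rw [hstep t ht1, hz] at h1
    have hne : β0 t - z ≠ 0 := by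
      rw [← hexp t ht1]; exact exp_ne_zero _
    have h2 : exp (H t) = (β0 (2 ^ N * t) - z) / (β0 t - z) := by
      simp only [hH]
      rw [exp_sub, hexp _ (pow_mem N ht1), hexp t ht1]
    have h3 : exp (H t) / ρ - 1 = (β0 (2 ^ N * t) - z - ρ * (β0 t - z)) / ((β0 t - z) * ρ) := by
      rw [h2]; field_simp
    rw [h3, norm_div, norm_mul, div_le_iff₀ (by positivity)]
    have h4 : 0 ≤ ‖β0 t - z‖ := norm_nonneg _
    rcases le_or_gt 0 ε with h5 | h5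
    · calc _ ≤ ε * ‖β0 t - z‖ := h1
        _ ≤ ε * (‖β0 t - z‖ * ‖ρ‖) := by
          apply mul_le_mul_of_nonneg_left _ h5
          nlinarith
    · exfalso
      have h6 : 0 < ‖β0 t - z‖ := norm_pos_iff.2 hne
      have := (norm_nonneg _).trans h1
      nlinarith
  have hHc : ContinuousOn H (Ioc 0 s) := by
    intro t ht
    have h1 : ContinuousAt F (t : ℂ) := hF.continuousAt ((isOpen_Sk κ).mem_nhds (hmem t ht.1))
    have h2 : ContinuousAt F (2 ^ N * (t : ℂ)) :=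
      hF.continuousAt ((isOpen_Sk κ).mem_nhds (pow_mem N (hmem t ht.1)))
    have h3 : ContinuousAt (fun t : ℝ => (2 : ℂ) ^ N * (t : ℂ)) t := by fun_prop
    have h4 : ContinuousAt (fun t : ℝ => (t : ℂ)) t := by fun_prop
    exact ((ContinuousAt.comp (f := fun t : ℝ => (2 : ℂ) ^ N * (t : ℂ)) h2 h3).sub
      (ContinuousAt.comp (f := fun t : ℝ => (t : ℂ)) h1 h4)).continuousWithinAt
  have hLc : ContinuousOn (fun t => log (exp (H t) / ρ) + log ρ) (Ioc 0 s) := by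
    apply ContinuousOn.add _ continuousOn_const
    intro t ht
    have h1 := (norm_log_near hε (hQ t ht)).2
    exact ((hHc t ht).cexp.div_const ρ).clog h1
  have hconst := log_const isPreconnected_Ioc hHc hLc (by
    intro t _
    rw [exp_add, exp_log (div_ne_zero (exp_ne_zero _) hρ0), exp_log hρ0]
    field_simp)
  have hs' : s ∈ Ioc 0 s := ⟨hs, le_refl _⟩
  have hbd : ∀ t ∈ Ioc 0 s, ‖H t - H s‖ ≤ 3 * ε := by
    intro t ht
    rw [hconst t ht s hs']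
    have h1 := (norm_log_near hε (hQ t ht)).1
    have h2 := (norm_log_near hε (hQ s hs')).1
    have h3 : log (exp (H t) / ρ) + log ρ - (log (exp (H s) / ρ) + log ρ) =
        log (exp (H t) / ρ) - log (exp (H s) / ρ) := by ring
    rw [h3]
    have := norm_sub_le (log (exp (H t) / ρ)) (log (exp (H s) / ρ))
    linarith
  have hreal : Tendsto (fun t : ℝ => (t : ℂ)) (𝓝[>] 0) (𝓝[Sk (κ / 2)] 0) := by
    apply tendsto_nhdsWithin_of_tendsto_nhds_of_eventually_within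
    · have : Tendsto (fun t : ℝ => (t : ℂ)) (𝓝 0) (𝓝 ((0 : ℝ) : ℂ)) :=
        continuous_ofReal.tendsto 0
      rw [ofReal_zero] at this
      exact this.mono_left nhdsWithin_le_nhds
    · filter_upwards [self_mem_nhdsWithin] with t ht
      exact ofReal_mem_Sk (by positivity) ht
  have hHlim : Tendsto H (𝓝[>] 0) (𝓝 Λ) := hlim.comp hreal
  have h1 := (hHlim.sub_const (H s)).norm
  refine le_of_tendsto h1 ?_
  filter_upwards [Ioc_mem_nhdsGT hs] with t ht using hbd t ht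

/-- comparison of two logarithms at two points -/
theorem R_close {κ κ' : ℝ} (hκ : 0 < κ) (hκ' : 0 < κ') {F F₀ β0 b0 : ℂ → ℂ} {z z₀ : ℂ}
    (hF : ContinuousOn F (Sk κ)) (hF₀ : ContinuousOn F₀ (Sk κ'))
    (hexp : ∀ ζ ∈ Sk κ, exp (F ζ) = β0 ζ - z) (hexp₀ : ∀ ζ ∈ Sk κ', exp (F₀ ζ) = b0 ζ - z₀)
    {s s' ε : ℝ} (hs : 0 < s) (hss : s ≤ s') (hε : ε ≤ 1 / 4)
    (hR : ∀ t ∈ Icc s s', ‖(β0 t - z) - (b0 t - z₀)‖ ≤ ε * ‖b0 t - z₀‖) :
    ‖(F s' - F s) - (F₀ s' - F₀ s)‖ ≤ 3 * ε := by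
  have hpos : ∀ t ∈ Icc s s', 0 < t := fun t ht => lt_of_lt_of_le hs ht.1
  have hne : ∀ t ∈ Icc s s', b0 t - z₀ ≠ 0 := by
    intro t ht
    rw [← hexp₀ t (ofReal_mem_Sk hκ' (hpos t ht))]; exact exp_ne_zero _
  have hQe : ∀ t ∈ Icc s s', exp (F t - F₀ t) = (β0 t - z) / (b0 t - z₀) := by
    intro t ht
    rw [exp_sub, hexp t (ofReal_mem_Sk hκ (hpos t ht)), hexp₀ t (ofReal_mem_Sk hκ' (hpos t ht))]
  have hQ : ∀ t ∈ Icc s s', ‖exp (F t - F₀ t) - 1‖ ≤ ε := by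
    intro t ht
    rw [hQe t ht]
    have h3 : (β0 t - z) / (b0 t - z₀) - 1 = ((β0 t - z) - (b0 t - z₀)) / (b0 t - z₀) := by
      rw [sub_div (β0 t - z) (b0 t - z₀) (b0 t - z₀), div_self (hne t ht)]
    rw [h3, norm_div, div_le_iff₀ (norm_pos_iff.2 (hne t ht))]
    exact hR t ht
  have hc1 : ContinuousOn (fun t : ℝ => F t - F₀ t) (Icc s s') := by
    intro t ht
    have h1 : ContinuousAt F (t : ℂ) :=
      hF.continuousAt ((isOpen_Sk κ).mem_nhds (ofReal_mem_Sk hκ (hpos t ht)))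
    have h2 : ContinuousAt F₀ (t : ℂ) :=
      hF₀.continuousAt ((isOpen_Sk κ').mem_nhds (ofReal_mem_Sk hκ' (hpos t ht)))
    have h4 : ContinuousAt (fun t : ℝ => (t : ℂ)) t := by fun_prop
    exact ((ContinuousAt.comp (f := fun t : ℝ => (t : ℂ)) h1 h4).sub
      (ContinuousAt.comp (f := fun t : ℝ => (t : ℂ)) h2 h4)).continuousWithinAt
  have hc2 : ContinuousOn (fun t : ℝ => log (exp (F t - F₀ t))) (Icc s s') := by
    intro t ht
    exact (hc1 t ht).cexp.clog (norm_log_near hε (hQ t ht)).2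
  have hconst := log_const isPreconnected_Icc hc1 hc2 (by
    intro t _
    rw [exp_log (exp_ne_zero _)])
  have hm : s ∈ Icc s s' := ⟨le_refl _, hss⟩
  have hm' : s' ∈ Icc s s' := ⟨hss, le_refl _⟩
  have h1 : (F s' - F s) - (F₀ s' - F₀ s) = (F s' - F₀ s') - (F s - F₀ s) := by ring
  rw [h1, hconst s' hm' s hm]
  have h2 := (norm_log_near hε (hQ s hm)).1
  have h3 := (norm_log_near hε (hQ s' hm')).1
  have := norm_sub_le (log (exp (F s' - F₀ s'))) (log (exp (F s - F₀ s)))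
  linarith

/-- **Module 12**: stability -/
theorem stab : S_STAB := by
  intro G B cc hb c₀ N θ a κ₀ β₀ zz₀ Λ₀ hc₀ ha hκ₀ hs₀ hl₀ hrep₀ κ e hκ he
  have hN := ha.pos
  obtain ⟨hstep₀, hper₀, hG₀, hexp₀, hre₀⟩ := re_nonneg hb ha hκ₀ hs₀ hl₀
  have hiter : ∀ j k, (f c₀)^[j] (zz₀ k) = zz₀ (k + j) := by
    intro j
    induction j with
    | zero => intro k; rfl
    | succ j ih =>
      intro k
      rw [Function.iterate_succ_apply, hstep₀, ih]
      congr 1; ring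
  have hfix : ∀ k, (f c₀)^[N] (zz₀ k) = zz₀ k := by
    intro k; rw [hiter, hper₀]
  have hrep : ∀ k, 1 < ‖mul N c₀ (zz₀ k)‖ := by
    intro k
    rw [mul_zz hN hstep₀ hfix hrep₀ k]; exact hrep₀
  -- large sectors for the centre
  set b : ℕ → ℂ → ℂ := fun k ζ => B c₀ (ζ + θ k * tpi) with hbdef
  have hκ4 : 0 < 4 * κ := by positivity
  have hsb : Sec G B c₀ N θ (4 * κ) b := sec_of_mem hb hc₀ ha hκ4
  have hlb : Land N (4 * κ) b zz₀ Λ₀ := change_sector hb hc₀ ha hκ₀ hκ4 hs₀ hl₀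
  have hlim : ∀ k, Tendsto (fun ζ => B c₀ (ζ + θ k * tpi)) (𝓝[Sk (2 * κ)] 0) (𝓝 (zz₀ k)) := by
    intro k
    have := hlb.lim k
    rwa [show 4 * κ / 2 = 2 * κ by ring] at this
  -- the free part
  have hfree : ∀ᶠ c in 𝓝 c₀, Free cc c θ κ := by
    have h1 : ∀ᶠ c in 𝓝 c₀, ∀ k ∈ Finset.range N, ∀ w ∈ HP, cc w = c → ∀ m : ℤ,
        κ * w.re ≤ |w.im - 2 * Real.pi * (θ k + m)| := by
      rw [Finset.eventually_all]
      intro k _
      exact free_one hb hc₀ ha hκ (hfix k) (hrep k) (hlim k)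
    filter_upwards [h1] with c hc w hw hwc k m
    have h2 : θ (k % N) = θ k := Function.Periodic.map_mod_nat (f := θ) ha.per k
    have h3 := hc (k % N) (Finset.mem_range.2 (Nat.mod_lt _ hN)) w hw hwc m
    rwa [h2] at h3
  -- the landing points
  have hzz : ∀ e' : ℝ, 0 < e' → ∀ᶠ c in 𝓝 c₀, ∀ (β : ℕ → ℂ → ℂ) (zz : ℕ → ℂ) (Λ : ℂ),
      Sec G B c N θ κ β → Land N κ β zz Λ → ∀ k, ‖zz k - zz₀ k‖ < e' := by
    intro e' he'
    have h1 : ∀ᶠ c in 𝓝 c₀, ∀ k ∈ Finset.range N, ∀ (β : ℕ → ℂ → ℂ) (zz : ℕ → ℂ) (Λ : ℂ),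
        Sec G B c N θ κ β → Land N κ β zz Λ → ‖zz k - zz₀ k‖ < e' := by
      rw [Finset.eventually_all]
      intro k _
      obtain ⟨r, s, hr, hre, hs, hev⟩ := zz_one hb hc₀ ha hκ (hfix k) (hrep k) (hlim k) he' one_pos
      filter_upwards [hev] with c hc β zz Λ hsec hland
      have := (hc.2.2 β zz Λ hsec hland).2
      rw [mem_closedBall, dist_eq_norm] at this
      linarith
    filter_upwards [h1] with c hc β zz Λ hsec hland k
    obtain ⟨-, hper, -, -, -⟩ := re_nonneg hb ha hκ hsec hland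
    have h2 : zz₀ (k % N) = zz₀ k := Function.Periodic.map_mod_nat (f := zz₀) hper₀ k
    have h3 : zz (k % N) = zz k := Function.Periodic.map_mod_nat (f := zz) hper k
    have h4 := hc (k % N) (Finset.mem_range.2 (Nat.mod_lt _ hN)) β zz Λ hsec hland
    rwa [h2, h3] at h4
  -- the logarithm
  have hlam : ∀ᶠ c in 𝓝 c₀, ∀ (β : ℕ → ℂ → ℂ) (zz : ℕ → ℂ) (Λ : ℂ),
      Sec G B c N θ κ β → Land N κ β zz Λ → ‖Λ - Λ₀‖ < e := by
    set ε : ℝ := min (e / 10) (1 / 4) with hε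
    have hε0 : 0 < ε := lt_min (by positivity) (by norm_num)
    have hε1 : ε ≤ 1 / 4 := min_le_right _ _
    have hε2 : 9 * ε < e := by
      have := min_le_left (e / 10) (1 / 4 : ℝ)
      linarith
    obtain ⟨r, s, hr, hre, hs, hev⟩ := zz_one hb hc₀ ha hκ (hfix 0) (hrep 0) (hlim 0) one_pos hε0
    -- the centre itself, with the sector `4 κ` restricted to `κ`
    have hsκ : Sec G B c₀ N θ κ b := sec_of_mem hb hc₀ ha hκ
    have hlκ : Land N κ b zz₀ Λ₀ := change_sector hb hc₀ ha hκ₀ hκ hs₀ hl₀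
    obtain ⟨F₀, hF₀1, hF₀2, hF₀3⟩ := hlκ.lam
    have hc0 := hev.self_of_nhds
    obtain ⟨hc01, hc02⟩ := hc0.2.2 b zz₀ Λ₀ hsκ hlκ
    have hA₀ : ‖Λ₀ - (F₀ (2 ^ N * s) - F₀ s)‖ ≤ 3 * ε :=
      H_close hκ hs hε1 (hrep 0) hF₀1.continuousOn hF₀2 hF₀3
        (fun ζ hζ => iter_N hsκ 0 hζ) (hfix 0) hc01 hc02 hc0.2.1
    -- the minimum of the distance on the segment
    have h2N : (1 : ℝ) ≤ 2 ^ N := one_le_pow₀ (by norm_num)
    have hss : s ≤ 2 ^ N * s := by nlinarith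
    have hcont₀ : ContinuousOn (fun t : ℝ => ‖b 0 t - zz₀ 0‖) (Icc s (2 ^ N * s)) := by
      intro t ht
      have ht0 : 0 < t := lt_of_lt_of_le hs ht.1
      have h1 : ContinuousAt (b 0) (t : ℂ) := ((hsκ.diff 0).differentiableAt
        ((isOpen_Sk κ).mem_nhds (ofReal_mem_Sk hκ ht0))).continuousAt
      have h4 : ContinuousAt (fun t : ℝ => (t : ℂ)) t := by fun_prop
      exact ((ContinuousAt.comp (f := fun t : ℝ => (t : ℂ)) h1 h4).sub
        continuousAt_const).norm.continuousWithinAt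
    obtain ⟨t₀, ht₀, hmin⟩ := isCompact_Icc.exists_isMinOn ⟨s, le_refl _, hss⟩ hcont₀
    set m₀ := ‖b 0 t₀ - zz₀ 0‖ with hm₀
    have hm₀0 : 0 < m₀ := by
      rw [hm₀, norm_pos_iff, ← hF₀2 t₀ (ofReal_mem_Sk hκ (lt_of_lt_of_le hs ht₀.1))]
      exact exp_ne_zero _
    -- the compact segment
    have hKc : IsCompact ((fun t : ℝ => (t : ℂ) + θ 0 * tpi) '' (Icc s (2 ^ N * s))) :=
      isCompact_Icc.image (by fun_prop)
    have hKp : ∀ η ∈ (fun t : ℝ => (t : ℂ) + θ 0 * tpi) '' (Icc s (2 ^ N * s)), 0 < η.re := by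
      rintro _ ⟨t, ht, rfl⟩
      show 0 < ((t : ℂ) + θ 0 * tpi).re
      rw [re_add, ofReal_re]
      exact lt_of_lt_of_le hs ht.1
    filter_upwards [hev, hzz (ε * m₀ / 2) (by positivity),
      B_near hb hc₀ hKc hKp (show 0 < ε * m₀ / 2 by positivity)] with c hc1 hc2 hc3 β zz Λ hsec hland
    obtain ⟨hstep, hper, -, -, -⟩ := re_nonneg hb ha hκ hsec hland
    obtain ⟨hc4, hc5⟩ := hc1.2.2 β zz Λ hsec hland
    obtain ⟨F, hF1, hF2, hF3⟩ := hland.lam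
    have hiterc : ∀ j k, (f c)^[j] (zz k) = zz (k + j) := by
      intro j
      induction j with
      | zero => intro k; rfl
      | succ j ih =>
        intro k
        rw [Function.iterate_succ_apply, hstep, ih]
        congr 1; ring
    have hfixc : (f c)^[N] (zz 0) = zz 0 := by rw [hiterc, hper]
    have hA : ‖Λ - (F (2 ^ N * s) - F s)‖ ≤ 3 * ε :=
      H_close hκ hs hε1 (hrep 0) hF1.continuousOn hF2 hF3
        (fun ζ hζ => iter_N hsec 0 hζ) hfixc hc4 hc5 hc1.2.1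
    have hR : ‖(F ((2 ^ N * s : ℝ) : ℂ) - F s) - (F₀ ((2 ^ N * s : ℝ) : ℂ) - F₀ s)‖ ≤ 3 * ε := by
      apply R_close hκ hκ hF1.continuousOn hF₀1.continuousOn hF2 hF₀2 hs hss hε1
      intro t ht
      have ht0 : 0 < t := lt_of_lt_of_le hs ht.1
      obtain ⟨h5, h6⟩ := hc3 ((t : ℂ) + θ 0 * tpi) ⟨t, ht, rfl⟩
      rw [re_add, ofReal_re] at h5
      have h7 : β 0 t = B c ((t : ℂ) + θ 0 * tpi) :=
        hsec.base 0 t (ofReal_mem_Sk hκ ht0) (by rw [ofReal_re]; exact h5)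
      have h8 : b 0 t = B c₀ ((t : ℂ) + θ 0 * tpi) := rfl
      have h9 : m₀ ≤ ‖b 0 t - zz₀ 0‖ := hmin ht
      have h10 := hc2 β zz Λ hsec hland 0
      have h11 : (β 0 t - zz 0) - (b 0 t - zz₀ 0) =
          (B c ((t : ℂ) + θ 0 * tpi) - B c₀ ((t : ℂ) + θ 0 * tpi)) - (zz 0 - zz₀ 0) := by
        rw [h7, h8]; ring
      rw [h11]
      have h12 := norm_sub_le (B c ((t : ℂ) + θ 0 * tpi) - B c₀ ((t : ℂ) + θ 0 * tpi))
        (zz 0 - zz₀ 0)
      nlinarith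
    push_cast at hR
    have h13 : Λ - Λ₀ = (Λ - (F (2 ^ N * s) - F s)) - (Λ₀ - (F₀ (2 ^ N * s) - F₀ s)) +
        ((F (2 ^ N * s) - F s) - (F₀ (2 ^ N * s) - F₀ s)) := by ring
    rw [h13]
    have h14 := norm_add_le ((Λ - (F (2 ^ N * s) - F s)) - (Λ₀ - (F₀ (2 ^ N * s) - F₀ s)))
      ((F (2 ^ N * s) - F s) - (F₀ (2 ^ N * s) - F₀ s))
    have h15 := norm_sub_le (Λ - (F (2 ^ N * s) - F s)) (Λ₀ - (F₀ (2 ^ N * s) - F₀ s))
    linarith
  have hall := hfree.and ((hzz e he).and hlam)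
  obtain ⟨δ, hδ, hball⟩ := Metric.eventually_nhds_iff_ball.1 hall
  refine ⟨δ, hδ, ?_⟩
  intro c hc
  obtain ⟨h1, h2, h3⟩ := hball c (by rwa [mem_ball, dist_eq_norm])
  exact ⟨h1, fun β zz Λ hsec hland => ⟨h2 β zz Λ hsec hland, h3 β zz Λ hsec hland⟩⟩

end Pool.Agent.KS6_23.ML.STAB
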