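import Pool.Agent.KS6_23.ML.Curve
import Pool.Graph.R_seed8.Helper114.MontelSol

set_option autoImplicit false

/-! # Project ML: the derivative of the multiplier is not zero -/

open Complex Set Filter Metric Topology MeasureTheory

namespace Pool.Agent.KS6_23.ML.UNR

open Pool.Agent.KS6_23.ML Pool.Agent.KS6_23.ML.Basic Pool.Agent.KS6_23.ML.LabC
open Pool.Agent.KS6_23.ML.Curve

theorem rad_le {κ₀ t : ℝ} (h0 : 0 < κ₀) (h1 : κ₀ ≤ 1) {n : ℕ} (hn : 1 ≤ n) :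
    κ₀ * dZ t ^ 2 / (n : ℝ) ≤ dZ t := by
  have h2 : 0 ≤ dZ t := abs_nonneg _
  have h3 : dZ t ≤ 1 / 2 := abs_sub_round t
  have h4 : (1 : ℝ) ≤ n := by exact_mod_cast hn
  rw [div_le_iff₀ (by linarith)]
  nlinarith [mul_nonneg h2 h2, mul_nonneg h0.le h2]

theorem rad_pos {κ₀ t : ℝ} (h0 : 0 < κ₀) (ht : dZ t ≠ 0) {n : ℕ} (hn : 1 ≤ n) :
    0 < κ₀ * dZ t ^ 2 / (n : ℝ) := by
  have h2 : 0 < dZ t := lt_of_le_of_ne (abs_nonneg _) (Ne.symm ht)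
  have h4 : (0 : ℝ) < n := by exact_mod_cast hn
  positivity

/-- the set of the values of a locally constant label -/
theorem fibre_all (hX : S_XLOC) (hK : S_XCPT) (hCn : S_CNTN) {n : ℕ} (hn : 1 ≤ n) {t r : ℝ}
    (hrt : r ≤ dZ t) {A : Set (ℂ × ℂ × ℂ)} (hne : A.Nonempty)
    (hA : A ⊆ XX n (ball (tpi * (t : ℂ)) r ∩ HP))
    (hop : ∀ x ∈ A, ∀ᶠ y in 𝓝 x, y ∈ XX n (ball (tpi * (t : ℂ)) r ∩ HP) → y ∈ A)
    (hcl : ∀ x ∈ XX n (ball (tpi * (t : ℂ)) r ∩ HP), x ∉ A → ∀ᶠ y in 𝓝 x,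
      y ∈ XX n (ball (tpi * (t : ℂ)) r ∩ HP) → y ∉ A) :
    ∀ s ∈ ball (tpi * (t : ℂ)) r ∩ HP, ∃ x ∈ A, x.2.2 = s := by
  set D : Set ℂ := ball (tpi * (t : ℂ)) r ∩ HP with hD
  have hDo : IsOpen D := isOpen_ball.inter isOpen_HP
  have hconv : Convex ℝ D :=
    (convex_ball _ _).inter (convex_halfSpace_gt (f := Complex.re)
      { map_add := fun _ _ => add_re _ _, map_smul := fun _ _ => by simp } 0)
  set u : Set ℂ := {s | ∃ x ∈ A, x.2.2 = s} with hu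
  have huo : IsOpen u := by
    rw [isOpen_iff_mem_nhds]
    rintro s ⟨x, hx, rfl⟩
    have h2 : ∀ᶠ y in 𝓝 x, y ∈ XX n univ → y ∈ A := by
      have h3 : ∀ᶠ y : ℂ × ℂ × ℂ in 𝓝 x, y.2.2 ∈ D :=
        ((continuous_snd.comp continuous_snd).tendsto x).eventually_mem (hDo.mem_nhds (hA hx).1)
      filter_upwards [hop x hx, h3] with y g1 g2 g3
      exact g1 ⟨g2, g3.2⟩
    have h3 := sigma_open hX hCn hn (XX_mono (subset_univ _) (hA hx))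
      (exp_ne_one hrt (hA hx).1.1) h2
    filter_upwards [h3] with s hs
    obtain ⟨y, _, hy1, hy2⟩ := hs
    exact ⟨y, hy2, hy1⟩
  obtain ⟨x₁, hx₁⟩ := hne
  refine hconv.isPreconnected.subset_of_closure_inter_subset huo
    ⟨x₁.2.2, (hA hx₁).1, x₁, hx₁, rfl⟩ ?_
  rintro s ⟨h1, h2⟩
  obtain ⟨ss, hss, hlim⟩ := mem_closure_iff_seq_limit.1 h1
  choose x hx hxs using hss
  have hs : Tendsto (fun k => (x k).2.2) atTop (𝓝 s) := by
    simp only [hxs]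
    exact hlim
  obtain ⟨a, φ, hφ, ha1, ha2, ha3⟩ := xlim hK hn (fun k => XX_mono (subset_univ _) (hA (hx k))) hs
  have haX : a ∈ XX n D := ⟨by rw [ha2]; exact h2, ha3.2⟩
  have haA : a ∈ A := by
    by_contra h
    have h4 := ha1.eventually (hcl a haX h)
    obtain ⟨k, hk⟩ := h4.exists
    exact hk (hA (hx _)) (hx _)
  exact ⟨a, haA, ha2⟩

theorem unr (hLab : S_LAB) (hT : S_TRV) (hX : S_XLOC) (hK : S_XCPT) (hCn : S_CNTN) : S_UNR := by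
  obtain ⟨κ₀, hκ0, hκ1, hlab⟩ := hLab
  refine ⟨κ₀, hκ0, hκ1, fun n t hn ht x₀ hx₀ => ?_⟩
  have hrt := rad_le hκ0 hκ1 (t := t) hn
  change Unr n x₀
  have hne1 : exp x₀.2.2 ≠ 1 := exp_ne_one hrt hx₀.1
  by_cases hre : 0 < x₀.2.2.re
  swap
  · intro ζ h1 h2 h3
    refine hT n x₀.1 x₀.2.1 ζ hn hx₀.2.1 (by rw [hx₀.2.2]; exact exp_ne_zero _)
      (by rw [hx₀.2.2]; exact hne1) ?_ h1 h2 h3
    rw [hx₀.2.2, norm_exp]
    exact Real.exp_le_one_iff.2 (not_lt.1 hre)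
  obtain ⟨lab, hl1, hl2⟩ := hlab n t hn ht
  set D : Set ℂ := ball (tpi * (t : ℂ)) (κ₀ * dZ t ^ 2 / n) ∩ HP with hD
  have hDo : IsOpen D := isOpen_ball.inter isOpen_HP
  have hl1' : ∀ x ∈ XX n D, ∀ᶠ y in 𝓝 x, y ∈ XX n D → lab y = lab x := by
    intro x hx
    exact eventually_nhdsWithin_iff.1 (hl1 x hx)
  -- every label in every fibre
  have hfib : ∀ i, ∀ s ∈ D, ∃ x ∈ XX n D, lab x = i ∧ x.2.2 = s := by
    intro i s hs
    obtain ⟨x₁, hx₁, hx₁i⟩ := hl2 i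
    obtain ⟨x, hx, hxs⟩ := fibre_all hX hK hCn hn hrt (A := {x | x ∈ XX n D ∧ lab x = i})
      ⟨x₁, hx₁, hx₁i⟩ (fun x hx => hx.1) (by
        rintro x ⟨h1, h2⟩
        filter_upwards [hl1' x h1] with y h3 h4
        exact ⟨h4, (h3 h4).trans h2⟩) (by
        intro x h1 h2
        filter_upwards [hl1' x h1] with y h3 h4 h5
        exact h2 ⟨h1, (h3 h4).symm.trans h5.2⟩) s hs
    exact ⟨x, hx.1, hx.2, hxs⟩
  -- uniqueness
  have huniq : ∀ x ∈ XX n D, ∀ x' ∈ XX n D, x.2.2 = x'.2.2 → lab x = lab x' → x = x' := by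
    intro x hx x' hx' hs hl
    classical
    have hch : ∀ i, ∃ y ∈ XX n D, lab y = i ∧ y.2.2 = x.2.2 ∧ (i = lab x → y = x) := by
      intro i
      by_cases h : i = lab x
      · exact ⟨x, hx, h.symm, rfl, fun _ => rfl⟩
      · obtain ⟨y, hy, hyi, hys⟩ := hfib i x.2.2 hx.1
        exact ⟨y, hy, hyi, hys, fun h' => absurd h' h⟩
    choose g hg1 hg2 hg3 hg4 using hch
    by_contra hne
    set pr : ℂ × ℂ × ℂ → ℂ × ℂ := fun y => (y.1, y.2.1) with hpr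
    have hprinj : ∀ y y' : ℂ × ℂ × ℂ, y.2.2 = y'.2.2 → pr y = pr y' → y = y' := by
      rintro ⟨c, z, s⟩ ⟨c', z', s'⟩ h1 h2
      simp only [hpr, Prod.mk.injEq] at h1 h2
      rw [h1, h2.1, h2.2]
    set T : Finset (ℂ × ℂ) := Finset.univ.image (fun i => pr (g i)) with hT'
    have hTcard : T.card = n * 2 ^ (n - 1) := by
      rw [hT', Finset.card_image_of_injective, Finset.card_univ, Fintype.card_fin]
      intro i j hij
      have := hprinj _ _ ((hg3 i).trans (hg3 j).symm) hij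
      rw [← hg2 i, ← hg2 j, this]
    have hx'T : pr x' ∉ T := by
      intro h
      rw [hT', Finset.mem_image] at h
      obtain ⟨i, _, hi⟩ := h
      have h1 := hprinj _ _ ((hg3 i).trans hs) hi
      have h2 : i = lab x := by rw [← hg2 i, h1, ← hl]
      exact hne ((hg4 i h2).symm.trans h1)
    have hcard := (hCn n hn).2 (exp x.2.2) (exp_ne_one hrt hx.1.1) (insert (pr x') T) (by
      intro y hy
      rw [Finset.mem_insert] at hy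
      rcases hy with rfl | hy
      · exact ⟨hx'.2.1, by rw [hs]; exact hx'.2.2⟩
      · rw [hT', Finset.mem_image] at hy
        obtain ⟨i, _, rfl⟩ := hy
        exact ⟨(hg1 i).2.1, by rw [← hg3 i]; exact (hg1 i).2.2⟩)
    rw [Finset.card_insert_of_notMem hx'T, hTcard] at hcard
    omega
  -- local injectivity
  intro ζ hζA hζ0 hζf
  obtain ⟨c₀, z₀, s₀⟩ := x₀
  obtain ⟨hsD, hf, hm⟩ := hx₀
  simp only at hsD hf hm hne1 hre hζA hζ0 hζf ⊢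
  obtain ⟨δ, ζ', σ, hδ, hζ', hσ, hζ0', hσ0, e1, e2⟩ := hX n c₀ z₀ s₀ hn hf hm hne1
  have hn0 := ball_mem_nhds c₀ hδ
  have hσA : AnalyticAt ℂ σ c₀ := hσ.analyticAt hn0
  have hx₀D : ((c₀, z₀, s₀) : ℂ × ℂ × ℂ) ∈ XX n D := ⟨⟨hsD, hre⟩, hf, hm⟩
  have hg : ContinuousAt (fun c : ℂ => ((c, ζ' c, σ c) : ℂ × ℂ × ℂ)) c₀ :=
    continuousAt_id.prodMk ((hζ'.differentiableAt hn0).continuousAt.prodMk
      (hσ.differentiableAt hn0).continuousAt)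
  have hg0 : ((c₀, ζ' c₀, σ c₀) : ℂ × ℂ × ℂ) = (c₀, z₀, s₀) := by rw [hζ0', hσ0]
  have f1 : ∀ᶠ c in 𝓝 c₀, c ∈ ball c₀ δ ∧ σ c ∈ D ∧
      (((c, ζ' c, σ c) : ℂ × ℂ × ℂ) ∈ XX n D → lab (c, ζ' c, σ c) = lab (c₀, z₀, s₀)) := by
    have h1 := hg.tendsto
    rw [hg0] at h1
    have h2 : ∀ᶠ c in 𝓝 c₀, σ c ∈ D := by
      refine hσA.continuousAt.eventually_mem ?_
      rw [hσ0]
      exact hDo.mem_nhds ⟨hsD, hre⟩
    filter_upwards [hn0, h2, h1.eventually (hl1' _ hx₀D)] with c g1 g2 g3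
    exact ⟨g1, g2, g3⟩
  obtain ⟨ε, hε, hball⟩ := Metric.eventually_nhds_iff_ball.1 f1
  have hinj : InjOn σ (ball c₀ ε) := by
    intro c hc c' hc' hcc
    obtain ⟨a1, a2, a3⟩ := hball c hc
    obtain ⟨b1, b2, b3⟩ := hball c' hc'
    have h1 : ((c, ζ' c, σ c) : ℂ × ℂ × ℂ) ∈ XX n D := ⟨a2, (e1 c a1).1, (e1 c a1).2⟩
    have h2 : ((c', ζ' c', σ c') : ℂ × ℂ × ℂ) ∈ XX n D := ⟨b2, (e1 c' b1).1, (e1 c' b1).2⟩
    have h3 := huniq _ h1 _ h2 hcc ((a3 h1).trans (b3 h2).symm)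
    exact congrArg Prod.fst h3
  have hdiff : DifferentiableOn ℂ σ (ball c₀ ε) := hσ.mono fun c hc => (hball c hc).1
  have hd : deriv σ c₀ ≠ 0 :=
    Pool.Agent.Helper114.Montel.deriv_ne_zero_of_injOn isOpen_ball σ hdiff hinj (mem_ball_self hε)
  have hee : (fun c => mul n c (ζ c)) =ᶠ[𝓝 c₀] fun c => exp (σ c) := by
    have h1 : ∀ᶠ c in 𝓝 c₀, ζ c ∈ ball z₀ δ := by
      refine hζA.continuousAt.eventually_mem ?_
      rw [hζ0]
      exact ball_mem_nhds _ hδ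
    filter_upwards [hn0, h1, hζf] with c g1 g2 g3
    have := (e2 c g1 (ζ c) g2 g3).1
    rw [this]
    exact (e1 c g1).2
  rw [hee.deriv_eq]
  have h3 := (hσA.differentiableAt.hasDerivAt).cexp
  rw [h3.deriv]
  exact mul_ne_zero (exp_ne_zero _) hd

end Pool.Agent.KS6_23.ML.UNR
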