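import Pool.Agent.KS6_23.ML.XTools

set_option autoImplicit false

/-! # Project ML, module 20: the local structure and the compactness of the curves of periodic
points -/

open Complex Set Filter Metric Topology

namespace Pool.Agent.KS6_23.ML.XLOC

open Pool.Agent.KS6_23.ML Pool.Agent.KS6_23.ML.Basic Pool.Agent.KS6_23.ML.XTools

theorem xloc : S_XLOC := by
  intro n c₀ z₀ s₀ hn hfix hmul hne
  have hne' : mul n c₀ z₀ ≠ 1 := by rw [hmul]; exact hne
  obtain ⟨δ, η, y, hδ, hη, hy, hy0, hyF, hyu⟩ := ift_fix hfix hne'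
  have hyan : ∀ c ∈ ball c₀ δ, DifferentiableAt ℂ y c := fun c hc =>
    hy.differentiableAt (isOpen_ball.mem_nhds hc)
  obtain ⟨g, hg⟩ : ∃ g : ℂ → ℂ, g = fun c => mul n c (y c) * exp (-s₀) := ⟨_, rfl⟩
  have hgd : ∀ c ∈ ball c₀ δ, DifferentiableAt ℂ g c := by
    intro c hc
    rw [hg]
    have h1 : DifferentiableAt ℂ (fun p : ℂ × ℂ => mul n p.1 p.2) (c, y c) :=
      (ana_mul n c (y c)).differentiableAt
    have h2 : DifferentiableAt ℂ (fun c => mul n c (y c)) c :=
      h1.comp c (f := fun c => (c, y c)) (differentiableAt_id.prodMk (hyan c hc))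
    exact h2.mul_const _
  have hg0 : g c₀ = 1 := by
    rw [hg]
    simp only
    rw [hy0, hmul, ← exp_add, add_neg_cancel, exp_zero]
  have hgc : ContinuousAt g c₀ := (hgd c₀ (mem_ball_self hδ)).continuousAt
  have hev : ∀ᶠ c in 𝓝 c₀, g c ∈ ball (1 : ℂ) 1 := by
    have := hgc.tendsto
    rw [hg0] at this
    exact this (ball_mem_nhds 1 one_pos)
  obtain ⟨δ₁, hδ₁, hball⟩ := Metric.eventually_nhds_iff_ball.1 hev
  have hslit : ∀ w ∈ ball (1 : ℂ) 1, w ∈ slitPlane := fun w hw =>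
    ball_one_subset_slitPlane hw
  refine ⟨min (min δ δ₁) (min η 1), y, fun c => s₀ + log (g c), by positivity, ?_, ?_, hy0, ?_, ?_, ?_⟩
  · exact hy.mono (ball_subset_ball ((min_le_left _ _).trans (min_le_left _ _)))
  · intro c hc
    have h1 : c ∈ ball c₀ δ := ball_subset_ball ((min_le_left _ _).trans (min_le_left _ _)) hc
    have h2 : c ∈ ball c₀ δ₁ := ball_subset_ball ((min_le_left _ _).trans (min_le_right _ _)) hc
    exact (((hgd c h1).clog (hslit _ (hball c h2))).const_add s₀).differentiableWithinAt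
  · simp only
    rw [hg0, log_one, add_zero]
  · intro c hc
    have h1 : c ∈ ball c₀ δ := ball_subset_ball ((min_le_left _ _).trans (min_le_left _ _)) hc
    have h2 : c ∈ ball c₀ δ₁ := ball_subset_ball ((min_le_left _ _).trans (min_le_right _ _)) hc
    refine ⟨hyF c h1, ?_⟩
    have h3 : g c ≠ 0 := slitPlane_ne_zero (hslit _ (hball c h2))
    rw [exp_add, exp_log h3, hg]
    simp only
    rw [mul_comm, mul_assoc, ← exp_add, neg_add_cancel, exp_zero, mul_one]
  · intro c hc z hz hzf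
    have h1 : c ∈ ball c₀ δ := ball_subset_ball ((min_le_left _ _).trans (min_le_left _ _)) hc
    have h2 : c ∈ ball c₀ δ₁ := ball_subset_ball ((min_le_left _ _).trans (min_le_right _ _)) hc
    have h3 : z ∈ ball z₀ η := ball_subset_ball ((min_le_right _ _).trans (min_le_left _ _)) hz
    have h4 := hyu c h1 z h3 hzf
    refine ⟨h4, fun s hs hse => ?_⟩
    have h5 : s ∈ ball s₀ 1 := ball_subset_ball ((min_le_right _ _).trans (min_le_right _ _)) hs
    have h6 : g c ≠ 0 := slitPlane_ne_zero (hslit _ (hball c h2))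
    have h7 : exp s = exp (s₀ + log (g c)) := by
      rw [exp_add, exp_log h6, hg]
      simp only
      rw [← hse, h4, mul_comm, mul_assoc, ← exp_add, neg_add_cancel, exp_zero, mul_one]
    obtain ⟨k, hk⟩ := (exp_eq_iff _ _).1 h7
    have h8 : s - s₀ - log (g c) = k * tpi := by rw [hk]; ring
    have h9 := congrArg Complex.im h8
    rw [int_mul_tpi_im, sub_im, sub_im, log_im] at h9
    have h10 := abs_arg_le_pi (g c)
    have h11 : |s.im - s₀.im| < 1 := by
      have : ‖s - s₀‖ < 1 := by rwa [mem_ball, dist_eq_norm] at h5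
      have h12 := abs_im_le_norm (s - s₀)
      rw [sub_im] at h12
      linarith
    have hk0 : k = 0 := by
      by_contra hk0
      have h13 : (1 : ℝ) ≤ |(k : ℝ)| := by
        exact_mod_cast Int.one_le_abs hk0
      have h14 : |2 * Real.pi * (k : ℝ)| ≤ |s.im - s₀.im| + |arg (g c)| := by
        rw [← h9]
        exact abs_sub _ _
      rw [abs_mul, abs_of_pos (by positivity : (0 : ℝ) < 2 * Real.pi)] at h14
      have h15 := Real.pi_gt_three
      nlinarith
    simp only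
    rw [hk, hk0]
    simp

/-! ## bounds -/

theorem orbit_bd {n : ℕ} (hn : 1 ≤ n) {c z : ℂ} (hz : (f c)^[n] z = z) :
    ∃ R : ℝ, (∀ i, ‖(f c)^[i] z‖ ≤ R) ∧ R ^ 2 ≤ R + ‖c‖ ∧ 0 ≤ R := by
  obtain ⟨i0, hi0, hmax⟩ := Finset.exists_max_image (Finset.range n) (fun i => ‖(f c)^[i] z‖)
    ⟨0, Finset.mem_range.2 hn⟩
  have hper : ∀ j, (f c)^[j * n] z = z := iter_mul c z n hz
  have hle : ∀ i, ‖(f c)^[i] z‖ ≤ ‖(f c)^[i0] z‖ := by
    intro i
    have h1 : (f c)^[i] z = (f c)^[i % n] z := by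
      conv_lhs => rw [← Nat.mod_add_div' i n, Function.iterate_add_apply, hper]
    rw [h1]
    exact hmax _ (Finset.mem_range.2 (Nat.mod_lt _ (by omega)))
  refine ⟨‖(f c)^[i0] z‖, hle, ?_, norm_nonneg _⟩
  have h1 : ((f c)^[i0] z) ^ 2 = (f c)^[i0 + 1] z - c := by rw [iter_succ]; ring
  rw [← norm_pow, h1]
  exact (norm_sub_le _ _).trans (add_le_add (hle _) le_rfl)

theorem low_bd {n : ℕ} (hn : 1 ≤ n) {c z : ℂ} (hz : (f c)^[n] z = z) (hc : 6 ≤ ‖c‖) (i : ℕ) :
    ‖c‖ / 2 ≤ ‖(f c)^[i] z‖ ^ 2 := by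
  obtain ⟨R, hR, hR2, hR0⟩ := orbit_bd hn hz
  have h1 : R ≤ ‖c‖ / 2 := by
    by_contra h
    push Not at h
    nlinarith
  have h2 : ((f c)^[i] z) ^ 2 = (f c)^[i + 1] z - c := by rw [iter_succ]; ring
  rw [← norm_pow, h2, norm_sub_rev]
  have h3 := norm_sub_norm_le c ((f c)^[i + 1] z)
  have h4 := hR (i + 1)
  linarith

theorem mul_low {n : ℕ} (hn : 1 ≤ n) {c z : ℂ} (hz : (f c)^[n] z = z) (hc : 6 ≤ ‖c‖) :
    Real.sqrt (2 * ‖c‖) ≤ ‖mul n c z‖ := by
  have h1 : ∀ i, Real.sqrt (2 * ‖c‖) ≤ ‖2 * (f c)^[i] z‖ := by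
    intro i
    apply Real.sqrt_le_iff.2
    refine ⟨norm_nonneg _, ?_⟩
    rw [norm_mul, mul_pow, Complex.norm_ofNat]
    have := low_bd hn hz hc i
    linarith
  have h2 : 1 ≤ Real.sqrt (2 * ‖c‖) := by
    rw [Real.one_le_sqrt]
    linarith
  have h3 : ∀ k, Real.sqrt (2 * ‖c‖) ^ k ≤ ‖mul k c z‖ := by
    intro k
    induction k with
    | zero => rw [mul_eq_prod]; simp
    | succ k ih =>
      rw [mul_succ, norm_mul, pow_succ]
      exact mul_le_mul ih (h1 k) (by positivity) (norm_nonneg _)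
  refine le_trans ?_ (h3 n)
  exact le_self_pow₀ h2 (by omega)

theorem bound6 {n : ℕ} (hn : 1 ≤ n) {c z : ℂ} (hz : (f c)^[n] z = z) (hm : ‖mul n c z‖ ≤ 3) :
    ‖c‖ ≤ 6 := by
  by_contra h
  push Not at h
  have h1 := (mul_low hn hz h.le).trans hm
  rw [Real.sqrt_le_left (by norm_num)] at h1
  linarith

theorem xcpt : S_XCPT := by
  refine ⟨fun n hn K hK => ?_, fun n c z hn hz hm => bound6 hn hz hm⟩
  apply Metric.isCompact_of_isClosed_isBounded
  · have h1 : XX n K = (fun x : ℂ × ℂ × ℂ => x.2.2) ⁻¹' K ∩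
        ({x : ℂ × ℂ × ℂ | (f x.1)^[n] x.2.1 = x.2.1} ∩
          {x : ℂ × ℂ × ℂ | mul n x.1 x.2.1 = exp x.2.2}) := by
      ext x
      simp only [XX, mem_ofPred_eq, mem_inter_iff, mem_preimage]
    rw [h1]
    refine (hK.isClosed.preimage (by fun_prop)).inter (IsClosed.inter ?_ ?_)
    · refine isClosed_eq ?_ (by fun_prop)
      exact (cont_iter n).comp (f := fun x : ℂ × ℂ × ℂ => (x.1, x.2.1)) (by fun_prop)
    · refine isClosed_eq ?_ (by fun_prop)
      exact (cont_mul n).comp (f := fun x : ℂ × ℂ × ℂ => (x.1, x.2.1)) (by fun_prop)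
  · obtain ⟨S, hS⟩ := hK.isBounded.exists_norm_le
    obtain ⟨C, hC⟩ : ∃ C : ℝ, C = max 6 (Real.exp S ^ 2) := ⟨_, rfl⟩
    have hcb : ∀ x ∈ XX n K, ‖x.1‖ ≤ C := by
      rintro ⟨c, z, s⟩ ⟨hs, hf, hm⟩
      simp only at hs hf hm ⊢
      by_contra h
      push Not at h
      have h6 : 6 ≤ ‖c‖ := by
        rw [hC] at h
        exact (le_max_left _ _).trans h.le
      have h1 := mul_low hn hf h6
      rw [hm, norm_exp] at h1
      have h2 : s.re ≤ S := (re_le_norm s).trans (hS s hs)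
      have h3 := h1.trans (Real.exp_le_exp.2 h2)
      rw [Real.sqrt_le_left (by positivity)] at h3
      have h4 : Real.exp S ^ 2 ≤ ‖c‖ := by
        rw [hC] at h
        exact (le_max_right _ _).trans h.le
      linarith
    have hC0 : 0 ≤ C := by rw [hC]; positivity
    have hzb : ∀ x ∈ XX n K, ‖x.2.1‖ ≤ 1 + C := by
      rintro ⟨c, z, s⟩ hx
      have h1 := hcb _ hx
      obtain ⟨hs, hf, hm⟩ := hx
      simp only at hs hf hm h1 ⊢
      obtain ⟨R, hR, hR2, hR0⟩ := orbit_bd hn hf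
      have h2 : R ≤ 1 + C := by
        by_contra h
        push Not at h
        nlinarith
      exact (hR 0).trans h2
    rw [isBounded_iff_forall_norm_le]
    refine ⟨max C (max (1 + C) S), fun x hx => ?_⟩
    rw [Prod.norm_def, Prod.norm_def]
    refine max_le ((hcb x hx).trans (le_max_left _ _)) (max_le ?_ ?_)
    · exact (hzb x hx).trans ((le_max_left _ _).trans (le_max_right _ _))
    · exact (hS _ hx.1).trans ((le_max_right _ _).trans (le_max_right _ _))

end Pool.Agent.KS6_23.ML.XLOC
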