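import Pool.Agent.KS6_23.ML.BASE
import Pool.Agent.KS6_23.ML.LAM
import Pool.Agent.KS6_23.ML.CODE
import Pool.Agent.KS6_23.ML.SEC
import Pool.Agent.KS6_23.ML.GL
import Pool.Agent.KS6_23.ML.LAND
import Pool.Agent.KS6_23.ML.PLY
import Pool.Agent.KS6_23.ML.IDENT
import Pool.Agent.KS6_23.ML.STAB
import Pool.Agent.KS6_23.ML.DLT
import Pool.Agent.KS6_23.ML.ROT
import Pool.Agent.KS6_23.ML.GEN
import Pool.Agent.KS6_23.ML.COMB
import Pool.Agent.KS6_23.ML.CNTN
import Pool.Agent.KS6_23.ML.TRV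
import Pool.Agent.KS6_23.ML.FRO
import Pool.Agent.KS6_23.ML.XLOC
import Pool.Agent.KS6_23.ML.INT
import Pool.Agent.KS6_23.ML.LAB
import Pool.Agent.KS6_23.ML.UNR
import Pool.Agent.KS6_23.ML.EXT
import Pool.Agent.KS6_23.ML.LIMB

set_option autoImplicit false

/-! # Project ML: assembly -/

namespace Pool.Agent.KS6_23.ML.ALL

open Pool.Agent.KS6_23.ML

theorem base : S_BASE := BASE.base
theorem int : S_INT := INT.int BASE.base FRO.fro TRV.trv XLOC.xloc XLOC.xcpt CNTN.cntn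

theorem hyp : LAB.Hyp where
  base := BASE.base
  lam := LAM.lam_exists
  code := CODE.code
  sec := SEC.sec
  land := LAND.land
  ply := PLY.ply GL.gl
  stab := STAB.stab
  dlt := DLT.dlt
  ident := IDENT.ident
  rot := ROT.rot
  gen := GEN.gen
  comb := COMB.comb
  cntn := CNTN.cntn
  xloc := XLOC.xloc
  int := int

theorem lab : S_LAB := LAB.lab hyp
theorem cls : S_CLS := LAB.cls hyp
theorem unr : S_UNR := UNR.unr lab TRV.trv XLOC.xloc XLOC.xcpt CNTN.cntn
theorem ext : S_EXT := EXT.ext unr XLOC.xloc XLOC.xcpt CNTN.cntn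
theorem limb : S_LIMB := LIMB.limb BASE.base ext cls FRO.fro XLOC.xcpt

end Pool.Agent.KS6_23.ML.ALL

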