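import Pool.Agent.KS6_23.ML.Stm2

set_option autoImplicit false

/-! # Project ML: common lemmas -/

open Complex Set Filter Metric Topology MeasureTheory

namespace Pool.Agent.KS6_23.ML.Basic

open Pool.Agent.KS6_23.ML

theorem differentiable_iter (c : ℂ) (n : ℕ) : Differentiable ℂ ((f c)^[n]) := by
  induction n with
  | zero => simp
  | succ n ih =>
    rw [Function.iterate_succ']
    have h : Differentiable ℂ (f c) := by unfold f; fun_prop
    exact h.comp ih

theorem hasDerivAt_f (c w : ℂ) : HasDerivAt (f c) (2 * w) w := by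
  have h : HasDerivAt (fun x : ℂ => x ^ 2 + c) (((2 : ℕ) : ℂ) * w ^ (2 - 1)) w :=
    (hasDerivAt_pow 2 w).add_const c
  have e2 : (((2 : ℕ) : ℂ) * w ^ (2 - 1)) = 2 * w := by norm_num
  rw [e2] at h
  exact h

theorem mul_eq_prod (n : ℕ) (c z : ℂ) :
    mul n c z = ∏ k ∈ Finset.range n, (2 * (f c)^[k] z) := by
  induction n with
  | zero => simp [mul]
  | succ n ih =>
    rw [Finset.prod_range_succ, ← ih]
    unfold mul
    rw [Function.iterate_succ']
    have h1 : HasDerivAt (f c) (2 * (f c)^[n] z) ((f c)^[n] z) := hasDerivAt_f c _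
    have h2 := ((differentiable_iter c n) z).hasDerivAt
    have := (h1.comp z h2).deriv
    rw [this, _root_.mul_comm]

theorem iter_mul (c z : ℂ) (n : ℕ) (h : (f c)^[n] z = z) (j : ℕ) : (f c)^[j * n] z = z := by
  rw [_root_.mul_comm, Function.iterate_mul]
  exact Function.iterate_fixed h j

theorem mul_iter (c z : ℂ) (n : ℕ) (h : (f c)^[n] z = z) (q : ℕ) :
    mul (n * q) c z = mul n c z ^ q := by
  induction q with
  | zero => simp [mul]
  | succ q ih =>
    rw [pow_succ, ← ih]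
    unfold mul
    have e1 : (f c)^[n * (q + 1)] = (f c)^[n * q] ∘ (f c)^[n] := by
      rw [Nat.mul_succ, Function.iterate_add]
    rw [e1]
    have h2 : HasDerivAt ((f c)^[n]) (deriv ((f c)^[n]) z) z :=
      ((differentiable_iter c n) z).hasDerivAt
    have h1 : HasDerivAt ((f c)^[n * q]) (deriv ((f c)^[n * q]) z) ((f c)^[n] z) := by
      rw [h]
      exact ((differentiable_iter c (n * q)) z).hasDerivAt
    exact (h1.comp z h2).deriv

theorem exp_int_tpi (k : ℤ) : exp (k * tpi) = 1 := by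
  rw [exp_eq_one_iff]
  exact ⟨k, by unfold tpi; ring⟩

theorem exp_eq_iff (a b : ℂ) : exp a = exp b ↔ ∃ k : ℤ, a = b + k * tpi := by
  rw [exp_eq_exp_iff_exists_int]
  constructor
  · rintro ⟨k, hk⟩
    exact ⟨k, by rw [hk]; unfold tpi; ring⟩
  · rintro ⟨k, hk⟩
    exact ⟨k, by rw [hk]; unfold tpi; ring⟩

theorem tpi_re : tpi.re = 0 := by unfold tpi; simp

theorem tpi_im : tpi.im = 2 * Real.pi := by unfold tpi; simp

theorem tpi_ne : tpi ≠ 0 := by
  intro h
  have := tpi_im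
  rw [h] at this
  simp at this

theorem norm_tpi : ‖tpi‖ = 2 * Real.pi := by
  unfold tpi
  simp [abs_of_pos Real.pi_pos]

theorem int_mul_tpi_re (k : ℤ) : ((k : ℂ) * tpi).re = 0 := by
  simp [tpi_re]

theorem int_mul_tpi_im (k : ℤ) : ((k : ℂ) * tpi).im = 2 * Real.pi * k := by
  simp [tpi_im]; ring

theorem real_mul_tpi_re (x : ℝ) : ((x : ℂ) * tpi).re = 0 := by
  simp [tpi_re]

theorem real_mul_tpi_im (x : ℝ) : ((x : ℂ) * tpi).im = 2 * Real.pi * x := by
  simp [tpi_im]; ring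

theorem HP_add_int {w : ℂ} (hw : w ∈ HP) (k : ℤ) : w + k * tpi ∈ HP := by
  unfold HP at *
  simp only [mem_ofPred_eq] at *
  rw [add_re, int_mul_tpi_re]
  simpa using hw

/-! ## consequences of `Base` -/

section
variable {G : ℂ → ℂ → ℝ} {B : ℂ → ℂ → ℂ} {cc : ℂ → ℂ}

theorem bper_nat (h : Base G B cc) {c ξ : ℂ} (hξ : G c c < 2 * ξ.re) (k : ℕ) :
    B c (ξ + k * tpi) = B c ξ := by
  induction k with
  | zero => simp
  | succ k ih =>
    have h1 : G c c < 2 * (ξ + k * tpi).re := by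
      have := int_mul_tpi_re (k : ℤ)
      push_cast at this
      rw [add_re, this]; simpa using hξ
    have := h.bper c _ h1
    rw [← ih, ← this]
    congr 1
    push_cast
    ring

theorem bper_int (h : Base G B cc) {c ξ : ℂ} (hξ : G c c < 2 * ξ.re) (k : ℤ) :
    B c (ξ + k * tpi) = B c ξ := by
  obtain ⟨j, rfl | rfl⟩ := k.eq_nat_or_neg
  · exact_mod_cast bper_nat h hξ j
  · have h1 : G c c < 2 * (ξ + ((-(j : ℤ) : ℤ) : ℂ) * tpi).re := by
      rw [add_re, int_mul_tpi_re]; simpa using hξ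
    have := bper_nat h h1 j
    rw [← this]
    congr 1
    push_cast
    ring

theorem cc_not_mem (h : Base G B cc) {w : ℂ} (hw : w ∈ HP) : cc w ∉ MM := by
  intro hm
  have h1 := (h.gM (cc w)).2 hm
  have h2 := h.pG w hw
  unfold HP at hw
  simp only [mem_ofPred_eq] at hw
  linarith

theorem Gcc_lt (h : Base G B cc) {w : ℂ} (hw : w ∈ HP) : G (cc w) (cc w) < 2 * w.re := by
  rw [h.pG w hw]
  unfold HP at hw
  simp only [mem_ofPred_eq] at hw
  linarith

theorem cc_inj (h : Base G B cc) {w w' : ℂ} (hw : w ∈ HP) (hw' : w' ∈ HP) (e : cc w = cc w') :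
    ∃ k : ℤ, w' = w + k * tpi := by
  have h1 := Gcc_lt h hw
  have h2 := Gcc_lt h hw'
  rw [← e] at h2
  refine h.binj (cc w) w w' h1 h2 ?_
  rw [h.pB w hw]
  conv_rhs => rw [e]
  rw [h.pB w' hw']
  exact e

theorem cc_per_int (h : Base G B cc) {w : ℂ} (hw : w ∈ HP) (k : ℤ) : cc (w + k * tpi) = cc w := by
  have key : ∀ (j : ℕ) (v : ℂ), v ∈ HP → cc (v + j * tpi) = cc v := by
    intro j
    induction j with
    | zero => intro v hv; simp
    | succ j ih =>
      intro v hv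
      have h1 : v + j * tpi ∈ HP := by
        have := HP_add_int hv (j : ℤ)
        exact_mod_cast this
      rw [← ih v hv, ← h.pper _ h1]
      congr 1
      push_cast
      ring
  obtain ⟨j, rfl | rfl⟩ := k.eq_nat_or_neg
  · exact_mod_cast key j w hw
  · have h1 := HP_add_int hw (-(j : ℤ))
    have := key j _ h1
    rw [← this]
    congr 1
    push_cast
    ring

theorem MM_closed (h : Base G B cc) : IsClosed MM := by
  have : (MM : Set ℂ) = {c : ℂ | G c c = 0} := by
    ext c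
    exact (h.gM c).symm
  rw [this]
  have hc : Continuous (fun c : ℂ => G c c) := h.gcont.comp (by fun_prop : Continuous fun c : ℂ => (c, c))
  exact isClosed_eq hc continuous_const

theorem free_of_mem (h : Base G B cc) {c : ℂ} (hc : c ∈ MM) (θ : ℕ → ℝ) (κ : ℝ) :
    Free cc c θ κ := by
  intro w hw e
  exact absurd (e ▸ hc) (cc_not_mem h hw)

/-- integer translations of the angles -/
theorem sec_congr (h : Base G B cc) {c : ℂ} {N : ℕ} {θ θ' : ℕ → ℝ} {κ : ℝ} {β : ℕ → ℂ → ℂ}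
    (hS : Sec G B c N θ κ β) (hθ : ∀ k, ∃ m : ℤ, θ' k = θ k + m) : Sec G B c N θ' κ β := by
  refine ⟨hS.diff, ?_, hS.step, hS.grn, hS.per⟩
  intro k ζ hζ hG
  obtain ⟨m, hm⟩ := hθ k
  rw [hS.base k ζ hζ hG, hm]
  have h1 : G c c < 2 * (ζ + θ k * tpi).re := by
    rw [add_re, real_mul_tpi_re]; simpa using hG
  rw [← bper_int h h1 m]
  congr 1
  push_cast
  ring

theorem free_congr {c : ℂ} {θ θ' : ℕ → ℝ} {κ : ℝ}
    (hF : Free cc c θ κ) (hθ : ∀ k, ∃ m : ℤ, θ' k = θ k + m) : Free cc c θ' κ := by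
  intro w hw e k m
  obtain ⟨j, hj⟩ := hθ k
  have := hF w hw e k (m + j)
  rw [hj]
  push_cast at this
  convert this using 3
  ring

end

/-! ## sectors -/

theorem Sk_re_pos {κ : ℝ} (h0 : 0 < κ) {ζ : ℂ} (hζ : ζ ∈ Sk κ) : 0 < ζ.re := by
  unfold Sk at hζ
  simp only [mem_ofPred_eq] at hζ
  have h1 : 0 ≤ |ζ.im| := abs_nonneg _
  by_contra h
  push Not at h
  nlinarith

theorem Sk_mono {κ κ' : ℝ} (h0 : 0 < κ) (h : κ ≤ κ') : Sk κ ⊆ Sk κ' := by
  intro ζ hζ
  have h2 := Sk_re_pos h0 hζ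
  unfold Sk at *
  simp only [mem_ofPred_eq] at *
  nlinarith

end Pool.Agent.KS6_23.ML.Basic
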