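import Pool.Agent.KS6_23.ML.Stm3
import Pool.Agent.KS6_23.ML.Basic
import Pool.Graph.R_seed8.TH363.CD.Uniq

/-! # Project ML, module ATU: two attracting cycles have the same multiplier (helper12) -/

set_option autoImplicit false

open Complex Set Filter Metric Topology
open Pool.Agent.KS6_23.ML.Basic

namespace Pool.Agent.KS6_23.ML.ATU

/-- the multiplier is constant along a cycle -/
theorem mul_step {n : ℕ} {c z : ℂ} (hz : (f c)^[n] z = z) : mul n c (f c z) = mul n c z := by
  rcases Nat.eq_zero_or_pos n with h0 | h0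
  · subst h0; rw [mul_eq_prod, mul_eq_prod]; simp
  obtain ⟨m, rfl⟩ : ∃ m, n = m + 1 := ⟨n - 1, by omega⟩
  rw [mul_eq_prod, mul_eq_prod]
  have h2 : ∀ l, (f c)^[l] (f c z) = (f c)^[l + 1] z := fun l =>
    (Function.iterate_succ_apply (f c) l z).symm
  rw [Finset.prod_range_succ, Finset.prod_range_succ']
  simp only [h2, hz]
  simp

theorem mul_inv {n : ℕ} {c z : ℂ} (hz : (f c)^[n] z = z) (l : ℕ) :
    mul n c ((f c)^[l] z) = mul n c z := by
  induction l with
  | zero => rfl
  | succ l ih =>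
    rw [← ih, Function.iterate_succ_apply']
    apply mul_step
    rw [← Function.iterate_add_apply, Nat.add_comm, Function.iterate_add_apply, hz]

theorem atu : S_ATU := by
  intro n c z z' hn hz hz' h1 h2
  have hf : Pool.Agent.W747.MB.f 2 c = f c := by
    funext w; simp [f, Pool.Agent.W747.MB.f]
  have a1 : N62a1eb23.IsAttractingCycle (Pool.Agent.W747.MB.f 2 c) n z := by
    rw [hf]; exact ⟨hn, hz, (differentiable_iter c n) z, h1⟩
  have a2 : N62a1eb23.IsAttractingCycle (Pool.Agent.W747.MB.f 2 c) n z' := by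
    rw [hf]; exact ⟨hn, hz', (differentiable_iter c n) z', h2⟩
  obtain ⟨l, b1⟩ := Pool.Agent.TH363.CD.crit_conv le_rfl a1
  obtain ⟨l', b2⟩ := Pool.Agent.TH363.CD.crit_conv le_rfl a2
  rw [hf] at b1 b2
  have h3 := tendsto_nhds_unique b1 b2
  rw [← mul_inv hz l, ← mul_inv hz' l', h3]

end Pool.Agent.KS6_23.ML.ATU
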