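import Pool.Agent.KS6_23.ML.LOC

set_option autoImplicit false

/-! # Project ML: existence and uniqueness of limbs -/

open Complex Set Filter Metric Topology MeasureTheory

namespace Pool.Agent.KS6_23.ML.CAN

open Pool.Agent.KS6_23.ML Pool.Agent.KS6_23.ML.Basic Pool.Agent.KS6_23.ML.LabC
open Pool.Agent.KS6_23.ML.Curve Pool.Agent.KS6_23.ML.SHEET Pool.Agent.KS6_23.ML.NEST
open Pool.Agent.KS6_23.ML.LOC

theorem clo_compl (hMc : IsClosed MM) {a : ℂ} {B : Set ℂ} (h : Clo a B) :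
    Clo a (MM \ insert a B) := by
  refine ⟨fun c hc => ⟨hc.1, fun h1 => hc.2 (Or.inl h1)⟩, ?_, ?_⟩
  · rintro c ⟨hc, hcn⟩
    have h1 : c ∉ closure B := fun h2 => hcn (h.cls h2)
    have h3 : c ≠ a := fun h2 => hcn (Or.inl h2)
    filter_upwards [not_near h1, isOpen_ne.mem_nhds h3] with c' g1 g2 g3
    exact ⟨g3, fun h4 => h4.elim g2 g1⟩
  · intro c hc
    have hcM : c ∈ MM := closure_minimal (fun x hx => hx.1) hMc hc
    by_cases hca : c = a
    · exact Or.inl hca
    · right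
      refine ⟨hcM, fun h1 => ?_⟩
      rcases h1 with h1 | h1
      · exact hca h1
      · obtain ⟨c', g1, g2⟩ := ((mem_closure_iff_frequently.1 hc).and_eventually
          (h.opn c h1)).exists
        exact g1.2 (Or.inr (g2 g1.1))

theorem clo_limb (hMc : IsClosed MM) {n : ℕ} {t : ℝ} {c z : ℂ} {B : Set ℂ}
    (h : Limb n t c z B) : Clo c B := by
  refine ⟨h.sub, ?_, ?_⟩
  · intro x hx
    obtain ⟨O, hO, hBO⟩ := h.opn
    have hxO : x ∈ O := by
      rw [hBO] at hx
      exact hx.1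
    have hxc : x ≠ c := (h.sub hx).2
    filter_upwards [hO.mem_nhds hxO, isOpen_ne.mem_nhds hxc] with y g1 g2 g3
    rw [hBO]
    exact ⟨g1, g3, g2⟩
  · intro x hx
    obtain ⟨K, hK, hBK⟩ := h.cls
    by_cases hxc : x = c
    · exact Or.inl hxc
    · right
      rw [hBK]
      refine ⟨closure_minimal (by rw [hBK]; exact inter_subset_left) hK hx, ?_, hxc⟩
      exact closure_minimal (fun y hy => (h.sub hy).1) hMc hx

theorem left_near {v : ℝ} {P : ℂ → Prop} (hP : ∀ᶠ s in 𝓝 (tpi * (v : ℂ)), P s) :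
    ∃ s : ℂ, s.re < 0 ∧ P s := by
  have h1 : Tendsto (fun x : ℝ => tpi * (v : ℂ) - x) (𝓝[>] 0) (𝓝 (tpi * (v : ℂ))) := by
    have h2 : Tendsto (fun x : ℝ => tpi * (v : ℂ) - x) (𝓝 0) (𝓝 (tpi * (v : ℂ) - (0 : ℝ))) :=
      (continuous_const.sub continuous_ofReal).tendsto 0
    simp only [ofReal_zero, sub_zero] at h2
    exact h2.mono_left nhdsWithin_le_nhds
  obtain ⟨x, h3, h4⟩ := ((h1.eventually hP).and self_mem_nhdsWithin).exists
  refine ⟨_, ?_, h3⟩
  rw [sub_re, re_tpi, ofReal_re, zero_sub, neg_lt_zero]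
  exact h4

theorem can (hBase : S_BASE) (hFr : S_FRO) (hT : S_TRV) (hX : S_XLOC) (hK : S_XCPT)
    (hCn : S_CNTN) (hSep : S_SEP) : S_CAN := by
  obtain ⟨G, B₀, cc, hB⟩ := id hBase
  have hMc : IsClosed MM := MM_closed hB
  intro n v c₁ z₁ hn hv hf hm
  obtain ⟨κ₀, hP⟩ := hSep
  have hκ := hP.pos
  have hdv : 0 < dZ v := lt_of_le_of_ne (dZ_nonneg v) (Ne.symm hv)
  have hn0 : (0 : ℝ) < n := by exact_mod_cast hn
  have hvO : tpi * (v : ℂ) ∈ Om κ₀ n v := by
    refine ⟨?_, ?_⟩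
    · rw [im_tpi, sub_self, abs_zero]
      exact hdv
    · rw [re_tpi]
      positivity
  obtain ⟨ψ, ζ, h, hψ, hζ⟩ := sheet hT hX hK hCn κ₀ hκ hP.le hP.unr n v hn hv _ hvO c₁ z₁ hf hm
  obtain ⟨lab, cl, S, hS⟩ := hP.sep n hn
  obtain ⟨i, hi⟩ := lab_const hκ hn hv hS h
  have hclo := clo_S hB hS h hi hv hvO
  rw [hψ] at hclo
  have hbd : c₁ ∈ closure MMᶜ := by
    rw [← hψ]
    exact mem_bd hFr hn h hvO (re_tpi v)
  have h0S : (0 : ℂ) ∉ S i v := hS.zero i v hv
  -- the limb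
  have hlimb : Limb n v c₁ z₁ (S i v) := by
    refine ⟨hf, hm, hclo.sub, ?_, ?_, ?_⟩
    · refine ⟨{c | ∀ᶠ c' in 𝓝 c, c' ∈ MM → c' ∈ S i v}, ?_, ?_⟩
      · rw [isOpen_iff_mem_nhds]
        intro x hx
        exact eventually_eventually_nhds.2 hx
      · ext c
        constructor
        · intro hc
          exact ⟨hclo.opn c hc, hclo.sub hc⟩
        · rintro ⟨hc1, hc2⟩
          have hc3 : ∀ᶠ c' in 𝓝 c, c' ∈ MM → c' ∈ S i v := hc1
          exact hc3.self_of_nhds hc2.1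
    · refine ⟨closure (S i v), isClosed_closure, ?_⟩
      ext c
      constructor
      · intro hc
        exact ⟨subset_closure hc, hclo.sub hc⟩
      · rintro ⟨hc1, hc2⟩
        rcases hclo.cls hc1 with h1 | h1
        · exact absurd h1 hc2.2
        · exact h1
    · obtain ⟨δ, ζ', σ, hδ, _, _, _, _, _, e2⟩ := hX n c₁ z₁ (tpi * v) hn hf hm (Om_exp hvO)
      have h1 : ∀ᶠ s in 𝓝 (tpi * (v : ℂ)), ζ s ∈ ball z₁ δ := by
        have := (h.zdiff.differentiableAt ((Om_open _ _ _).mem_nhds hvO)).continuousAt.eventually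
          (ball_mem_nhds _ hδ)
        rwa [hζ] at this
      obtain ⟨ε, hε, hb⟩ := Metric.eventually_nhds_iff_ball.1 h1
      obtain ⟨δ', hδ', hb'⟩ := Metric.eventually_nhds_iff_ball.1
        (near_sheet hS h hi hv hvO (fun h1 => (hclo.sub h1).2 rfl) hε)
      refine ⟨min δ δ', by positivity, fun c z hc hz hfz hmz hcS => ?_⟩
      obtain ⟨s, hsO, hre, hs, hsc⟩ := hb' c (by
        rw [mem_ball, dist_eq_norm]
        exact lt_of_lt_of_le hc (min_le_right _ _)) hcS
      have hcδ : c ∈ ball c₁ δ := by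
        rw [mem_ball, dist_eq_norm]
        exact lt_of_lt_of_le hc (min_le_left _ _)
      have hzδ : z ∈ ball z₁ δ := by
        rw [mem_ball, dist_eq_norm]
        exact lt_of_lt_of_le hz (min_le_left _ _)
      have k1 := (e2 c hcδ z hzδ hfz).1
      have hxs := h.mem s hsO
      have k2 := (e2 c hcδ (ζ s) (hb s (by rw [mem_ball, dist_eq_norm]; exact hs))
        (by rw [← hsc]; exact hxs.2.1)).1
      have k3 : z = ζ s := by rw [k1, k2]
      have k4 := hxs.2.2
      simp only at k4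
      rw [hsc, ← k3] at k4
      rw [k4, norm_exp] at hmz
      have := Real.exp_lt_one_iff.1 hmz
      linarith
  -- the points over the left half plane near the root
  have hgerm : ∀ B', Limb n v c₁ z₁ B' → ∃ s ∈ Om κ₀ n v, s.re < 0 ∧
      ψ s ∈ MM \ insert c₁ B' := by
    intro B' hB'
    obtain ⟨δ, hδ, hatt⟩ := hB'.att
    have e1 : ∀ᶠ s in 𝓝 (tpi * (v : ℂ)), ψ s ∈ ball c₁ δ := by
      have := (cont1 h hvO).eventually (ball_mem_nhds _ hδ)
      rwa [hψ] at this
    have e2 : ∀ᶠ s in 𝓝 (tpi * (v : ℂ)), ζ s ∈ ball z₁ δ := by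
      have := (h.zdiff.differentiableAt ((Om_open _ _ _).mem_nhds hvO)).continuousAt.eventually
        (ball_mem_nhds _ hδ)
      rwa [hζ] at this
    obtain ⟨s, hre, ⟨g1, g2⟩, g3⟩ := left_near ((e1.and e2).and ((Om_open κ₀ n v).mem_nhds hvO))
    refine ⟨s, g3, hre, mem_le hFr hn h g3 hre.le, ?_⟩
    rintro (h1 | h1)
    · exact not_bd hFr hn h g3 hre (h1 ▸ hbd)
    · have hx := h.mem s g3
      refine hatt (ψ s) (ζ s) ?_ ?_ hx.2.1 ?_ h1
      · rwa [mem_ball, dist_eq_norm] at g1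
      · rwa [mem_ball, dist_eq_norm] at g2
      · have k4 := hx.2.2
        simp only at k4
        rw [k4, norm_exp]
        exact Real.exp_lt_one_iff.2 hre
  -- zero is not in a limb
  have hzero : ∀ B', Limb n v c₁ z₁ B' → (0 : ℂ) ∉ B' := by
    intro B' hB' h0
    have hQ := clo_compl hMc (clo_limb hMc hB')
    have h1 := loc_gen hBase hFr hκ hn hv hS h hi hbd hQ (fun h2 => h2.2 (Or.inr h0))
      (hgerm B' hB') hvO (mem_le hFr hn h hvO (re_tpi v).le)
      (fun h2 => absurd h2 (by rw [re_tpi]; exact lt_irrefl _))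
    rw [hψ] at h1
    exact h1.2 (mem_insert _ _)
  -- a small disc about the root
  obtain ⟨ρ, hρ, hb⟩ := Metric.eventually_nhds_iff_ball.1
    ((ne_near h hvO).and ((Om_open κ₀ n v).mem_nhds hvO))
  -- limbs are contained in `S i v`
  have hsub : ∀ B', Limb n v c₁ z₁ B' → B' ⊆ S i v := by
    intro B' hB'
    have hclo' := clo_limb hMc hB'
    have hQ := clo_compl hMc hclo'
    set Q : Set ℂ := MM \ insert c₁ B' with hQdef
    have hatt := att_Q hFr hn h hbd hQ (hgerm B' hB')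
    have hax := axis_Q h hQ hatt
    by_contra hns
    obtain ⟨x, hxB, hxS⟩ := not_subset.1 hns
    have hcE : c₁ ∈ closure (B' \ S i v) := by
      refine LIMB.conn_lemma hB.conn.isPreconnected ⟨x, hxB, hxS⟩ (fun y hy => (hB'.sub hy.1).1)
        (zero_mem hB) (fun h1 => hzero B' hB' h1.1) ?_ ?_
      · rintro c ⟨hc, hcn⟩
        have h1 : c ∉ closure (S i v) := by
          intro h2
          rcases hclo.cls h2 with h3 | h3
          · exact (hB'.sub hc).2 h3
          · exact hcn h3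
        filter_upwards [not_near h1, hclo'.opn c hc] with c' g1 g2 g3
        exact ⟨g2 g3, g1⟩
      · intro c hc
        rcases hclo'.cls (closure_mono sdiff_subset hc) with h1 | h1
        · exact Or.inl h1
        · right
          refine ⟨h1, fun h2 => ?_⟩
          obtain ⟨c', g1, g2⟩ := ((mem_closure_iff_frequently.1 hc).and_eventually
            (hclo.opn c h2)).exists
          exact g1.2 (g2 (hB'.sub g1.1).1)
    have hno : ∀ᶠ c in 𝓝 c₁, c ∉ B' \ S i v := by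
      rw [← hψ]
      refine near_map h hvO ?_
      have e1 : ∀ᶠ s in 𝓝 (tpi * (v : ℂ)), ‖s - tpi * v‖ < ρ / 2 := by
        filter_upwards [ball_mem_nhds (tpi * (v : ℂ)) (half_pos hρ)] with s hs
        rwa [mem_ball, dist_eq_norm] at hs
      have e2 : ∀ᶠ s : ℂ in 𝓝 (tpi * (v : ℂ)), 2 * n * Real.log 2 * s.re < (ρ / 2) ^ 2 := by
        have h1 : Tendsto (fun s : ℂ => 2 * n * Real.log 2 * s.re) (𝓝 (tpi * (v : ℂ)))
            (𝓝 (2 * n * Real.log 2 * (tpi * (v : ℂ)).re)) :=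
          (continuous_const.mul continuous_re).tendsto _
        rw [re_tpi, mul_zero] at h1
        exact h1.eventually_lt_const (by positivity)
      filter_upwards [e1, e2] with s hs1 hs2 hsE
      have hsO : s ∈ Om κ₀ n v := (hb s (by
        rw [mem_ball, dist_eq_norm]
        linarith)).2
      have hnQ : ψ s ∉ Q := fun h1 => h1.2 (Or.inr hsE.1)
      have hsM : ψ s ∈ MM := (hB'.sub hsE.1).1
      rcases lt_trichotomy s.re 0 with hre | hre | hre
      · exact hnQ (hatt s hsO hre)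
      · rcases hax s hsO hre with h1 | h1
        · exact (hB'.sub hsE.1).2 h1
        · exact hnQ h1
      · obtain ⟨v', hv', hb1, hmem⟩ := exists_cl hκ hn hv hS h hi hsO hre hsM
        have hb2 : ‖s - tpi * v'‖ < ρ / 2 := by
          refine lt_of_pow_lt_pow_left₀ 2 (by positivity) (lt_of_le_of_lt hb1 hs2)
        have hb3 : tpi * (v' : ℂ) ∈ ball (tpi * (v : ℂ)) ρ := by
          rw [mem_ball, dist_eq_norm]
          have h1 : tpi * (v' : ℂ) - tpi * v = -(s - tpi * v') + (s - tpi * v) := by ring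
          rw [h1]
          refine lt_of_le_of_lt (norm_add_le _ _) ?_
          rw [norm_neg]
          linarith
        obtain ⟨k1, k2⟩ := hb _ hb3
        by_cases hvv : v' = v
        · rw [hvv] at hmem
          exact hsE.2 hmem
        · have hne : tpi * (v' : ℂ) ≠ tpi * v := by
            intro h1
            apply hvv
            have := mul_left_cancel₀ tpi_ne h1
            exact_mod_cast this
          have h2 := k1 hne
          rw [hψ] at h2
          have h3 : ψ (tpi * v') ∈ Q := by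
            rcases hax _ k2 (re_tpi v') with h4 | h4
            · exact absurd h4 h2
            · exact h4
          have hclo2 := clo_S hB hS h hi hv' k2
          have h0' : (0 : ℂ) ∉ S i v' := hS.zero i v' hv'
          have h5 : c₁ ∉ S i v' := by
            intro h6
            have h7 : ∀ᶠ s' in 𝓝 (tpi * (v : ℂ)), ψ s' ∈ MM → ψ s' ∈ S i v' := by
              have := cont1 h hvO
              refine this.eventually (p := fun c => c ∈ MM → c ∈ S i v') ?_
              rw [hψ]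
              exact hclo2.opn _ h6
            obtain ⟨s', hre', g1, g2⟩ := left_near (h7.and ((Om_open κ₀ n v).mem_nhds hvO))
            have h8 := loc_gen hBase hFr hκ hn hv hS h hi (mem_bd hFr hn h k2 (re_tpi v'))
              hclo2 h0' ⟨s', g2, hre', g1 (mem_le hFr hn h g2 hre'.le)⟩ k2
              (mem_le hFr hn h k2 (re_tpi v').le)
              (fun h2 => absurd h2 (by rw [re_tpi]; exact lt_irrefl _))
            exact (hclo2.sub h8).2 rfl
          exact hnQ (nest_sub hB h3 hQ hclo2 h0' h5 hmem)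
    obtain ⟨c, g1, g2⟩ := ((mem_closure_iff_frequently.1 hcE).and_eventually hno).exists
    exact g2 g1
  -- unramified
  have hU : ∀ s ∈ Om κ₀ n v, Unr n (ψ s, ζ s, s) := by
    intro s hs
    have hx := h.mem s hs
    by_cases hre : 0 ≤ s.re
    · obtain ⟨h1, h2⟩ := Om_DD hκ hn hv hs hre
      exact hP.unr n _ hn h1 _ ⟨h2, hx.2⟩
    · push Not at hre
      intro ζ' hζ' hζ0 hev
      refine hT n _ _ ζ' hn hx.2.1 ?_ ?_ ?_ hζ' hζ0 hev
      · rw [hx.2.2]; exact exp_ne_zero _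
      · rw [hx.2.2]; exact Om_exp hs
      · rw [hx.2.2, norm_exp]
        exact Real.exp_le_one_iff.2 hre.le
  refine ⟨S i v, ρ, hρ, hlimb, hclo, h0S, fun B' hB' => ⟨clo_limb hMc hB', hsub B' hB'⟩, ?_⟩
  intro r hr hrρ ψ' ζ' T hψ' hζ' hψ'0 hζ'0 hmem' hTs hTc hTv hTM
  replace hb : ∀ s ∈ ball (tpi * (v : ℂ)) r, (s ≠ tpi * v → ψ s ≠ ψ (tpi * v)) ∧
      s ∈ Om κ₀ n v := fun s hs => hb s (ball_subset_ball hrρ hs)
  have heq : ∀ s ∈ ball (tpi * (v : ℂ)) r, ψ' s = ψ s ∧ ζ' s = ζ s := by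
    refine conn_loc (L := ball (tpi * (v : ℂ)) r) (P := fun s => ψ' s = ψ s ∧ ζ' s = ζ s)
      (convex_ball _ _).isPreconnected ?_ ?_ (mem_ball_self hr) ⟨by rw [hψ'0, hψ], by rw [hζ'0, hζ]⟩
    · rintro s hs ⟨h1, h2⟩
      have hsO := (hb s hs).2
      obtain ⟨ε, ψ₂, ζ₂, hε, _, _, _, _, _, η, hη, huni⟩ := xsec hX hn (a := (ψ s, ζ s, s))
        ⟨mem_univ _, (h.mem s hsO).2⟩ (Om_exp hsO) (hU s hsO)
      have c1 : ContinuousAt (fun s' : ℂ => ((ψ' s', ζ' s', s') : ℂ × ℂ × ℂ)) s :=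
        (hψ'.continuousAt (isOpen_ball.mem_nhds hs)).prodMk
          ((hζ'.continuousAt (isOpen_ball.mem_nhds hs)).prodMk continuousAt_id)
      have c2 := cont3 h hsO
      have d1 : ∀ᶠ s' in 𝓝 s, dist ((ψ' s', ζ' s', s') : ℂ × ℂ × ℂ) (ψ s, ζ s, s) < η := by
        have := c1.eventually (ball_mem_nhds _ hη)
        simp only [h1, h2] at this
        exact this
      have d2 : ∀ᶠ s' in 𝓝 s, dist ((ψ s', ζ s', s') : ℂ × ℂ × ℂ) (ψ s, ζ s, s) < η :=
        c2.eventually (ball_mem_nhds _ hη)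
      filter_upwards [d1, d2] with s' g1 g2 g3
      have k1 := (huni _ (hmem' s' g3) g1).2
      have k2 := (huni (ψ s', ζ s', s') ⟨mem_univ _, (h.mem s' (hb s' g3).2).2⟩ g2).2
      simp only at k1 k2
      have k3 : ((ψ' s', ζ' s', s') : ℂ × ℂ × ℂ) = (ψ s', ζ s', s') := by rw [k1, k2]
      exact ⟨congrArg Prod.fst k3, congrArg (fun x : ℂ × ℂ × ℂ => x.2.1) k3⟩
    · rintro s hs hne
      have hsO := (hb s hs).2
      have c1 : ContinuousAt (fun s' : ℂ => ((ψ' s', ζ' s') : ℂ × ℂ)) s :=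
        (hψ'.continuousAt (isOpen_ball.mem_nhds hs)).prodMk
          (hζ'.continuousAt (isOpen_ball.mem_nhds hs))
      have c2 : ContinuousAt (fun s' : ℂ => ((ψ s', ζ s') : ℂ × ℂ)) s :=
        (cont1 h hsO).prodMk
          (h.zdiff.differentiableAt ((Om_open _ _ _).mem_nhds hsO)).continuousAt
      have hne' : ((ψ' s, ζ' s) : ℂ × ℂ) ≠ (ψ s, ζ s) := by
        intro h1
        exact hne ⟨congrArg Prod.fst h1, congrArg Prod.snd h1⟩
      have hd := (c1.prodMk c2).eventually ((isClosed_diagonal (X := ℂ × ℂ)).isOpen_compl.mem_nhds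
        (show (((ψ' s, ζ' s), (ψ s, ζ s)) : (ℂ × ℂ) × (ℂ × ℂ)) ∈ (diagonal (ℂ × ℂ))ᶜ from hne'))
      filter_upwards [hd] with s' g1 _ g2
      refine g1 ?_
      rw [mem_diagonal_iff, g2.1, g2.2]
  intro s hs
  have hTO : ∀ s ∈ T, s ∈ Om κ₀ n v ∧ 0 < s.re ∧ ψ s ∈ MM ∧ ψ' s = ψ s := by
    intro s hs
    have h1 := heq s (hTs hs).1
    exact ⟨(hb s (hTs hs).1).2, (hTs hs).2, by rw [← h1.1]; exact hTM s hs, h1.1⟩
  -- the class is constant on `T`
  have hopen : ∀ s ∈ T, ∀ᶠ s' in 𝓝 s, s' ∈ T → cl (ψ s', ζ s', s') = cl (ψ s, ζ s, s) := by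
    intro s hs
    obtain ⟨hsO, hre, hM, _⟩ := hTO s hs
    obtain ⟨h1, h2⟩ := Om_DD hκ hn hv hsO hre.le
    have h3 := hS.cl_loc _ h1 _ (xx h hsO hre h2) hM
    filter_upwards [(cont3 h hsO).eventually h3, isOpen_ball.mem_nhds h2] with s' g1 g2 g3
    obtain ⟨k1, k2, k3, _⟩ := hTO s' g3
    exact g1 (xx h k1 k2 g2) k3
  have hcst : ∀ s' ∈ T, cl (ψ s', ζ s', s') = cl (ψ s, ζ s, s) := by
    refine conn_loc hTc ?_ ?_ hs rfl
    · intro x hx hP
      filter_upwards [hopen x hx] with s' g1 g2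
      rw [g1 g2, hP]
    · intro x hx hP
      filter_upwards [hopen x hx] with s' g1 g2
      rw [g1 g2]
      exact hP
  have hcl : cl (ψ s, ζ s, s) = v := by
    set u : ℝ := cl (ψ s, ζ s, s) with hu
    have h1 : T ⊆ {x : ℂ | ‖x - tpi * u‖ ^ 2 ≤ 2 * n * Real.log 2 * x.re} := by
      intro x hx
      obtain ⟨k1, k2, k3, _⟩ := hTO x hx
      obtain ⟨h1, h2⟩ := Om_DD hκ hn hv k1 k2.le
      obtain ⟨_, p, q, hq, _, h4⟩ := hS.cl_rat _ h1 _ (xx h k1 k2 h2) k3
      rw [hcst x hx] at h4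
      refine h4.trans ?_
      simp only
      have hq1 : (1 : ℝ) ≤ q := by exact_mod_cast hq
      have hlog : 0 < Real.log 2 := Real.log_pos (by norm_num)
      gcongr
      exact div_le_self (by positivity) hq1
    have h2 : IsClosed {x : ℂ | ‖x - tpi * u‖ ^ 2 ≤ 2 * n * Real.log 2 * x.re} :=
      isClosed_le ((continuous_id.sub continuous_const).norm.pow 2)
        (continuous_const.mul continuous_re)
    have h3 : tpi * (v : ℂ) ∈ {x : ℂ | ‖x - tpi * u‖ ^ 2 ≤ 2 * n * Real.log 2 * x.re} :=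
      closure_minimal h1 h2 hTv
    have h4 : ‖tpi * (v : ℂ) - tpi * u‖ ^ 2 ≤ 2 * n * Real.log 2 * (tpi * (v : ℂ)).re := h3
    rw [re_tpi, mul_zero] at h4
    have h5 : ‖tpi * (v : ℂ) - tpi * u‖ = 0 := by
      have := norm_nonneg (tpi * (v : ℂ) - tpi * u)
      nlinarith
    have h6 := mul_left_cancel₀ tpi_ne (sub_eq_zero.1 (norm_eq_zero.1 h5))
    exact_mod_cast h6.symm
  obtain ⟨k1, k2, k3, k4⟩ := hTO s hs
  obtain ⟨h1, h2⟩ := Om_DD hκ hn hv k1 k2.le
  have h5 := hS.mem _ h1 _ (xx h k1 k2 h2) k3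
  rw [hi s k1 k2, hcl] at h5
  rw [k4]
  exact h5

end Pool.Agent.KS6_23.ML.CAN
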