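import Pool.Agent.KS6_23.ML.LabC

set_option autoImplicit false

/-! # Project ML: tools for the curves of periodic points -/

open Complex Set Filter Metric Topology MeasureTheory

namespace Pool.Agent.KS6_23.ML.Curve

open Pool.Agent.KS6_23.ML Pool.Agent.KS6_23.ML.Basic

/-- the derivative of the multiplier is not zero at `x` -/
def Unr (n : ℕ) (x : ℂ × ℂ × ℂ) : Prop := ∀ ζ : ℂ → ℂ, AnalyticAt ℂ ζ x.1 → ζ x.1 = x.2.1 →
  (∀ᶠ c in 𝓝 x.1, (f c)^[n] (ζ c) = ζ c) → deriv (fun c => mul n c (ζ c)) x.1 ≠ 0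

theorem XX_mono {n : ℕ} {D D' : Set ℂ} (h : D ⊆ D') : XX n D ⊆ XX n D' :=
  fun _ hx => ⟨h hx.1, hx.2⟩

/-- sequences with convergent logarithms of the multiplier have convergent subsequences -/
theorem xlim (hK : S_XCPT) {n : ℕ} (hn : 1 ≤ n) {x : ℕ → ℂ × ℂ × ℂ} (hx : ∀ k, x k ∈ XX n univ)
    {s : ℂ} (hs : Tendsto (fun k => (x k).2.2) atTop (𝓝 s)) :
    ∃ (a : ℂ × ℂ × ℂ) (φ : ℕ → ℕ), StrictMono φ ∧ Tendsto (x ∘ φ) atTop (𝓝 a) ∧ a.2.2 = s ∧
      a ∈ XX n univ := by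
  have hev : ∀ᶠ k in atTop, (x k).2.2 ∈ closedBall s 1 := hs.eventually_mem
    (closedBall_mem_nhds s one_pos)
  obtain ⟨k₀, hk₀⟩ := eventually_atTop.1 hev
  have hmem : ∀ k, x (k + k₀) ∈ XX n (closedBall s 1) := fun k =>
    ⟨hk₀ _ (by omega), (hx _).2⟩
  obtain ⟨a, ha, φ, hφ, hlim⟩ := (hK.1 n hn _ (isCompact_closedBall s 1)).tendsto_subseq hmem
  refine ⟨a, fun k => φ k + k₀, fun i j hij => by have := hφ hij; simpa using this, hlim, ?_,
    XX_mono (subset_univ _) ha⟩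
  have h1 : Tendsto (fun k => (x (φ k + k₀)).2.2) atTop (𝓝 a.2.2) :=
    ((continuous_snd.comp continuous_snd).tendsto a).comp hlim
  have h2 : Tendsto (fun k => (x (φ k + k₀)).2.2) atTop (𝓝 s) :=
    hs.comp (tendsto_atTop_mono (fun k => Nat.le_add_right _ _) hφ.tendsto_atTop)
  exact tendsto_nhds_unique h1 h2

/-- the local section -/
theorem xsec (hX : S_XLOC) {n : ℕ} (hn : 1 ≤ n) {a : ℂ × ℂ × ℂ} (ha : a ∈ XX n univ)
    (h1 : exp a.2.2 ≠ 1) (hU : Unr n a) : ∃ (ε : ℝ) (ψ ζ : ℂ → ℂ), 0 < ε ∧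
      DifferentiableOn ℂ ψ (ball a.2.2 ε) ∧ DifferentiableOn ℂ ζ (ball a.2.2 ε) ∧
      ψ a.2.2 = a.1 ∧ ζ a.2.2 = a.2.1 ∧
      (∀ s ∈ ball a.2.2 ε, (ψ s, ζ s, s) ∈ XX n univ ∧ deriv ψ s ≠ 0) ∧
      ∃ η : ℝ, 0 < η ∧ ∀ x ∈ XX n univ, dist x a < η → x.2.2 ∈ ball a.2.2 ε ∧
        x = (ψ x.2.2, ζ x.2.2, x.2.2) := by
  obtain ⟨c₀, z₀, s₀⟩ := a
  obtain ⟨_, hf, hm⟩ := ha
  simp only at hf hm h1
  obtain ⟨δ, ζ, σ, hδ, hζ, hσ, hζ0, hσ0, e1, e2⟩ := hX n c₀ z₀ s₀ hn hf hm h1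
  have hn0 := ball_mem_nhds c₀ hδ
  have hσA : AnalyticAt ℂ σ c₀ := hσ.analyticAt hn0
  have hζA : AnalyticAt ℂ ζ c₀ := hζ.analyticAt hn0
  have hd : deriv σ c₀ ≠ 0 := by
    intro h0
    apply hU ζ hζA hζ0
    · filter_upwards [hn0] with c hc using (e1 c hc).1
    · have : (fun c => mul n c (ζ c)) =ᶠ[𝓝 c₀] fun c => exp (σ c) := by
        filter_upwards [hn0] with c hc using (e1 c hc).2
      rw [this.deriv_eq]
      have h3 := (hσA.differentiableAt.hasDerivAt).cexp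
      rw [h3.deriv, h0, mul_zero]
  have hst : HasStrictDerivAt σ (deriv σ c₀) c₀ := hσA.hasStrictDerivAt
  set P := (hst.hasStrictFDerivAt_equiv hd).toOpenPartialHomeomorph σ with hP
  have hPσ : ∀ c, P c = σ c := fun c => rfl
  have hc₀s : c₀ ∈ P.source := (hst.hasStrictFDerivAt_equiv hd).mem_toOpenPartialHomeomorph_source
  have hs₀t : s₀ ∈ P.target := by
    have := P.map_source hc₀s
    rwa [hPσ, hσ0] at this
  have hsym0 : P.symm s₀ = c₀ := by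
    have := P.left_inv hc₀s
    rwa [hPσ, hσ0] at this
  have hdc : ∀ᶠ c in 𝓝 c₀, deriv σ c ≠ 0 := by
    have : ContinuousAt (deriv σ) c₀ := hσA.deriv.continuousAt
    exact this.eventually_ne hd
  -- the neighbourhood of `s₀`
  have hsymc : ContinuousAt P.symm s₀ := P.continuousAt_symm hs₀t
  have hV : ∀ᶠ s in 𝓝 s₀, s ∈ P.target ∧ P.symm s ∈ ball c₀ δ ∧ deriv σ (P.symm s) ≠ 0 := by
    have a1 : ∀ᶠ s in 𝓝 s₀, P.symm s ∈ ball c₀ δ := by
      refine hsymc.eventually_mem ?_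
      rw [hsym0]
      exact hn0
    have a2 : ∀ᶠ s in 𝓝 s₀, deriv σ (P.symm s) ≠ 0 := by
      have : Tendsto P.symm (𝓝 s₀) (𝓝 c₀) := by
        have h := hsymc.tendsto
        rwa [hsym0] at h
      exact this.eventually hdc
    filter_upwards [P.open_target.mem_nhds hs₀t, a1, a2] with s b1 b2 b3 using ⟨b1, b2, b3⟩
  obtain ⟨ε, hε, hball⟩ := Metric.eventually_nhds_iff_ball.1 hV
  have hder : ∀ s ∈ ball s₀ ε, HasDerivAt P.symm (deriv σ (P.symm s))⁻¹ s := by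
    intro s hs
    obtain ⟨b1, b2, b3⟩ := hball s hs
    refine P.hasDerivAt_symm b1 b3 ?_
    exact (hσ.differentiableAt (isOpen_ball.mem_nhds b2)).hasDerivAt
  have hright : ∀ s ∈ ball s₀ ε, σ (P.symm s) = s := by
    intro s hs
    have := P.right_inv (hball s hs).1
    rwa [hPσ] at this
  refine ⟨ε, P.symm, fun s => ζ (P.symm s), hε, ?_, ?_, hsym0, ?_, ?_, ?_⟩
  · exact fun s hs => (hder s hs).differentiableAt.differentiableWithinAt
  · intro s hs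
    have h2 := hζ.differentiableAt (isOpen_ball.mem_nhds (hball s hs).2.1)
    exact (h2.comp s (hder s hs).differentiableAt).differentiableWithinAt
  · simp only [hsym0, hζ0]
  · intro s hs
    obtain ⟨b1, b2, b3⟩ := hball s hs
    refine ⟨⟨mem_univ _, (e1 _ b2).1, ?_⟩, ?_⟩
    · simp only
      rw [(e1 _ b2).2, hright s hs]
    · rw [(hder s hs).deriv]
      exact inv_ne_zero b3
  · have g1 : ∀ᶠ c in 𝓝 c₀, c ∈ P.source := P.open_source.mem_nhds hc₀s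
    obtain ⟨η, hη, hη2⟩ := Metric.eventually_nhds_iff_ball.1 g1
    refine ⟨min η (min δ ε), by positivity, ?_⟩
    rintro ⟨c, z, s⟩ ⟨_, hxf, hxm⟩ hdist
    simp only at hxf hxm
    have hc : dist c c₀ < min η (min δ ε) := lt_of_le_of_lt (by
      rw [Prod.dist_eq]
      exact le_max_left _ _) hdist
    have hz : dist z z₀ < min η (min δ ε) := lt_of_le_of_lt (by
      rw [Prod.dist_eq, Prod.dist_eq]
      exact (le_max_left _ _).trans (le_max_right _ _)) hdist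
    have hs : dist s s₀ < min η (min δ ε) := lt_of_le_of_lt (by
      rw [Prod.dist_eq, Prod.dist_eq]
      exact (le_max_right _ _).trans (le_max_right _ _)) hdist
    have hcδ : c ∈ ball c₀ δ := lt_of_lt_of_le hc ((min_le_right _ _).trans (min_le_left _ _))
    have hzδ : z ∈ ball z₀ δ := lt_of_lt_of_le hz ((min_le_right _ _).trans (min_le_left _ _))
    have hsδ : s ∈ ball s₀ δ := lt_of_lt_of_le hs ((min_le_right _ _).trans (min_le_left _ _))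
    have hsε : s ∈ ball s₀ ε := lt_of_lt_of_le hs ((min_le_right _ _).trans (min_le_right _ _))
    obtain ⟨k1, k2⟩ := e2 c hcδ z hzδ hxf
    have k3 := k2 s hsδ hxm
    have hcs : c ∈ P.source := hη2 c (lt_of_lt_of_le hc (min_le_left _ _))
    have k4 : P.symm s = c := by
      have := P.left_inv hcs
      rw [hPσ, ← k3] at this
      exact this
    refine ⟨hsε, ?_⟩
    simp only [k4, ← k1]

/-- the multiplier is not constant: the set of parameters is finite -/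
theorem sigma_open (hX : S_XLOC) (hCn : S_CNTN) {n : ℕ} (hn : 1 ≤ n) {a : ℂ × ℂ × ℂ}
    (ha : a ∈ XX n univ) (h1 : exp a.2.2 ≠ 1) {P : ℂ × ℂ × ℂ → Prop}
    (hP : ∀ᶠ y in 𝓝 a, y ∈ XX n univ → P y) : ∀ᶠ s in 𝓝 a.2.2, ∃ y ∈ XX n univ, y.2.2 = s ∧ P y := by
  obtain ⟨c₀, z₀, s₀⟩ := a
  obtain ⟨_, hf, hm⟩ := ha
  simp only at hf hm h1
  obtain ⟨δ, ζ, σ, hδ, hζ, hσ, hζ0, hσ0, e1, e2⟩ := hX n c₀ z₀ s₀ hn hf hm h1
  have hn0 := ball_mem_nhds c₀ hδ
  have hσA : AnalyticAt ℂ σ c₀ := hσ.analyticAt hn0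
  have hg : ContinuousAt (fun c : ℂ => ((c, ζ c, σ c) : ℂ × ℂ × ℂ)) c₀ :=
    continuousAt_id.prodMk ((hζ.differentiableAt hn0).continuousAt.prodMk
      (hσ.differentiableAt hn0).continuousAt)
  have hg0 : ((c₀, ζ c₀, σ c₀) : ℂ × ℂ × ℂ) = (c₀, z₀, s₀) := by rw [hζ0, hσ0]
  have f1 : ∀ᶠ c in 𝓝 c₀, c ∈ ball c₀ δ ∧ P (c, ζ c, σ c) := by
    have := hg.tendsto
    rw [hg0] at this
    filter_upwards [this.eventually hP, hn0] with c h2 h3
    exact ⟨h3, h2 ⟨mem_univ _, (e1 c h3).1, (e1 c h3).2⟩⟩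
  rcases hσA.eventually_constant_or_nhds_le_map_nhds with hcst | hle
  · exfalso
    have h2 : ∀ᶠ c in 𝓝 c₀, c ∈ {c : ℂ | ∃ z, (f c)^[n] z = z ∧ mul n c z = exp s₀} := by
      filter_upwards [hcst, hn0] with c h3 h4
      refine ⟨ζ c, (e1 c h4).1, ?_⟩
      rw [(e1 c h4).2, h3, hσ0]
    have hfin := (hCn n hn).1 (exp s₀)
    exact (infinite_of_mem_nhds c₀ h2) hfin
  · have h3 : σ '' {c | c ∈ ball c₀ δ ∧ P (c, ζ c, σ c)} ∈ 𝓝 s₀ := by
      have h4 := hle (image_mem_map f1)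
      rw [hσ0] at h4
      exact h4
    filter_upwards [h3] with s hs
    obtain ⟨c, ⟨hc1, hc2⟩, rfl⟩ := hs
    exact ⟨_, ⟨mem_univ _, (e1 c hc1).1, (e1 c hc1).2⟩, rfl, hc2⟩

end Pool.Agent.KS6_23.ML.Curve
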