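import Pool.Agent.KS6_23.ML.LabB
import Pool.Agent.KS6_23.ML.Curve

set_option autoImplicit false

/-!
# Project ML, second stage: statements

The inverse of the multiplier is univalent on the disc of radius `κ ‖t‖ ^ 2 / n` (together with a
half strip to the left), so the limbs are small in comparison with the hyperbolic component.
-/

open Complex Set Filter Metric Topology MeasureTheory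

namespace Pool.Agent.KS6_23.ML

open Pool.Agent.KS6_23.ML.LabA Pool.Agent.KS6_23.ML.LabB

/-! ## A. global versions -/

/-- global version of `S_INT` -/
def S_INTG : Prop := ∀ n : ℕ, 1 ≤ n → ∀ F : Set ℂ, F.Finite →
  ∀ A : Set (ℂ × ℂ × ℂ), A.Nonempty → (∀ x ∈ A, x ∈ XX n HP ∧ x.1 ∈ MM \ F) →
  (∀ x ∈ XX n HP, x.1 ∈ MM \ F →
    (x ∈ A → ∀ᶠ y in 𝓝 x, y ∈ XX n HP → y.1 ∈ MM \ F → y ∈ A) ∧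
    (x ∉ A → ∀ᶠ y in 𝓝 x, y ∈ XX n HP → y.1 ∈ MM \ F → y ∉ A)) →
  ∃ x ∈ A, x.1 ∈ frontier MM

/-- global version of `LabC.common_exterior` -/
def S_COMX : Prop := ∀ G B cc, Base G B cc → ∀ (n N N' : ℕ) (θ θ' : ℕ → ℝ) (a a' : ℕ → ℤ)
  (p p' : ℤ), 1 ≤ n → n ∣ N → n ∣ N' → Ang N θ a → Ang N' θ' a' → ∀ x ∈ XX n HP, x.1 ∈ MM →
  LM G B n N θ p x → LM G B n N' θ' p' x →
  ∃ y ∈ XX n HP, y.1 ∉ MM ∧ LE G B cc n N θ p y ∧ LE G B cc n N' θ' p' y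

/-! ## B. real parameters -/

/-- for `c > 1/4` the logarithms of the multipliers are in horodiscs at `2 π i k` -/
def S_RINE : Prop := ∀ (c : ℝ) (n : ℕ) (z s : ℂ), 1 ≤ n → 1 / 4 < c → (f c)^[n] z = z →
  mul n c z = exp s → ∃ k : ℤ, (s.im - 2 * Real.pi * k) ^ 2 ≤ 8 * n * s.re

/-- the ray of angle `0` is the half line `(1/4, ∞)` -/
def S_SYM : Prop := ∀ G B cc, Base G B cc → ∀ w ∈ HP, w.im = 0 →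
  ∃ c : ℝ, 1 / 4 < c ∧ cc w = (c : ℂ)

/-- the ray of angle `0` lands at `1/4` -/
def S_QRT : Prop := ∀ G B cc, Base G B cc → Tendsto (fun τ : ℝ => cc (τ : ℂ)) (𝓝[>] 0) (𝓝 (1 / 4))

/-! ## C. general tools -/

/-- two attracting cycles have the same multiplier -/
def S_ATU : Prop := ∀ (n : ℕ) (c z z' : ℂ), 1 ≤ n → (f c)^[n] z = z → (f c)^[n] z' = z' →
  ‖mul n c z‖ < 1 → ‖mul n c z'‖ < 1 → mul n c z = mul n c z'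

/-- a subset of `M`, relatively open and closed up to a finite set, meets the boundary of `M` -/
def S_TOP : Prop := ∀ A F : Set ℂ, A.Nonempty → A ⊆ MM → F.Finite →
  (∀ c ∈ A, ∀ᶠ c' in 𝓝 c, c' ∈ MM → c' ∈ A) → closure A ⊆ A ∪ F → ∃ c ∈ A, c ∈ closure MMᶜ

/-- Koebe -/
def S_KOB : Prop := ∀ (g : ℂ → ℂ) (t : ℂ) (r : ℝ), 0 < r → DifferentiableOn ℂ g (ball t r) →
  InjOn g (ball t r) → deriv g t ≠ 0 ∧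
  (∀ z : ℂ, ‖z - t‖ ≤ r / 2 → ‖g z - g t‖ ≤ 60 * ‖z - t‖ * ‖deriv g t‖) ∧
  ball (g t) (r * ‖deriv g t‖ / 4) ⊆ g '' ball t r

/-! ## D. extension to the disc with the half strip -/

/-- the disc and the half strip to the left of it; this set is convex -/
def DL (κ : ℝ) (n : ℕ) (t : ℝ) : Set ℂ := {s : ℂ | ∃ τ : ℝ, 0 ≤ τ ∧ s + τ ∈ DD κ n t}

/-- the extension of the inverse of the multiplier -/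
structure PSI (κ : ℝ) (n : ℕ) (t : ℝ) (c z : ℂ) (ψ ζ : ℂ → ℂ) : Prop where
  dψ : DifferentiableOn ℂ ψ (DL κ n t)
  dζ : DifferentiableOn ℂ ζ (DL κ n t)
  ψ0 : ψ (tpi * t) = c
  ζ0 : ζ (tpi * t) = z
  mem : ∀ s ∈ DL κ n t, (ψ s, ζ s, s) ∈ XX n (DL κ n t)
  bd : ∀ s ∈ DL κ n t, ‖ψ s‖ ≤ 6
  dne : ∀ s ∈ DL κ n t, deriv ψ s ≠ 0

def S_EXL : Prop := ∃ κ : ℝ, 0 < κ ∧ κ ≤ 1 / 16 ∧ ∀ (n : ℕ) (t : ℝ), 1 ≤ n → dZ t ≠ 0 →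
  ∀ c z : ℂ, (f c)^[n] z = z → mul n c z = exp (tpi * t) → ∃ ψ ζ, PSI κ n t c z ψ ζ

/-! ## E. labels of points in the strip -/

/-- the point `x` outside of `M` has the label `(e, m)`: the external coordinate is in the strip
`0 < Im w < 2 π` -/
def LX (cc : ℂ → ℂ) (Z ell : (ℕ → Bool) → ℂ → ℂ) (n : ℕ) (e : ℕ → Bool) (m : ℤ)
    (x : ℂ × ℂ × ℂ) : Prop :=
  x.1 ∉ MM ∧ ∃ w : ℂ, 0 < w.im ∧ w.im < 2 * Real.pi ∧ Rep cc Z ell n w e m x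

/-- the point `x` over `M` has the label `(e, m)` and the class `v` (not an integer) -/
def LC (G : ℂ → ℂ → ℝ) (B : ℂ → ℂ → ℂ) (cc : ℂ → ℂ) (Z ell : (ℕ → Bool) → ℂ → ℂ) (n : ℕ)
    (e : ℕ → Bool) (m : ℤ) (v : ℝ) (x : ℂ × ℂ × ℂ) : Prop :=
  x ∈ XX n HP ∧ x.1 ∈ MM ∧ ∃ (N : ℕ) (θ : ℕ → ℝ) (a : ℕ → ℤ) (p : ℤ), n ∣ N ∧ Ang N θ a ∧
    Dist n N θ ∧ ¬ (((N / n : ℕ) : ℤ) ∣ p) ∧ LM G B n N θ p x ∧ v = p / (N / n : ℕ) ∧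
    ∃ y ∈ XX n HP, LE G B cc n N θ p y ∧ LX cc Z ell n e m y

/-- properties of the labels -/
structure LabG (G : ℂ → ℂ → ℝ) (B : ℂ → ℂ → ℂ) (cc : ℂ → ℂ) (Z ell : (ℕ → Bool) → ℂ → ℂ)
    (n : ℕ) : Prop where
  /-- labels of exterior points determine the points -/
  xuni : ∀ e m x x', LX cc Z ell n e m x → LX cc Z ell n e m x' → x.1 = x'.1 → x = x'
  /-- labels of exterior points are locally constant -/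
  xloc : ∀ e m, ∀ x ∈ XX n HP, LX cc Z ell n e m x → ∀ᶠ y in 𝓝 x, y ∈ XX n HP → LX cc Z ell n e m y
  /-- existence outside of `M` -/
  xex : ∀ x ∈ XX n HP, x.1 ∉ MM → (∀ w ∈ HP, cc w = x.1 → ∀ k : ℤ, w.im ≠ 2 * Real.pi * k) →
    ∃ e m, LX cc Z ell n e m x
  /-- uniqueness outside of `M` -/
  xlu : ∀ e m e' m' x, LX cc Z ell n e m x → LX cc Z ell n e' m' x → e = e' ∧ m = m'
  /-- existence over `M`, if the class is not an integer -/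
  cex : ∀ x ∈ XX n HP, x.1 ∈ MM →
    (∀ k : ℤ, 2 * n * Real.log 2 * x.2.2.re < ‖x.2.2 - k * tpi‖ ^ 2) → ∃ e m v, LC G B cc Z ell n e m v x
  /-- uniqueness over `M` -/
  cun : ∀ e m v e' m' v' x, LC G B cc Z ell n e m v x → LC G B cc Z ell n e' m' v' x →
    e = e' ∧ m = m' ∧ v = v'
  /-- labels and classes are locally constant over `M` -/
  cloc : ∀ e m v x, LC G B cc Z ell n e m v x → ∀ᶠ y in 𝓝 x, y ∈ XX n HP →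
    (y.1 ∈ MM → LC G B cc Z ell n e m v y) ∧ (y.1 ∉ MM → LX cc Z ell n e m y)
  /-- limits -/
  clim : ∀ e m v x, (∃ᶠ y in 𝓝 x, LC G B cc Z ell n e m v y) → x ∈ XX n HP →
    LC G B cc Z ell n e m v x
  /-- the horodisc -/
  hor : ∀ e m v x, LC G B cc Z ell n e m v x → ‖x.2.2 - tpi * v‖ ^ 2 ≤ 2 * n * Real.log 2 * x.2.2.re
  /-- the class is not an integer -/
  nint : ∀ e m v x, LC G B cc Z ell n e m v x → dZ v ≠ 0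

def S_LABG : Prop := ∀ G B cc lam Z ell, Base G B cc → Lam B cc lam → Code G B cc lam Z ell →
  ∀ n, 1 ≤ n → LabG G B cc Z ell n

/-! ## F. univalence -/

/-- the inverse of the multiplier is univalent -/
def S_UNI : Prop := ∃ κ₁ : ℝ, 0 < κ₁ ∧ ∀ (κ : ℝ) (n : ℕ) (t : ℝ) (c z : ℂ) (ψ ζ : ℂ → ℂ),
  0 < κ → κ ≤ κ₁ → 1 ≤ n → dZ t ≠ 0 → PSI κ n t c z ψ ζ → InjOn ψ (DL κ n t) ∧
    (∀ V : Set ℂ, IsOpen V → IsPreconnected V → V ⊆ MM →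
      (∃ s ∈ DL κ n t, s.re < 0 ∧ ψ s ∈ V) → ∀ s ∈ DL κ n t, ψ s ∈ V → s.re < 0)

/-- points of limbs are values at the horodisc -/
def S_LIMB2 : Prop := ∃ κ₂ : ℝ, 0 < κ₂ ∧ ∀ (κ : ℝ) (n q : ℕ) (p : ℤ) (c₀ z₀ : ℂ) (ψ ζ : ℂ → ℂ)
  (B : Set ℂ), 0 < κ → κ ≤ κ₂ → 1 ≤ n → 1 ≤ q → IsCoprime p (q : ℤ) → dZ (p / q) ≠ 0 →
  PSI κ n (p / q) c₀ z₀ ψ ζ → Limb n (p / q) c₀ z₀ B →
  4 * n * Real.log 2 / q < κ * dZ (p / q) ^ 2 / n → ∀ c ∈ B, ∃ s : ℂ,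
    ‖s - tpi * ((p / q : ℝ) : ℂ)‖ ≤ 2 * n * Real.log 2 / q ∧ ψ s = c

/-- the limbs are small in comparison with the hyperbolic component -/
def S_REL : Prop := ∃ C : ℝ, 0 < C ∧ ∀ (n q : ℕ) (p : ℤ) (c₀ z₀ : ℂ) (B V : Set ℂ) (a za : ℂ),
  1 ≤ n → 1 ≤ q → IsCoprime p (q : ℤ) → dZ (p / q) ≠ 0 → C * n ^ 2 ≤ q * dZ (p / q) ^ 2 →
  Limb n (p / q) c₀ z₀ B → IsOpen V → IsPreconnected V →
  (∀ c ∈ V, ∃ z, (f c)^[n] z = z ∧ ‖mul n c z‖ < 1) →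
  (∀ δ : ℝ, 0 < δ → ∃ c ∈ V, ∃ z, ‖c - c₀‖ < δ ∧ ‖z - z₀‖ < δ ∧ (f c)^[n] z = z ∧
    ‖mul n c z‖ < 1) →
  a ∈ V → (f a)^[n] za = za → ‖mul n a za‖ ≤ 1 / 2 →
  ∀ c ∈ B, ‖c - c₀‖ ≤ C * n ^ 2 / (q * dZ (p / q) ^ 2) * ‖a - c₀‖

/-! # Part T: limbs as sets with a given label and class; existence and uniqueness of limbs; the
relative size of limbs; satellite cycles (helper23) -/

open Pool.Agent.KS6_23.ML.Curve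

/-- open and closed in `M` without the point `a` -/
structure Clo (a : ℂ) (B : Set ℂ) : Prop where
  sub : B ⊆ MM \ {a}
  opn : ∀ c ∈ B, ∀ᶠ c' in 𝓝 c, c' ∈ MM → c' ∈ B
  cls : closure B ⊆ insert a B

/-- the labels `lab`, the classes `cl` (combinatorial rotation numbers) and the sets `S i v` of the
parameters of `M` with a repelling cycle with the label `i` and the class `v` -/
structure Sep (κ₀ : ℝ) (n : ℕ) (lab : ℂ × ℂ × ℂ → Fin (n * 2 ^ (n - 1))) (cl : ℂ × ℂ × ℂ → ℝ)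
    (S : Fin (n * 2 ^ (n - 1)) → ℝ → Set ℂ) : Prop where
  lab_loc : ∀ t, dZ t ≠ 0 → ∀ x ∈ XX n (DD κ₀ n t ∩ HP), ∀ᶠ y in 𝓝 x,
    y ∈ XX n (DD κ₀ n t ∩ HP) → lab y = lab x
  lab_inj : ∀ t, dZ t ≠ 0 → ∀ x ∈ XX n (DD κ₀ n t ∩ HP), ∀ x' ∈ XX n (DD κ₀ n t ∩ HP),
    x.2.2 = x'.2.2 → lab x = lab x' → x = x'
  cl_rat : ∀ t, dZ t ≠ 0 → ∀ x ∈ XX n (DD κ₀ n t ∩ HP), x.1 ∈ MM → dZ (cl x) ≠ 0 ∧
    ∃ (p : ℤ) (q : ℕ), 1 ≤ q ∧ cl x = p / q ∧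
      ‖x.2.2 - tpi * cl x‖ ^ 2 ≤ 2 * n * Real.log 2 / q * x.2.2.re
  cl_loc : ∀ t, dZ t ≠ 0 → ∀ x ∈ XX n (DD κ₀ n t ∩ HP), x.1 ∈ MM → ∀ᶠ y in 𝓝 x,
    y ∈ XX n (DD κ₀ n t ∩ HP) → y.1 ∈ MM → cl y = cl x
  sub : ∀ i v, S i v ⊆ MM
  zero : ∀ i v, dZ v ≠ 0 → (0 : ℂ) ∉ S i v
  opn : ∀ i v, ∀ c ∈ S i v, ∀ᶠ c' in 𝓝 c, c' ∈ MM → c' ∈ S i v
  near : ∀ i v, dZ v ≠ 0 → ∀ c ∉ S i v, ∀ ε : ℝ, 0 < ε → ∀ᶠ c' in 𝓝 c, c' ∈ S i v →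
    ∃ z s : ℂ, (c', z, s) ∈ XX n (DD κ₀ n v ∩ HP) ∧ lab (c', z, s) = i ∧ ‖s - tpi * v‖ < ε
  mem : ∀ t, dZ t ≠ 0 → ∀ x ∈ XX n (DD κ₀ n t ∩ HP), x.1 ∈ MM → x.1 ∈ S (lab x) (cl x)

/-- the multiplier is unramified over the discs -/
def Unram (κ₀ : ℝ) : Prop := ∀ (n : ℕ) (t : ℝ), 1 ≤ n → dZ t ≠ 0 →
  ∀ x ∈ XX n (DD κ₀ n t), Unr n x

/-- labels, classes and limbs -/
structure Pack (κ₀ : ℝ) : Prop where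
  pos : 0 < κ₀
  le : κ₀ ≤ 1 / 4
  unr : Unram κ₀
  sep : ∀ n : ℕ, 1 ≤ n → ∃ (lab : ℂ × ℂ × ℂ → Fin (n * 2 ^ (n - 1))) (cl : ℂ × ℂ × ℂ → ℝ)
    (S : Fin (n * 2 ^ (n - 1)) → ℝ → Set ℂ), Sep κ₀ n lab cl S

def S_SEP : Prop := ∃ κ₀ : ℝ, Pack κ₀

/-- the extension theorem for convex domains which may contain a part of the left half plane -/
def S_EXTG : Prop := ∀ κ₀ : ℝ, 0 < κ₀ → κ₀ ≤ 1 → Unram κ₀ → ∀ (n : ℕ) (D : Set ℂ), 1 ≤ n →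
  IsOpen D → Convex ℝ D →
  (∀ s ∈ D, exp s ≠ 1 ∧ (0 ≤ s.re → ∃ t : ℝ, dZ t ≠ 0 ∧ s ∈ DD κ₀ n t)) →
  ∀ s₀ ∈ D, ∀ c z : ℂ, (f c)^[n] z = z → mul n c z = exp s₀ →
    ∃ ψ ζ : ℂ → ℂ, DifferentiableOn ℂ ψ D ∧ DifferentiableOn ℂ ζ D ∧ ψ s₀ = c ∧ ζ s₀ = z ∧
      ∀ s ∈ D, (ψ s, ζ s, s) ∈ XX n D ∧ ‖ψ s‖ ≤ 6 ∧ deriv ψ s ≠ 0

/-- a half strip which is used as a domain of the inverse of the multiplier -/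
def Om (κ₀ : ℝ) (n : ℕ) (t : ℝ) : Set ℂ :=
  {s : ℂ | |s.im - 2 * Real.pi * t| < dZ t ∧ s.re < κ₀ * dZ t ^ 2 / (2 * n)}

/-- a sheet over the half strip -/
structure Sheet (κ₀ : ℝ) (n : ℕ) (t : ℝ) (ψ ζ : ℂ → ℂ) : Prop where
  diff : DifferentiableOn ℂ ψ (Om κ₀ n t)
  zdiff : DifferentiableOn ℂ ζ (Om κ₀ n t)
  mem : ∀ s ∈ Om κ₀ n t, (ψ s, ζ s, s) ∈ XX n (Om κ₀ n t)
  bd : ∀ s ∈ Om κ₀ n t, ‖ψ s‖ ≤ 6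
  der : ∀ s ∈ Om κ₀ n t, deriv ψ s ≠ 0

/-- sheets exist -/
def S_SHEET : Prop := ∀ κ₀ : ℝ, 0 < κ₀ → κ₀ ≤ 1 / 4 → Unram κ₀ → ∀ (n : ℕ) (t : ℝ), 1 ≤ n →
  dZ t ≠ 0 → ∀ s₀ ∈ Om κ₀ n t, ∀ c z : ℂ, (f c)^[n] z = z → mul n c z = exp s₀ →
    ∃ ψ ζ : ℂ → ℂ, Sheet κ₀ n t ψ ζ ∧ ψ s₀ = c ∧ ζ s₀ = z

/-- localization: if the attracting part of a sheet is in the clopen set `Q`, then the parameters of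
`M` in the sheet are in `Q` -/
def S_LOC : Prop := ∀ κ₀ : ℝ, Pack κ₀ → ∀ (n : ℕ) (t : ℝ) (ψ ζ : ℂ → ℂ) (a : ℂ) (Q : Set ℂ), 1 ≤ n →
  dZ t ≠ 0 → Sheet κ₀ n t ψ ζ → a ∈ closure MMᶜ → Clo a Q → (0 : ℂ) ∉ Q →
  (∃ s ∈ Om κ₀ n t, s.re < 0 ∧ ψ s ∈ Q) → ∀ s ∈ DD (κ₀ / 16) n t, ψ s ∈ MM → ψ s ∈ Q

/-- attracting cycles of the period `n q` for the parameters near the root of a satellite: for
`s = 2 π i p / q + x` with small positive `x` -/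
def S_SAT : Prop := ∀ (n q : ℕ) (p : ℤ) (c₁ z₁ : ℂ) (ψ ζ : ℂ → ℂ), 1 ≤ n → 2 ≤ q →
  IsCoprime p (q : ℤ) → AnalyticAt ℂ ψ (tpi * ((p / q : ℝ) : ℂ)) →
  AnalyticAt ℂ ζ (tpi * ((p / q : ℝ) : ℂ)) → ψ (tpi * ((p / q : ℝ) : ℂ)) = c₁ →
  ζ (tpi * ((p / q : ℝ) : ℂ)) = z₁ →
  (∀ᶠ s in 𝓝 (tpi * ((p / q : ℝ) : ℂ)), (f (ψ s))^[n] (ζ s) = ζ s ∧
    mul n (ψ s) (ζ s) = exp s) →
  ∀ ε : ℝ, 0 < ε → ∀ᶠ x : ℝ in 𝓝[>] 0, ∃ z : ℂ, ‖z - z₁‖ < ε ∧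
    (f (ψ (tpi * ((p / q : ℝ) : ℂ) + x)))^[n * q] z = z ∧
    ‖mul (n * q) (ψ (tpi * ((p / q : ℝ) : ℂ) + x)) z‖ < 1

/-- existence and uniqueness of limbs. The sheet `ψ` is near `2 π i v`, and `T` is a connected set
which accumulates at `2 π i v`, with images in `M` -/
def S_CAN : Prop := ∀ (n : ℕ) (v : ℝ) (c₁ z₁ : ℂ), 1 ≤ n → dZ v ≠ 0 → (f c₁)^[n] z₁ = z₁ →
  mul n c₁ z₁ = exp (tpi * v) → ∃ (B : Set ℂ) (r₀ : ℝ), 0 < r₀ ∧ Limb n v c₁ z₁ B ∧ Clo c₁ B ∧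
    (0 : ℂ) ∉ B ∧ (∀ B', Limb n v c₁ z₁ B' → Clo c₁ B' ∧ B' ⊆ B) ∧
    ∀ r : ℝ, 0 < r → r ≤ r₀ → ∀ (ψ ζ : ℂ → ℂ) (T : Set ℂ), ContinuousOn ψ (ball (tpi * v) r) →
      ContinuousOn ζ (ball (tpi * v) r) → ψ (tpi * v) = c₁ → ζ (tpi * v) = z₁ →
      (∀ s ∈ ball (tpi * (v : ℂ)) r, (ψ s, ζ s, s) ∈ XX n univ) →
      T ⊆ ball (tpi * (v : ℂ)) r ∩ HP → IsPreconnected T → tpi * (v : ℂ) ∈ closure T →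
      (∀ s ∈ T, ψ s ∈ MM) → ∀ s ∈ T, ψ s ∈ B

/-- holomorphic functions which omit a continuum -/
def S_BL : Prop := ∃ C : ℝ, 1 ≤ C ∧ ∀ (A : Set ℂ) (a b s₀ : ℂ) (r : ℝ) (ψ : ℂ → ℂ),
  IsPreconnected A → a ∈ A → b ∈ A → 0 < r → DifferentiableOn ℂ ψ (ball s₀ r) →
  (∀ s ∈ ball s₀ r, ψ s ∉ A) → C * ‖ψ s₀ - a‖ ≤ ‖b - a‖ → ∀ s, C * ‖s - s₀‖ ≤ r →
    ‖ψ s - ψ s₀‖ ≤ C * ‖ψ s₀ - a‖ * ‖s - s₀‖ / r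

/-- the relative size of limbs -/
def S_RELT : Prop := ∃ C : ℝ, 0 < C ∧ ∀ (n q : ℕ) (p : ℤ) (c₁ z₁ : ℂ) (B : Set ℂ) (c' : ℂ)
  (B' : Set ℂ), 1 ≤ n → 1 ≤ q → IsCoprime p (q : ℤ) → C * n ^ 2 ≤ q * dZ (p / q) ^ 2 →
  Limb n (p / q) c₁ z₁ B → c' ∈ closure MMᶜ → Clo c' B' → (0 : ℂ) ∉ B' → c₁ ∈ B' → ∀ c ∈ B,
    ‖c - c₁‖ ≤ C * n ^ 2 / (q * dZ (p / q) ^ 2) * ‖c₁ - c'‖

/-- the satellite component `W` which is attached at the root of a limb, and the parameters of its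
boundary -/
def S_NEXT : Prop := ∀ (n q : ℕ) (p : ℤ) (c₁ z₁ : ℂ) (B : Set ℂ), 1 ≤ n → 2 ≤ q →
  IsCoprime p (q : ℤ) → Limb n (p / q) c₁ z₁ B → Clo c₁ B → (0 : ℂ) ∉ B →
  (∀ B', Limb n (p / q) c₁ z₁ B' → B' ⊆ B) →
  ∃ W : Set ℂ, IsPreconnected W ∧ W ⊆ B ∧ c₁ ∈ closure W ∧
    (∀ c ∈ W, ∃ z, (f c)^[n * q] z = z ∧ ‖mul (n * q) c z‖ < 1) ∧
    ∀ (q' : ℕ) (p' : ℤ), 2 ≤ q' → IsCoprime p' (q' : ℤ) → ∃ c₂ z₂ : ℂ, c₂ ∈ B ∧ c₂ ∈ closure W ∧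
      (f c₂)^[n * q] z₂ = z₂ ∧ mul (n * q) c₂ z₂ = exp (tpi * ((p' / q' : ℝ) : ℂ))

/-- the limbs are nested -/
def S_NEST : Prop := ∀ (a b : ℂ) (A B : Set ℂ), a ∈ MM → b ∈ A → Clo a A → Clo b B →
  (0 : ℂ) ∉ A → (0 : ℂ) ∉ B → B ⊆ A ∧ closure B ⊆ A

end Pool.Agent.KS6_23.ML
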