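import Pool.Agent.KS6_23.ML.LabC
import Pool.Agent.KS6_23.ML.XTools
import Pool.Agent.KS6_23.ML.Stm3

set_option autoImplicit false

/-! # Project ML: two ray cycles at the same point have a common point outside of `M`, global
version -/

open Complex Set Filter Metric Topology MeasureTheory

namespace Pool.Agent.KS6_23.ML.COMX

open Pool.Agent.KS6_23.ML Pool.Agent.KS6_23.ML.Basic Pool.Agent.KS6_23.ML.LabA
open Pool.Agent.KS6_23.ML.LabB Pool.Agent.KS6_23.ML.LabC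

theorem isClosed_XX (n : ℕ) : IsClosed (XX n univ) := by
  have h1 : Continuous fun x : ℂ × ℂ × ℂ => (f x.1)^[n] x.2.1 :=
    (XTools.cont_iter n).comp (continuous_fst.prodMk (continuous_fst.comp continuous_snd))
  have h2 : Continuous fun x : ℂ × ℂ × ℂ => mul n x.1 x.2.1 :=
    (XTools.cont_mul n).comp (continuous_fst.prodMk (continuous_fst.comp continuous_snd))
  have : XX n univ = {x : ℂ × ℂ × ℂ | (f x.1)^[n] x.2.1 = x.2.1} ∩
      {x | mul n x.1 x.2.1 = exp x.2.2} := by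
    ext x
    simp [XX]
  rw [this]
  exact (isClosed_eq h1 (by fun_prop)).inter (isClosed_eq h2 (by fun_prop))

theorem exp_ne_one_HP {s : ℂ} (hs : s ∈ HP) : exp s ≠ 1 := by
  intro h
  have h1 := congrArg norm h
  rw [norm_exp, norm_one] at h1
  have := Real.one_lt_exp_iff.2 (show 0 < s.re from hs)
  linarith

/-- points of the curve over all the parameters near the parameter of a point of the curve -/
theorem near_all (hX : S_XLOC) {n : ℕ} (hn : 1 ≤ n) {D : Set ℂ} (hD : IsOpen D)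
    {x : ℂ × ℂ × ℂ} (hx : x ∈ XX n D) (hs : exp x.2.2 ≠ 1)
    {P : ℂ × ℂ × ℂ → Prop} (hP : ∀ᶠ y in 𝓝 x, y ∈ XX n D → P y) :
    ∀ᶠ c in 𝓝 x.1, ∃ z s, (c, z, s) ∈ XX n D ∧ P (c, z, s) := by
  obtain ⟨c₀, z₀, s₀⟩ := x
  obtain ⟨hsD, hf, hm⟩ := hx
  simp only at hsD hf hm hs
  obtain ⟨δ, ζ, σ, hδ, hζ, hσ, hζ0, hσ0, h1, h2⟩ := hX n c₀ z₀ s₀ hn hf hm hs
  have hn0 := ball_mem_nhds c₀ hδ
  have hg : ContinuousAt (fun c : ℂ => ((c, ζ c, σ c) : ℂ × ℂ × ℂ)) c₀ :=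
    continuousAt_id.prodMk ((hζ.differentiableAt hn0).continuousAt.prodMk
      (hσ.differentiableAt hn0).continuousAt)
  have hg0 : ((c₀, ζ c₀, σ c₀) : ℂ × ℂ × ℂ) = (c₀, z₀, s₀) := by rw [hζ0, hσ0]
  have e1 : ∀ᶠ c in 𝓝 c₀, ((c, ζ c, σ c) : ℂ × ℂ × ℂ) ∈ XX n D → P (c, ζ c, σ c) := by
    have := hg.tendsto
    rw [hg0] at this
    exact this.eventually hP
  have e2 : ∀ᶠ c in 𝓝 c₀, σ c ∈ D := by
    refine (hσ.differentiableAt hn0).continuousAt.eventually_mem (hD.mem_nhds ?_)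
    rw [hσ0]
    exact hsD
  filter_upwards [e1, e2, hn0] with c g1 g2 g3
  have hmem : ((c, ζ c, σ c) : ℂ × ℂ × ℂ) ∈ XX n D := ⟨g2, (h1 c g3).1, (h1 c g3).2⟩
  exact ⟨_, _, hmem, g1 hmem⟩

section
variable {G : ℂ → ℂ → ℝ} {B : ℂ → ℂ → ℂ} {cc : ℂ → ℂ}

/-- the limit of the points where the rays land -/
theorem lim_pt (hB : Base G B cc) (hSec : S_SEC) (hLand : S_LAND) (hSt : S_STAB) (hP : S_PLY)
    {n N : ℕ} (hn : 1 ≤ n) {θ : ℕ → ℝ} {a : ℕ → ℤ} {p : ℤ} (hd : n ∣ N) (ha : Ang N θ a)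
    {c : ℂ} (hc : c ∈ MM) (hF : ∀ z, (f c)^[N] z = z → mul N c z ≠ 1) :
    ∃ z₀ s₀ : ℂ, 0 < (((N / n : ℕ) : ℂ) * s₀ - p * tpi).re ∧ ∀ e : ℝ, 0 < e →
      ∀ᶠ c' in 𝓝 c, c' ∈ MM → ∀ z s,
      LM G B n N θ p (c', z, s) → ‖z - z₀‖ < e ∧ ‖s - s₀‖ < e := by
  obtain ⟨β, hβ⟩ := hSec G B cc hB c N θ a 1 ha one_pos (free_of_mem hB hc θ 1)
  obtain ⟨zz, Λ, hL, g1, g2, g3, g4, g5⟩ := hLand G B cc hB c N θ a 1 β ha one_pos hβ
  have hN : (f c)^[N] (zz 0) = zz 0 := by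
    rw [zz_iter g1]
    have := g2 0
    simpa using this
  have hre : 0 < Λ.re := by
    rcases lt_or_eq_of_le g5 with h | h
    · exact h
    · exfalso
      have h1 := hP G B cc hB c N N θ a 1 β zz Λ ha.pos dvd_rfl ha one_pos hβ hL
        (by
          intro i hi j hj m _
          rw [Nat.div_self (by have := ha.pos; omega)] at hi hj
          omega)
        (by
          intro j
          induction j with
          | zero => simp
          | succ j ih =>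
            rw [← ih, ← g2 (j * N)]
            congr 1
            ring)
      rw [← h, mul_zero] at h1
      have h2 : 0 < Real.arctan (1 / 2) := Real.arctan_pos.2 (by norm_num)
      have h3 : ‖Λ‖ ^ 2 ≤ 0 := by
        by_contra hcon
        push Not at hcon
        have : 0 < 2 * Real.arctan (1 / 2) * ‖Λ‖ ^ 2 := by positivity
        linarith
      have h4 : Λ = 0 := by
        have : ‖Λ‖ = 0 := by nlinarith [norm_nonneg Λ]
        exact norm_eq_zero.1 this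
      rw [h4, exp_zero] at g4
      exact hF _ hN g4.symm
  have hrep : 1 < ‖mul N c (zz 0)‖ := by
    rw [← g4, norm_exp]
    exact Real.one_lt_exp_iff.2 hre
  have hq1 : 1 ≤ N / n := div_pos' hn ha.pos hd
  have hq0 : (0 : ℝ) < (N / n : ℕ) := by exact_mod_cast hq1
  have hq1' : (1 : ℝ) ≤ (N / n : ℕ) := by exact_mod_cast hq1
  have hqc : ((N / n : ℕ) : ℂ) ≠ 0 := by exact_mod_cast hq0.ne'
  have hs₀ : ((N / n : ℕ) : ℂ) * ((Λ + p * tpi) / ((N / n : ℕ) : ℂ)) - p * tpi = Λ := by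
    rw [mul_div_cancel₀ _ hqc]
    ring
  refine ⟨zz 0, (Λ + p * tpi) / ((N / n : ℕ) : ℂ), by rw [hs₀]; exact hre, fun e he => ?_⟩
  obtain ⟨δ, hδ, hst⟩ := hSt G B cc hB c N θ a 1 β zz Λ hc ha one_pos hβ hL hrep 1 e
      one_pos he
  filter_upwards [ball_mem_nhds c hδ] with c' hc' hM z s hLM
  obtain ⟨β', hβ'⟩ := hSec G B cc hB c' N θ a 1 ha one_pos (free_of_mem hB hM θ 1)
  obtain ⟨zz', Λ', hL', _⟩ := hLand G B cc hB c' N θ a 1 β' ha one_pos hβ'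
  obtain ⟨f1, f2⟩ := hLM 1 β' zz' Λ' one_pos hβ' hL'
  obtain ⟨h1, h2⟩ := (hst c' (by simpa [dist_eq_norm] using hc')).2 β' zz' Λ' hβ' hL'
  have h3 := h1 0
  have f10 : zz' 0 = z := f1 0
  rw [f10] at h3
  refine ⟨h3, ?_⟩
  have h4 : Λ' - Λ = ((N / n : ℕ) : ℂ) * (s - (Λ + p * tpi) / ((N / n : ℕ) : ℂ)) := by
    rw [f2, mul_sub, mul_div_cancel₀ _ hqc]
    ring
  rw [h4, norm_mul, norm_natCast] at h2
  calc ‖s - (Λ + p * tpi) / ((N / n : ℕ) : ℂ)‖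
      ≤ ((N / n : ℕ) : ℝ) * ‖s - (Λ + p * tpi) / ((N / n : ℕ) : ℂ)‖ :=
        le_mul_of_one_le_left (norm_nonneg _) hq1'
    _ < e := h2

end

theorem comx (hSec : S_SEC) (hLand : S_LAND) (hSt : S_STAB) (hP : S_PLY) (hX : S_XLOC)
    (hCn : S_CNTN) (hT : S_TOP) : S_COMX := by
  intro G B cc hB n N N' θ θ' a a' p p' hn hd hd' ha ha' x hx hc hL hL'
  set A : Set ℂ := {c | c ∈ MM ∧ ∃ z s, (c, z, s) ∈ XX n (univ ∩ HP) ∧
    LM G B n N θ p (c, z, s) ∧ LM G B n N' θ' p' (c, z, s)} with hA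
  set F : Set ℂ := {c : ℂ | ∃ z, (f c)^[N] z = z ∧ mul N c z = 1} ∪
      {c : ℂ | ∃ z, (f c)^[N'] z = z ∧ mul N' c z = 1} with hF
  have hFfin : F.Finite := ((hCn N ha.pos).1 1).union ((hCn N' ha'.pos).1 1)
  have hopen : IsOpen ((univ : Set ℂ) ∩ HP) := isOpen_univ.inter isOpen_HP
  have hu : (univ : Set ℂ) ∩ HP = HP := univ_inter _
  have hstab : ∀ x ∈ XX n (univ ∩ HP), x.1 ∈ MM → LM G B n N θ p x → LM G B n N' θ' p' x →
      ∀ᶠ y in 𝓝 x, y ∈ XX n (univ ∩ HP) →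
        (y.1 ∈ MM → LM G B n N θ p y ∧ LM G B n N' θ' p' y) ∧
        (LE G B cc n N θ p y ∧ LE G B cc n N' θ' p' y) := by
    intro x hx hc h1 h2
    have s1 := LM_stab hB hSec hLand hSt hX hn hd ha hx hc h1
    have s2 := LM_stab hB hSec hLand hSt hX hn hd' ha' hx hc h2
    filter_upwards [s1, s2] with y h3 h4 hy
    exact ⟨fun hyM => ⟨(h3 hy).1 hyM, (h4 hy).1 hyM⟩, (h3 hy).2, (h4 hy).2⟩
  obtain ⟨c, ⟨hcM, z, s, hcx, hc1, hc2⟩, hccl⟩ := hT A F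
    ⟨x.1, hc, x.2.1, x.2.2, by rw [hu]; exact hx, hL, hL'⟩ (fun c hc => hc.1) hFfin (by
      rintro c ⟨hcM, z, s, hcx, hc1, hc2⟩
      have h1 := near_all hX hn hopen hcx (exp_ne_one_HP hcx.1.2) (hstab _ hcx hcM hc1 hc2)
      filter_upwards [h1] with c' ⟨z', s', h2, h3⟩ hcM'
      exact ⟨hcM', z', s', h2, h3.1 hcM'⟩) (by
      intro c hcA
      by_cases hcF : c ∈ F
      · exact Or.inr hcF
      left
      have hcM : c ∈ MM := by
        have h1 : closure A ⊆ MM := closure_minimal (fun c hc => hc.1) (MM_closed hB)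
        exact h1 hcA
      have hF1 : ∀ z, (f c)^[N] z = z → mul N c z ≠ 1 := fun z h1 h2 => hcF (Or.inl ⟨z, h1, h2⟩)
      have hF2 : ∀ z, (f c)^[N'] z = z → mul N' c z ≠ 1 := fun z h1 h2 => hcF (Or.inr ⟨z, h1, h2⟩)
      obtain ⟨z₀, s₀, hs₀, hl⟩ := lim_pt hB hSec hLand hSt hP hn hd ha (p := p) hcM hF1
      have hfr : ∃ᶠ c' in 𝓝 c, c' ∈ A := mem_closure_iff_frequently.1 hcA
      have hs₀' : 0 < s₀.re := by
        have hq1 : 1 ≤ N / n := div_pos' hn ha.pos hd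
        have hq0 : (0 : ℝ) < (N / n : ℕ) := by exact_mod_cast hq1
        rw [sub_re, int_mul_tpi_re, mul_re] at hs₀
        simp only [natCast_re, natCast_im, zero_mul, sub_zero] at hs₀
        exact pos_of_mul_pos_right hs₀ hq0.le
      -- the point is a limit
      have key : ∃ᶠ y in 𝓝 ((c, z₀, s₀) : ℂ × ℂ × ℂ), y.1 ∈ MM ∧ y ∈ XX n univ ∧
          LM G B n N θ p y ∧ LM G B n N' θ' p' y := by
        rw [Metric.nhds_basis_ball.frequently_iff]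
        intro e he
        obtain ⟨c', ⟨h1, z', s', h2, h3, h4⟩, h5, h6⟩ :=
          (hfr.and_eventually ((hl e he).and (ball_mem_nhds c he))).exists
        obtain ⟨h7, h8⟩ := h5 h1 z' s' h3
        refine ⟨(c', z', s'), ?_, h1, ⟨mem_univ _, h2.2⟩, h3, h4⟩
        rw [mem_ball, Prod.dist_eq, Prod.dist_eq, dist_eq_norm z', dist_eq_norm s']
        exact max_lt h6 (max_lt h7 h8)
      have hmem : ((c, z₀, s₀) : ℂ × ℂ × ℂ) ∈ XX n univ := by
        have h1 : ((c, z₀, s₀) : ℂ × ℂ × ℂ) ∈ closure (XX n univ) :=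
          mem_closure_iff_frequently.2 (key.mono fun y hy => hy.2.1)
        rwa [(isClosed_XX n).closure_eq] at h1
      refine ⟨hcM, z₀, s₀, ⟨⟨mem_univ _, hs₀'⟩, hmem.2⟩, ?_, ?_⟩
      · exact LM_closed hB hSec hLand hSt hP ha hcM hF1 (key.mono fun y hy => ⟨hy.1, hy.2.2.1⟩)
      · exact LM_closed hB hSec hLand hSt hP ha' hcM hF2 (key.mono fun y hy => ⟨hy.1, hy.2.2.2⟩))
  have h1 := hstab _ hcx hcM hc1 hc2
  have h2 : ∀ᶠ y in 𝓝 ((c, z, s) : ℂ × ℂ × ℂ), y ∈ XX n (univ ∩ HP) →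
      (LE G B cc n N θ p y ∧ LE G B cc n N' θ' p' y) := h1.mono fun y hy h => (hy h).2
  obtain ⟨y, h3, h4, h5⟩ := exterior_near hX hn hopen hcx (exp_ne_one_HP hcx.1.2)
    (mem_closure_iff_frequently.1 hccl) h2
  rw [hu] at h3
  exact ⟨y, h3, h4, h5⟩

end Pool.Agent.KS6_23.ML.COMX
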