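import Pool.Agent.KS6_23.ML.Stm3
import Pool.Graph.R_pool_sql_team_seeded_47a924f7.T6.H4.SG.KG

/-! # Project ML, module KOB: Koebe (helper12) -/

set_option autoImplicit false

open Complex Set Filter Metric Topology

namespace Pool.Agent.KS6_23.ML.KOB

theorem kob : S_KOB := by
  intro g t r hr hd hi
  obtain ⟨h1, _, h3, h4⟩ := Pool.Agent.T6.H4.SG.t_KG g t r hr hd hi
  exact ⟨h1, h3, h4⟩

end Pool.Agent.KS6_23.ML.KOB
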