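import Pool.Agent.KS6_23.ML.LabE

set_option autoImplicit false

/-! # Project ML, stage 2, module 26: properties of the labels -/

open Complex Set Filter Metric Topology MeasureTheory

namespace Pool.Agent.KS6_23.ML.LABG

open Pool.Agent.KS6_23.ML Pool.Agent.KS6_23.ML.Basic Pool.Agent.KS6_23.ML.LabA
open Pool.Agent.KS6_23.ML.LabB Pool.Agent.KS6_23.ML.LabC Pool.Agent.KS6_23.ML.LabE

section
variable {G : ℂ → ℂ → ℝ} {B : ℂ → ℂ → ℂ} {cc : ℂ → ℂ} {lam : ℂ → ℂ → ℂ}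
  {Z ell : (ℕ → Bool) → ℂ → ℂ}

/-- the representation is locally constant, with `w` in a given neighbourhood -/
theorem rep_local_in (hB : Base G B cc) (hC : Code G B cc lam Z ell) (hX : S_XLOC) {n : ℕ}
    (hn : 1 ≤ n) {x₀ : ℂ × ℂ × ℂ} {D : Set ℂ} (hx : x₀ ∈ XX n D) (hs : exp x₀.2.2 ≠ 1) {w₀ : ℂ}
    {e : ℕ → Bool} {m : ℤ} (h : Rep cc Z ell n w₀ e m x₀) {U : Set ℂ} (hU0 : U ∈ 𝓝 w₀) :
    ∀ᶠ y in 𝓝 x₀, y ∈ XX n D → ∃ w ∈ U, Rep cc Z ell n w e m y := by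
  obtain ⟨c₀, z₀, s₀⟩ := x₀
  obtain ⟨hsD, hf, hm⟩ := hx
  simp only at hsD hf hm hs
  obtain ⟨δ, ζ, σ, hδ, hζ, hσ, hζ0, hσ0, h1, h2⟩ := hX n c₀ z₀ s₀ hn hf hm hs
  have hHP : IsOpen HP := isOpen_lt continuous_const Complex.continuous_re
  have hc0 : cc w₀ = c₀ := h.hc
  have hz0 : Z e w₀ = z₀ := h.hz
  have hL0 : LL ell n e w₀ = s₀ + m * tpi := h.hL
  have hnhds := hHP.mem_nhds h.hw
  have hccA : AnalyticAt ℂ cc w₀ := hB.pdiff.analyticAt hnhds
  have hZc : ContinuousAt (Z e) w₀ := ((hC.zdiff n hn e h.per).differentiableAt hnhds).continuousAt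
  have hLc : ContinuousAt (LL ell n e) w₀ := by
    unfold LL
    refine tendsto_finsetSum _ fun k _ => ?_
    exact ((hC.edif n hn (sh k e) (per_sh h.per k)).differentiableAt hnhds).continuousAt
  have hopen : 𝓝 (cc w₀) ≤ map cc (𝓝 w₀) := by
    rcases hccA.eventually_constant_or_nhds_le_map_nhds with hcst | hle
    · exfalso
      have h5 : ∀ᶠ w in 𝓝 w₀, cc w = cc w₀ ∧ w ∈ HP ∧ ‖w - w₀‖ < 1 := by
        filter_upwards [hcst, hnhds, ball_mem_nhds w₀ one_pos] with w a1 a2 a3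
        exact ⟨a1, a2, by simpa [dist_eq_norm] using a3⟩
      obtain ⟨ε, hε, hball⟩ := Metric.eventually_nhds_iff_ball.1 h5
      have h6 := hball (w₀ + ((min (ε / 2) (1/2) : ℝ) : ℂ)) (by
        rw [mem_ball, dist_eq_norm]
        simp only [add_sub_cancel_left, norm_real, Real.norm_eq_abs]
        rw [abs_of_pos (by positivity)]
        exact lt_of_le_of_lt (min_le_left _ _) (by linarith))
      obtain ⟨k, hk⟩ := cc_inj hB h.hw h6.2.1 h6.1.symm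
      have h7 := add_left_cancel hk
      have h8 := congrArg Complex.re h7
      rw [int_mul_tpi_re, ofReal_re] at h8
      have : 0 < min (ε / 2) (1/2 : ℝ) := by positivity
      linarith
    · exact hle
  -- the neighbourhood of w₀
  have hU : ∀ᶠ w in 𝓝 w₀, w ∈ HP ∧ cc w ∈ ball c₀ δ ∧ Z e w ∈ ball z₀ δ ∧
      ‖LL ell n e w - (s₀ + m * tpi)‖ < 1 ∧ w ∈ U := by
    have a1 : ∀ᶠ w in 𝓝 w₀, cc w ∈ ball c₀ δ := by
      have : cc w₀ ∈ ball c₀ δ := by rw [hc0]; exact mem_ball_self hδ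
      exact hccA.continuousAt.eventually_mem (isOpen_ball.mem_nhds this)
    have a2 : ∀ᶠ w in 𝓝 w₀, Z e w ∈ ball z₀ δ := by
      have : Z e w₀ ∈ ball z₀ δ := by rw [hz0]; exact mem_ball_self hδ
      exact hZc.eventually_mem (isOpen_ball.mem_nhds this)
    have a3 : ∀ᶠ w in 𝓝 w₀, LL ell n e w ∈ ball (s₀ + m * tpi) 1 := by
      have : LL ell n e w₀ ∈ ball (s₀ + m * tpi) 1 := by rw [hL0]; exact mem_ball_self one_pos
      exact hLc.eventually_mem (isOpen_ball.mem_nhds this)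
    filter_upwards [hnhds, a1, a2, a3, hU0] with w b1 b2 b3 b4 b5
    exact ⟨b1, b2, b3, by simpa [dist_eq_norm] using b4, b5⟩
  have hV : cc '' {w | w ∈ HP ∧ cc w ∈ ball c₀ δ ∧ Z e w ∈ ball z₀ δ ∧
      ‖LL ell n e w - (s₀ + m * tpi)‖ < 1 ∧ w ∈ U} ∈ 𝓝 c₀ := by
    have h9 := hopen (image_mem_map hU)
    rw [hc0] at h9
    exact h9
  have c1 : ∀ᶠ y : ℂ × ℂ × ℂ in 𝓝 (c₀, z₀, s₀), y.1 ∈ cc '' {w | w ∈ HP ∧ cc w ∈ ball c₀ δ ∧
      Z e w ∈ ball z₀ δ ∧ ‖LL ell n e w - (s₀ + m * tpi)‖ < 1 ∧ w ∈ U} :=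
    (continuous_fst.tendsto (c₀, z₀, s₀)).eventually_mem hV
  have c2 : ∀ᶠ y : ℂ × ℂ × ℂ in 𝓝 (c₀, z₀, s₀), y.2.1 ∈ ball z₀ δ :=
    ((continuous_fst.comp continuous_snd).tendsto (c₀, z₀, s₀)).eventually_mem
      (ball_mem_nhds _ hδ)
  have c3 : ∀ᶠ y : ℂ × ℂ × ℂ in 𝓝 (c₀, z₀, s₀), y.2.2 ∈ ball s₀ 1 :=
    ((continuous_snd.comp continuous_snd).tendsto (c₀, z₀, s₀)).eventually_mem
      (ball_mem_nhds _ one_pos)
  filter_upwards [c1, c2, c3] with y d1 d2 d3 hy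
  obtain ⟨w, ⟨hw1, hw2, hw3, hw4, hwU⟩, hw5⟩ := d1
  obtain ⟨_, hy1, hy2⟩ := hy
  have hZf := Z_fix hC hn h.per hw1
  have g1 := h2 (cc w) hw2 (Z e w) hw3 hZf
  have g2 := h2 y.1 (hw5 ▸ hw2) y.2.1 d2 hy1
  have hzz : Z e w = y.2.1 := by rw [g1.1, g2.1, hw5]
  refine ⟨w, hwU, h.per, hw1, hw5, hzz, ?_⟩
  have h3 := exp_LL hC hn h.per hw1
  rw [hzz, hw5, hy2, exp_eq_iff] at h3
  obtain ⟨m', hm'⟩ := h3
  have hmm : m' = m := by
    have e1 : ‖((m' - m : ℤ) : ℂ) * tpi‖ < 2 := by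
      have : ((m' - m : ℤ) : ℂ) * tpi = (LL ell n e w - (s₀ + m * tpi)) - (y.2.2 - s₀) := by
        rw [hm']
        push_cast
        ring
      rw [this]
      have d3' : ‖y.2.2 - s₀‖ < 1 := by simpa [dist_eq_norm] using d3
      calc _ ≤ _ := norm_sub_le _ _
        _ < 2 := by linarith
    rw [norm_mul, norm_tpi] at e1
    by_contra hne
    have h5 : (1 : ℝ) ≤ ‖((m' - m : ℤ) : ℂ)‖ := by
      rw [Complex.norm_intCast]
      have : 1 ≤ |m' - m| := Int.one_le_abs (by omega)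
      exact_mod_cast this
    have := Real.pi_gt_three
    nlinarith
  rw [hm', hmm]

theorem XX_HP {n : ℕ} : XX n HP = XX n (univ ∩ HP) := by rw [univ_inter]

theorem exp_ne_of_HP {s : ℂ} (hs : s ∈ HP) : exp s ≠ 1 := by
  intro h
  have h1 := congrArg norm h
  rw [norm_exp, norm_one] at h1
  have h2 : 0 < s.re := hs
  have := Real.one_lt_exp_iff.2 h2
  linarith

/-- the class of a point over `M` -/
theorem class_unique (hB : Base G B cc) (hLam : Lam B cc lam) (hC : Code G B cc lam Z ell)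
    (hI : S_IDENT) (hRot : S_ROT) (hCX : S_COMX) {n N N' : ℕ} (hn : 1 ≤ n) {θ θ' : ℕ → ℝ}
    {a a' : ℕ → ℤ} {p p' : ℤ} (hd : n ∣ N) (hd' : n ∣ N') (ha : Ang N θ a) (ha' : Ang N' θ' a')
    {x : ℂ × ℂ × ℂ} (hx : x ∈ XX n HP) (hc : x.1 ∈ MM) (hL : LM G B n N θ p x)
    (hL' : LM G B n N' θ' p' x) : ((p : ℝ) / (N / n : ℕ)) = (p' : ℝ) / (N' / n : ℕ) := by
  obtain ⟨y, hy, hyc, hv1, hv2⟩ := hCX G B cc hB n N N' θ θ' a a' p p' hn hd hd' ha ha' x hx hc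
    hL hL'
  obtain ⟨w, hw, hcw⟩ := hB.psurj y.1 hyc
  obtain ⟨e, m, hR⟩ := rep_exists hB hC hn hy hw hcw
  obtain ⟨θ1, a1, h1, _, h3, h4⟩ := LE_side hB hLam hC hI hn hd ha hR hv1
  obtain ⟨θ2, a2, g1, _, g3, g4⟩ := LE_side hB hLam hC hI hn hd' ha' hR hv2
  obtain ⟨ρ, _, _, hρ⟩ := hRot n e hn hR.per
  have hn0 : (n : ℝ) ≠ 0 := by
    have : (0 : ℝ) < n := by exact_mod_cast hn
    exact this.ne'
  have key : ∀ (M : ℕ) (b : ℤ) (θ₀ : ℕ → ℝ) (a₀ : ℕ → ℤ), n ∣ M → Ang M θ₀ a₀ →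
      Side (w.im / (2 * Real.pi)) e θ₀ →
      ∑ k ∈ Finset.range M, a₀ k = ((M / n : ℕ) : ℤ) * m + b →
      ((b : ℝ) / (M / n : ℕ)) = ρ (w.im / (2 * Real.pi)) - m := by
    intro M b θ₀ a₀ hdM h1 h3 h4
    have h5 := hρ _ M θ₀ a₀ hdM h1 h3
    rw [h4] at h5
    have hq0 : ((M / n : ℕ) : ℝ) ≠ 0 := by
      have := div_pos' hn h1.pos hdM
      have : (0 : ℝ) < (M / n : ℕ) := by exact_mod_cast this
      exact this.ne'
    have hM : (M : ℝ) = n * (M / n : ℕ) := by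
      have := (Nat.mul_div_cancel' hdM).symm
      exact_mod_cast this
    have h6 : (n : ℝ) * ((((M / n : ℕ) : ℤ) * m + b : ℤ) : ℝ) =
        n * ((M / n : ℕ) * ρ (w.im / (2 * Real.pi))) := by
      rw [h5, hM]
      ring
    have h7 := mul_left_cancel₀ hn0 h6
    rw [Int.cast_add, Int.cast_mul, Int.cast_natCast] at h7
    rw [div_eq_iff hq0]
    linarith
  rw [key N p θ1 a1 hd h1 h3 h4, key N' p' θ2 a2 hd' g1 g3 g4]

theorem frac_dvd {q : ℕ} (hq : 1 ≤ q) {p : ℤ} {q' : ℕ} (hq' : 1 ≤ q') {p' : ℤ}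
    (h : (p : ℝ) / q = (p' : ℝ) / q') (hp : ¬ ((q : ℤ) ∣ p)) : ¬ ((q' : ℤ) ∣ p') := by
  rintro ⟨k, rfl⟩
  apply hp
  have h1 : (0 : ℝ) < q := by exact_mod_cast hq
  have h2 : (0 : ℝ) < q' := by exact_mod_cast hq'
  push_cast at h
  rw [div_eq_iff h1.ne'] at h
  have h3 : (p : ℝ) = k * q := by
    rw [h]
    field_simp
  have h4 : p = k * q := by exact_mod_cast h3
  exact ⟨k, by rw [h4]; ring⟩

/-- a point over `M` with a class which is not an integer has a label -/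
theorem mk_LC (hB : Base G B cc) (hLam : Lam B cc lam) (hC : Code G B cc lam Z ell)
    (hI : S_IDENT) (hCX : S_COMX) {n N : ℕ} (hn : 1 ≤ n) {θ : ℕ → ℝ} {a : ℕ → ℤ} {p : ℤ}
    (hd : n ∣ N) (ha : Ang N θ a) (hdist : Dist n N θ) (hp : ¬ (((N / n : ℕ) : ℤ) ∣ p))
    {x : ℂ × ℂ × ℂ} (hx : x ∈ XX n HP) (hc : x.1 ∈ MM) (hL : LM G B n N θ p x) :
    ∃ e m, LC G B cc Z ell n e m (p / (N / n : ℕ)) x := by
  obtain ⟨y, hy, hyc, hv1, _⟩ := hCX G B cc hB n N N θ θ a a p p hn hd hd ha ha x hx hc hL hL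
  obtain ⟨e, m, hLX⟩ := le_strip hB hLam hC hI hn hd ha hp hy hyc hv1
  exact ⟨e, m, hx, hc, N, θ, a, p, hd, ha, hdist, hp, hL, rfl, y, hy, hv1, hLX⟩

theorem cun (hB : Base G B cc) (hLam : Lam B cc lam) (hC : Code G B cc lam Z ell)
    (H : LAB.Hyp) (hCX : S_COMX) {n : ℕ} (hn : 1 ≤ n) {e e' : ℕ → Bool} {m m' : ℤ} {v v' : ℝ}
    {x : ℂ × ℂ × ℂ} (h : LC G B cc Z ell n e m v x) (h' : LC G B cc Z ell n e' m' v' x) :
    e = e' ∧ m = m' ∧ v = v' := by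
  obtain ⟨hx, hc, N, θ, a, p, hd, ha, hdist, hp, hL, rfl, y, hy, hLE, hLX⟩ := h
  obtain ⟨_, _, N', θ', a', p', hd', ha', hdist', hp', hL', rfl, y', hy', hLE', hLX'⟩ := h'
  obtain ⟨u, hu, huc, hv1, hv2⟩ := hCX G B cc hB n N N' θ θ' a a' p p' hn hd hd' ha ha' x hx hc
    hL hL'
  obtain ⟨e'', m'', hLX''⟩ := le_strip hB hLam hC H.ident hn hd ha hp hu huc hv1
  obtain ⟨r1, r2⟩ := same_strip hB hLam hC H.ident H.comb hn hd ha hp hu hLX hLX'' hLE hv1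
  obtain ⟨r3, r4⟩ := same_strip hB hLam hC H.ident H.comb hn hd' ha' hp' hu hLX' hLX'' hLE' hv2
  exact ⟨r1.trans r3.symm, r2.trans r4.symm, class_unique hB hLam hC H.ident H.rot hCX hn hd hd'
    ha ha' hx hc hL hL'⟩

theorem cloc (hB : Base G B cc) (hLam : Lam B cc lam) (hC : Code G B cc lam Z ell)
    (H : LAB.Hyp) {n : ℕ} (hn : 1 ≤ n) {e : ℕ → Bool} {m : ℤ} {v : ℝ}
    {x : ℂ × ℂ × ℂ} (h : LC G B cc Z ell n e m v x) : ∀ᶠ y in 𝓝 x, y ∈ XX n HP →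
    (y.1 ∈ MM → LC G B cc Z ell n e m v y) ∧ (y.1 ∉ MM → LX cc Z ell n e m y) := by
  obtain ⟨hx, hc, N, θ, a, p, hd, ha, hdist, hp, hL, rfl, y₀, hy₀, hLE, hLX⟩ := h
  have hx' : x ∈ XX n (univ ∩ HP) := by rwa [univ_inter]
  have h1 := LM_stab hB H.sec H.land H.stab H.xloc hn hd ha hx' hc hL
  filter_upwards [h1] with y h2 hy
  have hy' : y ∈ XX n (univ ∩ HP) := by rwa [univ_inter]
  obtain ⟨h3, h4⟩ := h2 hy'
  refine ⟨fun hyM => ⟨hy, hyM, N, θ, a, p, hd, ha, hdist, hp, h3 hyM, rfl, y₀, hy₀, hLE, hLX⟩,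
    fun hyM => ?_⟩
  obtain ⟨e', m', hLX'⟩ := le_strip hB hLam hC H.ident hn hd ha hp hy hyM h4
  obtain ⟨r1, r2⟩ := same_strip hB hLam hC H.ident H.comb hn hd ha hp hy hLX hLX' hLE h4
  rw [r1, r2]
  exact hLX'

/-- module 26 -/
theorem labg (H : LAB.Hyp) (hCX : S_COMX) : S_LABG := by
  intro G B cc lam Z ell hB hLam hC n hn
  have hpi := Real.pi_pos
  refine ⟨?_, ?_, ?_, ?_, ?_, ?_, ?_, ?_, ?_, ?_⟩
  · -- xuni
    rintro e m x x' ⟨_, w, h1, h2, hR⟩ ⟨_, w', h1', h2', hR'⟩ hxx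
    obtain ⟨k, hk⟩ := cc_inj hB hR.hw hR'.hw (by rw [hR.hc, hR'.hc, hxx])
    have hk0 : k = 0 := by
      have h3 := congrArg Complex.im hk
      rw [add_im, int_mul_tpi_im] at h3
      have h4 : (-1 : ℝ) < k := by
        by_contra hcon
        push Not at hcon
        nlinarith
      have h5 : (k : ℝ) < 1 := by
        by_contra hcon
        push Not at hcon
        nlinarith
      have h4' : -1 < k := by exact_mod_cast h4
      have h5' : k < 1 := by exact_mod_cast h5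
      omega
    rw [hk0] at hk
    have hww : w' = w := by rw [hk]; simp
    rw [hww] at hR'
    refine Prod.ext hxx (Prod.ext ?_ ?_)
    · rw [← hR.hz, ← hR'.hz]
    · have h3 := hR.hL
      rw [hR'.hL] at h3
      exact (add_right_cancel h3).symm
  · -- xloc
    rintro e m x hx ⟨hM, w, h1, h2, hR⟩
    have hU : {w : ℂ | 0 < w.im ∧ w.im < 2 * Real.pi} ∈ 𝓝 w := by
      have ho : IsOpen {w : ℂ | 0 < w.im ∧ w.im < 2 * Real.pi} :=
        (isOpen_lt continuous_const Complex.continuous_im).inter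
          (isOpen_lt Complex.continuous_im continuous_const)
      exact ho.mem_nhds ⟨h1, h2⟩
    have h3 := rep_local_in hB hC H.xloc hn hx (exp_ne_of_HP hx.1) hR hU
    have h4 : ∀ᶠ y : ℂ × ℂ × ℂ in 𝓝 x, y.1 ∈ (MMᶜ : Set ℂ) :=
      (continuous_fst.tendsto x).eventually_mem ((MM_closed hB).isOpen_compl.mem_nhds hM)
    filter_upwards [h3, h4] with y h5 h6 hy
    obtain ⟨w', hw', hR'⟩ := h5 hy
    exact ⟨h6, w', hw'.1, hw'.2, hR'⟩
  · -- xex
    intro x hx hM h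
    exact to_strip hB hC hn hx hM h
  · -- xlu
    rintro e m e' m' x ⟨_, w, h1, h2, hR⟩ ⟨_, w', h1', h2', hR'⟩
    obtain ⟨k, hk⟩ := cc_inj hB hR.hw hR'.hw (by rw [hR.hc, hR'.hc])
    have hk0 : k = 0 := by
      have h3 := congrArg Complex.im hk
      rw [add_im, int_mul_tpi_im] at h3
      have h4 : (-1 : ℝ) < k := by
        by_contra hcon
        push Not at hcon
        nlinarith
      have h5 : (k : ℝ) < 1 := by
        by_contra hcon
        push Not at hcon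
        nlinarith
      have h4' : -1 < k := by exact_mod_cast h4
      have h5' : k < 1 := by exact_mod_cast h5
      omega
    rw [hk0] at hk
    have hww : w' = w := by rw [hk]; simp
    rw [hww] at hR'
    exact rep_unique_w hC hn hR hR'
  · -- cex
    intro x hx hc hk
    have hx' : x ∈ XX n (univ ∩ HP) := by rwa [univ_inter]
    obtain ⟨N, θ, a, p, hd, ha, hdist, hL⟩ := exists_LM hB H.sec H.land H.stab H.dlt hn hx' hc
    have hb := LM_bound hB H.sec H.land H.ply hn hd ha hdist hx hc hL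
    have hp : ¬ (((N / n : ℕ) : ℤ) ∣ p) := by
      rintro ⟨k, rfl⟩
      have hq1 : 1 ≤ N / n := div_pos' hn ha.pos hd
      have hq0 : (0 : ℝ) < (N / n : ℕ) := by exact_mod_cast hq1
      have hq1' : (1 : ℝ) ≤ (N / n : ℕ) := by exact_mod_cast hq1
      have h1 : (((((N / n : ℕ) : ℤ) * k : ℤ) : ℝ) / (N / n : ℕ) : ℝ) = k := by
        rw [Int.cast_mul, Int.cast_natCast]
        field_simp
      rw [h1] at hb
      have h2 := hk k
      have h3 : x.2.2 - tpi * ((k : ℝ) : ℂ) = x.2.2 - k * tpi := by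
        push_cast
        ring
      rw [h3] at hb
      have h4 : 0 < x.2.2.re := hx.1
      have hlog : 0 < Real.log 2 := Real.log_pos (by norm_num)
      have h5 : 2 * n * Real.log 2 / (N / n : ℕ) * x.2.2.re ≤ 2 * n * Real.log 2 * x.2.2.re := by
        gcongr
        exact div_le_self (by positivity) hq1'
      linarith
    obtain ⟨e, m, h⟩ := mk_LC hB hLam hC H.ident hCX hn hd ha hdist hp hx hc hL
    exact ⟨e, m, _, h⟩
  · -- cun
    intro e m v e' m' v' x h h'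
    exact cun hB hLam hC H hCX hn h h'
  · -- cloc
    intro e m v x h
    exact cloc hB hLam hC H hn h
  · -- clim
    intro e m v x hfr hx
    have hc : x.1 ∈ MM := by
      have h1 : x.1 ∈ closure MM := by
        refine mem_closure_of_frequently_of_tendsto (f := fun y : ℂ × ℂ × ℂ => y.1)
          (b := 𝓝 x) ?_ (continuous_fst.tendsto x)
        exact hfr.mono fun y hy => hy.2.1
      rwa [(MM_closed hB).closure_eq] at h1
    have hx' : x ∈ XX n (univ ∩ HP) := by rwa [univ_inter]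
    obtain ⟨N, θ, a, p, hd, ha, hdist, hL⟩ := exists_LM hB H.sec H.land H.stab H.dlt hn hx' hc
    have h1 := LM_stab hB H.sec H.land H.stab H.xloc hn hd ha hx' hc hL
    have hp : ¬ (((N / n : ℕ) : ℤ) ∣ p) := by
      obtain ⟨y, hy, h2⟩ := (hfr.and_eventually h1).exists
      obtain ⟨hyX, hyc, N', θ', a', p', hd', ha', hdist', hp', hL', hv', _⟩ := hy
      have h3 := (h2 (by rwa [univ_inter])).1 hyc
      have h4 := class_unique hB hLam hC H.ident H.rot hCX hn hd' hd ha' ha hyX hyc hL' h3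
      exact frac_dvd (div_pos' hn ha'.pos hd') (div_pos' hn ha.pos hd) h4 hp'
    obtain ⟨e₀, m₀, h5⟩ := mk_LC hB hLam hC H.ident hCX hn hd ha hdist hp hx hc hL
    have h6 := cloc hB hLam hC H hn h5
    obtain ⟨y, hy, h7⟩ := (hfr.and_eventually h6).exists
    obtain ⟨r1, r2, r3⟩ := cun hB hLam hC H hCX hn ((h7 hy.1).1 hy.2.1) hy
    rw [← r1, ← r2, ← r3]
    exact h5
  · -- hor
    rintro e m v x ⟨hx, hc, N, θ, a, p, hd, ha, hdist, hp, hL, rfl, _⟩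
    have hb := LM_bound hB H.sec H.land H.ply hn hd ha hdist hx hc hL
    refine hb.trans ?_
    have hq1 : 1 ≤ N / n := div_pos' hn ha.pos hd
    have hq1' : (1 : ℝ) ≤ (N / n : ℕ) := by exact_mod_cast hq1
    have h4 : 0 < x.2.2.re := hx.1
    have hlog : 0 < Real.log 2 := Real.log_pos (by norm_num)
    gcongr
    exact div_le_self (by positivity) hq1'
  · -- nint
    rintro e m v x ⟨hx, hc, N, θ, a, p, hd, ha, hdist, hp, hL, rfl, _⟩ h0
    unfold dZ at h0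
    rw [abs_eq_zero, sub_eq_zero] at h0
    apply hp
    have hq1 : 1 ≤ N / n := div_pos' hn ha.pos hd
    have hq0 : (0 : ℝ) < (N / n : ℕ) := by exact_mod_cast hq1
    rw [div_eq_iff hq0.ne'] at h0
    refine ⟨round ((p : ℝ) / (N / n : ℕ)), ?_⟩
    have h1 : (p : ℝ) = ((((N / n : ℕ) : ℤ) * round ((p : ℝ) / (N / n : ℕ)) : ℤ) : ℝ) := by
      rw [Int.cast_mul, Int.cast_natCast]
      linarith
    exact_mod_cast h1

end

end Pool.Agent.KS6_23.ML.LABG
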