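import Pool.Agent.KS6_23.ML.Stm3
import Pool.Agent.KS6_23.ML.EXT

set_option autoImplicit false

/-! # Project ML: the extension theorem for convex domains, sheets -/

open Complex Set Filter Metric Topology MeasureTheory

namespace Pool.Agent.KS6_23.ML.SHEET

open Pool.Agent.KS6_23.ML Pool.Agent.KS6_23.ML.Basic Pool.Agent.KS6_23.ML.LabC
open Pool.Agent.KS6_23.ML.Curve Pool.Agent.KS6_23.ML.UNR Pool.Agent.KS6_23.ML.EXT

theorem extg (hT : S_TRV) (hX : S_XLOC) (hK : S_XCPT) (hCn : S_CNTN) : S_EXTG := by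
  intro κ₀ hκ0 hκ1 hunr n D hn hDo hDc hD s₀ hs0 c₀ z₀ hf hm
  have h1 : ∀ s ∈ D, exp s ≠ 1 := fun s hs => (hD s hs).1
  have hU : ∀ x ∈ XX n D, Unr n x := by
    intro x hx
    by_cases hre : 0 ≤ x.2.2.re
    · obtain ⟨t, ht, hxt⟩ := (hD _ hx.1).2 hre
      exact hunr n t hn ht x ⟨hxt, hx.2⟩
    · push Not at hre
      intro ζ hζ hζ0 hev
      refine hT n x.1 x.2.1 ζ hn hx.2.1 ?_ ?_ ?_ hζ hζ0 hev
      · rw [hx.2.2]; exact exp_ne_zero _
      · rw [hx.2.2]; exact h1 _ hx.1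
      · rw [hx.2.2, norm_exp]
        exact Real.exp_le_one_iff.2 hre.le
  have hcov := cov hX hK hCn hn hDo h1 hU
  have : ContractibleSpace D := hDc.contractibleSpace ⟨s₀, hs0⟩
  have : LocallyPathConnectedSpace D := hDo.locallyPathConnectedSpace
  set e₀ : XX n univ := ⟨(c₀, z₀, s₀), mem_univ _, hf, hm⟩ with he₀
  obtain ⟨F, ⟨hF0, hFp⟩, _⟩ := hcov.existsUnique_continuousMap_lifts
    (A := D) (⟨Subtype.val, continuous_subtype_val⟩ : C(D, ℂ)) (a₀ := ⟨s₀, hs0⟩)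
    (e₀ := e₀) rfl (fun a => a.2)
  have hFs : ∀ s (hs : s ∈ D), (F ⟨s, hs⟩).1.2.2 = s := fun s hs => congrFun hFp ⟨s, hs⟩
  classical
  set ψ : ℂ → ℂ := fun s => if h : s ∈ D then (F ⟨s, h⟩).1.1 else 0 with hψ
  set ζ : ℂ → ℂ := fun s => if h : s ∈ D then (F ⟨s, h⟩).1.2.1 else 0 with hζ
  have hψs : ∀ s (hs : s ∈ D), ψ s = (F ⟨s, hs⟩).1.1 := fun s hs => dif_pos hs
  have hζs : ∀ s (hs : s ∈ D), ζ s = (F ⟨s, hs⟩).1.2.1 := fun s hs => dif_pos hs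
  -- local form
  have hloc : ∀ s ∈ D, DifferentiableAt ℂ ψ s ∧ DifferentiableAt ℂ ζ s ∧ deriv ψ s ≠ 0 := by
    intro s hs
    set a : XX n univ := F ⟨s, hs⟩ with ha
    have has : a.1.2.2 = s := hFs s hs
    have haD : a.1 ∈ XX n D := ⟨by rw [has]; exact hs, a.2.2⟩
    obtain ⟨ε, ψ', ζ', hε, hψ', hζ', hψ0, hζ0, hmem, η, hη, huni⟩ := xsec hX hn a.2
      (h1 _ haD.1) (hU _ haD)
    rw [has] at hψ' hζ' hψ0 hζ0 hmem huni
    have hev : ∀ᶠ s' : D in 𝓝 ⟨s, hs⟩, dist (F s').1 a.1 < η := by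
      have h2 : Tendsto (fun s' : D => (F s').1) (𝓝 ⟨s, hs⟩) (𝓝 a.1) :=
        (continuous_subtype_val.comp F.continuous).tendsto _
      exact h2.eventually (ball_mem_nhds _ hη)
    have hev2 : ∀ᶠ s' in 𝓝 s, ∀ h : s' ∈ D, dist (F ⟨s', h⟩).1 a.1 < η := by
      rw [nhds_subtype_eq_comap, eventually_comap] at hev
      filter_upwards [hev] with s' g1 g2
      exact g1 ⟨s', g2⟩ rfl
    have hev3 : ∀ᶠ s' in 𝓝 s, ψ s' = ψ' s' ∧ ζ s' = ζ' s' := by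
      filter_upwards [hev2, hDo.mem_nhds hs] with s' g1 g2
      obtain ⟨_, h3⟩ := huni (F ⟨s', g2⟩).1 (F ⟨s', g2⟩).2 (g1 g2)
      rw [hFs s' g2] at h3
      rw [hψs s' g2, hζs s' g2, h3]
      exact ⟨rfl, rfl⟩
    have e1 : ψ =ᶠ[𝓝 s] ψ' := by filter_upwards [hev3] with s' g using g.1
    have e2 : ζ =ᶠ[𝓝 s] ζ' := by filter_upwards [hev3] with s' g using g.2
    have hn1 : ball s ε ∈ 𝓝 s := ball_mem_nhds _ hε
    refine ⟨(hψ'.differentiableAt hn1).congr_of_eventuallyEq e1,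
      (hζ'.differentiableAt hn1).congr_of_eventuallyEq e2, ?_⟩
    rw [e1.deriv_eq]
    exact (hmem s (mem_ball_self hε)).2
  refine ⟨ψ, ζ, fun s hs => (hloc s hs).1.differentiableWithinAt,
    fun s hs => (hloc s hs).2.1.differentiableWithinAt, ?_, ?_, ?_⟩
  · rw [hψs _ hs0, hF0]
  · rw [hζs _ hs0, hF0]
  · intro s hs
    have hmem : (ψ s, ζ s, s) ∈ XX n D := by
      have h2 : ((ψ s, ζ s, s) : ℂ × ℂ × ℂ) = (F ⟨s, hs⟩).1 :=
        Prod.ext (hψs s hs) (Prod.ext (hζs s hs) (hFs s hs).symm)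
      rw [h2]
      exact ⟨by rw [hFs s hs]; exact hs, (F ⟨s, hs⟩).2.2⟩
    refine ⟨hmem, ?_, (hloc s hs).2.2⟩
    refine hK.2 n (ψ s) (ζ s) hn hmem.2.1 ?_
    rw [hmem.2.2, norm_exp]
    simp only
    have h3 : s.re < 1 := by
      by_cases hre : 0 ≤ s.re
      · obtain ⟨t, ht, hst⟩ := (hD _ hs).2 hre
        have hrt := rad_le hκ0 hκ1 (t := t) hn
        have h4 : ‖s - tpi * t‖ < κ₀ * dZ t ^ 2 / n := by
          rw [← dist_eq_norm]
          exact hst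
        have h5 : (s - tpi * (t : ℂ)).re = s.re := by
          rw [sub_re, _root_.mul_comm, real_mul_tpi_re, sub_zero]
        have h6 : dZ t ≤ 1 / 2 := abs_sub_round t
        have h7 := (le_abs_self _).trans (abs_re_le_norm (s - tpi * (t : ℂ)))
        rw [h5] at h7
        linarith
      · linarith
    have h4 : Real.exp s.re ≤ Real.exp 1 := Real.exp_le_exp.2 (by linarith)
    have h5 := Real.exp_one_lt_d9
    linarith

theorem dZ_lip (t t' : ℝ) : dZ t ≤ dZ t' + |t - t'| := by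
  have h1 : dZ t ≤ |t - round t'| := round_le t (round t')
  have h2 : |t - round t'| ≤ |t - t'| + |t' - round t'| := abs_sub_le _ _ _
  unfold dZ at *
  linarith

theorem Om_eq (κ₀ : ℝ) (n : ℕ) (t : ℝ) : Om κ₀ n t =
    ({s : ℂ | s.im < dZ t + 2 * Real.pi * t} ∩
      {s : ℂ | 2 * Real.pi * t - dZ t < s.im}) ∩ {s : ℂ | s.re < κ₀ * dZ t ^ 2 / (2 * n)} := by
  ext s
  simp only [Om, mem_ofPred_eq, mem_inter_iff, abs_lt]
  constructor
  · rintro ⟨⟨h1, h2⟩, h3⟩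
    exact ⟨⟨by linarith, by linarith⟩, h3⟩
  · rintro ⟨⟨h1, h2⟩, h3⟩
    exact ⟨⟨by linarith, by linarith⟩, h3⟩

theorem Om_open (κ₀ : ℝ) (n : ℕ) (t : ℝ) : IsOpen (Om κ₀ n t) := by
  rw [Om_eq]
  exact ((isOpen_lt continuous_im continuous_const).inter
    (isOpen_lt continuous_const continuous_im)).inter (isOpen_lt continuous_re continuous_const)

theorem Om_convex (κ₀ : ℝ) (n : ℕ) (t : ℝ) : Convex ℝ (Om κ₀ n t) := by
  rw [Om_eq]
  exact ((convex_halfSpace_im_lt _).inter (convex_halfSpace_im_gt _)).inter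
    (convex_halfSpace_re_lt _)

theorem dZ_nonneg (t : ℝ) : 0 ≤ dZ t := abs_nonneg _

theorem Om_exp {κ₀ : ℝ} {n : ℕ} {t : ℝ} {s : ℂ} (hs : s ∈ Om κ₀ n t) :
    exp s ≠ 1 := by
  intro h1
  rw [← exp_zero] at h1
  obtain ⟨k, hk⟩ := (exp_eq_iff _ _).1 h1
  have h2 := hs.1
  rw [hk, zero_add, int_mul_tpi_im] at h2
  have h3 : dZ t ≤ |t - k| := round_le t k
  have h4 : |2 * Real.pi * k - 2 * Real.pi * t| = 2 * Real.pi * |t - k| := by
    rw [← mul_sub, abs_mul, abs_of_pos (by positivity), abs_sub_comm]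
  rw [h4] at h2
  have h5 := Real.pi_gt_three
  nlinarith [abs_nonneg (t - k), dZ_nonneg t]

/-- points of the half strip in the right half plane are in the small discs -/
theorem Om_DD {κ₀ : ℝ} (h0 : 0 < κ₀) {n : ℕ} (hn : 1 ≤ n) {t : ℝ} (ht : dZ t ≠ 0) {s : ℂ}
    (hs : s ∈ Om κ₀ n t) (hre : 0 ≤ s.re) : dZ (s.im / (2 * Real.pi)) ≠ 0 ∧
      s ∈ DD κ₀ n (s.im / (2 * Real.pi)) := by
  have hpi := Real.pi_gt_three
  have hd : 0 < dZ t := lt_of_le_of_ne (dZ_nonneg t) (Ne.symm ht)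
  set t' : ℝ := s.im / (2 * Real.pi) with ht'
  have h1 : s.im = 2 * Real.pi * t' := by rw [ht']; field_simp
  have h2 : |t - t'| < dZ t / 6 := by
    have h3 := hs.1
    rw [h1, ← mul_sub, abs_mul, abs_of_pos (by positivity), abs_sub_comm] at h3
    nlinarith [abs_nonneg (t - t')]
  have h3 := dZ_lip t t'
  have h4 : 5 / 6 * dZ t < dZ t' := by linarith
  refine ⟨by nlinarith, ?_⟩
  unfold DD
  rw [mem_ball, dist_eq_norm]
  have h5 : s - tpi * (t' : ℂ) = (s.re : ℂ) := by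
    apply Complex.ext
    · rw [sub_re, _root_.mul_comm, real_mul_tpi_re, sub_zero, ofReal_re]
    · rw [sub_im, _root_.mul_comm, real_mul_tpi_im, ofReal_im, h1, sub_self]
  rw [h5, norm_real, Real.norm_of_nonneg hre]
  have hn0 : (0 : ℝ) < n := by exact_mod_cast hn
  refine lt_of_lt_of_le hs.2 ?_
  rw [div_le_div_iff₀ (by positivity) hn0]
  have h6 : dZ t ^ 2 ≤ 2 * dZ t' ^ 2 := by nlinarith
  calc κ₀ * dZ t ^ 2 * n = κ₀ * n * dZ t ^ 2 := by ring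
    _ ≤ κ₀ * n * (2 * dZ t' ^ 2) := by gcongr
    _ = _ := by ring

theorem sheet (hT : S_TRV) (hX : S_XLOC) (hK : S_XCPT) (hCn : S_CNTN) : S_SHEET := by
  intro κ₀ hκ0 hκ1 hunr n t hn ht s₀ hs₀ c z hf hm
  obtain ⟨ψ, ζ, h1, h2, h3, h4, h5⟩ := extg hT hX hK hCn κ₀ hκ0 (by linarith) hunr n
    (Om κ₀ n t) hn (Om_open _ _ _) (Om_convex _ _ _)
    (fun s hs => ⟨Om_exp hs, fun hre => ⟨_, Om_DD hκ0 hn ht hs hre⟩⟩) s₀ hs₀ c z hf hm
  exact ⟨ψ, ζ, ⟨h1, h2, fun s hs => (h5 s hs).1, fun s hs => (h5 s hs).2.1,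
    fun s hs => (h5 s hs).2.2⟩, h3, h4⟩

end Pool.Agent.KS6_23.ML.SHEET
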