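import Pool.Agent.KS6_23.ML.Stm3
import Pool.Agent.KS6_23.ML.LIMB
import Pool.Agent.KS6_23.ML.SHEET

set_option autoImplicit false

/-! # Project ML, stage 2, modules 25 and 28: the extension to the disc with a half strip; points of
limbs are values at the horodisc -/

open Complex Set Filter Metric Topology MeasureTheory

namespace Pool.Agent.KS6_23.ML.LIMB2

open Pool.Agent.KS6_23.ML Pool.Agent.KS6_23.ML.Basic Pool.Agent.KS6_23.ML.LabC
open Pool.Agent.KS6_23.ML.Curve Pool.Agent.KS6_23.ML.UNR Pool.Agent.KS6_23.ML.LIMB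

theorem DD_DL (κ : ℝ) (n : ℕ) (t : ℝ) : DD κ n t ⊆ DL κ n t := by
  intro s hs
  exact ⟨0, le_rfl, by simpa using hs⟩

theorem DL_open (κ : ℝ) (n : ℕ) (t : ℝ) : IsOpen (DL κ n t) := by
  have h : DL κ n t = ⋃ τ ∈ {τ : ℝ | 0 ≤ τ}, (fun s : ℂ => s + (τ : ℂ)) ⁻¹' DD κ n t := by
    ext s
    simp [DL]
  rw [h]
  exact isOpen_biUnion fun τ _ => isOpen_ball.preimage (by fun_prop)

theorem DL_convex (κ : ℝ) (n : ℕ) (t : ℝ) : Convex ℝ (DL κ n t) := by
  intro s hs s' hs' a b ha hb hab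
  obtain ⟨τ, h1, h2⟩ := hs
  obtain ⟨τ', h3, h4⟩ := hs'
  refine ⟨a * τ + b * τ', by positivity, ?_⟩
  have h5 := (convex_ball (tpi * (t : ℂ)) (κ * dZ t ^ 2 / n)) h2 h4 ha hb hab
  have h6 : a • s + b • s' + ((a * τ + b * τ' : ℝ) : ℂ) = a • (s + τ) + b • (s' + τ') := by
    simp only [real_smul]
    push_cast
    ring
  rw [h6]
  exact h5

theorem DL_re {κ : ℝ} {n : ℕ} {t : ℝ} {s : ℂ} (hs : s ∈ DL κ n t) (hre : 0 ≤ s.re) :
    s ∈ DD κ n t := by
  obtain ⟨τ, h1, h2⟩ := hs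
  unfold DD at h2 ⊢
  rw [mem_ball, dist_eq_norm] at h2 ⊢
  refine lt_of_le_of_lt ?_ h2
  rw [norm_def, norm_def]
  apply Real.sqrt_le_sqrt
  have e1 : (s - tpi * (t : ℂ)).re = s.re := by
    rw [sub_re, _root_.mul_comm, real_mul_tpi_re, sub_zero]
  have e2 : (s + τ - tpi * (t : ℂ)).re = s.re + τ := by
    rw [sub_re, _root_.mul_comm tpi, real_mul_tpi_re, sub_zero, add_re, ofReal_re]
  have e3 : (s + τ - tpi * (t : ℂ)).im = (s - tpi * (t : ℂ)).im := by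
    simp
  rw [normSq_apply, normSq_apply, e1, e2, e3]
  nlinarith

theorem DL_im {κ : ℝ} {n : ℕ} {t : ℝ} {s : ℂ} (hs : s ∈ DL κ n t) :
    |s.im - 2 * Real.pi * t| < κ * dZ t ^ 2 / n := by
  obtain ⟨τ, h1, h2⟩ := hs
  unfold DD at h2
  rw [mem_ball, dist_eq_norm] at h2
  refine lt_of_le_of_lt ?_ h2
  have e3 : (s + τ - tpi * (t : ℂ)).im = s.im - 2 * Real.pi * t := by
    rw [sub_im, _root_.mul_comm tpi, real_mul_tpi_im, add_im, ofReal_im, add_zero]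
  rw [← e3]
  exact abs_im_le_norm _

theorem exl (hUnr : ∃ κ₀ : ℝ, 0 < κ₀ ∧ κ₀ ≤ 1 ∧ Unram κ₀) (hG : S_EXTG) : S_EXL := by
  obtain ⟨κ₀, hκ0, hκ1, hun⟩ := hUnr
  refine ⟨min κ₀ (1 / 16), by positivity, min_le_right _ _, fun n t hn ht c z hf hm => ?_⟩
  set κ : ℝ := min κ₀ (1 / 16) with hκ
  have hκ2 : 0 < κ := by positivity
  have hκ3 : κ ≤ 1 := (min_le_left _ _).trans hκ1
  have hdpos : 0 < dZ t := lt_of_le_of_ne (abs_nonneg _) (Ne.symm ht)
  have hrt := UNR.rad_le hκ2 hκ3 (t := t) hn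
  have hrp := UNR.rad_pos hκ2 (t := t) ht hn
  have hsub : DD κ n t ⊆ DD κ₀ n t := rad_mono (min_le_left _ _) n
  have hs0 : tpi * (t : ℂ) ∈ DL κ n t := DD_DL κ n t (mem_ball_self hrp)
  have hexp : ∀ s ∈ DL κ n t, exp s ≠ 1 := by
    intro s hs h6
    rw [← exp_zero] at h6
    obtain ⟨k, hk⟩ := (exp_eq_iff _ _).1 h6
    have h7 := DL_im hs
    rw [hk, zero_add, int_mul_tpi_im] at h7
    have h8 : dZ t ≤ |t - k| := round_le t k
    have h9 : |2 * Real.pi * k - 2 * Real.pi * t| = 2 * Real.pi * |t - k| := by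
      rw [← mul_sub, abs_mul, abs_of_pos (by positivity), abs_sub_comm]
    rw [h9] at h7
    have h10 := Real.pi_gt_three
    nlinarith [abs_nonneg (t - k)]
  obtain ⟨ψ, ζ, h1, h2, h3, h4, h5⟩ := hG κ₀ hκ0 hκ1 hun n (DL κ n t) hn (DL_open κ n t)
    (DL_convex κ n t) (fun s hs => ⟨hexp s hs, fun hre => ⟨t, ht, hsub (DL_re hs hre)⟩⟩) _ hs0
    c z hf hm
  exact ⟨ψ, ζ, ⟨h1, h2, h3, h4, fun s hs => (h5 s hs).1, fun s hs => (h5 s hs).2.1,
    fun s hs => (h5 s hs).2.2⟩⟩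

theorem limb2 (hBase : S_BASE) (hCls : S_CLS) (hFr : S_FRO) : S_LIMB2 := by
  obtain ⟨G, B₀, cc, hB⟩ := hBase
  obtain ⟨κ₂, hκ₂, hκ₂1, hcls⟩ := hCls
  have hMc : IsClosed MM := MM_closed hB
  have hlog : 0 < Real.log 2 := Real.log_pos (by norm_num)
  refine ⟨κ₂, hκ₂, ?_⟩
  intro κ n q p c₀ z₀ ψ ζ B hκ0 hκκ hn hq hco ht hP hL hsmall c hcB
  set t : ℝ := p / q with htdef
  have hn0 : (0 : ℝ) < n := by exact_mod_cast hn
  have hq0 : (0 : ℝ) < q := by exact_mod_cast hq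
  have hdpos : 0 < dZ t := lt_of_le_of_ne (abs_nonneg _) (Ne.symm ht)
  set R : ℝ := κ * dZ t ^ 2 / n with hR
  have hR0 : 0 < R := by positivity
  set ρ : ℝ := n * Real.log 2 / q with hρ
  have hρ0 : 0 < ρ := by positivity
  set s₀ : ℂ := tpi * (t : ℂ) with hs₀
  have hs₀re : s₀.re = 0 := by rw [hs₀, _root_.mul_comm, real_mul_tpi_re]
  have hnorm1 : ‖mul n c₀ z₀‖ = 1 := by
    rw [hL.mlt, norm_exp, ← hs₀, hs₀re, Real.exp_zero]
  have hc₀M : c₀ ∈ MM := (hFr n c₀ z₀ hn hL.fix hnorm1.le).1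
  have hcM : c ∈ MM := (hL.sub hcB).1
  have htriv : 2 * ρ < R / 2 := by
    have : 4 * n * Real.log 2 / q = 4 * ρ := by rw [hρ]; ring
    rw [this] at hsmall
    linarith
  have hsub1 : ball s₀ R ⊆ DL κ n t := DD_DL κ n t
  have hsub2 : ball s₀ R ⊆ DD κ₂ n t := rad_mono hκκ n
  have hψ0 : ψ s₀ = c₀ := hP.ψ0
  have hζ0 : ζ s₀ = z₀ := hP.ζ0
  obtain ⟨cl, hcl⟩ := hcls n t hn ht
  set D : Set ℂ := ball s₀ R with hD
  have hDo : IsOpen D := isOpen_ball
  have hψ : DifferentiableOn ℂ ψ D := hP.dψ.mono hsub1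
  have hζ : DifferentiableOn ℂ ζ D := hP.dζ.mono hsub1
  have hd : ∀ s ∈ D, deriv ψ s ≠ 0 := fun s hs => hP.dne s (hsub1 hs)
  have hψc : ∀ s ∈ D, ContinuousAt ψ s := fun s hs =>
    (hψ.differentiableAt (hDo.mem_nhds hs)).continuousAt
  have hζc : ∀ s ∈ D, ContinuousAt ζ s := fun s hs =>
    (hζ.differentiableAt (hDo.mem_nhds hs)).continuousAt
  have hs₀D : s₀ ∈ D := mem_ball_self hR0
  set X : ℂ → ℂ × ℂ × ℂ := fun s => (ψ s, ζ s, s) with hX
  have hXc : ∀ s ∈ D, ContinuousAt X s := fun s hs =>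
    (hψc s hs).prodMk ((hζc s hs).prodMk continuousAt_id)
  have hXmem : ∀ s ∈ D, (f (ψ s))^[n] (ζ s) = ζ s ∧ mul n (ψ s) (ζ s) = exp s := fun s hs =>
    (hP.mem s (hsub1 hs)).2
  have hX2 : ∀ s ∈ D ∩ HP, X s ∈ XX n (DD κ₂ n t ∩ HP) := fun s hs =>
    ⟨⟨hsub2 hs.1, hs.2⟩, hXmem s hs.1⟩
  -- the classes
  set E : ℝ → Set ℂ := fun v => {s | s ∈ D ∩ HP ∧ ψ s ∈ MM ∧ cl (X s) = v} with hE
  have hEop : ∀ v, ∀ s ∈ E v, ∀ᶠ s' in 𝓝 s, s' ∈ D ∩ HP → ψ s' ∈ MM → s' ∈ E v := by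
    rintro v s ⟨h1, h2, h3⟩
    have h4 := (hcl (X s) (hX2 s h1) h2).2
    filter_upwards [(hXc s h1.1).eventually h4] with s' g1 g2 g3
    exact ⟨g2, g3, by rw [g1 (hX2 s' g2) g3, h3]⟩
  have hEcl : ∀ v, ∀ s ∈ D ∩ HP, s ∈ closure (E v) → s ∈ E v := by
    intro v s h1 h2
    have hM : ψ s ∈ MM := by
      have h3 : ψ s ∈ closure MM := by
        refine mem_closure_of_frequently_of_tendsto ?_ (hψc s h1.1).tendsto
        exact (mem_closure_iff_frequently.1 h2).mono fun s' h => h.2.1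
      rwa [hMc.closure_eq] at h3
    have h4 := (hcl (X s) (hX2 s h1) hM).2
    obtain ⟨s', h5, h6⟩ := ((mem_closure_iff_frequently.1 h2).and_eventually
      ((hXc s h1.1).eventually h4)).exists
    exact ⟨h1, hM, by rw [← h6 (hX2 s' h5.1) h5.2.1, h5.2.2]⟩
  -- the horodiscs
  have hEb : ∀ s ∈ E t, ‖s - s₀‖ ^ 2 ≤ 2 * ρ * s.re := by
    rintro s ⟨h1, h2, h3⟩
    obtain ⟨p', q', hq', h4, h5⟩ := (hcl (X s) (hX2 s h1) h2).1
    rw [h3] at h4 h5
    have h6 : (q : ℝ) ≤ q' := den_le hq hco hq' h4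
    have h7 : 0 < s.re := h1.2
    calc ‖s - s₀‖ ^ 2 ≤ 2 * n * Real.log 2 / q' * s.re := h5
      _ ≤ 2 * n * Real.log 2 / q * s.re := by gcongr
      _ = 2 * ρ * s.re := by rw [hρ]; ring
  have hball0 : closedBall s₀ (2 * ρ) ⊆ D := closedBall_subset_ball (by linarith)
  obtain ⟨hLop, hLcl, hE2⟩ := image_class hDo hψ hd (fun s hs => hs.1) hEb hball0 hs₀re (hEop t)
    (hEcl t)
  -- injectivity near `s₀`
  obtain ⟨ε₁, hε₁, hε₁R, hinj⟩ : ∃ ε₁ : ℝ, 0 < ε₁ ∧ ε₁ ≤ R ∧ InjOn ψ (ball s₀ ε₁) := by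
    have hA : AnalyticAt ℂ ψ s₀ := hψ.analyticAt (hDo.mem_nhds hs₀D)
    have hst : HasStrictDerivAt ψ (deriv ψ s₀) s₀ := hA.hasStrictDerivAt
    set P := (hst.hasStrictFDerivAt_equiv (hd s₀ hs₀D)).toOpenPartialHomeomorph ψ with hP
    have hmem : s₀ ∈ P.source :=
      (hst.hasStrictFDerivAt_equiv (hd s₀ hs₀D)).mem_toOpenPartialHomeomorph_source
    obtain ⟨ε, hε, hb⟩ := Metric.mem_nhds_iff.1 (P.open_source.mem_nhds hmem)
    refine ⟨min ε R, by positivity, min_le_right _ _, ?_⟩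
    have h1 : InjOn ψ P.source := P.injOn
    exact h1.mono ((ball_subset_ball (min_le_left _ _)).trans hb)
  -- attracting parameters near `c₀` are not in `B`
  obtain ⟨δ, hδ, hatt⟩ := hL.att
  obtain ⟨ε₂, hε₂, hε₂1, hnear⟩ : ∃ ε₂ : ℝ, 0 < ε₂ ∧ ε₂ ≤ ε₁ ∧ ∀ s ∈ ball s₀ ε₂,
      ‖ψ s - c₀‖ < δ ∧ ‖ζ s - z₀‖ < δ := by
    have h1 : ∀ᶠ s in 𝓝 s₀, ‖ψ s - c₀‖ < δ ∧ ‖ζ s - z₀‖ < δ := by
      have h2 := (hψc s₀ hs₀D).eventually (ball_mem_nhds _ hδ)
      have h3 := (hζc s₀ hs₀D).eventually (ball_mem_nhds _ hδ)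
      filter_upwards [h2, h3] with s g1 g2
      rw [hψ0] at g1
      rw [hζ0] at g2
      exact ⟨by simpa [dist_eq_norm] using g1, by simpa [dist_eq_norm] using g2⟩
    obtain ⟨ε, hε, hb⟩ := Metric.eventually_nhds_iff_ball.1 h1
    exact ⟨min ε ε₁, by positivity, min_le_right _ _, fun s hs =>
      hb s (ball_subset_ball (min_le_left _ _) hs)⟩
  have hε₂D : ball s₀ ε₂ ⊆ D := ball_subset_ball (hε₂1.trans hε₁R)
  have hneg : ∀ s ∈ ball s₀ ε₂, s.re < 0 → ψ s ∈ MM ∧ ψ s ∉ B := by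
    intro s hs hre
    obtain ⟨h1, h2⟩ := hXmem s (hε₂D hs)
    have h3 : ‖mul n (ψ s) (ζ s)‖ < 1 := by
      rw [h2, norm_exp]
      exact Real.exp_lt_one_iff.2 hre
    exact ⟨(hFr n (ψ s) (ζ s) hn h1 h3.le).1,
      hatt _ _ (hnear s hs).1 (hnear s hs).2 h1 h3⟩
  -- the part of `B` outside of the image of the class `t`
  set B₂ : Set ℂ := B \ (ψ '' E t) with hB₂
  obtain ⟨O, hO, hBO⟩ := hL.opn
  obtain ⟨K, hKc, hBK⟩ := hL.cls
  have hc₀B : c₀ ∉ B := fun h => (hL.sub h).2 rfl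
  have hB₂op : ∀ c ∈ B₂, ∀ᶠ c' in 𝓝 c, c' ∈ MM → c' ∈ B₂ := by
    rintro c ⟨h1, h2⟩
    have h3 : c ≠ c₀ := fun h => hc₀B (h ▸ h1)
    have h4 : c ∈ O := by
      rw [hBO] at h1
      exact h1.1
    have h5 : c ∉ closure (ψ '' E t) := by
      intro h
      rcases hLcl h with h6 | h6
      · rw [hψ0] at h6
        exact h3 h6
      · exact h2 h6
    filter_upwards [hO.mem_nhds h4, isClosed_closure.isOpen_compl.mem_nhds h5,
      isOpen_ne.mem_nhds h3] with c' g1 g2 g3 g4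
    refine ⟨?_, fun h => g2 (subset_closure h)⟩
    rw [hBO]
    exact ⟨g1, g4, g3⟩
  have hB₂M : B₂ ⊆ MM := fun c h => (hL.sub h.1).1
  have hB₂cl : closure B₂ ⊆ insert c₀ B₂ := by
    intro c h
    by_cases hc : c = c₀
    · exact Or.inl hc
    right
    have h1 : c ∈ MM := hMc.closure_subset_iff.2 hB₂M h
    have h2 : c ∈ K := by
      refine hKc.closure_subset_iff.2 (fun x hx => ?_) h
      have := hx.1
      rw [hBK] at this
      exact this.1
    refine ⟨by rw [hBK]; exact ⟨h2, h1, hc⟩, fun h3 => ?_⟩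
    obtain ⟨c', h4, h5⟩ := ((mem_closure_iff_frequently.1 h).and_eventually (hLop c h3)).exists
    exact h4.2 (h5 (hB₂M h4))
  have hB₂empty : ¬ B₂.Nonempty := by
    intro hne
    have hc₀cl : c₀ ∈ closure B₂ := conn_lemma hB.conn.isPreconnected hne hB₂M hc₀M
      (fun h => hc₀B h.1) hB₂op hB₂cl
    -- the scale
    set M₁ : ℝ := 2 * n * Real.log 2 * q with hM₁
    have hM₁0 : 0 < M₁ := by positivity
    -- choose `ε`
    obtain ⟨ε, hε, hε2, hεs⟩ : ∃ ε : ℝ, 0 < ε ∧ ε ≤ ε₂ ∧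
        (M₁ + 2 * Real.pi) * (ε + √(2 * n * Real.log 2 * ε)) < ε₂ := by
      have h1 : Tendsto (fun ε : ℝ => (M₁ + 2 * Real.pi) * (ε + √(2 * n * Real.log 2 * ε))) (𝓝[>] 0)
          (𝓝 ((M₁ + 2 * Real.pi) * (0 + √(2 * n * Real.log 2 * 0)))) := by
        have : Continuous (fun ε : ℝ => (M₁ + 2 * Real.pi) * (ε + √(2 * n * Real.log 2 * ε))) := by
          fun_prop
        exact (this.tendsto 0).mono_left nhdsWithin_le_nhds
      rw [mul_zero, Real.sqrt_zero, add_zero, mul_zero] at h1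
      have h2 := h1.eventually (gt_mem_nhds hε₂)
      have h3 : ∀ᶠ ε : ℝ in 𝓝[>] 0, 0 < ε := self_mem_nhdsWithin
      have h4 : ∀ᶠ ε : ℝ in 𝓝[>] 0, ε ≤ ε₂ := nhdsWithin_le_nhds (ge_mem_nhds hε₂)
      obtain ⟨ε, h5, h6, h7⟩ := (h2.and (h3.and h4)).exists
      exact ⟨ε, h6, h7, h5⟩
    -- a point of `B₂` near `c₀`
    have himg : ψ '' ball s₀ ε ∈ 𝓝 c₀ := by
      have hA : AnalyticAt ℂ ψ s₀ := hψ.analyticAt (hDo.mem_nhds hs₀D)
      have hle : 𝓝 (ψ s₀) ≤ map ψ (𝓝 s₀) := by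
        rcases hA.eventually_constant_or_nhds_le_map_nhds with h | h
        · exfalso
          apply hd s₀ hs₀D
          have : ψ =ᶠ[𝓝 s₀] fun _ => ψ s₀ := h
          rw [this.deriv_eq]
          simp
        · exact h
      rw [hψ0] at hle
      exact hle (image_mem_map (ball_mem_nhds s₀ hε))
    obtain ⟨c₁, hc₁, s, hs, hsc⟩ := ((mem_closure_iff_frequently.1 hc₀cl).and_eventually himg).exists
    have hsε₂ : s ∈ ball s₀ ε₂ := ball_subset_ball hε2 hs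
    have hsD : s ∈ D := hε₂D hsε₂
    have hsM : ψ s ∈ MM := by rw [hsc]; exact hB₂M hc₁
    have hss : ‖s - s₀‖ < ε := by rw [← dist_eq_norm]; exact hs
    -- points of `B₂` on the imaginary axis are impossible
    have haxis : ∀ s' ∈ ball s₀ ε₂, s'.re = 0 → ψ s' ∉ B₂ := by
      intro s' hs' hre hB
      have h1 := hB₂op _ hB
      have h2 : Tendsto (fun τ : ℝ => s' - (τ : ℂ)) (𝓝[>] 0) (𝓝 s') := by
        have : Continuous fun τ : ℝ => s' - (τ : ℂ) := by fun_prop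
        have h3 := this.tendsto 0
        rw [ofReal_zero, sub_zero] at h3
        exact h3.mono_left nhdsWithin_le_nhds
      have h4 : ∀ᶠ τ : ℝ in 𝓝[>] 0, ψ (s' - τ) ∈ MM → ψ (s' - τ) ∈ B₂ :=
        ((hψc s' (hε₂D hs')).tendsto.comp h2).eventually h1
      have h5 : ∀ᶠ τ : ℝ in 𝓝[>] 0, s' - (τ : ℂ) ∈ ball s₀ ε₂ :=
        h2.eventually (isOpen_ball.mem_nhds hs')
      have h6 : ∀ᶠ τ : ℝ in 𝓝[>] 0, 0 < τ := self_mem_nhdsWithin
      obtain ⟨τ, g1, g2, g3⟩ := (h4.and (h5.and h6)).exists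
      obtain ⟨k1, k2⟩ := hneg _ g2 (by
        rw [sub_re, hre, ofReal_re]
        have : (0 : ℝ) < τ := g3
        linarith)
      exact k2 (g1 k1).1
    rcases lt_trichotomy s.re 0 with hre | hre | hre
    · exact (hneg s hsε₂ hre).2 (by rw [hsc]; exact hc₁.1)
    · exact haxis s hsε₂ hre (by rw [hsc]; exact hc₁)
    · -- the class of `s`
      set v : ℝ := cl (X s) with hv
      have hsE : s ∈ E v := ⟨⟨hsD, hre⟩, hsM, rfl⟩
      have hvt : v ≠ t := by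
        intro h
        apply hc₁.2
        rw [← hsc, ← h]
        exact ⟨s, hsE, rfl⟩
      obtain ⟨p₁, q₁, hq₁, h4, h5⟩ := (hcl (X s) (hX2 s ⟨hsD, hre⟩) hsM).1
      set sv : ℂ := tpi * (v : ℂ) with hsv
      have hsvre : sv.re = 0 := by rw [hsv, _root_.mul_comm, real_mul_tpi_re]
      have hsre : s.re ≤ ε := by
        have h3 : (s - s₀).re = s.re := by rw [sub_re, hs₀re, sub_zero]
        rw [← h3]
        exact ((le_abs_self _).trans (abs_re_le_norm _)).trans hss.le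
      -- `v` is close to `t`
      have hsvd : ‖s - sv‖ ≤ √(2 * n * Real.log 2 * ε) := by
        apply Real.le_sqrt_of_sq_le
        have hq₁' : (1 : ℝ) ≤ q₁ := by exact_mod_cast hq₁
        calc ‖s - sv‖ ^ 2 ≤ 2 * n * Real.log 2 / q₁ * s.re := h5
          _ ≤ 2 * n * Real.log 2 * s.re := by
              gcongr
              exact div_le_self (by positivity) hq₁'
          _ ≤ 2 * n * Real.log 2 * ε := by gcongr
      set Δ : ℝ := ε + √(2 * n * Real.log 2 * ε) with hΔ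
      have hΔ0 : 0 ≤ Δ := by positivity
      have hsvs₀ : ‖sv - s₀‖ ≤ Δ := by
        calc ‖sv - s₀‖ = ‖(s - s₀) - (s - sv)‖ := by congr 1; ring
          _ ≤ ‖s - s₀‖ + ‖s - sv‖ := norm_sub_le _ _
          _ ≤ Δ := by rw [hΔ]; linarith
      have hvtabs : |v - t| ≤ Δ := by
        have h6 : sv - s₀ = ((v - t : ℝ) : ℂ) * tpi := by
          rw [hsv, hs₀]
          push_cast
          ring
        rw [h6, norm_mul, norm_tpi, norm_real, Real.norm_eq_abs] at hsvs₀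
        have := Real.pi_gt_three
        nlinarith [abs_nonneg (v - t)]
      -- the horodisc of `v`
      set ρv : ℝ := n * Real.log 2 * (q * Δ) with hρv
      have hEvb : ∀ s' ∈ E v, ‖s' - sv‖ ^ 2 ≤ 2 * ρv * s'.re := by
        rintro s' ⟨g1, g2, g3⟩
        obtain ⟨p', q', hq', g4, g5⟩ := (hcl (X s') (hX2 s' g1) g2).1
        rw [g3] at g4 g5
        have g6 : 1 / (q' : ℝ) ≤ q * |v - t| := by
          have := frac_close hq hq' (p := p) (p' := p') (by rw [← g4, ← htdef]; exact hvt)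
          rw [← g4, ← htdef] at this
          exact this
        have g7 : (0 : ℝ) < s'.re := g1.2
        calc ‖s' - sv‖ ^ 2 ≤ 2 * n * Real.log 2 / q' * s'.re := g5
          _ = 2 * n * Real.log 2 * (1 / q') * s'.re := by ring
          _ ≤ 2 * n * Real.log 2 * (q * |v - t|) * s'.re := by gcongr
          _ ≤ 2 * n * Real.log 2 * (q * Δ) * s'.re := by gcongr
          _ = 2 * ρv * s'.re := by rw [hρv]; ring
      have h2ρv : 2 * ρv = M₁ * Δ := by rw [hρv, hM₁]; ring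
      have hbig : 2 * ρv + Δ < ε₂ := by
        rw [h2ρv]
        have h6 : 1 ≤ 2 * Real.pi := by have := Real.pi_gt_three; linarith
        calc M₁ * Δ + Δ = (M₁ + 1) * Δ := by ring
          _ ≤ (M₁ + 2 * Real.pi) * Δ := by gcongr
          _ < ε₂ := hεs
      have hballv : closedBall sv (2 * ρv) ⊆ ball s₀ ε₂ := by
        intro x hx
        rw [mem_closedBall, dist_eq_norm] at hx
        rw [mem_ball, dist_eq_norm]
        calc ‖x - s₀‖ = ‖(x - sv) + (sv - s₀)‖ := by congr 1; ring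
          _ ≤ _ := norm_add_le _ _
          _ < ε₂ := by linarith
      obtain ⟨hVop, hVcl, hV2⟩ := image_class hDo hψ hd (fun s hs => hs.1) hEvb
        (hballv.trans hε₂D) hsvre (hEop v) (hEcl v)
      have hρv0 : 0 ≤ 2 * ρv := by rw [h2ρv]; positivity
      have hsvball : sv ∈ ball s₀ ε₂ := hballv (mem_closedBall_self hρv0)
      have hε₂ε₁ : ball s₀ ε₂ ⊆ ball s₀ ε₁ := ball_subset_ball hε₂1
      -- `c₀` is not in the closure of the image of the class `v`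
      have hs₀ε₁ : s₀ ∈ ball s₀ ε₁ := mem_ball_self hε₁
      have hsvne : sv ≠ s₀ := by
        intro h
        apply hvt
        rw [hsv, hs₀] at h
        have := mul_left_cancel₀ tpi_ne h
        exact_mod_cast this
      have hc₀V : c₀ ∉ closure (ψ '' E v) := by
        intro h
        rcases hVcl h with h6 | ⟨s', h6, h7⟩
        · rw [← hψ0] at h6
          exact hsvne (hinj (hε₂ε₁ hsvball) hs₀ε₁ h6.symm)
        · rw [← hψ0] at h7
          have h8 := hinj (hε₂ε₁ (hballv (hV2 h6))) hs₀ε₁ h7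
          have h9 : 0 < s'.re := h6.1.2
          rw [h8, hs₀re] at h9
          exact lt_irrefl _ h9
      set B₃ : Set ℂ := B₂ ∩ ψ '' E v with hB₃
      have hB₃ne : B₃.Nonempty := ⟨c₁, hc₁, s, hsE, hsc⟩
      have hB₃op : ∀ c ∈ B₃, ∀ᶠ c' in 𝓝 c, c' ∈ MM → c' ∈ B₃ := by
        rintro c ⟨h6, h7⟩
        filter_upwards [hB₂op c h6, hVop c h7] with c' g1 g2 g3
        exact ⟨g1 g3, g2 g3⟩
      have hB₃cl : closure B₃ ⊆ insert (ψ sv) B₃ := by
        intro c h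
        have h6 : c ∈ closure B₂ := closure_mono inter_subset_left h
        have h7 : c ∈ closure (ψ '' E v) := closure_mono inter_subset_right h
        rcases hVcl h7 with h8 | h8
        · exact Or.inl h8
        · rcases hB₂cl h6 with h9 | h9
          · exact absurd (h9 ▸ h7) hc₀V
          · exact Or.inr ⟨h9, h8⟩
      have h6 : ψ sv ∈ closure B₃ := conn_lemma hB.conn.isPreconnected hB₃ne
        (fun c h => hB₂M h.1) hc₀M (fun h => hc₀B h.1.1) hB₃op hB₃cl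
      have h7 : ψ sv ∈ closure B₂ := closure_mono inter_subset_left h6
      have h8 : ψ sv ≠ c₀ := by
        intro h
        rw [← hψ0] at h
        exact hsvne (hinj (hε₂ε₁ hsvball) hs₀ε₁ h)
      rcases hB₂cl h7 with h9 | h9
      · exact h8 h9
      · exact haxis sv hsvball hsvre h9
  -- conclusion
  have hcE : c ∈ ψ '' E t := by
    by_contra h
    exact hB₂empty ⟨c, hcB, h⟩
  obtain ⟨s, hsE, rfl⟩ := hcE
  have hs1 : dist s s₀ ≤ 2 * ρ := hE2 hsE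
  refine ⟨s, ?_, rfl⟩
  rw [dist_eq_norm] at hs1
  refine hs1.trans (le_of_eq ?_)
  rw [hρ]
  ring

end Pool.Agent.KS6_23.ML.LIMB2
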