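import Pool.Agent.KS6_23.ML.ALL

set_option autoImplicit false

/-! # Project ML: local connectivity at the points of small limbs -/

open Complex Set Filter Metric Topology MeasureTheory

namespace Pool.Agent.KS6_23.ML.MLC

open Pool.Agent.KS6_23.ML Pool.Agent.KS6_23.ML.Basic

theorem conn_MM : IsConnected MM := by
  obtain ⟨G, B₀, cc, hB⟩ := ALL.base
  exact hB.conn

theorem root_mem {n : ℕ} (hn : 1 ≤ n) {t : ℝ} {c₁ z₁ : ℂ} {B : Set ℂ} (hL : Limb n t c₁ z₁ B) :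
    c₁ ∈ MM := by
  refine (FRO.fro n c₁ z₁ hn hL.fix ?_).1
  rw [hL.mlt, norm_exp, _root_.mul_comm, real_mul_tpi_re, Real.exp_zero]

theorem limb_open {n : ℕ} {t : ℝ} {c₁ z₁ : ℂ} {B : Set ℂ} (hL : Limb n t c₁ z₁ B) :
    ∀ c ∈ B, ∀ᶠ c' in 𝓝 c, c' ∈ MM → c' ∈ B := by
  intro c hc
  obtain ⟨O, hO, hBO⟩ := hL.opn
  have h1 := hL.sub hc
  have h2 : c ∈ O := by
    rw [hBO] at hc
    exact hc.1
  filter_upwards [hO.mem_nhds h2, isOpen_ne.mem_nhds (fun h => h1.2 h : c ≠ c₁)] with c' g1 g2 g3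
  rw [hBO]
  exact ⟨g1, g3, g2⟩

theorem limb_closed {n : ℕ} {t : ℝ} {c₁ z₁ : ℂ} {B : Set ℂ} (hL : Limb n t c₁ z₁ B) :
    closure B ⊆ insert c₁ B := by
  intro c hc
  obtain ⟨K, hK, hBK⟩ := hL.cls
  obtain ⟨G, B₀, cc, hB⟩ := ALL.base
  have hM : IsClosed MM := MM_closed hB
  have h1 : c ∈ K := by
    have : B ⊆ K := by rw [hBK]; exact inter_subset_left
    exact (closure_minimal this hK) hc
  have h2 : c ∈ MM := (closure_minimal (fun c h => (hL.sub h).1) hM) hc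
  by_cases h : c = c₁
  · exact Or.inl h
  · right
    rw [hBK]
    exact ⟨h1, h2, h⟩

/-- a limb with its root is connected -/
theorem limb_conn {n : ℕ} (hn : 1 ≤ n) {t : ℝ} {c₁ z₁ : ℂ} {B : Set ℂ} (hL : Limb n t c₁ z₁ B) :
    IsConnected (insert c₁ B) := by
  refine ⟨⟨c₁, mem_insert _ _⟩, ?_⟩
  have hc₁ : c₁ ∈ MM := root_mem hn hL
  have hc₁B : c₁ ∉ B := fun h => (hL.sub h).2 rfl
  have key : ∀ u v : Set ℂ, IsOpen u → IsOpen v → insert c₁ B ⊆ u ∪ v → c₁ ∈ u →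
      (insert c₁ B ∩ v).Nonempty → (insert c₁ B ∩ (u ∩ v)).Nonempty := by
    intro u v hu hv huv h1 h2
    by_contra hne
    rw [not_nonempty_iff_eq_empty] at hne
    have hdis : ∀ x ∈ insert c₁ B, x ∈ u → x ∉ v := by
      intro x hx hxu hxv
      have : x ∈ insert c₁ B ∩ (u ∩ v) := ⟨hx, hxu, hxv⟩
      rw [hne] at this
      exact this
    set A : Set ℂ := B ∩ v with hA
    have hAne : A.Nonempty := by
      obtain ⟨x, hx, hxv⟩ := h2
      rcases hx with h | h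
      · exact absurd (h ▸ hxv) (hdis c₁ (mem_insert _ _) h1)
      · exact ⟨x, h, hxv⟩
    have hAcl : closure A ⊆ insert c₁ A := by
      intro x hx
      have h3 : x ∈ insert c₁ B := limb_closed hL (closure_mono inter_subset_left hx)
      rcases h3 with h | h
      · exact Or.inl h
      · right
        refine ⟨h, ?_⟩
        rcases huv (Or.inr h) with h4 | h4
        · exfalso
          obtain ⟨y, hy1, hy2⟩ := mem_closure_iff.1 hx u hu h4
          exact hdis y (Or.inr hy2.1) hy1 hy2.2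
        · exact h4
    have h3 : c₁ ∈ closure A := by
      refine LIMB.conn_lemma conn_MM.isPreconnected hAne (fun x hx => (hL.sub hx.1).1) hc₁
        (fun h => hc₁B h.1) ?_ hAcl
      intro c hc
      filter_upwards [limb_open hL c hc.1, hv.mem_nhds hc.2] with c' g1 g2 g3
      exact ⟨g1 g3, g2⟩
    obtain ⟨y, hy1, hy2⟩ := mem_closure_iff.1 h3 u hu h1
    exact hdis y (Or.inr hy2.1) hy1 hy2.2
  intro u v hu hv huv hnu hnv
  rcases huv (mem_insert c₁ B) with h | h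
  · exact key u v hu hv huv h hnv
  · have := key v u hv hu (by rwa [union_comm]) h hnu
    rwa [inter_comm v u] at this

/-- hyperbolic parameters near the roots -/
theorem hyp_near {n : ℕ} (hn : 1 ≤ n) {t : ℝ} (ht : dZ t ≠ 0) {c₁ z₁ : ℂ}
    (hf : (f c₁)^[n] z₁ = z₁) (hm : mul n c₁ z₁ = exp (tpi * t)) :
    c₁ ∈ closure {c : ℂ | ∃ (m : ℕ) (z : ℂ), 1 ≤ m ∧ (f c)^[m] z = z ∧ ‖mul m c z‖ < 1} := by
  obtain ⟨κ₀, hκ0, hκ1, hext⟩ := ALL.ext
  obtain ⟨ψ, ζ, hψ, hζ, h1, h2, h3⟩ := hext n t hn ht c₁ z₁ hf hm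
  have hr := UNR.rad_pos hκ0 (t := t) ht hn
  have hD : DD κ₀ n t ∈ 𝓝 (tpi * (t : ℂ)) := ball_mem_nhds _ hr
  have hc : ContinuousAt ψ (tpi * t) := (hψ.differentiableAt hD).continuousAt
  have hlim : Tendsto (fun x : ℝ => tpi * (t : ℂ) - (x : ℂ)) (𝓝[>] 0) (𝓝 (tpi * t)) := by
    have : Tendsto (fun x : ℝ => tpi * (t : ℂ) - (x : ℂ)) (𝓝 0) (𝓝 (tpi * t - ((0 : ℝ) : ℂ))) :=
      tendsto_const_nhds.sub (Complex.continuous_ofReal.tendsto 0)
    rw [ofReal_zero, sub_zero] at this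
    exact this.mono_left nhdsWithin_le_nhds
  have h4 : Tendsto (fun x : ℝ => ψ (tpi * (t : ℂ) - (x : ℂ))) (𝓝[>] 0) (𝓝 c₁) := by
    rw [← h1]
    exact hc.tendsto.comp hlim
  refine mem_closure_of_tendsto h4 ?_
  filter_upwards [hlim.eventually hD, self_mem_nhdsWithin] with x hx hx0
  obtain ⟨⟨_, g1, g2⟩, _⟩ := h3 _ hx
  refine ⟨n, _, hn, g1, ?_⟩
  rw [g2, norm_exp]
  apply Real.exp_lt_one_iff.2
  have : (tpi * (t : ℂ) - (x : ℂ)).re = -x := by
    rw [sub_re, _root_.mul_comm, real_mul_tpi_re, ofReal_re, zero_sub]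
  simp only
  rw [this]
  have : (0 : ℝ) < x := hx0
  linarith

/-- local connectivity at the points of arbitrarily small limbs -/
theorem lc {c₀ : ℂ} (h : ∀ ε : ℝ, 0 < ε → ∃ (n : ℕ) (t : ℝ) (c₁ z₁ : ℂ) (B : Set ℂ), 1 ≤ n ∧
    dZ t ≠ 0 ∧ Limb n t c₁ z₁ B ∧ c₀ ∈ B ∧ ∀ c ∈ B, ‖c - c₁‖ ≤ ε) :
    (∀ U ∈ 𝓝 c₀, ∃ V ⊆ U ∩ MM, IsConnected V ∧ V ∈ 𝓝[MM] c₀) ∧
      c₀ ∈ closure {c : ℂ | ∃ (m : ℕ) (z : ℂ), 1 ≤ m ∧ (f c)^[m] z = z ∧ ‖mul m c z‖ < 1} := by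
  constructor
  · intro U hU
    obtain ⟨ε, hε, hb⟩ := Metric.mem_nhds_iff.1 hU
    obtain ⟨n, t, c₁, z₁, B, hn, ht, hL, hcB, hs⟩ := h (ε / 4) (by positivity)
    refine ⟨insert c₁ B, ?_, limb_conn hn hL, ?_⟩
    · have h0 := hs c₀ hcB
      have key : ∀ x, ‖x - c₁‖ ≤ ε / 4 → x ∈ U := by
        intro x hx
        apply hb
        rw [mem_ball, dist_eq_norm]
        have : x - c₀ = (x - c₁) - (c₀ - c₁) := by ring
        rw [this]
        refine lt_of_le_of_lt (norm_sub_le _ _) ?_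
        linarith
      rintro x (rfl | hx)
      · exact ⟨key _ (by simp; positivity), root_mem hn hL⟩
      · exact ⟨key _ (hs x hx), (hL.sub hx).1⟩
    · rw [mem_nhdsWithin_iff_eventually]
      filter_upwards [limb_open hL c₀ hcB] with x hx hxM
      exact Or.inr (hx hxM)
  · rw [Metric.mem_closure_iff]
    intro ε hε
    obtain ⟨n, t, c₁, z₁, B, hn, ht, hL, hcB, hs⟩ := h (ε / 2) (by positivity)
    obtain ⟨c, hc, hd⟩ := Metric.mem_closure_iff.1 (hyp_near hn ht hL.fix hL.mlt) (ε / 2)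
      (by positivity)
    refine ⟨c, hc, ?_⟩
    have h0 := hs c₀ hcB
    rw [← dist_eq_norm] at h0
    calc dist c₀ c ≤ dist c₀ c₁ + dist c₁ c := dist_triangle _ _ _
      _ < ε := by linarith

end Pool.Agent.KS6_23.ML.MLC
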