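import Pool.Agent.KS6_23.ML.Stm3
import Pool.Agent.KS6_23.ML.LIMB

set_option autoImplicit false

/-! # Project ML: the limbs are nested -/

open Complex Set Filter Metric Topology MeasureTheory

namespace Pool.Agent.KS6_23.ML.NEST

open Pool.Agent.KS6_23.ML Pool.Agent.KS6_23.ML.Basic

/-- the Mandelbrot set contains zero -/
theorem zero_mem {G : ℂ → ℂ → ℝ} {B : ℂ → ℂ → ℂ} {cc : ℂ → ℂ} (hB : Base G B cc) :
    (0 : ℂ) ∈ MM := by
  rw [← hB.gM, hB.gzero]
  refine ⟨0, fun k => ?_⟩
  have : (f 0)^[k] 0 = 0 := by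
    induction k with
    | zero => rfl
    | succ k ih => rw [Function.iterate_succ_apply', ih]; simp [f]
  rw [this, norm_zero]

/-- a nonempty set which is open and closed in `M` is `M` -/
theorem clopen (hc : IsPreconnected MM) {A : Set ℂ} (hne : A.Nonempty) (hA : A ⊆ MM)
    (hop : ∀ c ∈ A, ∀ᶠ c' in 𝓝 c, c' ∈ MM → c' ∈ A) (hcl : closure A ⊆ A) : MM ⊆ A := by
  intro m hm
  by_contra hmA
  exact hmA (hcl (LIMB.conn_lemma hc hne hA hm hmA hop (hcl.trans (subset_insert _ _))))

theorem not_near {A : Set ℂ} {c : ℂ} (h : c ∉ closure A) : ∀ᶠ c' in 𝓝 c, c' ∉ A := by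
  have := isClosed_closure.isOpen_compl.mem_nhds (x := c) (s := (closure A)ᶜ) h
  filter_upwards [this] with c' hc' h2 using hc' (subset_closure h2)

/-- nested limbs: the first one may contain zero -/
theorem nest_sub {G : ℂ → ℂ → ℝ} {B₀ : ℂ → ℂ → ℂ} {cc : ℂ → ℂ} (hB : Base G B₀ cc) {a b : ℂ}
    {A B : Set ℂ} (hb : b ∈ A) (hA : Clo a A) (hBB : Clo b B) (h0B : (0 : ℂ) ∉ B) (haB : a ∉ B) :
    B ⊆ A := by
  have hBM : B ⊆ MM := fun x hx => (hBB.sub hx).1
  by_contra hns
  obtain ⟨x, hxB, hxA⟩ := not_subset.1 hns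
  have h1 : MM ⊆ B \ A := by
    refine clopen hB.conn.isPreconnected ⟨x, hxB, hxA⟩ (fun y hy => hBM hy.1) ?_ ?_
    · rintro c ⟨hc, hcn⟩
      have hcA : c ∉ closure A := fun h => by
        rcases hA.cls h with h2 | h2
        · exact haB (h2 ▸ hc)
        · exact hcn h2
      filter_upwards [not_near hcA, hBB.opn c hc] with c' g1 g2 g3
      exact ⟨g2 g3, g1⟩
    · intro c hc
      have key : c ∉ A := by
        intro hcA
        obtain ⟨c', g1, g2⟩ := ((mem_closure_iff_frequently.1 hc).and_eventually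
          (hA.opn c hcA)).exists
        exact g1.2 (g2 (hBM g1.1))
      refine ⟨?_, key⟩
      rcases hBB.cls (closure_mono sdiff_subset hc) with h2 | h2
      · exact absurd (h2 ▸ hb) key
      · exact h2
  exact h0B (h1 (zero_mem hB)).1

theorem nest (hBase : S_BASE) : S_NEST := by
  obtain ⟨G, B₀, cc, hB⟩ := hBase
  have hMc : IsClosed MM := MM_closed hB
  have hconn : IsPreconnected MM := hB.conn.isPreconnected
  have h0 : (0 : ℂ) ∈ MM := zero_mem hB
  intro a b A B ha hb hA hBB h0A h0B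
  have hAM : A ⊆ MM := fun x hx => (hA.sub hx).1
  have hBM : B ⊆ MM := fun x hx => (hBB.sub hx).1
  -- `a` is not in `B`
  have haB : a ∉ B := by
    intro haB
    set R : Set ℂ := MM \ (A ∪ B) with hR
    have h1 : MM ⊆ R := by
      refine clopen hconn ⟨0, h0, fun h => h.elim h0A h0B⟩ (fun x hx => hx.1) ?_ ?_
      · rintro c ⟨hc, hcn⟩
        have hcA : c ∉ closure A := fun h => by
          rcases hA.cls h with h2 | h2
          · exact hcn (Or.inr (h2 ▸ haB))
          · exact hcn (Or.inl h2)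
        have hcB : c ∉ closure B := fun h => by
          rcases hBB.cls h with h2 | h2
          · exact hcn (Or.inl (h2 ▸ hb))
          · exact hcn (Or.inr h2)
        filter_upwards [not_near hcA, not_near hcB] with c' g1 g2 g3
        exact ⟨g3, fun h => h.elim g1 g2⟩
      · intro c hc
        have hcM : c ∈ MM := closure_minimal (fun x hx => hx.1) hMc hc
        refine ⟨hcM, fun h => ?_⟩
        have h2 : ∀ᶠ c' in 𝓝 c, c' ∈ MM → c' ∈ A ∪ B := by
          rcases h with h | h
          · filter_upwards [hA.opn c h] with c' g1 g2 using Or.inl (g1 g2)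
          · filter_upwards [hBB.opn c h] with c' g1 g2 using Or.inr (g1 g2)
        obtain ⟨c', g1, g2⟩ := ((mem_closure_iff_frequently.1 hc).and_eventually h2).exists
        exact g1.2 (g2 g1.1)
    exact (h1 (hAM hb)).2 (Or.inl hb)
  have hsub : B ⊆ A := nest_sub hB hb hA hBB h0B haB
  refine ⟨hsub, fun c hc => ?_⟩
  rcases hBB.cls hc with h2 | h2
  · exact h2 ▸ hb
  · exact hsub h2

end Pool.Agent.KS6_23.ML.NEST
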