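import Pool.Agent.KS6_23.ML.REL
import Pool.Agent.KS6_23.ML.LIMB2
import Pool.Agent.KS6_23.ML.NEST
import Pool.Agent.KS6_23.ML.MLC

set_option autoImplicit false

/-! # Project ML, stage 2: local connectivity at the points of infinitely many limbs -/

open Complex Set Filter Metric Topology MeasureTheory

namespace Pool.Agent.KS6_23.ML.MLCR

open Pool.Agent.KS6_23.ML Pool.Agent.KS6_23.ML.Basic Pool.Agent.KS6_23.ML.LabC
open Pool.Agent.KS6_23.ML.Curve Pool.Agent.KS6_23.ML.UNR Pool.Agent.KS6_23.ML.LIMB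
open Pool.Agent.KS6_23.ML.LIMB2 Pool.Agent.KS6_23.ML.REL Pool.Agent.KS6_23.ML.MLC

/-- the hyperbolic component at an indifferent parameter -/
theorem comp (hE : S_EXL) {n : ℕ} (hn : 1 ≤ n) {t : ℝ} (ht : dZ t ≠ 0) {c z : ℂ}
    (hf : (f c)^[n] z = z) (hm : mul n c z = exp (tpi * t)) :
    ∃ (V : Set ℂ) (a za : ℂ), IsOpen V ∧ IsPreconnected V ∧
      (∀ c ∈ V, ∃ z, (f c)^[n] z = z ∧ ‖mul n c z‖ < 1) ∧
      (∀ δ : ℝ, 0 < δ → ∃ c' ∈ V, ∃ z', ‖c' - c‖ < δ ∧ ‖z' - z‖ < δ ∧ (f c')^[n] z' = z' ∧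
        ‖mul n c' z'‖ < 1) ∧ a ∈ V ∧ (f a)^[n] za = za ∧ ‖mul n a za‖ ≤ 1 / 2 := by
  obtain ⟨κ, hκ, hκ1, hexl⟩ := hE
  obtain ⟨ψ, ζ, hP⟩ := hexl n t hn ht c z hf hm
  have hrp := UNR.rad_pos hκ (t := t) ht hn
  set s₀ : ℂ := tpi * (t : ℂ) with hs₀
  have hs₀re : s₀.re = 0 := by rw [hs₀, _root_.mul_comm, real_mul_tpi_re]
  have hs0 : s₀ ∈ DL κ n t := DD_DL κ n t (mem_ball_self hrp)
  set L : Set ℂ := DL κ n t ∩ {s : ℂ | s.re < 0} with hL
  have hLo : IsOpen L := (DL_open κ n t).inter (isOpen_lt continuous_re continuous_const)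
  have hLc : IsPreconnected L :=
    ((DL_convex κ n t).inter (convex_halfSpace_re_lt 0)).isPreconnected
  have hmem : ∀ x : ℝ, 0 ≤ x → s₀ - (x : ℂ) ∈ DL κ n t := by
    intro x hx
    refine ⟨x, hx, ?_⟩
    rw [sub_add_cancel]
    exact mem_ball_self hrp
  have hatt : ∀ s ∈ L, (f (ψ s))^[n] (ζ s) = ζ s ∧ ‖mul n (ψ s) (ζ s)‖ = Real.exp s.re := by
    rintro s ⟨h1, h2⟩
    have h3 := (hP.mem s h1).2
    exact ⟨h3.1, by rw [h3.2, norm_exp]⟩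
  have hone : s₀ - ((1 : ℝ) : ℂ) ∈ L := by
    refine ⟨hmem 1 zero_le_one, ?_⟩
    change (s₀ - ((1 : ℝ) : ℂ)).re < 0
    rw [sub_re, hs₀re, ofReal_re]
    norm_num
  refine ⟨ψ '' L, ψ (s₀ - ((1 : ℝ) : ℂ)), ζ (s₀ - ((1 : ℝ) : ℂ)), ?_, ?_, ?_, ?_,
    mem_image_of_mem _ hone, (hatt _ hone).1, ?_⟩
  · rw [isOpen_iff_mem_nhds]
    rintro _ ⟨s, hs, rfl⟩
    exact REL.psi_open hP hs.1 (hLo.mem_nhds hs)
  · exact hLc.image ψ (hP.dψ.continuousOn.mono inter_subset_left)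
  · rintro _ ⟨s, hs, rfl⟩
    obtain ⟨h1, h2⟩ := hatt s hs
    exact ⟨ζ s, h1, by rw [h2]; exact Real.exp_lt_one_iff.2 hs.2⟩
  · intro δ hδ
    have hDn : DL κ n t ∈ 𝓝 s₀ := (DL_open κ n t).mem_nhds hs0
    have hψc : ContinuousAt ψ s₀ := (hP.dψ.differentiableAt hDn).continuousAt
    have hζc : ContinuousAt ζ s₀ := (hP.dζ.differentiableAt hDn).continuousAt
    have hlim : Tendsto (fun x : ℝ => s₀ - (x : ℂ)) (𝓝[>] 0) (𝓝 s₀) := by
      have : Continuous fun x : ℝ => s₀ - (x : ℂ) := by fun_prop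
      have h3 := this.tendsto 0
      rw [ofReal_zero, sub_zero] at h3
      exact h3.mono_left nhdsWithin_le_nhds
    have e1 := (hψc.tendsto.comp hlim).eventually (ball_mem_nhds _ hδ)
    have e2 := (hζc.tendsto.comp hlim).eventually (ball_mem_nhds _ hδ)
    have e3 : ∀ᶠ x : ℝ in 𝓝[>] 0, 0 < x := self_mem_nhdsWithin
    obtain ⟨x, g1, g2, g3⟩ := (e1.and (e2.and e3)).exists
    have hx : s₀ - (x : ℂ) ∈ L := by
      refine ⟨hmem x g3.le, ?_⟩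
      change (s₀ - (x : ℂ)).re < 0
      rw [sub_re, hs₀re, ofReal_re]
      linarith
    refine ⟨_, mem_image_of_mem _ hx, ζ (s₀ - (x : ℂ)), ?_, ?_, (hatt _ hx).1, ?_⟩
    · have := g1
      rw [hP.ψ0, dist_eq_norm] at this
      exact this
    · have := g2
      rw [hP.ζ0, dist_eq_norm] at this
      exact this
    · rw [(hatt _ hx).2]
      exact Real.exp_lt_one_iff.2 hx.2
  · rw [(hatt _ hone).2]
    have e1 : (s₀ - ((1 : ℝ) : ℂ)).re = -1 := by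
      rw [sub_re, hs₀re, ofReal_re]
      norm_num
    rw [e1]
    have h2 : (2 : ℝ) ≤ Real.exp 1 := by
      have := Real.add_one_le_exp (1 : ℝ)
      linarith
    rw [Real.exp_neg]
    rw [inv_le_comm₀ (Real.exp_pos 1) (by norm_num)]
    linarith

/-- two limbs with a common point, without `0` -/
theorem dich {a b : ℂ} {A B : Set ℂ} (hab : a ≠ b) (hA : Clo a A) (hB : Clo b B)
    (h0 : (0 : ℂ) ∈ MM) (h0A : (0 : ℂ) ∉ A) (hne : (A ∩ B).Nonempty) : b ∈ A ∨ a ∈ B := by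
  by_contra hcon
  push Not at hcon
  have h1 : MM ⊆ A ∩ B := by
    refine NEST.clopen conn_MM.isPreconnected hne (fun x hx => (hA.sub hx.1).1) ?_ ?_
    · rintro c ⟨g1, g2⟩
      filter_upwards [hA.opn c g1, hB.opn c g2] with c' k1 k2 k3
      exact ⟨k1 k3, k2 k3⟩
    · intro c hc
      have g1 := hA.cls (closure_mono inter_subset_left hc)
      have g2 := hB.cls (closure_mono inter_subset_right hc)
      rcases g1 with g1 | g1 <;> rcases g2 with g2 | g2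
      · exact absurd (g1.symm.trans g2) hab
      · exact absurd (g1 ▸ g2) hcon.2
      · exact absurd (g2 ▸ g1) hcon.1
      · exact ⟨g1, g2⟩
  exact h0A (h1 h0).1

/-- the root is a limit of the limb -/
theorem root_closure {a : ℂ} {A : Set ℂ} (hA : Clo a A) (h0 : (0 : ℂ) ∈ MM) (h0A : (0 : ℂ) ∉ A)
    (hne : A.Nonempty) : a ∈ closure A :=
  LIMB.conn_lemma conn_MM.isPreconnected hne (fun x hx => (hA.sub hx).1) h0 h0A hA.opn hA.cls

theorem MM_bdd : Bornology.IsBounded MM := by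
  obtain ⟨G, B₀, cc, hB⟩ := ALL.base
  refine (Metric.isBounded_closedBall (x := (0 : ℂ)) (r := 4)).subset fun c hc => ?_
  rw [mem_closedBall, dist_zero_right]
  have h1 := (hB.gM c).2 hc
  have h2 := hB.gcc c
  rw [h1, zero_add] at h2
  rcases eq_or_ne c 0 with h | h
  · rw [h]; simp
  · have h3 : 0 < ‖c‖ := norm_pos_iff.2 h
    exact (Real.log_le_log_iff h3 (by norm_num)).1 h2

theorem zero_MM : (0 : ℂ) ∈ MM := by
  obtain ⟨G, B₀, cc, hB⟩ := ALL.base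
  exact NEST.zero_mem hB

/-- a parameter with an indifferent cycle, the multiplier is not one, is not interior -/
theorem root_bdry {n : ℕ} (hn : 1 ≤ n) {t : ℝ} (ht : dZ t ≠ 0) {c z : ℂ}
    (hf : (f c)^[n] z = z) (hm : mul n c z = exp (tpi * t)) : c ∈ closure MMᶜ := by
  have h1 : ‖mul n c z‖ = 1 := by
    rw [hm, norm_exp, _root_.mul_comm, real_mul_tpi_re, Real.exp_zero]
  refine (FRO.fro n c z hn hf h1.le).2 h1 ?_
  rw [hm]
  exact exp_ne_one (t := t) (r := dZ t) le_rfl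
    (mem_ball_self (lt_of_le_of_ne (abs_nonneg _) (Ne.symm ht)))

/-- the main step: the next good limb is half as large -/
theorem step (hE : S_EXL) (hR : S_REL) : ∃ C : ℝ, 0 < C ∧ ∀ (n q : ℕ) (p : ℤ) (c₁ z₁ : ℂ)
    (B : Set ℂ) (a : ℂ) (A : Set ℂ), 1 ≤ n → 1 ≤ q → IsCoprime p (q : ℤ) →
    C * n ^ 2 ≤ q * dZ (p / q) ^ 2 → Limb n (p / q) c₁ z₁ B → a ∈ closure MMᶜ → Clo a A →
    c₁ ∈ A → diam B ≤ diam A / 2 := by
  obtain ⟨C, hC, hrel⟩ := hR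
  refine ⟨4 * C, by positivity, ?_⟩
  intro n q p c₁ z₁ B a A hn hq hco hbig hL ha hA hc₁
  set t : ℝ := p / q with ht
  have hn0 : (0 : ℝ) < n := by exact_mod_cast hn
  have hq0 : (0 : ℝ) < q := by exact_mod_cast hq
  have hd0 : dZ t ≠ 0 := by
    intro h
    rw [h] at hbig
    have : 0 < 4 * C * (n : ℝ) ^ 2 := by positivity
    linarith [show (q : ℝ) * 0 ^ 2 = 0 by ring]
  have hdpos : 0 < dZ t := lt_of_le_of_ne (abs_nonneg _) (Ne.symm hd0)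
  obtain ⟨V, b, zb, hVo, hVc, hVa, hVn, hbV, hbf, hbm⟩ := comp hE hn hd0 hL.fix hL.mlt
  have hVM : V ⊆ MM := fun c hc => by
    obtain ⟨z, g1, g2⟩ := hVa c hc
    exact (FRO.fro n c z hn g1 g2.le).1
  -- the component is in `A`
  have hVA : V ⊆ A := by
    have haV : a ∉ V := by
      intro haV
      obtain ⟨x, hx1, hx2⟩ := mem_closure_iff.1 ha V hVo haV
      exact hx2 (hVM hx1)
    have hne : (V ∩ A).Nonempty := by
      obtain ⟨δ, hδ, hb⟩ := Metric.eventually_nhds_iff_ball.1 (hA.opn c₁ hc₁)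
      obtain ⟨c', hc', z', g1, _⟩ := hVn δ hδ
      refine ⟨c', hc', hb c' ?_ (hVM hc')⟩
      rw [mem_ball, dist_eq_norm]
      exact g1
    -- `V` is in the union of an open set and the complement of the closure
    by_contra hns
    obtain ⟨x, hxV, hxA⟩ := not_subset.1 hns
    set u : Set ℂ := interior {c | c ∈ MM → c ∈ A} with hu
    have hVu : V ⊆ u ∪ (closure A)ᶜ := by
      intro y hy
      by_cases h : y ∈ closure A
      · left
        rcases hA.cls h with h2 | h2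
        · exact absurd (h2 ▸ hy) haV
        · exact mem_interior_iff_mem_nhds.2 (hA.opn y h2)
      · exact Or.inr h
    obtain ⟨y, hyV, hyu, hyc⟩ := hVc u (closure A)ᶜ isOpen_interior isClosed_closure.isOpen_compl
      hVu (by
        obtain ⟨y, h1, h2⟩ := hne
        exact ⟨y, h1, mem_interior_iff_mem_nhds.2 (hA.opn y h2)⟩) (by
        refine ⟨x, hxV, fun h => ?_⟩
        rcases hA.cls h with h2 | h2
        · exact haV (h2 ▸ hxV)
        · exact hxA h2)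
    exact hyc (subset_closure (interior_subset hyu (hVM hyV)))
  have hAb : Bornology.IsBounded A := MM_bdd.subset fun x hx => (hA.sub hx).1
  have h1 : ‖b - c₁‖ ≤ diam A := by
    rw [← dist_eq_norm]
    exact dist_le_diam_of_mem hAb (hVA hbV) hc₁
  have h2 : ∀ c ∈ B, ‖c - c₁‖ ≤ diam A / 4 := by
    intro c hc
    have hb2 : C * n ^ 2 ≤ q * dZ t ^ 2 := by nlinarith [mul_pos hC (pow_pos hn0 2)]
    refine (hrel n q p c₁ z₁ B V b zb hn hq hco hd0 hb2 hL hVo hVc hVa hVn hbV hbf hbm c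
      hc).trans ?_
    have h3 : C * n ^ 2 / (q * dZ t ^ 2) ≤ 1 / 4 := by
      rw [div_le_iff₀ (by positivity)]
      linarith
    calc C * n ^ 2 / (q * dZ t ^ 2) * ‖b - c₁‖ ≤ 1 / 4 * diam A := by gcongr
      _ = diam A / 4 := by ring
  refine diam_le_of_forall_dist_le (by positivity) fun x hx y hy => ?_
  rw [dist_eq_norm]
  calc ‖x - y‖ = ‖(x - c₁) - (y - c₁)‖ := by congr 1; ring
    _ ≤ ‖x - c₁‖ + ‖y - c₁‖ := norm_sub_le _ _
    _ ≤ diam A / 4 + diam A / 4 := add_le_add (h2 x hx) (h2 y hy)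
    _ = diam A / 2 := by ring

/-- local connectivity at the points of infinitely many limbs -/
theorem mlcr (hE : S_EXL) (hR : S_REL) (hCan : S_CAN) : ∃ C : ℝ, 0 < C ∧ ∀ c₀ : ℂ,
    (∀ F : Set ℂ, F.Finite → ∃ (n q : ℕ) (p : ℤ) (c₁ z₁ : ℂ) (B : Set ℂ), c₁ ∉ F ∧ 1 ≤ n ∧ 1 ≤ q ∧
      IsCoprime p (q : ℤ) ∧ C * n ^ 2 ≤ q * dZ (p / q) ^ 2 ∧ Limb n (p / q) c₁ z₁ B ∧ c₀ ∈ B) →
    (∀ U ∈ 𝓝 c₀, ∃ V ⊆ U ∩ MM, IsConnected V ∧ V ∈ 𝓝[MM] c₀) ∧
      c₀ ∈ closure {c : ℂ | ∃ (m : ℕ) (z : ℂ), 1 ≤ m ∧ (f c)^[m] z = z ∧ ‖mul m c z‖ < 1} := by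
  obtain ⟨C, hC, hstep⟩ := step hE hR
  refine ⟨C, hC, fun c₀ hinf => ?_⟩
  -- good limbs
  set Gd : ℂ → Set ℂ → Prop := fun c₁ B => c₀ ∈ B ∧ ∃ (n q : ℕ) (p : ℤ) (z₁ : ℂ), 1 ≤ n ∧ 1 ≤ q ∧
    IsCoprime p (q : ℤ) ∧ C * n ^ 2 ≤ q * dZ (p / q) ^ 2 ∧ Limb n (p / q) c₁ z₁ B with hGd
  have hd : ∀ (n q : ℕ) (p : ℤ), 1 ≤ n → C * (n : ℝ) ^ 2 ≤ q * dZ (p / q) ^ 2 →
      dZ (p / q) ≠ 0 := by
    intro n q p hn h h0
    rw [h0] at h
    have hn0 : (0 : ℝ) < n := by exact_mod_cast hn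
    have : 0 < C * (n : ℝ) ^ 2 := by positivity
    linarith [show (q : ℝ) * 0 ^ 2 = 0 by ring]
  have hprop : ∀ c₁ B, Gd c₁ B → Clo c₁ B ∧ (0 : ℂ) ∉ B ∧ c₁ ∈ closure MMᶜ := by
    rintro c₁ B ⟨h1, n, q, p, z₁, hn, hq, hco, hbig, hL⟩
    have hd0 := hd n q p hn hbig
    obtain ⟨B₁, _, _, _, _, h0, hmax, _⟩ := hCan n (p / q) c₁ z₁ hn hd0 hL.fix hL.mlt
    obtain ⟨g1, g2⟩ := hmax B hL
    exact ⟨g1, fun h => h0 (g2 h), root_bdry hn hd0 hL.fix hL.mlt⟩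
  have hbdd : ∀ c₁ B, Gd c₁ B → Bornology.IsBounded B := by
    rintro c₁ B ⟨_, n, q, p, z₁, hn, hq, hco, hbig, hL⟩
    exact MM_bdd.subset fun x hx => (hL.sub hx).1
  have hhalf : ∀ c₁ B c₂ B₂, Gd c₁ B → Gd c₂ B₂ → c₂ ∈ B → diam B₂ ≤ diam B / 2 := by
    rintro c₁ B c₂ B₂ h1 ⟨_, n, q, p, z₂, hn, hq, hco, hbig, hL⟩ h3
    obtain ⟨g1, g2, g3⟩ := hprop c₁ B h1
    exact hstep n q p c₂ z₂ B₂ c₁ B hn hq hco hbig hL g3 g1 h3
  -- there are good limbs of small diameter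
  have hsmall : ∀ ε : ℝ, 0 < ε → ∃ c₁ B, Gd c₁ B ∧ diam B ≤ ε := by
    intro ε hε
    by_contra hcon
    push Not at hcon
    have hP : ∀ k : ℕ, ∃ F : Set ℂ, F.Finite ∧ ∀ c₁ B, c₁ ∉ F → Gd c₁ B → 2 ^ k * ε ≤ diam B := by
      intro k
      induction k with
      | zero => exact ⟨∅, finite_empty, fun c₁ B _ h => by simpa using (hcon c₁ B h).le⟩
      | succ k ih =>
        obtain ⟨F, hF, hFB⟩ := ih
        set S : Set ℝ := {x | ∃ c₁ B, c₁ ∉ F ∧ Gd c₁ B ∧ diam B = x} with hS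
        have hSne : S.Nonempty := by
          obtain ⟨n, q, p, c₁, z₁, B, h1, hn, hq, hco, hbig, hL, hcB⟩ := hinf F hF
          exact ⟨_, c₁, B, h1, ⟨hcB, n, q, p, z₁, hn, hq, hco, hbig, hL⟩, rfl⟩
        have hSb : ∀ x ∈ S, 2 ^ k * ε ≤ x := by
          rintro x ⟨c₁, B, h1, h2, rfl⟩
          exact hFB c₁ B h1 h2
        have hI : 2 ^ k * ε ≤ sInf S := le_csInf hSne hSb
        have hI0 : 0 < sInf S := lt_of_lt_of_le (by positivity) hI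
        obtain ⟨x, ⟨c₁, B, h1, h2, rfl⟩, h3⟩ := exists_lt_of_csInf_lt hSne
          (show sInf S < 2 * sInf S by linarith)
        refine ⟨insert c₁ F, hF.insert c₁, fun c₂ B₂ h4 h5 => ?_⟩
        have h6 : c₂ ≠ c₁ := fun h => h4 (Or.inl h)
        have h7 : c₂ ∉ F := fun h => h4 (Or.inr h)
        obtain ⟨g1, g2, g3⟩ := hprop c₁ B h2
        obtain ⟨k1, k2, k3⟩ := hprop c₂ B₂ h5
        have h8 : sInf S ≤ diam B₂ := csInf_le ⟨_, hSb⟩ ⟨c₂, B₂, h7, h5, rfl⟩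
        rcases dich h6.symm g1 k1 zero_MM g2 ⟨c₀, h2.1, h5.1⟩ with h | h
        · exfalso
          have := hhalf c₁ B c₂ B₂ h2 h5 h
          linarith
        · have h9 := hhalf c₂ B₂ c₁ B h5 h2 h
          have h10 : sInf S ≤ diam B := csInf_le ⟨_, hSb⟩ ⟨c₁, B, h1, h2, rfl⟩
          rw [pow_succ]
          linarith
    obtain ⟨k, hk⟩ := pow_unbounded_of_one_lt (diam MM / ε) (one_lt_two)
    obtain ⟨F, hF, hFB⟩ := hP k
    obtain ⟨n, q, p, c₁, z₁, B, h1, hn, hq, hco, hbig, hL, hcB⟩ := hinf F hF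
    have h2 := hFB c₁ B h1 ⟨hcB, n, q, p, z₁, hn, hq, hco, hbig, hL⟩
    have h3 : diam B ≤ diam MM := diam_mono (fun x hx => (hL.sub hx).1) MM_bdd
    rw [div_lt_iff₀ hε] at hk
    linarith
  refine lc fun ε hε => ?_
  obtain ⟨c₁, B, hG, hdiam⟩ := hsmall ε hε
  obtain ⟨g1, g2, g3⟩ := hprop c₁ B hG
  have hcl := root_closure g1 zero_MM g2 ⟨c₀, hG.1⟩
  have hb := hbdd c₁ B hG
  obtain ⟨hcB, n, q, p, z₁, hn, hq, hco, hbig, hL⟩ := hG
  refine ⟨n, p / q, c₁, z₁, B, hn, hd n q p hn hbig, hL, hcB, fun c hc => ?_⟩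
  rw [← dist_eq_norm]
  refine le_trans ?_ hdiam
  rw [← diam_closure]
  exact dist_le_diam_of_mem hb.closure (subset_closure hc) hcl

end Pool.Agent.KS6_23.ML.MLCR
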