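import Pool.Agent.KS6_23.ML.Stm3
import Pool.Agent.KS6_23.ML.ALL

/-!
# Project ML, stage 2, module EXI: towers of nested satellite limbs exist
-/

set_option autoImplicit false

open Complex Set Filter Metric Topology

namespace Pool.Agent.KS6_23.ML.EXI

open Pool.Agent.KS6_23.ML Pool.Agent.KS6_23.ML.Basic

/-- A tower of nested satellite limbs. The limb `B k` has period `n k` and rotation number
`p k / q k`, its root is `c k`; it is the largest one. The root `c (k+1)` is on the boundary of the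
connected set `W k` of parameters with attracting cycles of period `n (k+1) = n k * q k`, and so is
the root `c k`. -/
structure Tower (p : ℕ → ℤ) (q : ℕ → ℕ) (n : ℕ → ℕ) (c z : ℕ → ℂ) (B W : ℕ → Set ℂ) : Prop where
  one : n 0 = 1
  succ : ∀ k, n (k + 1) = n k * q k
  root : c 0 = exp (tpi * ((p 0 / q 0 : ℝ) : ℂ)) / 2 - (exp (tpi * ((p 0 / q 0 : ℝ) : ℂ)) / 2) ^ 2
  limb : ∀ k, Limb (n k) (p k / q k) (c k) (z k) (B k)
  clo : ∀ k, Clo (c k) (B k)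
  zero : ∀ k, (0 : ℂ) ∉ B k
  max : ∀ k B', Limb (n k) (p k / q k) (c k) (z k) B' → B' ⊆ B k
  conn : ∀ k, IsPreconnected (W k)
  sub : ∀ k, W k ⊆ B k
  att : ∀ k, ∀ c ∈ W k, ∃ z, (f c)^[n (k + 1)] z = z ∧ ‖mul (n (k + 1)) c z‖ < 1
  bot : ∀ k, c k ∈ closure (W k)
  top : ∀ k, c (k + 1) ∈ closure (W k)
  mem : ∀ k, c (k + 1) ∈ B k
  nest : ∀ k, closure (B (k + 1)) ⊆ B k

/-- dependent choice -/
theorem dep {α : Type} (P : ℕ → α → Prop) (R : ℕ → α → α → Prop) (h0 : ∃ x, P 0 x)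
    (hs : ∀ k x, P k x → ∃ y, P (k + 1) y ∧ R k x y) :
    ∃ s : ℕ → α, (∀ k, P k (s k)) ∧ ∀ k, R k (s k) (s (k + 1)) := by
  obtain ⟨x₀, hx₀⟩ := h0
  choose g hg1 hg2 using hs
  let S : (k : ℕ) → {x : α // P k x} := fun k =>
    Nat.rec (motive := fun k => {x : α // P k x}) ⟨x₀, hx₀⟩
      (fun k x => ⟨g k x.1 x.2, hg1 k x.1 x.2⟩) k
  exact ⟨fun k => (S k).1, fun k => (S k).2, fun k => hg2 k (S k).1 (S k).2⟩

theorem dZ_ne {q : ℕ} {p : ℤ} (hq : 2 ≤ q) (hpq : IsCoprime p (q : ℤ)) : dZ (p / q) ≠ 0 := by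
  intro h
  unfold dZ at h
  rw [abs_eq_zero, sub_eq_zero] at h
  have hq0 : (q : ℝ) ≠ 0 := by
    have : 0 < q := by omega
    positivity
  rw [div_eq_iff hq0] at h
  have h1 : p = round ((p : ℝ) / q) * q := by exact_mod_cast h
  have h2 : (q : ℤ) ∣ p := ⟨_, by rw [_root_.mul_comm]; exact h1⟩
  have h3 : IsUnit (q : ℤ) := hpq.isUnit_of_dvd' h2 dvd_rfl
  rw [Int.isUnit_iff] at h3
  omega

theorem exi (hCan : S_CAN) (hNext : S_NEXT) (hNest : S_NEST) (p : ℕ → ℤ) (q : ℕ → ℕ)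
    (hq : ∀ k, 2 ≤ q k) (hpq : ∀ k, IsCoprime (p k) (q k : ℤ)) :
    ∃ (n : ℕ → ℕ) (c z : ℕ → ℂ) (B W : ℕ → Set ℂ), Tower p q n c z B W ∧ (⋂ k, B k).Nonempty := by
  classical
  obtain ⟨G, B₀, cc, hB⟩ := ALL.base
  have hMc : IsClosed MM := MM_closed hB
  let n : ℕ → ℕ := fun k => ∏ j ∈ Finset.range k, q j
  have hn0 : n 0 = 1 := by simp [n]
  have hns : ∀ k, n (k + 1) = n k * q k := fun k => Finset.prod_range_succ _ _
  have hn1 : ∀ k, 1 ≤ n k := fun k => by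
    have : 0 < n k := Finset.prod_pos fun j _ => by have := hq j; omega
    omega
  set c₀ : ℂ := exp (tpi * ((p 0 / q 0 : ℝ) : ℂ)) / 2 -
    (exp (tpi * ((p 0 / q 0 : ℝ) : ℂ)) / 2) ^ 2 with hc₀
  -- the states
  let P : ℕ → ℂ × ℂ × Set ℂ → Prop := fun k x =>
    Limb (n k) (p k / q k) x.1 x.2.1 x.2.2 ∧ Clo x.1 x.2.2 ∧ (0 : ℂ) ∉ x.2.2 ∧
    (∀ B', Limb (n k) (p k / q k) x.1 x.2.1 B' → B' ⊆ x.2.2) ∧ (k = 0 → x.1 = c₀)
  let R : ℕ → ℂ × ℂ × Set ℂ → ℂ × ℂ × Set ℂ → Prop := fun k x y =>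
    ∃ W : Set ℂ, IsPreconnected W ∧ W ⊆ x.2.2 ∧ x.1 ∈ closure W ∧
      (∀ c ∈ W, ∃ z, (f c)^[n k * q k] z = z ∧ ‖mul (n k * q k) c z‖ < 1) ∧
      y.1 ∈ x.2.2 ∧ y.1 ∈ closure W ∧ closure y.2.2 ⊆ x.2.2
  obtain ⟨s, hs1, hs2⟩ := dep P R (by
    obtain ⟨B, r₀, _, h1, h2, h3, h4, _⟩ := hCan (n 0) (p 0 / q 0) c₀
      (exp (tpi * ((p 0 / q 0 : ℝ) : ℂ)) / 2) (hn1 0) (dZ_ne (hq 0) (hpq 0))
      (by rw [hn0, Function.iterate_one, hc₀]; unfold f; ring)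
      (by
        rw [hn0, mul_eq_prod, Finset.prod_range_one, Function.iterate_zero, id]
        ring)
    exact ⟨(c₀, _, B), h1, h2, h3, fun B' hB' => (h4 B' hB').2, fun _ => rfl⟩) (by
    rintro k ⟨c₁, z₁, B⟩ ⟨h1, h2, h3, h4, _⟩
    obtain ⟨W, w1, w2, w3, w4, w5⟩ := hNext (n k) (q k) (p k) c₁ z₁ B (hn1 k) (hq k) (hpq k)
      h1 h2 h3 h4
    obtain ⟨c₂, z₂, v1, v2, v3, v4⟩ := w5 (q (k + 1)) (p (k + 1)) (hq _) (hpq _)
    obtain ⟨B₂, r₀, _, g1, g2, g3, g4, _⟩ := hCan (n (k + 1)) (p (k + 1) / q (k + 1)) c₂ z₂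
      (hn1 _) (dZ_ne (hq _) (hpq _)) (by rw [hns]; exact v3) (by rw [hns]; exact v4)
    have hm : c₁ ∈ MM := by
      refine (FRO.fro (n k) c₁ z₁ (hn1 k) h1.fix ?_).1
      rw [h1.mlt, norm_exp, _root_.mul_comm, real_mul_tpi_re, Real.exp_zero]
    exact ⟨(c₂, z₂, B₂), ⟨g1, g2, g3, fun B' hB' => (g4 B' hB').2, fun h => by omega⟩,
      W, w1, w2, w3, w4, v1, v2, (hNest c₁ c₂ B B₂ hm v1 h2 g2 h3 g3).2⟩)
  choose W hW using hs2
  refine ⟨n, fun k => (s k).1, fun k => (s k).2.1, fun k => (s k).2.2, W, ⟨hn0, hns,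
    (hs1 0).2.2.2.2 rfl, fun k => (hs1 k).1, fun k => (hs1 k).2.1, fun k => (hs1 k).2.2.1,
    fun k => (hs1 k).2.2.2.1, fun k => (hW k).1, fun k => (hW k).2.1,
    fun k => by rw [hns]; exact (hW k).2.2.2.1, fun k => (hW k).2.2.1,
    fun k => (hW k).2.2.2.2.2.1, fun k => (hW k).2.2.2.2.1, fun k => (hW k).2.2.2.2.2.2⟩, ?_⟩
  -- the intersection
  have hbd : ∀ k, (s k).2.2 ⊆ closedBall (0 : ℂ) 4 := by
    intro k c hc
    have h1 : c ∈ MM := ((hs1 k).2.1.sub hc).1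
    have h2 := hB.gcc c
    rw [(hB.gM c).2 h1, zero_add] at h2
    rw [mem_closedBall, dist_zero_right]
    by_cases h3 : ‖c‖ = 0
    · rw [h3]
      norm_num
    · exact (Real.log_le_log_iff (lt_of_le_of_ne (norm_nonneg c) (Ne.symm h3)) (by norm_num)).1 h2
  have hK : ∀ k, IsCompact (closure (s k).2.2) := fun k =>
    (isCompact_closedBall (0 : ℂ) 4).closure_of_subset (hbd k)
  have hmono : ∀ k, closure (s (k + 1)).2.2 ⊆ closure (s k).2.2 := fun k =>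
    (hW k).2.2.2.2.2.2.trans subset_closure
  obtain ⟨x, hx⟩ := IsCompact.nonempty_iInter_of_sequence_nonempty_isCompact_isClosed
    (fun k => closure (s k).2.2) hmono
    (fun k => ⟨_, subset_closure (hW k).2.2.2.2.1⟩) (hK 0) (fun k => isClosed_closure)
  refine ⟨x, mem_iInter.2 fun k => ?_⟩
  exact (hW k).2.2.2.2.2.2 (mem_iInter.1 hx (k + 1))

end Pool.Agent.KS6_23.ML.EXI
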