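import Pool.Agent.KS6_23.ML.Stm3
import Pool.Agent.KS6_23.ML.CNTN

/-!
# Project ML, stage 2, module SAT: the attracting cycle of `q` times the period

Let `1 / (2 π i) ∮ dz / (f_c^N(z) - z)` be taken over a small circle around `z₁`.  It is the sum of
`1 / (mult - 1)` over the points of period `N = n q` in the disc, it is bounded for `c` near `c₁`,
and one of its terms is `1 / (exp (q x) - 1)`, which tends to `+∞`.  Hence one of the other points
has a multiplier of modulus less than one.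
-/

set_option autoImplicit false

open Complex Set Filter Metric Topology Polynomial

namespace Pool.Agent.KS6_23.ML.SAT

open Pool.Agent.KS6_23.ML Pool.Agent.KS6_23.ML.Basic Pool.Agent.KS6_23.ML.XTools
open Pool.Agent.KS6_23.ML.CNTN

/-- the polynomial `f_c^N(z) - z` -/
noncomputable def A (N : ℕ) (c : ℂ) : ℂ[X] := (PZ N).map (evalRingHom c)

theorem A_eval (N : ℕ) (c z : ℂ) : (A N c).eval z = (f c)^[N] z - z := by
  rw [A, PZ, Polynomial.map_sub, Polynomial.eval_sub, Fp_eval]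
  simp

theorem A_monic {N : ℕ} (hN : 1 ≤ N) (c : ℂ) : (A N c).Monic := (PZ_monic hN).1.map _

theorem A_deriv (N : ℕ) (c z : ℂ) : (A N c).derivative.eval z = mul N c z - 1 := by
  have h1 : HasDerivAt (fun w => (A N c).eval w) ((A N c).derivative.eval z) z :=
    (A N c).hasDerivAt z
  have h2 : HasDerivAt (fun w => (f c)^[N] w - w) (mul N c z - 1) z :=
    (hasDerivAt_iter N c z).sub (hasDerivAt_id z)
  have h3 : (fun w => (A N c).eval w) = fun w => (f c)^[N] w - w := by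
    funext w
    exact A_eval N c w
  rw [h3] at h1
  exact h1.unique h2

theorem A_nodup {N : ℕ} (hN : 1 ≤ N) {c : ℂ}
    (hs : ∀ z, (f c)^[N] z = z → mul N c z ≠ 1) : (A N c).roots.Nodup := by
  classical
  rw [Multiset.nodup_iff_count_le_one]
  intro w
  rw [Polynomial.count_roots]
  by_contra hw
  push Not at hw
  rw [Polynomial.one_lt_rootMultiplicity_iff_isRoot (A_monic hN c).ne_zero] at hw
  have h1 : (f c)^[N] w = w := by
    have := hw.1
    rw [Polynomial.IsRoot, A_eval] at this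
    exact sub_eq_zero.1 this
  have h2 := hw.2
  rw [Polynomial.IsRoot, A_deriv] at h2
  exact hs w h1 (sub_eq_zero.1 h2)

/-- the decomposition of the inverse into simple fractions -/
theorem pf {N : ℕ} (hN : 1 ≤ N) {c : ℂ}
    (hs : ∀ z, (f c)^[N] z = z → mul N c z ≠ 1) (z : ℂ) (hz : (f c)^[N] z ≠ z) :
    ((f c)^[N] z - z)⁻¹ = ∑ w ∈ (rts N c).toFinset, (mul N c w - 1)⁻¹ * (z - w)⁻¹ := by
  classical
  set S : Finset ℂ := (rts N c).toFinset with hS
  have hmem : ∀ w, w ∈ S ↔ (f c)^[N] w = w := fun w => by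
    rw [hS, Multiset.mem_toFinset, mem_rts hN]
  have hnod : (Lagrange.nodal S id : ℂ[X]) = A N c := by
    have h1 : A N c = ((A N c).roots.map fun a => X - C a).prod :=
      (IsAlgClosed.splits _).eq_prod_roots_of_monic (A_monic hN c)
    have h2 : (rts N c) = (A N c).roots := rfl
    have h3 : S.val = (A N c).roots := by
      rw [hS, Multiset.toFinset_val, h2, (A_nodup hN hs).dedup]
    conv_rhs => rw [h1, ← h3]
    rfl
  have hne : S.Nonempty := by
    have h4 := card_rts hN c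
    have h5 : rts N c ≠ 0 := by
      intro h6
      rw [h6] at h4
      simp at h4
      have : 0 < 2 ^ N := by positivity
      omega
    obtain ⟨w, hw⟩ := Multiset.exists_mem_of_ne_zero h5
    exact ⟨w, by rw [hS, Multiset.mem_toFinset]; exact hw⟩
  have hx : ∀ i ∈ S, z ≠ id i := by
    intro i hi he
    rw [hmem] at hi
    apply hz
    rw [he]
    exact hi
  have h6 := Lagrange.eval_interpolate_not_at_node (s := S) (v := id) (x := z) (1 : ℂ → ℂ) hx
  rw [Lagrange.interpolate_one Function.injective_id.injOn hne, Polynomial.eval_one, hnod,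
    A_eval] at h6
  have h7 : (f c)^[N] z - z ≠ 0 := sub_ne_zero.2 hz
  rw [inv_eq_of_mul_eq_one_right h6.symm]
  refine Finset.sum_congr rfl fun w hw => ?_
  rw [Lagrange.nodalWeight_eq_eval_derivative_nodal hw, hnod, id, A_deriv]
  simp

theorem integral_inv_out {z₁ w : ℂ} {r : ℝ} (hr : 0 < r) (hw : w ∉ closedBall z₁ r) :
    (∮ z in C(z₁, r), (z - w)⁻¹) = 0 := by
  refine Complex.circleIntegral_eq_zero_of_differentiable_on_off_countable hr.le
    Set.countable_empty ?_ ?_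
  · refine ContinuousOn.inv₀ (by fun_prop) fun z hz h0 => hw ?_
    rw [← sub_eq_zero.1 h0]
    exact hz
  · intro z hz
    refine DifferentiableAt.inv (by fun_prop) fun h0 => hw ?_
    rw [← sub_eq_zero.1 h0]
    exact ball_subset_closedBall hz.1

open scoped Classical in
/-- the sum over the points in the disc -/
theorem sum_disc {N : ℕ} (hN : 1 ≤ N) {c z₁ : ℂ} {r m : ℝ} (hr : 0 < r) (hm : 0 < m)
    (hs : ∀ z, (f c)^[N] z = z → mul N c z ≠ 1)
    (hc : ∀ z ∈ sphere z₁ r, m ≤ ‖(f c)^[N] z - z‖) :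
    ‖∑ w ∈ (rts N c).toFinset with w ∈ ball z₁ r, (mul N c w - 1)⁻¹‖ ≤ r / m := by
  classical
  have hns : ∀ z ∈ sphere z₁ r, (f c)^[N] z ≠ z := by
    intro z hz he
    have := hc z hz
    rw [he, sub_self, norm_zero] at this
    linarith
  have h1 : (∮ z in C(z₁, r), ((f c)^[N] z - z)⁻¹) =
      ∑ w ∈ (rts N c).toFinset, (mul N c w - 1)⁻¹ * ∮ z in C(z₁, r), (z - w)⁻¹ := by
    rw [circleIntegral.integral_congr (g := fun z => ∑ w ∈ (rts N c).toFinset,
      (mul N c w - 1)⁻¹ * (z - w)⁻¹) hr.le (fun z hz => pf hN hs z (hns z hz))]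
    rw [circleIntegral.integral_fun_sum]
    · refine Finset.sum_congr rfl fun w hw => ?_
      exact circleIntegral.integral_const_mul _ _ _ _
    · intro w hw
      refine ContinuousOn.circleIntegrable hr.le ?_
      refine continuousOn_const.mul (ContinuousOn.inv₀ (by fun_prop) fun z hz h0 => ?_)
      rw [Multiset.mem_toFinset, mem_rts hN] at hw
      apply hns z hz
      rw [sub_eq_zero.1 h0]
      exact hw
  have h2 : (∮ z in C(z₁, r), ((f c)^[N] z - z)⁻¹) =
      (2 * Real.pi * I) * ∑ w ∈ (rts N c).toFinset with w ∈ ball z₁ r, (mul N c w - 1)⁻¹ := by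
    rw [h1, Finset.mul_sum, Finset.sum_filter]
    refine Finset.sum_congr rfl fun w hw => ?_
    split_ifs with hb
    · rw [circleIntegral.integral_sub_inv_of_mem_ball hb]
      ring
    · rw [integral_inv_out hr, mul_zero]
      intro hcb
      rw [Multiset.mem_toFinset, mem_rts hN] at hw
      refine hns w ?_ hw
      rw [mem_sphere]
      rw [mem_closedBall] at hcb
      rw [mem_ball] at hb
      push Not at hb
      exact le_antisymm hcb hb
  have h3 : ‖∮ z in C(z₁, r), ((f c)^[N] z - z)⁻¹‖ ≤ 2 * Real.pi * r * m⁻¹ := by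
    refine circleIntegral.norm_integral_le_of_norm_le_const hr.le fun z hz => ?_
    rw [norm_inv]
    exact inv_anti₀ hm (hc z hz)
  rw [h2, norm_mul] at h3
  have h4 : ‖(2 * Real.pi * I : ℂ)‖ = 2 * Real.pi := by
    simp [abs_of_pos Real.pi_pos]
  rw [h4] at h3
  have h5 : 0 < 2 * Real.pi := by positivity
  have h6 : 2 * Real.pi * r * m⁻¹ = 2 * Real.pi * (r / m) := by ring
  rw [h6] at h3
  exact le_of_mul_le_mul_left h3 h5

/-- if `|μ| ≥ 1` then `Re (1 / (μ - 1)) ≥ -1/2` -/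
theorem re_inv_ge {μ : ℂ} (h : 1 ≤ ‖μ‖) : -(1 / 2 : ℝ) ≤ ((μ - 1)⁻¹).re := by
  by_cases h1 : μ = 1
  · rw [h1]
    simp
  have h2 : 0 < Complex.normSq (μ - 1) := Complex.normSq_pos.2 (sub_ne_zero.2 h1)
  rw [Complex.inv_re]
  have h3 : 1 ≤ Complex.normSq μ := by
    rw [Complex.normSq_eq_norm_sq]
    nlinarith [norm_nonneg μ]
  rw [Complex.normSq_apply] at h3
  rw [Complex.normSq_apply] at h2 ⊢
  simp only [sub_re, sub_im, one_re, one_im, sub_zero] at h2 ⊢
  rw [le_div_iff₀ h2]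
  nlinarith

/-- the parameter is not constant -/
theorem not_const {n : ℕ} (hn : 1 ≤ n) {s₀ e : ℂ} {ψ ζ : ℂ → ℂ}
    (h : ∀ᶠ s in 𝓝 s₀, (f (ψ s))^[n] (ζ s) = ζ s ∧ mul n (ψ s) (ζ s) = exp s) :
    ¬ ∀ᶠ s in 𝓝 s₀, ψ s = e := by
  classical
  intro he
  set T : Finset ℂ := (rts n e).toFinset.image (mul n e) with hT
  have h1 : ∀ᶠ s in 𝓝 s₀, exp s ∈ T := by
    filter_upwards [h, he] with s hs hse
    rw [hse] at hs
    rw [hT, Finset.mem_image]
    exact ⟨ζ s, by rw [Multiset.mem_toFinset, mem_rts hn]; exact hs.1, hs.2⟩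
  have h2 : Tendsto (fun x : ℝ => s₀ + x) (𝓝[>] 0) (𝓝 s₀) := by
    have h3 : Continuous (fun x : ℝ => s₀ + (x : ℂ)) := by fun_prop
    have h4 := h3.tendsto 0
    simp only [ofReal_zero, add_zero] at h4
    exact h4.mono_left nhdsWithin_le_nhds
  have h3 := h2.eventually h1
  rw [eventually_nhdsWithin_iff, Metric.eventually_nhds_iff] at h3
  obtain ⟨δ, hδ, h4⟩ := h3
  have h5 : (Ioo (0 : ℝ) δ).Infinite := Ioo_infinite hδ
  have h6 : MapsTo (fun x : ℝ => exp (s₀ + x)) (Ioo (0 : ℝ) δ) (T : Set ℂ) := by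
    intro x hx
    refine h4 ?_ hx.1
    rw [Real.dist_eq, sub_zero, abs_of_pos hx.1]
    exact hx.2
  have h7 : InjOn (fun x : ℝ => exp (s₀ + x)) (Ioo (0 : ℝ) δ) := by
    intro x _ y _ hxy
    have h8 : ‖exp (s₀ + x)‖ = ‖exp (s₀ + y)‖ := by
      simp only at hxy
      rw [hxy]
    rw [Complex.norm_exp, Complex.norm_exp, Real.exp_eq_exp] at h8
    simp at h8
    exact h8
  exact h5 (Set.Finite.of_injOn h6 h7 T.finite_toSet)

/-- the parameters near the point avoid a finite set -/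
theorem avoid {n : ℕ} (hn : 1 ≤ n) {s₀ : ℂ} {ψ ζ : ℂ → ℂ} (hψ : AnalyticAt ℂ ψ s₀)
    (h : ∀ᶠ s in 𝓝 s₀, (f (ψ s))^[n] (ζ s) = ζ s ∧ mul n (ψ s) (ζ s) = exp s)
    {E : Set ℂ} (hE : E.Finite) : ∀ᶠ s in 𝓝[≠] s₀, ψ s ∉ E := by
  have h1 : ∀ e ∈ E, ∀ᶠ s in 𝓝[≠] s₀, ψ s ≠ e := by
    intro e _
    have h2 : AnalyticAt ℂ (fun s => ψ s - e) s₀ := hψ.sub analyticAt_const
    rcases h2.eventually_eq_zero_or_eventually_ne_zero with h3 | h3
    · exact absurd (h3.mono fun s hs => sub_eq_zero.1 hs) (not_const hn h)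
    · exact h3.mono fun s hs => sub_ne_zero.1 hs
  have h4 : ∀ᶠ s in 𝓝[≠] s₀, ∀ e ∈ E, ψ s ≠ e := (hE.eventually_all).2 h1
  exact h4.mono fun s hs hm => hs _ hm rfl

theorem sat : S_SAT := by
  classical
  intro n q p c₁ z₁ ψ ζ hn hq _ hψ hζ hψ1 hζ1 h ε hε
  set s₀ : ℂ := tpi * ((p / q : ℝ) : ℂ) with hs₀
  have hq0 : (q : ℝ) ≠ 0 := by
    have : 0 < q := by omega
    positivity
  have hqc : (q : ℂ) ≠ 0 := by exact_mod_cast hq0
  have hN : 1 ≤ n * q := Nat.one_le_iff_ne_zero.2 (Nat.mul_ne_zero (by omega) (by omega))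
  set N := n * q with hNd
  -- the radius
  obtain ⟨r, hr, hr2⟩ : ∃ r ∈ Ioo 0 ε, r ∉ ((rts N c₁).toFinset.image fun w => dist w z₁) := by
    have h1 : (Ioo 0 ε).Infinite := Ioo_infinite hε
    exact h1.exists_notMem_finset _
  have hr0 : 0 < r := hr.1
  have hns : ∀ z ∈ sphere z₁ r, (f c₁)^[N] z - z ≠ 0 := by
    intro z hz h0
    apply hr2
    rw [Finset.mem_image]
    exact ⟨z, by rw [Multiset.mem_toFinset, mem_rts hN]; exact sub_eq_zero.1 h0, hz⟩
  -- the lower bound on the circle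
  have hcont : Continuous (fun x : ℂ × ℂ => ‖(f x.1)^[N] x.2 - x.2‖) :=
    ((cont_iter N).sub continuous_snd).norm
  obtain ⟨m, hm, hm2⟩ : ∃ m : ℝ, 0 < m ∧ ∀ z ∈ sphere z₁ r, m < ‖(f c₁)^[N] z - z‖ := by
    have h1 : (sphere z₁ r).Nonempty := NormedSpace.sphere_nonempty.2 hr0.le
    have h2 : ContinuousOn (fun z : ℂ => ‖(f c₁)^[N] z - z‖) (sphere z₁ r) :=
      (hcont.comp (by fun_prop : Continuous fun z : ℂ => (c₁, z))).continuousOn
    obtain ⟨z₀, hz₀, h3⟩ := (isCompact_sphere z₁ r).exists_isMinOn h1 h2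
    refine ⟨‖(f c₁)^[N] z₀ - z₀‖ / 2, by
      have := norm_pos_iff.2 (hns z₀ hz₀)
      linarith, fun z hz => ?_⟩
    have h4 : ‖(f c₁)^[N] z₀ - z₀‖ ≤ ‖(f c₁)^[N] z - z‖ := h3 hz
    have := norm_pos_iff.2 (hns z₀ hz₀)
    linarith
  have hev : ∀ᶠ c in 𝓝 c₁, ∀ z ∈ sphere z₁ r, m < ‖(f c)^[N] z - z‖ := by
    refine (isCompact_sphere z₁ r).eventually_forall_of_forall_eventually fun z hz => ?_
    exact (hcont.continuousAt (x := (c₁, z))).eventually_const_lt (hm2 z hz)
  -- the exceptional parameters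
  have hfin : {c : ℂ | ∃ z, (f c)^[N] z = z ∧ mul N c z = 1}.Finite := (cntn N hN).1 1
  have hav := avoid hn hψ h hfin
  -- the path
  have hp1 : Tendsto (fun x : ℝ => s₀ + (x : ℂ)) (𝓝[>] 0) (𝓝 s₀) := by
    have h3 : Continuous (fun x : ℝ => s₀ + (x : ℂ)) := by fun_prop
    have h4 := h3.tendsto 0
    simp only [ofReal_zero, add_zero] at h4
    exact h4.mono_left nhdsWithin_le_nhds
  have hp2 : Tendsto (fun x : ℝ => s₀ + (x : ℂ)) (𝓝[>] 0) (𝓝[≠] s₀) := by
    refine tendsto_nhdsWithin_iff.2 ⟨hp1, ?_⟩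
    filter_upwards [self_mem_nhdsWithin] with x hx
    have hx' : (0 : ℝ) < x := hx
    rw [mem_compl_iff, mem_singleton_iff]
    intro he
    have : (x : ℂ) = 0 := by linear_combination he
    rw [ofReal_eq_zero] at this
    linarith
  have hψc : Tendsto ψ (𝓝 s₀) (𝓝 c₁) := by
    have := hψ.continuousAt.tendsto
    rwa [hψ1] at this
  have hζc : Tendsto ζ (𝓝 s₀) (𝓝 z₁) := by
    have := hζ.continuousAt.tendsto
    rwa [hζ1] at this
  have e1 := hp1.eventually (hψc.eventually hev)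
  have e2 := hp2.eventually hav
  have e3 := hp1.eventually (hζc.eventually (ball_mem_nhds z₁ hr0))
  have e4 := hp1.eventually h
  -- the large term
  have e5 : ∀ᶠ x : ℝ in 𝓝[>] 0, r / m + 2 ^ N < (Real.exp (q * x) - 1)⁻¹ := by
    have h1 : Tendsto (fun x : ℝ => Real.exp (q * x) - 1) (𝓝[>] 0) (𝓝[>] 0) := by
      refine tendsto_nhdsWithin_iff.2 ⟨?_, ?_⟩
      · have h2 : Continuous (fun x : ℝ => Real.exp (q * x) - 1) := by fun_prop
        have h3 := h2.tendsto 0
        simp only [mul_zero, Real.exp_zero, sub_self] at h3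
        exact h3.mono_left nhdsWithin_le_nhds
      · filter_upwards [self_mem_nhdsWithin] with x hx
        have hx' : (0 : ℝ) < x := hx
        have h4 : 0 < (q : ℝ) * x := by
          have : 0 < q := by omega
          positivity
        have := Real.one_lt_exp_iff.2 h4
        rw [mem_Ioi]
        linarith
    exact (tendsto_inv_nhdsGT_zero.comp h1).eventually_gt_atTop _
  filter_upwards [e1, e2, e3, e4, e5, self_mem_nhdsWithin] with x h1 h2 h3 h4 h5 h6
  have hx : (0 : ℝ) < x := h6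
  set c : ℂ := ψ (s₀ + x) with hc
  set w₀ : ℂ := ζ (s₀ + x) with hw₀
  -- the multiplier of `w₀`
  have hw1 : (f c)^[N] w₀ = w₀ := by
    rw [hNd, Function.iterate_mul]
    exact Function.iterate_fixed h4.1 q
  have hw2 : mul N c w₀ = ((Real.exp (q * x) : ℝ) : ℂ) := by
    rw [hNd, mul_iter c w₀ n h4.1 q, h4.2, ← Complex.exp_nat_mul]
    have h7 : (q : ℂ) * (s₀ + x) = p * tpi + ((q * x : ℝ) : ℂ) := by
      rw [hs₀]
      push_cast
      field_simp
    rw [h7, Complex.exp_add, exp_int_tpi, one_mul, ofReal_exp]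
  have hs : ∀ z, (f c)^[N] z = z → mul N c z ≠ 1 := fun z hz h1 => h2 ⟨z, hz, h1⟩
  have hsum := sum_disc hN hr0 hm hs (fun z hz => (h1 z hz).le)
  by_contra hcon
  push Not at hcon
  set S : Finset ℂ := (rts N c).toFinset.filter fun w => w ∈ ball z₁ r with hS
  have hwS : w₀ ∈ S := by
    rw [hS, Finset.mem_filter, Multiset.mem_toFinset, mem_rts hN]
    exact ⟨hw1, h3⟩
  have hre : (∑ w ∈ S, (mul N c w - 1)⁻¹).re ≤ r / m := (re_le_norm _).trans hsum
  rw [← Finset.add_sum_erase S _ hwS, add_re, re_sum] at hre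
  have h8 : ((mul N c w₀ - 1)⁻¹).re = (Real.exp (q * x) - 1)⁻¹ := by
    rw [hw2]
    have : (((Real.exp (q * x) : ℝ) : ℂ) - 1)⁻¹ = (((Real.exp (q * x) - 1)⁻¹ : ℝ) : ℂ) := by
      push_cast
      ring
    rw [this, ofReal_re]
  have h9 : ∀ w ∈ S.erase w₀, -(1 / 2 : ℝ) ≤ ((mul N c w - 1)⁻¹).re := by
    intro w hw
    have h10 := Finset.mem_of_mem_erase hw
    rw [hS, Finset.mem_filter, Multiset.mem_toFinset, mem_rts hN] at h10
    refine re_inv_ge (hcon w ?_ h10.1)
    have := h10.2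
    rw [mem_ball, dist_eq_norm] at this
    exact this.trans hr.2
  have h10 : -(2 ^ N : ℝ) ≤ ∑ w ∈ S.erase w₀, ((mul N c w - 1)⁻¹).re := by
    have h11 := Finset.card_nsmul_le_sum (S.erase w₀) _ _ h9
    have h12 : (S.erase w₀).card ≤ 2 ^ N := by
      calc (S.erase w₀).card ≤ S.card := Finset.card_erase_le
        _ ≤ (rts N c).toFinset.card := Finset.card_filter_le _ _
        _ ≤ Multiset.card (rts N c) := Multiset.toFinset_card_le _
        _ = 2 ^ N := card_rts hN c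
    have h13 : ((S.erase w₀).card : ℝ) ≤ 2 ^ N := by exact_mod_cast h12
    rw [nsmul_eq_mul] at h11
    have h14 : (0 : ℝ) ≤ (S.erase w₀).card := by positivity
    linarith
  rw [h8] at hre
  linarith

end Pool.Agent.KS6_23.ML.SAT
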