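import Pool.Agent.KS6_23.ML.Stm3
import Pool.Agent.KS6_23.ML.Curve

set_option autoImplicit false

/-! # Project ML, stage 2, module 27: the inverse of the multiplier is univalent -/

open Complex Set Filter Metric Topology MeasureTheory

namespace Pool.Agent.KS6_23.ML.UNIA

open Pool.Agent.KS6_23.ML Pool.Agent.KS6_23.ML.Basic Pool.Agent.KS6_23.ML.LabC
open Pool.Agent.KS6_23.ML.Curve

/-! ## the domain -/

theorem R_le {κ t : ℝ} (h1 : κ ≤ 1 / 16) {n : ℕ} (hn : 1 ≤ n) :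
    κ * dZ t ^ 2 / (n : ℝ) ≤ dZ t / 32 := by
  have h2 : 0 ≤ dZ t := abs_nonneg _
  have h3 : dZ t ≤ 1 / 2 := abs_sub_round t
  have h4 : (1 : ℝ) ≤ n := by exact_mod_cast hn
  rw [div_le_iff₀ (by linarith)]
  have h5 : κ * dZ t ^ 2 ≤ 1 / 16 * dZ t ^ 2 := by gcongr
  have h6 : dZ t ^ 2 ≤ dZ t * (1 / 2) := by nlinarith
  have h7 : dZ t / 32 ≤ dZ t / 32 * n := by nlinarith
  linarith

theorem R_pos {κ t : ℝ} (h0 : 0 < κ) (ht : dZ t ≠ 0) {n : ℕ} (hn : 1 ≤ n) :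
    0 < κ * dZ t ^ 2 / (n : ℝ) := by
  have h2 : 0 < dZ t := lt_of_le_of_ne (abs_nonneg _) (Ne.symm ht)
  have h4 : (0 : ℝ) < n := by exact_mod_cast hn
  positivity

theorem DD_sub {κ t : ℝ} {n : ℕ} : DD κ n t ⊆ DL κ n t := fun s hs => ⟨0, le_rfl, by simpa using hs⟩

theorem DL_open (κ t : ℝ) (n : ℕ) : IsOpen (DL κ n t) := by
  have : DL κ n t = ⋃ τ : ℝ, ⋃ _ : 0 ≤ τ, (fun s : ℂ => s + τ) ⁻¹' DD κ n t := by
    ext s
    simp only [DL, mem_iUnion, mem_preimage, exists_prop]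
    rfl
  rw [this]
  exact isOpen_iUnion fun τ => isOpen_iUnion fun _ => isOpen_ball.preimage (by fun_prop)

theorem DL_convex (κ t : ℝ) (n : ℕ) : Convex ℝ (DL κ n t) := by
  rintro x ⟨τ, h1, h2⟩ y ⟨τ', h3, h4⟩ a b ha hb hab
  refine ⟨a * τ + b * τ', by positivity, ?_⟩
  have h5 := (convex_ball (tpi * (t : ℂ)) (κ * dZ t ^ 2 / n)) h2 h4 ha hb hab
  have h6 : a • x + b • y + ((a * τ + b * τ' : ℝ) : ℂ) = a • (x + (τ : ℂ)) + b • (y + (τ' : ℂ)) := by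
    simp only [real_smul]
    push_cast
    ring
  rw [h6]
  exact h5

theorem tpit_re (t : ℝ) : (tpi * (t : ℂ)).re = 0 := by rw [_root_.mul_comm, real_mul_tpi_re]

theorem tpit_im (t : ℝ) : (tpi * (t : ℂ)).im = 2 * Real.pi * t := by
  rw [_root_.mul_comm, real_mul_tpi_im]

/-- the part of `DL` in the closed right half plane is in the disc -/
theorem DL_pos {κ t : ℝ} {n : ℕ} {s : ℂ} (hs : s ∈ DL κ n t) (h0 : 0 ≤ s.re) : s ∈ DD κ n t := by
  obtain ⟨τ, h1, h2⟩ := hs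
  unfold DD at *
  rw [mem_ball, dist_eq_norm] at *
  refine lt_of_le_of_lt ?_ h2
  rw [Complex.norm_def, Complex.norm_def]
  apply Real.sqrt_le_sqrt
  rw [normSq_apply, normSq_apply]
  simp only [sub_re, sub_im, add_re, add_im, ofReal_re, ofReal_im, tpit_re]
  nlinarith

theorem DL_im {κ t : ℝ} {n : ℕ} {s : ℂ} (hs : s ∈ DL κ n t) :
    |s.im - 2 * Real.pi * t| < κ * dZ t ^ 2 / n := by
  obtain ⟨τ, h1, h2⟩ := hs
  unfold DD at h2
  rw [mem_ball, dist_eq_norm] at h2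
  refine lt_of_le_of_lt ?_ h2
  have h3 : (s + τ - tpi * (t : ℂ)).im = s.im - 2 * Real.pi * t := by
    simp only [sub_im, add_im, ofReal_im, add_zero, tpit_im]
  rw [← h3]
  exact abs_im_le_norm _

theorem DL_re {κ t : ℝ} {n : ℕ} {s : ℂ} (hs : s ∈ DL κ n t) : s.re < κ * dZ t ^ 2 / n := by
  obtain ⟨τ, h1, h2⟩ := hs
  unfold DD at h2
  rw [mem_ball, dist_eq_norm] at h2
  have h3 : (s + τ - tpi * (t : ℂ)).re = s.re + τ := by
    simp only [sub_re, add_re, ofReal_re, tpit_re, sub_zero]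
  have h4 := (le_abs_self _).trans (abs_re_le_norm (s + τ - tpi * (t : ℂ)))
  rw [h3] at h4
  linarith

theorem DL_exp_ne {κ t : ℝ} (h1 : κ ≤ 1 / 16) (ht : dZ t ≠ 0) {n : ℕ} (hn : 1 ≤ n) {s : ℂ}
    (hs : s ∈ DL κ n t) : exp s ≠ 1 := by
  intro h
  have h2 : exp s = exp 0 := by rw [h, exp_zero]
  rw [exp_eq_iff] at h2
  obtain ⟨k, hk⟩ := h2
  rw [zero_add] at hk
  have h3 := DL_im hs
  have h4 := R_le (t := t) h1 hn
  rw [hk, int_mul_tpi_im] at h3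
  have h5 : 0 < dZ t := lt_of_le_of_ne (abs_nonneg _) (Ne.symm ht)
  have h6 := round_le t k
  have h7 : dZ t ≤ |t - k| := h6
  have h8 : |2 * Real.pi * k - 2 * Real.pi * t| = 2 * Real.pi * |t - k| := by
    rw [← mul_sub, abs_mul, abs_of_pos (by positivity), abs_sub_comm]
  rw [h8] at h3
  have := Real.pi_gt_three
  nlinarith

/-- points of the right half of the disc are not in the integer horodiscs -/
theorem far {κ t : ℝ} (h0 : 0 < κ) (h1 : κ ≤ 1 / 16) (ht : dZ t ≠ 0) {n : ℕ} (hn : 1 ≤ n) {s : ℂ}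
    (hs : s ∈ DL κ n t) (hre : 0 < s.re) (k : ℤ) : 8 * n * s.re < (s.im - 2 * Real.pi * k) ^ 2 := by
  have h2 := DL_im hs
  have h3 := DL_re hs
  have h4 := R_le (t := t) h1 hn
  have h5 : 0 < dZ t := lt_of_le_of_ne (abs_nonneg _) (Ne.symm ht)
  have h7 : dZ t ≤ |t - k| := round_le t k
  have hn0 : (0 : ℝ) < n := by exact_mod_cast hn
  have h8 : |2 * Real.pi * t - 2 * Real.pi * k| = 2 * Real.pi * |t - k| := by
    rw [← mul_sub, abs_mul, abs_of_pos (by positivity)]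
  have h9 : 2 * Real.pi * |t - k| ≤ |s.im - 2 * Real.pi * k| + |s.im - 2 * Real.pi * t| := by
    rw [← h8]
    have : 2 * Real.pi * t - 2 * Real.pi * k = (s.im - 2 * Real.pi * k) - (s.im - 2 * Real.pi * t) := by
      ring
    rw [this]
    exact abs_sub _ _
  have hpi := Real.pi_gt_three
  have h10 : 5 * dZ t ≤ |s.im - 2 * Real.pi * k| := by nlinarith
  have h11 : 25 * dZ t ^ 2 ≤ (s.im - 2 * Real.pi * k) ^ 2 := by
    rw [← sq_abs (s.im - 2 * Real.pi * k)]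
    nlinarith
  have h12 : 8 * n * s.re ≤ 8 * (κ * dZ t ^ 2) := by
    have h13 : n * s.re ≤ n * (κ * dZ t ^ 2 / n) := by gcongr
    have h14 : (n : ℝ) * (κ * dZ t ^ 2 / n) = κ * dZ t ^ 2 := by field_simp
    linarith
  have h15 : κ * dZ t ^ 2 ≤ 1 / 16 * dZ t ^ 2 := by gcongr
  nlinarith [sq_nonneg (dZ t), pow_pos h5 2]

theorem far2 {κ t : ℝ} (h0 : 0 < κ) (h1 : κ ≤ 1 / 16) (ht : dZ t ≠ 0) {n : ℕ} (hn : 1 ≤ n) {s : ℂ}
    (hs : s ∈ DL κ n t) (hre : 0 < s.re) (k : ℤ) :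
    2 * n * Real.log 2 * s.re < ‖s - k * tpi‖ ^ 2 := by
  have h2 := far h0 h1 ht hn hs hre k
  have hn0 : (0 : ℝ) < n := by exact_mod_cast hn
  have hlog := Real.log_two_lt_d9
  have hlog0 : 0 < Real.log 2 := Real.log_pos (by norm_num)
  have h3 : (s - k * tpi).im = s.im - 2 * Real.pi * k := by rw [sub_im, int_mul_tpi_im]
  have h4 : (s.im - 2 * Real.pi * k) ^ 2 ≤ ‖s - k * tpi‖ ^ 2 := by
    rw [← h3, ← sq_abs ((s - k * tpi).im)]
    gcongr
    exact abs_im_le_norm _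
  have h5 : 2 * n * Real.log 2 * s.re ≤ 8 * n * s.re := by
    have : 2 * n * Real.log 2 ≤ 8 * n := by nlinarith
    nlinarith
  linarith

theorem DLP_convex (κ t : ℝ) (n : ℕ) : Convex ℝ (DL κ n t ∩ HP) :=
  (DL_convex κ t n).inter (convex_halfSpace_gt (f := Complex.re)
    { map_add := fun _ _ => add_re _ _, map_smul := fun _ _ => by simp } 0)

theorem DLN_convex (κ t : ℝ) (n : ℕ) : Convex ℝ (DL κ n t ∩ {s : ℂ | s.re < 0}) :=
  (DL_convex κ t n).inter (convex_halfSpace_lt (f := Complex.re)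
    { map_add := fun _ _ => add_re _ _, map_smul := fun _ _ => by simp } 0)

/-! ## sections and limits -/

/-- sections of the curve -/
theorem section_at (hX : S_XLOC) {n : ℕ} (hn : 1 ≤ n) {x : ℂ × ℂ × ℂ} (hx : x ∈ XX n HP) :
    ∃ Y : ℂ → ℂ × ℂ × ℂ, Tendsto Y (𝓝 x.1) (𝓝 x) ∧
      (∀ᶠ c in 𝓝 x.1, (Y c).1 = c ∧ Y c ∈ XX n HP) ∧
      ∀ᶠ y in 𝓝 x, y ∈ XX n HP → y = Y y.1 := by
  obtain ⟨c₀, z₀, s₀⟩ := x
  obtain ⟨hsD, hf, hm⟩ := hx
  simp only at hsD hf hm ⊢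
  have hs : exp s₀ ≠ 1 := by
    intro h
    have h1 := congrArg norm h
    rw [norm_exp, norm_one] at h1
    have h2 : 0 < s₀.re := hsD
    have := Real.one_lt_exp_iff.2 h2
    linarith
  obtain ⟨δ, ζ, σ, hδ, hζ, hσ, hζ0, hσ0, h1, h2⟩ := hX n c₀ z₀ s₀ hn hf hm hs
  have hn0 := ball_mem_nhds c₀ hδ
  have hg : ContinuousAt (fun c : ℂ => ((c, ζ c, σ c) : ℂ × ℂ × ℂ)) c₀ :=
    continuousAt_id.prodMk ((hζ.differentiableAt hn0).continuousAt.prodMk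
      (hσ.differentiableAt hn0).continuousAt)
  have hg0 : ((c₀, ζ c₀, σ c₀) : ℂ × ℂ × ℂ) = (c₀, z₀, s₀) := by rw [hζ0, hσ0]
  refine ⟨fun c => (c, ζ c, σ c), ?_, ?_, ?_⟩
  · have := hg.tendsto
    rw [hg0] at this
    exact this
  · have e2 : ∀ᶠ c in 𝓝 c₀, σ c ∈ HP := by
      refine (hσ.differentiableAt hn0).continuousAt.eventually_mem (isOpen_HP.mem_nhds ?_)
      rw [hσ0]
      exact hsD
    filter_upwards [hn0, e2] with c g1 g2
    exact ⟨rfl, g2, (h1 c g1).1, (h1 c g1).2⟩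
  · have c1 : ∀ᶠ y : ℂ × ℂ × ℂ in 𝓝 (c₀, z₀, s₀), y.1 ∈ ball c₀ δ :=
      (continuous_fst.tendsto (c₀, z₀, s₀)).eventually_mem (ball_mem_nhds _ hδ)
    have c2 : ∀ᶠ y : ℂ × ℂ × ℂ in 𝓝 (c₀, z₀, s₀), y.2.1 ∈ ball z₀ δ :=
      ((continuous_fst.comp continuous_snd).tendsto (c₀, z₀, s₀)).eventually_mem
        (ball_mem_nhds _ hδ)
    have c3 : ∀ᶠ y : ℂ × ℂ × ℂ in 𝓝 (c₀, z₀, s₀), y.2.2 ∈ ball s₀ δ :=
      ((continuous_snd.comp continuous_snd).tendsto (c₀, z₀, s₀)).eventually_mem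
        (ball_mem_nhds _ hδ)
    filter_upwards [c1, c2, c3] with y d1 d2 d3 hy
    obtain ⟨g1, g2⟩ := h2 y.1 d1 y.2.1 d2 hy.2.1
    exact Prod.ext rfl (Prod.ext g1 (g2 y.2.2 d3 hy.2.2))

section
variable {G : ℂ → ℂ → ℝ} {B : ℂ → ℂ → ℂ} {cc : ℂ → ℂ} {lam : ℂ → ℂ → ℂ}
  {Z ell : (ℕ → Bool) → ℂ → ℂ}

/-- parameters with an indifferent point -/
def PP (n : ℕ) (v : ℝ) : Set ℂ := {c : ℂ | ∃ z, (f c)^[n] z = z ∧ mul n c z = exp (tpi * v)}

theorem exp_v_ne {v : ℝ} (hv : dZ v ≠ 0) : exp (tpi * (v : ℂ)) ≠ 1 := by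
  intro h
  have h2 : exp (tpi * (v : ℂ)) = exp 0 := by rw [h, exp_zero]
  rw [exp_eq_iff] at h2
  obtain ⟨k, hk⟩ := h2
  rw [zero_add, _root_.mul_comm] at hk
  have h3 := mul_right_cancel₀ tpi_ne hk
  have h4 : v = k := by exact_mod_cast h3
  apply hv
  unfold dZ
  rw [h4]
  simp

theorem PP_closure (hFr : S_FRO) {n : ℕ} (hn : 1 ≤ n) {v : ℝ} (hv : dZ v ≠ 0) {c : ℂ}
    (hc : c ∈ PP n v) : c ∈ closure MMᶜ := by
  obtain ⟨z, h1, h2⟩ := hc
  have h3 : ‖mul n c z‖ = 1 := by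
    rw [h2, norm_exp, tpit_re, Real.exp_zero]
  exact (hFr n c z hn h1 h3.le).2 h3 (by rw [h2]; exact exp_v_ne hv)

/-- limits of points with a given label and class -/
theorem lim_LC (hK : S_XCPT) {n : ℕ} (hn : 1 ≤ n) (hG : LabG G B cc Z ell n) {e : ℕ → Bool} {m : ℤ}
    {v : ℝ} {x : ℕ → ℂ × ℂ × ℂ} (hx : ∀ k, LC G B cc Z ell n e m v (x k)) :
    ∃ (a : ℂ × ℂ × ℂ) (φ : ℕ → ℕ), StrictMono φ ∧ Tendsto (x ∘ φ) atTop (𝓝 a) ∧
      (LC G B cc Z ell n e m v a ∨ a.1 ∈ PP n v) := by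
  have hlog : 0 < Real.log 2 := Real.log_pos (by norm_num)
  have hn0 : (0 : ℝ) < n := by exact_mod_cast hn
  set r : ℝ := 2 * n * Real.log 2 with hr
  have hr0 : 0 < r := by positivity
  have hball : ∀ k, (x k).2.2 ∈ closedBall (tpi * (v : ℂ)) r := by
    intro k
    have h1 := hG.hor e m v _ (hx k)
    have h2 : (x k).2.2.re ≤ ‖(x k).2.2 - tpi * v‖ := by
      have h3 : ((x k).2.2 - tpi * (v : ℂ)).re = (x k).2.2.re := by rw [sub_re, tpit_re, sub_zero]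
      rw [← h3]
      exact (le_abs_self _).trans (abs_re_le_norm _)
    have h4 : 0 < (x k).2.2.re := (hx k).1.1
    have h5 : 0 < ‖(x k).2.2 - tpi * v‖ := lt_of_lt_of_le h4 h2
    rw [mem_closedBall, dist_eq_norm]
    have h6 : ‖(x k).2.2 - tpi * v‖ * ‖(x k).2.2 - tpi * v‖ ≤ r * ‖(x k).2.2 - tpi * v‖ := by
      calc ‖(x k).2.2 - tpi * v‖ * ‖(x k).2.2 - tpi * v‖ = ‖(x k).2.2 - tpi * v‖ ^ 2 := by ring
        _ ≤ 2 * n * Real.log 2 * (x k).2.2.re := h1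
        _ ≤ r * ‖(x k).2.2 - tpi * v‖ := by rw [hr]; gcongr
    exact le_of_mul_le_mul_right h6 h5
  have hmem : ∀ k, x k ∈ XX n (closedBall (tpi * (v : ℂ)) r) := fun k => ⟨hball k, (hx k).1.2⟩
  obtain ⟨a, ha, φ, hφ, hlim⟩ := (hK.1 n hn _ (isCompact_closedBall (tpi * (v : ℂ)) r)).tendsto_subseq
    hmem
  refine ⟨a, φ, hφ, hlim, ?_⟩
  have hls : Tendsto (fun k => (x (φ k)).2.2) atTop (𝓝 a.2.2) :=
    ((continuous_snd.comp continuous_snd).tendsto a).comp hlim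
  have hbd : ‖a.2.2 - tpi * v‖ ^ 2 ≤ r * a.2.2.re := by
    have h1 : Tendsto (fun k => ‖(x (φ k)).2.2 - tpi * v‖ ^ 2) atTop (𝓝 (‖a.2.2 - tpi * v‖ ^ 2)) :=
      ((hls.sub_const _).norm).pow 2
    have h2 : Tendsto (fun k => r * (x (φ k)).2.2.re) atTop (𝓝 (r * a.2.2.re)) :=
      ((Complex.continuous_re.tendsto _).comp hls).const_mul _
    exact le_of_tendsto_of_tendsto' h1 h2 fun k => hG.hor e m v _ (hx _)
  have hre : 0 ≤ a.2.2.re := by
    have h2 : Tendsto (fun k => (x (φ k)).2.2.re) atTop (𝓝 a.2.2.re) :=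
      (Complex.continuous_re.tendsto _).comp hls
    exact ge_of_tendsto' h2 fun k => ((hx (φ k)).1.1 : 0 < (x (φ k)).2.2.re).le
  rcases eq_or_lt_of_le hre with h0 | h0
  · right
    rw [← h0, mul_zero] at hbd
    have h3 : ‖a.2.2 - tpi * v‖ = 0 := by
      have := norm_nonneg (a.2.2 - tpi * v)
      nlinarith
    have h4 : a.2.2 = tpi * v := sub_eq_zero.1 (norm_eq_zero.1 h3)
    exact ⟨a.2.1, ha.2.1, by rw [ha.2.2, h4]⟩
  · left
    refine hG.clim e m v a ?_ ⟨h0, ha.2⟩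
    exact hlim.frequently (Eventually.of_forall fun k => hx (φ k)).frequently

/-- the set of the parameters of `M` with a point with a given label and class -/
def SS (G : ℂ → ℂ → ℝ) (B : ℂ → ℂ → ℂ) (cc : ℂ → ℂ) (Z ell : (ℕ → Bool) → ℂ → ℂ) (n : ℕ)
    (e : ℕ → Bool) (m : ℤ) (v : ℝ) : Set ℂ := {c | ∃ x, x.1 = c ∧ LC G B cc Z ell n e m v x}

theorem SS_closure (hK : S_XCPT) {n : ℕ} (hn : 1 ≤ n) (hG : LabG G B cc Z ell n) {e : ℕ → Bool}
    {m : ℤ} {v : ℝ} : closure (SS G B cc Z ell n e m v) ⊆ SS G B cc Z ell n e m v ∪ PP n v := by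
  intro c hc
  obtain ⟨cs, hcs, hlim⟩ := mem_closure_iff_seq_limit.1 hc
  choose x hx1 hx2 using hcs
  obtain ⟨a, φ, hφ, hal, ha⟩ := lim_LC hK hn hG hx2
  have h1 : Tendsto (fun k => (x (φ k)).1) atTop (𝓝 a.1) := (continuous_fst.tendsto a).comp hal
  have h2 : Tendsto (fun k => (x (φ k)).1) atTop (𝓝 c) := by
    have : (fun k => (x (φ k)).1) = fun k => cs (φ k) := by
      funext k
      exact hx1 _
    rw [this]
    exact hlim.comp hφ.tendsto_atTop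
  have h3 := tendsto_nhds_unique h1 h2
  rcases ha with h | h
  · exact Or.inl ⟨a, h3, h⟩
  · exact Or.inr (h3 ▸ h)

/-- sections through points with labels -/
theorem section_LC (hX : S_XLOC) {n : ℕ} (hn : 1 ≤ n) (hG : LabG G B cc Z ell n) {e : ℕ → Bool}
    {m : ℤ} {v : ℝ} {x : ℂ × ℂ × ℂ} (hx : LC G B cc Z ell n e m v x) :
    ∃ Y : ℂ → ℂ × ℂ × ℂ, Tendsto Y (𝓝 x.1) (𝓝 x) ∧ ∀ᶠ c in 𝓝 x.1, (Y c).1 = c ∧
      Y c ∈ XX n HP ∧ (c ∈ MM → LC G B cc Z ell n e m v (Y c)) ∧ (c ∉ MM → LX cc Z ell n e m (Y c)) := by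
  obtain ⟨Y, h1, h2, _⟩ := section_at hX hn hx.1
  refine ⟨Y, h1, ?_⟩
  filter_upwards [h2, h1.eventually (hG.cloc e m v x hx)] with c h3 h4
  have h5 := h4 h3.2
  rw [h3.1] at h5
  exact ⟨h3.1, h3.2, h5.1, h5.2⟩

/-! ## the case of two repelling points -/

/-- two points over the same parameter of `M` with the same label are equal -/
theorem pair_unique (hTop : S_TOP) (hX : S_XLOC) (hK : S_XCPT) (hCn : S_CNTN) {n : ℕ} (hn : 1 ≤ n)
    (hG : LabG G B cc Z ell n) {e : ℕ → Bool} {m : ℤ} {v₁ v₂ : ℝ} {x₁ x₂ : ℂ × ℂ × ℂ}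
    (h1 : LC G B cc Z ell n e m v₁ x₁) (h2 : LC G B cc Z ell n e m v₂ x₂) (hc : x₁.1 = x₂.1) :
    x₁ = x₂ := by
  by_contra hne
  set A : Set ℂ := {c | ∃ x x', x.1 = c ∧ x'.1 = c ∧ x ≠ x' ∧ LC G B cc Z ell n e m v₁ x ∧
    LC G B cc Z ell n e m v₂ x'} with hA
  obtain ⟨c, ⟨x, x', hx, hx', hxx, g1, g2⟩, hcl⟩ := hTop A (PP n v₁ ∪ PP n v₂)
    ⟨x₁.1, x₁, x₂, rfl, hc.symm, hne, h1, h2⟩ (by
      rintro c ⟨x, x', hx, hx', _, g1, _⟩
      rw [← hx]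
      exact g1.2.1) (((hCn n hn).1 _).union ((hCn n hn).1 _)) (by
      rintro c ⟨x, x', hx, hx', hxx, g1, g2⟩
      obtain ⟨Y, k1, k2⟩ := section_LC hX hn hG g1
      obtain ⟨Y', k1', k2'⟩ := section_LC hX hn hG g2
      rw [hx] at k1 k2
      rw [hx'] at k1' k2'
      have hsep : ∀ᶠ c' in 𝓝 c, Y c' ≠ Y' c' := by
        have := (k1.prodMk_nhds k1').eventually_mem
          ((isClosed_diagonal (X := ℂ × ℂ × ℂ)).isOpen_compl.mem_nhds
            (show (x, x') ∈ (diagonal (ℂ × ℂ × ℂ))ᶜ by simpa using hxx))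
        filter_upwards [this] with c' h h'
        exact h (by simpa using h')
      filter_upwards [k2, k2', hsep] with c' l1 l2 l3 hM
      exact ⟨Y c', Y' c', l1.1, l2.1, l3, l1.2.2.1 hM, l2.2.2.1 hM⟩) (by
      intro c hc
      obtain ⟨cs, hcs, hlim⟩ := mem_closure_iff_seq_limit.1 hc
      choose x x' hx hx' hxx g1 g2 using hcs
      obtain ⟨a, φ, hφ, hal, ha⟩ := lim_LC hK hn hG g1
      obtain ⟨a', φ', hφ', hal', ha'⟩ := lim_LC hK hn hG (x := fun k => x' (φ k)) fun k => g2 (φ k)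
      have e1 : Tendsto (fun k => (x (φ k)).1) atTop (𝓝 a.1) := (continuous_fst.tendsto a).comp hal
      have e2 : Tendsto (fun k => (x (φ k)).1) atTop (𝓝 c) := by
        have : (fun k => (x (φ k)).1) = fun k => cs (φ k) := by
          funext k
          exact hx _
        rw [this]
        exact hlim.comp hφ.tendsto_atTop
      have e3 := tendsto_nhds_unique e1 e2
      have e1' : Tendsto (fun k => (x' (φ (φ' k))).1) atTop (𝓝 a'.1) :=
        (continuous_fst.tendsto a').comp hal'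
      have e2' : Tendsto (fun k => (x' (φ (φ' k))).1) atTop (𝓝 c) := by
        have : (fun k => (x' (φ (φ' k))).1) = fun k => cs (φ (φ' k)) := by
          funext k
          exact hx' _
        rw [this]
        exact hlim.comp (hφ.tendsto_atTop.comp hφ'.tendsto_atTop)
      have e3' := tendsto_nhds_unique e1' e2'
      rcases ha with ha | ha
      swap
      · exact Or.inr (Or.inl (e3 ▸ ha))
      rcases ha' with ha' | ha'
      swap
      · exact Or.inr (Or.inr (e3' ▸ ha'))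
      refine Or.inl ⟨a, a', e3, e3', ?_, ha, ha'⟩
      rintro rfl
      obtain ⟨Y, _, _, k3⟩ := section_at hX hn ha.1
      have f1 : Tendsto (fun k => x (φ (φ' k))) atTop (𝓝 a) := hal.comp hφ'.tendsto_atTop
      have f2 : Tendsto (fun k => x' (φ (φ' k))) atTop (𝓝 a) := hal'
      obtain ⟨k, l1, l2⟩ := ((f1.eventually k3).and (f2.eventually k3)).exists
      have l1' := l1 (g1 _).1
      have l2' := l2 (g2 _).1
      apply hxx (φ (φ' k))
      rw [l1', l2', hx, hx'])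
  obtain ⟨Y, k1, k2⟩ := section_LC hX hn hG g1
  obtain ⟨Y', k1', k2'⟩ := section_LC hX hn hG g2
  rw [hx] at k1 k2
  rw [hx'] at k1' k2'
  have hsep : ∀ᶠ c' in 𝓝 c, Y c' ≠ Y' c' := by
    have := (k1.prodMk_nhds k1').eventually_mem
      ((isClosed_diagonal (X := ℂ × ℂ × ℂ)).isOpen_compl.mem_nhds
        (show (x, x') ∈ (diagonal (ℂ × ℂ × ℂ))ᶜ by simpa using hxx))
    filter_upwards [this] with c' h h'
    exact h (by simpa using h')
  obtain ⟨c', hc', l1, l2, l3⟩ := ((mem_closure_iff_frequently.1 hcl).and_eventually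
    (k2.and (k2'.and hsep))).exists
  exact l3 (hG.xuni e m _ _ (l1.2.2.2 hc') (l2.2.2.2 hc') (by rw [l1.1, l2.1]))

end

end Pool.Agent.KS6_23.ML.UNIA
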