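import Pool.Agent.KS6_23.ML.Stm3
import Pool.Agent.KS6_23.ML.ALL
import Pool.Agent.KS6_23.ML.SAT
import Pool.Agent.KS6_23.ML.SHEET
import Pool.Agent.KS6_23.ML.EXI
import Pool.Agent.KS6_23.ML.UNIA

/-!
# Project ML, stage 2, module NEXT: the satellite component attached at the root of a limb
-/

set_option autoImplicit false

open Complex Set Filter Metric Topology

namespace Pool.Agent.KS6_23.ML.NEXT

open Pool.Agent.KS6_23.ML Pool.Agent.KS6_23.ML.Basic Pool.Agent.KS6_23.ML.XTools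

/-! ### Two attracting cycles -/

theorem fatou {M : ℕ} (hM : 1 ≤ M) {c z : ℂ} (hz : (f c)^[M] z = z) (hm : ‖mul M c z‖ < 1) :
    ∃ j, Tendsto (fun k => (f c)^[j + M * k] 0) atTop (𝓝 z) :=
  Pool.Agent.Y334.FU.fatouU (d := 2) le_rfl (c := c) (z := z) (N := M) ⟨hM, hz, hm⟩

/-- two attracting cycles of one parameter are the same cycle -/
theorem att_unique {M : ℕ} (hM : 1 ≤ M) {c z w : ℂ} (hz : (f c)^[M] z = z)
    (hz1 : ‖mul M c z‖ < 1) (hw : (f c)^[M] w = w) (hw1 : ‖mul M c w‖ < 1) :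
    ∃ m < M, z = (f c)^[m] w := by
  obtain ⟨j, hj⟩ := fatou hM hz hz1
  obtain ⟨i, hi⟩ := fatou hM hw hw1
  -- `m = j + M i - i`
  have h1 : i ≤ j + M * i := by nlinarith
  obtain ⟨m, hm⟩ := Nat.exists_eq_add_of_le h1
  have h2 : Tendsto (fun k => (f c)^[j + M * (k + i)] 0) atTop (𝓝 z) :=
    hj.comp (tendsto_add_atTop_nat i)
  have h3 : Tendsto (fun k => (f c)^[m] ((f c)^[i + M * k] 0)) atTop (𝓝 ((f c)^[m] w)) :=
    (((differentiable_iter c m).continuous.tendsto w).comp hi)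
  have h4 : (fun k => (f c)^[j + M * (k + i)] 0) = fun k => (f c)^[m] ((f c)^[i + M * k] 0) := by
    funext k
    rw [← Function.iterate_add_apply]
    congr 1
    have : j + M * (k + i) = j + M * i + M * k := by ring
    rw [this, hm]
    ring_nf
  rw [h4] at h2
  have h5 : z = (f c)^[m] w := tendsto_nhds_unique h2 h3
  refine ⟨m % M, Nat.mod_lt _ (by omega), ?_⟩
  rw [h5]
  exact (Function.IsPeriodicPt.iterate_mod_apply hw m).symm

/-- different cycles of a parameter are not both the limits of attracting cycles -/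
theorem sep_near {M : ℕ} (hM : 1 ≤ M) {a z₁ z₂ : ℂ} (hne : ∀ m < M, (f a)^[m] z₂ ≠ z₁) :
    ∃ δ : ℝ, 0 < δ ∧ ∀ c z w : ℂ, ‖c - a‖ < δ → ‖z - z₁‖ < δ → ‖w - z₂‖ < δ →
      (f c)^[M] z = z → ‖mul M c z‖ < 1 → (f c)^[M] w = w → ‖mul M c w‖ < 1 → False := by
  have h1 : ∀ᶠ y : ℂ × ℂ × ℂ in 𝓝 (a, z₁, z₂), ∀ m ∈ Finset.range M,
      (f y.1)^[m] y.2.2 ≠ y.2.1 := by
    rw [Filter.eventually_all_finset]
    intro m hm
    have h2 : Continuous (fun y : ℂ × ℂ × ℂ => (f y.1)^[m] y.2.2 - y.2.1) :=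
      ((cont_iter m).comp (by fun_prop : Continuous fun y : ℂ × ℂ × ℂ => (y.1, y.2.2))).sub
        (by fun_prop)
    have h3 := h2.continuousAt.eventually_ne (x := (a, z₁, z₂)) (y := 0)
      (sub_ne_zero.2 (hne m (Finset.mem_range.1 hm)))
    exact h3.mono fun y hy => sub_ne_zero.1 hy
  obtain ⟨δ, hδ, h2⟩ := Metric.eventually_nhds_iff.1 h1
  refine ⟨δ, hδ, fun c z w hc hz hw g1 g2 g3 g4 => ?_⟩
  obtain ⟨m, hm, h3⟩ := att_unique hM g1 g2 g3 g4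
  refine @h2 (c, z, w) ?_ m (Finset.mem_range.2 hm) h3.symm
  rw [Prod.dist_eq, Prod.dist_eq, max_lt_iff, max_lt_iff, dist_eq_norm, dist_eq_norm, dist_eq_norm]
  exact ⟨hc, hz, hw⟩

theorem mul_orbit {c z : ℂ} {n : ℕ} (hn : 1 ≤ n) (hz : (f c)^[n] z = z) (hm : mul n c z ≠ 0)
    (m : ℕ) : mul n c ((f c)^[m] z) = mul n c z := by
  induction m with
  | zero => rfl
  | succ m ih =>
    rw [Function.iterate_succ_apply', STAB.mul_shift hn (CNTN.per_iter hz m) (by rw [ih]; exact hm),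
      ih]

theorem direction {κ : ℂ} (hκ : κ ≠ 0) : ∃ ω : ℂ, (κ * ω).re < 0 ∧ (ω.re < 0 ∨ ω = 1) := by
  by_cases h : κ.re < 0
  · exact ⟨1, by rwa [mul_one], Or.inr rfl⟩
  · refine ⟨-1 + κ.im * I, ?_, Or.inl ?_⟩
    · push Not at h
      have h1 : 0 < κ.re + κ.im ^ 2 := by
        rcases h.lt_or_eq with h2 | h2
        · positivity
        · have h3 : κ.im ≠ 0 := fun h3 => hκ (Complex.ext h2.symm h3)
          have : 0 < κ.im ^ 2 := by positivity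
          linarith
      simp
      nlinarith
    · simp

/-- a real function with a negative derivative is negative to the right of a zero -/
theorem neg_right {g : ℝ → ℝ} {L : ℝ} (h0 : g 0 = 0) (hg : HasDerivAt g L 0) (hL : L < 0) :
    ∀ᶠ x : ℝ in 𝓝[>] 0, g x < 0 := by
  have h1 := hasDerivAt_iff_tendsto_slope.1 hg
  have h2 : ∀ᶠ x : ℝ in 𝓝[≠] 0, slope g 0 x < 0 := h1.eventually_lt_const hL
  have h3 : ∀ᶠ x : ℝ in 𝓝[>] 0, slope g 0 x < 0 :=
    h2.filter_mono (nhdsWithin_mono _ fun x hx => ne_of_gt hx)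
  filter_upwards [h3, self_mem_nhdsWithin] with x hx hx0
  have hx0' : (0 : ℝ) < x := hx0
  rw [slope_def_field, h0, sub_zero, sub_zero] at hx
  rw [div_lt_iff₀ hx0', zero_mul] at hx
  exact hx

theorem exp_p_ne {q : ℕ} {p : ℤ} (hq : 2 ≤ q) (hpq : IsCoprime p (q : ℤ)) :
    exp (tpi * ((p / q : ℝ) : ℂ)) ≠ 1 := UNIA.exp_v_ne (EXI.dZ_ne hq hpq)

/-- a parameter has no two indifferent cycles of this kind -/
theorem no_double {n q q' : ℕ} {p p' : ℤ} (hn : 1 ≤ n) (hq : 2 ≤ q) (hq' : 2 ≤ q')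
    (hpq : IsCoprime p (q : ℤ)) (hpq' : IsCoprime p' (q' : ℤ)) {a z₁ z₂ : ℂ}
    (h1 : (f a)^[n] z₁ = z₁) (m1 : mul n a z₁ = exp (tpi * ((p / q : ℝ) : ℂ)))
    (h2 : (f a)^[n * q] z₂ = z₂)
    (m2 : mul (n * q) a z₂ = exp (tpi * ((p' / q' : ℝ) : ℂ))) : False := by
  have hN : 1 ≤ n * q := Nat.one_le_iff_ne_zero.2 (Nat.mul_ne_zero (by omega) (by omega))
  have hNq : 1 ≤ n * q * q' := Nat.one_le_iff_ne_zero.2 (Nat.mul_ne_zero (by omega) (by omega))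
  -- the function `σ₁`
  obtain ⟨δ₁, ζ₁, σ₁, hδ₁, hζ₁, hσ₁, hζa, hσa, hfix, _⟩ :=
    XLOC.xloc n a z₁ (tpi * ((p / q : ℝ) : ℂ)) hn h1 m1 (exp_p_ne hq hpq)
  have hb1 : ball a δ₁ ∈ 𝓝 a := ball_mem_nhds a hδ₁
  have hσd : DifferentiableAt ℂ σ₁ a := hσ₁.differentiableAt hb1
  have hσ0 : deriv σ₁ a ≠ 0 := by
    have h3 := TRV.trv n a z₁ ζ₁ hn h1 (by rw [m1]; exact exp_ne_zero _)
      (by rw [m1]; exact exp_p_ne hq hpq)
      (by rw [m1, norm_exp, _root_.mul_comm, real_mul_tpi_re, Real.exp_zero])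
      (hζ₁.analyticAt hb1) hζa (by
        filter_upwards [hb1] with c hc using (hfix c hc).1)
    have h4 : (fun c => mul n c (ζ₁ c)) =ᶠ[𝓝 a] fun c => exp (σ₁ c) := by
      filter_upwards [hb1] with c hc using (hfix c hc).2
    rw [h4.deriv_eq, hσd.hasDerivAt.cexp.deriv] at h3
    exact right_ne_zero_of_mul h3
  -- the sheet `ψ₂`
  obtain ⟨κ₀, hκ0, hκ1, hext⟩ := ALL.ext
  have ht' := EXI.dZ_ne hq' hpq'
  obtain ⟨ψ, ζ, hψ, hζ, hψa, hζz, hmem⟩ := hext (n * q) (p' / q') hN ht' a z₂ h2 m2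
  set s₂ : ℂ := tpi * ((p' / q' : ℝ) : ℂ) with hs₂
  have hr := UNR.rad_pos hκ0 (t := (p' / q' : ℝ)) ht' hN
  have hD : DD κ₀ (n * q) (p' / q') ∈ 𝓝 s₂ := ball_mem_nhds _ hr
  have hψd : DifferentiableAt ℂ ψ s₂ := hψ.differentiableAt hD
  have hψ0 : deriv ψ s₂ ≠ 0 := (hmem s₂ (mem_of_mem_nhds hD)).2.2
  set κ : ℂ := deriv σ₁ a * deriv ψ s₂ with hκ
  obtain ⟨ω, hω, hω2⟩ := direction (mul_ne_zero hσ0 hψ0)
  -- the path
  have hpath : HasDerivAt (fun x : ℝ => s₂ + ω * x) ω 0 := by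
    have h3 : HasDerivAt (fun x : ℝ => (x : ℂ)) 1 0 := Complex.ofRealCLM.hasDerivAt
    simpa using (h3.const_mul ω).const_add s₂
  have hp0 : s₂ + ω * ((0 : ℝ) : ℂ) = s₂ := by simp
  have hpc : Tendsto (fun x : ℝ => s₂ + ω * x) (𝓝[>] 0) (𝓝 s₂) := by
    have := hpath.continuousAt.tendsto
    rw [hp0] at this
    exact this.mono_left nhdsWithin_le_nhds
  have hgd : HasDerivAt (fun x : ℝ => (σ₁ (ψ (s₂ + ω * x))).re) (κ * ω).re 0 := by
    have h3 : HasDerivAt ψ (deriv ψ s₂) (s₂ + ω * ((0 : ℝ) : ℂ)) := by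
      rw [hp0]; exact hψd.hasDerivAt
    have h4 := h3.comp_of_eq 0 hpath rfl
    have h5 : HasDerivAt σ₁ (deriv σ₁ a) (ψ (s₂ + ω * ((0 : ℝ) : ℂ))) := by
      rw [hp0, hψa]; exact hσd.hasDerivAt
    have h6 := h5.comp_of_eq 0 h4 rfl
    have h7 := (Complex.reCLM.hasFDerivAt.comp_hasDerivAt 0 h6)
    have h8 : Complex.reCLM (deriv σ₁ a * (deriv ψ s₂ * ω)) = (κ * ω).re := by
      rw [hκ, _root_.mul_assoc]; rfl
    rw [h8] at h7
    exact h7
  have hneg := neg_right (by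
    rw [hp0, hψa, hσa, _root_.mul_comm, real_mul_tpi_re]) hgd hω
  -- closeness
  have hψc : Tendsto (fun x : ℝ => ψ (s₂ + ω * x)) (𝓝[>] 0) (𝓝 a) := by
    have := hψd.continuousAt.tendsto.comp hpc
    rwa [hψa] at this
  have hζ₁c : Tendsto (fun x : ℝ => ζ₁ (ψ (s₂ + ω * x))) (𝓝[>] 0) (𝓝 z₁) := by
    have := (hζ₁.differentiableAt hb1).continuousAt.tendsto.comp hψc
    rwa [hζa] at this
  have hζc : Tendsto (fun x : ℝ => ζ (s₂ + ω * x)) (𝓝[>] 0) (𝓝 z₂) := by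
    have := (hζ.differentiableAt hD).continuousAt.tendsto.comp hpc
    rwa [hζz] at this
  -- different cycles
  have hne : ∀ m, (f a)^[m] z₂ ≠ z₁ := by
    intro m hm
    have h3 := mul_orbit hN h2 (by rw [m2]; exact exp_ne_zero _) m
    rw [hm, mul_iter a z₁ n h1 q, m1, m2, ← Complex.exp_nat_mul] at h3
    have h4 : (q : ℂ) * (tpi * ((p / q : ℝ) : ℂ)) = p * tpi := by
      have : (q : ℂ) ≠ 0 := by
        have : 0 < q := by omega
        exact_mod_cast this.ne'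
      push_cast
      field_simp
    rw [h4, exp_int_tpi] at h3
    exact exp_p_ne hq' hpq' h3.symm
  rcases hω2 with hω2 | hω2
  · -- both cycles are attracting
    obtain ⟨δ, hδ, hsep⟩ := sep_near hN (fun m _ => hne m)
    have e1 := hψc.eventually (ball_mem_nhds a hδ)
    have e2 := hψc.eventually hb1
    have e3 := hζ₁c.eventually (ball_mem_nhds z₁ hδ)
    have e4 := hζc.eventually (ball_mem_nhds z₂ hδ)
    have e5 := hpc.eventually hD
    obtain ⟨x, g1, g2, g3, g4, g5, g6, g7⟩ :=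
      (e1.and (e2.and (e3.and (e4.and (e5.and (hneg.and self_mem_nhdsWithin)))))).exists
    have hx : (0 : ℝ) < x := g7
    obtain ⟨g8, g9⟩ := hfix _ g2
    obtain ⟨⟨_, g10, g11⟩, _⟩ := hmem _ g5
    refine hsep _ _ _ (by rwa [← dist_eq_norm]) (by rwa [← dist_eq_norm])
      (by rwa [← dist_eq_norm]) ?_ ?_ g10 ?_
    · rw [Function.iterate_mul]; exact Function.iterate_fixed g8 q
    · rw [mul_iter _ _ n g8 q, g9, norm_pow, norm_exp]
      exact pow_lt_one₀ (Real.exp_pos _).le (Real.exp_lt_one_iff.2 g6) (by omega)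
    · rw [g11, norm_exp]
      apply Real.exp_lt_one_iff.2
      rw [hs₂, add_re, _root_.mul_comm tpi, real_mul_tpi_re, zero_add, re_mul_ofReal]
      nlinarith
  · -- the satellite cycle is attracting
    obtain ⟨δ, hδ, hsep⟩ := sep_near hNq (fun m _ => hne m)
    subst hω2
    have e1 := hψc.eventually (ball_mem_nhds a hδ)
    have e2 := hψc.eventually hb1
    have e3 := hζ₁c.eventually (ball_mem_nhds z₁ hδ)
    have e4 := SAT.sat (n * q) q' p' a z₂ ψ ζ hN hq' hpq' (hψ.analyticAt hD) (hζ.analyticAt hD)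
      hψa hζz (by
        filter_upwards [hD] with s hs using ⟨(hmem s hs).1.2.1, (hmem s hs).1.2.2⟩) δ hδ
    obtain ⟨x, g1, g2, g3, ⟨w, g4, g5, g6⟩, g7⟩ :=
      (e1.and (e2.and (e3.and (e4.and hneg)))).exists
    obtain ⟨g8, g9⟩ := hfix _ g2
    rw [one_mul] at g1 g2 g3 g7 g8 g9
    refine hsep _ _ w (by rwa [← dist_eq_norm]) (by rwa [← dist_eq_norm]) g4 ?_ ?_ g5 g6
    · rw [Nat.mul_assoc, Function.iterate_mul]; exact Function.iterate_fixed g8 _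
    · rw [Nat.mul_assoc, mul_iter _ _ n g8 (q * q'), g9, norm_pow, norm_exp]
      exact pow_lt_one₀ (Real.exp_pos _).le (Real.exp_lt_one_iff.2 g7)
        (Nat.mul_ne_zero (by omega) (by omega))

/-- the parameters with an attracting cycle of period (dividing) `N` -/
def HH (N : ℕ) : Set ℂ := {c : ℂ | ∃ z, (f c)^[N] z = z ∧ ‖mul N c z‖ < 1}

theorem HH_open (N : ℕ) : IsOpen (HH N) := by
  rw [isOpen_iff_mem_nhds]
  rintro c ⟨z, hz, hm⟩
  have hm1 : mul N c z ≠ 1 := by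
    intro h
    rw [h, norm_one] at hm
    exact lt_irrefl _ hm
  obtain ⟨δ, η, y, hδ, _, h2, h3, h4, _⟩ := ift_fix hz hm1
  have hd : DifferentiableAt ℂ y c :=
    h2.differentiableAt (isOpen_ball.mem_nhds (mem_ball_self hδ))
  have h5 : ContinuousAt (fun c' => ‖mul N c' (y c')‖) c := by
    have h6 : ContinuousAt (fun c' => ((c', y c') : ℂ × ℂ)) c :=
      continuousAt_id.prodMk hd.continuousAt
    exact ((cont_mul N).continuousAt.comp h6).norm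
  have h7 : ‖mul N c (y c)‖ < 1 := by rw [h3]; exact hm
  filter_upwards [ball_mem_nhds c hδ, h5.eventually_lt_const h7] with c' g1 g2
  exact ⟨y c', h4 c' g1, g2⟩

theorem HH_MM {N : ℕ} (hN : 1 ≤ N) : HH N ⊆ MM := fun _ ⟨_, hz, hm⟩ => FRO.mem_MM hN hz hm.le

/-- a parameter of the boundary of `M` does not have an attracting cycle -/
theorem not_HH {N : ℕ} (hN : 1 ≤ N) {c : ℂ} (hc : c ∈ closure MMᶜ) : c ∉ HH N := by
  intro h
  obtain ⟨c', h1, h2⟩ := mem_closure_iff.1 hc _ (HH_open N) h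
  exact h2 (HH_MM hN h1)

/-- preconnected subsets of `M` without `a` which meet a clopen set are in it -/
theorem conn_Clo {a : ℂ} {B W : Set ℂ} (hB : Clo a B) (hW : IsPreconnected W) (hWM : W ⊆ MM)
    (ha : a ∉ W) (hne : (W ∩ B).Nonempty) : W ⊆ B := by
  set u : Set ℂ := ⋃ c ∈ B, interior {c' | c' ∈ MM → c' ∈ B} with hu
  have h1 : W ⊆ interior {c' | c' ∈ MM → c' ∈ B} ∪ (closure B)ᶜ := by
    intro c hc
    by_cases h : c ∈ closure B
    · left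
      rcases hB.cls h with h2 | h2
      · exact absurd (h2 ▸ hc) ha
      · exact mem_interior_iff_mem_nhds.2 (hB.opn c h2)
    · exact Or.inr h
  intro c hc
  by_contra hcB
  have h2 : c ∈ (closure B)ᶜ := by
    intro h
    rcases hB.cls h with h2 | h2
    · exact ha (h2 ▸ hc)
    · exact hcB h2
  obtain ⟨b, hb1, hb2⟩ := hne
  obtain ⟨x, hx1, hx2, hx3⟩ := hW _ _ isOpen_interior isClosed_closure.isOpen_compl h1
    ⟨b, hb1, mem_interior_iff_mem_nhds.2 (hB.opn b hb2)⟩ ⟨c, hc, h2⟩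
  exact hx3 (subset_closure (interior_subset hx2 (hWM hx1)))

theorem next (hCan : S_CAN) : S_NEXT := by
  intro n q p c₁ z₁ B hn hq hpq hL hClo h0 hmax
  have hN : 1 ≤ n * q := Nat.one_le_iff_ne_zero.2 (Nat.mul_ne_zero (by omega) (by omega))
  have hv := EXI.dZ_ne hq hpq
  set v : ℝ := (p / q : ℝ) with hvd
  set s₁ : ℂ := tpi * (v : ℂ) with hs₁
  -- the sheet at the root
  obtain ⟨κ₀, hκ0, hκ1, hext⟩ := ALL.ext
  obtain ⟨ψ, ζ, hψ, hζ, hψa, hζz, hmem⟩ := hext n v hn hv c₁ z₁ hL.fix hL.mlt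
  have hr := UNR.rad_pos hκ0 (t := v) hv hn
  have hD : DD κ₀ n v ∈ 𝓝 s₁ := ball_mem_nhds _ hr
  obtain ⟨B', r₀, hr₀, hL', _, _, _, hlast⟩ := hCan n v c₁ z₁ hn hv hL.fix hL.mlt
  have hBB : B' ⊆ B := hmax B' hL'
  set r : ℝ := min r₀ (κ₀ * dZ v ^ 2 / n) with hrd
  have hr0 : 0 < r := lt_min hr₀ hr
  have hrD : ball s₁ r ⊆ DD κ₀ n v := ball_subset_ball (min_le_right _ _)
  -- the size of the multiplier
  have hmc : ContinuousAt (fun y : ℂ × ℂ => mul (n * q) y.1 y.2) (c₁, z₁) :=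
    (cont_mul (n * q)).continuousAt
  have hm1 : mul (n * q) c₁ z₁ = 1 := by
    rw [mul_iter c₁ z₁ n hL.fix q, hL.mlt, ← Complex.exp_nat_mul]
    have h4 : (q : ℂ) * (tpi * (v : ℂ)) = p * tpi := by
      have : (q : ℂ) ≠ 0 := by
        have : 0 < q := by omega
        exact_mod_cast this.ne'
      rw [hvd]
      push_cast
      field_simp
    rw [h4, exp_int_tpi]
  have hm2 : ∀ᶠ y : ℂ × ℂ in 𝓝 (c₁, z₁), mul (n * q) y.1 y.2 ≠ 0 := by
    refine hmc.eventually_ne ?_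
    rw [hm1]
    exact one_ne_zero
  obtain ⟨ε, hε, hm3⟩ := Metric.eventually_nhds_iff.1 hm2
  -- the path
  have hpc : Tendsto (fun x : ℝ => s₁ + x) (𝓝[>] 0) (𝓝 s₁) := by
    have h3 : Continuous (fun x : ℝ => s₁ + (x : ℂ)) := by fun_prop
    have h4 := h3.tendsto 0
    simp only [ofReal_zero, add_zero] at h4
    exact h4.mono_left nhdsWithin_le_nhds
  have hψc : Tendsto (fun x : ℝ => ψ (s₁ + x)) (𝓝[>] 0) (𝓝 c₁) := by
    have := (hψ.differentiableAt hD).continuousAt.tendsto.comp hpc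
    rwa [hψa] at this
  have e1 := SAT.sat n q p c₁ z₁ ψ ζ hn hq hpq (hψ.analyticAt hD) (hζ.analyticAt hD) hψa hζz (by
    filter_upwards [hD] with s hs using ⟨(hmem s hs).1.2.1, (hmem s hs).1.2.2⟩) ε hε
  have e2 := hpc.eventually (ball_mem_nhds s₁ hr0)
  have e3 := hψc.eventually (ball_mem_nhds c₁ hε)
  have e4 := e1.and (e2.and e3)
  rw [eventually_nhdsWithin_iff, Metric.eventually_nhds_iff] at e4
  obtain ⟨δ, hδ, hall⟩ := e4
  have hall' : ∀ x ∈ Ioo (0 : ℝ) δ, (∃ z, ‖z - z₁‖ < ε ∧ (f (ψ (s₁ + x)))^[n * q] z = z ∧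
      ‖mul (n * q) (ψ (s₁ + x)) z‖ < 1) ∧ s₁ + x ∈ ball s₁ r ∧ ψ (s₁ + x) ∈ ball c₁ ε := by
    intro x hx
    exact hall (by rw [Real.dist_eq, sub_zero, abs_of_pos hx.1]; exact hx.2) hx.1
  -- the segment
  set T : Set ℂ := (fun x : ℝ => s₁ + x) '' Ioo 0 δ with hT
  have hTc : IsPreconnected T :=
    isPreconnected_Ioo.image _ (by fun_prop : Continuous fun x : ℝ => s₁ + (x : ℂ)).continuousOn
  have hTr : T ⊆ ball s₁ r ∩ HP := by
    rintro _ ⟨x, hx, rfl⟩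
    refine ⟨(hall' x hx).2.1, ?_⟩
    unfold HP
    rw [mem_ofPred_eq, add_re, hs₁, _root_.mul_comm, real_mul_tpi_re, zero_add, ofReal_re]
    exact hx.1
  have hev : ∀ᶠ x : ℝ in 𝓝[>] 0, x ∈ Ioo 0 δ := Ioo_mem_nhdsGT hδ
  have hTcl : s₁ ∈ closure T := mem_closure_of_tendsto hpc (hev.mono fun x hx => ⟨x, hx, rfl⟩)
  have hTH : ∀ s ∈ T, ψ s ∈ HH (n * q) := by
    rintro _ ⟨x, hx, rfl⟩
    obtain ⟨⟨z, _, h3, h4⟩, _⟩ := hall' x hx
    exact ⟨z, h3, h4⟩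
  have hTB : ∀ s ∈ T, ψ s ∈ B := fun s hs => hBB (hlast r hr0 (min_le_left _ _) ψ ζ T
    (hψ.continuousOn.mono hrD) (hζ.continuousOn.mono hrD) hψa hζz
    (fun s hs => ⟨mem_univ _, (hmem s (hrD hs)).1.2⟩) hTr hTc hTcl
    (fun s hs => HH_MM hN (hTH s hs)) s hs)
  -- the component
  set x₀ : ℝ := δ / 2 with hx₀
  have hx₀m : x₀ ∈ Ioo 0 δ := ⟨by positivity, by linarith⟩
  set c₀ : ℂ := ψ (s₁ + x₀) with hc₀
  have hc₀T : s₁ + (x₀ : ℂ) ∈ T := ⟨x₀, hx₀m, rfl⟩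
  set W : Set ℂ := connectedComponentIn (HH (n * q)) c₀ with hW
  have hWH : W ⊆ HH (n * q) := connectedComponentIn_subset _ _
  have hWp : IsPreconnected W := isPreconnected_connectedComponentIn
  have hc₀W : c₀ ∈ W := mem_connectedComponentIn (hTH _ hc₀T)
  have hTW : ∀ s ∈ T, ψ s ∈ W := by
    have h1 : IsPreconnected (ψ '' T) :=
      hTc.image _ ((hψ.continuousOn.mono hrD).mono fun s hs => (hTr hs).1)
    have h2 : ψ '' T ⊆ W := h1.subset_connectedComponentIn ⟨_, hc₀T, rfl⟩ (by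
      rintro _ ⟨s, hs, rfl⟩
      exact hTH s hs)
    exact fun s hs => h2 ⟨s, hs, rfl⟩
  have hc₁f : c₁ ∈ closure MMᶜ := by
    refine (FRO.fro n c₁ z₁ hn hL.fix ?_).2 ?_ ?_
    · rw [hL.mlt, norm_exp, _root_.mul_comm, real_mul_tpi_re, Real.exp_zero]
    · rw [hL.mlt, norm_exp, _root_.mul_comm, real_mul_tpi_re, Real.exp_zero]
    · rw [hL.mlt]
      exact exp_p_ne hq hpq
  have hWB : W ⊆ B := conn_Clo hClo hWp (fun c hc => HH_MM hN (hWH hc))
    (fun h => not_HH hN hc₁f (hWH h)) ⟨c₀, hc₀W, hTB _ hc₀T⟩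
  refine ⟨W, hWp, hWB, ?_, fun c hc => hWH hc, ?_⟩
  · exact mem_closure_of_tendsto hψc (hev.mono fun x hx => hTW _ ⟨x, hx, rfl⟩)
  intro q' p' hq' hpq'
  -- the sheet over the left half plane
  obtain ⟨⟨z₀, g1, g2, g3⟩, _, g4⟩ := hall' x₀ hx₀m
  have hμ0 : mul (n * q) c₀ z₀ ≠ 0 := by
    refine @hm3 (c₀, z₀) ?_
    rw [Prod.dist_eq, max_lt_iff, dist_eq_norm, dist_eq_norm]
    rw [mem_ball, dist_eq_norm] at g4
    exact ⟨g4, g1⟩
  set s₀ : ℂ := Complex.log (mul (n * q) c₀ z₀) with hs₀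
  have hes₀ : mul (n * q) c₀ z₀ = exp s₀ := (Complex.exp_log hμ0).symm
  have hs₀re : s₀.re < 0 := by
    rw [hs₀, Complex.log_re]
    exact Real.log_neg (norm_pos_iff.2 hμ0) g3
  obtain ⟨κ₁, hκ10, hκ11, hunr⟩ := ALL.unr
  obtain ⟨Ψ, Z, hΨ, hZ, hΨ0, hZ0, hΨm⟩ := SHEET.extg TRV.trv XLOC.xloc XLOC.xcpt CNTN.cntn κ₁
    hκ10 hκ11 (fun n t hn ht x hx ζ h1 h2 h3 => hunr n t hn ht x hx ζ h1 h2 h3) (n * q)
    {s : ℂ | s.re < 0} hN (isOpen_lt continuous_re continuous_const) (convex_halfSpace_re_lt 0)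
    (fun s hs => ⟨fun h1 => by
      have h2 : ‖exp s‖ = 1 := by rw [h1, norm_one]
      rw [norm_exp, Real.exp_eq_one_iff] at h2
      exact hs.ne h2, fun h1 => absurd hs (not_lt.2 h1)⟩)
    s₀ hs₀re c₀ z₀ g2 hes₀
  have hΨH : ∀ s : ℂ, s.re < 0 → Ψ s ∈ HH (n * q) := by
    intro s hs
    obtain ⟨⟨_, h1, h2⟩, _⟩ := hΨm s hs
    refine ⟨Z s, h1, ?_⟩
    rw [h2, norm_exp]
    exact Real.exp_lt_one_iff.2 hs
  have hΨW : ∀ s : ℂ, s.re < 0 → Ψ s ∈ W := by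
    have h1 : IsPreconnected (Ψ '' {s : ℂ | s.re < 0}) :=
      (convex_halfSpace_re_lt 0).isPreconnected.image _ hΨ.continuousOn
    have h2 : Ψ '' {s : ℂ | s.re < 0} ⊆ W :=
      h1.subset_connectedComponentIn ⟨s₀, hs₀re, hΨ0⟩ (by
        rintro _ ⟨s, hs, rfl⟩
        exact hΨH s hs)
    exact fun s hs => h2 ⟨s, hs, rfl⟩
  -- the limit point
  set s₂ : ℂ := tpi * ((p' / q' : ℝ) : ℂ) with hs₂
  have hs₂re : s₂.re = 0 := by rw [hs₂, _root_.mul_comm, real_mul_tpi_re]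
  have hK := XLOC.xcpt.1 (n * q) hN (closedBall s₂ 1) (isCompact_closedBall _ _)
  have hsk : ∀ k : ℕ, (s₂ - ((1 / ((k : ℝ) + 1) : ℝ) : ℂ)).re < 0 := by
    intro k
    rw [sub_re, hs₂re, ofReal_re, zero_sub]
    have : (0 : ℝ) < 1 / ((k : ℝ) + 1) := by positivity
    linarith
  obtain ⟨y, hy, φ, hφ, hlim⟩ := hK.tendsto_subseq (x := fun k : ℕ =>
    (Ψ (s₂ - ((1 / ((k : ℝ) + 1) : ℝ) : ℂ)), Z (s₂ - ((1 / ((k : ℝ) + 1) : ℝ) : ℂ)),
      s₂ - ((1 / ((k : ℝ) + 1) : ℝ) : ℂ))) (fun k => by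
    refine ⟨?_, (hΨm _ (hsk k)).1.2⟩
    simp only [mem_closedBall, dist_eq_norm]
    rw [sub_sub_cancel_left, norm_neg, norm_real, Real.norm_of_nonneg (by positivity)]
    rw [div_le_one (by positivity)]
    have : (0 : ℝ) ≤ k := by positivity
    linarith)
  have hl1 := (continuous_fst.tendsto y).comp hlim
  have hl3 := ((continuous_snd.comp continuous_snd).tendsto y).comp hlim
  have hy3 : y.2.2 = s₂ := by
    have h1 : Tendsto (fun k : ℕ => s₂ - ((1 / ((k : ℝ) + 1) : ℝ) : ℂ)) atTop (𝓝 s₂) := by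
      have h2 := (Complex.continuous_ofReal.tendsto 0).comp
        (tendsto_one_div_add_atTop_nhds_zero_nat (𝕜 := ℝ))
      have h3 := h2.const_sub s₂
      simpa using h3
    exact tendsto_nhds_unique hl3 (h1.comp hφ.tendsto_atTop)
  obtain ⟨_, hy1, hy2⟩ := hy
  rw [hy3] at hy2
  have hcl : y.1 ∈ closure W := mem_closure_of_tendsto hl1
    (Eventually.of_forall fun k => hΨW _ (hsk _))
  refine ⟨y.1, y.2.1, ?_, hcl, hy1, hy2⟩
  rcases hClo.cls (closure_mono hWB hcl) with h1 | h1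
  · exfalso
    rw [h1] at hy1 hy2
    exact no_double hn hq hq' hpq hpq' hL.fix hL.mlt hy1 hy2
  · exact h1

end Pool.Agent.KS6_23.ML.NEXT
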