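import Pool.Agent.KS6_23.ML.UNIA

set_option autoImplicit false

/-! # Project ML, stage 2, module 29: the limbs are small in comparison with the component -/

open Complex Set Filter Metric Topology MeasureTheory

namespace Pool.Agent.KS6_23.ML.REL

open Pool.Agent.KS6_23.ML Pool.Agent.KS6_23.ML.UNIA

theorem DL_mono {κ κ' : ℝ} (h : κ' ≤ κ) (n : ℕ) (t : ℝ) : DL κ' n t ⊆ DL κ n t := by
  rintro s ⟨τ, h0, h1⟩
  refine ⟨τ, h0, ?_⟩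
  refine (ball_subset_ball ?_) h1
  exact div_le_div_of_nonneg_right (mul_le_mul_of_nonneg_right h (sq_nonneg _)) (Nat.cast_nonneg n)

theorem PSI_mono {κ κ' : ℝ} (h : κ' ≤ κ) {n : ℕ} {t : ℝ} {c z : ℂ} {ψ ζ : ℂ → ℂ}
    (hP : PSI κ n t c z ψ ζ) : PSI κ' n t c z ψ ζ where
  dψ := hP.dψ.mono (DL_mono h n t)
  dζ := hP.dζ.mono (DL_mono h n t)
  ψ0 := hP.ψ0
  ζ0 := hP.ζ0
  mem s hs := ⟨hs, (hP.mem s (DL_mono h n t hs)).2⟩
  bd s hs := hP.bd s (DL_mono h n t hs)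
  dne s hs := hP.dne s (DL_mono h n t hs)

theorem psi_open {κ : ℝ} {n : ℕ} {t : ℝ} {c z : ℂ} {ψ ζ : ℂ → ℂ} (h : PSI κ n t c z ψ ζ) {s : ℂ}
    (hs : s ∈ DL κ n t) {N : Set ℂ} (hN : N ∈ 𝓝 s) : ψ '' N ∈ 𝓝 (ψ s) := by
  have hA : AnalyticAt ℂ ψ s := h.dψ.analyticAt ((DL_open κ t n).mem_nhds hs)
  rcases hA.eventually_constant_or_nhds_le_map_nhds with h1 | h1
  · exfalso
    apply h.dne s hs
    have : ψ =ᶠ[𝓝 s] fun _ => ψ s := h1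
    rw [this.deriv_eq]
    simp
  · exact h1 (image_mem_map hN)

/-- attracting cycles near `z₀` are in the left part of the sheet -/
theorem near_psi (hX : S_XLOC) {κ : ℝ} (h0 : 0 < κ) (h1 : κ ≤ 1 / 16) {n : ℕ} (hn : 1 ≤ n) {t : ℝ}
    (ht : dZ t ≠ 0) {c₀ z₀ : ℂ} {ψ ζ : ℂ → ℂ} (h : PSI κ n t c₀ z₀ ψ ζ) :
    ∃ δ : ℝ, 0 < δ ∧ ∀ c z : ℂ, ‖c - c₀‖ < δ → ‖z - z₀‖ < δ → (f c)^[n] z = z →
      ‖mul n c z‖ < 1 → ∃ s ∈ DL κ n t, s.re < 0 ∧ ψ s = c := by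
  have hr := R_pos h0 ht hn
  have hs₀ : tpi * (t : ℂ) ∈ DL κ n t := DD_sub (mem_ball_self hr)
  have hm := h.mem _ hs₀
  rw [h.ψ0, h.ζ0] at hm
  obtain ⟨δ₁, ζ', σ, hδ₁, -, -, -, -, -, hu⟩ := hX n c₀ z₀ (tpi * t) hn hm.2.1 hm.2.2
    (DL_exp_ne h1 ht hn hs₀)
  have hopen := (DL_open κ t n).mem_nhds hs₀
  have hcψ : ContinuousAt ψ (tpi * t) := (h.dψ.differentiableAt hopen).continuousAt
  have hcζ : ContinuousAt ζ (tpi * t) := (h.dζ.differentiableAt hopen).continuousAt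
  have hN1 : ψ ⁻¹' ball c₀ δ₁ ∈ 𝓝 (tpi * (t : ℂ)) :=
    hcψ.preimage_mem_nhds (by rw [h.ψ0]; exact ball_mem_nhds _ hδ₁)
  have hN2 : ζ ⁻¹' ball z₀ δ₁ ∈ 𝓝 (tpi * (t : ℂ)) :=
    hcζ.preimage_mem_nhds (by rw [h.ζ0]; exact ball_mem_nhds _ hδ₁)
  have hN := inter_mem hopen (inter_mem hN1 hN2)
  have hI := psi_open h hs₀ hN
  rw [h.ψ0] at hI
  obtain ⟨δ₂, hδ₂, hb⟩ := Metric.mem_nhds_iff.1 hI
  refine ⟨min δ₁ δ₂, lt_min hδ₁ hδ₂, ?_⟩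
  intro c z hc hz hf hmul
  obtain ⟨s, ⟨hs, hs1, hs2⟩, rfl⟩ := hb (mem_ball_iff_norm.2 (hc.trans_le (min_le_right _ _)))
  have hcb : ψ s ∈ ball c₀ δ₁ := mem_ball_iff_norm.2 (hc.trans_le (min_le_left _ _))
  have e1 := (hu (ψ s) hcb z (mem_ball_iff_norm.2 (hz.trans_le (min_le_left _ _))) hf).1
  have e2 := (hu (ψ s) hcb (ζ s) hs2 (h.mem s hs).2.1).1
  refine ⟨s, hs, ?_, rfl⟩
  rw [e1, ← e2, (h.mem s hs).2.2, norm_exp, Real.exp_lt_one_iff] at hmul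
  exact hmul

theorem rel (hEx : S_EXL) (hU : S_UNI) (hL2 : S_LIMB2) (hKo : S_KOB) (hAt : S_ATU) (hX : S_XLOC)
    (hFr : S_FRO) : S_REL := by
  obtain ⟨κ, hκ, hκ16, hex⟩ := hEx
  obtain ⟨κ₁, hκ₁, huni⟩ := hU
  obtain ⟨κ₂, hκ₂, hlimb⟩ := hL2
  set K : ℝ := min κ (min κ₁ κ₂) with hKdef
  have hK0 : 0 < K := lt_min hκ (lt_min hκ₁ hκ₂)
  have hKκ : K ≤ κ := min_le_left _ _
  have hK16 : K ≤ 1 / 16 := hKκ.trans hκ16
  refine ⟨1000 / K, by positivity, ?_⟩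
  intro n q p c₀ z₀ B V a za hn hq hpq ht hC hLimb hVo hVc hVatt hVnear haV hza hma c hcB
  have hn1 : (1 : ℝ) ≤ n := by exact_mod_cast hn
  have hq1 : (1 : ℝ) ≤ q := by exact_mod_cast hq
  have hn0 : (0 : ℝ) < n := by linarith
  have hq0 : (0 : ℝ) < q := by linarith
  set t : ℝ := p / q with htdef
  have hdZ : 0 < dZ t := lt_of_le_of_ne (abs_nonneg _) (Ne.symm ht)
  obtain ⟨ψ, ζ, hP'⟩ := hex n t hn ht c₀ z₀ hLimb.fix hLimb.mlt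
  have hP : PSI K n t c₀ z₀ ψ ζ := PSI_mono hKκ hP'
  obtain ⟨hinj, hleft⟩ := huni K n t c₀ z₀ ψ ζ hK0 ((min_le_right _ _).trans (min_le_left _ _))
    hn ht hP
  set r : ℝ := K * dZ t ^ 2 / n with hr
  have hr0 : 0 < r := R_pos hK0 ht hn
  have hbs : ball (tpi * (t : ℂ)) r ⊆ DL K n t := DD_sub
  obtain ⟨hder, hgrow, hkoebe⟩ := hKo ψ (tpi * t) r hr0 (hP.dψ.mono hbs) (hinj.mono hbs)
  rw [hP.ψ0] at hgrow hkoebe
  -- the point `a` is not a value on the disc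
  have hVM : V ⊆ MM := by
    intro x hx
    obtain ⟨z, hz1, hz2⟩ := hVatt x hx
    exact (hFr n x z hn hz1 hz2.le).1
  have hVs : ∃ s ∈ DL K n t, s.re < 0 ∧ ψ s ∈ V := by
    obtain ⟨δ, hδ, hnear⟩ := near_psi hX hK0 hK16 hn ht hP
    obtain ⟨x, hx, z, g1, g2, g3, g4⟩ := hVnear δ hδ
    obtain ⟨s, hs, hs1, hs2⟩ := hnear x z g1 g2 g3 g4
    exact ⟨s, hs, hs1, hs2 ▸ hx⟩
  have hr4 : r < 1 / 2 := by
    have h1 := R_le (κ := K) (t := t) hK16 hn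
    have h2 : dZ t ≤ 1 / 2 := abs_sub_round t
    linarith
  have ha : a ∉ ψ '' ball (tpi * (t : ℂ)) r := by
    rintro ⟨s, hs, rfl⟩
    have hsD : s ∈ DL K n t := hbs hs
    have hre := hleft V hVo hVc hVM hVs s hsD haV
    have hm := hP.mem s hsD
    have hlt : ‖mul n (ψ s) (ζ s)‖ < 1 := by
      rw [hm.2.2, norm_exp, Real.exp_lt_one_iff]
      exact hre
    have h1 := hAt n (ψ s) (ζ s) za hn hm.2.1 hza hlt (by linarith)
    rw [← h1, hm.2.2, norm_exp] at hma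
    have h2 : -r < s.re := by
      have h3 := mem_ball_iff_norm.1 hs
      have h4 := abs_re_le_norm (s - tpi * (t : ℂ))
      rw [sub_re, tpit_re, sub_zero] at h4
      have := (abs_lt.1 (h4.trans_lt h3)).1
      exact this
    have h3 := Real.add_one_le_exp s.re
    linarith
  have ha2 : r * ‖deriv ψ (tpi * t)‖ / 4 ≤ ‖a - c₀‖ := by
    by_contra hlt
    rw [not_le] at hlt
    exact ha (hkoebe (mem_ball_iff_norm.2 hlt))
  -- the points of the limb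
  have hlog : Real.log 2 < 1 := by
    have := Real.log_two_lt_d9
    linarith
  have hlog0 : 0 < Real.log 2 := Real.log_pos (by norm_num)
  have hC' : 1000 * (n : ℝ) ^ 2 ≤ K * (q * dZ t ^ 2) := by
    have : 1000 / K * (n : ℝ) ^ 2 = (1000 * (n : ℝ) ^ 2) / K := by ring
    rw [this, div_le_iff₀ hK0] at hC
    linarith
  have hrq : 1000 * n / q ≤ r := by
    rw [hr, div_le_div_iff₀ hq0 hn0]
    nlinarith
  obtain ⟨s, hs1, hs2⟩ := hlimb K n q p c₀ z₀ ψ ζ B hK0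
    ((min_le_right _ _).trans (min_le_right _ _)) hn hq hpq ht hP hLimb (by
      refine lt_of_lt_of_le ?_ hrq
      rw [div_lt_div_iff_of_pos_right hq0]
      nlinarith) c hcB
  have hs3 : 2 * n * Real.log 2 / q ≤ 2 * n / q := by
    rw [div_le_div_iff_of_pos_right hq0]
    nlinarith
  have hs4 : ‖s - tpi * (t : ℂ)‖ ≤ 2 * n / q := by
    refine le_trans ?_ hs3
    convert hs1 using 4
  have hs5 : ‖s - tpi * (t : ℂ)‖ ≤ r / 2 := by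
    refine hs4.trans ?_
    have : 2 * (n : ℝ) / q = (1000 * n / q) / 500 := by ring
    rw [this]
    linarith
  have h5 := hgrow s hs5
  rw [hs2] at h5
  have h6 : ‖deriv ψ (tpi * t)‖ ≤ 4 * ‖a - c₀‖ / r := by
    rw [le_div_iff₀ hr0]
    linarith
  calc ‖c - c₀‖ ≤ 60 * ‖s - tpi * (t : ℂ)‖ * ‖deriv ψ (tpi * t)‖ := h5
    _ ≤ 60 * (2 * n / q) * (4 * ‖a - c₀‖ / r) := by
        gcongr
    _ = 480 / K * n ^ 2 / (q * dZ t ^ 2) * ‖a - c₀‖ := by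
        rw [hr]
        field_simp
        ring
    _ ≤ 1000 / K * n ^ 2 / (q * dZ t ^ 2) * ‖a - c₀‖ := by
        gcongr
        norm_num

end Pool.Agent.KS6_23.ML.REL
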