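import Pool.Agent.KS6_23.ML.Stm3
import Pool.Agent.KS6_23.ML.Basic

set_option autoImplicit false

/-! # Project ML, module 22: real parameters -/

open Complex Set Filter Metric Topology MeasureTheory

namespace Pool.Agent.KS6_23.ML.RINE

open Pool.Agent.KS6_23.ML

theorem cos_le_exp {x : ℝ} (h0 : 0 ≤ x) (h1 : x < Real.pi / 2) : x ^ 2 / 2 ≤ -Real.log (Real.cos x) := by
  have hanti : AntitoneOn (fun x : ℝ => Real.log (Real.cos x) + x ^ 2 / 2) (Ico 0 (Real.pi / 2)) := by
    have hpos : ∀ y ∈ Ico 0 (Real.pi / 2), 0 < Real.cos y := fun y hy =>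
      Real.cos_pos_of_mem_Ioo ⟨by linarith [hy.1, Real.pi_pos], hy.2⟩
    have hder : ∀ y ∈ Ico 0 (Real.pi / 2), HasDerivAt (fun x : ℝ => Real.log (Real.cos x) + x ^ 2 / 2)
        (-Real.sin y / Real.cos y + y) y := by
      intro y hy
      have h2 := (Real.hasDerivAt_cos y).log (hpos y hy).ne'
      have h3 : HasDerivAt (fun x : ℝ => x ^ 2 / 2) y y := by
        have h4 : HasDerivAt (fun x : ℝ => x ^ 2 / 2) (((2 : ℕ) : ℝ) * y ^ (2 - 1) / 2) y :=
          (hasDerivAt_pow 2 y).div_const 2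
        have h5 : (((2 : ℕ) : ℝ) * y ^ (2 - 1) / 2) = y := by norm_num
        rwa [h5] at h4
      exact h2.add h3
    apply antitoneOn_of_deriv_nonpos (convex_Ico _ _)
    · intro y hy
      exact (hder y hy).continuousAt.continuousWithinAt
    · intro y hy
      rw [interior_Ico] at hy
      exact (hder y ⟨hy.1.le, hy.2⟩).differentiableAt.differentiableWithinAt
    · intro y hy
      rw [interior_Ico] at hy
      rw [(hder y ⟨hy.1.le, hy.2⟩).deriv]
      have := Real.lt_tan hy.1 hy.2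
      rw [Real.tan_eq_sin_div_cos] at this
      rw [neg_div]; linarith
  have := hanti (left_mem_Ico.2 (by linarith [Real.pi_pos])) ⟨h0, h1⟩ h0
  simp only [Real.cos_zero, Real.log_one] at this
  norm_num at this
  linarith

theorem abs_arg_eq {w : ℂ} (hw : w ≠ 0) : |arg w| = Real.arccos (w.re / ‖w‖) := by
  rw [← Complex.cos_arg hw, ← Real.cos_abs, Real.arccos_cos (abs_nonneg _) (Complex.abs_arg_le_pi w)]

theorem abs_arg_add {w : ℂ} {c : ℝ} (hc : 0 ≤ c) (hw : w ≠ 0) (hwc : w + c ≠ 0) :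
    |arg (w + c)| ≤ |arg w| := by
  rw [abs_arg_eq hw, abs_arg_eq hwc]
  apply Real.arccos_le_arccos
  have h1 : 0 < ‖w‖ := norm_pos_iff.2 hw
  have h2 : 0 < ‖w + c‖ := norm_pos_iff.2 hwc
  rw [div_le_div_iff₀ h1 h2, add_re, ofReal_re]
  have h3 : ‖(c : ℂ)‖ = c := by rw [norm_real, Real.norm_eq_abs, abs_of_nonneg hc]
  have h4 : ‖w + c‖ ≤ ‖w‖ + c := by
    have := norm_add_le w (c : ℂ)
    rwa [h3] at this
  have h5 : ‖w‖ ≤ ‖w + c‖ + c := by
    have := norm_sub_le (w + c) (c : ℂ)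
    rw [add_sub_cancel_right, h3] at this
    exact this
  have h6 := abs_re_le_norm w
  rw [abs_le] at h6
  rcases le_total 0 w.re with h | h
  · nlinarith [mul_le_mul_of_nonneg_left h4 h, mul_le_mul_of_nonneg_left h6.2 hc]
  · nlinarith [mul_le_mul_of_nonneg_left h5 (neg_nonneg.2 h), mul_le_mul_of_nonneg_left h6.1 hc]

section

variable {c : ℝ} {n : ℕ} {z : ℂ}

theorem im_ne (hn : 1 ≤ n) (hc : 1 / 4 < c) (hz : (f c)^[n] z = z) (k : ℕ) : ((f c)^[k] z).im ≠ 0 := by
  intro h0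
  have hkn : (f c)^[k + n] z = (f c)^[k] z := by rw [Function.iterate_add_apply, hz]
  have hind : ∀ j : ℕ, ((f c)^[k + j] z).im = 0 ∧ ((f c)^[k] z).re + j * (c - 1 / 4) ≤ ((f c)^[k + j] z).re := by
    intro j
    induction j with
    | zero => simpa using h0
    | succ j ih =>
      rw [← add_assoc, Function.iterate_succ_apply']
      set w := (f c)^[k + j] z with hw
      obtain ⟨a, b⟩ := ih
      have e1 : (f c w).re = w.re ^ 2 - w.im ^ 2 + c := by
        unfold f; rw [pow_two, add_re, mul_re, ofReal_re]; ring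
      have e2 : (f c w).im = 2 * w.re * w.im := by
        unfold f; rw [pow_two, add_im, mul_im, ofReal_im]; ring
      refine ⟨by rw [e2, a]; ring, ?_⟩
      rw [e1, a]
      push_cast
      nlinarith [sq_nonneg (w.re - 1 / 2)]
  have h1 := (hind n).2
  rw [hkn] at h1
  have h2 : (0 : ℝ) < n * (c - 1 / 4) := by
    have : (1 : ℝ) ≤ n := by exact_mod_cast hn
    have : (0 : ℝ) < c - 1 / 4 := by linarith
    positivity
  linarith

end

theorem prod_shift {M : Type*} [CommMonoid M] (g : ℕ → M) (n : ℕ) (h : g n = g 0) :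
    ∏ k ∈ Finset.range n, g (k + 1) = ∏ k ∈ Finset.range n, g k := by
  rcases n with _ | n
  · simp
  · rw [Finset.prod_range_succ, h, ← Finset.prod_range_succ']

theorem rine : S_RINE := by
  intro c n z s hn hc hz hs
  set Z : ℕ → ℂ := fun k => (f c)^[k] z with hZ
  have hZ0 : Z n = Z 0 := hz
  have hstep : ∀ k, Z (k + 1) - c = Z k ^ 2 := by
    intro k
    simp only [hZ, Function.iterate_succ_apply']
    unfold f; ring
  have him : ∀ k, (Z k).im ≠ 0 := im_ne hn hc hz
  have hZne : ∀ k, Z k ≠ 0 := fun k h => him k (by rw [h]; rfl)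
  have himc : ∀ k, (Z k - c).im = (Z k).im := by intro k; rw [sub_im, ofReal_im, sub_zero]
  have hwne : ∀ k, Z k - c ≠ 0 := fun k h => him k (by rw [← himc, h]; rfl)
  set φ : ℕ → ℝ := fun k => |arg (Z k - c)| with hφ
  set r : ℕ → ℝ := fun k => ‖Z k - c‖ with hr
  have hrpos : ∀ k, 0 < r k := fun k => norm_pos_iff.2 (hwne k)
  have hφ0 : ∀ k, 0 < φ k := by
    intro k
    apply abs_pos.2
    intro h
    apply him k
    rw [← himc]
    rw [arg_eq_zero_iff] at h
    exact h.2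
  have hφ1 : ∀ k, φ k < Real.pi := by
    intro k
    have h1 := Complex.abs_arg_le_pi (Z k - c)
    refine lt_of_le_of_ne h1 fun h => ?_
    apply him k
    rw [← himc]
    rcases abs_eq Real.pi_pos.le |>.1 h with h2 | h2
    · exact (arg_eq_pi_iff.1 h2).2
    · exact absurd h2 (neg_pi_lt_arg _).ne'
  -- imaginary part squared, in two ways
  have hS : ∀ k, (Z k).im ^ 2 = r (k + 1) * Real.sin (φ (k + 1) / 2) ^ 2 := by
    intro k
    have h1 : Real.cos (φ (k + 1)) = (Z k ^ 2).re / ‖Z k ^ 2‖ := by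
      simp only [hφ]
      rw [Real.cos_abs, cos_arg (hwne _), hstep]
    have h2 : Real.cos (φ (k + 1)) = 1 - 2 * Real.sin (φ (k + 1) / 2) ^ 2 := by
      rw [Real.sin_sq_eq_half_sub]; ring_nf
    have h3 : r (k + 1) = ‖Z k ^ 2‖ := by simp only [hr]; rw [hstep]
    have h4 : 0 < ‖Z k ^ 2‖ := norm_pos_iff.2 (pow_ne_zero 2 (hZne k))
    have h5 : r (k + 1) * Real.cos (φ (k + 1)) = (Z k ^ 2).re := by
      rw [h1, h3]; field_simp
    have h6 : (Z k ^ 2).re = (Z k).re ^ 2 - (Z k).im ^ 2 := by rw [pow_two, mul_re]; ring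
    have h7 : r (k + 1) = (Z k).re ^ 2 + (Z k).im ^ 2 := by
      rw [h3, norm_pow, ← normSq_eq_norm_sq, normSq_apply]; ring
    rw [h2, mul_sub, h6] at h5
    nlinarith
  have hS' : ∀ k, (Z k).im ^ 2 = r k * Real.sin (φ k / 2) ^ 2 * (4 * r k * Real.cos (φ k / 2) ^ 2) := by
    intro k
    have h1 : |Real.sin (φ k)| = |(Z k - c).im / ‖Z k - c‖| := by
      simp only [hφ]
      rcases abs_choice (arg (Z k - c)) with h | h
      · rw [h, sin_arg]
      · rw [h, Real.sin_neg, abs_neg, sin_arg]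
    have h2 : Real.sin (φ k) ^ 2 * r k ^ 2 = (Z k).im ^ 2 := by
      rw [← sq_abs (Real.sin (φ k)), h1, sq_abs, himc, div_pow]
      exact div_mul_cancel₀ _ (pow_ne_zero 2 (hrpos k).ne')
    have h3 : Real.sin (φ k) = 2 * Real.sin (φ k / 2) * Real.cos (φ k / 2) := by
      rw [← Real.sin_two_mul]; ring_nf
    rw [← h2, h3]; ring
  have hsin : ∀ k, 0 < Real.sin (φ k / 2) := fun k =>
    Real.sin_pos_of_pos_of_lt_pi (by linarith [hφ0 k]) (by linarith [hφ1 k, hφ0 k])
  have hcos : ∀ k, 0 < Real.cos (φ k / 2) := fun k =>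
    Real.cos_pos_of_mem_Ioo ⟨by linarith [hφ0 k, Real.pi_pos], by linarith [hφ1 k]⟩
  -- products
  have hP1 : ∏ k ∈ Finset.range n, (Z k).im ^ 2 = ∏ k ∈ Finset.range n, (r k * Real.sin (φ k / 2) ^ 2) := by
    rw [← prod_shift (fun k => r k * Real.sin (φ k / 2) ^ 2) n (by simp only [hr, hφ, hZ0])]
    exact Finset.prod_congr rfl fun k _ => hS k
  have hP2 : ∏ k ∈ Finset.range n, (4 * r k * Real.cos (φ k / 2) ^ 2) = 1 := by
    have h1 : ∏ k ∈ Finset.range n, (Z k).im ^ 2 = (∏ k ∈ Finset.range n, (r k * Real.sin (φ k / 2) ^ 2)) *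
        ∏ k ∈ Finset.range n, (4 * r k * Real.cos (φ k / 2) ^ 2) := by
      rw [← Finset.prod_mul_distrib]
      exact Finset.prod_congr rfl fun k _ => hS' k
    have h2 : 0 < ∏ k ∈ Finset.range n, (r k * Real.sin (φ k / 2) ^ 2) :=
      Finset.prod_pos fun k _ => mul_pos (hrpos k) (pow_pos (hsin k) 2)
    rw [hP1] at h1
    exact (mul_eq_left₀ h2.ne').1 h1.symm
  have hm := Basic.mul_eq_prod n (c : ℂ) z
  rw [hs] at hm
  have hP3 : Real.exp s.re ^ 2 = ∏ k ∈ Finset.range n, (4 * r k) := by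
    rw [← norm_exp, hm, norm_prod, ← Finset.prod_pow,
      ← prod_shift (fun k => 4 * r k) n (by simp only [hr, hZ0])]
    refine Finset.prod_congr rfl fun k _ => ?_
    simp only [hr]
    rw [hstep, norm_mul, norm_pow]
    show (‖(2 : ℂ)‖ * ‖Z k‖) ^ 2 = _
    norm_num
    ring
  have hP4 : Real.exp s.re ^ 2 * ∏ k ∈ Finset.range n, Real.cos (φ k / 2) ^ 2 = 1 := by
    rw [hP3, ← Finset.prod_mul_distrib, hP2]
  have hre : s.re = ∑ k ∈ Finset.range n, -Real.log (Real.cos (φ k / 2)) := by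
    have h1 := congrArg Real.log hP4
    rw [Real.log_one, Real.log_mul (by positivity)
      (Finset.prod_pos fun k _ => pow_pos (hcos k) 2).ne', Real.log_pow, Real.log_exp,
      Real.log_prod (fun k _ => (pow_pos (hcos k) 2).ne')] at h1
    simp only [Real.log_pow] at h1
    rw [← Finset.mul_sum] at h1
    rw [Finset.sum_neg_distrib]
    push_cast at h1
    linarith
  have hre2 : ∑ k ∈ Finset.range n, φ k ^ 2 ≤ 8 * s.re := by
    rw [hre, Finset.mul_sum]
    apply Finset.sum_le_sum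
    intro k _
    have := cos_le_exp (x := φ k / 2) (by linarith [hφ0 k]) (by linarith [hφ1 k])
    nlinarith
  -- the argument
  have hZc : ∀ k, |arg (2 * Z k)| ≤ φ k := by
    intro k
    have h1 : arg (2 * Z k) = arg (Z k) := by
      have := arg_real_mul (Z k) (show (0 : ℝ) < 2 by norm_num)
      simpa using this
    rw [h1]
    have h2 := abs_arg_add (w := Z k - c) (c := c) (by linarith) (hwne k) (by
      rw [sub_add_cancel]; exact hZne k)
    rw [sub_add_cancel] at h2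
    exact h2
  set Λ : ℂ := ∑ k ∈ Finset.range n, log (2 * Z k) with hΛ
  have hexp : exp Λ = exp s := by
    rw [hΛ, exp_sum, hm]
    exact Finset.prod_congr rfl fun k _ => exp_log (mul_ne_zero two_ne_zero (hZne k))
  obtain ⟨k, hk⟩ := exp_eq_exp_iff_exists_int.1 hexp.symm
  refine ⟨k, ?_⟩
  have h1 : s.im - 2 * Real.pi * k = Λ.im := by
    rw [hk]
    simp
    ring
  have h2 : |Λ.im| ≤ ∑ k ∈ Finset.range n, φ k := by
    rw [hΛ, im_sum]
    refine (Finset.abs_sum_le_sum_abs _ _).trans (Finset.sum_le_sum fun k _ => ?_)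
    rw [log_im]; exact hZc k
  rw [h1, ← sq_abs]
  calc |Λ.im| ^ 2 ≤ (∑ k ∈ Finset.range n, φ k) ^ 2 := by gcongr
    _ ≤ n * ∑ k ∈ Finset.range n, φ k ^ 2 := by
      have := sq_sum_le_card_mul_sum_sq (s := Finset.range n) (f := φ)
      rwa [Finset.card_range] at this
    _ ≤ n * (8 * s.re) := by gcongr
    _ = 8 * n * s.re := by ring

end Pool.Agent.KS6_23.ML.RINE
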