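import Pool.Agent.KS6_23.ML.LAB
import Pool.Agent.KS6_23.ML.UNR
import Pool.Agent.KS6_23.ML.COMX
import Pool.Agent.KS6_23.ML.LABG

set_option autoImplicit false

/-! # Project ML, second stage: global labels and classes -/

open Complex Set Filter Metric Topology MeasureTheory

namespace Pool.Agent.KS6_23.ML.SEP

open Pool.Agent.KS6_23.ML Pool.Agent.KS6_23.ML.Basic Pool.Agent.KS6_23.ML.LabA
open Pool.Agent.KS6_23.ML.LabB Pool.Agent.KS6_23.ML.LabC Pool.Agent.KS6_23.ML.LabD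
open Pool.Agent.KS6_23.ML.LAB Pool.Agent.KS6_23.ML.Curve Pool.Agent.KS6_23.ML.COMX

/-! ## Counting -/

/-- a locally constant label with all the values is injective in the fibres -/
theorem uniq_of (hX : S_XLOC) (hK : S_XCPT) (hCn : S_CNTN) {n : ℕ} (hn : 1 ≤ n) {t r : ℝ}
    (hrt : r ≤ dZ t) {lab : ℂ × ℂ × ℂ → Fin (n * 2 ^ (n - 1))}
    (hl1 : ∀ x ∈ XX n (ball (tpi * (t : ℂ)) r ∩ HP), ∀ᶠ y in 𝓝 x,
      y ∈ XX n (ball (tpi * (t : ℂ)) r ∩ HP) → lab y = lab x)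
    (hl2 : ∀ i, ∃ x ∈ XX n (ball (tpi * (t : ℂ)) r ∩ HP), lab x = i) :
    ∀ x ∈ XX n (ball (tpi * (t : ℂ)) r ∩ HP), ∀ x' ∈ XX n (ball (tpi * (t : ℂ)) r ∩ HP),
      x.2.2 = x'.2.2 → lab x = lab x' → x = x' := by
  set D : Set ℂ := ball (tpi * (t : ℂ)) r ∩ HP with hD
  -- every label in every fibre
  have hfib : ∀ i, ∀ s ∈ D, ∃ x ∈ XX n D, lab x = i ∧ x.2.2 = s := by
    intro i s hs
    obtain ⟨x₁, hx₁, hx₁i⟩ := hl2 i
    obtain ⟨x, hx, hxs⟩ := UNR.fibre_all hX hK hCn hn hrt (A := {x | x ∈ XX n D ∧ lab x = i})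
      ⟨x₁, hx₁, hx₁i⟩ (fun x hx => hx.1) (by
        rintro x ⟨h1, h2⟩
        filter_upwards [hl1 x h1] with y h3 h4
        exact ⟨h4, (h3 h4).trans h2⟩) (by
        intro x h1 h2
        filter_upwards [hl1 x h1] with y h3 h4 h5
        exact h2 ⟨h1, (h3 h4).symm.trans h5.2⟩) s hs
    exact ⟨x, hx.1, hx.2, hxs⟩
  intro x hx x' hx' hs hl
  classical
  have hch : ∀ i, ∃ y ∈ XX n D, lab y = i ∧ y.2.2 = x.2.2 ∧ (i = lab x → y = x) := by
    intro i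
    by_cases h : i = lab x
    · exact ⟨x, hx, h.symm, rfl, fun _ => rfl⟩
    · obtain ⟨y, hy, hyi, hys⟩ := hfib i x.2.2 hx.1
      exact ⟨y, hy, hyi, hys, fun h' => absurd h' h⟩
  choose g hg1 hg2 hg3 hg4 using hch
  by_contra hne
  set pr : ℂ × ℂ × ℂ → ℂ × ℂ := fun y => (y.1, y.2.1) with hpr
  have hprinj : ∀ y y' : ℂ × ℂ × ℂ, y.2.2 = y'.2.2 → pr y = pr y' → y = y' := by
    rintro ⟨c, z, s⟩ ⟨c', z', s'⟩ h1 h2
    simp only [hpr, Prod.mk.injEq] at h1 h2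
    rw [h1, h2.1, h2.2]
  set T : Finset (ℂ × ℂ) := Finset.univ.image (fun i => pr (g i)) with hT'
  have hTcard : T.card = n * 2 ^ (n - 1) := by
    rw [hT', Finset.card_image_of_injective, Finset.card_univ, Fintype.card_fin]
    intro i j hij
    have := hprinj _ _ ((hg3 i).trans (hg3 j).symm) hij
    rw [← hg2 i, ← hg2 j, this]
  have hx'T : pr x' ∉ T := by
    intro h
    rw [hT', Finset.mem_image] at h
    obtain ⟨i, _, hi⟩ := h
    have h1 := hprinj _ _ ((hg3 i).trans hs) hi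
    have h2 : i = lab x := by rw [← hg2 i, h1, ← hl]
    exact hne ((hg4 i h2).symm.trans h1)
  have hcard := (hCn n hn).2 (exp x.2.2) (exp_ne_one hrt hx.1.1) (insert (pr x') T) (by
    intro y hy
    rw [Finset.mem_insert] at hy
    rcases hy with rfl | hy
    · exact ⟨hx'.2.1, by rw [hs]; exact hx'.2.2⟩
    · rw [hT', Finset.mem_image] at hy
      obtain ⟨i, _, rfl⟩ := hy
      exact ⟨(hg1 i).2.1, by rw [← hg3 i]; exact (hg1 i).2.2⟩)
  rw [Finset.card_insert_of_notMem hx'T, hTcard] at hcard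
  omega

/-- the derivative of the multiplier is not zero -/
theorem unr_of (hT : S_TRV) (hX : S_XLOC) {n : ℕ} (hn : 1 ≤ n) {t r : ℝ}
    (hrt : r ≤ dZ t) {lab : ℂ × ℂ × ℂ → Fin (n * 2 ^ (n - 1))}
    (hl1 : ∀ x ∈ XX n (ball (tpi * (t : ℂ)) r ∩ HP), ∀ᶠ y in 𝓝 x,
      y ∈ XX n (ball (tpi * (t : ℂ)) r ∩ HP) → lab y = lab x)
    (huniq : ∀ x ∈ XX n (ball (tpi * (t : ℂ)) r ∩ HP), ∀ x' ∈ XX n (ball (tpi * (t : ℂ)) r ∩ HP),
      x.2.2 = x'.2.2 → lab x = lab x' → x = x') :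
    ∀ x ∈ XX n (ball (tpi * (t : ℂ)) r), Unr n x := by
  intro x₀ hx₀
  have hne1 : exp x₀.2.2 ≠ 1 := exp_ne_one hrt hx₀.1
  by_cases hre : 0 < x₀.2.2.re
  swap
  · intro ζ h1 h2 h3
    refine hT n x₀.1 x₀.2.1 ζ hn hx₀.2.1 (by rw [hx₀.2.2]; exact exp_ne_zero _)
      (by rw [hx₀.2.2]; exact hne1) ?_ h1 h2 h3
    rw [hx₀.2.2, norm_exp]
    exact Real.exp_le_one_iff.2 (not_lt.1 hre)
  set D : Set ℂ := ball (tpi * (t : ℂ)) r ∩ HP with hD
  have hDo : IsOpen D := isOpen_ball.inter isOpen_HP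
  -- local injectivity
  intro ζ hζA hζ0 hζf
  obtain ⟨c₀, z₀, s₀⟩ := x₀
  obtain ⟨hsD, hf, hm⟩ := hx₀
  simp only at hsD hf hm hne1 hre hζA hζ0 hζf ⊢
  obtain ⟨δ, ζ', σ, hδ, hζ', hσ, hζ0', hσ0, e1, e2⟩ := hX n c₀ z₀ s₀ hn hf hm hne1
  have hn0 := ball_mem_nhds c₀ hδ
  have hσA : AnalyticAt ℂ σ c₀ := hσ.analyticAt hn0
  have hx₀D : ((c₀, z₀, s₀) : ℂ × ℂ × ℂ) ∈ XX n D := ⟨⟨hsD, hre⟩, hf, hm⟩
  have hg : ContinuousAt (fun c : ℂ => ((c, ζ' c, σ c) : ℂ × ℂ × ℂ)) c₀ :=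
    continuousAt_id.prodMk ((hζ'.differentiableAt hn0).continuousAt.prodMk
      (hσ.differentiableAt hn0).continuousAt)
  have hg0 : ((c₀, ζ' c₀, σ c₀) : ℂ × ℂ × ℂ) = (c₀, z₀, s₀) := by rw [hζ0', hσ0]
  have f1 : ∀ᶠ c in 𝓝 c₀, c ∈ ball c₀ δ ∧ σ c ∈ D ∧
      (((c, ζ' c, σ c) : ℂ × ℂ × ℂ) ∈ XX n D → lab (c, ζ' c, σ c) = lab (c₀, z₀, s₀)) := by
    have h1 := hg.tendsto
    rw [hg0] at h1
    have h2 : ∀ᶠ c in 𝓝 c₀, σ c ∈ D := by
      refine hσA.continuousAt.eventually_mem ?_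
      rw [hσ0]
      exact hDo.mem_nhds ⟨hsD, hre⟩
    filter_upwards [hn0, h2, h1.eventually (hl1 _ hx₀D)] with c g1 g2 g3
    exact ⟨g1, g2, g3⟩
  obtain ⟨ε, hε, hball⟩ := Metric.eventually_nhds_iff_ball.1 f1
  have hinj : InjOn σ (ball c₀ ε) := by
    intro c hc c' hc' hcc
    obtain ⟨a1, a2, a3⟩ := hball c hc
    obtain ⟨b1, b2, b3⟩ := hball c' hc'
    have h1 : ((c, ζ' c, σ c) : ℂ × ℂ × ℂ) ∈ XX n D := ⟨a2, (e1 c a1).1, (e1 c a1).2⟩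
    have h2 : ((c', ζ' c', σ c') : ℂ × ℂ × ℂ) ∈ XX n D := ⟨b2, (e1 c' b1).1, (e1 c' b1).2⟩
    have h3 := huniq _ h1 _ h2 hcc ((a3 h1).trans (b3 h2).symm)
    exact congrArg Prod.fst h3
  have hdiff : DifferentiableOn ℂ σ (ball c₀ ε) := hσ.mono fun c hc => (hball c hc).1
  have hd : deriv σ c₀ ≠ 0 :=
    Pool.Agent.Helper114.Montel.deriv_ne_zero_of_injOn isOpen_ball σ hdiff hinj (mem_ball_self hε)
  have hee : (fun c => mul n c (ζ c)) =ᶠ[𝓝 c₀] fun c => exp (σ c) := by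
    have h1 : ∀ᶠ c in 𝓝 c₀, ζ c ∈ ball z₀ δ := by
      refine hζA.continuousAt.eventually_mem ?_
      rw [hζ0]
      exact ball_mem_nhds _ hδ
    filter_upwards [hn0, h1, hζf] with c g1 g2 g3
    have := (e2 c g1 (ζ c) g2 g3).1
    rw [this]
    exact (e1 c g1).2
  rw [hee.deriv_eq]
  have h3 := (hσA.differentiableAt.hasDerivAt).cexp
  rw [h3.deriv]
  exact mul_ne_zero (exp_ne_zero _) hd

/-! ## Relations -/

/-- the relation between points and classes -/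
def CG (G : ℂ → ℂ → ℝ) (B : ℂ → ℂ → ℂ) (n : ℕ) (x : ℂ × ℂ × ℂ) (v : ℝ) : Prop :=
  ∃ (N : ℕ) (θ : ℕ → ℝ) (a : ℕ → ℤ) (p : ℤ), n ∣ N ∧ Ang N θ a ∧ Dist n N θ ∧
    LM G B n N θ p x ∧ v = p / (N / n : ℕ)

/-- the parameters with a repelling cycle of the label `i` and the class `v` -/
def SG (G : ℂ → ℂ → ℝ) (B : ℂ → ℂ → ℂ) (cc : ℂ → ℂ) (Z ell : (ℕ → Bool) → ℂ → ℂ) (n : ℕ)
    (i : (Fin (n - 1) → Bool) × ZMod n) (v : ℝ) : Set ℂ :=
  {c | c ∈ MM ∧ ∃ (z s : ℂ) (N : ℕ) (θ : ℕ → ℝ) (a : ℕ → ℤ) (p : ℤ), (c, z, s) ∈ XX n HP ∧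
    n ∣ N ∧ Ang N θ a ∧ Dist n N θ ∧ LM G B n N θ p (c, z, s) ∧ v = p / (N / n : ℕ) ∧
    ∃ y ∈ XX n HP, y.1 ∉ MM ∧ LE G B cc n N θ p y ∧ ∃ w e m, Rep cc Z ell n w e m y ∧
      lb n e m = i}

theorem not_dvd_of_dZ {q : ℕ} (hq : 1 ≤ q) {p : ℤ} (h : dZ ((p : ℝ) / q) ≠ 0) :
    ¬ ((q : ℤ) ∣ p) := by
  rintro ⟨k, rfl⟩
  apply h
  have hq0 : (0 : ℝ) < q := by exact_mod_cast hq
  have h1 : ((((q : ℤ) * k : ℤ) : ℝ) / q : ℝ) = k := by
    push_cast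
    field_simp
  rw [h1]
  simp [dZ]

theorem dZ_of_not_dvd {q : ℕ} (hq : 1 ≤ q) {p : ℤ} (h : ¬ ((q : ℤ) ∣ p)) :
    dZ ((p : ℝ) / q) ≠ 0 := by
  intro h0
  unfold dZ at h0
  rw [abs_eq_zero, sub_eq_zero] at h0
  apply h
  have hq0 : (0 : ℝ) < q := by exact_mod_cast hq
  rw [div_eq_iff hq0.ne'] at h0
  refine ⟨round ((p : ℝ) / q), ?_⟩
  have h1 : (p : ℝ) = (((q : ℤ) * round ((p : ℝ) / q) : ℤ) : ℝ) := by
    rw [Int.cast_mul, Int.cast_natCast]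
    linarith
  exact_mod_cast h1

section
variable {G : ℂ → ℂ → ℝ} {B : ℂ → ℂ → ℂ} {cc : ℂ → ℂ} {lam : ℂ → ℂ → ℂ}
  {Z ell : (ℕ → Bool) → ℂ → ℂ}

theorem XX_sub {n : ℕ} {D : Set ℂ} {x : ℂ × ℂ × ℂ} (hx : x ∈ XX n (D ∩ HP)) : x ∈ XX n HP :=
  XX_mono inter_subset_right hx

theorem ex_RG (hB : Base G B cc) (hC : Code G B cc lam Z ell)
    (H : LAB.Hyp) (hCX : S_COMX) {n : ℕ} (hn : 1 ≤ n) {D : Set ℂ} {x : ℂ × ℂ × ℂ}
    (hx : x ∈ XX n (D ∩ HP)) : ∃ i, RL G B cc Z ell n HP x i := by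
  by_cases hc : x.1 ∈ MM
  · obtain ⟨N, θ, a, p, hd, ha, hdist, hL⟩ := exists_LM hB H.sec H.land H.stab H.dlt hn hx hc
    obtain ⟨y, hy, hyc, hE, _⟩ := hCX G B cc hB n N N θ θ a a p p hn hd hd ha ha x (XX_sub hx) hc
      hL hL
    obtain ⟨w, hw, hcw⟩ := hB.psurj y.1 hyc
    obtain ⟨e, m, hR⟩ := rep_exists hB hC hn hy hw hcw
    exact ⟨lb n e m, Or.inr ⟨hc, N, θ, a, p, hd, ha, hdist, hL, y, hy, hyc, hE, w, e, m, hR, rfl⟩⟩
  · obtain ⟨w, hw, hcw⟩ := hB.psurj x.1 hc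
    obtain ⟨e, m, hR⟩ := rep_exists hB hC hn hx hw hcw
    exact ⟨lb n e m, Or.inl ⟨hc, w, e, m, hR, rfl⟩⟩

/-- labels given by two ray cycles are the same -/
theorem same2 (hB : Base G B cc) (hLam : Lam B cc lam) (hC : Code G B cc lam Z ell)
    (H : LAB.Hyp) (hCX : S_COMX) {n N N' : ℕ} (hn : 1 ≤ n) {θ θ' : ℕ → ℝ}
    {a a' : ℕ → ℤ} {p p' : ℤ} (hd : n ∣ N) (hd' : n ∣ N') (ha : Ang N θ a) (ha' : Ang N' θ' a')
    (hp : ¬ (((N / n : ℕ) : ℤ) ∣ p)) (hp' : ¬ (((N' / n : ℕ) : ℤ) ∣ p'))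
    {x : ℂ × ℂ × ℂ} (hx : x ∈ XX n HP) (hc : x.1 ∈ MM) (hL : LM G B n N θ p x)
    (hL' : LM G B n N' θ' p' x) {y y' : ℂ × ℂ × ℂ} {w w' : ℂ} {e e' : ℕ → Bool} {m m' : ℤ}
    (hE : LE G B cc n N θ p y) (hE' : LE G B cc n N' θ' p' y')
    (hR : Rep cc Z ell n w e m y) (hR' : Rep cc Z ell n w' e' m' y') :
    lb n e m = lb n e' m' := by
  obtain ⟨v, hv, hvc, hv1, hv2⟩ := hCX G B cc hB n N N' θ θ' a a' p p' hn hd hd' ha ha' x hx hc
    hL hL'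
  obtain ⟨w'', hw'', hcw''⟩ := hB.psurj v.1 hvc
  obtain ⟨e'', m'', hR''⟩ := rep_exists hB hC hn hv hw'' hcw''
  have e1 := same_label hB hLam hC H.ident H.comb hn hd ha hp hv hR hR'' hE hv1
  have e2 := same_label hB hLam hC H.ident H.comb hn hd' ha' hp' hv hR' hR'' hE' hv2
  rw [e1, e2]

theorem uniq_RG (hB : Base G B cc) (hLam : Lam B cc lam) (hC : Code G B cc lam Z ell)
    (H : LAB.Hyp) (hCX : S_COMX) {n : ℕ} (hn : 1 ≤ n) {t : ℝ} (ht : dZ t ≠ 0) {x : ℂ × ℂ × ℂ}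
    (hx : x ∈ XX n (DD (1 / 4) n t ∩ HP)) {i i' : (Fin (n - 1) → Bool) × ZMod n}
    (h : RL G B cc Z ell n HP x i) (h' : RL G B cc Z ell n HP x i') : i = i' := by
  rcases h with ⟨hc, w, e, m, hR, rfl⟩ | ⟨hc, N, θ, a, p, hd, ha, hdist, hL, y, hy, hyc, hE,
    w, e, m, hR, rfl⟩
  · rcases h' with ⟨hc', w', e', m', hR', rfl⟩ | ⟨hc', _⟩
    · exact lb_unique hB hC hn hx hR hR'
    · exact absurd hc' hc
  · rcases h' with ⟨hc', _⟩ | ⟨hc', N', θ', a', p', hd', ha', hdist', hL', y', hy', hyc', hE',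
      w', e', m', hR', rfl⟩
    · exact absurd hc hc'
    · have hp := LM_not_dvd hB H hn hd ha hdist ht hx hc hL
      have hp' := LM_not_dvd hB H hn hd' ha' hdist' ht hx hc hL'
      exact same2 hB hLam hC H hCX hn hd hd' ha ha' hp hp' (XX_sub hx) hc hL hL' hE hE' hR hR'

theorem loc_RG (hB : Base G B cc) (hLam : Lam B cc lam) (hC : Code G B cc lam Z ell)
    (H : LAB.Hyp) {n : ℕ} (hn : 1 ≤ n) {t : ℝ} (ht : dZ t ≠ 0) {x : ℂ × ℂ × ℂ}
    (hx : x ∈ XX n (DD (1 / 4) n t ∩ HP)) {i : (Fin (n - 1) → Bool) × ZMod n}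
    (h : RL G B cc Z ell n HP x i) :
    ∀ᶠ y in 𝓝 x, y ∈ XX n (DD (1 / 4) n t ∩ HP) → RL G B cc Z ell n HP y i := by
  have hrt := rad_le (t := t) hn
  rcases h with ⟨hc, w, e, m, hR, rfl⟩ | ⟨hc, N, θ, a, p, hd, ha, hdist, hL, y₀, hy₀, hyc, hE,
    w, e, m, hR, rfl⟩
  · have h1 := rep_local hB hC H.xloc hn hx (exp_ne_one hrt hx.1.1) hR
    have h2 : ∀ᶠ y : ℂ × ℂ × ℂ in 𝓝 x, y.1 ∈ (MMᶜ : Set ℂ) :=
      (continuous_fst.tendsto x).eventually_mem ((MM_closed hB).isOpen_compl.mem_nhds hc)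
    filter_upwards [h1, h2] with y h3 h4 hy
    obtain ⟨w', hR'⟩ := h3 hy
    exact Or.inl ⟨h4, w', e, m, hR', rfl⟩
  · have h1 := LM_stab hB H.sec H.land H.stab H.xloc hn hd ha hx hc hL
    filter_upwards [h1] with y h2 hy
    obtain ⟨h3, h4⟩ := h2 hy
    by_cases hyM : y.1 ∈ MM
    · exact Or.inr ⟨hyM, N, θ, a, p, hd, ha, hdist, h3 hyM, y₀, hy₀, hyc, hE, w, e, m, hR, rfl⟩
    · obtain ⟨w', hw', hcw'⟩ := hB.psurj y.1 hyM
      obtain ⟨e', m', hR'⟩ := rep_exists hB hC hn hy hw' hcw'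
      have hp := LM_not_dvd hB H hn hd ha hdist ht hx hc hL
      have e1 := same_label hB hLam hC H.ident H.comb hn hd ha hp hy hR hR' hE h4
      exact Or.inl ⟨hyM, w', e', m', hR', e1.symm⟩

theorem uniq_CG (hB : Base G B cc) (hLam : Lam B cc lam) (hC : Code G B cc lam Z ell)
    (H : LAB.Hyp) (hCX : S_COMX) {n : ℕ} (hn : 1 ≤ n) {x : ℂ × ℂ × ℂ}
    (hx : x ∈ XX n HP) (hc : x.1 ∈ MM) {v v' : ℝ} (h : CG G B n x v) (h' : CG G B n x v') :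
    v = v' := by
  obtain ⟨N, θ, a, p, hd, ha, _, hL, rfl⟩ := h
  obtain ⟨N', θ', a', p', hd', ha', _, hL', rfl⟩ := h'
  exact LABG.class_unique hB hLam hC H.ident H.rot hCX hn hd hd' ha ha' hx hc hL hL'

/-! ## The sets `S i v` -/

theorem opn_SG (hB : Base G B cc) (H : LAB.Hyp) {n : ℕ} (hn : 1 ≤ n)
    (i : (Fin (n - 1) → Bool) × ZMod n) (v : ℝ) {c : ℂ} (hc : c ∈ SG G B cc Z ell n i v) :
    ∀ᶠ c' in 𝓝 c, c' ∈ MM → c' ∈ SG G B cc Z ell n i v := by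
  obtain ⟨hcM, z, s, N, θ, a, p, hx, hd, ha, hdist, hL, hv, hy⟩ := hc
  have hopen : IsOpen ((univ : Set ℂ) ∩ HP) := isOpen_univ.inter isOpen_HP
  have hx' : ((c, z, s) : ℂ × ℂ × ℂ) ∈ XX n (univ ∩ HP) := by rwa [univ_inter]
  have h1 := LM_stab hB H.sec H.land H.stab H.xloc hn hd ha hx' hcM hL
  have h2 := near_all H.xloc hn hopen hx' (exp_ne_one_HP hx.1) h1
  filter_upwards [h2] with c' ⟨z', s', h3, h4⟩ hcM'
  rw [univ_inter] at h3
  exact ⟨hcM', z', s', N, θ, a, p, h3, hd, ha, hdist, h4.1 hcM', hv, hy⟩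

theorem f0_iter (n : ℕ) (z : ℂ) : (f 0)^[n] z = z ^ (2 ^ n) := by
  induction n with
  | zero => simp
  | succ n ih =>
    rw [Function.iterate_succ_apply', ih]
    unfold f
    rw [add_zero, ← pow_mul, pow_succ]

theorem mul0 {n : ℕ} {z : ℂ} (hz : (f 0)^[n] z = z) (hm : mul n 0 z ≠ 0) (hn : 1 ≤ n) :
    mul n 0 z = 2 ^ n := by
  have h1 : mul n 0 z = 2 ^ n * z ^ (2 ^ n - 1) := by
    unfold mul
    have h2 : (f 0)^[n] = fun z : ℂ => z ^ (2 ^ n) := funext fun z => f0_iter n z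
    rw [h2]
    simp
  have h2 : z ≠ 0 := by
    rintro rfl
    apply hm
    rw [h1]
    have h3 : 2 ^ n - 1 ≠ 0 := by
      have : 2 ^ 1 ≤ 2 ^ n := Nat.pow_le_pow_right (by norm_num) hn
      omega
    rw [zero_pow h3, mul_zero]
  have h3 : z ^ (2 ^ n - 1) = 1 := by
    rw [f0_iter] at hz
    have h4 : z ^ (2 ^ n - 1) * z = 1 * z := by
      rw [← pow_succ, one_mul]
      have : 2 ^ n - 1 + 1 = 2 ^ n := by
        have : 0 < 2 ^ n := by positivity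
        omega
      rw [this, hz]
    exact mul_right_cancel₀ h2 h4
  rw [h1, h3, mul_one]

theorem zero_SG (hB : Base G B cc) (H : LAB.Hyp) {n : ℕ} (hn : 1 ≤ n)
    (i : (Fin (n - 1) → Bool) × ZMod n) {v : ℝ} (hv : dZ v ≠ 0) :
    (0 : ℂ) ∉ SG G B cc Z ell n i v := by
  rintro ⟨hcM, z, s, N, θ, a, p, hx, hd, ha, hdist, hL, hvp, _⟩
  have hb := LM_bound hB H.sec H.land H.ply hn hd ha hdist hx hcM hL
  rw [← hvp] at hb
  have hq1 : 1 ≤ N / n := div_pos' hn ha.pos hd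
  have hp : ¬ (((N / n : ℕ) : ℤ) ∣ p) := not_dvd_of_dZ hq1 (by rw [← hvp]; exact hv)
  have hq2 : 2 ≤ N / n := by
    by_contra hcon
    have h1 : N / n = 1 := by omega
    rw [h1] at hp
    exact hp (by simp)
  obtain ⟨hs, hf, hm⟩ := hx
  simp only at hs hf hm hb
  have h1 := mul0 hf (by rw [hm]; exact exp_ne_zero _) hn
  have h2 : (2 : ℂ) ^ n = exp ((n * Real.log 2 : ℝ) : ℂ) := by
    rw [← ofReal_exp, _root_.mul_comm (n : ℝ), Real.exp_mul, Real.exp_log (by norm_num)]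
    rw [Real.rpow_natCast]
    push_cast
    rfl
  rw [hm, h2, exp_eq_iff] at h1
  obtain ⟨k, hk⟩ := h1
  have hre : s.re = n * Real.log 2 := by
    rw [hk, add_re, int_mul_tpi_re, ofReal_re, add_zero]
  have him : s.im = 2 * Real.pi * k := by
    rw [hk, add_im, int_mul_tpi_im, ofReal_im, zero_add]
  have hlog : 0 < Real.log 2 := Real.log_pos (by norm_num)
  have hn0 : (0 : ℝ) < n := by exact_mod_cast hn
  have hq2' : (2 : ℝ) ≤ (N / n : ℕ) := by exact_mod_cast hq2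
  have hq0 : (0 : ℝ) < (N / n : ℕ) := by linarith
  have hvk : v ≠ k := by
    rintro rfl
    apply hv
    simp [dZ]
  have hnorm : ‖s - tpi * (v : ℂ)‖ ^ 2 = (n * Real.log 2) ^ 2 + (2 * Real.pi * (k - v)) ^ 2 := by
    rw [← normSq_eq_norm_sq, normSq_apply, sub_re, sub_im, _root_.mul_comm tpi,
      real_mul_tpi_re, real_mul_tpi_im, hre, him]
    ring
  rw [hnorm, hre] at hb
  have h5 : 2 * n * Real.log 2 / (N / n : ℕ) * (n * Real.log 2) ≤ (n * Real.log 2) ^ 2 := by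
    rw [div_mul_eq_mul_div, div_le_iff₀ hq0]
    have h6 : 0 < (n * Real.log 2) ^ 2 := by positivity
    nlinarith
  have h6 : 0 < (2 * Real.pi * (k - v)) ^ 2 := by
    have h7 : 2 * Real.pi * (k - v) ≠ 0 := by
      refine mul_ne_zero (by have := Real.pi_pos; positivity) ?_
      exact sub_ne_zero.2 (Ne.symm hvk)
    positivity
  linarith

theorem near_SG (hB : Base G B cc) (hLam : Lam B cc lam) (hC : Code G B cc lam Z ell)
    (H : LAB.Hyp) (hK : S_XCPT) (hCX : S_COMX) {n : ℕ} (hn : 1 ≤ n)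
    (i : (Fin (n - 1) → Bool) × ZMod n) {v : ℝ} (hv : dZ v ≠ 0) {c : ℂ}
    (hc : c ∉ SG G B cc Z ell n i v) {ε : ℝ} (hε : 0 < ε) :
    ∀ᶠ c' in 𝓝 c, c' ∈ SG G B cc Z ell n i v → ∃ z s : ℂ,
      (c', z, s) ∈ XX n (DD (1 / 4) n v ∩ HP) ∧ RL G B cc Z ell n HP (c', z, s) i ∧
      ‖s - tpi * v‖ < ε := by
  by_contra hcon
  rw [Filter.not_eventually] at hcon
  obtain ⟨c', hc', hP⟩ := exists_seq_forall_of_frequently hcon
  have hP1 : ∀ k, c' k ∈ SG G B cc Z ell n i v := fun k => by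
    by_contra h
    exact hP k fun h' => absurd h' h
  have hP2 : ∀ k, ∀ z s : ℂ, (c' k, z, s) ∈ XX n (DD (1 / 4) n v ∩ HP) →
      RL G B cc Z ell n HP (c' k, z, s) i → ε ≤ ‖s - tpi * v‖ := by
    intro k z s h1 h2
    by_contra h
    push Not at h
    exact hP k fun _ => ⟨z, s, h1, h2, h⟩
  choose hcM z s N θ a p hx hd ha hdist hL hvp hy using hP1
  have hlog : 0 < Real.log 2 := Real.log_pos (by norm_num)
  have hn0 : (0 : ℝ) < n := by exact_mod_cast hn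
  have hbd : ∀ k, ‖s k - tpi * v‖ ^ 2 ≤ 2 * n * Real.log 2 * (s k).re := by
    intro k
    have hb := LM_bound hB H.sec H.land H.ply hn (hd k) (ha k) (hdist k) (hx k) (hcM k) (hL k)
    rw [← hvp k] at hb
    refine hb.trans ?_
    have hq1 : 1 ≤ N k / n := div_pos' hn (ha k).pos (hd k)
    have hq1' : (1 : ℝ) ≤ (N k / n : ℕ) := by exact_mod_cast hq1
    have h4 : 0 < (s k).re := (hx k).1
    simp only
    gcongr
    exact div_le_self (by positivity) hq1'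
  -- the compact set
  set K : Set ℂ := closedBall (tpi * v) (2 * n * Real.log 2) with hKdef
  have hsK : ∀ k, s k ∈ K := by
    intro k
    rw [hKdef, mem_closedBall, dist_eq_norm]
    have h1 := hbd k
    have h2 : (s k).re ≤ ‖s k - tpi * v‖ := by
      have h3 : (s k - tpi * (v : ℂ)).re = (s k).re := by
        rw [sub_re, _root_.mul_comm, real_mul_tpi_re, sub_zero]
      rw [← h3]
      exact (le_abs_self _).trans (abs_re_le_norm _)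
    by_contra hcon2
    push Not at hcon2
    have h3 : 0 < 2 * n * Real.log 2 := by positivity
    nlinarith
  obtain ⟨x₀, hx₀, φ, hφ, hlim⟩ := (hK.1 n hn K (isCompact_closedBall _ _)).tendsto_subseq
    (x := fun k => ((c' k, z k, s k) : ℂ × ℂ × ℂ)) (fun k => ⟨hsK k, (hx k).2⟩)
  have hx₀1 : x₀.1 = c := by
    have h1 : Tendsto (fun k => c' (φ k)) atTop (𝓝 x₀.1) := (continuous_fst.tendsto x₀).comp hlim
    exact tendsto_nhds_unique h1 (hc'.comp hφ.tendsto_atTop)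
  have hs₀ : Tendsto (fun k => s (φ k)) atTop (𝓝 x₀.2.2) :=
    ((continuous_snd.comp continuous_snd).tendsto x₀).comp hlim
  have hcM₀ : c ∈ MM := (MM_closed hB).mem_of_tendsto hc' (Eventually.of_forall hcM)
  have hbd₀ : ‖x₀.2.2 - tpi * v‖ ^ 2 ≤ 2 * n * Real.log 2 * x₀.2.2.re := by
    have h1 : Tendsto (fun k => ‖s (φ k) - tpi * v‖ ^ 2) atTop (𝓝 (‖x₀.2.2 - tpi * v‖ ^ 2)) :=
      ((hs₀.sub_const _).norm).pow 2
    have h2 : Tendsto (fun k => 2 * n * Real.log 2 * (s (φ k)).re) atTop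
        (𝓝 (2 * n * Real.log 2 * x₀.2.2.re)) :=
      ((continuous_re.tendsto _).comp hs₀).const_mul _
    exact le_of_tendsto_of_tendsto' h1 h2 fun k => hbd _
  rcases lt_or_ge 0 x₀.2.2.re with hre | hre
  · -- the limit is repelling
    have hx₀' : x₀ ∈ XX n (univ ∩ HP) := ⟨⟨mem_univ _, hre⟩, hx₀.2⟩
    obtain ⟨N', θ', a', p', hd', ha', hdist', hL'⟩ := exists_LM hB H.sec H.land H.stab H.dlt hn
      hx₀' (by rw [hx₀1]; exact hcM₀)
    have h1 := LM_stab hB H.sec H.land H.stab H.xloc hn hd' ha' hx₀' (by rw [hx₀1]; exact hcM₀) hL'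
    obtain ⟨k, hk⟩ := (hlim.eventually h1).exists
    have hxk : ((c' (φ k), z (φ k), s (φ k)) : ℂ × ℂ × ℂ) ∈ XX n (univ ∩ HP) := by
      rw [univ_inter]
      exact hx _
    have h2 := (hk hxk).1 (hcM _)
    have h3 : v = p' / (N' / n : ℕ) := by
      rw [hvp (φ k)]
      exact LABG.class_unique hB hLam hC H.ident H.rot hCX hn (hd _) hd' (ha _) ha' (hx _) (hcM _)
        (hL _) h2
    obtain ⟨y, hy1, hy2, hy3, _⟩ := hCX G B cc hB n N' N' θ' θ' a' a' p' p' hn hd' hd' ha' ha' x₀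
      (by rwa [univ_inter] at hx₀') (by rw [hx₀1]; exact hcM₀) hL' hL'
    obtain ⟨w, hw, hcw⟩ := hB.psurj y.1 hy2
    obtain ⟨e, m, hR⟩ := rep_exists hB hC hn hy1 hw hcw
    obtain ⟨y', hy1', hy2', hy3', w', e', m', hR', hlb⟩ := hy (φ k)
    have hp : ¬ (((N (φ k) / n : ℕ) : ℤ) ∣ p (φ k)) :=
      not_dvd_of_dZ (div_pos' hn (ha _).pos (hd _)) (by rw [← hvp]; exact hv)
    have hp' : ¬ (((N' / n : ℕ) : ℤ) ∣ p') :=
      not_dvd_of_dZ (div_pos' hn ha'.pos hd') (by rw [← h3]; exact hv)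
    have h4 := same2 hB hLam hC H hCX hn (hd _) hd' (ha _) ha' hp hp' (hx _) (hcM _) (hL _) h2
      hy3' hy3 hR' hR
    apply hc
    refine ⟨hcM₀, x₀.2.1, x₀.2.2, N', θ', a', p', ?_, hd', ha', hdist', ?_, h3, y, hy1, hy2, hy3,
      w, e, m, hR, by rw [← h4, hlb]⟩
    · rw [← hx₀1]
      exact ⟨hre, hx₀.2⟩
    · rw [← hx₀1]
      exact hL'
  · -- the limit is `2 π i v`
    have h0 : x₀.2.2 = tpi * v := by
      have h1 : ‖x₀.2.2 - tpi * v‖ ^ 2 ≤ 0 := by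
        refine hbd₀.trans ?_
        have : 0 < 2 * n * Real.log 2 := by positivity
        nlinarith
      have h2 : ‖x₀.2.2 - tpi * v‖ = 0 := by
        have := norm_nonneg (x₀.2.2 - tpi * (v : ℂ))
        nlinarith
      exact sub_eq_zero.1 (norm_eq_zero.1 h2)
    rw [h0] at hs₀
    have h1 : ∀ᶠ k in atTop, s (φ k) ∈ ball (tpi * (v : ℂ)) (min ε (1 / 4 * dZ v ^ 2 / n)) :=
      hs₀.eventually_mem (ball_mem_nhds _ (lt_min hε (rad_pos hv hn)))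
    obtain ⟨k, hk⟩ := h1.exists
    have h2 : ‖s (φ k) - tpi * v‖ < ε := by
      have := lt_of_lt_of_le (mem_ball.1 hk) (min_le_left _ _)
      rwa [dist_eq_norm] at this
    have h3 : s (φ k) ∈ DD (1 / 4) n v :=
      mem_ball.2 (lt_of_lt_of_le (mem_ball.1 hk) (min_le_right _ _))
    have h4 := hP2 (φ k) (z (φ k)) (s (φ k)) ⟨⟨h3, (hx _).1⟩, (hx _).2⟩
      (Or.inr ⟨hcM _, N _, θ _, a _, p _, hd _, ha _, hdist _, hL _, hy _⟩)
    linarith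

end

/-! ## The theorem -/

theorem sep (H : LAB.Hyp) (hT : S_TRV) (hK : S_XCPT) (hCX : S_COMX) : S_SEP := by
  obtain ⟨G, B, cc, hB⟩ := H.base
  obtain ⟨lam, hLam⟩ := H.lam G B cc hB
  obtain ⟨Z, ell, hC⟩ := H.code G B cc lam hB hLam
  have main : ∀ n : ℕ, 1 ≤ n → ∃ (lab : ℂ × ℂ × ℂ → Fin (n * 2 ^ (n - 1)))
      (cl : ℂ × ℂ × ℂ → ℝ) (S : Fin (n * 2 ^ (n - 1)) → ℝ → Set ℂ),
      Sep (1 / 4) n lab cl S := by
    intro n hn
    have : NeZero n := ⟨by omega⟩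
    have hcard : Fintype.card ((Fin (n - 1) → Bool) × ZMod n) = n * 2 ^ (n - 1) := by
      rw [Fintype.card_prod, Fintype.card_fun, Fintype.card_bool, Fintype.card_fin, ZMod.card]
      ring
    set E : ((Fin (n - 1) → Bool) × ZMod n) ≃ Fin (n * 2 ^ (n - 1)) :=
      Fintype.equivFinOfCardEq hcard with hE
    classical
    set lab : ℂ × ℂ × ℂ → Fin (n * 2 ^ (n - 1)) := fun x =>
      if h : ∃ i, RL G B cc Z ell n HP x i then E h.choose else E (fun _ => false, 0) with hlab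
    set cl : ℂ × ℂ × ℂ → ℝ := fun x => if h : ∃ v, CG G B n x v then h.choose else 0 with hcl
    have hlabeq : ∀ t, dZ t ≠ 0 → ∀ x ∈ XX n (DD (1 / 4) n t ∩ HP), ∀ i,
        RL G B cc Z ell n HP x i → lab x = E i := by
      intro t ht x hx i hi
      have h : ∃ i, RL G B cc Z ell n HP x i := ⟨i, hi⟩
      rw [hlab]
      simp only [dif_pos h]
      congr 1
      exact uniq_RG hB hLam hC H hCX hn ht hx h.choose_spec hi
    have hcleq : ∀ x ∈ XX n HP, x.1 ∈ MM → ∀ v, CG G B n x v → cl x = v := by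
      intro x hx hc v hv
      have h : ∃ v, CG G B n x v := ⟨v, hv⟩
      rw [hcl]
      simp only [dif_pos h]
      exact uniq_CG hB hLam hC H hCX hn hx hc h.choose_spec hv
    have hloc : ∀ t, dZ t ≠ 0 → ∀ x ∈ XX n (DD (1 / 4) n t ∩ HP), ∀ᶠ y in 𝓝 x,
        y ∈ XX n (DD (1 / 4) n t ∩ HP) → lab y = lab x := by
      intro t ht x hx
      obtain ⟨i, hi⟩ := ex_RG hB hC H hCX hn hx
      filter_upwards [loc_RG hB hLam hC H hn ht hx hi] with y h1 hy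
      rw [hlabeq t ht y hy i (h1 hy), hlabeq t ht x hx i hi]
    have hall : ∀ t, dZ t ≠ 0 → ∀ k, ∃ x ∈ XX n (DD (1 / 4) n t ∩ HP), lab x = k := by
      intro t ht k
      obtain ⟨e, m, he, hlb⟩ := lb_surj hn (E.symm k)
      obtain ⟨x, hx, hxc, w, hR⟩ := label_occurs hB hLam hC H.sec H.land H.ply H.ident H.rot H.gen
        hn he m t (rad_pos ht hn)
      refine ⟨x, hx, ?_⟩
      rw [hlabeq t ht x hx (E.symm k) (Or.inl ⟨hxc, w, e, m, hR, hlb⟩), Equiv.apply_symm_apply]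
    refine ⟨lab, cl, fun i v => SG G B cc Z ell n (E.symm i) v, ?_⟩
    refine ⟨hloc, ?_, ?_, ?_, ?_, ?_, ?_, ?_, ?_⟩
    · -- lab_inj
      intro t ht
      exact uniq_of H.xloc hK H.cntn hn (rad_le (t := t) hn) (hloc t ht) (hall t ht)
    · -- cl_rat
      intro t ht x hx hc
      obtain ⟨N, θ, a, p, hd, ha, hdist, hL⟩ := exists_LM hB H.sec H.land H.stab H.dlt hn hx hc
      have h1 := hcleq x (XX_sub hx) hc _ ⟨N, θ, a, p, hd, ha, hdist, hL, rfl⟩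
      have hq := div_pos' hn ha.pos hd
      refine ⟨?_, p, N / n, hq, h1, ?_⟩
      · rw [h1]
        exact dZ_of_not_dvd hq (LM_not_dvd hB H hn hd ha hdist ht hx hc hL)
      · rw [h1]
        exact LM_bound hB H.sec H.land H.ply hn hd ha hdist hx hc hL
    · -- cl_loc
      intro t ht x hx hc
      obtain ⟨N, θ, a, p, hd, ha, hdist, hL⟩ := exists_LM hB H.sec H.land H.stab H.dlt hn hx hc
      have h1 := LM_stab hB H.sec H.land H.stab H.xloc hn hd ha hx hc hL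
      filter_upwards [h1] with y h2 hy hyM
      rw [hcleq x (XX_sub hx) hc _ ⟨N, θ, a, p, hd, ha, hdist, hL, rfl⟩,
        hcleq y (XX_sub hy) hyM _ ⟨N, θ, a, p, hd, ha, hdist, (h2 hy).1 hyM, rfl⟩]
    · intro i v c hc
      exact hc.1
    · intro i v hv
      exact zero_SG hB H hn _ hv
    · intro i v c hc
      exact opn_SG hB H hn _ v hc
    · -- near
      intro i v hv c hc ε hε
      filter_upwards [near_SG hB hLam hC H hK hCX hn _ hv hc hε] with c' h1 h2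
      obtain ⟨z, s, h3, h4, h5⟩ := h1 h2
      refine ⟨z, s, h3, ?_, h5⟩
      rw [hlabeq v hv _ h3 _ h4, Equiv.apply_symm_apply]
    · -- mem
      intro t ht x hx hc
      obtain ⟨i, hi⟩ := ex_RG hB hC H hCX hn hx
      have h1 := hlabeq t ht x hx i hi
      rcases hi with ⟨hc', _⟩ | ⟨_, N, θ, a, p, hd, ha, hdist, hL, hy⟩
      · exact absurd hc hc'
      · have h2 := hcleq x (XX_sub hx) hc _ ⟨N, θ, a, p, hd, ha, hdist, hL, rfl⟩
        refine ⟨hc, x.2.1, x.2.2, N, θ, a, p, XX_sub hx, hd, ha, hdist, hL, h2, ?_⟩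
        rw [h1, Equiv.symm_apply_apply]
        exact hy
  refine ⟨1 / 4, by norm_num, le_rfl, ?_, main⟩
  intro n t hn ht
  obtain ⟨lab, cl, S, hS⟩ := main n hn
  exact unr_of hT H.xloc hn (rad_le (t := t) hn) (hS.lab_loc t ht) (hS.lab_inj t ht)

end Pool.Agent.KS6_23.ML.SEP
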