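import Pool.Agent.KS6_23.ML.Basic
import Pool.Agent.KS6_23.ML.Stm3

set_option autoImplicit false

/-! # Project ML, module 23: symmetry, the ray of angle 0 -/

open Complex Set Filter Metric Topology ComplexConjugate

namespace Pool.Agent.KS6_23.ML.SYM

open Pool.Agent.KS6_23.ML Pool.Agent.KS6_23.ML.Basic

theorem f_conj (c z : ℂ) (k : ℕ) : (f (conj c))^[k] (conj z) = conj ((f c)^[k] z) := by
  induction k with
  | zero => simp
  | succ k ih =>
    rw [Function.iterate_succ_apply', Function.iterate_succ_apply', ih]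
    unfold f
    simp

section
variable {G : ℂ → ℂ → ℝ} {B : ℂ → ℂ → ℂ} {cc : ℂ → ℂ}

theorem gf_iter (h : Green G) (c z : ℂ) (k : ℕ) : G c ((f c)^[k] z) = 2 ^ k * G c z := by
  induction k with
  | zero => simp
  | succ k ih =>
    rw [Function.iterate_succ_apply', h.gf, ih]
    ring

theorem G_bound (h : Green G) (c z : ℂ) (k : ℕ) :
    2 ^ k * G c z ≤ Real.log (1 + ‖c‖ + ‖(f c)^[k] z‖) ∧
    Real.log (1 + ‖c‖ + ‖(f c)^[k] z‖) ≤ 2 ^ k * G c z + Real.log (5 * (1 + ‖c‖)) := by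
  refine ⟨?_, ?_⟩
  · rw [← gf_iter h]
    exact h.gup _ _
  · set y := (f c)^[k] z with hy
    have h1 := h.glow c y
    rw [hy, gf_iter h, ← hy] at h1
    set g := 2 ^ k * G c z with hg
    have hg0 : 0 ≤ g := mul_nonneg (by positivity) (h.gnn c z)
    have hc : 0 ≤ ‖c‖ := norm_nonneg c
    have h2 : ‖y‖ ≤ 4 * (1 + ‖c‖) * Real.exp g := by
      rcases eq_or_lt_of_le (norm_nonneg y) with e | hpos
      · rw [← e]; positivity
      · rw [← Real.exp_log hpos]
        calc Real.exp (Real.log ‖y‖) ≤ Real.exp (g + Real.log (4 * (1 + ‖c‖))) :=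
              Real.exp_le_exp.2 h1
          _ = 4 * (1 + ‖c‖) * Real.exp g := by
              rw [Real.exp_add, Real.exp_log (by positivity)]; ring
    have h3 : 1 ≤ Real.exp g := Real.one_le_exp hg0
    have h4 : 1 + ‖c‖ + ‖y‖ ≤ 5 * (1 + ‖c‖) * Real.exp g := by nlinarith
    calc Real.log (1 + ‖c‖ + ‖y‖) ≤ Real.log (5 * (1 + ‖c‖) * Real.exp g) :=
          Real.log_le_log (by positivity) h4
      _ = g + Real.log (5 * (1 + ‖c‖)) := by
          rw [Real.log_mul (by positivity) (by positivity), Real.log_exp]; ring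

theorem G_conj (h : Green G) (c z : ℂ) : G (conj c) (conj z) = G c z := by
  have key : ∀ k : ℕ, 2 ^ k * |G (conj c) (conj z) - G c z| ≤ Real.log (5 * (1 + ‖c‖)) := by
    intro k
    have h1 := G_bound h c z k
    have h2 := G_bound h (conj c) (conj z) k
    rw [f_conj, norm_conj, norm_conj] at h2
    have h3 : 2 ^ k * |G (conj c) (conj z) - G c z| =
        |2 ^ k * G (conj c) (conj z) - 2 ^ k * G c z| := by
      rw [← mul_sub, abs_mul, abs_of_pos (by positivity : (0 : ℝ) < 2 ^ k)]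
    rw [h3, abs_le]
    constructor <;> linarith [h1.1, h1.2, h2.1, h2.2]
  by_contra hne
  have hpos : 0 < |G (conj c) (conj z) - G c z| := abs_pos.2 (sub_ne_zero.2 hne)
  obtain ⟨k, hk⟩ := pow_unbounded_of_one_lt (Real.log (5 * (1 + ‖c‖)) / |G (conj c) (conj z) - G c z|)
    (by norm_num : (1 : ℝ) < 2)
  have := key k
  rw [div_lt_iff₀ hpos] at hk
  linarith

/-- an angle all of whose doubles are near 0 is 0 -/
theorem exp_doubling (δ : ℝ) (h : ∀ k : ℕ, ‖exp ((2 ^ k * δ : ℝ) * I) - 1‖ ≤ 1 / 2) :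
    exp ((δ : ℝ) * I) = 1 := by
  set u := exp ((δ : ℝ) * I) with hu
  have hk : ∀ k : ℕ, exp ((2 ^ k * δ : ℝ) * I) = u ^ (2 ^ k) := by
    intro k
    rw [hu, ← Complex.exp_nat_mul]
    congr 1
    push_cast
    ring
  have h1 : ∀ k : ℕ, (3 / 2 : ℝ) ^ k * ‖u - 1‖ ≤ ‖u ^ (2 ^ k) - 1‖ := by
    intro k
    induction k with
    | zero => simp
    | succ k ih =>
      have e : u ^ (2 ^ (k + 1)) - 1 = (u ^ (2 ^ k) - 1) * (u ^ (2 ^ k) + 1) := by ring
      have h2 := h k
      rw [hk] at h2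
      have h3 : (3 / 2 : ℝ) ≤ ‖u ^ (2 ^ k) + 1‖ := by
        have : (2 : ℝ) = ‖(u ^ (2 ^ k) + 1) - (u ^ (2 ^ k) - 1)‖ := by
          have : (u ^ (2 ^ k) + 1) - (u ^ (2 ^ k) - 1) = 2 := by ring
          rw [this]; simp
        have h4 := norm_sub_le (u ^ (2 ^ k) + 1) (u ^ (2 ^ k) - 1)
        linarith
      rw [e, norm_mul, pow_succ]
      have h5 : 0 ≤ ‖u ^ (2 ^ k) - 1‖ := norm_nonneg _
      nlinarith
  by_contra hne
  have hpos : 0 < ‖u - 1‖ := norm_pos_iff.2 (sub_ne_zero.2 hne)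
  obtain ⟨k, hk2⟩ := pow_unbounded_of_one_lt (1 / ‖u - 1‖) (by norm_num : (1 : ℝ) < 3 / 2)
  have h6 := h1 k
  have h7 := h k
  rw [hk] at h7
  rw [div_lt_iff₀ hpos] at hk2
  linarith

theorem f_iter_B (h : Base G B cc) (c ξ : ℂ) (hξ : G c c < 2 * ξ.re) (hp : 0 ≤ ξ.re) (k : ℕ) :
    (f c)^[k] (B c ξ) = B c (2 ^ k * ξ) := by
  induction k with
  | zero => simp
  | succ k ih =>
    have h1 : ((2 : ℂ) ^ k * ξ).re = 2 ^ k * ξ.re := by
      have : ((2 : ℂ) ^ k) = ((2 ^ k : ℝ) : ℂ) := by push_cast; ring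
      rw [this, re_ofReal_mul]
    have h2 : G c c < 2 * ((2 : ℂ) ^ k * ξ).re := by
      rw [h1]
      have : (1 : ℝ) ≤ 2 ^ k := one_le_pow₀ (by norm_num)
      nlinarith
    rw [Function.iterate_succ_apply', ih, h.bf c _ h2]
    congr 1
    ring

/-- symmetry of the inverse of Boettcher's function -/
theorem B_conj (h : Base G B cc) (c ξ : ℂ) (hξ : G c c < 2 * ξ.re) :
    B (conj c) (conj ξ) = conj (B c ξ) := by
  have hGc : G (conj c) (conj c) = G c c := G_conj h.toGreen c c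
  have hG0 : 0 ≤ G c c := h.gnn c c
  obtain ⟨K, hK1, hK⟩ := h.basym
  set U : Set ℂ := {ξ : ℂ | G c c < 2 * ξ.re} with hU
  have hUo : IsOpen U := isOpen_lt continuous_const (by fun_prop)
  have hUc : IsPreconnected U := by
    have : U = {ξ : ℂ | G c c / 2 < ξ.re} := by
      ext x; simp only [hU, mem_ofPred_eq]; constructor <;> intro h <;> linarith
    rw [this]
    exact (convex_halfSpace_re_gt _).isPreconnected
  -- large real part
  have large : ∃ R : ℝ, 1 ≤ R ∧ ∀ ξ : ℂ, R ≤ ξ.re → K * ‖c‖ ≤ Real.exp (2 * ξ.re) ∧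
      K * ‖c‖ * Real.exp (-(2 * ξ.re)) ≤ 1 / 8 := by
    refine ⟨1 + K * ‖c‖ * 8, by nlinarith [norm_nonneg c], ?_⟩
    intro ξ hξ
    have h0 : 0 ≤ K * ‖c‖ := by positivity
    have h1 : 2 * ξ.re + 1 ≤ Real.exp (2 * ξ.re) := Real.add_one_le_exp _
    have h2 : K * ‖c‖ * 8 ≤ Real.exp (2 * ξ.re) := by nlinarith
    refine ⟨by nlinarith, ?_⟩
    rw [Real.exp_neg, ← div_eq_mul_inv, div_le_iff₀ (Real.exp_pos _)]
    linarith
  obtain ⟨R, hR1, hR⟩ := large
  have main : ∀ ξ : ℂ, R ≤ ξ.re → conj (B (conj c) (conj ξ)) = B c ξ := by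
    intro ξ hξ
    have hGξ : G c c < 2 * ξ.re := (hK c ξ (by linarith) (hR ξ hξ).1).1
    have hGξ' : G (conj c) (conj c) < 2 * (conj ξ).re := by rw [hGc, conj_re]; exact hGξ
    set y := conj (B (conj c) (conj ξ)) with hy
    have hyG : G c y = ξ.re := by
      rw [hy, ← G_conj h.toGreen, conj_conj, h.bG _ _ hGξ', conj_re]
    obtain ⟨ξ', hre, hB⟩ := h.bsurj c y (by rw [hyG]; exact hGξ)
    rw [hyG] at hre
    -- iterate
    have it : ∀ k : ℕ, B c (2 ^ k * ξ') = conj (B (conj c) (2 ^ k * conj ξ)) := by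
      intro k
      rw [← f_iter_B h c ξ' (by rw [hre]; exact hGξ) (by rw [hre]; linarith) k, hB, hy,
        ← f_iter_B h (conj c) (conj ξ) hGξ' (by rw [conj_re]; linarith) k, ← f_conj, conj_conj]
    have e1 : ∀ (k : ℕ) (x : ℂ), ((2 : ℂ) ^ k * x).re = 2 ^ k * x.re := by
      intro k x
      have : ((2 : ℂ) ^ k) = ((2 ^ k : ℝ) : ℂ) := by push_cast; ring
      rw [this, re_ofReal_mul]
    have e2 : ∀ (k : ℕ) (x : ℂ), ((2 : ℂ) ^ k * x).im = 2 ^ k * x.im := by
      intro k x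
      have : ((2 : ℂ) ^ k) = ((2 ^ k : ℝ) : ℂ) := by push_cast; ring
      rw [this, im_ofReal_mul]
    have near : ∀ k : ℕ, ‖exp ((2 ^ k * (ξ'.im - ξ.im) : ℝ) * I) - 1‖ ≤ 1 / 2 := by
      intro k
      have p1 : (1 : ℝ) ≤ 2 ^ k := one_le_pow₀ (by norm_num)
      have r1 : R ≤ ((2 : ℂ) ^ k * ξ').re := by rw [e1, hre]; nlinarith
      have r2 : R ≤ ((2 : ℂ) ^ k * conj ξ).re := by rw [e1, conj_re]; nlinarith
      have a1 := (hK c _ (by linarith) (hR _ r1).1).2
      have a2 := (hK (conj c) ((2 : ℂ) ^ k * conj ξ) (by linarith)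
        (by rw [norm_conj]; exact (hR _ r2).1)).2
      have b1 : ‖B c (2 ^ k * ξ') * exp (-(2 ^ k * ξ')) - 1‖ ≤ 1 / 8 := a1.trans (hR _ r1).2
      have b2 : ‖B (conj c) (2 ^ k * conj ξ) * exp (-(2 ^ k * conj ξ)) - 1‖ ≤ 1 / 8 := by
        refine a2.trans ?_
        rw [norm_conj]
        exact (hR _ r2).2
      have b3 : ‖conj (B (conj c) (2 ^ k * conj ξ)) * exp (-(2 ^ k * ξ)) - 1‖ ≤ 1 / 8 := by
        have : conj (B (conj c) (2 ^ k * conj ξ)) * exp (-(2 ^ k * ξ)) - 1 =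
            conj (B (conj c) (2 ^ k * conj ξ) * exp (-(2 ^ k * conj ξ)) - 1) := by
          rw [map_sub, map_mul, ← exp_conj, map_neg, map_mul, map_pow, conj_conj, map_one]
          have h2 : (starRingEnd ℂ) (2 : ℂ) = 2 := by
            have := conj_ofReal 2
            push_cast at this
            exact this
          rw [h2]
        rw [this, norm_conj]
        exact b2
      rw [← it k] at b3
      set b := B c (2 ^ k * ξ') with hb
      set u := b * exp (-(2 ^ k * ξ')) with hu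
      set v := b * exp (-(2 ^ k * ξ)) with hv
      have huv : v = u * exp ((2 ^ k * (ξ'.im - ξ.im) : ℝ) * I) := by
        rw [hu, hv, mul_assoc, ← Complex.exp_add]
        congr 2
        apply Complex.ext
        · have : (-((2 : ℂ) ^ k * ξ')).re = -(2 ^ k * ξ.re) := by rw [neg_re, e1, hre]
          rw [neg_re, add_re, this, e1, re_ofReal_mul, I_re]
          ring
        · have h1 : (-((2 : ℂ) ^ k * ξ')).im = -(2 ^ k * ξ'.im) := by rw [neg_im, e2]
          rw [neg_im, add_im, h1, e2, im_ofReal_mul, I_im]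
          ring
      set E := exp ((2 ^ k * (ξ'.im - ξ.im) : ℝ) * I) with hE
      have hEn : ‖E‖ = 1 := by rw [hE]; exact norm_exp_ofReal_mul_I _
      have : E - 1 = (v - 1) - (u - 1) * E := by rw [huv]; ring
      rw [this]
      calc ‖(v - 1) - (u - 1) * E‖ ≤ ‖v - 1‖ + ‖(u - 1) * E‖ := norm_sub_le _ _
        _ ≤ 1 / 8 + 1 / 8 * 1 := by
            rw [norm_mul, hEn]
            gcongr
        _ ≤ 1 / 2 := by norm_num
    have hone := exp_doubling _ near
    rw [exp_eq_one_iff] at hone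
    obtain ⟨m, hm⟩ := hone
    have : ξ' = ξ + m * tpi := by
      apply Complex.ext
      · rw [add_re, int_mul_tpi_re, hre, add_zero]
      · rw [add_im, int_mul_tpi_im]
        have := congrArg Complex.im hm
        simp at this
        linarith
    rw [this, bper_int h hGξ] at hB
    exact hB.symm
  -- identity theorem
  set g : ℂ → ℂ := fun ξ => conj (B (conj c) (conj ξ)) with hg
  have d1 : DifferentiableOn ℂ g U := by
    intro x hx
    have : DifferentiableAt ℂ (B (conj c)) (conj x) :=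
      h.bdiff _ _ (by rw [hGc, conj_re]; exact hx)
    have q := DifferentiableAt.conj_conj this
    rw [conj_conj] at q
    exact q.differentiableWithinAt
  have d2 : DifferentiableOn ℂ (B c) U := fun x hx => (h.bdiff c x hx).differentiableWithinAt
  have hx0 : ((R + 1 : ℝ) : ℂ) ∈ U := by
    have : R ≤ (((R + 1 : ℝ) : ℂ)).re := by rw [ofReal_re]; linarith
    exact (hK c _ (by linarith) (hR _ this).1).1
  have hev : g =ᶠ[𝓝 ((R + 1 : ℝ) : ℂ)] B c := by
    have : {x : ℂ | R < x.re} ∈ 𝓝 ((R + 1 : ℝ) : ℂ) := by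
      refine (isOpen_lt continuous_const continuous_re).mem_nhds ?_
      simp only [mem_ofPred_eq, ofReal_re]
      linarith
    filter_upwards [this] with x hx
    exact main x (le_of_lt hx)
  have := (d1.analyticOnNhd hUo).eqOn_of_preconnected_of_eventuallyEq (d2.analyticOnNhd hUo) hUc
    hx0 hev
  have h2 : g ξ = B c ξ := this hξ
  rw [← h2, hg]
  simp

/-- the parameters on the ray of angle 0 are real -/
theorem cc_real (h : Base G B cc) (τ : ℝ) (hτ : 0 < τ) : conj (cc τ) = cc τ := by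
  have hw : (τ : ℂ) ∈ HP := by unfold HP; simpa using hτ
  set c := cc τ with hc
  have h1 : G c c = τ := by rw [hc, h.pG _ hw]; simp
  have h2 : G (conj c) (conj c) = τ := by rw [G_conj h.toGreen, h1]
  have h3 : conj c ∉ MM := by
    intro hm
    rw [← h.gM, h2] at hm
    linarith
  obtain ⟨w', hw', he⟩ := h.psurj _ h3
  have h4 : w'.re = τ := by rw [← h.pG _ hw', he, h2]
  have h5 : B (conj c) τ = conj c := by
    have := B_conj h c τ (by rw [h1, ofReal_re]; linarith)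
    rw [conj_ofReal] at this
    rw [this, hc, h.pB _ hw]
  have h6 : B (conj c) w' = conj c := by
    rw [← he]
    exact h.pB _ hw'
  obtain ⟨k, hk⟩ := h.binj (conj c) τ w' (by rw [h2, ofReal_re]; linarith)
    (by rw [h2, h4]; linarith) (h5.trans h6.symm)
  rw [← he, hk, cc_per_int h hw k, hc]

theorem real_iter (c x : ℝ) (k : ℕ) : (f (c : ℂ))^[k] (x : ℂ) = (((fun y : ℝ => y ^ 2 + c)^[k] x : ℝ) : ℂ) := by
  induction k with
  | zero => simp
  | succ k ih =>
    rw [Function.iterate_succ_apply', Function.iterate_succ_apply', ih]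
    unfold f
    push_cast
    ring

theorem small_mem (h : Base G B cc) (c : ℝ) (h0 : 0 ≤ c) (h1 : c ≤ 1 / 4) : (c : ℂ) ∈ MM := by
  rw [← h.gM, h.gzero]
  refine ⟨1, ?_⟩
  intro k
  rw [real_iter, norm_real]
  have : 0 ≤ (fun y : ℝ => y ^ 2 + c)^[k] c ∧ (fun y : ℝ => y ^ 2 + c)^[k] c ≤ 1 / 2 := by
    induction k with
    | zero => simp only [Function.iterate_zero, id]; constructor <;> linarith
    | succ k ih =>
      rw [Function.iterate_succ_apply']
      constructor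
      · positivity
      · nlinarith [ih.1, ih.2]
  rw [Real.norm_eq_abs, abs_of_nonneg this.1]
  linarith [this.2]

theorem large_not_mem (h : Base G B cc) (c : ℝ) (h1 : 1 / 4 < c) : (c : ℂ) ∉ MM := by
  rw [← h.gM, h.gzero]
  rintro ⟨R, hR⟩
  have key : ∀ k : ℕ, c + k * (c - 1 / 4) ≤ (fun y : ℝ => y ^ 2 + c)^[k] c := by
    intro k
    induction k with
    | zero => simp
    | succ k ih =>
      rw [Function.iterate_succ_apply']
      push_cast
      nlinarith [sq_nonneg ((fun y : ℝ => y ^ 2 + c)^[k] c - 1 / 2)]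
  obtain ⟨k, hk⟩ := exists_nat_gt (R / (c - 1 / 4))
  have h2 := hR k
  rw [real_iter, norm_real] at h2
  have h3 := key k
  have h4 := Real.le_norm_self ((fun y : ℝ => y ^ 2 + c)^[k] c)
  rw [div_lt_iff₀ (by linarith)] at hk
  linarith

theorem cc_upper (h : Base G B cc) (w : ℂ) (hw : w ∈ HP) : ‖cc w‖ ≤ 4 * Real.exp w.re := by
  have h1 := h.gcc (cc w)
  rw [h.pG w hw] at h1
  rcases eq_or_lt_of_le (norm_nonneg (cc w)) with e | hpos
  · rw [← e]; positivity
  · rw [← Real.exp_log hpos]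
    calc Real.exp (Real.log ‖cc w‖) ≤ Real.exp (w.re + Real.log 4) := Real.exp_le_exp.2 h1
      _ = 4 * Real.exp w.re := by
        rw [Real.exp_add, Real.exp_log (by norm_num)]; ring

theorem cc_pos_large (h : Base G B cc) : ∃ R : ℝ, 1 ≤ R ∧ 0 < (cc (R : ℂ)).re := by
  obtain ⟨K, hK1, hK⟩ := h.basym
  refine ⟨8 * K, by linarith, ?_⟩
  set R : ℝ := 8 * K with hR
  have hw : ((R : ℝ) : ℂ) ∈ HP := by unfold HP; simp only [mem_ofPred_eq, ofReal_re]; linarith
  have h1 := cc_upper h R hw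
  rw [ofReal_re] at h1
  have h2 : R + 1 ≤ Real.exp R := Real.add_one_le_exp _
  have h3 : Real.exp (2 * R) = Real.exp R * Real.exp R := by rw [two_mul, Real.exp_add]
  have h4 : K * ‖cc R‖ ≤ Real.exp (2 * R) := by
    rw [h3]
    have : K * ‖cc R‖ ≤ K * (4 * Real.exp R) := by gcongr
    nlinarith [Real.exp_pos R]
  have h5 := (hK (cc R) R (by rw [ofReal_re]; linarith) (by rw [ofReal_re]; exact h4)).2
  rw [h.pB _ hw, ofReal_re] at h5
  have h6 : K * ‖cc R‖ * Real.exp (-(2 * R)) ≤ 1 / 2 := by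
    rw [Real.exp_neg, ← div_eq_mul_inv, div_le_iff₀ (Real.exp_pos _), h3]
    have : K * ‖cc R‖ ≤ K * (4 * Real.exp R) := by gcongr
    nlinarith [Real.exp_pos R]
  have h7 : ‖cc R * exp (-(R : ℂ)) - 1‖ ≤ 1 / 2 := h5.trans h6
  have h8 := (abs_re_le_norm (cc R * exp (-(R : ℂ)) - 1)).trans h7
  have h9 : exp (-(R : ℂ)) = ((Real.exp (-R) : ℝ) : ℂ) := by push_cast; ring
  rw [h9, sub_re, re_mul_ofReal, one_re] at h8
  rw [abs_le] at h8
  have h10 : 0 < (cc R).re * Real.exp (-R) := by linarith [h8.1]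
  exact (pos_iff_pos_of_mul_pos h10).2 (Real.exp_pos _)

theorem cc_gt (h : Base G B cc) (τ : ℝ) (hτ : 0 < τ) :
    1 / 4 < (cc (τ : ℂ)).re ∧ cc (τ : ℂ) = (((cc (τ : ℂ)).re : ℝ) : ℂ) := by
  have real : ∀ t : ℝ, 0 < t → cc (t : ℂ) = (((cc (t : ℂ)).re : ℝ) : ℂ) := by
    intro t ht
    exact (conj_eq_iff_re.1 (cc_real h t ht)).symm
  have notin : ∀ t : ℝ, 0 < t → (cc (t : ℂ)).re ∉ Icc (0 : ℝ) (1 / 4) := by
    intro t ht hm
    have h1 := small_mem h _ hm.1 hm.2
    rw [← real t ht] at h1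
    have hw : (t : ℂ) ∈ HP := by unfold HP; simpa using ht
    exact cc_not_mem h hw h1
  refine ⟨?_, real τ hτ⟩
  by_contra hle
  push Not at hle
  have hneg : (cc (τ : ℂ)).re < 0 := by
    by_contra h2
    push Not at h2
    exact notin τ hτ ⟨h2, hle⟩
  obtain ⟨R, hR1, hR⟩ := cc_pos_large h
  have hcont : ContinuousOn (fun t : ℝ => (cc (t : ℂ)).re) (Ioi 0) := by
    refine Complex.continuous_re.comp_continuousOn ?_
    refine h.pdiff.continuousOn.comp (by fun_prop) ?_
    intro t ht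
    unfold HP
    simpa using ht
  have hpc : IsPreconnected (Ioi (0 : ℝ)) := isPreconnected_Ioi
  have := hpc.intermediate_value₂ (a := τ) (b := R) (f := fun t : ℝ => (cc (t : ℂ)).re)
    (g := fun _ => (0 : ℝ)) hτ (by simp only [mem_Ioi]; linarith) hcont continuousOn_const hneg.le hR.le
  obtain ⟨t, ht, he⟩ := this
  exact notin t ht ⟨by rw [he], by rw [he]; norm_num⟩

end

theorem sym : S_SYM := by
  intro G B cc h w hw him
  have hwr : w = ((w.re : ℝ) : ℂ) := by
    apply Complex.ext <;> simp [him]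
  have hpos : 0 < w.re := by unfold HP at hw; simpa using hw
  rw [hwr]
  exact ⟨_, cc_gt h w.re hpos⟩

theorem qrt : S_QRT := by
  intro G B cc h
  rw [Metric.tendsto_nhdsWithin_nhds]
  intro ε hε
  have hcont : Continuous (fun c : ℝ => G (c : ℂ) (c : ℂ)) :=
    h.gcont.comp (by fun_prop : Continuous fun c : ℝ => ((c : ℂ), (c : ℂ)))
  by_cases hne : (Icc (1 / 4 + ε) (16 : ℝ)).Nonempty
  · obtain ⟨c₀, hc₀, hmin⟩ := isCompact_Icc.exists_isMinOn hne hcont.continuousOn
    have hc0 : 0 < G (c₀ : ℂ) (c₀ : ℂ) := by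
      have h1 := large_not_mem h c₀ (by linarith [hc₀.1])
      rw [← h.gM] at h1
      exact lt_of_le_of_ne (h.gnn _ _) (Ne.symm h1)
    refine ⟨min 1 (G (c₀ : ℂ) (c₀ : ℂ)), lt_min one_pos hc0, ?_⟩
    intro τ hτ hd
    have hτ' : 0 < τ := hτ
    have hd' : τ < min 1 (G (c₀ : ℂ) (c₀ : ℂ)) := by
      rw [Real.dist_eq, sub_zero, abs_of_pos hτ'] at hd; exact hd
    have hτ1 : τ < 1 := lt_of_lt_of_le hd' (min_le_left _ _)
    have hτ2 : τ < G (c₀ : ℂ) (c₀ : ℂ) := lt_of_lt_of_le hd' (min_le_right _ _)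
    obtain ⟨h1, h2⟩ := cc_gt h τ hτ'
    have hw : (τ : ℂ) ∈ HP := by unfold HP; simpa using hτ'
    set x := (cc (τ : ℂ)).re with hx
    have hG : G (x : ℂ) (x : ℂ) = τ := by
      rw [← h2, h.pG _ hw]; simp
    have hup : x ≤ 16 := by
      have h3 := cc_upper h τ hw
      rw [ofReal_re, h2, norm_real] at h3
      have h4 := Real.le_norm_self x
      have h5 : Real.exp τ ≤ Real.exp 1 := Real.exp_le_exp.2 hτ1.le
      have h6 := Real.exp_one_lt_d9
      linarith
    have hlt : x < 1 / 4 + ε := by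
      by_contra hge
      push Not at hge
      have := hmin (a := x) ⟨hge, hup⟩
      simp only [mem_ofPred_eq] at this
      rw [hG] at this
      linarith
    rw [h2, show (1 / 4 : ℂ) = (((1 / 4 : ℝ)) : ℂ) by push_cast; ring, dist_eq_norm, ← ofReal_sub,
      norm_real, Real.norm_eq_abs, abs_lt]
    constructor <;> linarith
  · refine ⟨1, one_pos, ?_⟩
    intro τ hτ hd
    have hτ' : 0 < τ := hτ
    have hτ1 : τ < 1 := by
      rw [Real.dist_eq, sub_zero, abs_of_pos hτ'] at hd; exact hd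
    obtain ⟨h1, h2⟩ := cc_gt h τ hτ'
    have hw : (τ : ℂ) ∈ HP := by unfold HP; simpa using hτ'
    have hup : (cc (τ : ℂ)).re ≤ 16 := by
      have h3 := cc_upper h τ hw
      rw [ofReal_re, h2, norm_real] at h3
      have h4 := Real.le_norm_self (cc (τ : ℂ)).re
      have h5 : Real.exp τ ≤ Real.exp 1 := Real.exp_le_exp.2 hτ1.le
      have h6 := Real.exp_one_lt_d9
      linarith
    rw [not_nonempty_iff_eq_empty, Icc_eq_empty_iff, not_le] at hne
    rw [h2, show (1 / 4 : ℂ) = (((1 / 4 : ℝ)) : ℂ) by push_cast; ring, dist_eq_norm, ← ofReal_sub,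
      norm_real, Real.norm_eq_abs, abs_lt]
    constructor <;> linarith

end Pool.Agent.KS6_23.ML.SYM
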