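import Pool.Agent.KS6_23.ML.Stm3
import Pool.Graph.R_seed8.H749R2.Hyp2

/-! # Project ML, module TOP: clopen subsets of the Mandelbrot set up to a finite set meet the
boundary (helper12) -/

set_option autoImplicit false

open Complex Set Filter Metric Topology

namespace Pool.Agent.KS6_23.ML.TOP

theorem top : S_TOP := by
  intro A F hne hsub hF hop hcl
  by_contra hcon
  push Not at hcon
  -- `A` is open
  have hint : ∀ c ∈ A, ∀ᶠ c' in 𝓝 c, c' ∈ A := by
    intro c hc
    have h1 : ∀ᶠ c' in 𝓝 c, c' ∈ MM := by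
      have h2 : c ∈ (closure MMᶜ)ᶜ := hcon c hc
      rw [← interior_eq_compl_closure_compl] at h2
      exact mem_interior_iff_mem_nhds.1 h2
    filter_upwards [h1, hop c hc] with c' h2 h3 using h3 h2
  have hAo : IsOpen A := isOpen_iff_mem_nhds.2 hint
  -- the complement of `F` is connected
  have hconn : IsPreconnected (Fᶜ : Set ℂ) := by
    have h := (hF.countable).isPathConnected_compl_of_one_lt_rank (E := ℂ)
      (by rw [rank_real_complex]; exact_mod_cast Nat.one_lt_ofNat)
    exact h.isConnected.isPreconnected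
  -- `A` is bounded
  have hb : ∀ c ∈ A, ‖c‖ ≤ 2 := fun c hc =>
    Pool.Agent.H749R2.Hyp.x_le_two (n := 2) le_rfl (hsub hc)
  obtain ⟨a, ha⟩ := hne
  -- a point of `A` outside of `F`
  have hAF : (Fᶜ ∩ A).Nonempty := by
    by_contra h
    rw [not_nonempty_iff_eq_empty] at h
    have h1 : A ⊆ F := by
      intro c hc
      by_contra h2
      have : c ∈ Fᶜ ∩ A := ⟨h2, hc⟩
      rw [h] at this
      exact this
    have h2 : A.Finite := hF.subset h1
    have h3 : (𝓝[≠] a).NeBot := inferInstance
    exact (infinite_of_mem_nhds a (hAo.mem_nhds ha)) h2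
  have hun : (Fᶜ ∩ (closure A)ᶜ).Nonempty := by
    have h1 : (F ∪ closedBall (0 : ℂ) 2) ≠ univ := by
      intro h
      have hbd : Bornology.IsBounded (F ∪ closedBall (0 : ℂ) 2) :=
        hF.isBounded.union isBounded_closedBall
      rw [h] at hbd
      exact (NormedSpace.noncompactSpace ℝ ℂ).noncompact_univ
        (by
          have := hbd.isCompact_closure
          rwa [closure_univ] at this)
    obtain ⟨c, hc⟩ := (ne_univ_iff_exists_notMem _).1 h1
    refine ⟨c, fun h => hc (Or.inl h), fun h => hc (Or.inr ?_)⟩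
    have h2 : closure A ⊆ closedBall (0 : ℂ) 2 :=
      closure_minimal (fun c hc => by simpa using hb c hc) isClosed_closedBall
    exact h2 h
  have hcov : Fᶜ ⊆ A ∪ (closure A)ᶜ := by
    intro c hc
    by_cases h : c ∈ closure A
    · rcases hcl h with h1 | h1
      · exact Or.inl h1
      · exact absurd h1 hc
    · exact Or.inr h
  obtain ⟨c, _, h1, h2⟩ := hconn A (closure A)ᶜ hAo isClosed_closure.isOpen_compl hcov hAF hun
  exact h2 (subset_closure h1)

end Pool.Agent.KS6_23.ML.TOP
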