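import Pool.Agent.KS6_23.ML.MLCR
import Pool.Agent.KS6_23.ML.EXI

/-!
# Project ML, stage 2: towers of nested satellite limbs, and local connectivity
-/

set_option autoImplicit false

open Complex Set Filter Metric Topology

namespace Pool.Agent.KS6_23.ML.TOWER

open Pool.Agent.KS6_23.ML Pool.Agent.KS6_23.ML.Basic Pool.Agent.KS6_23.ML.EXI

theorem root_bd {p : ℕ → ℤ} {q n : ℕ → ℕ} {c z : ℕ → ℂ} {B W : ℕ → Set ℂ}
    (hq : ∀ k, 2 ≤ q k) (hpq : ∀ k, IsCoprime (p k) (q k : ℤ)) (hn : ∀ k, 1 ≤ n k)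
    (hT : Tower p q n c z B W) (k : ℕ) : c k ∈ closure MMᶜ :=
  MLCR.root_bdry (hn k) (dZ_ne (hq k) (hpq k)) (hT.limb k).fix (hT.limb k).mlt

theorem n_pos {p : ℕ → ℤ} {q n : ℕ → ℕ} {c z : ℕ → ℂ} {B W : ℕ → Set ℂ}
    (hq : ∀ k, 2 ≤ q k) (hT : Tower p q n c z B W) : ∀ k, 1 ≤ n k := by
  intro k
  induction k with
  | zero => rw [hT.one]
  | succ k ih =>
    rw [hT.succ]
    have := hq k
    exact Nat.one_le_iff_ne_zero.2 (Nat.mul_ne_zero (by omega) (by omega))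

theorem anti {p : ℕ → ℤ} {q n : ℕ → ℕ} {c z : ℕ → ℂ} {B W : ℕ → Set ℂ}
    (hT : Tower p q n c z B W) : Antitone B :=
  antitone_nat_of_succ_le fun k => subset_closure.trans (hT.nest k)

theorem bdd {p : ℕ → ℤ} {q n : ℕ → ℕ} {c z : ℕ → ℂ} {B W : ℕ → Set ℂ}
    (hT : Tower p q n c z B W) (k : ℕ) : Bornology.IsBounded (B k) :=
  MLCR.MM_bdd.subset fun x hx => ((hT.clo k).sub hx).1

/-- **Towers of nested satellite limbs.** -/
theorem tower (hE : S_EXL) (hR : S_REL) (hCan : S_CAN) (hNext : S_NEXT) (hNest : S_NEST) :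
    ∃ C : ℝ, 0 < C ∧ ∀ (p : ℕ → ℤ) (q : ℕ → ℕ), (∀ k, 2 ≤ q k) →
      (∀ k, IsCoprime (p k) (q k : ℤ)) →
      ∃ (n : ℕ → ℕ) (c z : ℕ → ℂ) (B W : ℕ → Set ℂ), Tower p q n c z B W ∧
        (⋂ k, B k).Nonempty ∧
        ((∃ᶠ k in atTop, C * n k ^ 2 ≤ q k * dZ (p k / q k) ^ 2) →
          Tendsto (fun k => diam (B k)) atTop (𝓝 0) ∧
          ∃ c₀ : ℂ, (⋂ k, B k) = {c₀} ∧
            (∀ U ∈ 𝓝 c₀, ∃ V ⊆ U ∩ MM, IsConnected V ∧ V ∈ 𝓝[MM] c₀) ∧
            c₀ ∈ closure {c : ℂ | ∃ (m : ℕ) (z : ℂ), 1 ≤ m ∧ (f c)^[m] z = z ∧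
              ‖mul m c z‖ < 1}) := by
  obtain ⟨C, hC, hstep⟩ := MLCR.step hE hR
  refine ⟨C, hC, fun p q hq hpq => ?_⟩
  obtain ⟨n, c, z, B, W, hT, hne⟩ := exi hCan hNext hNest p q hq hpq
  refine ⟨n, c, z, B, W, hT, hne, fun hfr => ?_⟩
  have hn := n_pos hq hT
  have hbd := bdd hT
  have hanti := anti hT
  have hdm : Antitone fun k => diam (B k) := fun j k hjk => diam_mono (hanti hjk) (hbd j)
  have hhalf : ∀ k, C * n (k + 1) ^ 2 ≤ q (k + 1) * dZ (p (k + 1) / q (k + 1)) ^ 2 →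
      diam (B (k + 1)) ≤ diam (B k) / 2 := by
    intro k hk
    have := hq (k + 1)
    exact hstep (n (k + 1)) (q (k + 1)) (p (k + 1)) (c (k + 1)) (z (k + 1)) (B (k + 1)) (c k)
      (B k) (hn _) (by omega) (hpq _) hk (hT.limb (k + 1)) (root_bd hq hpq hn hT k) (hT.clo k)
      (hT.mem k)
  -- the diameters tend to zero
  have hlim : Tendsto (fun k => diam (B k)) atTop (𝓝 0) := by
    have hbb : BddBelow (range fun k => diam (B k)) := ⟨0, by
      rintro _ ⟨k, rfl⟩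
      exact diam_nonneg⟩
    have h1 := tendsto_atTop_ciInf hdm hbb
    set L := ⨅ k, diam (B k) with hL
    have hL0 : 0 ≤ L := le_ciInf fun k => diam_nonneg
    have hLk : ∀ k, L ≤ diam (B k) := fun k => ciInf_le hbb k
    have h2 : L = 0 := by
      by_contra hne0
      have hLpos : 0 < L := lt_of_le_of_ne hL0 (Ne.symm hne0)
      have h3 : ∀ᶠ k in atTop, diam (B k) < 2 * L := h1.eventually_lt_const (by linarith)
      obtain ⟨K, hK⟩ := eventually_atTop.1 h3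
      obtain ⟨k, hk1, hk2⟩ := frequently_atTop.1 hfr (K + 1)
      obtain ⟨j, rfl⟩ : ∃ j, k = j + 1 := ⟨k - 1, by omega⟩
      have h4 := hhalf j hk2
      have h5 := hK j (by omega)
      have h6 := hLk (j + 1)
      linarith
    rw [h2] at h1
    exact h1
  refine ⟨hlim, ?_⟩
  obtain ⟨c₀, hc₀⟩ := hne
  have hc₀k : ∀ k, c₀ ∈ B k := fun k => mem_iInter.1 hc₀ k
  refine ⟨c₀, ?_, ?_⟩
  · refine Subset.antisymm (fun x hx => ?_) (singleton_subset_iff.2 hc₀)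
    rw [mem_singleton_iff, ← dist_eq_zero]
    refine le_antisymm ?_ dist_nonneg
    exact ge_of_tendsto' hlim fun k => dist_le_diam_of_mem (hbd k) (mem_iInter.1 hx k) (hc₀k k)
  · refine MLC.lc fun ε hε => ?_
    obtain ⟨k, hk⟩ := (hlim.eventually_lt_const hε).exists
    refine ⟨n k, p k / q k, c k, z k, B k, hn k, dZ_ne (hq k) (hpq k), hT.limb k, hc₀k k,
      fun x hx => ?_⟩
    have hcl := MLCR.root_closure (hT.clo k) MLCR.zero_MM (hT.zero k) ⟨c₀, hc₀k k⟩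
    rw [← dist_eq_norm]
    refine le_trans ?_ hk.le
    rw [← diam_closure]
    exact dist_le_diam_of_mem (hbd k).closure (subset_closure hx) hcl

end Pool.Agent.KS6_23.ML.TOWER
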