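import Pool.Agent.KS6_23.ML.ALL
import Pool.Agent.KS6_23.ML.COMX
import Pool.Agent.KS6_23.ML.SEP
import Pool.Agent.KS6_23.ML.CAN
import Pool.Agent.KS6_23.ML.NEXT
import Pool.Agent.KS6_23.ML.NEST
import Pool.Agent.KS6_23.ML.LABG
import Pool.Agent.KS6_23.ML.RINE
import Pool.Agent.KS6_23.ML.SYM
import Pool.Agent.KS6_23.ML.ATU
import Pool.Agent.KS6_23.ML.TOP
import Pool.Agent.KS6_23.ML.KOB
import Pool.Agent.KS6_23.ML.UNI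
import Pool.Agent.KS6_23.ML.REL
import Pool.Agent.KS6_23.ML.LIMB2
import Pool.Agent.KS6_23.ML.MLCR
import Pool.Agent.KS6_23.ML.TOWER

set_option autoImplicit false

/-! # Project ML, stage 2: assembly -/

open Complex Set Filter Metric Topology

namespace Pool.Agent.KS6_23.ML.ALL2

open Pool.Agent.KS6_23.ML

theorem comx : S_COMX :=
  COMX.comx SEC.sec LAND.land STAB.stab (PLY.ply GL.gl) XLOC.xloc CNTN.cntn TOP.top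
theorem sep : S_SEP := SEP.sep ALL.hyp TRV.trv XLOC.xcpt comx
theorem can : S_CAN := CAN.can BASE.base FRO.fro TRV.trv XLOC.xloc XLOC.xcpt CNTN.cntn sep
theorem nest : S_NEST := NEST.nest BASE.base
theorem next : S_NEXT := NEXT.next can
theorem extg : S_EXTG := SHEET.extg TRV.trv XLOC.xloc XLOC.xcpt CNTN.cntn
theorem unram : ∃ κ₀ : ℝ, 0 < κ₀ ∧ κ₀ ≤ 1 ∧ Unram κ₀ := by
  obtain ⟨κ₀, h0, h1, h⟩ := ALL.unr
  exact ⟨κ₀, h0, h1, h⟩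
theorem exl : S_EXL := LIMB2.exl unram extg
theorem limb2 : S_LIMB2 := LIMB2.limb2 BASE.base ALL.cls FRO.fro
theorem labg : S_LABG := LABG.labg ALL.hyp comx
theorem uni : S_UNI := UNI.uni BASE.base LAM.lam_exists CODE.code labg RINE.rine SYM.sym FRO.fro
  XLOC.xloc XLOC.xcpt CNTN.cntn ATU.atu TOP.top
theorem rel : S_REL := REL.rel exl uni limb2 KOB.kob ATU.atu XLOC.xloc FRO.fro

/-- towers of nested satellite limbs, unconditionally -/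
theorem tower : ∃ C : ℝ, 0 < C ∧ ∀ (p : ℕ → ℤ) (q : ℕ → ℕ), (∀ k, 2 ≤ q k) →
      (∀ k, IsCoprime (p k) (q k : ℤ)) →
      ∃ (n : ℕ → ℕ) (c z : ℕ → ℂ) (B W : ℕ → Set ℂ), EXI.Tower p q n c z B W ∧
        (⋂ k, B k).Nonempty ∧
        ((∃ᶠ k in atTop, C * n k ^ 2 ≤ q k * dZ (p k / q k) ^ 2) →
          Tendsto (fun k => diam (B k)) atTop (𝓝 0) ∧
          ∃ c₀ : ℂ, (⋂ k, B k) = {c₀} ∧
            (∀ U ∈ 𝓝 c₀, ∃ V ⊆ U ∩ MM, IsConnected V ∧ V ∈ 𝓝[MM] c₀) ∧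
            c₀ ∈ closure {c : ℂ | ∃ (m : ℕ) (z : ℂ), 1 ≤ m ∧ (f c)^[m] z = z ∧
              ‖mul m c z‖ < 1}) := TOWER.tower exl rel can next nest

/-- local connectivity at the points of infinitely many limbs, unconditionally -/
theorem mlcr : ∃ C : ℝ, 0 < C ∧ ∀ c₀ : ℂ,
    (∀ F : Set ℂ, F.Finite → ∃ (n q : ℕ) (p : ℤ) (c₁ z₁ : ℂ) (B : Set ℂ), c₁ ∉ F ∧ 1 ≤ n ∧ 1 ≤ q ∧
      IsCoprime p (q : ℤ) ∧ C * n ^ 2 ≤ q * dZ (p / q) ^ 2 ∧ Limb n (p / q) c₁ z₁ B ∧ c₀ ∈ B) →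
    (∀ U ∈ 𝓝 c₀, ∃ V ⊆ U ∩ MM, IsConnected V ∧ V ∈ 𝓝[MM] c₀) ∧
      c₀ ∈ closure {c : ℂ | ∃ (m : ℕ) (z : ℂ), 1 ≤ m ∧ (f c)^[m] z = z ∧ ‖mul m c z‖ < 1} :=
  MLCR.mlcr exl rel can

end Pool.Agent.KS6_23.ML.ALL2
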