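import Pool.Agent.KS6_23.ML.Stm
import Pool.Graph.R_pool_sql_team_seeded_1acbe0a2.Y427.LC.Bott2
import Pool.Graph.R_pool_sql_team_seeded_1acbe0a2.Y297.LC.CG

set_option autoImplicit false

/-!
# Project ML, modules 1, 2, 3: the basic objects exist

Green's function, the inverse of Boettcher's function and the parametrisation of the complement of
the Mandelbrot set, from the library.
-/

open Complex Set Filter Metric Topology MeasureTheory

namespace Pool.Agent.KS6_23.ML.BASE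

open Pool.Agent.H712R2 (fc)
open Pool.Agent.H713R2 (IsBeta exists_beta)
open Pool.Agent.H713R2.AR (green gap green_near gap_tendsto norm_iter_le green_nonneg)
open Pool.Agent.Y484.LC (IsPsi IsP rho exists_psi green_psi inj_psi surj_psi par_psi green_cc)

/-- Green's function -/
noncomputable def G (c z : ℂ) : ℝ := green 2 c z

theorem f_eq (c : ℂ) : f c = fc 2 c := rfl

theorem f_iter_eq (c : ℂ) (n : ℕ) : (f c)^[n] = (fc 2 c)^[n] := rfl

theorem gf (c z : ℂ) : G c (f c z) = 2 * G c z := by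
  have := Pool.Agent.Y297.LC.green_fc (d := 2) le_rfl c z
  exact_mod_cast this

theorem g_crit (c : ℂ) : G c c = 2 * G c 0 := by
  have := gf c 0
  simpa [f] using this

theorem gup (c z : ℂ) : G c z ≤ Real.log (1 + ‖c‖ + ‖z‖) := by
  have hb : ∀ n : ℕ, 1 + ‖c‖ + ‖(fc 2 c)^[n] z‖ ≤ (1 + ‖c‖ + ‖z‖) ^ (2 ^ n) := by
    intro n
    induction n with
    | zero => simp
    | succ n ih =>
      rw [Function.iterate_succ_apply', pow_succ, pow_mul]
      set w := (fc 2 c)^[n] z with hw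
      have h1 : ‖fc 2 c w‖ ≤ ‖w‖ ^ 2 + ‖c‖ := by
        show ‖w ^ 2 + c‖ ≤ _
        calc _ ≤ ‖w ^ 2‖ + ‖c‖ := norm_add_le _ _
          _ = _ := by rw [norm_pow]
      have h2 := norm_nonneg w
      have h3 := norm_nonneg c
      have h4 : (1 + ‖c‖ + ‖w‖) ^ 2 ≤ ((1 + ‖c‖ + ‖z‖) ^ (2 ^ n)) ^ 2 :=
        pow_le_pow_left₀ (by positivity) ih 2
      nlinarith [mul_nonneg h2 h3]
  have hpos : (1 : ℝ) ≤ 1 + ‖c‖ + ‖z‖ := by
    have h2 := norm_nonneg z
    have h3 := norm_nonneg c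
    linarith
  refine le_of_tendsto' (gap_tendsto (d := 2) le_rfl c z) ?_
  intro n
  unfold gap
  rw [div_le_iff₀ (by positivity)]
  have h1 : Real.posLog ‖(fc 2 c)^[n] z‖ ≤ Real.posLog ((1 + ‖c‖ + ‖z‖) ^ (2 ^ n)) :=
    Real.posLog_le_posLog (norm_nonneg _) (by
      have h3 := norm_nonneg c
      linarith [hb n])
  have h2 : Real.posLog ((1 + ‖c‖ + ‖z‖) ^ (2 ^ n)) = Real.log ((1 + ‖c‖ + ‖z‖) ^ (2 ^ n)) :=
    Real.posLog_eq_log (by
      rw [abs_of_nonneg (by positivity)]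
      exact one_le_pow₀ hpos)
  rw [h2, Real.log_pow] at h1
  push_cast at h1 ⊢
  linarith

theorem glow (c z : ℂ) : Real.log ‖z‖ ≤ G c z + Real.log (4 * (1 + ‖c‖)) := by
  have hA : (1 : ℝ) ≤ 1 + ‖c‖ := by linarith [norm_nonneg c]
  have h1 := (abs_le.1 (green_near (d := 2) le_rfl hA (by linarith : ‖c‖ ≤ 1 + ‖c‖) z 0)).1
  have h2 : gap 2 c z 0 = Real.posLog ‖z‖ := by simp [gap]
  rw [h2] at h1
  have h3 : Real.log ‖z‖ ≤ Real.posLog ‖z‖ := le_max_right _ _
  have h4 : Real.log (2 * (1 + ‖c‖)) ≤ Real.log (4 * (1 + ‖c‖)) :=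
    Real.log_le_log (by positivity) (by linarith)
  simp only [pow_zero, div_one] at h1
  have h5 : G c z = green 2 c z := rfl
  rw [h5]
  linarith

theorem gzero (c z : ℂ) : G c z = 0 ↔ ∃ R : ℝ, ∀ k : ℕ, ‖(f c)^[k] z‖ ≤ R := by
  constructor
  · intro h
    refine ⟨2 * max 1 ‖c‖, fun k => ?_⟩
    have h1 := norm_iter_le (d := 2) le_rfl (le_max_left 1 ‖c‖) (le_max_right 1 ‖c‖) z k
    have h2 : green 2 c z = 0 := h
    rwa [h2, mul_zero, Real.exp_zero, mul_one] at h1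
  · rintro ⟨R, hR⟩
    refine tendsto_nhds_unique (gap_tendsto (d := 2) le_rfl c z) ?_
    have hlim : Tendsto (fun n : ℕ => Real.posLog R / ((2 : ℕ) : ℝ) ^ n) atTop (𝓝 0) := by
      have h2 : Tendsto (fun n : ℕ => ((2 : ℕ) : ℝ) ^ n) atTop atTop :=
        tendsto_pow_atTop_atTop_of_one_lt (by norm_num)
      exact h2.const_div_atTop _
    refine squeeze_zero (fun n => ?_) (fun n => ?_) hlim
    · exact div_nonneg Real.posLog_nonneg (by positivity)
    · apply div_le_div_of_nonneg_right _ (by positivity)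
      exact Real.posLog_le_posLog (norm_nonneg _) (hR n)

theorem gnn (c z : ℂ) : 0 ≤ G c z := green_nonneg (d := 2) le_rfl c z

theorem gcont : Continuous (fun p : ℂ × ℂ => G p.1 p.2) :=
  Pool.Agent.Y297.LC.continuous_green2 (d := 2) le_rfl

theorem gdiag : Continuous (fun c : ℂ => G c c) :=
  Continuous.comp (g := fun p : ℂ × ℂ => G p.1 p.2) (f := fun c : ℂ => (c, c)) gcont (by fun_prop)

theorem gM (c : ℂ) : G c c = 0 ↔ c ∈ MM := by
  rw [g_crit]
  have := (Pool.Agent.Y297.LC.cg 2 le_rfl).2.2.1 c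
  constructor
  · intro h
    exact this.2 (by have h1 : green 2 c 0 = G c 0 := rfl
                     rw [h1]; linarith)
  · intro h
    have h1 : G c 0 = 0 := this.1 h
    rw [h1]; ring

theorem gK (c z : ℂ) (h : G c z = 0) : ‖z‖ ^ 2 ≤ 4 * (1 + ‖c‖) := by
  by_contra hcon
  push Not at hcon
  obtain ⟨R, hR⟩ := (gzero c z).1 h
  have hc := norm_nonneg c
  have key : ∀ n : ℕ, (3 / 2 : ℝ) ^ n * ‖z‖ ≤ ‖(f c)^[n] z‖ ∧ 4 * (1 + ‖c‖) < ‖(f c)^[n] z‖ ^ 2 := by
    intro n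
    induction n with
    | zero => exact ⟨by simp, by simpa using hcon⟩
    | succ n ih =>
      rw [Function.iterate_succ_apply']
      set w := (f c)^[n] z with hw
      obtain ⟨h1, h2⟩ := ih
      have h3 : ‖w‖ ^ 2 - ‖c‖ ≤ ‖f c w‖ := by
        have : ‖w ^ 2‖ ≤ ‖w ^ 2 + c‖ + ‖c‖ := by
          have := norm_sub_le (w ^ 2 + c) c
          simpa using this
        rw [norm_pow] at this
        show ‖w‖ ^ 2 - ‖c‖ ≤ ‖w ^ 2 + c‖
        linarith
      have hw0 := norm_nonneg w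
      have h4 : 2 < ‖w‖ := by nlinarith
      have h5 : 3 / 2 * ‖w‖ ≤ ‖f c w‖ := by nlinarith
      refine ⟨?_, ?_⟩
      · rw [pow_succ]; nlinarith
      · nlinarith
  have hz : 0 < ‖z‖ := by
    rcases (norm_nonneg z).eq_or_lt with h0 | h0
    · rw [← h0] at hcon
      nlinarith
    · exact h0
  obtain ⟨n, hn⟩ := pow_unbounded_of_one_lt (R / ‖z‖) (by norm_num : (1 : ℝ) < 3 / 2)
  rw [div_lt_iff₀ hz] at hn
  linarith [(key n).1, hR n]

theorem gcc (c : ℂ) : Real.log ‖c‖ ≤ G c c + Real.log 4 := by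
  rcases le_or_gt ‖c‖ 4 with h | h
  · have h1 := gnn c c
    rcases (norm_nonneg c).eq_or_lt with h0 | h0
    · rw [← h0, Real.log_zero]
      have := Real.log_nonneg (by norm_num : (1 : ℝ) ≤ 4)
      linarith
    · have := Real.log_le_log h0 h
      linarith
  · -- growth
    have key : ∀ n : ℕ, 2 * (‖c‖ / 2) ^ (2 ^ n) ≤ ‖(fc 2 c)^[n] c‖ := by
      intro n
      induction n with
      | zero => simp; linarith
      | succ n ih =>
        rw [Function.iterate_succ_apply']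
        set w := (fc 2 c)^[n] c with hw
        have h3 : ‖w‖ ^ 2 - ‖c‖ ≤ ‖fc 2 c w‖ := by
          have : ‖w ^ 2‖ ≤ ‖w ^ 2 + c‖ + ‖c‖ := by
            have := norm_sub_le (w ^ 2 + c) c
            simpa using this
          rw [norm_pow] at this
          show ‖w‖ ^ 2 - ‖c‖ ≤ ‖w ^ 2 + c‖
          linarith
        have hu : 1 ≤ (‖c‖ / 2) ^ (2 ^ n) := one_le_pow₀ (by linarith)
        have hu2 : ‖c‖ / 2 ≤ (‖c‖ / 2) ^ (2 ^ n) := le_self_pow₀ (by linarith) (by positivity)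
        have h4 : (2 * (‖c‖ / 2) ^ (2 ^ n)) ^ 2 ≤ ‖w‖ ^ 2 :=
          pow_le_pow_left₀ (by positivity) ih 2
        rw [pow_succ, pow_mul]
        nlinarith
    have h1 : Real.log (‖c‖ / 2) ≤ G c c := by
      refine ge_of_tendsto' (gap_tendsto (d := 2) le_rfl c c) ?_
      intro n
      unfold gap
      rw [le_div_iff₀ (by positivity)]
      have hu : 0 < (‖c‖ / 2) ^ (2 ^ n) := by positivity
      have h2 : Real.log ((‖c‖ / 2) ^ (2 ^ n)) ≤ Real.log ‖(fc 2 c)^[n] c‖ :=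
        Real.log_le_log hu (by linarith [key n])
      have h3 : Real.log ‖(fc 2 c)^[n] c‖ ≤ Real.posLog ‖(fc 2 c)^[n] c‖ := le_max_right _ _
      rw [Real.log_pow] at h2
      push_cast at h2 ⊢
      linarith
    rw [Real.log_div (by linarith) (by norm_num)] at h1
    have h2 : Real.log 2 ≤ Real.log 4 := Real.log_le_log (by norm_num) (by norm_num)
    linarith

theorem green_G : Green G where
  gcont := gcont
  gnn := gnn
  gf := gf
  gzero := gzero
  gK := gK
  gM := gM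
  glow := glow
  gup := gup
  gcc := gcc

/-! ## The inverse of Boettcher's function -/

section bott

variable {Ψ : ℂ → ℂ → ℂ}

theorem dom {c ξ : ℂ} (h : G c c < 2 * ξ.re) : ‖exp (-ξ)‖ < rho 2 c := by
  rw [g_crit] at h
  rw [norm_exp, neg_re]
  unfold Pool.Agent.Y484.LC.rho
  apply Real.exp_lt_exp.mpr
  have : G c 0 = green 2 c 0 := rfl
  linarith

theorem dom_pos {c ξ : ℂ} (h : G c c < 2 * ξ.re) : 0 < ξ.re := by
  have := gnn c c
  linarith

theorem two_re (ξ : ℂ) : (2 * ξ).re = 2 * ξ.re := by simp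

/-- the functional equation in normalised form -/
theorem q_eq (hΨ : IsPsi 2 Ψ) {c ξ : ℂ} (h : G c c < 2 * ξ.re) :
    (Ψ c (exp (-ξ)) * exp (-ξ)) ^ 2 = Ψ c (exp (-(2 * ξ))) * exp (-(2 * ξ)) - c * exp (-(2 * ξ)) := by
  have h1 := (hΨ.isP c).conj _ (exp_ne_zero (-ξ)) (dom h)
  have h2 : exp (-ξ) ^ 2 = exp (-(2 * ξ)) := by
    rw [← exp_nat_mul]; congr 1; push_cast; ring
  rw [h2] at h1
  have h3 : fc 2 c (Ψ c (exp (-ξ))) = Ψ c (exp (-ξ)) ^ 2 + c := rfl
  rw [h3] at h1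
  rw [mul_pow, h2, ← h1]
  ring

/-- the asymptotics for a fixed parameter -/
theorem q_lim (hΨ : IsPsi 2 Ψ) (c : ℂ) {ε : ℝ} (hε : 0 < ε) :
    ∃ T : ℝ, 0 < T ∧ ∀ ξ : ℂ, T ≤ ξ.re → ‖Ψ c (exp (-ξ)) * exp (-ξ) - 1‖ ≤ ε := by
  have h1 := (Metric.tendsto_nhds.1 (hΨ.isP c).lim) ε hε
  rw [eventually_nhdsWithin_iff, Metric.eventually_nhds_iff_ball] at h1
  obtain ⟨δ, hδ, h1⟩ := h1
  refine ⟨|Real.log δ| + 1, by positivity, ?_⟩
  intro ξ hξ
  have h2 := h1 (exp (-ξ)) (by
    rw [mem_ball_zero_iff, norm_exp, neg_re, ← Real.lt_log_iff_exp_lt hδ]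
    have := neg_abs_le (Real.log δ)
    linarith) (exp_ne_zero _)
  rw [dist_eq_norm, mul_comm] at h2
  exact h2.le

theorem B_contOn (hΨ : IsPsi 2 Ψ) : ContinuousOn (fun p : ℂ × ℂ => Ψ p.1 (exp (-p.2)))
    {p : ℂ × ℂ | G p.1 p.1 < 2 * p.2.re} := by
  intro q hq
  have hq' : G q.1 q.1 < 2 * q.2.re := hq
  apply ContinuousAt.continuousWithinAt
  have h1 : ContinuousAt (fun q : ℂ × ℂ => (q.1, exp (-q.2))) q := by fun_prop
  exact ContinuousAt.comp (g := fun p : ℂ × ℂ => Ψ p.1 p.2)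
    (f := fun q : ℂ × ℂ => (q.1, exp (-q.2)))
    (hΨ.cont _ _ (exp_ne_zero _) (dom hq')) h1

theorem B_diff (hΨ : IsPsi 2 Ψ) {c ξ : ℂ} (h : G c c < 2 * ξ.re) :
    DifferentiableAt ℂ (fun ξ => Ψ c (exp (-ξ))) ξ :=
  DifferentiableAt.comp ξ (g := Ψ c) (f := fun ξ : ℂ => exp (-ξ))
    (hΨ.diff c _ (exp_ne_zero _) (dom h)) (by fun_prop)

/-- the uniform asymptotics -/
theorem q_unif (hΨ : IsPsi 2 Ψ) {c : ℂ} {ε T : ℝ} (hε1 : ε ≤ 1 / 4) (hε0 : 0 < ε)
    (hT : ∀ ξ : ℂ, T ≤ ξ.re → ‖Ψ c (exp (-ξ)) * exp (-ξ) - 1‖ ≤ ε) (m : ℕ) :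
    ∀ ξ : ℂ, 1 ≤ ξ.re → G c c < 2 * ξ.re → 8 * ‖c‖ ≤ Real.exp (2 * ξ.re) → T ≤ 2 ^ m * ξ.re →
      ‖Ψ c (exp (-ξ)) * exp (-ξ) - 1‖ ≤ ε + 2 * ‖c‖ * Real.exp (-(2 * ξ.re)) := by
  induction m with
  | zero =>
    intro ξ _ _ _ h4
    have h5 := hT ξ (by simpa using h4)
    have : 0 ≤ 2 * ‖c‖ * Real.exp (-(2 * ξ.re)) := by positivity
    linarith
  | succ m ih =>
    -- the square is close to one
    have hsq : ∀ ξ : ℂ, 1 ≤ ξ.re → G c c < 2 * ξ.re → 8 * ‖c‖ ≤ Real.exp (2 * ξ.re) →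
        T ≤ 2 ^ (m + 1) * ξ.re → ‖(Ψ c (exp (-ξ)) * exp (-ξ)) ^ 2 - 1‖ ≤
          ε + 2 * ‖c‖ * Real.exp (-(2 * ξ.re)) ∧ 2 * ‖c‖ * Real.exp (-(2 * ξ.re)) ≤ 1 / 4 := by
      intro ξ h1 h2 h3 h4
      have hE : Real.exp (2 * ξ.re) * Real.exp (-(2 * ξ.re)) = 1 := by
        rw [← Real.exp_add]; simp
      have hEp := Real.exp_pos (-(2 * ξ.re))
      have hc := norm_nonneg c
      have h5 : 2 * ‖c‖ * Real.exp (-(2 * ξ.re)) ≤ 1 / 4 := by
        have : 8 * ‖c‖ * Real.exp (-(2 * ξ.re)) ≤ Real.exp (2 * ξ.re) * Real.exp (-(2 * ξ.re)) :=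
          mul_le_mul_of_nonneg_right h3 hEp.le
        rw [hE] at this
        linarith
      refine ⟨?_, h5⟩
      have h6 := ih (2 * ξ) (by rw [two_re]; linarith) (by rw [two_re]; linarith)
        (by
          rw [two_re]
          refine h3.trans (Real.exp_le_exp.2 (by linarith))) (by
          rw [two_re]
          calc T ≤ 2 ^ (m + 1) * ξ.re := h4
            _ = 2 ^ m * (2 * ξ.re) := by ring)
      rw [two_re] at h6
      rw [q_eq hΨ h2]
      have h7 : Ψ c (exp (-(2 * ξ))) * exp (-(2 * ξ)) - c * exp (-(2 * ξ)) - 1 =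
          (Ψ c (exp (-(2 * ξ))) * exp (-(2 * ξ)) - 1) - c * exp (-(2 * ξ)) := by ring
      rw [h7]
      have h8 : ‖c * exp (-(2 * ξ))‖ = ‖c‖ * Real.exp (-(2 * ξ.re)) := by
        rw [norm_mul, norm_exp, neg_re, two_re]
      have h9 := norm_sub_le (Ψ c (exp (-(2 * ξ))) * exp (-(2 * ξ)) - 1) (c * exp (-(2 * ξ)))
      rw [h8] at h9
      -- `2 |c| e^{-4 Re ξ} + |c| e^{-2 Re ξ} ≤ 2 |c| e^{-2 Re ξ}`
      have h10 : Real.exp (-(2 * (2 * ξ.re))) = Real.exp (-(2 * ξ.re)) * Real.exp (-(2 * ξ.re)) := by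
        rw [← Real.exp_add]; congr 1; ring
      have h11 : Real.exp (-(2 * ξ.re)) ≤ 1 / 2 := by
        have h12 : (2 : ℝ) ≤ Real.exp (2 * ξ.re) := by
          have := Real.add_one_le_exp (2 * ξ.re)
          linarith
        by_contra hcon
        push Not at hcon
        nlinarith
      rw [h10] at h6
      have h13 : 2 * ‖c‖ * (Real.exp (-(2 * ξ.re)) * Real.exp (-(2 * ξ.re))) ≤
          ‖c‖ * Real.exp (-(2 * ξ.re)) := by
        have : 0 ≤ ‖c‖ * Real.exp (-(2 * ξ.re)) := by positivity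
        nlinarith
      linarith
    intro ξ h1 h2 h3 h4
    -- the real part is positive
    have hre : 0 < (Ψ c (exp (-ξ)) * exp (-ξ)).re := by
      by_contra hcon
      push Not at hcon
      -- the path
      have hu1 : ∀ u : ℝ, (ξ + u).re = ξ.re + u := by intro u; simp
      have hcont : ContinuousOn (fun u : ℝ => (Ψ c (exp (-(ξ + u))) * exp (-(ξ + u))).re)
          (Ici 0) := by
        intro u hu
        have hu0 : (0 : ℝ) ≤ u := hu
        have h5 : DifferentiableAt ℂ (fun ξ => Ψ c (exp (-ξ))) (ξ + u) :=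
          B_diff hΨ (by rw [hu1]; linarith)
        have h6 : ContinuousAt (fun ξ : ℂ => (Ψ c (exp (-ξ)) * exp (-ξ)).re) (ξ + u) := by
          have h7 := h5.continuousAt
          exact continuous_re.continuousAt.comp (h7.mul (by fun_prop))
        have h8 : ContinuousAt (fun u : ℝ => ξ + (u : ℂ)) u := by fun_prop
        exact (ContinuousAt.comp (f := fun u : ℝ => ξ + (u : ℂ)) h6 h8).continuousWithinAt
      have hend : 0 ≤ (Ψ c (exp (-(ξ + (|T| : ℝ)))) * exp (-(ξ + (|T| : ℝ)))).re := by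
        have h5 := hT (ξ + (|T| : ℝ)) (by rw [hu1]; have := le_abs_self T; linarith)
        have h6 := (abs_re_le_norm (Ψ c (exp (-(ξ + (|T| : ℝ)))) * exp (-(ξ + (|T| : ℝ))) - 1)).trans h5
        rw [sub_re, one_re] at h6
        linarith [(abs_le.1 h6).1]
      have hst : (Ψ c (exp (-(ξ + (0 : ℝ)))) * exp (-(ξ + (0 : ℝ)))).re ≤ 0 := by
        simpa using hcon
      obtain ⟨u, hu, hu2⟩ := isPreconnected_Ici.intermediate_value (mem_Ici.2 (le_refl (0 : ℝ)))
        (mem_Ici.2 (abs_nonneg T)) hcont ⟨hst, hend⟩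
      have hu0 : (0 : ℝ) ≤ u := hu
      simp only at hu2
      obtain ⟨h5, h6⟩ := hsq (ξ + u) (by rw [hu1]; linarith) (by rw [hu1]; linarith)
        (h3.trans (Real.exp_le_exp.2 (by rw [hu1]; linarith)))
        (h4.trans (by rw [hu1]; nlinarith [pow_pos (show (0:ℝ) < 2 by norm_num) (m + 1)]))
      have h7 := (abs_re_le_norm _).trans h5
      set y := Ψ c (exp (-(ξ + u))) * exp (-(ξ + u)) with hy
      have h8 : (y ^ 2 - 1).re = -y.im ^ 2 - 1 := by
        rw [sub_re, one_re, sq, mul_re, hu2]; ring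
      rw [h8] at h7
      have h9 := (abs_le.1 h7).1
      nlinarith [sq_nonneg y.im]
    obtain ⟨h5, h6⟩ := hsq ξ h1 h2 h3 h4
    set y := Ψ c (exp (-ξ)) * exp (-ξ) with hy
    have h7 : 1 ≤ ‖y + 1‖ := by
      have := re_le_norm (y + 1)
      rw [add_re, one_re] at this
      linarith
    have h8 : ‖y ^ 2 - 1‖ = ‖y - 1‖ * ‖y + 1‖ := by
      rw [← norm_mul]; congr 1; ring
    rw [h8] at h5
    have h9 := norm_nonneg (y - 1)
    nlinarith

theorem dom_of {c ξ : ℂ} (h1 : 1 ≤ ξ.re) (h2 : 8 * ‖c‖ ≤ Real.exp (2 * ξ.re)) :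
    G c c < 2 * ξ.re := by
  refine lt_of_le_of_lt (gup c c) ?_
  have hc := norm_nonneg c
  rw [Real.log_lt_iff_lt_exp (by positivity)]
  have : (2 : ℝ) < Real.exp (2 * ξ.re) := by
    have := Real.add_one_le_exp (2 * ξ.re)
    linarith
  linarith

theorem bott_B (hΨ : IsPsi 2 Ψ) : Bott G (fun c ξ => Ψ c (exp (-ξ))) where
  bcont := B_contOn hΨ
  bdiff := fun c ξ h => B_diff hΨ h
  bparm := fun c ξ h => Pool.Agent.Y427.LC.psi_par (d := 2) le_rfl hΨ (exp_ne_zero _) (dom h)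
  bG := by
    intro c ξ h
    have := green_psi (d := 2) le_rfl hΨ (exp_ne_zero (-ξ)) (dom h)
    rw [norm_exp, Real.log_exp, neg_re, neg_neg] at this
    exact this
  bf := by
    intro c ξ h
    have h1 := (hΨ.isP c).conj _ (exp_ne_zero (-ξ)) (dom h)
    have h2 : exp (-ξ) ^ 2 = exp (-(2 * ξ)) := by
      rw [← exp_nat_mul]; congr 1; push_cast; ring
    rw [h2] at h1
    exact h1
  bper := by
    intro c ξ _
    show Ψ c (exp (-(ξ + tpi))) = Ψ c (exp (-ξ))
    congr 1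
    rw [neg_add, exp_add]
    have : exp (-tpi) = 1 := by
      rw [exp_neg, tpi, exp_two_pi_mul_I, inv_one]
    rw [this, mul_one]
  binj := by
    intro c ξ ξ' h h' he
    have h1 := inj_psi (d := 2) le_rfl hΨ (exp_ne_zero (-ξ)) (exp_ne_zero (-ξ')) (dom h) (dom h') he
    rw [exp_eq_exp_iff_exists_int] at h1
    obtain ⟨n, hn⟩ := h1
    refine ⟨n, ?_⟩
    rw [tpi]
    linear_combination hn
  bsurj := by
    intro c z hz
    rw [g_crit] at hz
    obtain ⟨x, hx0, hxr, hx⟩ := surj_psi (d := 2) le_rfl hΨ (c := c) (z := z) (by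
      have h1 : green 2 c 0 = G c 0 := rfl
      have h2 : green 2 c z = G c z := rfl
      rw [h1, h2]; linarith)
    refine ⟨-log x, ?_, ?_⟩
    · rw [neg_re, log_re, ← hx]
      exact (green_psi (d := 2) le_rfl hΨ hx0 hxr).symm
    · show Ψ c (exp (- -log x)) = z
      rw [neg_neg, exp_log hx0, hx]
  basym := by
    refine ⟨8, by norm_num, ?_⟩
    intro c ξ h1 h2
    have hd := dom_of h1 h2
    refine ⟨hd, ?_⟩
    show ‖Ψ c (exp (-ξ)) * exp (-ξ) - 1‖ ≤ _
    have h3 : ‖Ψ c (exp (-ξ)) * exp (-ξ) - 1‖ ≤ 2 * ‖c‖ * Real.exp (-(2 * ξ.re)) := by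
      apply le_of_forall_pos_le_add
      intro ε hε
      obtain ⟨T, hT0, hT⟩ := q_lim hΨ c (show 0 < min ε (1 / 4) from lt_min hε (by norm_num))
      obtain ⟨m, hm⟩ := pow_unbounded_of_one_lt T (by norm_num : (1 : ℝ) < 2)
      have h4 := q_unif hΨ (min_le_right ε (1 / 4)) (lt_min hε (by norm_num)) hT m ξ h1 hd h2 (by
        nlinarith [pow_pos (show (0:ℝ) < 2 by norm_num) m])
      have := min_le_left ε (1 / 4 : ℝ)
      linarith
    have h5 : 0 ≤ ‖c‖ * Real.exp (-(2 * ξ.re)) := by positivity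
    linarith

end bott

/-! ## The parameters outside of the Mandelbrot set -/

section para

variable {Ψ : ℂ → ℂ → ℂ} {β : ℂ → ℂ}

/-- the parameter with the external coordinate `exp w` -/
noncomputable def cc (β : ℂ → ℂ) (w : ℂ) : ℂ := (exp (-w))⁻¹ * β (exp (-w))

theorem norm_lt {w : ℂ} (hw : w ∈ HP) : ‖exp (-w)‖ < 1 := by
  rw [norm_exp, neg_re, Real.exp_lt_one_iff]
  have : 0 < w.re := hw
  linarith

theorem cc_diff (hβ : IsBeta 2 β) : DifferentiableOn ℂ (cc β) HP := by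
  intro w hw
  apply DifferentiableAt.differentiableWithinAt
  unfold cc
  have h1 : DifferentiableAt ℂ β (exp (-w)) :=
    hβ.diff.differentiableAt (isOpen_ball.mem_nhds (mem_ball_zero_iff.2 (norm_lt hw)))
  have h2 : DifferentiableAt ℂ (fun w : ℂ => exp (-w)) w := by fun_prop
  exact (h2.inv (exp_ne_zero _)).mul (h1.comp w h2)

theorem cc_G (hβ : IsBeta 2 β) {w : ℂ} (hw : w ∈ HP) : G (cc β w) (cc β w) = w.re := by
  have := green_cc (d := 2) le_rfl hβ (exp_ne_zero (-w)) (norm_lt hw)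
  rw [norm_exp, Real.log_exp, neg_re, neg_neg] at this
  exact this

theorem cc_surj (hβ : IsBeta 2 β) {c : ℂ} (hc : c ∉ MM) : ∃ w ∈ HP, cc β w = c := by
  obtain ⟨x, hx, hx0, hxc⟩ := hβ.surj c hc
  refine ⟨-log x, ?_, ?_⟩
  · show 0 < (-log x).re
    rw [neg_re, log_re]
    have := Real.log_neg (norm_pos_iff.2 hx0) (mem_ball_zero_iff.1 hx)
    linarith
  · unfold cc
    rw [neg_neg, exp_log hx0, hxc]

theorem conn_aux (hβ : IsBeta 2 β) {U V : Set ℂ} (hU : IsOpen U) (hV : IsOpen V)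
    (hUV : Disjoint U V) {s : ℝ} (hs : 0 < s) (hK : {c : ℂ | G c c ≤ s} ⊆ U ∪ V)
    (hL : ∀ w : ℂ, w.re = s → cc β w ∈ U) {x y : ℂ} (hxU : x ∈ U) (hy : y ∈ MM)
    (hyV : y ∈ V) : False := by
  have hGc : Continuous (fun c : ℂ => G c c) := gdiag
  have h1 : {c : ℂ | G c c ≤ s} ∩ V = {c : ℂ | G c c ≤ s} \ U := by
    ext c
    constructor
    · rintro ⟨h1, h2⟩
      exact ⟨h1, fun h3 => Set.disjoint_left.1 hUV h3 h2⟩
    · rintro ⟨h1, h2⟩
      rcases hK h1 with h | h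
      · exact absurd h h2
      · exact ⟨h1, h⟩
  have h2 : {c : ℂ | G c c ≤ s} ∩ V = {c : ℂ | G c c < s} ∩ V := by
    ext c
    constructor
    · rintro ⟨h1, h2⟩
      refine ⟨?_, h2⟩
      have h1' : G c c ≤ s := h1
      rcases h1'.eq_or_lt with h | h
      · exfalso
        have hc : c ∉ MM := by
          intro hc
          rw [(gM c).2 hc] at h
          linarith
        obtain ⟨w, hw, hwc⟩ := cc_surj hβ hc
        have h3 : w.re = s := by rw [← cc_G hβ hw, hwc, h]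
        have h4 := hL w h3
        rw [hwc] at h4
        exact Set.disjoint_left.1 hUV h4 h2
      · exact h
    · rintro ⟨h1, h2⟩
      have h1' : G c c < s := h1
      exact ⟨h1'.le, h2⟩
  have hclosed : IsClosed ({c : ℂ | G c c ≤ s} ∩ V) := by
    rw [h1]
    exact (isClosed_le hGc continuous_const).sdiff hU
  have hopen : IsOpen ({c : ℂ | G c c ≤ s} ∩ V) := by
    rw [h2]
    exact (isOpen_lt hGc continuous_const).inter hV
  rcases isClopen_iff.1 ⟨hclosed, hopen⟩ with h | h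
  · have : y ∈ {c : ℂ | G c c ≤ s} ∩ V := by
      refine ⟨?_, hyV⟩
      show G y y ≤ s
      rw [(gM y).2 hy]; exact hs.le
    rw [h] at this
    exact this
  · have : x ∈ {c : ℂ | G c c ≤ s} ∩ V := by rw [h]; trivial
    exact Set.disjoint_left.1 hUV hxU this.2

/-- the Mandelbrot set is connected -/
theorem connected_MM (hβ : IsBeta 2 β) : IsConnected MM := by
  have hGc : Continuous (fun c : ℂ => G c c) := gdiag
  have hbd : ∀ s : ℝ, IsCompact {c : ℂ | G c c ≤ s} := by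
    intro s
    apply Metric.isCompact_of_isClosed_isBounded
    · exact isClosed_le hGc continuous_const
    · rw [isBounded_iff_forall_norm_le]
      refine ⟨4 * Real.exp s, ?_⟩
      intro c hc
      have hc' : G c c ≤ s := hc
      rcases (norm_nonneg c).eq_or_lt with h0 | h0
      · rw [← h0]; positivity
      · have h1 := gcc c
        have h2 : Real.log ‖c‖ ≤ Real.log (4 * Real.exp s) := by
          rw [Real.log_mul (by norm_num) (Real.exp_pos s).ne', Real.log_exp]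
          linarith
        exact (Real.log_le_log_iff h0 (by positivity)).1 h2
  have hMM : MM = {c : ℂ | G c c ≤ 0} := by
    ext c
    rw [← gM]
    exact ⟨fun h => h.le, fun h => le_antisymm h (gnn c c)⟩
  refine ⟨⟨0, ?_⟩, ?_⟩
  · rw [← gM, gzero]
    refine ⟨0, fun k => ?_⟩
    have h0 : f 0 0 = 0 := by simp [f]
    rw [Function.iterate_fixed h0]
    simp
  · have hcptM : IsCompact MM := by rw [hMM]; exact hbd 0
    rw [isPreconnected_closed_iff]
    intro A B hA hB hsub hAne hBne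
    by_contra hcon
    rw [not_nonempty_iff_eq_empty] at hcon
    have hAc : IsCompact (MM ∩ A) := hcptM.inter_right hA
    have hBc : IsCompact (MM ∩ B) := hcptM.inter_right hB
    have hdis : Disjoint (MM ∩ A) (MM ∩ B) := by
      rw [Set.disjoint_left]
      rintro x ⟨hx1, hx2⟩ ⟨_, hx3⟩
      have : x ∈ MM ∩ (A ∩ B) := ⟨hx1, hx2, hx3⟩
      rw [hcon] at this
      exact this
    obtain ⟨U, V, hU, hV, hAU, hBV, hUV⟩ :=
      SeparatedNhds.of_isCompact_isCompact_isClosed hAc hBc hBc.isClosed hdis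
    have hMUV : MM ⊆ U ∪ V := by
      intro x hx
      rcases hsub hx with h | h
      · exact Or.inl (hAU ⟨hx, h⟩)
      · exact Or.inr (hBV ⟨hx, h⟩)
    -- a level
    obtain ⟨s, hs, hKs⟩ : ∃ s : ℝ, 0 < s ∧ {c : ℂ | G c c ≤ s} ⊆ U ∪ V := by
      have hcpt : IsCompact ({c : ℂ | G c c ≤ 1} \ (U ∪ V)) := (hbd 1).diff (hU.union hV)
      rcases ({c : ℂ | G c c ≤ 1} \ (U ∪ V)).eq_empty_or_nonempty with h | h
      · exact ⟨1, one_pos, sdiff_eq_empty.1 h⟩
      · obtain ⟨x, hx, hmin⟩ := hcpt.exists_isMinOn h hGc.continuousOn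
        have hx0 : 0 < G x x := by
          rcases (gnn x x).eq_or_lt with h0 | h0
          · exact absurd (hMUV ((gM x).1 h0.symm)) hx.2
          · exact h0
        refine ⟨min 1 (G x x / 2), lt_min one_pos (by linarith), ?_⟩
        intro c hc
        by_contra hcn
        have hc' : G c c ≤ min 1 (G x x / 2) := hc
        have h1 : G x x ≤ G c c := hmin ⟨hc'.trans (min_le_left _ _), hcn⟩
        have h2 := hc'.trans (min_le_right _ _)
        linarith
    -- the level curve is connected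
    have hLpre : IsPreconnected (cc β '' {w : ℂ | w.re = s}) := by
      apply IsPreconnected.image
      · have : Convex ℝ {w : ℂ | w.re = s} := by
          intro x hx y hy a b _ _ hab
          have hx' : x.re = s := hx
          have hy' : y.re = s := hy
          show (a • x + b • y).re = s
          have hre : (a • x + b • y).re = a * x.re + b * y.re := by simp
          rw [hre, hx', hy', ← add_mul, hab, one_mul]
        exact this.isPreconnected
      · apply (cc_diff hβ).continuousOn.mono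
        intro w hw
        have hw' : w.re = s := hw
        show 0 < w.re
        rw [hw']; exact hs
    have hLsub : cc β '' {w : ℂ | w.re = s} ⊆ U ∪ V := by
      rintro _ ⟨w, hw, rfl⟩
      have hw' : w.re = s := hw
      apply hKs
      show G (cc β w) (cc β w) ≤ s
      rw [cc_G hβ (by show 0 < w.re; rw [hw']; exact hs), hw']
    obtain ⟨x, hxM, hxA⟩ := hAne
    obtain ⟨y, hyM, hyB⟩ := hBne
    have hxU := hAU ⟨hxM, hxA⟩
    have hyV := hBV ⟨hyM, hyB⟩
    rcases hLpre.subset_or_subset hU hV hUV hLsub with h | h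
    · exact conn_aux hβ hU hV hUV hs hKs (fun w hw => h ⟨w, hw, rfl⟩) hxU hyM hyV
    · exact conn_aux hβ hV hU hUV.symm hs (by rw [union_comm]; exact hKs)
        (fun w hw => h ⟨w, hw, rfl⟩) hyV hxM hxU

theorem para_cc (hΨ : IsPsi 2 Ψ) (hβ : IsBeta 2 β) :
    Para G (fun c ξ => Ψ c (exp (-ξ))) (cc β) where
  pdiff := cc_diff hβ
  pper := by
    intro w _
    have : exp (-(w + tpi)) = exp (-w) := by
      rw [neg_add, exp_add]
      have : exp (-tpi) = 1 := by
        rw [exp_neg, tpi, exp_two_pi_mul_I, inv_one]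
      rw [this, mul_one]
    unfold cc
    rw [this]
  pG := fun w hw => cc_G hβ hw
  pB := fun w hw => par_psi (d := 2) le_rfl hΨ hβ (exp_ne_zero (-w)) (norm_lt hw)
  psurj := fun c hc => cc_surj hβ hc
  conn := connected_MM hβ

/-- **Modules 1, 2, 3**: the basic objects exist -/
theorem base : S_BASE := by
  obtain ⟨Ψ, hΨ⟩ := exists_psi (d := 2) le_rfl
  obtain ⟨β, hβ⟩ := exists_beta (d := 2) le_rfl
  exact ⟨G, fun c ξ => Ψ c (exp (-ξ)), cc β,
    { toGreen := green_G, toBott := bott_B hΨ, toPara := para_cc hΨ hβ }⟩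

end para

end Pool.Agent.KS6_23.ML.BASE
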