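import Pool.Agent.KS6_23.ML.Stm2

/-!
# Project ML: the circle maps of the codes (tools for the modules ROT and GEN)
-/

set_option autoImplicit false

open Set Filter Metric Topology

namespace Pool.Agent.KS6_23.ML.Circ

/-- the lift of the map which doubles the angles of a half circle and is constant on the other
half circle -/
noncomputable def Gf (u : ℝ) : ℝ := ⌊u⌋ + min (2 * Int.fract u) 1

theorem Gf_add_one (u : ℝ) : Gf (u + 1) = Gf u + 1 := by
  simp only [Gf, Int.floor_add_one, Int.fract_add_one]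
  push_cast
  ring

theorem Gf_le {u v : ℝ} (h : u ≤ v) : Gf u ≤ Gf v ∧ Gf v - Gf u ≤ 2 * (v - u) := by
  have hu := Int.floor_add_fract u
  have hv := Int.floor_add_fract v
  have hu0 := Int.fract_nonneg u
  have hv0 := Int.fract_nonneg v
  have hu1 := Int.fract_lt_one u
  have hv1 := Int.fract_lt_one v
  have hle : ⌊u⌋ ≤ ⌊v⌋ := Int.floor_le_floor h
  unfold Gf
  rcases hle.eq_or_lt with h1 | h1
  · have h2 : (⌊u⌋ : ℝ) = ⌊v⌋ := by exact_mod_cast h1
    rw [h2] at hu ⊢
    constructor
    · have : min (2 * Int.fract u) 1 ≤ min (2 * Int.fract v) 1 := min_le_min_right 1 (by linarith)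
      linarith
    · rcases le_total (2 * Int.fract u) 1 with h3 | h3 <;>
      rcases le_total (2 * Int.fract v) 1 with h4 | h4 <;> simp only [min_eq_left h3, min_eq_right h3,
        min_eq_left h4, min_eq_right h4] <;> linarith
  · have h2 : (⌊u⌋ : ℝ) + 1 ≤ ⌊v⌋ := by exact_mod_cast h1
    constructor
    · have h3 : min (2 * Int.fract u) 1 ≤ 1 := min_le_right _ _
      have h4 : 0 ≤ min (2 * Int.fract v) 1 := le_min (by linarith) zero_le_one
      linarith
    · rcases le_total (2 * Int.fract u) 1 with h3 | h3 <;>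
      rcases le_total (2 * Int.fract v) 1 with h4 | h4 <;> simp only [min_eq_left h3, min_eq_right h3,
        min_eq_left h4, min_eq_right h4] <;> linarith

theorem Gf_mono : Monotone Gf := fun _ _ h => (Gf_le h).1

theorem Gf_cont : Continuous Gf := by
  have : LipschitzWith 2 Gf := by
    refine LipschitzWith.of_dist_le_mul fun u v => ?_
    rw [Real.dist_eq, Real.dist_eq]
    rcases le_total u v with h | h
    · have := Gf_le h
      rw [abs_sub_comm, abs_of_nonneg (by linarith [this.1]), abs_sub_comm, abs_of_nonneg (by linarith)]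
      exact_mod_cast this.2
    · have := Gf_le h
      rw [abs_of_nonneg (by linarith [this.1]), abs_of_nonneg (by linarith)]
      exact_mod_cast this.2
  exact this.continuous

theorem Gf_left {u : ℝ} (h0 : 0 ≤ u) (h1 : u ≤ 1 / 2) : Gf u = 2 * u := by
  have h2 : ⌊u⌋ = 0 := Int.floor_eq_zero_iff.2 ⟨h0, by linarith⟩
  have h3 : Int.fract u = u := Int.fract_eq_self.2 ⟨h0, by linarith⟩
  rw [Gf, h2, h3, min_eq_left (by linarith)]
  simp

theorem Gf_right {u : ℝ} (h0 : 1 / 2 ≤ u) (h1 : u ≤ 1) : Gf u = 1 := by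
  rcases h1.eq_or_lt with h | h
  · rw [h, Gf]
    simp
  · have h2 : ⌊u⌋ = 0 := Int.floor_eq_zero_iff.2 ⟨by linarith, h⟩
    have h3 : Int.fract u = u := Int.fract_eq_self.2 ⟨by linarith, h⟩
    rw [Gf, h2, h3, min_eq_right (by linarith)]
    simp

/-- the circle map of a bit -/
noncomputable def FL (e : Bool) (η : ℝ) : CircleDeg1Lift where
  toFun x := η + bt e + Gf (x - η / 2 - bt e / 2)
  monotone' x y h := by
    have := Gf_mono (show x - η / 2 - bt e / 2 ≤ y - η / 2 - bt e / 2 by linarith)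
    dsimp only
    linarith
  map_add_one' x := by
    have h : x + 1 - η / 2 - bt e / 2 = x - η / 2 - bt e / 2 + 1 := by ring
    simp only [h, Gf_add_one]
    ring

theorem FL_apply (e : Bool) (η x : ℝ) : FL e η x = η + bt e + Gf (x - η / 2 - bt e / 2) := rfl

/-- on the side `e` the map is the doubling map -/
theorem FL_side {e : Bool} {η x : ℝ} (h0 : η / 2 + bt e / 2 ≤ x)
    (h1 : x ≤ η / 2 + bt e / 2 + 1 / 2) : FL e η x = 2 * x := by
  rw [FL_apply, Gf_left (by linarith) (by linarith)]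
  ring

/-- on the other side it is constant -/
theorem FL_flat {e : Bool} {η x : ℝ} (h0 : η / 2 + bt e / 2 + 1 / 2 ≤ x)
    (h1 : x ≤ η / 2 + bt e / 2 + 1) : FL e η x = η + bt e + 1 := by
  rw [FL_apply, Gf_right (by linarith) (by linarith)]

theorem FL_shift (e : Bool) (η x : ℝ) : FL e (η + 2) x = FL e η x + 1 := by
  rw [FL_apply, FL_apply]
  have h : x - η / 2 - bt e / 2 = x - (η + 2) / 2 - bt e / 2 + 1 := by ring
  rw [h, Gf_add_one]
  ring

/-- the compositions of the circle maps of a code -/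
noncomputable def Ph (e : ℕ → Bool) (η : ℝ) : ℕ → CircleDeg1Lift
  | 0 => 1
  | k + 1 => FL (e k) η * Ph e η k

theorem Ph_zero (e : ℕ → Bool) (η : ℝ) : Ph e η 0 = 1 := rfl

theorem Ph_succ (e : ℕ → Bool) (η : ℝ) (k : ℕ) : Ph e η (k + 1) = FL (e k) η * Ph e η k := rfl

theorem Ph_succ_apply (e : ℕ → Bool) (η : ℝ) (k : ℕ) (x : ℝ) :
    Ph e η (k + 1) x = FL (e k) η (Ph e η k x) := rfl

theorem Ph_cont (e : ℕ → Bool) (k : ℕ) : Continuous fun p : ℝ × ℝ => Ph e p.1 k p.2 := by
  induction k with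
  | zero => exact continuous_snd
  | succ k ih =>
    simp only [Ph_succ_apply, FL_apply]
    exact (continuous_fst.add continuous_const).add
      (Gf_cont.comp ((ih.sub (continuous_fst.div_const 2)).sub continuous_const))

theorem Ph_add (e : ℕ → Bool) (η : ℝ) (k m : ℕ) :
    Ph e η (k + m) = Ph (sh k e) η m * Ph e η k := by
  induction m with
  | zero => rfl
  | succ m ih =>
    rw [← add_assoc, Ph_succ, Ph_succ, ih, mul_assoc]
    simp only [sh]
    rw [add_comm k m]

theorem sh_mul {n : ℕ} {e : ℕ → Bool} (h : Per n e) (j : ℕ) : sh (n * j) e = e := by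
  induction j with
  | zero => rfl
  | succ j ih =>
    funext k
    have := congrFun ih k
    simp only [sh] at this ⊢
    rw [Nat.mul_succ, ← add_assoc, h, this]

theorem Ph_mul {n : ℕ} {e : ℕ → Bool} (h : Per n e) (η : ℝ) (j : ℕ) :
    Ph e η (n * j) = (Ph e η n) ^ j := by
  induction j with
  | zero => rfl
  | succ j ih => rw [Nat.mul_succ, Ph_add, sh_mul h, ih, pow_succ']

theorem Ph_shift (e : ℕ → Bool) (η : ℝ) (k : ℕ) (x : ℝ) : Ph e (η + 2) k x = Ph e η k x + k := by
  induction k with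
  | zero => simp [Ph_zero]
  | succ k ih =>
    rw [Ph_succ_apply, Ph_succ_apply, ih, FL_shift, CircleDeg1Lift.map_add_nat]
    push_cast
    ring

theorem Ph_angle {η : ℝ} {e : ℕ → Bool} {θ : ℕ → ℝ} {a : ℕ → ℤ}
    (hs : ∀ k, 2 * θ k = θ (k + 1) + a k) (h : Side η e θ) (k : ℕ) :
    Ph e η k (θ 0) = θ k + (∑ i ∈ Finset.range k, a i : ℤ) := by
  induction k with
  | zero => simp [Ph_zero]
  | succ k ih =>
    rw [Ph_succ_apply, ih, CircleDeg1Lift.map_add_int, FL_side (h k).1.le (h k).2.le, hs,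
      Finset.sum_range_succ]
    push_cast
    ring

end Pool.Agent.KS6_23.ML.Circ
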