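import Pool.Agent.KS6_23.ML.EH
import Pool.Agent.KS6_23.ML.XTools

set_option autoImplicit false

/-! # Project ML, module 5, part A: the periodic points of `f (cc w)` with a given code -/

open Complex Set Filter Metric Topology

namespace Pool.Agent.KS6_23.ML.CODE

open Pool.Agent.KS6_23.ML Pool.Agent.KS6_23.ML.Basic Pool.Agent.KS6_23.ML.XTools

/-- a continuous function with a differentiable exponential -/
theorem diff_of_exp {g h : ℂ → ℂ} {z : ℂ} (hg : ContinuousAt g z)
    (he : ∀ᶠ u in 𝓝 z, exp (g u) = h u) (hh : DifferentiableAt ℂ h z) :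
    DifferentiableAt ℂ g z := by
  have h1 : ∀ᶠ u in 𝓝 z, g u ∈ ball (g z) 1 := hg.eventually (ball_mem_nhds _ one_pos)
  have h2 : g =ᶠ[𝓝 z] fun u => g z + log (h u * exp (-g z)) := by
    filter_upwards [h1, he] with u hu1 hu2
    rw [← hu2, ← exp_add, log_exp]
    · ring
    · rw [mem_ball, dist_eq_norm] at hu1
      have := abs_im_le_norm (g u - g z)
      have h3 := Real.pi_gt_three
      rw [sub_im] at this
      rw [add_im, neg_im]
      have := (abs_le.1 (this.trans hu1.le)).1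
      linarith
    · rw [mem_ball, dist_eq_norm] at hu1
      have := abs_im_le_norm (g u - g z)
      have h3 := Real.pi_gt_three
      rw [sub_im] at this
      rw [add_im, neg_im]
      have := (abs_le.1 (this.trans hu1.le)).2
      linarith
  refine DifferentiableAt.congr_of_eventuallyEq ?_ h2
  refine (DifferentiableAt.clog (hh.mul_const _) ?_).const_add _
  have h3 : exp (g z) = h z := he.self_of_nhds
  rw [← h3, ← exp_add, add_neg_cancel, exp_zero]
  exact one_mem_slitPlane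

section

variable {G : ℂ → ℂ → ℝ} {B : ℂ → ℂ → ℂ} {cc : ℂ → ℂ} {lam : ℂ → ℂ → ℂ}

/-- the sublevel set of the critical value -/
def VV (G : ℂ → ℂ → ℝ) (cc : ℂ → ℂ) (w : ℂ) : Set ℂ := {z | G (cc w) z < w.re}

/-- the smaller sublevel set -/
def LL0 (G : ℂ → ℂ → ℝ) (cc : ℂ → ℂ) (w : ℂ) : Set ℂ := {z | G (cc w) z ≤ w.re / 2}

theorem VV_open (h : Base G B cc) (w : ℂ) : IsOpen (VV G cc w) := by
  have hc : Continuous (fun z : ℂ => G (cc w) z) :=
    h.gcont.comp (by fun_prop : Continuous fun z : ℂ => (cc w, z))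
  exact isOpen_lt hc continuous_const

theorem LL0_closed (h : Base G B cc) (w : ℂ) : IsClosed (LL0 G cc w) := by
  have hc : Continuous (fun z : ℂ => G (cc w) z) :=
    h.gcont.comp (by fun_prop : Continuous fun z : ℂ => (cc w, z))
  exact isClosed_le hc continuous_const

theorem LL0_sub {w : ℂ} (hw : w ∈ HP) : LL0 G cc w ⊆ VV G cc w := by
  intro z hz
  have h1 : 0 < w.re := hw
  have h2 : G (cc w) z ≤ w.re / 2 := hz
  show G (cc w) z < w.re
  linarith

theorem VV_bd (h : Base G B cc) (w : ℂ) : ∀ z ∈ VV G cc w,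
    ‖z‖ ≤ Real.exp w.re * (4 * (1 + ‖cc w‖)) := by
  intro z hz
  have hz' : G (cc w) z < w.re := hz
  rcases eq_or_ne z 0 with h0 | h0
  · rw [h0, norm_zero]; positivity
  · have h1 := h.glow (cc w) z
    have h2 : 0 < ‖z‖ := norm_pos_iff.2 h0
    have h3 : Real.log ‖z‖ ≤ w.re + Real.log (4 * (1 + ‖cc w‖)) := by linarith
    calc ‖z‖ = Real.exp (Real.log ‖z‖) := (Real.exp_log h2).symm
      _ ≤ Real.exp (w.re + Real.log (4 * (1 + ‖cc w‖))) := Real.exp_le_exp.2 h3
      _ = _ := by rw [Real.exp_add, Real.exp_log (by positivity)]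

theorem not_Gam (h : Base G B cc) {w : ℂ} (hw : w ∈ HP) {z : ℂ} (hz : z ∈ VV G cc w) :
    z ∉ Gam B cc w := by
  rintro ⟨ξ, _, h2, h3⟩
  have h0 : 0 < w.re := hw
  have h4 : G (cc w) (cc w) < 2 * ξ.re := by
    rw [h.pG w hw]; linarith
  have h5 := h.bG (cc w) ξ h4
  rw [← h3] at h5
  have hz' : G (cc w) z < w.re := hz
  linarith

theorem VV_conn (h : Base G B cc) {w : ℂ} (hw : w ∈ HP) : IsPreconnected (VV G cc w) := by
  have h0 : 0 < w.re := hw
  obtain ⟨A, hA⟩ : ∃ A : Set ℂ, A = {z | w.re / 2 < G (cc w) z ∧ G (cc w) z < w.re} := ⟨_, rfl⟩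
  have hAV : A ⊆ VV G cc w := by
    rw [hA]; rintro z ⟨-, hz⟩; exact hz
  have hAc : IsPreconnected A := by
    have h1 : A = B (cc w) '' {ξ : ℂ | w.re / 2 < ξ.re ∧ ξ.re < w.re} := by
      rw [hA]
      ext z
      constructor
      · rintro ⟨h1, h2⟩
        obtain ⟨ξ, hξ1, hξ2⟩ := h.bsurj (cc w) z (by rw [h.pG w hw]; linarith)
        exact ⟨ξ, ⟨by rw [hξ1]; exact h1, by rw [hξ1]; exact h2⟩, hξ2⟩
      · rintro ⟨ξ, ⟨h1, h2⟩, rfl⟩
        have h3 := h.bG (cc w) ξ (by rw [h.pG w hw]; linarith)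
        simp only [mem_ofPred_eq]
        rw [h3]
        exact ⟨h1, h2⟩
    rw [h1]
    refine IsPreconnected.image ?_ _ ?_
    · have h2 : {ξ : ℂ | w.re / 2 < ξ.re ∧ ξ.re < w.re} =
          {ξ : ℂ | w.re / 2 < ξ.re} ∩ {ξ : ℂ | ξ.re < w.re} := rfl
      rw [h2]
      exact ((convex_halfSpace_re_gt _).inter (convex_halfSpace_re_lt _)).isPreconnected
    · intro ξ hξ
      exact (h.bdiff (cc w) ξ (by
        rw [h.pG w hw]
        have : w.re / 2 < ξ.re := hξ.1
        linarith)).continuousAt.continuousWithinAt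
  have hGc : Continuous (fun z : ℂ => G (cc w) z) :=
    h.gcont.comp (by fun_prop : Continuous fun z : ℂ => (cc w, z))
  -- every component meets `A`
  have key : ∀ x ∈ VV G cc w, ∃ a ∈ A, a ∈ connectedComponentIn (VV G cc w) x := by
    intro x hx
    by_contra hcon
    push Not at hcon
    obtain ⟨W, hW⟩ : ∃ W, W = connectedComponentIn (VV G cc w) x := ⟨_, rfl⟩
    rw [← hW] at hcon
    have hWo : IsOpen W := by rw [hW]; exact (VV_open h w).connectedComponentIn
    have hWV : W ⊆ VV G cc w := by rw [hW]; exact connectedComponentIn_subset _ _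
    have hxW : x ∈ W := by rw [hW]; exact mem_connectedComponentIn hx
    have hWne : W ≠ univ := by
      intro hu
      have h1 : ((Real.exp w.re * (4 * (1 + ‖cc w‖)) + 1 : ℝ) : ℂ) ∈ W := by rw [hu]; trivial
      have h2 := VV_bd h w _ (hWV h1)
      rw [Complex.norm_real, Real.norm_of_nonneg (by positivity)] at h2
      linarith
    have hfr : (frontier W).Nonempty := nonempty_frontier_iff.2 ⟨⟨x, hxW⟩, hWne⟩
    obtain ⟨p, hp⟩ := hfr
    have hWle : W ⊆ LL0 G cc w := by
      intro u hu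
      show G (cc w) u ≤ w.re / 2
      by_contra hlt
      push Not at hlt
      exact hcon u (by rw [hA]; exact ⟨hlt, hWV hu⟩) hu
    have hpL : p ∈ LL0 G cc w :=
      closure_minimal hWle (LL0_closed h w) (frontier_subset_closure hp)
    have hpV : p ∈ VV G cc w := LL0_sub hw hpL
    have hpo : IsOpen (connectedComponentIn (VV G cc w) p) := (VV_open h w).connectedComponentIn
    have hpc : p ∈ closure W := frontier_subset_closure hp
    obtain ⟨u, hu1, hu2⟩ := mem_closure_iff.1 hpc _ hpo (mem_connectedComponentIn hpV)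
    have h1 : connectedComponentIn (VV G cc w) p = W := by
      rw [hW] at hu2 ⊢
      exact (connectedComponentIn_eq hu1).trans (connectedComponentIn_eq hu2).symm
    have h2 : p ∈ W := by rw [← h1]; exact mem_connectedComponentIn hpV
    have h3 := hp.2
    rw [hWo.interior_eq] at h3
    exact h3 h2
  rcases A.eq_empty_or_nonempty with hAe | ⟨a₀, ha₀⟩
  · intro U V' _ _ _ ⟨x, hx, _⟩ _
    obtain ⟨a, ha, _⟩ := key x hx
    rw [hAe] at ha
    exact absurd ha (notMem_empty a)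
  · refine isPreconnected_of_forall a₀ fun x hx => ?_
    obtain ⟨a, ha, ha'⟩ := key x hx
    refine ⟨A ∪ connectedComponentIn (VV G cc w) x, ?_, Or.inl ha₀,
      Or.inr (mem_connectedComponentIn hx), ?_⟩
    · exact union_subset hAV (connectedComponentIn_subset _ _)
    · exact IsPreconnected.union a ha ha' hAc isPreconnected_connectedComponentIn

theorem cc_mem (_h : Base G B cc) {w : ℂ} (hw : w ∈ HP) {z : ℂ} (hz : G (cc w) z = 0) :
    z ∈ VV G cc w := by
  have h0 : 0 < w.re := hw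
  show G (cc w) z < w.re
  rw [hz]; exact h0

/-- the branches of the inverse -/
noncomputable def gg (lam : ℂ → ℂ → ℂ) (w : ℂ) (ε : Bool) (z : ℂ) : ℂ :=
  exp (lam w z / 2 + Real.pi * bt ε * I)

theorem exp_bt (ε : Bool) : exp (2 * (Real.pi * bt ε * I)) = 1 := by
  cases ε
  · simp [bt]
  · simp only [bt, if_true, ofReal_one, mul_one]
    rw [← mul_assoc]
    exact exp_two_pi_mul_I

theorem gg_sq (hl : Lam B cc lam) {w : ℂ} (hw : w ∈ HP) {z : ℂ} (hz : z ∉ Gam B cc w) (ε : Bool) :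
    gg lam w ε z ^ 2 = z - cc w := by
  rw [← hl.eq w hw z hz, gg, ← exp_nat_mul]
  have : ((2 : ℕ) : ℂ) * (lam w z / 2 + Real.pi * bt ε * I) =
      lam w z + 2 * (Real.pi * bt ε * I) := by push_cast; ring
  rw [this, exp_add, exp_bt, mul_one]

theorem f_gg (hl : Lam B cc lam) {w : ℂ} (hw : w ∈ HP) {z : ℂ} (hz : z ∉ Gam B cc w) (ε : Bool) :
    f (cc w) (gg lam w ε z) = z := by
  unfold f
  rw [gg_sq hl hw hz]
  ring

theorem gg_ne (w : ℂ) (ε : Bool) (z : ℂ) : gg lam w ε z ≠ 0 := exp_ne_zero _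

theorem gg_neg (w z : ℂ) : gg lam w true z = -gg lam w false z := by
  unfold gg
  simp only [bt, if_true, ofReal_one, mul_one]
  rw [exp_add, exp_pi_mul_I]
  simp

theorem gg_inj {w z : ℂ} {ε ε' : Bool} (h : gg lam w ε z = gg lam w ε' z) : ε = ε' := by
  have h1 := gg_ne (lam := lam) w false z
  have key : ∀ u : ℂ, u ≠ 0 → u ≠ -u := by
    intro u hu h2
    apply hu
    have h3 : (2 : ℂ) * u = 0 := by linear_combination h2
    simpa using h3
  cases ε <;> cases ε'
  · rfl
  · rw [gg_neg] at h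
    exact absurd h (key _ h1)
  · rw [gg_neg] at h
    exact absurd h.symm (key _ h1)
  · rfl

theorem gg_surj (hl : Lam B cc lam) {w : ℂ} (hw : w ∈ HP) {z : ℂ}
    (hz : f (cc w) z ∉ Gam B cc w) : ∃ ε, z = gg lam w ε (f (cc w) z) := by
  have h1 := gg_sq hl hw hz false
  have h2 : gg lam w false (f (cc w) z) ^ 2 = z ^ 2 := by
    rw [h1]
    unfold f
    ring
  rcases sq_eq_sq_iff_eq_or_eq_neg.1 h2 with h3 | h3
  · exact ⟨false, h3.symm⟩
  · refine ⟨true, ?_⟩
    rw [gg_neg, h3]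
    ring

theorem G_gg (h : Base G B cc) (hl : Lam B cc lam) {w : ℂ} (hw : w ∈ HP) {z : ℂ}
    (hz : z ∉ Gam B cc w) (ε : Bool) : G (cc w) (gg lam w ε z) = G (cc w) z / 2 := by
  have h1 := h.gf (cc w) (gg lam w ε z)
  rw [f_gg hl hw hz] at h1
  linarith

theorem gg_maps (h : Base G B cc) (hl : Lam B cc lam) {w : ℂ} (hw : w ∈ HP) {z : ℂ}
    (hz : z ∈ VV G cc w) (ε : Bool) : gg lam w ε z ∈ LL0 G cc w := by
  have h1 := G_gg h hl hw (not_Gam h hw hz) ε
  have h2 : G (cc w) z < w.re := hz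
  show G (cc w) (gg lam w ε z) ≤ w.re / 2
  rw [h1]
  linarith

theorem lam_diff (h : Base G B cc) (hl : Lam B cc lam) {w : ℂ} (hw : w ∈ HP) {z : ℂ}
    (hz : z ∈ VV G cc w) : DifferentiableAt ℂ (lam w) z := by
  have h1 : ∀ᶠ u in 𝓝 z, u ∈ VV G cc w := (VV_open h w).mem_nhds hz
  refine diff_of_exp (h := fun u => u - cc w) ?_ ?_ (by fun_prop)
  · have h2 : ContinuousAt (fun p : ℂ × ℂ => lam p.1 p.2) (w, z) :=
      hl.cont.continuousAt (hl.opn.mem_nhds ⟨hw, not_Gam h hw hz⟩)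
    exact h2.comp' (f := fun u : ℂ => (w, u)) (by fun_prop)
  · filter_upwards [h1] with u hu
    exact hl.eq w hw u (not_Gam h hw hu)

theorem gg_diff (h : Base G B cc) (hl : Lam B cc lam) {w : ℂ} (hw : w ∈ HP) (ε : Bool) :
    DifferentiableOn ℂ (gg lam w ε) (VV G cc w) := by
  intro z hz
  exact (((lam_diff h hl hw hz).div_const 2).add_const _).cexp.differentiableWithinAt

/-- compositions of branches -/
noncomputable def br (lam : ℂ → ℂ → ℂ) (w : ℂ) : ℕ → (ℕ → Bool) → ℂ → ℂ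
  | 0, _, z => z
  | n + 1, e, z => gg lam w (e 0) (br lam w n (sh 1 e) z)

theorem br_succ' (w : ℂ) (n : ℕ) : ∀ (e : ℕ → Bool) (z : ℂ),
    br lam w (n + 1) e z = br lam w n e (gg lam w (e n) z) := by
  induction n with
  | zero => intro e z; rfl
  | succ n ih =>
    intro e z
    show gg lam w (e 0) (br lam w (n + 1) (sh 1 e) z) =
      gg lam w (e 0) (br lam w n (sh 1 e) (gg lam w (e (n + 1)) z))
    rw [ih]
    rfl

theorem br_maps (h : Base G B cc) (hl : Lam B cc lam) {w : ℂ} (hw : w ∈ HP) (n : ℕ) :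
    ∀ (e : ℕ → Bool) (z : ℂ), z ∈ VV G cc w → br lam w n e z ∈ VV G cc w := by
  induction n with
  | zero => intro e z hz; exact hz
  | succ n ih =>
    intro e z hz
    exact LL0_sub hw (gg_maps h hl hw (ih _ z hz) _)

theorem br_maps' (h : Base G B cc) (hl : Lam B cc lam) {w : ℂ} (hw : w ∈ HP) (n : ℕ) (hn : 1 ≤ n)
    (e : ℕ → Bool) (z : ℂ) (hz : z ∈ VV G cc w) : br lam w n e z ∈ LL0 G cc w := by
  obtain ⟨m, rfl⟩ : ∃ m, n = m + 1 := ⟨n - 1, by omega⟩
  exact gg_maps h hl hw (br_maps h hl hw m _ z hz) _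

theorem br_diff (h : Base G B cc) (hl : Lam B cc lam) {w : ℂ} (hw : w ∈ HP) (n : ℕ) :
    ∀ (e : ℕ → Bool), DifferentiableOn ℂ (br lam w n e) (VV G cc w) := by
  induction n with
  | zero => intro e; exact differentiableOn_id
  | succ n ih =>
    intro e
    exact (gg_diff h hl hw (e 0)).comp (ih (sh 1 e)) fun z hz => br_maps h hl hw n _ z hz

theorem f_br (h : Base G B cc) (hl : Lam B cc lam) {w : ℂ} (hw : w ∈ HP) (n : ℕ) :
    ∀ (e : ℕ → Bool) (z : ℂ), z ∈ VV G cc w → (f (cc w))^[n] (br lam w n e z) = z := by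
  induction n with
  | zero => intro e z hz; rfl
  | succ n ih =>
    intro e z hz
    rw [Function.iterate_succ_apply]
    show (f (cc w))^[n] (f (cc w) (gg lam w (e 0) (br lam w n (sh 1 e) z))) = z
    rw [f_gg hl hw (not_Gam h hw (br_maps h hl hw n _ z hz)), ih _ z hz]

/-- the point with a periodic code -/
theorem exists_fixed (h : Base G B cc) (hl : Lam B cc lam) {w : ℂ} (hw : w ∈ HP) {n : ℕ}
    (hn : 1 ≤ n) (e : ℕ → Bool) : ∃ z ∈ VV G cc w, br lam w n e z = z ∧
      ‖deriv (br lam w n e) z‖ < 1 ∧ ∀ y ∈ VV G cc w, br lam w n e y = y → y = z := by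
  have h0 : 0 < w.re := hw
  -- compactness
  obtain ⟨M, hM⟩ : ∃ M : ℝ, M = Real.exp w.re * (4 * (1 + ‖cc w‖)) := ⟨_, rfl⟩
  have hM0 : 0 < M := by rw [hM]; positivity
  have hbd : ∀ z ∈ VV G cc w, ‖z‖ ≤ M := by rw [hM]; exact VV_bd h w
  have hcpt : IsCompact (LL0 G cc w) := by
    apply Metric.isCompact_of_isClosed_isBounded (LL0_closed h w)
    rw [isBounded_iff_forall_norm_le]
    exact ⟨M, fun z hz => hbd z (LL0_sub hw hz)⟩
  obtain ⟨ρ, hρ, hthick⟩ := hcpt.exists_thickening_subset_open (VV_open h w) (LL0_sub hw)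
  have hyp : EH.Hyp (VV G cc w) (LL0 G cc w) (br lam w n e) (2 * M) (ρ / 2) := by
    refine ⟨VV_open h w, br_diff h hl hw n e, fun z hz => br_maps' h hl hw n hn e z hz,
      LL0_sub hw, ?_, by positivity, by positivity, ?_⟩
    · intro x hx y hy
      have := norm_sub_le x y
      have := hbd x hx
      have := hbd y hy
      linarith
    · intro y hy u hu
      apply hthick
      rw [mem_thickening_iff]
      refine ⟨y, hy, ?_⟩
      rw [mem_ball] at hu
      linarith
  have hne : (VV G cc w).Nonempty := by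
    -- the image of a point is in the set; take a point of the strip
    have h1 : G (cc w) (cc w) < 2 * ((3 / 4 * w.re : ℝ) : ℂ).re := by
      rw [h.pG w hw, ofReal_re]; linarith
    refine ⟨B (cc w) ((3 / 4 * w.re : ℝ) : ℂ), ?_⟩
    have h2 := h.bG (cc w) _ h1
    show G (cc w) _ < w.re
    rw [h2, ofReal_re]
    linarith
  exact EH.fixed hyp (VV_conn h hw) hne (LL0_closed h w)

/-- `z` has the code `e` -/
def HC (cc : ℂ → ℂ) (lam : ℂ → ℂ → ℂ) (w : ℂ) (e : ℕ → Bool) (z : ℂ) : Prop :=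
  (∃ n, 1 ≤ n ∧ (f (cc w))^[n] z = z) ∧
    ∀ k, (f (cc w))^[k] z = gg lam w (e k) ((f (cc w))^[k + 1] z)

theorem G_per (h : Base G B cc) {c z : ℂ} {n : ℕ} (hn : 1 ≤ n) (hz : (f c)^[n] z = z) :
    G c z = 0 := by
  have h1 : ∀ k, G c ((f c)^[k] z) = 2 ^ k * G c z := by
    intro k
    induction k with
    | zero => simp
    | succ k ih =>
      rw [Function.iterate_succ_apply', h.gf, ih, pow_succ]
      ring
  have h2 := h1 n
  rw [hz] at h2
  have h3 : (1 : ℝ) < 2 ^ n := one_lt_pow₀ (by norm_num) (by omega)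
  have h4 : (2 ^ n - 1) * G c z = 0 := by linarith
  rcases mul_eq_zero.1 h4 with h5 | h5
  · linarith
  · exact h5

theorem iter_fix {c z : ℂ} {n : ℕ} (hz : (f c)^[n] z = z) (k : ℕ) :
    (f c)^[n] ((f c)^[k] z) = (f c)^[k] z := by
  rw [← Function.iterate_add_apply, Nat.add_comm, Function.iterate_add_apply, hz]

theorem HC_sh {w z : ℂ} {e : ℕ → Bool} (hz : HC cc lam w e z) :
    HC cc lam w (sh 1 e) (f (cc w) z) := by
  obtain ⟨⟨n, hn, hn'⟩, hk⟩ := hz
  refine ⟨⟨n, hn, ?_⟩, fun k => ?_⟩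
  · have := iter_fix hn' 1
    simpa using this
  · have := hk (k + 1)
    rw [Function.iterate_succ_apply, Function.iterate_succ_apply] at this
    exact this

theorem HC_per {w z : ℂ} {e : ℕ → Bool} (hz : HC cc lam w e z) {n : ℕ}
    (hn' : (f (cc w))^[n] z = z) : Per n e := by
  obtain ⟨-, hk⟩ := hz
  intro k
  have h1 := hk k
  have h2 := hk (k + n)
  have e1 : (f (cc w))^[k + n] z = (f (cc w))^[k] z := by
    rw [Function.iterate_add_apply, hn']
  have e2 : (f (cc w))^[k + n + 1] z = (f (cc w))^[k + 1] z := by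
    rw [show k + n + 1 = (k + 1) + n by ring, Function.iterate_add_apply, hn']
  rw [e1, e2, h1] at h2
  exact (gg_inj h2).symm

theorem HC_br {w z : ℂ} {e : ℕ → Bool} (hz : HC cc lam w e z) (n : ℕ) :
    br lam w n e ((f (cc w))^[n] z) = z := by
  induction n with
  | zero => rfl
  | succ n ih =>
    rw [br_succ', ← hz.2 n, ih]

theorem HC_uniq (h : Base G B cc) (hl : Lam B cc lam) {w : ℂ} (hw : w ∈ HP) {e : ℕ → Bool}
    {z z' : ℂ} (hz : HC cc lam w e z) (hz' : HC cc lam w e z') : z = z' := by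
  obtain ⟨n, hn, hn1⟩ := hz.1
  obtain ⟨n', hn', hn1'⟩ := hz'.1
  have e1 : (f (cc w))^[n' * n] z = z := iter_mul _ _ n hn1 n'
  have e2 : (f (cc w))^[n' * n] z' = z' := by
    rw [Nat.mul_comm]; exact iter_mul _ _ n' hn1' n
  have hpos : 1 ≤ n' * n := Nat.mul_pos hn' hn
  obtain ⟨y, hy, _, _, hu⟩ := exists_fixed h hl hw hpos e
  have b1 := HC_br hz (n' * n)
  have b2 := HC_br hz' (n' * n)
  rw [e1] at b1
  rw [e2] at b2
  rw [hu z (cc_mem h hw (G_per h hpos e1)) b1, hu z' (cc_mem h hw (G_per h hpos e2)) b2]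

theorem fixed_step (h : Base G B cc) (hl : Lam B cc lam) {w : ℂ} (hw : w ∈ HP) {n : ℕ}
    (hn : 1 ≤ n) {e : ℕ → Bool} (he : Per n e) {z : ℂ} (hz : z ∈ VV G cc w)
    (hb : br lam w n e z = z) : z = gg lam w (e 0) (f (cc w) z) ∧ f (cc w) z ∈ VV G cc w ∧
      br lam w n (sh 1 e) (f (cc w) z) = f (cc w) z := by
  obtain ⟨m, rfl⟩ : ∃ m, n = m + 1 := ⟨n - 1, by omega⟩
  have hb1 : gg lam w (e 0) (br lam w m (sh 1 e) z) = z := hb
  have h1 := br_maps h hl hw m (sh 1 e) z hz
  have h2 : f (cc w) z = br lam w m (sh 1 e) z := by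
    conv_lhs => rw [← hb1]
    exact f_gg hl hw (not_Gam h hw h1) _
  refine ⟨?_, ?_, ?_⟩
  · rw [h2]; exact hb1.symm
  · rw [h2]; exact h1
  · rw [br_succ']
    have h3 : sh 1 e m = e 0 := by
      have := he 0
      rw [zero_add] at this
      exact this
    rw [h3]
    conv_lhs => rw [h2, hb1]
    exact h2.symm

theorem HC_exists (h : Base G B cc) (hl : Lam B cc lam) {w : ℂ} (hw : w ∈ HP) {n : ℕ}
    (hn : 1 ≤ n) {e : ℕ → Bool} (he : Per n e) : ∃ z, HC cc lam w e z ∧
      (f (cc w))^[n] z = z ∧ z ∈ VV G cc w ∧ br lam w n e z = z ∧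
        ‖deriv (br lam w n e) z‖ < 1 := by
  obtain ⟨z, hz, hb, hd, -⟩ := exists_fixed h hl hw hn e
  have hfix : (f (cc w))^[n] z = z := by
    have := f_br h hl hw n e z hz
    rwa [hb] at this
  refine ⟨z, ⟨⟨n, hn, hfix⟩, ?_⟩, hfix, hz, hb, hd⟩
  have hall : ∀ k, (f (cc w))^[k] z ∈ VV G cc w ∧
      br lam w n (sh k e) ((f (cc w))^[k] z) = (f (cc w))^[k] z := by
    intro k
    induction k with
    | zero => exact ⟨hz, hb⟩
    | succ k ih =>
      have hpk : Per n (sh k e) := by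
        intro j
        have := he (j + k)
        unfold sh
        rw [← this]
        congr 1
        ring
      obtain ⟨h1, h2, h3⟩ := fixed_step h hl hw hn hpk ih.1 ih.2
      rw [Function.iterate_succ_apply']
      refine ⟨h2, ?_⟩
      have h4 : sh 1 (sh k e) = sh (k + 1) e := by
        funext j
        unfold sh
        congr 1
        ring
      rw [h4] at h3
      exact h3
  intro k
  have hpk : Per n (sh k e) := by
    intro j
    have := he (j + k)
    unfold sh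
    rw [← this]
    congr 1
    ring
  obtain ⟨h1, -, -⟩ := fixed_step h hl hw hn hpk (hall k).1 (hall k).2
  have h5 : sh k e 0 = e k := by unfold sh; rw [zero_add]
  rw [h5] at h1
  rw [Function.iterate_succ_apply']
  exact h1

/-- every periodic point has a code -/
theorem HC_surj (h : Base G B cc) (hl : Lam B cc lam) {w : ℂ} (hw : w ∈ HP) {n : ℕ}
    (hn : 1 ≤ n) {z : ℂ} (hz : (f (cc w))^[n] z = z) : ∃ e, HC cc lam w e z := by
  have h1 : ∀ k, ∃ ε, (f (cc w))^[k] z = gg lam w ε ((f (cc w))^[k + 1] z) := by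
    intro k
    have h2 : G (cc w) ((f (cc w))^[k + 1] z) = 0 := G_per h hn (iter_fix hz (k + 1))
    rw [Function.iterate_succ_apply'] at h2 ⊢
    exact gg_surj hl hw (not_Gam h hw (cc_mem h hw h2))
  choose e he using h1
  exact ⟨e, ⟨n, hn, hz⟩, he⟩

end

end Pool.Agent.KS6_23.ML.CODE
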