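import Pool.Agent.KS6_23.ML.Stm

set_option autoImplicit false

/-!
# Project ML, tools for the modules 6, 8, 9 (extended sectors)

Holomorphic logarithms and square roots on convex open sets, convexity of the sectors, and simple
facts on `B c`.
-/

open Complex Set Filter Metric Topology MeasureTheory

namespace Pool.Agent.KS6_23.ML.SecTools

/-- convex open sets are simply connected -/
theorem isSimplyConnected_of_convex {U : Set ℂ} (hc : Convex ℝ U) (hne : U.Nonempty) :
    IsSimplyConnected U := by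
  have := hc.contractibleSpace hne
  exact SimplyConnectedSpace.ofContractible U

/-- holomorphic logarithms on convex open sets -/
theorem exists_log {U : Set ℂ} (hc : Convex ℝ U) (hne : U.Nonempty) (hU : IsOpen U) {g : ℂ → ℂ}
    (hg : DifferentiableOn ℂ g U) (h0 : ∀ z ∈ U, g z ≠ 0) :
    ∃ F : ℂ → ℂ, DifferentiableOn ℂ F U ∧ ∀ z ∈ U, exp (F z) = g z := by
  obtain ⟨F, hF, hF2⟩ := exists_continuousOn_eqOn_exp_comp (isSimplyConnected_of_convex hc hne) hU
    hg.continuousOn (by rintro ⟨z, hz, h⟩; exact h0 z hz h)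
  have hF3 : ∀ z ∈ U, exp (F z) = g z := fun z hz => hF2 hz
  refine ⟨F, ?_, hF3⟩
  intro z hz
  have hgz : DifferentiableAt ℂ g z := hg.differentiableAt (hU.mem_nhds hz)
  -- near `z` the function `F` is `F z + log (g w / g z)`
  have h1 : ∀ᶠ w in 𝓝 z, F w = F z + log (g w / g z) := by
    have hcont : ContinuousAt F z := hF.continuousAt (hU.mem_nhds hz)
    have h2 : ∀ᶠ w in 𝓝 z, ‖F w - F z‖ < 1 := by
      have := hcont.tendsto
      rw [tendsto_iff_norm_sub_tendsto_zero] at this
      exact this.eventually (gt_mem_nhds one_pos)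
    filter_upwards [h2, hU.mem_nhds hz] with w hw hwU
    have h3 : g w / g z = exp (F w - F z) := by
      rw [exp_sub, hF3 w hwU, hF3 z hz]
    have him : |(F w - F z).im| < Real.pi := by
      have := abs_im_le_norm (F w - F z)
      have := Real.pi_gt_three
      linarith
    rw [h3, log_exp (by linarith [(abs_lt.1 him).1]) (by linarith [(abs_lt.1 him).2])]
    ring
  have h4 : DifferentiableAt ℂ (fun w => F z + log (g w / g z)) z := by
    have h5 : g z / g z ∈ slitPlane := by
      rw [div_self (h0 z hz)]; simp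
    exact (DifferentiableAt.clog (hgz.div_const _) h5).const_add _
  exact (h4.congr_of_eventuallyEq h1).differentiableWithinAt

/-- holomorphic square roots on convex open sets -/
theorem exists_sqrt {U : Set ℂ} (hc : Convex ℝ U) (hne : U.Nonempty) (hU : IsOpen U) {g : ℂ → ℂ}
    (hg : DifferentiableOn ℂ g U) (h0 : ∀ z ∈ U, g z ≠ 0) :
    ∃ F : ℂ → ℂ, DifferentiableOn ℂ F U ∧ ∀ z ∈ U, F z ^ 2 = g z := by
  obtain ⟨F, hF, hF2⟩ := exists_log hc hne hU hg h0
  refine ⟨fun z => exp (F z / 2), ?_, fun z hz => ?_⟩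
  · intro z hz
    exact ((hF z hz).div_const 2).cexp
  · rw [← hF2 z hz, ← exp_nat_mul]
    congr 1
    push_cast; ring

/-- two functions with the same square, not zero, on a preconnected set -/
theorem sq_eq_on {U : Set ℂ} (hU : IsPreconnected U) {g h : ℂ → ℂ} (hg : ContinuousOn g U)
    (hh : ContinuousOn h U) (h0 : ∀ z ∈ U, h z ≠ 0) (hsq : ∀ z ∈ U, g z ^ 2 = h z ^ 2) {z₀ : ℂ}
    (hz₀ : z₀ ∈ U) (heq : g z₀ = h z₀) : ∀ z ∈ U, g z = h z := by
  have hdis : EqOn (fun z => g z / h z) (fun _ => 1) U ∨ EqOn (fun z => g z / h z) (fun _ => -1) U := by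
    have := hU.eq_or_eq_neg_of_sq_eq (f := fun z => g z / h z) (g := fun _ => (1 : ℂ))
      (hg.div hh h0) continuousOn_const (by
        intro z hz
        simp only [Pi.pow_apply]
        rw [div_pow, hsq z hz, one_pow, div_self (pow_ne_zero 2 (h0 z hz))]) (by simp)
    rcases this with h | h
    · exact Or.inl h
    · refine Or.inr ?_
      intro z hz
      have := h hz
      simpa using this
  rcases hdis with h | h
  · intro z hz
    have := h hz
    simp only at this
    rwa [div_eq_one_iff_eq (h0 z hz)] at this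
  · exfalso
    have := h hz₀
    simp only at this
    rw [heq, div_self (h0 z₀ hz₀)] at this
    norm_num at this

/-! ## Sectors -/

theorem convex_Sk (κ : ℝ) : Convex ℝ (Sk κ) := by
  intro x hx y hy a b ha hb hab
  simp only [Sk, mem_ofPred_eq] at *
  have him : (a • x + b • y).im = a * x.im + b * y.im := by simp
  have hre : (a • x + b • y).re = a * x.re + b * y.re := by simp
  rw [him, hre]
  have h1 : |a * x.im + b * y.im| ≤ a * |x.im| + b * |y.im| := by
    calc |a * x.im + b * y.im| ≤ |a * x.im| + |b * y.im| := abs_add_le _ _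
      _ = a * |x.im| + b * |y.im| := by rw [abs_mul, abs_mul, abs_of_nonneg ha, abs_of_nonneg hb]
  rcases eq_or_lt_of_le ha with h | h
  · have hb1 : b = 1 := by linarith
    subst h; subst hb1
    simpa using hy
  · nlinarith

theorem isOpen_Sk (κ : ℝ) : IsOpen (Sk κ) := by
  apply isOpen_lt
  · exact continuous_abs.comp continuous_im
  · exact continuous_const.mul continuous_re

theorem re_pos_of_mem {κ : ℝ} (hκ : 0 < κ) {ζ : ℂ} (h : ζ ∈ Sk κ) : 0 < ζ.re := by
  simp only [Sk, mem_ofPred_eq] at h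
  have := abs_nonneg ζ.im
  by_contra h1
  push Not at h1
  have : κ * ζ.re ≤ 0 := mul_nonpos_of_nonneg_of_nonpos hκ.le h1
  linarith

theorem mul_mem_Sk {κ : ℝ} {r : ℝ} (hr : 0 < r) {ζ : ℂ} (h : ζ ∈ Sk κ) : (r : ℂ) * ζ ∈ Sk κ := by
  simp only [Sk, mem_ofPred_eq] at *
  have h1 : ((r : ℂ) * ζ).im = r * ζ.im := by simp
  have h2 : ((r : ℂ) * ζ).re = r * ζ.re := by simp
  rw [h1, h2, abs_mul, abs_of_pos hr]
  nlinarith

theorem two_mul_mem_Sk {κ : ℝ} {ζ : ℂ} (h : ζ ∈ Sk κ) : 2 * ζ ∈ Sk κ := by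
  have := mul_mem_Sk (r := 2) (by norm_num) h
  simpa using this

theorem add_mem_Sk {κ : ℝ} (hκ : 0 < κ) {u : ℝ} (hu : 0 ≤ u) {ζ : ℂ} (h : ζ ∈ Sk κ) :
    ζ + u ∈ Sk κ := by
  simp only [Sk, mem_ofPred_eq] at *
  have h1 : (ζ + u).im = ζ.im := by simp
  have h2 : (ζ + u).re = ζ.re + u := by simp
  rw [h1, h2]
  nlinarith

theorem ofReal_mem_Sk {κ : ℝ} (hκ : 0 < κ) {u : ℝ} (hu : 0 < u) : (u : ℂ) ∈ Sk κ := by
  simp only [Sk, mem_ofPred_eq, ofReal_im, abs_zero, ofReal_re]
  positivity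

theorem Sk_mono {κ κ' : ℝ} (hκ : 0 < κ) (h : κ ≤ κ') : Sk κ ⊆ Sk κ' := by
  intro ζ hζ
  have := re_pos_of_mem hκ hζ
  simp only [Sk, mem_ofPred_eq] at *
  nlinarith

/-! ## `B` -/

theorem B_per {G : ℂ → ℂ → ℝ} {B : ℂ → ℂ → ℂ} (hB : Bott G B) {c ξ : ℂ} (h : G c c < 2 * ξ.re)
    (m : ℤ) : B c (ξ + m * tpi) = B c ξ := by
  have hre : ∀ m : ℤ, (ξ + m * tpi).re = ξ.re := by
    intro m
    simp [tpi]
  have key : ∀ m : ℤ, B c (ξ + (m + 1 : ℤ) * tpi) = B c (ξ + m * tpi) := by
    intro m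
    rw [← hB.bper c (ξ + m * tpi) (by rw [hre]; exact h)]
    congr 1
    push_cast; ring
  induction m using Int.induction_on with
  | zero => simp
  | succ i hi => rw [key, hi]
  | pred i hi =>
    rw [← hi, ← key]
    congr 2
    push_cast; ring

end Pool.Agent.KS6_23.ML.SecTools
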