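import Pool.Agent.KS6_23.ML.Koenigs
import Pool.Agent.KS6_23.ML.SecTools
import Pool.Agent.KS6_23.ML.Basic

/-!
# Project ML, module 13 (DLT), part A: backward branches at a repelling point
-/

set_option autoImplicit false

open Complex Set Filter Metric Topology MeasureTheory

namespace Pool.Agent.KS6_23.ML.DltA

open Pool.Agent.KS6_23.ML Koenigs SecTools Basic
open scoped ComplexConjugate

/-! ## Harnack's inequality -/

/-- Harnack's inequality (from the library module Helper632.Adm.Ana of an earlier run) -/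
theorem harnack {g : ℂ → ℂ} {r : ℝ} (hg : DifferentiableOn ℂ g (ball 0 r))
    (hre : ∀ z ∈ ball (0:ℂ) r, 0 ≤ (g z).re) {p : ℂ} (hp : ‖p‖ < r) :
    (g 0).re * (r - ‖p‖) ≤ (g p).re * (r + ‖p‖) := by
  have hr : 0 < r := lt_of_le_of_lt (norm_nonneg _) hp
  have hz0 : (0:ℂ) ∈ ball (0:ℂ) r := mem_ball_self hr
  have hpb : p ∈ ball (0:ℂ) r := by simpa using hp
  rcases eq_or_lt_of_le (hre 0 hz0) with h0 | h0
  · rw [← h0, zero_mul]
    exact mul_nonneg (hre p hpb) (by positivity)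
  · have hden : ∀ z ∈ ball (0:ℂ) r, g z + conj (g 0) ≠ 0 := by
      intro z hz h
      have := congrArg Complex.re h
      rw [Complex.add_re, Complex.conj_re, Complex.zero_re] at this
      have := hre z hz
      linarith
    have hd : DifferentiableOn ℂ (fun z => (g z - g 0) / (g z + conj (g 0))) (ball 0 r) :=
      (hg.sub_const _).div (hg.add_const _) hden
    have hsq : ∀ v A : ℂ, ‖v + conj A‖ ^ 2 - ‖v - A‖ ^ 2 = 4 * v.re * A.re := by
      intro v A
      rw [← Complex.normSq_eq_norm_sq, ← Complex.normSq_eq_norm_sq, Complex.normSq_apply,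
        Complex.normSq_apply]
      simp only [Complex.add_re, Complex.sub_re, Complex.add_im, Complex.sub_im, Complex.conj_re,
        Complex.conj_im]
      ring
    have hmaps : MapsTo (fun z => (g z - g 0) / (g z + conj (g 0))) (ball 0 r)
        (closedBall ((fun z => (g z - g 0) / (g z + conj (g 0))) 0) 1) := by
      intro z hz
      simp only [sub_self, zero_div, mem_closedBall_zero_iff]
      rw [norm_div, div_le_one (norm_pos_iff.2 (hden z hz))]
      have h2 := hsq (g z) (g 0)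
      have h3 : 0 ≤ 4 * (g z).re * (g 0).re := by
        have := hre z hz
        positivity
      exact abs_le_of_sq_le_sq' (by linarith) (norm_nonneg _) |>.2
    have hS := Complex.dist_le_div_mul_dist_of_mapsTo_ball hd hmaps hpb
    simp only [sub_self, zero_div, dist_zero_right] at hS
    rw [norm_div, div_le_iff₀ (norm_pos_iff.2 (hden p hpb))] at hS
    have hs0 : 0 ≤ (g p).re := hre p hpb
    have e1 : ‖g p - g 0‖ ^ 2 = ((g p).re - (g 0).re) ^ 2 + ((g p).im - (g 0).im) ^ 2 := by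
      rw [← Complex.normSq_eq_norm_sq, Complex.normSq_apply, Complex.sub_re, Complex.sub_im]; ring
    have e2 : ‖g p + conj (g 0)‖ ^ 2 = ((g p).re + (g 0).re) ^ 2 + ((g p).im - (g 0).im) ^ 2 := by
      rw [← Complex.normSq_eq_norm_sq, Complex.normSq_apply, Complex.add_re, Complex.add_im,
        Complex.conj_re, Complex.conj_im]; ring
    set κ := 1 / r * ‖p‖ with hκ
    have hκ0 : 0 ≤ κ := by positivity
    have hκ1 : κ ≤ 1 := by
      rw [hκ, one_div, inv_mul_le_iff₀ hr, mul_one]; exact hp.le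
    have h5 : ‖g p - g 0‖ ^ 2 ≤ κ ^ 2 * ‖g p + conj (g 0)‖ ^ 2 := by
      rw [← mul_pow]
      exact pow_le_pow_left₀ (norm_nonneg _) hS 2
    rw [e1, e2] at h5
    have h6 : ((g p).re - (g 0).re) ^ 2 ≤ (κ * ((g p).re + (g 0).re)) ^ 2 := by
      have h7 : 0 ≤ (1 - κ ^ 2) * ((g p).im - (g 0).im) ^ 2 :=
        mul_nonneg (by nlinarith) (sq_nonneg _)
      nlinarith
    have h8 := abs_le_of_sq_le_sq' h6 (mul_nonneg hκ0 (by linarith))
    have h9 : (g 0).re - (g p).re ≤ κ * ((g p).re + (g 0).re) := by linarith [h8.1]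
    have h10 : κ * r = ‖p‖ := by rw [hκ]; field_simp
    have h11 : ((g 0).re - (g p).re) * r ≤ κ * ((g p).re + (g 0).re) * r :=
      mul_le_mul_of_nonneg_right h9 hr.le
    have h12 : κ * ((g p).re + (g 0).re) * r = ‖p‖ * ((g p).re + (g 0).re) := by
      rw [← h10]; ring
    rw [h12] at h11
    linarith

/-- a holomorphic function which is never zero and small at the centre of a disc is small on the
half disc -/
theorem small_half {u : ℂ → ℂ} {a : ℂ} {r M : ℝ} (hr : 0 < r)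
    (hu : DifferentiableOn ℂ u (ball a r)) (h0 : ∀ w ∈ ball a r, u w ≠ 0)
    (hM : ∀ w ∈ ball a r, ‖u w‖ ≤ M) {w : ℂ} (hw : ‖w - a‖ ≤ r / 2) :
    ‖u w‖ ^ 3 ≤ M ^ 2 * ‖u a‖ := by
  have ha : a ∈ ball a r := mem_ball_self hr
  have hwb : w ∈ ball a r := by
    rw [mem_ball, dist_eq_norm]
    linarith
  obtain ⟨F, hF, hF2⟩ := exists_log (convex_ball a r) ⟨a, ha⟩ isOpen_ball hu h0
  have hM0 : 0 < M := (norm_pos_iff.2 (h0 a ha)).trans_le (hM a ha)
  have hFre : ∀ x ∈ ball a r, (F x).re ≤ Real.log M := by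
    intro x hx
    have h1 := hM x hx
    rw [← hF2 x hx, norm_exp] at h1
    rw [Real.le_log_iff_exp_le hM0]
    exact h1
  have hmem : ∀ x ∈ ball (0 : ℂ) r, a + x ∈ ball a r := by
    intro x hx
    rw [mem_ball_zero_iff] at hx
    rw [mem_ball, dist_eq_norm, add_sub_cancel_left]
    exact hx
  have h1 := harnack (g := fun x => Real.log M - F (a + x)) (r := r) (p := w - a)
    (((hF.comp (by fun_prop : DifferentiableOn ℂ (fun x : ℂ => a + x) (ball 0 r)) hmem)).const_sub _)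
    (fun x hx => by
      have := hFre _ (hmem x hx)
      rw [sub_re, ofReal_re]
      linarith) (by linarith)
  simp only [add_zero, add_sub_cancel, sub_re, ofReal_re] at h1
  have h2 := hFre a ha
  have h3 := hFre w hwb
  have h4 : 3 * (F w).re ≤ 2 * Real.log M + (F a).re := by
    nlinarith [norm_nonneg (w - a)]
  rw [← hF2 w hwb, ← hF2 a ha, norm_exp, norm_exp]
  have h5 : M ^ 2 = Real.exp (2 * Real.log M) := by
    rw [show 2 * Real.log M = Real.log M + Real.log M by ring, Real.exp_add, Real.exp_log hM0]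
    ring
  rw [h5, ← Real.exp_add, ← Real.exp_nat_mul]
  rw [Real.exp_le_exp]
  push_cast
  exact h4

/-! ## Backward branches -/

variable {G : ℂ → ℂ → ℝ} {B : ℂ → ℂ → ℂ} {cc : ℂ → ℂ} {c z : ℂ} {n : ℕ} {m : ℕ → ℤ}

/-- the backward orbit of `B c (h + m 0 * tpi)` -/
noncomputable def yy (B : ℂ → ℂ → ℂ) (c : ℂ) (n : ℕ) (m : ℕ → ℤ) (k : ℕ) (h : ℂ) : ℂ :=
  B c ((h + m k * tpi) / 2 ^ (n * k))

/-- the backward orbits of a branch converge to `z` -/
structure Br (B : ℂ → ℂ → ℂ) (c z : ℂ) (n : ℕ) (m : ℕ → ℤ) : Prop where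
  comp : ∀ k, ∃ l : ℤ, m (k + 1) = m k + 2 ^ (n * k) * l
  conv : ∀ h ∈ HP, Tendsto (fun k => yy B c n m k h) atTop (𝓝 z)

theorem GM (hb : Base G B cc) (hc : c ∈ MM) {ξ : ℂ} (hξ : ξ ∈ HP) : G c c < 2 * ξ.re := by
  rw [(hb.gM c).2 hc]
  have : 0 < ξ.re := hξ
  linarith

theorem iter_B (hb : Base G B cc) (hc : c ∈ MM) {ξ : ℂ} (hξ : ξ ∈ HP) (k : ℕ) :
    (f c)^[k] (B c ξ) = B c (2 ^ k * ξ) := by
  induction k with
  | zero => simp
  | succ k ih =>
    rw [Function.iterate_succ_apply', ih, hb.bf c _ (GM hb hc ?_)]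
    · congr 1
      ring
    · show 0 < ((2 : ℂ) ^ k * ξ).re
      have h1 : ((2 : ℂ) ^ k * ξ).re = 2 ^ k * ξ.re := by
        have : ((2 : ℂ) ^ k) = ((2 ^ k : ℝ) : ℂ) := by push_cast; rfl
        rw [this, re_ofReal_mul]
      rw [h1]
      have : 0 < ξ.re := hξ
      positivity

theorem arg_re (h : ℂ) (k : ℕ) (a : ℤ) :
    ((h + a * tpi) / 2 ^ k).re = h.re / 2 ^ k := by
  have : ((2 : ℂ) ^ k) = ((2 ^ k : ℝ) : ℂ) := by push_cast; rfl
  rw [this, div_ofReal_re, add_re, int_mul_tpi_re, add_zero]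

theorem arg_mem {h : ℂ} (hh : h ∈ HP) (k : ℕ) (a : ℤ) : (h + a * tpi) / 2 ^ k ∈ HP := by
  show 0 < ((h + a * tpi) / 2 ^ k).re
  rw [arg_re]
  have : 0 < h.re := hh
  positivity

theorem yy_G (hb : Base G B cc) (hc : c ∈ MM) {h : ℂ} (hh : h ∈ HP) (k : ℕ) :
    G c (yy B c n m k h) = h.re / 2 ^ (n * k) := by
  unfold yy
  rw [hb.bG c _ (GM hb hc (arg_mem hh _ _)), arg_re]

theorem yy_diff (hb : Base G B cc) (hc : c ∈ MM) (k : ℕ) :
    DifferentiableOn ℂ (yy B c n m k) HP := by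
  intro h hh
  have h1 := hb.bdiff c _ (GM hb hc (arg_mem hh (n * k) (m k)))
  have h2 : DifferentiableAt ℂ (fun h : ℂ => (h + m k * tpi) / 2 ^ (n * k)) h := by fun_prop
  exact (h1.comp h h2).differentiableWithinAt

theorem yy_g (hb : Base G B cc) (hc : c ∈ MM) {k : ℕ}
    (hm : ∃ l : ℤ, m (k + 1) = m k + 2 ^ (n * k) * l)
    {h : ℂ} (hh : h ∈ HP) : (f c)^[n] (yy B c n m (k + 1) h) = yy B c n m k h := by
  obtain ⟨l, hl⟩ := hm
  unfold yy
  rw [iter_B hb hc (arg_mem hh _ _), ← bper_int hb (GM hb hc (arg_mem hh (n * k) (m k))) l]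
  congr 1
  have h2 : (2 : ℂ) ^ (n * k) ≠ 0 := pow_ne_zero _ two_ne_zero
  have h3 : (2 : ℂ) ^ n ≠ 0 := pow_ne_zero _ two_ne_zero
  rw [hl, mul_add, pow_add, mul_one]
  push_cast
  field_simp
  ring

theorem B_bound (hb : Base G B cc) (c y : ℂ) :
    ‖y‖ ≤ Real.exp (G c y) * (4 * (1 + ‖c‖)) := by
  rcases eq_or_ne y 0 with h | h
  · rw [h, norm_zero]; positivity
  · have h1 := hb.glow c y
    have h2 : (0 : ℝ) < 4 * (1 + ‖c‖) := by positivity
    have h3 : 0 < ‖y‖ := norm_pos_iff.2 h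
    rw [← Real.exp_log h3, ← Real.exp_log h2, ← Real.exp_add, Real.exp_le_exp]
    exact h1

theorem G_iter (hb : Base G B cc) (c : ℂ) (z : ℂ) (k : ℕ) :
    G c ((f c)^[k] z) = 2 ^ k * G c z := by
  induction k with
  | zero => simp
  | succ k ih => rw [Function.iterate_succ_apply', hb.gf, ih]; ring

theorem G_per (hb : Base G B cc) (hn : 1 ≤ n) (hz : (f c)^[n] z = z) : G c z = 0 := by
  have h1 := G_iter hb c z n
  rw [hz] at h1
  have h2 : (2 : ℝ) ≤ 2 ^ n := by
    calc (2 : ℝ) = 2 ^ 1 := by norm_num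
      _ ≤ 2 ^ n := pow_le_pow_right₀ (by norm_num) hn
  have h3 := hb.gnn c z
  nlinarith

theorem yy_ne (hb : Base G B cc) (hc : c ∈ MM) (hn : 1 ≤ n) (hz : (f c)^[n] z = z) {h : ℂ}
    (hh : h ∈ HP) (k : ℕ) : yy B c n m k h ≠ z := by
  intro he
  have h1 := yy_G (n := n) (m := m) hb hc hh k
  rw [he, G_per hb hn hz] at h1
  have h2 : 0 < h.re := hh
  have h3 : 0 < h.re / 2 ^ (n * k) := by positivity
  linarith

theorem yy_bound (hb : Base G B cc) (hc : c ∈ MM) {h : ℂ} (hh : h ∈ HP) (k : ℕ) :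
    ‖yy B c n m k h‖ ≤ Real.exp h.re * (4 * (1 + ‖c‖)) := by
  refine (B_bound hb c _).trans ?_
  rw [yy_G hb hc hh]
  have h2 : 0 < h.re := hh
  have h3 : h.re / 2 ^ (n * k) ≤ h.re := by
    rw [div_le_iff₀ (by positivity)]
    have : (1 : ℝ) ≤ 2 ^ (n * k) := one_le_pow₀ (by norm_num)
    nlinarith
  have h4 := Real.exp_le_exp.2 h3
  gcongr

/-- local uniformity of the convergence, from the convergence at one point -/
theorem loc_unif (hb : Base G B cc) (hc : c ∈ MM) (hn : 1 ≤ n) (hz : (f c)^[n] z = z) {h : ℂ}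
    (hh : h ∈ HP) (hconv : Tendsto (fun k => yy B c n m k h) atTop (𝓝 z)) {e : ℝ} (he : 0 < e) :
    ∀ᶠ k in atTop, ∀ w : ℂ, ‖w - h‖ ≤ h.re / 2 → ‖yy B c n m k w - z‖ < e := by
  have hre : 0 < h.re := hh
  obtain ⟨M, hM⟩ : ∃ M : ℝ, M = Real.exp (2 * h.re) * (4 * (1 + ‖c‖)) + ‖z‖ := ⟨_, rfl⟩
  have hM0 : 0 < M := by rw [hM]; positivity
  have hball : ball h h.re ⊆ HP := by
    intro w hw
    rw [mem_ball, dist_eq_norm] at hw
    have h1 := (abs_lt.1 ((abs_re_le_norm (w - h)).trans_lt hw)).1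
    rw [sub_re] at h1
    show 0 < w.re
    linarith
  have h1 : Tendsto (fun k => M ^ 2 * ‖yy B c n m k h - z‖) atTop (𝓝 0) := by
    have h2 := (tendsto_iff_norm_sub_tendsto_zero.1 hconv).const_mul (M ^ 2)
    rwa [mul_zero] at h2
  filter_upwards [h1.eventually (gt_mem_nhds (show 0 < e ^ 3 by positivity))] with k hk w hw
  have h2 := small_half (u := fun w => yy B c n m k w - z) (M := M) hre
    (((yy_diff hb hc k).mono hball).sub_const z)
    (fun w hw => sub_ne_zero.2 (yy_ne hb hc hn hz (hball hw) k))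
    (fun w hw => by
      have h3 := yy_bound (n := n) (m := m) hb hc (hball hw) k
      have h4 : w.re ≤ 2 * h.re := by
        rw [mem_ball, dist_eq_norm] at hw
        have h5 := (abs_lt.1 ((abs_re_le_norm (w - h)).trans_lt hw)).2
        rw [sub_re] at h5
        linarith
      have h5 := Real.exp_le_exp.2 h4
      have h6 : Real.exp w.re * (4 * (1 + ‖c‖)) ≤ Real.exp (2 * h.re) * (4 * (1 + ‖c‖)) := by
        gcongr
      have h7 := norm_sub_le (yy B c n m k w) z
      rw [hM]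
      linarith) hw
  have h3 : ‖yy B c n m k w - z‖ ^ 3 < e ^ 3 := h2.trans_lt hk
  exact lt_of_pow_lt_pow_left₀ 3 he.le h3

/-- convergence at one point implies convergence everywhere -/
theorem conv_all (hb : Base G B cc) (hc : c ∈ MM) (hn : 1 ≤ n) (hz : (f c)^[n] z = z) {h₀ : ℂ}
    (hh₀ : h₀ ∈ HP) (hconv : Tendsto (fun k => yy B c n m k h₀) atTop (𝓝 z)) :
    ∀ h ∈ HP, Tendsto (fun k => yy B c n m k h) atTop (𝓝 z) := by
  obtain ⟨S, hS⟩ : ∃ S : Set ℂ, S = {h : ℂ | h ∈ HP ∧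
    Tendsto (fun k => yy B c n m k h) atTop (𝓝 z)} := ⟨_, rfl⟩
  have key : ∀ h ∈ S, ∀ w : ℂ, ‖w - h‖ < h.re / 2 → w ∈ S := by
    intro h hh w hw
    rw [hS] at hh ⊢
    obtain ⟨h1, h2⟩ := hh
    have hre : 0 < h.re := h1
    refine ⟨?_, ?_⟩
    · have h3 := (abs_lt.1 ((abs_re_le_norm (w - h)).trans_lt hw)).1
      rw [sub_re] at h3
      show 0 < w.re
      linarith
    · rw [Metric.tendsto_atTop']
      intro e he
      obtain ⟨K, hK⟩ := eventually_atTop.1 (loc_unif hb hc hn hz h1 h2 he)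
      exact ⟨K, fun k hk => by
        rw [dist_eq_norm]
        exact hK k hk.le w hw.le⟩
  have hSo : IsOpen S := by
    rw [Metric.isOpen_iff]
    intro h hh
    have hre : 0 < h.re := by
      rw [hS] at hh
      exact hh.1
    refine ⟨h.re / 2, by positivity, fun w hw => key h hh w ?_⟩
    rwa [mem_ball, dist_eq_norm] at hw
  have hpre : IsPreconnected HP := by
    have : Convex ℝ HP := by
      have h1 : HP = reCLM ⁻¹' (Ioi 0) := rfl
      rw [h1]
      exact (convex_Ioi (0 : ℝ)).linear_preimage reLm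
    exact this.isPreconnected
  have hsub : HP ⊆ S := by
    refine hpre.subset_of_closure_inter_subset hSo ⟨h₀, hh₀, ?_⟩ ?_
    · rw [hS]
      exact ⟨hh₀, hconv⟩
    · rintro w ⟨hw1, hw2⟩
      have hre : 0 < w.re := hw2
      rw [Metric.mem_closure_iff] at hw1
      obtain ⟨h, hh, hd⟩ := hw1 (w.re / 4) (by positivity)
      rw [dist_eq_norm] at hd
      refine key h hh w ?_
      have h3 := (abs_lt.1 ((abs_re_le_norm (w - h)).trans_lt hd)).2
      rw [sub_re] at h3
      linarith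
  intro h hh
  have := hsub hh
  rw [hS] at this
  exact this.2

/-! ## Existence of a branch -/

/-- points outside of the filled Julia set near a repelling point -/
theorem exists_out (hb : Base G B cc) (hz : (f c)^[n] z = z)
    (hrep : 1 < ‖mul n c z‖) {r : ℝ} (hr : 0 < r) : ∃ y ∈ ball z r, 0 < G c y := by
  by_contra hcon
  push Not at hcon
  have h0 : ∀ y ∈ ball z r, G c y = 0 := fun y hy => le_antisymm (hcon y hy) (hb.gnn c y)
  obtain ⟨M, hM⟩ : ∃ M : ℝ, M = 4 * (1 + ‖c‖) := ⟨_, rfl⟩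
  have hMb : ∀ (k : ℕ), ∀ y ∈ ball z r, ‖(f c)^[k] y‖ ≤ M := by
    intro k y hy
    have h1 := B_bound hb c ((f c)^[k] y)
    rw [G_iter hb, h0 y hy, mul_zero, Real.exp_zero, one_mul] at h1
    rw [hM]
    exact h1
  have hM0 : 0 ≤ M := by rw [hM]; positivity
  have h1 : ∀ q : ℕ, ‖mul n c z‖ ^ q ≤ M / (r / 2) := by
    intro q
    rw [← norm_pow, ← mul_iter c z n hz q]
    refine Complex.norm_deriv_le_of_forall_mem_sphere_norm_le (by positivity)
      (differentiable_iter c (n * q)).diffContOnCl (fun w hw => hMb _ w ?_)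
    rw [mem_sphere] at hw
    rw [mem_ball]
    linarith
  obtain ⟨q, hq⟩ := pow_unbounded_of_one_lt (M / (r / 2)) hrep
  exact absurd (h1 q) (not_le.2 hq)

/-- a branch exists -/
theorem exists_br (hb : Base G B cc) (hc : c ∈ MM) (hn : 1 ≤ n) (hz : (f c)^[n] z = z)
    (hrep : 1 < ‖mul n c z‖) {ρ : ℂ} {r : ℝ} {s φ : ℂ → ℂ} (hL : Lin ((f c)^[n]) z ρ r s φ) :
    ∃ m : ℕ → ℤ, Br B c z n m := by
  obtain ⟨y₀, hy₀, hG₀⟩ := exists_out hb hz hrep hL.r0
  obtain ⟨q, hq0, hq1, hcon⟩ := hL.con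
  have hs : ∀ k, s^[k] y₀ ∈ ball z r ∧ ‖s^[k] y₀ - z‖ ≤ q ^ k * r := by
    intro k
    induction k with
    | zero =>
      refine ⟨hy₀, ?_⟩
      rw [mem_ball, dist_eq_norm] at hy₀
      simp only [Function.iterate_zero, id_eq, pow_zero, one_mul]
      exact hy₀.le
    | succ k ih =>
      rw [Function.iterate_succ_apply']
      have h1 := hcon _ ih.1
      have h2 : ‖s^[k] y₀ - z‖ < r := by
        have := ih.1
        rwa [mem_ball, dist_eq_norm] at this
      refine ⟨?_, ?_⟩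
      · rw [mem_ball, dist_eq_norm]
        have := norm_nonneg (s^[k] y₀ - z)
        nlinarith
      · calc ‖s (s^[k] y₀) - z‖ ≤ q * ‖s^[k] y₀ - z‖ := h1
          _ ≤ q * (q ^ k * r) := by gcongr; exact ih.2
          _ = _ := by ring
  have hgs : ∀ k, (f c)^[n] (s^[k + 1] y₀) = s^[k] y₀ := by
    intro k
    rw [Function.iterate_succ_apply']
    exact hL.gs _ (hs k).1
  have hGk : ∀ k, G c (s^[k] y₀) * 2 ^ (n * k) = G c y₀ := by
    intro k
    induction k with
    | zero => simp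
    | succ k ih =>
      have h1 := G_iter hb c (s^[k + 1] y₀) n
      rw [hgs k] at h1
      rw [← ih, h1, mul_add, mul_one, pow_add]
      ring
  have hGpos : ∀ k, 0 < G c (s^[k] y₀) := by
    intro k
    have h1 := hGk k
    by_contra hcon
    push Not at hcon
    have h2 : G c (s^[k] y₀) * 2 ^ (n * k) ≤ 0 := mul_nonpos_of_nonpos_of_nonneg hcon (by positivity)
    linarith
  have hGc : G c c = 0 := (hb.gM c).2 hc
  have hη : ∀ k, ∃ η : ℂ, η ∈ HP ∧ B c η = s^[k] y₀ := by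
    intro k
    obtain ⟨ξ, h1, h2⟩ := hb.bsurj c (s^[k] y₀) (by rw [hGc]; linarith [hGpos k])
    refine ⟨ξ, ?_, h2⟩
    show 0 < ξ.re
    rw [h1]
    exact hGpos k
  choose η hη1 hη2 using hη
  -- the integers
  have hmul : ∀ (k : ℕ) {ξ : ℂ}, ξ ∈ HP → (2 : ℂ) ^ k * ξ ∈ HP := by
    intro k ξ hξ
    show 0 < ((2 : ℂ) ^ k * ξ).re
    have h1 : ((2 : ℂ) ^ k * ξ).re = 2 ^ k * ξ.re := by
      have : ((2 : ℂ) ^ k) = ((2 ^ k : ℝ) : ℂ) := by push_cast; rfl
      rw [this, re_ofReal_mul]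
    rw [h1]
    have : 0 < ξ.re := hξ
    positivity
  have hm : ∀ k, ∃ a : ℤ, 2 ^ (n * k) * η k = η 0 + a * tpi := by
    intro k
    have h1 : (f c)^[n * k] (s^[k] y₀) = y₀ := by
      induction k with
      | zero => simp
      | succ k ih =>
        rw [mul_add, mul_one, Function.iterate_add_apply, hgs k]
        exact ih
    have h2 : B c (2 ^ (n * k) * η k) = B c (η 0) := by
      rw [← iter_B hb hc (hη1 k), hη2, h1, hη2 0]
      simp
    obtain ⟨a, ha⟩ := hb.binj c _ _ (GM hb hc (hη1 0)) (GM hb hc (hmul (n * k) (hη1 k))) h2.symm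
    exact ⟨a, ha⟩
  choose m hm using hm
  have h2ne : ∀ k : ℕ, (2 : ℂ) ^ k ≠ 0 := fun k => pow_ne_zero _ two_ne_zero
  have hyy : ∀ k, yy B c n m k (η 0) = s^[k] y₀ := by
    intro k
    unfold yy
    rw [← hm k, mul_div_cancel_left₀ _ (h2ne _), hη2]
  refine ⟨m, ⟨fun k => ?_, conv_all hb hc hn hz (hη1 0) ?_⟩⟩
  · have h1 : B c (2 ^ n * η (k + 1)) = B c (η k) := by
      rw [← iter_B hb hc (hη1 (k + 1)), hη2, hgs k, hη2]
    obtain ⟨l, hl⟩ := hb.binj c _ _ (GM hb hc (hη1 k)) (GM hb hc (hmul n (hη1 (k + 1)))) h1.symm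
    refine ⟨l, ?_⟩
    have h3 : (2 : ℂ) ^ (n * (k + 1)) * η (k + 1) = η 0 + (m k + 2 ^ (n * k) * l : ℤ) * tpi := by
      rw [mul_add, mul_one, pow_add, mul_assoc, hl, mul_add, hm k]
      push_cast
      ring
    rw [hm (k + 1)] at h3
    have h4 := add_left_cancel h3
    have h5 := mul_right_cancel₀ tpi_ne h4
    exact_mod_cast h5
  · have h1 : Tendsto (fun k => s^[k] y₀) atTop (𝓝 z) := by
      rw [tendsto_iff_norm_sub_tendsto_zero]
      have h2 : Tendsto (fun k : ℕ => q ^ k * r) atTop (𝓝 0) := by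
        have := (tendsto_pow_atTop_nhds_zero_of_lt_one hq0.le hq1).mul_const r
        rwa [zero_mul] at this
      exact squeeze_zero (fun k => norm_nonneg _) (fun k => (hs k).2) h2
    exact h1.congr fun k => (hyy k).symm

end Pool.Agent.KS6_23.ML.DltA
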