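import Pool.Agent.KS6_23.ML.DltA

/-!
# Project ML, module 13 (DLT), part B: the univalent function of a backward branch
-/

set_option autoImplicit false

open Complex Set Filter Metric Topology MeasureTheory

namespace Pool.Agent.KS6_23.ML.DltB

open Pool.Agent.KS6_23.ML Koenigs SecTools Basic DltA

variable {G : ℂ → ℂ → ℝ} {B : ℂ → ℂ → ℂ} {cc : ℂ → ℂ} {c z ρ : ℂ} {n : ℕ} {m : ℕ → ℤ} {r : ℝ}
  {s φ : ℂ → ℂ}

/-- The situation: a repelling periodic point `z` of `f c`, `c ∈ M`, its linearisation, a backward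
branch. -/
structure Sit (G : ℂ → ℂ → ℝ) (B : ℂ → ℂ → ℂ) (cc : ℂ → ℂ) (c z ρ : ℂ) (n : ℕ) (m : ℕ → ℤ) (r : ℝ)
    (s φ : ℂ → ℂ) : Prop where
  hb : Base G B cc
  hc : c ∈ MM
  hn : 1 ≤ n
  hz : (f c)^[n] z = z
  hρ : 1 < ‖ρ‖
  hL : Lin ((f c)^[n]) z ρ r s φ
  hB : Br B c z n m

/-- the univalent function -/
noncomputable def WW (B : ℂ → ℂ → ℂ) (c ρ : ℂ) (n : ℕ) (m : ℕ → ℤ) (φ : ℂ → ℂ) (h : ℂ) : ℂ :=
  limUnder atTop (fun k : ℕ => ρ ^ k * φ (yy B c n m k h))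

/-- the orbit of `h` is in the disc from the time `k` on -/
def In (B : ℂ → ℂ → ℂ) (c z : ℂ) (n : ℕ) (m : ℕ → ℤ) (r : ℝ) (h : ℂ) (k : ℕ) : Prop :=
  ∀ j, k ≤ j → yy B c n m j h ∈ ball z r

theorem In.mono {h : ℂ} {k k' : ℕ} (H : In B c z n m r h k) (hk : k ≤ k') :
    In B c z n m r h k' := fun j hj => H j (hk.trans hj)

theorem Sit.ρ0 (S : Sit G B cc c z ρ n m r s φ) : ρ ≠ 0 := by
  intro h
  have := S.hρ
  rw [h, norm_zero] at this
  linarith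

/-- locally uniform entrance -/
theorem Sit.unif (S : Sit G B cc c z ρ n m r s φ) {h : ℂ} (hh : h ∈ HP) {e : ℝ} (he : 0 < e) :
    ∃ k : ℕ, ∀ w : ℂ, ‖w - h‖ ≤ h.re / 2 → In B c z n m e w k := by
  obtain ⟨k, hk⟩ := eventually_atTop.1 (loc_unif S.hb S.hc S.hn S.hz hh (S.hB.conv h hh) he)
  refine ⟨k, fun w hw j hj => ?_⟩
  rw [mem_ball, dist_eq_norm]
  exact hk j hj w hw

theorem Sit.ent (S : Sit G B cc c z ρ n m r s φ) {h : ℂ} (hh : h ∈ HP) {e : ℝ} (he : 0 < e) :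
    ∃ k : ℕ, In B c z n m e h k := by
  obtain ⟨k, hk⟩ := S.unif hh he
  have hre : 0 < h.re := hh
  exact ⟨k, hk h (by rw [sub_self, norm_zero]; positivity)⟩

theorem Sit.step (S : Sit G B cc c z ρ n m r s φ) {h : ℂ} (hh : h ∈ HP) {k : ℕ}
    (hk : In B c z n m r h k) :
    ρ ^ (k + 1) * φ (yy B c n m (k + 1) h) = ρ ^ k * φ (yy B c n m k h) := by
  have h1 := yy_g S.hb S.hc (S.hB.comp k) hh
  have h2 := hk k le_rfl
  have h3 := hk (k + 1) (by omega)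
  have h4 := S.hL.sg _ h3 (by rw [h1]; exact h2)
  rw [h1] at h4
  have h5 := S.hL.φs _ h2
  rw [h4] at h5
  rw [h5, pow_succ]
  ring

theorem Sit.const (S : Sit G B cc c z ρ n m r s φ) {h : ℂ} (hh : h ∈ HP) {k : ℕ}
    (hk : In B c z n m r h k) : ∀ j, k ≤ j →
    ρ ^ j * φ (yy B c n m j h) = ρ ^ k * φ (yy B c n m k h) := by
  intro j hj
  induction j, hj using Nat.le_induction with
  | base => rfl
  | succ j hj ih => rw [S.step hh (hk.mono hj), ih]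

theorem Sit.eq (S : Sit G B cc c z ρ n m r s φ) {h : ℂ} (hh : h ∈ HP) {k : ℕ}
    (hk : In B c z n m r h k) : WW B c ρ n m φ h = ρ ^ k * φ (yy B c n m k h) := by
  unfold WW
  refine Tendsto.limUnder_eq ?_
  refine tendsto_const_nhds.congr' ?_
  filter_upwards [eventually_ge_atTop k] with j hj
  exact (S.const hh hk j hj).symm

theorem HP_open : IsOpen HP := isOpen_lt continuous_const continuous_re

theorem ball_HP {h : ℂ} (hh : h ∈ HP) : ball h (h.re / 2) ⊆ HP := by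
  intro w hw
  have hre : 0 < h.re := hh
  rw [mem_ball, dist_eq_norm] at hw
  have h1 := (abs_lt.1 ((abs_re_le_norm (w - h)).trans_lt hw)).1
  rw [sub_re] at h1
  show 0 < w.re
  linarith

theorem Sit.diff (S : Sit G B cc c z ρ n m r s φ) :
    DifferentiableOn ℂ (WW B c ρ n m φ) HP := by
  intro h hh
  have hre : 0 < h.re := hh
  obtain ⟨k, hk⟩ := S.unif hh S.hL.r0
  have h1 : ∀ᶠ w in 𝓝 h, WW B c ρ n m φ w = ρ ^ k * φ (yy B c n m k w) := by
    filter_upwards [ball_mem_nhds h (show 0 < h.re / 2 by positivity)] with w hw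
    have hw' := hw
    rw [mem_ball, dist_eq_norm] at hw'
    exact S.eq (ball_HP hh hw) (hk w hw'.le)
  have h2 : DifferentiableAt ℂ (fun w => ρ ^ k * φ (yy B c n m k w)) h := by
    have h3 : DifferentiableAt ℂ (yy B c n m k) h :=
      (yy_diff S.hb S.hc k).differentiableAt (HP_open.mem_nhds hh)
    have h4 : yy B c n m k h ∈ ball z r :=
      hk h (by rw [sub_self, norm_zero]; positivity) k le_rfl
    have h5 : DifferentiableAt ℂ φ (yy B c n m k h) :=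
      S.hL.φd.differentiableAt (isOpen_ball.mem_nhds h4)
    exact (h5.comp h h3).const_mul _
  exact (h2.congr_of_eventuallyEq h1).differentiableWithinAt

theorem Sit.ne (S : Sit G B cc c z ρ n m r s φ) {h : ℂ} (hh : h ∈ HP) :
    WW B c ρ n m φ h ≠ 0 := by
  obtain ⟨k, hk⟩ := S.ent hh S.hL.r0
  rw [S.eq hh hk]
  refine mul_ne_zero (pow_ne_zero _ S.ρ0) ?_
  intro h1
  rw [← S.hL.φz] at h1
  exact yy_ne S.hb S.hc S.hn S.hz hh k
    (S.hL.φi (hk k le_rfl) (mem_ball_self S.hL.r0) h1)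

theorem mul_HP {h : ℂ} (hh : h ∈ HP) (k : ℕ) (a : ℤ) : 2 ^ k * h + a * tpi ∈ HP := by
  show 0 < (2 ^ k * h + a * tpi).re
  have h1 : ((2 : ℂ) ^ k * h).re = 2 ^ k * h.re := by
    have : ((2 : ℂ) ^ k) = ((2 ^ k : ℝ) : ℂ) := by push_cast; rfl
    rw [this, re_ofReal_mul]
  rw [add_re, int_mul_tpi_re, add_zero, h1]
  have : 0 < h.re := hh
  positivity

/-- **Coincidences.** -/
theorem Sit.coin (S : Sit G B cc c z ρ n m r s φ) {i : ℕ} {h₁ h₂ : ℂ} (hh₁ : h₁ ∈ HP)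
    (hh₂ : h₂ ∈ HP) (he : ρ ^ i * WW B c ρ n m φ h₁ = WW B c ρ n m φ h₂) :
    ∃ M : ℤ, h₂ = 2 ^ (n * i) * h₁ + M * tpi ∧
      (∀ᶠ k in atTop, ∃ l : ℤ, M = 2 ^ (n * i) * m k - m (k + i) + 2 ^ (n * (k + i)) * l) ∧
      ∀ᶠ k in atTop, ∀ h ∈ HP,
        yy B c n m (k + i) (2 ^ (n * i) * h + M * tpi) = yy B c n m k h := by
  obtain ⟨k₁, hk₁⟩ := S.ent hh₁ S.hL.r0
  obtain ⟨k₂, hk₂⟩ := S.ent hh₂ S.hL.r0
  have h2ne : ∀ k : ℕ, (2 : ℂ) ^ k ≠ 0 := fun k => pow_ne_zero _ two_ne_zero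
  have key : ∀ k, max k₁ k₂ ≤ k → ∃ l : ℤ, h₂ + m (k + i) * tpi =
      2 ^ (n * i) * (h₁ + m k * tpi) + 2 ^ (n * (k + i)) * l * tpi := by
    intro k hk
    have e1 := S.eq hh₁ (hk₁.mono ((le_max_left _ _).trans hk))
    have e2 := S.eq hh₂ (hk₂.mono (((le_max_right _ _).trans hk).trans (Nat.le_add_right k i)))
    rw [e1, e2, ← mul_assoc, ← pow_add, add_comm i k] at he
    have e3 := mul_left_cancel₀ (pow_ne_zero _ S.ρ0) he
    have e4 := S.hL.φi (hk₁ k ((le_max_left _ _).trans hk))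
      (hk₂ (k + i) (((le_max_right _ _).trans hk).trans (Nat.le_add_right k i))) e3
    unfold yy at e4
    obtain ⟨l, hl⟩ := S.hb.binj c _ _ (GM S.hb S.hc (arg_mem hh₁ _ _))
      (GM S.hb S.hc (arg_mem hh₂ _ _)) e4
    refine ⟨l, ?_⟩
    rw [div_eq_iff (h2ne _)] at hl
    rw [hl, mul_add n k i, pow_add]
    have := h2ne (n * k)
    field_simp
  obtain ⟨l₀, hl₀⟩ := key _ le_rfl
  obtain ⟨k₀, hk₀⟩ : ∃ k₀, k₀ = max k₁ k₂ := ⟨_, rfl⟩
  rw [← hk₀] at hl₀ key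
  obtain ⟨M, hM⟩ : ∃ M : ℤ, M = 2 ^ (n * i) * m k₀ - m (k₀ + i) + 2 ^ (n * (k₀ + i)) * l₀ :=
    ⟨_, rfl⟩
  have hh : h₂ = 2 ^ (n * i) * h₁ + M * tpi := by
    rw [hM]
    push_cast
    linear_combination hl₀
  have hall : ∀ k, k₀ ≤ k → ∃ l : ℤ, M = 2 ^ (n * i) * m k - m (k + i) + 2 ^ (n * (k + i)) * l := by
    intro k hk
    obtain ⟨l, hl⟩ := key k hk
    refine ⟨l, ?_⟩
    have h1 : ((M : ℤ) : ℂ) * tpi =
        ((2 ^ (n * i) * m k - m (k + i) + 2 ^ (n * (k + i)) * l : ℤ) : ℂ) * tpi := by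
      rw [hh] at hl
      push_cast
      linear_combination hl
    exact_mod_cast mul_right_cancel₀ tpi_ne h1
  refine ⟨M, hh, eventually_atTop.2 ⟨k₀, hall⟩, eventually_atTop.2 ⟨k₀, ?_⟩⟩
  intro k hk h hh'
  obtain ⟨l, hl⟩ := hall k hk
  unfold yy
  rw [← bper_int S.hb (GM S.hb S.hc (arg_mem hh' (n * k) (m k))) l]
  congr 1
  rw [hl, mul_add n k i, pow_add]
  have h3 := h2ne (n * k)
  have h4 := h2ne (n * i)
  push_cast
  field_simp
  ring

/-- the functional equation, from one coincidence -/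
theorem Sit.func (S : Sit G B cc c z ρ n m r s φ) {i : ℕ} {M : ℤ}
    (hM : ∀ᶠ k in atTop, ∀ h ∈ HP,
        yy B c n m (k + i) (2 ^ (n * i) * h + M * tpi) = yy B c n m k h) {h : ℂ} (hh : h ∈ HP) :
    ρ ^ i * WW B c ρ n m φ h = WW B c ρ n m φ (2 ^ (n * i) * h + M * tpi) := by
  obtain ⟨k₀, hk₀⟩ := eventually_atTop.1 hM
  obtain ⟨k₁, hk₁⟩ := S.ent hh S.hL.r0
  obtain ⟨k₂, hk₂⟩ := S.ent (mul_HP hh (n * i) M) S.hL.r0
  obtain ⟨k, hk⟩ : ∃ k, k = max k₀ (max k₁ k₂) := ⟨_, rfl⟩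
  have h0 : k₀ ≤ k := by rw [hk]; exact le_max_left _ _
  have h1 : k₁ ≤ k := by rw [hk]; exact (le_max_left _ _).trans (le_max_right _ _)
  have h2 : k₂ ≤ k := by rw [hk]; exact (le_max_right _ _).trans (le_max_right _ _)
  rw [S.eq hh (hk₁.mono h1), S.eq (mul_HP hh (n * i) M) (hk₂.mono (h2.trans (Nat.le_add_right k i))),
    hk₀ k h0 h hh, pow_add]
  ring

/-- the function is injective -/
theorem Sit.inj (S : Sit G B cc c z ρ n m r s φ) {h₁ h₂ : ℂ} (hh₁ : h₁ ∈ HP) (hh₂ : h₂ ∈ HP)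
    (he : WW B c ρ n m φ h₁ = WW B c ρ n m φ h₂) : h₁ = h₂ := by
  obtain ⟨M, h1, h2, -⟩ := S.coin (i := 0) hh₁ hh₂ (by rw [pow_zero, one_mul]; exact he)
  obtain ⟨k₀, hk₀⟩ := eventually_atTop.1 h2
  obtain ⟨k, hk⟩ : ∃ k, k = max k₀ M.natAbs := ⟨_, rfl⟩
  obtain ⟨l, hl⟩ := hk₀ k (by rw [hk]; exact le_max_left _ _)
  simp only [mul_zero, pow_zero, one_mul, add_zero, sub_self, zero_add] at hl
  have hn := S.hn
  have h3 : M = 0 := by
    by_contra hM0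
    have h4 : (2 ^ (n * k) : ℤ) ∣ M := ⟨l, hl⟩
    have h5 : (2 ^ (n * k) : ℕ) ∣ M.natAbs := by
      have := Int.natAbs_dvd_natAbs.2 h4
      simpa [Int.natAbs_pow] using this
    have h6 := Nat.le_of_dvd (Int.natAbs_pos.2 hM0) h5
    have h7 : M.natAbs ≤ k := by rw [hk]; exact le_max_right _ _
    have h8 : k < 2 ^ k := Nat.lt_two_pow_self
    have h9 : 2 ^ k ≤ 2 ^ (n * k) := Nat.pow_le_pow_right (by norm_num) (by nlinarith)
    omega
  rw [h3] at h1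
  simpa using h1.symm

/-- **The growth.** -/
theorem Sit.growth (S : Sit G B cc c z ρ n m r s φ) :
    ∃ A C₀ C₁ : ℝ, 0 < A ∧ 0 < C₀ ∧ ∀ h : ℂ, C₀ < h.re →
      A * Real.log h.re - C₁ ≤ Real.log ‖WW B c ρ n m φ h‖ := by
  have hr := S.hL.r0
  have hρ := S.hρ
  have hn := S.hn
  have hℓ : 0 < Real.log ‖ρ‖ := Real.log_pos hρ
  have hl2 : 0 < Real.log 2 := Real.log_pos (by norm_num)
  have hn0 : (0 : ℝ) < n := by exact_mod_cast hn
  -- the bound of `G`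
  have hGc : Continuous (G c) := S.hb.gcont.comp (Continuous.prodMk_right c)
  obtain ⟨C₀', hC₀'⟩ := (isCompact_closedBall z (r / 2)).bddAbove_image hGc.continuousOn
  obtain ⟨C₀, hC₀⟩ : ∃ C₀ : ℝ, C₀ = max 1 C₀' := ⟨_, rfl⟩
  have hC₀1 : 1 ≤ C₀ := by rw [hC₀]; exact le_max_left _ _
  have hC₀0 : 0 < C₀ := by linarith
  have hGb : ∀ y ∈ ball z (r / 2), G c y ≤ C₀ := by
    intro y hy
    have h1 := hC₀' ⟨y, ball_subset_closedBall hy, rfl⟩
    rw [hC₀]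
    exact h1.trans (le_max_right _ _)
  -- the lower bound of `φ`
  have hgc : Continuous ((f c)^[n]) := (differentiable_iter c n).continuous
  obtain ⟨r₃, hr₃, hr₃b⟩ := Metric.continuousAt_iff.1 (hgc.continuousAt (x := z)) (r / 2)
    (half_pos hr)
  rw [S.hz] at hr₃b
  have hcomp : IsCompact (closedBall z (r / 2) \ ball z r₃) :=
    (isCompact_closedBall z (r / 2)).diff isOpen_ball
  have hsub : closedBall z (r / 2) \ ball z r₃ ⊆ ball z r :=
    diff_subset.trans (closedBall_subset_ball (by linarith))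
  have hφc : ContinuousOn φ (closedBall z (r / 2) \ ball z r₃) := S.hL.φd.continuousOn.mono hsub
  obtain ⟨c₁, hc₁, hc₁b⟩ : ∃ c₁ : ℝ, 0 < c₁ ∧
      ∀ y ∈ closedBall z (r / 2) \ ball z r₃, c₁ ≤ ‖φ y‖ := by
    rcases (closedBall z (r / 2) \ ball z r₃).eq_empty_or_nonempty with hE | hE
    · exact ⟨1, one_pos, fun y hy => by rw [hE] at hy; exact absurd hy (notMem_empty y)⟩
    · obtain ⟨y₀, hy₀, hmin⟩ := hcomp.exists_isMinOn hE hφc.norm
      refine ⟨‖φ y₀‖, ?_, fun y hy => hmin hy⟩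
      rw [norm_pos_iff]
      intro h0
      rw [← S.hL.φz] at h0
      have h1 := S.hL.φi (hsub hy₀) (mem_ball_self hr) h0
      exact hy₀.2 (by rw [h1]; exact mem_ball_self hr₃)
  refine ⟨Real.log ‖ρ‖ / (n * Real.log 2), C₀,
    Real.log ‖ρ‖ / (n * Real.log 2) * Real.log C₀ - Real.log c₁, by positivity, hC₀0, ?_⟩
  intro h hh
  have hre : 0 < h.re := by linarith
  have hhp : h ∈ HP := hre
  -- the last entrance
  classical
  have hex := S.ent hhp (half_pos hr)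
  obtain ⟨k, hk⟩ : ∃ k, k = Nat.find hex := ⟨_, rfl⟩
  have hk1 : In B c z n m (r / 2) h k := by rw [hk]; exact Nat.find_spec hex
  have hG := fun j => yy_G (n := n) (m := m) S.hb S.hc hhp j
  have hk0 : k ≠ 0 := by
    intro h0
    have h1 := hGb _ (hk1 k le_rfl)
    rw [hG k, h0, mul_zero, pow_zero, div_one] at h1
    linarith
  obtain ⟨j, rfl⟩ : ∃ j, k = j + 1 := ⟨k - 1, by omega⟩
  have hj : yy B c n m j h ∉ ball z (r / 2) := by
    intro h1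
    have h2 : In B c z n m (r / 2) h j := by
      intro i hi
      rcases eq_or_lt_of_le hi with h3 | h3
      · rw [← h3]; exact h1
      · exact hk1 i h3
    have h3 : ¬ In B c z n m (r / 2) h j := Nat.find_min hex (by omega)
    exact h3 h2
  have hy3 : yy B c n m (j + 1) h ∉ ball z r₃ := by
    intro h1
    have h2 := hr₃b (mem_ball.1 h1)
    rw [yy_g S.hb S.hc (S.hB.comp j) hhp] at h2
    exact hj (mem_ball.2 h2)
  have hφ := hc₁b _ ⟨ball_subset_closedBall (hk1 (j + 1) le_rfl), hy3⟩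
  have hIn : In B c z n m r h (j + 1) := fun i hi =>
    ball_subset_ball (by linarith) (hk1 i hi)
  rw [S.eq hhp hIn, norm_mul, norm_pow]
  have hφ0 : 0 < ‖φ (yy B c n m (j + 1) h)‖ := hc₁.trans_le hφ
  rw [Real.log_mul (by positivity) hφ0.ne', Real.log_pow]
  have h1 : Real.log c₁ ≤ Real.log ‖φ (yy B c n m (j + 1) h)‖ := Real.log_le_log hc₁ hφ
  have h2 : Real.log h.re ≤ Real.log C₀ + ((j + 1 : ℕ) : ℝ) * (n * Real.log 2) := by
    have h3 := hGb _ (hk1 (j + 1) le_rfl)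
    rw [hG (j + 1), div_le_iff₀ (by positivity)] at h3
    have h4 := Real.log_le_log hre h3
    rw [Real.log_mul hC₀0.ne' (by positivity), Real.log_pow] at h4
    push_cast at h4 ⊢
    linarith
  have h5 : Real.log ‖ρ‖ / (n * Real.log 2) * Real.log h.re ≤
      Real.log ‖ρ‖ / (n * Real.log 2) * (Real.log C₀ + ((j + 1 : ℕ) : ℝ) * (n * Real.log 2)) := by
    gcongr
  have h6 : Real.log ‖ρ‖ / (n * Real.log 2) * (Real.log C₀ + ((j + 1 : ℕ) : ℝ) * (n * Real.log 2)) =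
      Real.log ‖ρ‖ / (n * Real.log 2) * Real.log C₀ + ((j + 1 : ℕ) : ℝ) * Real.log ‖ρ‖ := by
    field_simp
  linarith

end Pool.Agent.KS6_23.ML.DltB
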