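import Pool.Agent.KS6_23.ML.DltB
import Pool.Agent.KS6_23.ML.GL

/-!
# Project ML, module 13 (DLT), part C: a coincidence exists, by a comparison of areas
-/

set_option autoImplicit false

open Complex Set Filter Metric Topology MeasureTheory

namespace Pool.Agent.KS6_23.ML.DltC

open Pool.Agent.KS6_23.ML Koenigs SecTools Basic DltA DltB
open Pool.Agent.KS6_23.ML.GL (Rc isCompact_Rc volume_Rc integral_Rc upper le_of_all)

/-- lower bound of the area, from the increments of the real part -/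
theorem lower {g : ℂ → ℂ} {U : Set ℂ} (hU : IsOpen U) (hg : DifferentiableOn ℂ g U) {a b α : ℝ}
    (hab : a ≤ b) (hα : 0 ≤ α) (hsub : Rc a b (-α) α ⊆ U) (κ E : ℝ) (hκ : 0 ≤ κ)
    (hE : ∀ y ∈ Icc (-α) α, E ≤ (g (b + y * I)).re - (g (a + y * I)).re) :
    2 * α * (2 * κ * E - κ ^ 2 * (b - a)) ≤ ∫ u in Rc a b (-α) α, ‖deriv g u‖ ^ 2 := by
  have hcd : -α ≤ α := by linarith
  have hg' : DifferentiableOn ℂ (deriv g) U := hg.deriv hU
  have hc' : ContinuousOn (deriv g) (Rc a b (-α) α) := hg'.continuousOn.mono hsub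
  have hcomp := isCompact_Rc a b (-α) α
  -- the integral of the derivative
  have h1 : ∫ u in Rc a b (-α) α, deriv g u = ∫ y in (-α)..α, (g (b + y * I) - g (a + y * I)) := by
    rw [integral_Rc hab hcd _ hc']
    refine intervalIntegral.integral_congr fun y hy => ?_
    rw [uIcc_of_le hcd] at hy
    have hmem : ∀ x ∈ uIcc a b, ((x : ℂ) + y * I) ∈ Rc a b (-α) α := by
      intro x hx
      rw [uIcc_of_le hab] at hx
      simp only [Rc, Complex.mem_reProdIm]
      simpa using ⟨hx, hy⟩
    have hder : ∀ x ∈ uIcc a b, HasDerivAt (fun x : ℝ => g (x + y * I)) (deriv g (x + y * I)) x := by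
      intro x hx
      have hd : HasDerivAt g (deriv g (x + y * I)) (x + y * I) :=
        ((hg _ (hsub (hmem x hx))).differentiableAt (hU.mem_nhds (hsub (hmem x hx)))).hasDerivAt
      have h2 : HasDerivAt (fun x : ℝ => (x : ℂ) + y * I) 1 x :=
        (Complex.ofRealCLM.hasDerivAt (x := x)).add_const _
      have h3 := hd.scomp x h2
      rw [one_smul] at h3
      exact h3
    exact intervalIntegral.integral_eq_sub_of_hasDerivAt hder
      ((hc'.comp (by fun_prop) hmem).intervalIntegrable)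
  have hLc : ContinuousOn (fun y : ℝ => g (b + y * I) - g (a + y * I)) (uIcc (-α) α) := by
    rw [uIcc_of_le hcd]
    refine ContinuousOn.sub ?_ ?_
    · refine (hg.continuousOn.mono hsub).comp (by fun_prop) ?_
      intro y hy
      simp only [Rc, Complex.mem_reProdIm]
      simpa using ⟨hab, hy⟩
    · refine (hg.continuousOn.mono hsub).comp (by fun_prop) ?_
      intro y hy
      simp only [Rc, Complex.mem_reProdIm]
      simpa using ⟨hab, hy⟩
  have h3 : 2 * α * E ≤ (∫ u in Rc a b (-α) α, deriv g u).re := by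
    rw [h1]
    have h4 : (∫ y in (-α)..α, (g (b + y * I) - g (a + y * I))).re =
        ∫ y in (-α)..α, ((g (b + y * I) - g (a + y * I)).re) := by
      have h5 := intervalIntegral.intervalIntegral_eq_integral_uIoc
        (fun y : ℝ => g (b + y * I) - g (a + y * I)) (-α) α volume
      have h6 := Complex.reCLM.intervalIntegral_comp_comm (hLc.intervalIntegrable (μ := volume))
      simpa using h6.symm
    rw [h4]
    have h5 : ∫ y in (-α)..α, E ≤ ∫ y in (-α)..α, ((g (b + y * I) - g (a + y * I)).re) := by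
      refine intervalIntegral.integral_mono_on hcd (by simp) ?_ ?_
      · exact (Complex.continuous_re.comp_continuousOn hLc).intervalIntegrable
      · intro y hy
        rw [Complex.sub_re]
        exact hE y hy
    rw [intervalIntegral.integral_const, smul_eq_mul] at h5
    linarith
  -- the area of the rectangle
  have h6 : (volume.real (Rc a b (-α) α)) = 2 * α * (b - a) := by
    rw [measureReal_def, volume_Rc, ENNReal.toReal_mul, ENNReal.toReal_ofReal (by linarith),
      ENNReal.toReal_ofReal (by linarith)]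
    ring
  -- expand the square
  have i1 : IntegrableOn (fun u => ‖deriv g u‖ ^ 2) (Rc a b (-α) α) :=
    (hc'.norm.pow 2).integrableOn_compact hcomp
  have i2 : IntegrableOn (deriv g) (Rc a b (-α) α) := hc'.integrableOn_compact hcomp
  have i4 : IntegrableOn (fun u => (deriv g u).re) (Rc a b (-α) α) := i2.re
  have i5 : IntegrableOn (fun _ : ℂ => κ ^ 2) (Rc a b (-α) α) :=
    integrableOn_const (by rw [volume_Rc]; exact ENNReal.mul_ne_top (by simp) (by simp))
  have h7 : ∫ u in Rc a b (-α) α, (2 * κ * (deriv g u).re - κ ^ 2) ≤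
      ∫ u in Rc a b (-α) α, ‖deriv g u‖ ^ 2 := by
    refine integral_mono ((i4.const_mul (2 * κ)).sub i5) i1 fun u => ?_
    have h8 : 0 ≤ ‖deriv g u - κ‖ ^ 2 := by positivity
    rw [← Complex.normSq_eq_norm_sq] at h8
    simp only [← Complex.normSq_eq_norm_sq]
    simp only [Complex.normSq_apply, Complex.sub_re, Complex.sub_im, Complex.ofReal_re,
      Complex.ofReal_im] at h8 ⊢
    nlinarith
  have h9 : ∫ u in Rc a b (-α) α, (2 * κ * (deriv g u).re - κ ^ 2) =
      2 * κ * (∫ u in Rc a b (-α) α, deriv g u).re - κ ^ 2 * (2 * α * (b - a)) := by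
    rw [integral_sub (i4.const_mul (2 * κ)) i5, integral_const_mul, setIntegral_const, h6,
      smul_eq_mul]
    have h10 : ∫ u in Rc a b (-α) α, (deriv g u).re =
        (∫ u in Rc a b (-α) α, deriv g u).re := by
      have := integral_re (𝕜 := ℂ) i2
      simpa using this
    rw [h10]
    ring
  rw [h9] at h7
  have h11 : 2 * κ * (2 * α * E) ≤ 2 * κ * (∫ u in Rc a b (-α) α, deriv g u).re := by gcongr
  linarith

variable {G : ℂ → ℂ → ℝ} {B : ℂ → ℂ → ℂ} {cc : ℂ → ℂ} {c z ρ : ℂ} {n : ℕ} {m : ℕ → ℤ} {r : ℝ}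
  {s φ : ℂ → ℂ}

theorem convex_HP : Convex ℝ HP := by
  have h1 : HP = reCLM ⁻¹' (Ioi 0) := rfl
  rw [h1]
  exact (convex_Ioi (0 : ℝ)).linear_preimage reLm

/-- the strip -/
def T : Set ℂ := {u : ℂ | |u.im| < Real.pi / 2}

theorem T_open : IsOpen T := isOpen_lt (continuous_abs.comp Complex.continuous_im) continuous_const

theorem exp_T {u : ℂ} (hu : u ∈ T) : exp u ∈ HP := by
  show 0 < (exp u).re
  rw [exp_re]
  have h1 : |u.im| < Real.pi / 2 := hu
  have h2 := abs_lt.1 h1
  have h3 : 0 < Real.cos u.im := Real.cos_pos_of_mem_Ioo ⟨h2.1, h2.2⟩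
  positivity

/-- **A coincidence exists.** -/
theorem exists_coin (S : Sit G B cc c z ρ n m r s φ) : ∃ i : ℕ, 1 ≤ i ∧ ∃ h₁ ∈ HP, ∃ h₂ ∈ HP,
    ρ ^ i * WW B c ρ n m φ h₁ = WW B c ρ n m φ h₂ := by
  by_contra hno
  push Not at hno
  have hρ := S.hρ
  have hℓ0 : 0 < Real.log ‖ρ‖ := Real.log_pos hρ
  obtain ⟨ℓ, hℓ⟩ : ∃ ℓ, ℓ = Real.log ‖ρ‖ := ⟨_, rfl⟩
  rw [← hℓ] at hℓ0
  have h1mem : (1 : ℂ) ∈ HP := by show 0 < (1 : ℂ).re; simp
  obtain ⟨F, hF, hF2⟩ := exists_log convex_HP ⟨1, h1mem⟩ HP_open S.diff (fun h hh => S.ne hh)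
  obtain ⟨L, hL⟩ : ∃ L, L = Complex.log ρ := ⟨_, rfl⟩
  have hLre : L.re = ℓ := by rw [hL, Complex.log_re, hℓ]
  have hexpL : exp L = ρ := by rw [hL, Complex.exp_log S.ρ0]
  obtain ⟨g, hg⟩ : ∃ g : ℂ → ℂ, g = fun u => F (exp u) := ⟨_, rfl⟩
  have hgd : DifferentiableOn ℂ g T := by
    rw [hg]
    exact hF.comp Complex.differentiable_exp.differentiableOn (fun u hu => exp_T hu)
  have hgre : ∀ u ∈ T, (g u).re = Real.log ‖WW B c ρ n m φ (exp u)‖ := by
    intro u hu
    rw [← hF2 _ (exp_T hu), norm_exp, Real.log_exp, hg]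
  have hπ := Real.pi_pos
  have hRT : ∀ X : ℝ, Rc 0 X (-(Real.pi / 4)) (Real.pi / 4) ⊆ T := by
    intro X u hu
    simp only [Rc, Complex.mem_reProdIm, mem_Icc] at hu
    show |u.im| < Real.pi / 2
    have := abs_le.2 hu.2
    linarith
  -- the upper bound
  have hup : ∀ X : ℝ, 0 ≤ X → ∫ u in Rc 0 X (-(Real.pi / 4)) (Real.pi / 4), ‖deriv g u‖ ^ 2 ≤
      2 * Real.pi * ℓ := by
    intro X hX
    obtain ⟨Q, hQ⟩ : ∃ Q, Q = Rc 0 X (-(Real.pi / 4)) (Real.pi / 4) := ⟨_, rfl⟩
    have hQc : IsCompact Q := by rw [hQ]; exact isCompact_Rc _ _ _ _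
    have hQT : Q ⊆ T := by rw [hQ]; exact hRT X
    rw [← hQ]
    obtain ⟨M, hM⟩ := hQc.exists_bound_of_continuousOn (hgd.continuousOn.mono hQT)
    have hMre : ∀ u ∈ Q, -|M| ≤ (g u).re ∧ (g u).re ≤ |M| := by
      intro u hu
      exact abs_le.1 ((abs_re_le_norm _).trans ((hM u hu).trans (le_abs_self M)))
    refine le_of_all (C := 2 * |M| * (2 * Real.pi)) fun J hJ => ?_
    have hJ0 : (0 : ℝ) ≤ J := Nat.cast_nonneg J
    have hM0 := abs_nonneg M
    have hgj : ∀ j : ℕ, ∀ u ∈ T, exp (g u + j * L) = ρ ^ j * WW B c ρ n m φ (exp u) := by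
      intro j u hu
      rw [Complex.exp_add, Complex.exp_nat_mul, hexpL, hg, hF2 _ (exp_T hu)]
      ring
    have h1 := upper J (fun j u => g u + j * L) hQc
      (fun j _ u hu => (hgd.differentiableAt (T_open.mem_nhds (hQT hu))).add_const _)
      (by
        intro j _ j' _ u hu u' hu' he
        rw [hgj j u (hQT hu), hgj j' u' (hQT hu')] at he
        rcases lt_trichotomy j j' with h | h | h
        · exfalso
          obtain ⟨i, rfl⟩ : ∃ i, j' = j + i := ⟨j' - j, by omega⟩
          rw [pow_add, mul_assoc] at he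
          have h2 := mul_left_cancel₀ (pow_ne_zero _ S.ρ0) he
          exact hno i (by omega) _ (exp_T (hQT hu')) _ (exp_T (hQT hu)) h2.symm
        · subst h
          refine ⟨rfl, ?_⟩
          have h2 := mul_left_cancel₀ (pow_ne_zero _ S.ρ0) he
          have h3 := S.inj (exp_T (hQT hu)) (exp_T (hQT hu')) h2
          have h4 : |u.im| < Real.pi / 2 := hQT hu
          have h5 : |u'.im| < Real.pi / 2 := hQT hu'
          have h6 := abs_lt.1 h4
          have h7 := abs_lt.1 h5
          exact Complex.exp_inj_of_neg_pi_lt_of_le_pi (by linarith) (by linarith) (by linarith)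
            (by linarith) h3
        · exfalso
          obtain ⟨i, rfl⟩ : ∃ i, j = j' + i := ⟨j - j', by omega⟩
          rw [pow_add, mul_assoc] at he
          have h2 := mul_left_cancel₀ (pow_ne_zero _ S.ρ0) he
          exact hno i (by omega) _ (exp_T (hQT hu)) _ (exp_T (hQT hu')) h2)
      (a := -|M|) (b := |M| + J * ℓ) (by
        have : 0 ≤ J * ℓ := by positivity
        linarith)
      (by
        intro j hj u hu
        have h2 := hMre u hu
        have h3 : (g u + j * L).re = (g u).re + j * ℓ := by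
          rw [Complex.add_re, ← hLre]
          simp
        rw [h3]
        have h4 : (j : ℝ) * ℓ ≤ J * ℓ := by
          have : (j : ℝ) ≤ J := by exact_mod_cast hj.le
          gcongr
        have h5 : 0 ≤ (j : ℝ) * ℓ := by positivity
        constructor <;> linarith [h2.1, h2.2])
    have h2 : ∀ j : ℕ, (∫⁻ u in Q, ENNReal.ofReal (‖deriv (fun u => g u + j * L) u‖ ^ 2)) =
        ENNReal.ofReal (∫ u in Q, ‖deriv g u‖ ^ 2) := by
      intro j
      rw [ofReal_integral_eq_lintegral_ofReal]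
      · refine lintegral_congr fun u => ?_
        rw [deriv_add_const]
      · have hc' : ContinuousOn (deriv g) Q := (hgd.deriv T_open).continuousOn.mono hQT
        exact (hc'.norm.pow 2).integrableOn_compact hQc
      · exact Eventually.of_forall fun u => by positivity
    simp only [h2, Finset.sum_const, Finset.card_range, nsmul_eq_mul] at h1
    have hI0 : 0 ≤ ∫ u in Q, ‖deriv g u‖ ^ 2 := integral_nonneg fun u => by positivity
    have h3 : ENNReal.ofReal (J * ∫ u in Q, ‖deriv g u‖ ^ 2) ≤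
        ENNReal.ofReal ((|M| + J * ℓ - -|M|) * (2 * Real.pi)) := by
      rw [ENNReal.ofReal_mul hJ0, ENNReal.ofReal_mul (by
        have : 0 ≤ J * ℓ := by positivity
        linarith), ENNReal.ofReal_natCast]
      exact h1
    rw [ENNReal.ofReal_le_ofReal_iff (by
      have : 0 ≤ J * ℓ := by positivity
      have : 0 ≤ |M| + J * ℓ - -|M| := by linarith
      positivity)] at h3
    linarith
  -- the lower bound
  obtain ⟨A, C₀, C₁, hA, hC₀, hgr⟩ := S.growth
  -- a bound on the left side
  obtain ⟨M, hM⟩ := (isCompact_Rc 0 0 (-(Real.pi / 4)) (Real.pi / 4)).exists_bound_of_continuousOn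
    (hgd.continuousOn.mono (hRT 0))
  obtain ⟨D, hD⟩ : ∃ D : ℝ, D = C₁ + |M| + A * Real.log 2 := ⟨_, rfl⟩
  have hl2 : 0 < Real.log 2 := Real.log_pos (by norm_num)
  obtain ⟨X, hX1, hX2, hX3⟩ : ∃ X : ℝ, 0 ≤ X ∧ C₀ < Real.exp X / 2 ∧
      2 * Real.pi * ℓ < 2 * (Real.pi / 4) * (2 * A * (A * X - D) - A ^ 2 * (X - 0)) := by
    have t1 : Tendsto (fun X : ℝ => Real.exp X / 2) atTop atTop :=
      Real.tendsto_exp_atTop.atTop_div_const (by norm_num)
    have t2 : Tendsto (fun X : ℝ => 2 * (Real.pi / 4) * (2 * A * (A * X - D) - A ^ 2 * (X - 0)))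
        atTop atTop := by
      have e : (fun X : ℝ => 2 * (Real.pi / 4) * (2 * A * (A * X - D) - A ^ 2 * (X - 0))) =
          fun X : ℝ => (Real.pi / 2 * A ^ 2) * X + (-(Real.pi * A * D)) := by
        funext X
        ring
      rw [e]
      exact tendsto_atTop_add_const_right _ _ (tendsto_id.const_mul_atTop (by positivity))
    obtain ⟨X, h1, h2, h3⟩ := ((eventually_ge_atTop (0 : ℝ)).and
      ((t1.eventually_gt_atTop C₀).and (t2.eventually_gt_atTop (2 * Real.pi * ℓ)))).exists
    exact ⟨X, h1, h2, h3⟩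
  have hlow := lower T_open hgd hX1 (by positivity) (hRT X) A (A * X - D) hA.le (by
    intro y hy
    have hmem1 : (((X : ℝ) : ℂ) + y * I) ∈ T := by
      show |(((X : ℝ) : ℂ) + y * I).im| < Real.pi / 2
      have h1 : (((X : ℝ) : ℂ) + y * I).im = y := by simp
      rw [h1]
      have := abs_le.2 hy
      linarith
    have hmem0 : (((0 : ℝ) : ℂ) + y * I) ∈ Rc 0 0 (-(Real.pi / 4)) (Real.pi / 4) := by
      simp only [Rc, Complex.mem_reProdIm]
      simpa using hy
    have h0 : (g (((0 : ℝ) : ℂ) + y * I)).re ≤ |M| :=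
      (le_abs_self _).trans ((abs_re_le_norm _).trans ((hM _ hmem0).trans (le_abs_self M)))
    rw [hgre _ hmem1]
    have hre : (exp (((X : ℝ) : ℂ) + y * I)).re = Real.exp X * Real.cos y := by
      rw [exp_re]
      simp
    have hcos : 1 / 2 ≤ Real.cos y := by
      have h1 : Real.cos (Real.pi / 3) ≤ Real.cos |y| := by
        apply Real.cos_le_cos_of_nonneg_of_le_pi (abs_nonneg y) (by linarith)
        have := abs_le.2 hy
        linarith
      rwa [Real.cos_pi_div_three, Real.cos_abs] at h1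
    have hge : Real.exp X / 2 ≤ (exp (((X : ℝ) : ℂ) + y * I)).re := by
      rw [hre]
      have := Real.exp_pos X
      nlinarith
    have h2 := hgr _ (hX2.trans_le hge)
    have h3 : X - Real.log 2 ≤ Real.log (exp (((X : ℝ) : ℂ) + y * I)).re := by
      have h4 := Real.log_le_log (by positivity) hge
      rw [Real.log_div (Real.exp_pos X).ne' (by norm_num), Real.log_exp] at h4
      exact h4
    have h4 : A * (X - Real.log 2) ≤ A * Real.log (exp (((X : ℝ) : ℂ) + y * I)).re := by gcongr
    rw [hD]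
    linarith)
  have := hup X hX1
  linarith

end Pool.Agent.KS6_23.ML.DltC
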