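import Mathlib

set_option autoImplicit false

/-! # Holomorphic maps of a bounded connected open set into a compact subset (Earle and Hamilton) -/

open Complex Set Filter Metric Topology

namespace Pool.Agent.KS6_23.ML.EH

section

variable {V L : Set ℂ} {Φ : ℂ → ℂ} {D ρ : ℝ}

/-- the hypotheses -/
structure Hyp (V L : Set ℂ) (Φ : ℂ → ℂ) (D ρ : ℝ) : Prop where
  opn : IsOpen V
  diff : DifferentiableOn ℂ Φ V
  maps : ∀ z ∈ V, Φ z ∈ L
  sub : L ⊆ V
  bd : ∀ x ∈ V, ∀ y ∈ V, ‖x - y‖ ≤ D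
  D0 : 0 < D
  ρ0 : 0 < ρ
  thick : ∀ y ∈ L, ball y (2 * ρ) ⊆ V

theorem iter_mem (h : Hyp V L Φ D ρ) {x : ℂ} (hx : x ∈ V) (k : ℕ) : Φ^[k] x ∈ V := by
  induction k with
  | zero => exact hx
  | succ k ih =>
    rw [Function.iterate_succ_apply']
    exact h.sub (h.maps _ ih)

theorem iter_diff (h : Hyp V L Φ D ρ) (k : ℕ) : DifferentiableOn ℂ (Φ^[k]) V := by
  induction k with
  | zero => exact differentiableOn_id
  | succ k ih =>
    rw [Function.iterate_succ']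
    exact h.diff.comp ih fun x hx => iter_mem h hx k

theorem grow (h : Hyp V L Φ D ρ) {x : ℂ} (hx : x ∈ V) (k : ℕ) : ∃ H : ℂ → ℂ,
    DifferentiableOn ℂ H V ∧ (∀ z ∈ V, H z ∈ V) ∧ H x = Φ^[k] x ∧
      deriv H x = (1 + ρ / D : ℝ) ^ k * deriv (Φ^[k]) x := by
  have hD := h.D0
  have hρ := h.ρ0
  induction k with
  | zero => exact ⟨id, differentiableOn_id, fun z hz => hz, rfl, by simp⟩
  | succ k ih =>
    obtain ⟨H, hH, hHV, hHx, hHd⟩ := ih
    obtain ⟨Ψ, hΨ⟩ : ∃ Ψ : ℂ → ℂ, Ψ = fun y => Φ y + (ρ / D : ℝ) * (Φ y - Φ (Φ^[k] x)) := ⟨_, rfl⟩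
    have hΨd : DifferentiableOn ℂ Ψ V := by
      rw [hΨ]
      exact h.diff.add ((h.diff.sub_const _).const_mul _)
    have hΨV : ∀ z ∈ V, Ψ z ∈ V := by
      intro z hz
      apply h.thick (Φ z) (h.maps z hz)
      rw [mem_ball, dist_eq_norm, hΨ]
      simp only [add_sub_cancel_left]
      rw [norm_mul, Complex.norm_real, Real.norm_of_nonneg (by positivity)]
      have h1 := h.bd _ (h.sub (h.maps z hz)) _ (h.sub (h.maps _ (iter_mem h hx k)))
      calc ρ / D * ‖Φ z - Φ (Φ^[k] x)‖ ≤ ρ / D * D := by gcongr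
        _ = ρ := by field_simp
        _ < 2 * ρ := by linarith
    refine ⟨Ψ ∘ H, hΨd.comp hH hHV, fun z hz => hΨV _ (hHV z hz), ?_, ?_⟩
    · rw [Function.comp_apply, hHx, hΨ, Function.iterate_succ_apply']
      simp
    · have hxk := iter_mem h hx k
      have h1 : HasDerivAt Φ (deriv Φ (Φ^[k] x)) (Φ^[k] x) :=
        (h.diff.differentiableAt (h.opn.mem_nhds hxk)).hasDerivAt
      have h2 : HasDerivAt Ψ (deriv Φ (Φ^[k] x) + (ρ / D : ℝ) * deriv Φ (Φ^[k] x)) (Φ^[k] x) := by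
        rw [hΨ]
        exact h1.add ((h1.sub_const _).const_mul _)
      have h3 : HasDerivAt H (deriv H x) x :=
        (hH.differentiableAt (h.opn.mem_nhds hx)).hasDerivAt
      have h4 : HasDerivAt (Φ^[k]) (deriv (Φ^[k]) x) x :=
        ((iter_diff h k).differentiableAt (h.opn.mem_nhds hx)).hasDerivAt
      have h2' : HasDerivAt Ψ (deriv Φ (Φ^[k] x) + (ρ / D : ℝ) * deriv Φ (Φ^[k] x)) (H x) := by
        rw [hHx]; exact h2
      rw [(h2'.comp x h3).deriv, Function.iterate_succ', (h1.comp x h4).deriv, hHd]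
      push_cast
      ring

theorem deriv_bd (h : Hyp V L Φ D ρ) {x : ℂ} {r : ℝ} (hr : 0 < r) (hx : ball x r ⊆ V) (k : ℕ) :
    ‖deriv (Φ^[k]) x‖ ≤ (2 * D / r) * ((1 + ρ / D)⁻¹) ^ k := by
  have hD := h.D0
  have hρ := h.ρ0
  have hxV : x ∈ V := hx (mem_ball_self hr)
  obtain ⟨H, hH, hHV, hHx, hHd⟩ := grow h hxV k
  have h1 : MapsTo H (ball x r) (closedBall (H x) (2 * D)) := by
    intro y hy
    rw [mem_closedBall, dist_eq_norm]
    have := h.bd _ (hHV y (hx hy)) _ (hHV x hxV)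
    linarith
  have h2 := Complex.norm_deriv_le_div_of_mapsTo_ball (hH.mono hx) h1 hr
  rw [hHd, norm_mul, norm_pow, Complex.norm_real, Real.norm_of_nonneg (by positivity)] at h2
  rw [inv_pow, ← div_eq_mul_inv, le_div_iff₀ (by positivity), mul_comm]
  exact h2

/-- the relation `the orbits of x and y are exponentially close` -/
def Rel (Φ : ℂ → ℂ) (q : ℝ) (x y : ℂ) : Prop := ∃ C : ℝ, ∀ k, ‖Φ^[k] x - Φ^[k] y‖ ≤ C * q ^ k

theorem rel_all (h : Hyp V L Φ D ρ) (hV : IsPreconnected V) {x y : ℂ} (hx : x ∈ V) (hy : y ∈ V) :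
    Rel Φ ((1 + ρ / D)⁻¹) x y := by
  have hD := h.D0
  have hρ := h.ρ0
  refine hV.induction₂' (Rel Φ ((1 + ρ / D)⁻¹)) ?_ ?_ hx hy
  · intro x hx
    obtain ⟨r, hr, hb⟩ := Metric.isOpen_iff.1 h.opn x hx
    have hsym : ∀ y, Rel Φ ((1 + ρ / D)⁻¹) x y → Rel Φ ((1 + ρ / D)⁻¹) y x := by
      rintro y ⟨C, hC⟩
      exact ⟨C, fun k => by rw [norm_sub_rev]; exact hC k⟩
    have h1 : ∀ᶠ y in 𝓝[V] x, y ∈ ball x (r / 2) :=
      mem_nhdsWithin_of_mem_nhds (ball_mem_nhds x (by positivity))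
    filter_upwards [h1] with y hy
    have h2 : Rel Φ ((1 + ρ / D)⁻¹) x y := by
      refine ⟨2 * D / (r / 2) * (r / 2), fun k => ?_⟩
      have h3 : ∀ u ∈ ball x (r / 2), ball u (r / 2) ⊆ V := by
        intro u hu v hv
        apply hb
        rw [mem_ball] at *
        have := dist_triangle v u x
        linarith
      have h4 : ∀ u ∈ ball x (r / 2), ‖deriv (Φ^[k]) u‖ ≤
          (2 * D / (r / 2)) * ((1 + ρ / D)⁻¹) ^ k := fun u hu =>
        deriv_bd h (by positivity) (h3 u hu) k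
      have h5 : ∀ u ∈ ball x (r / 2), DifferentiableAt ℂ (Φ^[k]) u := fun u hu =>
        (iter_diff h k).differentiableAt (h.opn.mem_nhds (h3 u hu (mem_ball_self (by positivity))))
      have h6 := (convex_ball x (r / 2)).norm_image_sub_le_of_norm_deriv_le h5 h4
        hy (mem_ball_self (by positivity))
      refine h6.trans ?_
      have h7 : ‖x - y‖ ≤ r / 2 := by
        rw [mem_ball, dist_eq_norm, norm_sub_rev] at hy
        exact hy.le
      calc 2 * D / (r / 2) * ((1 + ρ / D)⁻¹) ^ k * ‖x - y‖ ≤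
          2 * D / (r / 2) * ((1 + ρ / D)⁻¹) ^ k * (r / 2) := by gcongr
        _ = _ := by ring
    exact ⟨h2, hsym y h2⟩
  · rintro x y z - - - ⟨C, hC⟩ ⟨C', hC'⟩
    refine ⟨C + C', fun k => ?_⟩
    have h1 : Φ^[k] x - Φ^[k] z = (Φ^[k] x - Φ^[k] y) + (Φ^[k] y - Φ^[k] z) := by ring
    rw [h1, add_mul]
    exact (norm_add_le _ _).trans (add_le_add (hC k) (hC' k))

/-- the fixed point -/
theorem fixed (h : Hyp V L Φ D ρ) (hV : IsPreconnected V) (hne : V.Nonempty) (hL : IsClosed L) :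
    ∃ z ∈ V, Φ z = z ∧ ‖deriv Φ z‖ < 1 ∧ ∀ y ∈ V, Φ y = y → y = z := by
  have hD := h.D0
  have hρ := h.ρ0
  have hq1 : (1 + ρ / D)⁻¹ < 1 := by
    apply inv_lt_one_of_one_lt₀
    have : 0 < ρ / D := by positivity
    linarith
  have hq0 : 0 ≤ (1 + ρ / D)⁻¹ := by positivity
  obtain ⟨x, hx⟩ := hne
  obtain ⟨C, hC⟩ := rel_all h hV hx (h.sub (h.maps x hx))
  have hcau : CauchySeq (fun k => Φ^[k] x) := by
    refine cauchySeq_of_le_geometric _ C hq1 fun k => ?_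
    rw [dist_eq_norm, Function.iterate_succ_apply]
    exact hC k
  obtain ⟨z, hz⟩ := cauchySeq_tendsto_of_complete hcau
  have hzL : z ∈ L := by
    refine hL.mem_of_tendsto ((tendsto_add_atTop_iff_nat 1).2 hz) (Eventually.of_forall fun k => ?_)
    rw [Function.iterate_succ_apply']
    exact h.maps _ (iter_mem h hx k)
  have hzV := h.sub hzL
  have hfix : Φ z = z := by
    have h1 : ContinuousAt Φ z := (h.diff.differentiableAt (h.opn.mem_nhds hzV)).continuousAt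
    have h2 : Tendsto (fun k => Φ (Φ^[k] x)) atTop (𝓝 (Φ z)) := h1.tendsto.comp hz
    have h3 : Tendsto (fun k => Φ^[k + 1] x) atTop (𝓝 z) := (tendsto_add_atTop_iff_nat 1).2 hz
    simp only [Function.iterate_succ_apply'] at h3
    exact tendsto_nhds_unique h2 h3
  refine ⟨z, hzV, hfix, ?_, ?_⟩
  · by_contra hcon
    push Not at hcon
    obtain ⟨r, hr, hb⟩ := Metric.isOpen_iff.1 h.opn z hzV
    have h1 : ∀ k, deriv (Φ^[k]) z = deriv Φ z ^ k := by
      intro k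
      have h2 : HasDerivAt Φ (deriv Φ z) z :=
        (h.diff.differentiableAt (h.opn.mem_nhds hzV)).hasDerivAt
      exact (HasDerivAt.iterate z h2 hfix k).deriv
    have h2 : ∀ k, (1 : ℝ) ≤ 2 * D / r * ((1 + ρ / D)⁻¹) ^ k := by
      intro k
      have h3 := deriv_bd h hr hb k
      rw [h1, norm_pow] at h3
      exact (one_le_pow₀ hcon).trans h3
    have h3 : Tendsto (fun k : ℕ => 2 * D / r * ((1 + ρ / D)⁻¹) ^ k) atTop (𝓝 (2 * D / r * 0)) :=
      (tendsto_pow_atTop_nhds_zero_of_lt_one hq0 hq1).const_mul _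
    rw [mul_zero] at h3
    have := ge_of_tendsto' h3 h2
    linarith
  · intro y hy hyf
    obtain ⟨C', hC'⟩ := rel_all h hV hy hzV
    have h1 : ∀ k, ‖y - z‖ ≤ C' * ((1 + ρ / D)⁻¹) ^ k := by
      intro k
      have h2 := hC' k
      rwa [Function.iterate_fixed hyf, Function.iterate_fixed hfix] at h2
    have h3 : Tendsto (fun k : ℕ => C' * ((1 + ρ / D)⁻¹) ^ k) atTop (𝓝 (C' * 0)) :=
      (tendsto_pow_atTop_nhds_zero_of_lt_one hq0 hq1).const_mul _
    rw [mul_zero] at h3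
    have h4 := ge_of_tendsto' h3 h1
    have h5 : ‖y - z‖ = 0 := le_antisymm h4 (norm_nonneg _)
    exact sub_eq_zero.1 (norm_eq_zero.1 h5)

end

end Pool.Agent.KS6_23.ML.EH
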