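import Mathlib

/-!
# Project ML: Koenigs linearisation

The proof is taken from the library module TH345.CC.Koe of an earlier run.
-/

set_option autoImplicit false

open Filter Topology Set Metric

namespace Pool.Agent.KS6_23.ML.Koenigs

theorem exists_rad {F : ℂ → ℂ} {R q : ℝ} (hR : 0 < R) (hq : q < 1)
    (hF : DifferentiableOn ℂ F (ball 0 R)) (hF0 : F 0 = 0)
    (hb : ∀ z ∈ ball (0 : ℂ) R, ‖F z‖ ≤ q * ‖z‖) (hl : deriv F 0 ≠ 0) :
    ∃ s r C : ℝ, 0 < s ∧ s ≤ R ∧ 0 < r ∧ r < 1 ∧ r ^ 2 < ‖deriv F 0‖ ∧ 0 ≤ C ∧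
      ∀ z ∈ ball (0 : ℂ) s, ‖F z‖ ≤ r * ‖z‖ ∧ ‖F z - deriv F 0 * z‖ ≤ C * ‖z‖ ^ 2 := by
  have hmem : ball (0 : ℂ) R ∈ 𝓝 (0 : ℂ) := ball_mem_nhds 0 hR
  have hG : DifferentiableOn ℂ (dslope F 0) (ball 0 R) :=
    (Complex.differentiableOn_dslope hmem).2 hF
  have hG0 : dslope F 0 0 = deriv F 0 := dslope_same F 0
  have hGd : DifferentiableAt ℂ (dslope F 0) 0 := hG.differentiableAt hmem
  have hFG : ∀ z, F z = z * dslope F 0 z := by
    intro z
    have := sub_smul_dslope F 0 z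
    rw [hF0, sub_zero, sub_zero, smul_eq_mul] at this
    exact this.symm
  obtain ⟨L, hL⟩ : ∃ L : ℝ, L = ‖deriv F 0‖ := ⟨_, rfl⟩
  have hL0 : 0 < L := by rw [hL]; exact norm_pos_iff.2 hl
  have hLq : L ≤ q := by
    have h1 : Tendsto (fun z => ‖dslope F 0 z‖) (𝓝[≠] 0) (𝓝 L) := by
      rw [hL, ← hG0]
      exact (hGd.continuousAt.norm.tendsto).mono_left nhdsWithin_le_nhds
    refine le_of_tendsto h1 ?_
    filter_upwards [nhdsWithin_le_nhds hmem, self_mem_nhdsWithin] with z hz hz0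
    have h2 := hb z hz
    rw [hFG z, norm_mul, mul_comm] at h2
    exact le_of_mul_le_mul_right h2 (norm_pos_iff.2 hz0)
  have hL1 : L < 1 := lt_of_le_of_lt hLq hq
  have hs0 : 0 < Real.sqrt L := Real.sqrt_pos.2 hL0
  have hss : Real.sqrt L * Real.sqrt L = L := Real.mul_self_sqrt hL0.le
  have hs1 : Real.sqrt L < 1 := by
    rw [Real.sqrt_lt' one_pos]
    simpa using hL1
  have hLs : L < Real.sqrt L := by nlinarith
  obtain ⟨r, hr⟩ : ∃ r : ℝ, r = (L + Real.sqrt L) / 2 := ⟨_, rfl⟩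
  have hLr : L < r := by rw [hr]; linarith
  have hrs : r < Real.sqrt L := by rw [hr]; linarith
  have hr0 : 0 < r := hL0.trans hLr
  have e1 : ∀ᶠ z in 𝓝 (0 : ℂ), ‖dslope F 0 z‖ < r :=
    hGd.continuousAt.norm.eventually_lt_const (by show ‖dslope F 0 0‖ < r; rw [hG0, ← hL]; exact hLr)
  obtain ⟨C, hC⟩ := (hGd.isBigO_sub).bound
  obtain ⟨ε, hε, hεb⟩ := Metric.eventually_nhds_iff_ball.1 (e1.and hC)
  refine ⟨min ε R, r, max C 0, lt_min hε hR, min_le_right _ _, hr0, hrs.trans hs1, ?_,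
    le_max_right _ _, ?_⟩
  · rw [← hL]
    nlinarith
  · intro z hz
    have hz' : z ∈ ball (0 : ℂ) ε := ball_subset_ball (min_le_left _ _) hz
    obtain ⟨h1, h2⟩ := hεb z hz'
    rw [hG0, sub_zero] at h2
    constructor
    · rw [hFG z, norm_mul, mul_comm]
      exact mul_le_mul_of_nonneg_right h1.le (norm_nonneg _)
    · have h3 : F z - deriv F 0 * z = z * (dslope F 0 z - deriv F 0) := by
        rw [mul_sub, ← hFG z]
        ring
      rw [h3, norm_mul]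
      calc ‖z‖ * ‖dslope F 0 z - deriv F 0‖ ≤ ‖z‖ * (max C 0 * ‖z‖) := by
            refine mul_le_mul_of_nonneg_left (h2.trans ?_) (norm_nonneg _)
            exact mul_le_mul_of_nonneg_right (le_max_left _ _) (norm_nonneg _)
        _ = max C 0 * ‖z‖ ^ 2 := by ring

/-- the terms of the series -/
noncomputable def dd (F : ℂ → ℂ) (l : ℂ) (n : ℕ) (z : ℂ) : ℂ :=
  (F (F^[n] z) - l * F^[n] z) / l ^ (n + 1)

theorem sum_dd (F : ℂ → ℂ) {l : ℂ} (hl : l ≠ 0) (z : ℂ) (n : ℕ) :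
    ∑ i ∈ Finset.range n, dd F l i z = F^[n] z / l ^ n - z := by
  induction n with
  | zero => simp
  | succ n ih =>
    rw [Finset.sum_range_succ, ih, dd, Function.iterate_succ_apply']
    field_simp
    ring

theorem koe {F : ℂ → ℂ} {l : ℂ} {s r C : ℝ} (hs : 0 < s) (hr0 : 0 < r) (hr1 : r < 1)
    (hrl : r ^ 2 < ‖l‖) (hC : 0 ≤ C) (hl : l ≠ 0) (hF : DifferentiableOn ℂ F (ball 0 s))
    (h1 : ∀ z ∈ ball (0 : ℂ) s, ‖F z‖ ≤ r * ‖z‖)
    (h2 : ∀ z ∈ ball (0 : ℂ) s, ‖F z - l * z‖ ≤ C * ‖z‖ ^ 2) :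
    ∃ (t : ℝ) (κ : ℂ → ℂ), 0 < t ∧ t ≤ s ∧ DifferentiableOn ℂ κ (ball 0 t) ∧
      InjOn κ (ball 0 t) ∧ κ 0 = 0 ∧ (∀ z ∈ ball (0 : ℂ) t, ‖κ z‖ ≤ 2 * ‖z‖) ∧
      ∀ z ∈ ball (0 : ℂ) t, κ (F z) = l * κ z := by
  have hl0 : 0 < ‖l‖ := norm_pos_iff.2 hl
  have hmap : MapsTo F (ball 0 s) (ball 0 s) := by
    intro z hz
    have h3 := h1 z hz
    rw [mem_ball_zero_iff] at hz ⊢
    nlinarith [norm_nonneg z]
  have hit : ∀ n : ℕ, ∀ z ∈ ball (0 : ℂ) s, F^[n] z ∈ ball (0 : ℂ) s ∧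
      ‖F^[n] z‖ ≤ r ^ n * ‖z‖ := by
    intro n z hz
    induction n with
    | zero => exact ⟨hz, by simp⟩
    | succ n ih =>
      rw [Function.iterate_succ_apply']
      refine ⟨hmap ih.1, (h1 _ ih.1).trans ?_⟩
      calc r * ‖F^[n] z‖ ≤ r * (r ^ n * ‖z‖) := mul_le_mul_of_nonneg_left ih.2 hr0.le
        _ = r ^ (n + 1) * ‖z‖ := by ring
  have hdit : ∀ n : ℕ, DifferentiableOn ℂ (F^[n]) (ball 0 s) := by
    intro n
    induction n with
    | zero => exact differentiableOn_id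
    | succ n ih =>
      have : F^[n + 1] = F ∘ F^[n] := Function.iterate_succ' F n
      rw [this]
      exact hF.comp ih fun z hz => (hit n z hz).1
  obtain ⟨ρ, hρ⟩ : ∃ ρ : ℝ, ρ = r ^ 2 / ‖l‖ := ⟨_, rfl⟩
  have hρ0 : 0 ≤ ρ := by rw [hρ]; positivity
  have hρ1 : ρ < 1 := by rw [hρ, div_lt_one hl0]; exact hrl
  have hdd : ∀ (n : ℕ) (z : ℂ), z ∈ ball (0 : ℂ) s →
      ‖dd F l n z‖ ≤ C / ‖l‖ * ρ ^ n * ‖z‖ ^ 2 := by
    intro n z hz
    obtain ⟨h3, h4⟩ := hit n z hz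
    rw [dd, norm_div, norm_pow, div_le_iff₀ (by positivity)]
    refine (h2 _ h3).trans ?_
    have h5 : ‖F^[n] z‖ ^ 2 ≤ (r ^ n * ‖z‖) ^ 2 := pow_le_pow_left₀ (norm_nonneg _) h4 2
    calc C * ‖F^[n] z‖ ^ 2 ≤ C * (r ^ n * ‖z‖) ^ 2 := mul_le_mul_of_nonneg_left h5 hC
      _ = C / ‖l‖ * ρ ^ n * ‖z‖ ^ 2 * ‖l‖ ^ (n + 1) := by
        rw [hρ, div_pow]
        field_simp
        ring
  have hsum : Summable fun n : ℕ => C / ‖l‖ * ρ ^ n :=
    (summable_geometric_of_lt_one hρ0 hρ1).mul_left _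
  obtain ⟨κ, hκ⟩ : ∃ κ : ℂ → ℂ, κ = fun z => z + ∑' n, dd F l n z := ⟨_, rfl⟩
  have hdiff : DifferentiableOn ℂ κ (ball 0 s) := by
    rw [hκ]
    refine differentiableOn_id.add ?_
    refine Complex.differentiableOn_tsum_of_summable_norm (hsum.mul_right (s ^ 2)) (fun n => ?_)
      isOpen_ball (fun n z hz => ?_)
    · unfold dd
      refine DifferentiableOn.div_const ?_ _
      refine DifferentiableOn.sub (hF.comp (hdit n) fun z hz => (hit n z hz).1) ?_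
      exact (hdit n).const_mul l
    · refine (hdd n z hz).trans ?_
      have h3 : ‖z‖ ^ 2 ≤ s ^ 2 :=
        pow_le_pow_left₀ (norm_nonneg _) (mem_ball_zero_iff.1 hz).le 2
      exact mul_le_mul_of_nonneg_left h3 (by positivity)
  have hsumz : ∀ z ∈ ball (0 : ℂ) s, Summable fun n => dd F l n z := fun z hz =>
    Summable.of_norm_bounded (hsum.mul_right (‖z‖ ^ 2)) fun n => hdd n z hz
  have hlim : ∀ z ∈ ball (0 : ℂ) s, Tendsto (fun n => F^[n] z / l ^ n) atTop (𝓝 (κ z)) := by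
    intro z hz
    have h3 := (hsumz z hz).hasSum.tendsto_sum_nat
    simp_rw [sum_dd F hl z] at h3
    have h4 := h3.add_const z
    rw [hκ]
    simp only [sub_add_cancel] at h4
    rwa [add_comm] at h4
  have hbd : ∀ z ∈ ball (0 : ℂ) s, ‖κ z - z‖ ≤ (∑' n, C / ‖l‖ * ρ ^ n) * ‖z‖ ^ 2 := by
    intro z hz
    have h3 : κ z - z = ∑' n, dd F l n z := by rw [hκ]; ring
    rw [h3, ← tsum_mul_right]
    exact tsum_of_norm_bounded (hsum.mul_right (‖z‖ ^ 2)).hasSum fun n => hdd n z hz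
  have h0s : (0 : ℂ) ∈ ball (0 : ℂ) s := mem_ball_self hs
  have hF0 : F 0 = 0 := by
    have := h1 0 h0s
    rw [norm_zero, mul_zero] at this
    exact norm_le_zero_iff.1 this
  have hκ0 : κ 0 = 0 := by
    have := hbd 0 h0s
    rw [norm_zero, sub_zero] at this
    norm_num at this
    exact this
  -- the derivative
  have hder : HasDerivAt κ 1 0 := by
    have h3 : HasFDerivAt (fun z => κ z - z) (0 : ℂ →L[ℂ] ℂ) 0 := by
      refine Asymptotics.IsBigO.hasFDerivAt (n := 2) ?_ (by norm_num)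
      refine Asymptotics.IsBigO.of_bound (∑' n, C / ‖l‖ * ρ ^ n) ?_
      filter_upwards [ball_mem_nhds (0 : ℂ) hs] with z hz
      rw [sub_zero]
      simpa using hbd z hz
    have h4 : HasDerivAt (fun z => κ z - z) 0 0 := by
      have := h3.hasDerivAt
      simpa using this
    have h5 := h4.add (hasDerivAt_id (0 : ℂ))
    rw [zero_add] at h5
    refine h5.congr_of_eventuallyEq (Eventually.of_forall fun z => ?_)
    simp
  have hstr : HasStrictDerivAt κ 1 0 := by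
    have h3 := (hdiff.analyticAt (ball_mem_nhds 0 hs)).hasStrictDerivAt
    rwa [hder.deriv] at h3
  obtain ⟨u, hu, hua⟩ := hstr.hasStrictFDerivAt.approximates_deriv_on_nhds
    (c := 1 / 2) (Or.inr (by norm_num))
  have hua' : ∀ x ∈ u, ∀ y ∈ u, ‖κ x - κ y - (x - y)‖ ≤ 1 / 2 * ‖x - y‖ := by
    intro x hx y hy
    have h3 := hua x hx y hy
    simpa using h3
  obtain ⟨ε, hε, hεu⟩ := Metric.mem_nhds_iff.1 hu
  have hsub1 : ball (0 : ℂ) (min ε s) ⊆ u := (ball_subset_ball (min_le_left _ _)).trans hεu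
  have hsub2 : ball (0 : ℂ) (min ε s) ⊆ ball 0 s := ball_subset_ball (min_le_right _ _)
  refine ⟨min ε s, κ, lt_min hε hs, min_le_right _ _, hdiff.mono hsub2, ?_, hκ0, ?_, ?_⟩
  · intro x hx y hy hxy
    have h3 := hua' x (hsub1 hx) y (hsub1 hy)
    rw [hxy, sub_self, zero_sub, norm_neg] at h3
    have h4 : ‖x - y‖ = 0 := le_antisymm (by linarith [norm_nonneg (x - y)]) (norm_nonneg _)
    exact sub_eq_zero.1 (norm_eq_zero.1 h4)
  · intro z hz
    have h3 := hua' z (hsub1 hz) 0 (hεu (mem_ball_self hε))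
    rw [hκ0, sub_zero, sub_zero] at h3
    have h4 : ‖κ z‖ ≤ ‖κ z - z‖ + ‖z‖ := by
      have := norm_add_le (κ z - z) z
      simpa using this
    linarith [norm_nonneg z]
  · intro z hz
    have hz' := hsub2 hz
    have h3 := hlim (F z) (hmap hz')
    have h4 := ((hlim z hz').comp (tendsto_add_atTop_nat 1)).const_mul l
    refine tendsto_nhds_unique h3 (h4.congr fun n => ?_)
    simp only [Function.comp_apply]
    rw [Function.iterate_succ_apply]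
    field_simp
    ring


/-- **Koenigs linearisation.** -/
theorem koenigs (F : ℂ → ℂ) (R q : ℝ) (hR : 0 < R) (hq1 : q < 1)
    (hF : DifferentiableOn ℂ F (ball 0 R)) (hF0 : F 0 = 0)
    (hb : ∀ z ∈ ball (0 : ℂ) R, ‖F z‖ ≤ q * ‖z‖) (hl : deriv F 0 ≠ 0) :
    ∃ (s : ℝ) (κ : ℂ → ℂ), 0 < s ∧ s ≤ R ∧ DifferentiableOn ℂ κ (ball 0 s) ∧
      InjOn κ (ball 0 s) ∧ κ 0 = 0 ∧ (∀ z ∈ ball (0 : ℂ) s, ‖κ z‖ ≤ 2 * ‖z‖) ∧
      ∀ z ∈ ball (0 : ℂ) s, κ (F z) = deriv F 0 * κ z := by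
  obtain ⟨s, r, C, hs, hsR, hr0, hr1, hrl, hC, h⟩ := exists_rad hR hq1 hF hF0 hb hl
  obtain ⟨t, κ, ht, hts, hk⟩ := koe hs hr0 hr1 hrl hC hl (hF.mono (ball_subset_ball hsR))
    (fun z hz => (h z hz).1) (fun z hz => (h z hz).2)
  exact ⟨t, κ, ht, hts.trans hsR, hk⟩

/-- The linearisation of `g` at the repelling fixed point `z` with the multiplier `ρ`: the inverse
`s` of `g` on a disc, and the linearising coordinate `φ`. -/
structure Lin (g : ℂ → ℂ) (z ρ : ℂ) (r : ℝ) (s φ : ℂ → ℂ) : Prop where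
  r0 : 0 < r
  sd : DifferentiableOn ℂ s (ball z r)
  sz : s z = z
  con : ∃ q : ℝ, 0 < q ∧ q < 1 ∧ ∀ y ∈ ball z r, ‖s y - z‖ ≤ q * ‖y - z‖
  gs : ∀ y ∈ ball z r, g (s y) = y
  sg : ∀ x ∈ ball z r, g x ∈ ball z r → s (g x) = x
  φd : DifferentiableOn ℂ φ (ball z r)
  φi : InjOn φ (ball z r)
  φz : φ z = 0
  φs : ∀ y ∈ ball z r, φ y = ρ * φ (s y)

/-- the linearisation exists -/
theorem exists_lin {g : ℂ → ℂ} (hg : Differentiable ℂ g) {z ρ : ℂ} (hz : g z = z)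
    (hρ : deriv g z = ρ) (hρ1 : 1 < ‖ρ‖) {e : ℝ} (he : 0 < e) :
    ∃ (r : ℝ) (s φ : ℂ → ℂ), r ≤ e ∧ Lin g z ρ r s φ := by
  have hρ0 : ρ ≠ 0 := by
    intro h
    rw [h, norm_zero] at hρ1
    linarith
  have hρp : 0 < ‖ρ‖ := by linarith
  have ha : AnalyticAt ℂ g z := hg.analyticAt z
  have hne : deriv g z ≠ 0 := by rw [hρ]; exact hρ0
  -- the local inverse
  obtain ⟨s, hs⟩ : ∃ s : ℂ → ℂ, s = ha.hasStrictDerivAt.localInverse g (deriv g z) z hne := ⟨_, rfl⟩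
  have e1 : ∀ᶠ x in 𝓝 z, s (g x) = x := by
    rw [hs]
    exact HasStrictDerivAt.eventually_left_inverse ha.hasStrictDerivAt hne
  have e2 : ∀ᶠ y in 𝓝 z, g (s y) = y := by
    have h1 := HasStrictDerivAt.eventually_right_inverse ha.hasStrictDerivAt hne
    rw [hz] at h1
    rw [hs]
    exact h1
  have hsa : AnalyticAt ℂ s z := by
    have h1 := ha.analyticAt_localInverse hne
    rw [hz] at h1
    rw [hs]
    exact h1
  have hsd : HasDerivAt s ρ⁻¹ z := by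
    have h1 := ha.hasStrictDerivAt.to_localInverse hne
    rw [hz] at h1
    rw [hs, ← hρ]
    exact h1.hasDerivAt
  have hsz : s z = z := by
    have h1 := e1.self_of_nhds
    rwa [hz] at h1
  have e3 : ∀ᶠ y in 𝓝 z, DifferentiableAt ℂ s y := hsa.eventually_analyticAt.mono
    fun y hy => hy.differentiableAt
  -- the contraction
  obtain ⟨q, hq⟩ : ∃ q : ℝ, q = (‖ρ‖⁻¹ + 1) / 2 := ⟨_, rfl⟩
  have hρi : ‖ρ‖⁻¹ < 1 := inv_lt_one_of_one_lt₀ hρ1
  have hρi0 : 0 < ‖ρ‖⁻¹ := inv_pos.2 hρp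
  have hq1 : q < 1 := by rw [hq]; linarith
  have hq0 : 0 < q := by rw [hq]; linarith
  have hq2 : ‖ρ‖⁻¹ < q := by rw [hq]; linarith
  have e4 : ∀ᶠ y in 𝓝 z, ‖s y - z‖ ≤ q * ‖y - z‖ := by
    have h1 := hsd.isLittleO
    rw [Asymptotics.isLittleO_iff] at h1
    filter_upwards [h1 (show 0 < q - ‖ρ‖⁻¹ by linarith)] with y hy
    rw [hsz, smul_eq_mul] at hy
    have h2 : s y - z = (s y - z - (y - z) * ρ⁻¹) + (y - z) * ρ⁻¹ := by ring
    rw [h2]
    refine (norm_add_le _ _).trans ?_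
    rw [norm_mul, norm_inv]
    nlinarith [norm_nonneg (y - z)]
  obtain ⟨R, hR, hRb⟩ := Metric.eventually_nhds_iff_ball.1 (e1.and (e2.and (e3.and e4)))
  obtain ⟨F, hF⟩ : ∃ F : ℂ → ℂ, F = fun x => s (z + x) - z := ⟨_, rfl⟩
  have hmem : ∀ x ∈ ball (0 : ℂ) R, z + x ∈ ball z R := by
    intro x hx
    rw [mem_ball_zero_iff] at hx
    rw [mem_ball, dist_eq_norm, add_sub_cancel_left]
    exact hx
  have hFd : DifferentiableOn ℂ F (ball 0 R) := by
    intro x hx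
    rw [hF]
    have h1 := (hRb _ (hmem x hx)).2.2.1
    have h2 : DifferentiableAt ℂ (fun x : ℂ => s (z + x)) x :=
      h1.comp x (by fun_prop : DifferentiableAt ℂ (fun x : ℂ => z + x) x)
    exact (h2.sub_const z).differentiableWithinAt
  have hF0 : F 0 = 0 := by rw [hF]; simp [hsz]
  have hFb : ∀ x ∈ ball (0 : ℂ) R, ‖F x‖ ≤ q * ‖x‖ := by
    intro x hx
    have h1 := (hRb _ (hmem x hx)).2.2.2
    rw [add_sub_cancel_left] at h1
    rw [hF]
    exact h1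
  have hFder : deriv F 0 = ρ⁻¹ := by
    have h1 : HasDerivAt (fun x : ℂ => s (z + x)) ρ⁻¹ 0 := by
      have h2 : HasDerivAt s ρ⁻¹ (z + 0) := by rw [add_zero]; exact hsd
      have h3 := h2.comp_const_add z 0
      exact h3
    rw [hF]
    exact (h1.sub_const z).deriv
  obtain ⟨r₁, κ, hr₁, hr₁R, hκd, hκi, hκ0, -, hκF⟩ := koenigs F R q hR hq1 hFd hF0 hFb
    (by rw [hFder]; exact inv_ne_zero hρ0)
  obtain ⟨r, hr⟩ : ∃ r : ℝ, r = min r₁ e := ⟨_, rfl⟩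
  have hr0 : 0 < r := by rw [hr]; exact lt_min hr₁ he
  have hrr₁ : r ≤ r₁ := by rw [hr]; exact min_le_left _ _
  have hsub : ball z r ⊆ ball z R := ball_subset_ball (hrr₁.trans hr₁R)
  have hmem2 : ∀ y ∈ ball z r, y - z ∈ ball (0 : ℂ) r₁ := by
    intro y hy
    rw [mem_ball, dist_eq_norm] at hy
    rw [mem_ball_zero_iff]
    linarith
  refine ⟨r, s, fun y => κ (y - z), by rw [hr]; exact min_le_right _ _, ?_⟩
  refine ⟨hr0, fun y hy => (hRb y (hsub hy)).2.2.1.differentiableWithinAt, hsz,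
    ⟨q, hq0, hq1, fun y hy => (hRb y (hsub hy)).2.2.2⟩, fun y hy => (hRb y (hsub hy)).2.1,
    fun x hx _ => (hRb x (hsub hx)).1, ?_, ?_, ?_, ?_⟩
  · exact hκd.comp (by fun_prop : DifferentiableOn ℂ (fun y : ℂ => y - z) (ball z r)) hmem2
  · intro x hx y hy hxy
    have := hκi (hmem2 x hx) (hmem2 y hy) hxy
    linear_combination this
  · simp [hκ0]
  · intro y hy
    have h1 := hκF (y - z) (hmem2 y hy)
    rw [hFder, hF] at h1
    simp only [add_sub_cancel] at h1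
    show κ (y - z) = ρ * κ (s y - z)
    rw [h1, ← mul_assoc, mul_inv_cancel₀ hρ0, one_mul]

end Pool.Agent.KS6_23.ML.Koenigs
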