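import Pool.Agent.KS6_23.ML.NEST
import Pool.Agent.KS6_23.ML.SHEET

set_option autoImplicit false

/-! # Project ML: localization -/

open Complex Set Filter Metric Topology MeasureTheory

namespace Pool.Agent.KS6_23.ML.LOC

open Pool.Agent.KS6_23.ML Pool.Agent.KS6_23.ML.Basic Pool.Agent.KS6_23.ML.LabC
open Pool.Agent.KS6_23.ML.Curve Pool.Agent.KS6_23.ML.SHEET Pool.Agent.KS6_23.ML.NEST

theorem conn_loc {L : Set ℂ} (hL : IsPreconnected L) {P : ℂ → Prop}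
    (h1 : ∀ s ∈ L, P s → ∀ᶠ s' in 𝓝 s, s' ∈ L → P s')
    (h2 : ∀ s ∈ L, ¬ P s → ∀ᶠ s' in 𝓝 s, s' ∈ L → ¬ P s') {s₀ : ℂ} (hs₀ : s₀ ∈ L) (h : P s₀) :
    ∀ s ∈ L, P s := by
  intro s hs
  by_contra hPs
  have hU : IsOpen {x : ℂ | ∀ᶠ s' in 𝓝 x, s' ∈ L → P s'} := by
    rw [isOpen_iff_mem_nhds]
    intro x hx
    exact eventually_eventually_nhds.2 hx
  have hV : IsOpen {x : ℂ | ∀ᶠ s' in 𝓝 x, s' ∈ L → ¬ P s'} := by
    rw [isOpen_iff_mem_nhds]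
    intro x hx
    exact eventually_eventually_nhds.2 hx
  obtain ⟨x, hx, hxU, hxV⟩ := hL _ _ hU hV (by
    intro x hx
    by_cases hP : P x
    · exact Or.inl (h1 x hx hP)
    · exact Or.inr (h2 x hx hP)) ⟨s₀, hs₀, h1 s₀ hs₀ h⟩ ⟨s, hs, h2 s hs hPs⟩
  exact (hxV.self_of_nhds hx) (hxU.self_of_nhds hx)

section

variable {κ₀ : ℝ} {n : ℕ} {t : ℝ} {ψ ζ : ℂ → ℂ}

theorem cont1 (h : Sheet κ₀ n t ψ ζ) {s : ℂ} (hs : s ∈ Om κ₀ n t) : ContinuousAt ψ s :=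
  (h.diff.differentiableAt ((Om_open _ _ _).mem_nhds hs)).continuousAt

theorem cont3 (h : Sheet κ₀ n t ψ ζ) {s : ℂ} (hs : s ∈ Om κ₀ n t) :
    ContinuousAt (fun s' : ℂ => ((ψ s', ζ s', s') : ℂ × ℂ × ℂ)) s :=
  (cont1 h hs).prodMk (((h.zdiff.differentiableAt ((Om_open _ _ _).mem_nhds hs)).continuousAt).prodMk
    continuousAt_id)

theorem open_map (h : Sheet κ₀ n t ψ ζ) {s : ℂ} (hs : s ∈ Om κ₀ n t) :
    𝓝 (ψ s) ≤ map ψ (𝓝 s) := by
  have hA : AnalyticAt ℂ ψ s := h.diff.analyticAt ((Om_open _ _ _).mem_nhds hs)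
  rcases hA.eventually_constant_or_nhds_le_map_nhds with h1 | h1
  · exfalso
    apply h.der s hs
    have : ψ =ᶠ[𝓝 s] fun _ => ψ s := h1
    rw [this.deriv_eq]
    simp
  · exact h1

/-- a property of the points of the sheet near `s` holds for all the parameters near `ψ s` -/
theorem near_map (h : Sheet κ₀ n t ψ ζ) {s : ℂ} (hs : s ∈ Om κ₀ n t) {P : ℂ → Prop}
    (hP : ∀ᶠ s' in 𝓝 s, P (ψ s')) : ∀ᶠ c in 𝓝 (ψ s), P c :=
  open_map h hs hP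

theorem ne_near (h : Sheet κ₀ n t ψ ζ) {s : ℂ} (hs : s ∈ Om κ₀ n t) :
    ∀ᶠ s' in 𝓝 s, s' ≠ s → ψ s' ≠ ψ s := by
  have h1 := (h.diff.differentiableAt ((Om_open _ _ _).mem_nhds hs)).hasDerivAt
  exact eventually_nhdsWithin_iff.1 (h1.eventually_ne (h.der s hs) (c := ψ s))

theorem mem_le (hFr : S_FRO) (hn : 1 ≤ n) (h : Sheet κ₀ n t ψ ζ) {s : ℂ} (hs : s ∈ Om κ₀ n t)
    (hre : s.re ≤ 0) : ψ s ∈ MM := by
  have h1 := h.mem s hs
  refine (hFr n (ψ s) (ζ s) hn h1.2.1 ?_).1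
  have h2 := h1.2.2
  simp only at h2
  rw [h2, norm_exp]
  exact Real.exp_le_one_iff.2 hre

theorem mem_bd (hFr : S_FRO) (hn : 1 ≤ n) (h : Sheet κ₀ n t ψ ζ) {s : ℂ} (hs : s ∈ Om κ₀ n t)
    (hre : s.re = 0) : ψ s ∈ closure MMᶜ := by
  have h1 := h.mem s hs
  have h2 := h1.2.2
  simp only at h2
  have h3 : ‖mul n (ψ s) (ζ s)‖ = 1 := by rw [h2, norm_exp, hre, Real.exp_zero]
  exact (hFr n (ψ s) (ζ s) hn h1.2.1 h3.le).2 h3 (by rw [h2]; exact Om_exp hs)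

theorem not_bd (hFr : S_FRO) (hn : 1 ≤ n) (h : Sheet κ₀ n t ψ ζ) {s : ℂ} (hs : s ∈ Om κ₀ n t)
    (hre : s.re < 0) : ψ s ∉ closure MMᶜ := by
  have h1 : ∀ᶠ s' in 𝓝 s, ψ s' ∈ MM := by
    have h2 : ∀ᶠ s' in 𝓝 s, s' ∈ Om κ₀ n t := (Om_open _ _ _).mem_nhds hs
    have h3 : ∀ᶠ s' : ℂ in 𝓝 s, s'.re < 0 :=
      (isOpen_lt continuous_re continuous_const).mem_nhds hre
    filter_upwards [h2, h3] with s' g1 g2 using mem_le hFr hn h g1 g2.le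
  have h2 := near_map h hs h1
  rw [mem_closure_iff_frequently]
  intro h3
  obtain ⟨c, g1, g2⟩ := (h3.and_eventually h2).exists
  exact g1 g2

variable {lab : ℂ × ℂ × ℂ → Fin (n * 2 ^ (n - 1))} {cl : ℂ × ℂ × ℂ → ℝ}
  {S : Fin (n * 2 ^ (n - 1)) → ℝ → Set ℂ}

theorem xx (h : Sheet κ₀ n t ψ ζ) {s : ℂ} (hs : s ∈ Om κ₀ n t) {t' : ℝ} (hre : 0 < s.re)
    (h2 : s ∈ DD κ₀ n t') : (ψ s, ζ s, s) ∈ XX n (DD κ₀ n t' ∩ HP) :=
  ⟨⟨h2, hre⟩, (h.mem s hs).2⟩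

/-- the label is constant on a sheet -/
theorem lab_const (hκ : 0 < κ₀) (hn : 1 ≤ n) (ht : dZ t ≠ 0) (hS : Sep κ₀ n lab cl S)
    (h : Sheet κ₀ n t ψ ζ) : ∃ i, ∀ s ∈ Om κ₀ n t, 0 < s.re → lab (ψ s, ζ s, s) = i := by
  have hopen : ∀ s ∈ Om κ₀ n t ∩ HP, ∀ᶠ s' in 𝓝 s, lab (ψ s', ζ s', s') = lab (ψ s, ζ s, s) := by
    rintro s ⟨hs, hre⟩
    obtain ⟨h1, h2⟩ := Om_DD hκ hn ht hs (le_of_lt hre)
    have h3 := hS.lab_loc _ h1 _ (xx h hs hre h2)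
    have h4 : ∀ᶠ s' in 𝓝 s, (ψ s', ζ s', s') ∈
        XX n (DD κ₀ n (s.im / (2 * Real.pi)) ∩ HP) := by
      have g1 : ∀ᶠ s' in 𝓝 s, s' ∈ DD κ₀ n (s.im / (2 * Real.pi)) := isOpen_ball.mem_nhds h2
      have g2 : ∀ᶠ s' in 𝓝 s, s' ∈ HP := isOpen_HP.mem_nhds hre
      have g3 : ∀ᶠ s' in 𝓝 s, s' ∈ Om κ₀ n t := (Om_open _ _ _).mem_nhds hs
      filter_upwards [g1, g2, g3] with s' k1 k2 k3 using xx h k3 k2 k1
    filter_upwards [(cont3 h hs).eventually h3, h4] with s' g1 g2 using g1 g2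
  by_cases hne : (Om κ₀ n t ∩ HP).Nonempty
  · obtain ⟨s₀, hs₀⟩ := hne
    refine ⟨lab (ψ s₀, ζ s₀, s₀), fun s hs hre => ?_⟩
    refine conn_loc (L := Om κ₀ n t ∩ HP) (P := fun s => lab (ψ s, ζ s, s) = lab (ψ s₀, ζ s₀, s₀))
      ?_ ?_ ?_ hs₀ rfl s ⟨hs, hre⟩
    · exact ((Om_convex _ _ _).inter (convex_halfSpace_re_gt 0)).isPreconnected
    · intro s hs hP
      filter_upwards [hopen s hs] with s' g _
      rw [g, hP]
    · intro s hs hP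
      filter_upwards [hopen s hs] with s' g _
      rw [g]
      exact hP
  · refine ⟨⟨0, Nat.mul_pos (by omega) (by positivity)⟩, fun s hs hre => ?_⟩
    exact absurd ⟨s, hs, hre⟩ hne

/-- the points of `S i v` near a point outside are on the sheet with the label `i` near `2 π i v` -/
theorem near_sheet (hS : Sep κ₀ n lab cl S)
    (h : Sheet κ₀ n t ψ ζ) {i : Fin (n * 2 ^ (n - 1))}
    (hi : ∀ s ∈ Om κ₀ n t, 0 < s.re → lab (ψ s, ζ s, s) = i) {v : ℝ} (hv : dZ v ≠ 0)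
    (hvO : tpi * (v : ℂ) ∈ Om κ₀ n t) {c : ℂ} (hc : c ∉ S i v) {ε : ℝ} (hε : 0 < ε) :
    ∀ᶠ c' in 𝓝 c, c' ∈ S i v → ∃ s ∈ Om κ₀ n t, 0 < s.re ∧ ‖s - tpi * v‖ < ε ∧ ψ s = c' := by
  obtain ⟨δ, hδ, hb⟩ := Metric.isOpen_iff.1 (Om_open κ₀ n t) _ hvO
  filter_upwards [hS.near i v hv c hc (min ε δ) (by positivity)] with c' g1 g2
  obtain ⟨z, s, hx, hl, hs⟩ := g1 g2
  have hsO : s ∈ Om κ₀ n t := hb (by
    rw [mem_ball, dist_eq_norm]
    exact lt_of_lt_of_le hs (min_le_right _ _))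
  have hre : 0 < s.re := hx.1.2
  refine ⟨s, hsO, hre, lt_of_lt_of_le hs (min_le_left _ _), ?_⟩
  have h2 := hS.lab_inj v hv _ hx _ (xx h hsO hre hx.1.1) rfl (by rw [hl, hi s hsO hre])
  exact (congrArg Prod.fst h2).symm

/-- the sets `S i v` are open and closed in `M` without the root -/
theorem clo_S {G : ℂ → ℂ → ℝ} {B₀ : ℂ → ℂ → ℂ} {cc : ℂ → ℂ} (hB : Base G B₀ cc)
    (hS : Sep κ₀ n lab cl S) (h : Sheet κ₀ n t ψ ζ) {i : Fin (n * 2 ^ (n - 1))}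
    (hi : ∀ s ∈ Om κ₀ n t, 0 < s.re → lab (ψ s, ζ s, s) = i) {v : ℝ} (hv : dZ v ≠ 0)
    (hvO : tpi * (v : ℂ) ∈ Om κ₀ n t) : Clo (ψ (tpi * v)) (S i v) := by
  have hcls : closure (S i v) ⊆ insert (ψ (tpi * v)) (S i v) := by
    intro c hc
    by_contra hcn
    rw [mem_insert_iff] at hcn
    push Not at hcn
    obtain ⟨hne, hcS⟩ := hcn
    have hη : 0 < ‖c - ψ (tpi * v)‖ / 2 := by
      have := norm_pos_iff.2 (sub_ne_zero.2 hne)
      positivity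
    have h1 : ∀ᶠ s in 𝓝 (tpi * (v : ℂ)), ‖ψ s - ψ (tpi * v)‖ < ‖c - ψ (tpi * v)‖ / 2 := by
      have h2 := (cont1 h hvO).eventually (ball_mem_nhds _ hη)
      filter_upwards [h2] with s hs
      rwa [dist_eq_norm] at hs
    obtain ⟨ε, hε, hb⟩ := Metric.eventually_nhds_iff_ball.1 h1
    have h3 : ∀ᶠ c' in 𝓝 c, ‖c' - c‖ < ‖c - ψ (tpi * v)‖ / 2 := by
      filter_upwards [ball_mem_nhds c hη] with c' hc'
      rwa [mem_ball, dist_eq_norm] at hc'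
    obtain ⟨c', g1, g2, g3⟩ := ((mem_closure_iff_frequently.1 hc).and_eventually
      ((near_sheet hS h hi hv hvO hcS hε).and h3)).exists
    obtain ⟨s, _, _, hs, hsc⟩ := g2 g1
    have h4 := hb s (by rw [mem_ball, dist_eq_norm]; exact hs)
    rw [hsc] at h4
    have h5 : ‖c - ψ (tpi * v)‖ ≤ ‖c' - c‖ + ‖c' - ψ (tpi * v)‖ := by
      have : c - ψ (tpi * v) = -(c' - c) + (c' - ψ (tpi * v)) := by ring
      rw [this]
      exact (norm_add_le _ _).trans (by rw [norm_neg])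
    linarith
  refine ⟨fun c hc => ⟨hS.sub i v hc, ?_⟩, hS.opn i v, hcls⟩
  rintro rfl
  have h1 : closure (S i v) ⊆ S i v := by
    rwa [insert_eq_of_mem hc] at hcls
  exact hS.zero i v hv (clopen hB.conn.isPreconnected ⟨_, hc⟩ (hS.sub i v) (hS.opn i v) h1
    (zero_mem hB))

end

/-- zero is in the interior of the Mandelbrot set -/
theorem zero_int {G : ℂ → ℂ → ℝ} {B₀ : ℂ → ℂ → ℂ} {cc : ℂ → ℂ} (hB : Base G B₀ cc) :
    (0 : ℂ) ∉ closure MMᶜ := by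
  rw [mem_closure_iff_frequently]
  intro h
  have h1 : ∀ᶠ c : ℂ in 𝓝 0, c ∈ MM := by
    filter_upwards [ball_mem_nhds (0 : ℂ) (by norm_num : (0 : ℝ) < 1 / 4)] with c hc
    rw [mem_ball_zero_iff] at hc
    rw [← hB.gM, hB.gzero]
    refine ⟨1 / 2, fun k => ?_⟩
    induction k with
    | zero => simp only [Function.iterate_zero, id_eq]; linarith
    | succ k ih =>
      rw [Function.iterate_succ_apply']
      unfold f
      refine (norm_add_le _ _).trans ?_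
      rw [norm_pow]
      have h2 : ‖(f c)^[k] c‖ ^ 2 ≤ 1 / 4 := by nlinarith [norm_nonneg ((f c)^[k] c)]
      have h3 : ‖(f c)^[k] c‖ ^ 2 = ‖(fun z => z ^ 2 + c)^[k] c‖ ^ 2 := rfl
      linarith
  obtain ⟨c, g1, g2⟩ := (h.and_eventually h1).exists
  exact g1 g2

/-- a clopen set in `M` without the point `a` which contains all the points near `a` -/
theorem not_all {G : ℂ → ℂ → ℝ} {B₀ : ℂ → ℂ → ℂ} {cc : ℂ → ℂ} (hB : Base G B₀ cc) {a : ℂ}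
    {Q : Set ℂ} (ha : a ∈ closure MMᶜ) (haM : a ∈ MM) (hQ : Clo a Q) (h0 : (0 : ℂ) ∉ Q) :
    ¬ ∀ᶠ c in 𝓝 a, c ∈ MM → c ∈ insert a Q := by
  intro hev
  have hMc : IsClosed MM := MM_closed hB
  have h0a : (0 : ℂ) ≠ a := by
    rintro rfl
    exact zero_int hB ha
  have h1 : MM ⊆ MM \ insert a Q := by
    refine clopen hB.conn.isPreconnected ⟨0, zero_mem hB, ?_⟩ (fun x hx => hx.1) ?_ ?_
    · rw [mem_insert_iff]
      push Not
      exact ⟨h0a, h0⟩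
    · rintro c ⟨hc, hcn⟩
      have hcQ : c ∉ closure Q := fun h => hcn (hQ.cls h)
      have hca : c ≠ a := fun h => hcn (Or.inl h)
      filter_upwards [not_near hcQ, isOpen_ne.mem_nhds hca] with c' g1 g2 g3
      refine ⟨g3, ?_⟩
      rw [mem_insert_iff]
      push Not
      exact ⟨g2, g1⟩
    · intro c hc
      have hcM : c ∈ MM := closure_minimal (fun x hx => hx.1) hMc hc
      refine ⟨hcM, fun hcn => ?_⟩
      have h2 : ∀ᶠ c' in 𝓝 c, c' ∈ MM → c' ∈ insert a Q := by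
        rcases hcn with h | h
        · rw [h]; exact hev
        · filter_upwards [hQ.opn c h] with c' g1 g2 using Or.inr (g1 g2)
      obtain ⟨c', g1, g2⟩ := ((mem_closure_iff_frequently.1 hc).and_eventually h2).exists
      exact g1.2 (g2 g1.1)
  exact (h1 haM).2 (mem_insert _ _)


theorem clo_union {a : ℂ} {A B : Set ℂ} (hA : Clo a A) (hB : Clo a B) : Clo a (A ∪ B) := by
  refine ⟨union_subset hA.sub hB.sub, ?_, ?_⟩
  · rintro c (h | h)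
    · filter_upwards [hA.opn c h] with c' g1 g2 using Or.inl (g1 g2)
    · filter_upwards [hB.opn c h] with c' g1 g2 using Or.inr (g1 g2)
  · rw [closure_union]
    rintro c (h | h)
    · rcases hA.cls h with h2 | h2
      · exact Or.inl h2
      · exact Or.inr (Or.inl h2)
    · rcases hB.cls h with h2 | h2
      · exact Or.inl h2
      · exact Or.inr (Or.inr h2)

section

variable {κ₀ : ℝ} {n : ℕ} {t : ℝ} {ψ ζ : ℂ → ℂ} {a : ℂ} {Q : Set ℂ}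

/-- the attracting part of the sheet is in `Q` -/
theorem att_Q (hFr : S_FRO) (hn : 1 ≤ n) (h : Sheet κ₀ n t ψ ζ) (ha : a ∈ closure MMᶜ)
    (hQ : Clo a Q) (hex : ∃ s ∈ Om κ₀ n t, s.re < 0 ∧ ψ s ∈ Q) :
    ∀ s ∈ Om κ₀ n t, s.re < 0 → ψ s ∈ Q := by
  obtain ⟨s₀, hs₀, hre₀, hQ₀⟩ := hex
  intro s hs hre
  refine conn_loc (L := Om κ₀ n t ∩ {s : ℂ | s.re < 0}) (P := fun s => ψ s ∈ Q) ?_ ?_ ?_
    ⟨hs₀, hre₀⟩ hQ₀ s ⟨hs, hre⟩
  · exact ((Om_convex _ _ _).inter (convex_halfSpace_re_lt 0)).isPreconnected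
  · rintro s ⟨hs, hre⟩ hP
    filter_upwards [(cont1 h hs).eventually (hQ.opn _ hP)] with s' g1 g2
    exact g1 (mem_le hFr hn h g2.1 (le_of_lt g2.2))
  · rintro s ⟨hs, hre⟩ hP
    have h1 : ψ s ∉ closure Q := by
      intro h2
      rcases hQ.cls h2 with h3 | h3
      · exact not_bd hFr hn h hs hre (h3 ▸ ha)
      · exact hP h3
    filter_upwards [(cont1 h hs).eventually (not_near h1)] with s' g1 _ using g1

/-- the points of the sheet over the imaginary axis -/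
theorem axis_Q (h : Sheet κ₀ n t ψ ζ) (hQ : Clo a Q)
    (hatt : ∀ s ∈ Om κ₀ n t, s.re < 0 → ψ s ∈ Q) :
    ∀ s ∈ Om κ₀ n t, s.re = 0 → ψ s ∈ insert a Q := by
  intro s hs hre
  apply hQ.cls
  have h1 : Tendsto (fun x : ℝ => s - x) (𝓝[>] 0) (𝓝 s) := by
    have h2 : Tendsto (fun x : ℝ => s - x) (𝓝 0) (𝓝 (s - (0 : ℝ))) :=
      (continuous_const.sub continuous_ofReal).tendsto 0
    simp only [ofReal_zero, sub_zero] at h2
    exact h2.mono_left nhdsWithin_le_nhds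
  have h3 : Tendsto (fun x : ℝ => ψ (s - x)) (𝓝[>] 0) (𝓝 (ψ s)) := (cont1 h hs).tendsto.comp h1
  refine mem_closure_of_tendsto h3 ?_
  filter_upwards [h1.eventually ((Om_open _ _ _).mem_nhds hs), self_mem_nhdsWithin] with x g1 g2
  refine hatt _ g1 ?_
  rw [sub_re, hre, ofReal_re, zero_sub, neg_lt_zero]
  exact g2

variable {lab : ℂ × ℂ × ℂ → Fin (n * 2 ^ (n - 1))} {cl : ℂ × ℂ × ℂ → ℝ}
  {S : Fin (n * 2 ^ (n - 1)) → ℝ → Set ℂ} {i : Fin (n * 2 ^ (n - 1))}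

/-- the class of a point of the sheet -/
theorem exists_cl (hκ : 0 < κ₀) (hn : 1 ≤ n) (ht : dZ t ≠ 0) (hS : Sep κ₀ n lab cl S)
    (h : Sheet κ₀ n t ψ ζ) (hi : ∀ s ∈ Om κ₀ n t, 0 < s.re → lab (ψ s, ζ s, s) = i) {s : ℂ}
    (hs : s ∈ Om κ₀ n t) (hre : 0 < s.re) (hM : ψ s ∈ MM) : ∃ v : ℝ, dZ v ≠ 0 ∧
      ‖s - tpi * v‖ ^ 2 ≤ 2 * n * Real.log 2 * s.re ∧ ψ s ∈ S i v := by
  obtain ⟨h1, h2⟩ := Om_DD hκ hn ht hs hre.le
  have hx := xx h hs hre h2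
  obtain ⟨h3, p, q, hq, _, h4⟩ := hS.cl_rat _ h1 _ hx hM
  refine ⟨cl (ψ s, ζ s, s), h3, h4.trans ?_, ?_⟩
  · simp only
    have hq1 : (1 : ℝ) ≤ q := by exact_mod_cast hq
    have hlog : 0 < Real.log 2 := Real.log_pos (by norm_num)
    gcongr
    exact div_le_self (by positivity) hq1
  · have h5 := hS.mem _ h1 _ hx hM
    rwa [hi s hs hre] at h5

/-- a point of the sheet over the right half plane is in `Q` if the root of its limb is -/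
theorem in_Q (hBase : S_BASE) (hS : Sep κ₀ n lab cl S) (h : Sheet κ₀ n t ψ ζ)
    (hi : ∀ s ∈ Om κ₀ n t, 0 < s.re → lab (ψ s, ζ s, s) = i) (haM : a ∈ MM) (hQ : Clo a Q)
    (h0 : (0 : ℂ) ∉ Q) {v : ℝ} (hv : dZ v ≠ 0) (hvO : tpi * (v : ℂ) ∈ Om κ₀ n t)
    (hvQ : ψ (tpi * v) ∈ Q) : S i v ⊆ Q := by
  obtain ⟨G, B₀, cc, hB⟩ := id hBase
  exact (nest hBase a (ψ (tpi * v)) Q (S i v) haM hvQ hQ (clo_S hB hS h hi hv hvO) h0
    (hS.zero i v hv)).1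

theorem re_tpi (v : ℝ) : (tpi * (v : ℂ)).re = 0 := by
  rw [_root_.mul_comm, real_mul_tpi_re]

theorem im_tpi (v : ℝ) : (tpi * (v : ℂ)).im = 2 * Real.pi * v := by
  rw [_root_.mul_comm, real_mul_tpi_im]

theorem eq_tpi {s : ℂ} (hre : s.re = 0) : s = tpi * ((s.im / (2 * Real.pi) : ℝ) : ℂ) := by
  apply Complex.ext
  · rw [re_tpi, hre]
  · rw [im_tpi]
    field_simp

/-- all the points of the sheet over the axis are in `Q` -/
theorem axis_ne (hBase : S_BASE) (hκ : 0 < κ₀) (hn : 1 ≤ n) (ht : dZ t ≠ 0)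
    (hS : Sep κ₀ n lab cl S) (h : Sheet κ₀ n t ψ ζ)
    (hi : ∀ s ∈ Om κ₀ n t, 0 < s.re → lab (ψ s, ζ s, s) = i) (ha : a ∈ closure MMᶜ)
    (haM : a ∈ MM) (hQ : Clo a Q) (h0 : (0 : ℂ) ∉ Q)
    (hatt : ∀ s ∈ Om κ₀ n t, s.re < 0 → ψ s ∈ Q) {v : ℝ} (hvO : tpi * (v : ℂ) ∈ Om κ₀ n t) :
    ψ (tpi * v) ∈ Q := by
  obtain ⟨G, B₀, cc, hB⟩ := id hBase
  have hv : dZ v ≠ 0 := by
    have h1 := (Om_DD hκ hn ht hvO (re_tpi v).ge).1
    rw [im_tpi] at h1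
    have h2 : 2 * Real.pi * v / (2 * Real.pi) = v := by field_simp
    rwa [h2] at h1
  rcases axis_Q h hQ hatt _ hvO (re_tpi v) with hva | hva
  swap
  · exact hva
  exfalso
  have hclo := clo_S hB hS h hi hv hvO
  rw [hva] at hclo
  have hlog : 0 < Real.log 2 := Real.log_pos (by norm_num)
  refine not_all hB ha haM (clo_union hclo hQ) (fun h1 => h1.elim (hS.zero i v hv) h0) ?_
  rw [← hva]
  refine near_map h hvO (P := fun c => c ∈ MM → c ∈ insert (ψ (tpi * v)) (S i v ∪ Q)) ?_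
  -- a small disc
  obtain ⟨ρ, hρ, hb⟩ := Metric.eventually_nhds_iff_ball.1
    ((ne_near h hvO).and ((Om_open κ₀ n t).mem_nhds hvO))
  have e1 : ∀ᶠ s in 𝓝 (tpi * (v : ℂ)), ‖s - tpi * v‖ < ρ / 2 := by
    filter_upwards [ball_mem_nhds (tpi * (v : ℂ)) (half_pos hρ)] with s hs
    rwa [mem_ball, dist_eq_norm] at hs
  have e2 : ∀ᶠ s : ℂ in 𝓝 (tpi * (v : ℂ)), 2 * n * Real.log 2 * s.re < (ρ / 2) ^ 2 := by
    have h1 : Tendsto (fun s : ℂ => 2 * n * Real.log 2 * s.re) (𝓝 (tpi * (v : ℂ)))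
        (𝓝 (2 * n * Real.log 2 * (tpi * (v : ℂ)).re)) :=
      (continuous_const.mul continuous_re).tendsto _
    rw [re_tpi, mul_zero] at h1
    exact h1.eventually_lt_const (by positivity)
  filter_upwards [e1, e2] with s hs1 hs2 hsM
  have hsO : s ∈ Om κ₀ n t := (hb s (by
    rw [mem_ball, dist_eq_norm]
    linarith)).2
  rcases lt_trichotomy s.re 0 with hre | hre | hre
  · exact Or.inr (Or.inr (hatt s hsO hre))
  · rcases axis_Q h hQ hatt s hsO hre with h1 | h1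
    · exact Or.inl (h1.trans hva.symm)
    · exact Or.inr (Or.inr h1)
  · obtain ⟨v', hv', hb1, hmem⟩ := exists_cl hκ hn ht hS h hi hsO hre hsM
    have hb2 : ‖s - tpi * v'‖ < ρ / 2 := by
      refine lt_of_pow_lt_pow_left₀ 2 (by positivity) (lt_of_le_of_lt hb1 hs2)
    have hb3 : tpi * (v' : ℂ) ∈ ball (tpi * (v : ℂ)) ρ := by
      rw [mem_ball, dist_eq_norm]
      have h1 : tpi * (v' : ℂ) - tpi * v = -(s - tpi * v') + (s - tpi * v) := by ring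
      rw [h1]
      refine lt_of_le_of_lt (norm_add_le _ _) ?_
      rw [norm_neg]
      linarith
    obtain ⟨k1, k2⟩ := hb _ hb3
    by_cases hvv : v' = v
    · subst hvv
      exact Or.inr (Or.inl hmem)
    · have hne : tpi * (v' : ℂ) ≠ tpi * v := by
        intro h1
        apply hvv
        have := mul_left_cancel₀ tpi_ne h1
        exact_mod_cast this
      have h2 := k1 hne
      rcases axis_Q h hQ hatt _ k2 (re_tpi v') with h3 | h3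
      · exact absurd (h3.trans hva.symm) h2
      · exact Or.inr (Or.inr (in_Q hBase hS h hi haM hQ h0 hv' k2 h3 hmem))

/-- localization, general form -/
theorem loc_gen (hBase : S_BASE) (hFr : S_FRO) (hκ : 0 < κ₀) (hn : 1 ≤ n) (ht : dZ t ≠ 0)
    (hS : Sep κ₀ n lab cl S) (h : Sheet κ₀ n t ψ ζ)
    (hi : ∀ s ∈ Om κ₀ n t, 0 < s.re → lab (ψ s, ζ s, s) = i) (ha : a ∈ closure MMᶜ)
    (hQ : Clo a Q) (h0 : (0 : ℂ) ∉ Q) (hex : ∃ s ∈ Om κ₀ n t, s.re < 0 ∧ ψ s ∈ Q) {s : ℂ}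
    (hs : s ∈ Om κ₀ n t) (hM : ψ s ∈ MM)
    (hsm : 0 < s.re → ∀ v : ℝ, ‖s - tpi * v‖ ^ 2 ≤ 2 * n * Real.log 2 * s.re →
      tpi * (v : ℂ) ∈ Om κ₀ n t) : ψ s ∈ Q := by
  obtain ⟨G, B₀, cc, hB⟩ := id hBase
  have hatt := att_Q hFr hn h ha hQ hex
  have haM : a ∈ MM := by
    obtain ⟨s₁, _, _, h1⟩ := hex
    have h2 := LIMB.conn_lemma hB.conn.isPreconnected ⟨_, h1⟩ (fun x hx => (hQ.sub hx).1)
      (zero_mem hB) h0 hQ.opn hQ.cls
    exact closure_minimal (fun x hx => (hQ.sub hx).1) (MM_closed hB) h2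
  rcases lt_trichotomy s.re 0 with hre | hre | hre
  · exact hatt s hs hre
  · have h1 := eq_tpi hre
    rw [h1] at hs ⊢
    exact axis_ne hBase hκ hn ht hS h hi ha haM hQ h0 hatt hs
  · obtain ⟨v, hv, hb1, hmem⟩ := exists_cl hκ hn ht hS h hi hs hre hM
    have hvO := hsm hre v hb1
    exact in_Q hBase hS h hi haM hQ h0 hv hvO
      (axis_ne hBase hκ hn ht hS h hi ha haM hQ h0 hatt hvO) hmem

end

/-- the small disc is in the half strip, with the roots of its limbs -/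
theorem DD_Om {κ₀ : ℝ} {n : ℕ} {t : ℝ} (hκ : 0 < κ₀) (hκ1 : κ₀ ≤ 1 / 4) (hn : 1 ≤ n)
    (ht : dZ t ≠ 0) {s : ℂ} (hs : s ∈ DD (κ₀ / 16) n t) : s ∈ Om κ₀ n t ∧
      (0 < s.re → ∀ v : ℝ, ‖s - tpi * v‖ ^ 2 ≤ 2 * n * Real.log 2 * s.re →
        tpi * (v : ℂ) ∈ Om κ₀ n t) := by
  have hd : 0 < dZ t := lt_of_le_of_ne (dZ_nonneg t) (Ne.symm ht)
  have hd2 : dZ t ≤ 1 / 2 := abs_sub_round t
  have hn1 : (1 : ℝ) ≤ n := by exact_mod_cast hn
  have hn0 : (0 : ℝ) < n := by linarith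
  have h1 : ‖s - tpi * t‖ < κ₀ / 16 * dZ t ^ 2 / n := by
    rw [← dist_eq_norm]
    exact hs
  have h2 : κ₀ / 16 * dZ t ^ 2 / n ≤ dZ t / 128 := by
    rw [div_le_iff₀ hn0]
    have g1 : κ₀ / 16 * dZ t ^ 2 ≤ 1 / 4 / 16 * (1 / 2 * dZ t) := by
      have : dZ t ^ 2 ≤ 1 / 2 * dZ t := by nlinarith
      gcongr
    have g2 : dZ t / 128 * 1 ≤ dZ t / 128 * n := by gcongr
    linarith
  have him : |s.im - 2 * Real.pi * t| ≤ ‖s - tpi * t‖ := by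
    have := abs_im_le_norm (s - tpi * t)
    rwa [sub_im, im_tpi] at this
  have hre : s.re ≤ ‖s - tpi * t‖ := by
    have := (le_abs_self _).trans (abs_re_le_norm (s - tpi * t))
    rwa [sub_re, re_tpi, sub_zero] at this
  have h3 : κ₀ / 16 * dZ t ^ 2 / n ≤ κ₀ * dZ t ^ 2 / (2 * n) := by
    rw [div_le_div_iff₀ hn0 (by positivity)]
    have : 0 ≤ κ₀ * dZ t ^ 2 * n := by positivity
    linarith
  refine ⟨⟨by linarith, by linarith⟩, fun hre0 v hv => ⟨?_, ?_⟩⟩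
  · rw [im_tpi]
    have h4 : s.re * n ≤ κ₀ / 16 * dZ t ^ 2 := by
      have := hre.trans h1.le
      rwa [le_div_iff₀ hn0] at this
    have hlog := Real.log_two_lt_d9
    have hlog0 : 0 < Real.log 2 := Real.log_pos (by norm_num)
    have h5 : ‖s - tpi * v‖ ^ 2 ≤ (3 / 20 * dZ t) ^ 2 := by
      refine hv.trans ?_
      calc 2 * n * Real.log 2 * s.re = 2 * Real.log 2 * (s.re * n) := by ring
        _ ≤ 2 * Real.log 2 * (κ₀ / 16 * dZ t ^ 2) := by gcongr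
        _ ≤ 2 * (7 / 10) * (1 / 4 / 16 * dZ t ^ 2) := by
          gcongr
          linarith
        _ ≤ _ := by nlinarith [sq_nonneg (dZ t)]
    have h6 : ‖s - tpi * v‖ ≤ 3 / 20 * dZ t := le_of_sq_le_sq (by simpa using h5) (by positivity)
    have h7 : |s.im - 2 * Real.pi * v| ≤ ‖s - tpi * v‖ := by
      have := abs_im_le_norm (s - tpi * v)
      rwa [sub_im, im_tpi] at this
    rw [abs_le] at him h7
    rw [abs_lt]
    constructor <;> linarith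
  · rw [re_tpi]
    positivity

theorem loc (hBase : S_BASE) (hFr : S_FRO) : S_LOC := by
  intro κ₀ hP n t ψ ζ a Q hn ht h ha hQ h0 hex s hs hM
  obtain ⟨lab, cl, S, hS⟩ := hP.sep n hn
  obtain ⟨i, hi⟩ := lab_const hP.pos hn ht hS h
  obtain ⟨h1, h2⟩ := DD_Om hP.pos hP.le hn ht hs
  exact loc_gen hBase hFr hP.pos hn ht hS h hi ha hQ h0 hex h1 hM h2

end Pool.Agent.KS6_23.ML.LOC
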