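import Pool.Agent.KS6_23.ML.LabA

set_option autoImplicit false

/-! # Project ML: ray cycles landing at periodic points -/

open Complex Set Filter Metric Topology MeasureTheory

namespace Pool.Agent.KS6_23.ML.LabB

open Pool.Agent.KS6_23.ML Pool.Agent.KS6_23.ML.Basic Pool.Agent.KS6_23.ML.LabA

section
variable {G : ℂ → ℂ → ℝ} {B : ℂ → ℂ → ℂ} {cc : ℂ → ℂ} {lam : ℂ → ℂ → ℂ}
  {Z ell : (ℕ → Bool) → ℂ → ℂ}

/-- the rays `θ` land at the point of `x`, with the integer `p`; for parameters of `M` -/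
def LM (G : ℂ → ℂ → ℝ) (B : ℂ → ℂ → ℂ) (n N : ℕ) (θ : ℕ → ℝ) (p : ℤ) (x : ℂ × ℂ × ℂ) : Prop :=
  ∀ (κ : ℝ) (β : ℕ → ℂ → ℂ) (zz : ℕ → ℂ) (Λ : ℂ), 0 < κ → Sec G B x.1 N θ κ β →
    Land N κ β zz Λ → (∀ k, zz k = (f x.1)^[k] x.2.1) ∧ Λ = ((N / n : ℕ) : ℂ) * x.2.2 - p * tpi

/-- the rays `θ` land at the point of `x`, with the integer `p`; for all parameters -/
def LE (G : ℂ → ℂ → ℝ) (B : ℂ → ℂ → ℂ) (cc : ℂ → ℂ) (n N : ℕ) (θ : ℕ → ℝ) (p : ℤ)
    (x : ℂ × ℂ × ℂ) : Prop :=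
  ∃ (κ : ℝ) (β : ℕ → ℂ → ℂ) (zz : ℕ → ℂ) (Λ : ℂ), 0 < κ ∧ Free cc x.1 θ κ ∧
    Sec G B x.1 N θ κ β ∧ Land N κ β zz Λ ∧ (∀ k, zz k = (f x.1)^[k] x.2.1) ∧
      Λ = ((N / n : ℕ) : ℂ) * x.2.2 - p * tpi

theorem div_pos' {n N : ℕ} (hn : 1 ≤ n) (hN : 1 ≤ N) (hd : n ∣ N) : 1 ≤ N / n :=
  Nat.div_pos (Nat.le_of_dvd (by omega) hd) (by omega)

theorem norm_mul_gt {n : ℕ} {c z s : ℂ} (hm : mul n c z = exp s) (hs : 0 < s.re) :
    1 < ‖mul n c z‖ := by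
  rw [hm, norm_exp]
  exact Real.one_lt_exp_iff.2 hs

theorem mulN {n N : ℕ} {c z s : ℂ} (hd : n ∣ N) (hf : (f c)^[n] z = z) (hm : mul n c z = exp s) :
    mul N c z = exp (((N / n : ℕ) : ℂ) * s) := by
  obtain ⟨q, rfl⟩ := hd
  rcases Nat.eq_zero_or_pos n with h0 | h0
  · subst h0
    simp [mul]
  · rw [mul_iter c z n hf q, hm, ← exp_nat_mul, Nat.mul_div_cancel_left q h0]

theorem iterN {n N : ℕ} {c z : ℂ} (hd : n ∣ N) (hf : (f c)^[n] z = z) : (f c)^[N] z = z := by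
  obtain ⟨q, rfl⟩ := hd
  rw [_root_.mul_comm]
  exact iter_mul c z n hf q

theorem zz_iter {c : ℂ} {zz : ℕ → ℂ} (h : ∀ k, f c (zz k) = zz (k + 1)) (k : ℕ) :
    (f c)^[k] (zz 0) = zz k := by
  induction k with
  | zero => rfl
  | succ k ih => rw [Function.iterate_succ', Function.comp_apply, ih, h]

theorem LM_of_one (hB : Base G B cc) (hSt : S_STAB) {n N : ℕ} {θ : ℕ → ℝ} {a : ℕ → ℤ} {p : ℤ}
    {x : ℂ × ℂ × ℂ} (hc : x.1 ∈ MM) (ha : Ang N θ a) {κ₀ : ℝ} (hκ₀ : 0 < κ₀)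
    {β₀ : ℕ → ℂ → ℂ} {zz₀ : ℕ → ℂ}
    {Λ₀ : ℂ} (hS : Sec G B x.1 N θ κ₀ β₀) (hL : Land N κ₀ β₀ zz₀ Λ₀)
    (hr : 1 < ‖mul N x.1 (zz₀ 0)‖) (hz : ∀ k, zz₀ k = (f x.1)^[k] x.2.1)
    (hΛ : Λ₀ = ((N / n : ℕ) : ℂ) * x.2.2 - p * tpi) : LM G B n N θ p x := by
  intro κ β zz Λ hκ hS' hL'
  have key : ∀ e : ℝ, 0 < e → (∀ k, ‖zz k - zz₀ k‖ < e) ∧ ‖Λ - Λ₀‖ < e := by
    intro e he
    obtain ⟨δ, hδ, h⟩ := hSt G B cc hB x.1 N θ a κ₀ β₀ zz₀ Λ₀ hc ha hκ₀ hS hL hr κ e hκ he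
    exact (h x.1 (by simpa using hδ)).2 β zz Λ hS' hL'
  have e1 : ∀ k, zz k = zz₀ k := by
    intro k
    by_contra hne
    have h1 : 0 < ‖zz k - zz₀ k‖ := norm_pos_iff.2 (sub_ne_zero.2 hne)
    exact lt_irrefl _ ((key _ h1).1 k)
  have e2 : Λ = Λ₀ := by
    by_contra hne
    have h1 : 0 < ‖Λ - Λ₀‖ := norm_pos_iff.2 (sub_ne_zero.2 hne)
    exact lt_irrefl _ (key _ h1).2
  exact ⟨fun k => by rw [e1 k, hz k], by rw [e2, hΛ]⟩

/-- existence of ray cycles (Douady) -/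
theorem exists_LM (hB : Base G B cc) (hSec : S_SEC) (hLand : S_LAND) (hSt : S_STAB) (hD : S_DLT)
    {n : ℕ} (hn : 1 ≤ n) {D : Set ℂ} {x : ℂ × ℂ × ℂ} (hx : x ∈ XX n (D ∩ HP)) (hc : x.1 ∈ MM) :
    ∃ (N : ℕ) (θ : ℕ → ℝ) (a : ℕ → ℤ) (p : ℤ), n ∣ N ∧ Ang N θ a ∧ Dist n N θ ∧
      LM G B n N θ p x := by
  obtain ⟨⟨_, hs⟩, hf, hm⟩ := hx
  have hs' : 0 < x.2.2.re := hs
  obtain ⟨N, θ, a, hd, ha, hdist, hall⟩ := hD G B cc hB x.1 x.2.1 n hc hn hf (norm_mul_gt hm hs')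
  obtain ⟨β, hβ⟩ := hSec G B cc hB x.1 N θ a 1 ha one_pos (free_of_mem hB hc θ 1)
  obtain ⟨zz, Λ, hL, h1, h2, h3, h4, h5⟩ := hLand G B cc hB x.1 N θ a 1 β ha one_pos hβ
  have hz := hall 1 β zz Λ one_pos hβ hL
  have hz0 : zz 0 = x.2.1 := hz 0
  rw [hz0, mulN hd hf hm, exp_eq_iff] at h4
  obtain ⟨k, hk⟩ := h4
  refine ⟨N, θ, a, -k, hd, ha, hdist, ?_⟩
  refine LM_of_one hB hSt hc ha one_pos hβ hL ?_ hz ?_
  · rw [hz0, mulN hd hf hm, norm_exp, Real.one_lt_exp_iff]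
    have := div_pos' hn ha.pos hd
    rw [mul_re]
    simp only [natCast_re, natCast_im, zero_mul, sub_zero]
    have h6 : (0 : ℝ) < (N / n : ℕ) := by exact_mod_cast this
    positivity
  · rw [hk]
    push_cast
    ring

/-- the horodisc -/
theorem LM_bound (hB : Base G B cc) (hSec : S_SEC) (hLand : S_LAND) (hP : S_PLY)
    {n N : ℕ} (hn : 1 ≤ n) {θ : ℕ → ℝ} {a : ℕ → ℤ} {p : ℤ} (hd : n ∣ N) (ha : Ang N θ a)
    (hdist : Dist n N θ) {D : Set ℂ} {x : ℂ × ℂ × ℂ} (hx : x ∈ XX n D) (hc : x.1 ∈ MM)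
    (hLM : LM G B n N θ p x) :
    ‖x.2.2 - tpi * ((p / (N / n : ℕ) : ℝ) : ℂ)‖ ^ 2 ≤
      2 * n * Real.log 2 / (N / n : ℕ) * x.2.2.re := by
  obtain ⟨_, hf, hm⟩ := hx
  set q : ℕ := N / n with hq
  have hq1 : 1 ≤ q := div_pos' hn ha.pos hd
  have hq0 : (0 : ℝ) < q := by exact_mod_cast hq1
  set Λ : ℂ := (q : ℂ) * x.2.2 - p * tpi with hΛ
  have key : ∀ κ : ℝ, 0 < κ → 2 * Real.arctan (κ / 2) * ‖Λ‖ ^ 2 ≤
      2 * Real.pi * n * Real.log 2 * Λ.re := by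
    intro κ hκ
    obtain ⟨β, hβ⟩ := hSec G B cc hB x.1 N θ a κ ha hκ (free_of_mem hB hc θ κ)
    obtain ⟨zz, Λ', hL, h1, h2, h3, h4, h5⟩ := hLand G B cc hB x.1 N θ a κ β ha hκ hβ
    obtain ⟨g1, g2⟩ := hLM κ β zz Λ' hκ hβ hL
    have h6 : ∀ j, zz (j * n) = zz 0 := by
      intro j
      rw [g1, g1]
      exact iter_mul x.1 x.2.1 n hf j
    have h7 := hP G B cc hB x.1 n N θ a κ β zz Λ' hn hd ha hκ hβ hL hdist h6
    rw [g2] at h7
    exact h7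
  have hlim : Tendsto (fun κ : ℝ => 2 * Real.arctan (κ / 2) * ‖Λ‖ ^ 2) atTop
      (𝓝 (2 * (Real.pi / 2) * ‖Λ‖ ^ 2)) := by
    have h1 : Tendsto (fun κ : ℝ => Real.arctan (κ / 2)) atTop (𝓝 (Real.pi / 2)) :=
      (tendsto_nhds_of_tendsto_nhdsWithin Real.tendsto_arctan_atTop).comp
        (tendsto_id.atTop_div_const (by norm_num))
    exact (h1.const_mul 2).mul_const _
  have hle : 2 * (Real.pi / 2) * ‖Λ‖ ^ 2 ≤ 2 * Real.pi * n * Real.log 2 * Λ.re := by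
    refine le_of_tendsto hlim ?_
    filter_upwards [eventually_gt_atTop 0] with κ hκ
    exact key κ hκ
  have hre : Λ.re = q * x.2.2.re := by
    rw [hΛ, sub_re, int_mul_tpi_re, mul_re]
    simp
  have hnorm : ‖Λ‖ = q * ‖x.2.2 - tpi * ((p / q : ℝ) : ℂ)‖ := by
    have : Λ = (q : ℂ) * (x.2.2 - tpi * ((p / q : ℝ) : ℂ)) := by
      rw [hΛ]
      have : (q : ℂ) ≠ 0 := by exact_mod_cast hq0.ne'
      push_cast
      field_simp
    rw [this, norm_mul]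
    simp
  rw [hre, hnorm] at hle
  have hpi := Real.pi_pos
  have h8 : q * ‖x.2.2 - tpi * ((p / q : ℝ) : ℂ)‖ ^ 2 ≤ 2 * n * Real.log 2 * x.2.2.re := by
    have h9 : (Real.pi * q) * (q * ‖x.2.2 - tpi * ((p / q : ℝ) : ℂ)‖ ^ 2) ≤
        (Real.pi * q) * (2 * n * Real.log 2 * x.2.2.re) := by
      nlinarith [hle]
    exact le_of_mul_le_mul_left h9 (by positivity)
  rw [div_mul_eq_mul_div, le_div_iff₀ hq0]
  linarith

/-- stability -/
theorem LM_stab (hB : Base G B cc) (hSec : S_SEC) (hLand : S_LAND) (hSt : S_STAB) (hX : S_XLOC)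
    {n N : ℕ} (hn : 1 ≤ n) {θ : ℕ → ℝ} {a : ℕ → ℤ} {p : ℤ} (hd : n ∣ N) (ha : Ang N θ a)
    {D : Set ℂ} {x : ℂ × ℂ × ℂ} (hx : x ∈ XX n (D ∩ HP)) (hc : x.1 ∈ MM)
    (hLM : LM G B n N θ p x) : ∀ᶠ y in 𝓝 x, y ∈ XX n (D ∩ HP) →
      (y.1 ∈ MM → LM G B n N θ p y) ∧ LE G B cc n N θ p y := by
  obtain ⟨c₀, z₀, s₀⟩ := x
  obtain ⟨⟨_, hs⟩, hf, hm⟩ := hx
  simp only at hs hf hm hc
  have hs' : 0 < s₀.re := hs
  set q : ℕ := N / n with hq
  have hq1 : 1 ≤ q := div_pos' hn ha.pos hd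
  have hq0 : (0 : ℝ) < q := by exact_mod_cast hq1
  have hmN : mul N c₀ z₀ = exp ((q : ℂ) * s₀) := mulN hd hf hm
  have hfN : (f c₀)^[N] z₀ = z₀ := iterN hd hf
  have hre : 0 < ((q : ℂ) * s₀).re := by
    rw [mul_re]
    simp only [natCast_re, natCast_im, zero_mul, sub_zero]
    positivity
  have hne1 : exp ((q : ℂ) * s₀) ≠ 1 := by
    intro h
    have h1 := congrArg norm h
    rw [norm_exp, norm_one] at h1
    have := Real.one_lt_exp_iff.2 hre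
    linarith
  obtain ⟨β₀, hβ₀⟩ := hSec G B cc hB c₀ N θ a 1 ha one_pos (free_of_mem hB hc θ 1)
  obtain ⟨zz₀, Λ₀, hL₀, g1, g2, g3, g4, g5⟩ := hLand G B cc hB c₀ N θ a 1 β₀ ha one_pos hβ₀
  obtain ⟨hz₀, hΛ₀⟩ := hLM 1 β₀ zz₀ Λ₀ one_pos hβ₀ hL₀
  simp only at hz₀ hΛ₀
  have hzz0 : zz₀ 0 = z₀ := hz₀ 0
  obtain ⟨δ, ζ, σ, hδ, _, _, _, _, _, hloc⟩ := hX N c₀ z₀ _ ha.pos hfN hmN hne1
  obtain ⟨δ₁, hδ₁, hst⟩ := hSt G B cc hB c₀ N θ a 1 β₀ zz₀ Λ₀ hc ha one_pos hβ₀ hL₀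
    (by rw [hzz0, hmN, norm_exp]; exact Real.one_lt_exp_iff.2 hre) 1 (min δ 1) one_pos
    (lt_min hδ one_pos)
  have c1 : ∀ᶠ y : ℂ × ℂ × ℂ in 𝓝 (c₀, z₀, s₀), y.1 ∈ ball c₀ (min δ δ₁) :=
    (continuous_fst.tendsto (c₀, z₀, s₀)).eventually_mem (ball_mem_nhds _ (lt_min hδ hδ₁))
  have c2 : ∀ᶠ y : ℂ × ℂ × ℂ in 𝓝 (c₀, z₀, s₀), y.2.1 ∈ ball z₀ δ :=
    ((continuous_fst.comp continuous_snd).tendsto (c₀, z₀, s₀)).eventually_mem
      (ball_mem_nhds _ hδ)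
  have c3 : ∀ᶠ y : ℂ × ℂ × ℂ in 𝓝 (c₀, z₀, s₀), y.2.2 ∈ ball s₀ (1 / q) :=
    ((continuous_snd.comp continuous_snd).tendsto (c₀, z₀, s₀)).eventually_mem
      (ball_mem_nhds _ (by positivity))
  filter_upwards [c1, c2, c3] with y d1 d2 d3 hy
  obtain ⟨⟨_, hys⟩, hyf, hym⟩ := hy
  have hys' : 0 < y.2.2.re := hys
  have hd1 : ‖y.1 - c₀‖ < δ₁ := by
    have := lt_of_lt_of_le (mem_ball.1 d1) (min_le_right _ _)
    simpa [dist_eq_norm] using this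
  have hd1' : y.1 ∈ ball c₀ δ := mem_ball.2 (lt_of_lt_of_le (mem_ball.1 d1) (min_le_left _ _))
  obtain ⟨hfree, hcl⟩ := hst y.1 hd1
  obtain ⟨β, hβ⟩ := hSec G B cc hB y.1 N θ a 1 ha one_pos hfree
  obtain ⟨zz, Λ, hL, e1, e2, e3, e4, e5⟩ := hLand G B cc hB y.1 N θ a 1 β ha one_pos hβ
  obtain ⟨k1, k2⟩ := hcl β zz Λ hβ hL
  have hzz : zz 0 = y.2.1 := by
    have h1 : zz 0 ∈ ball z₀ δ := by
      have := lt_of_lt_of_le (k1 0) (min_le_left _ _)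
      rw [hzz0] at this
      simpa [dist_eq_norm] using this
    have h2 : (f y.1)^[N] (zz 0) = zz 0 := by
      rw [zz_iter e1]
      have := e2 0
      simpa using this
    have h3 := (hloc y.1 hd1' (zz 0) h1 h2).1
    have h4 := (hloc y.1 hd1' y.2.1 d2 (iterN hd hyf)).1
    rw [h3, h4]
  have hzk : ∀ k, zz k = (f y.1)^[k] y.2.1 := by
    intro k
    rw [← hzz, zz_iter e1]
  have hmN' : mul N y.1 y.2.1 = exp ((q : ℂ) * y.2.2) := mulN hd hyf hym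
  have hΛ : Λ = (q : ℂ) * y.2.2 - p * tpi := by
    rw [hzz, hmN', exp_eq_iff] at e4
    obtain ⟨k, hk⟩ := e4
    have e6 : ‖((k + p : ℤ) : ℂ) * tpi‖ < 2 := by
      have : ((k + p : ℤ) : ℂ) * tpi = (Λ - Λ₀) - (q : ℂ) * (y.2.2 - s₀) := by
        rw [hk, hΛ₀]
        push_cast
        ring
      rw [this]
      have d4 : ‖(q : ℂ) * (y.2.2 - s₀)‖ < 1 := by
        rw [norm_mul]
        simp only [norm_natCast]
        have : ‖y.2.2 - s₀‖ < 1 / q := by simpa [dist_eq_norm] using d3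
        calc (q : ℝ) * ‖y.2.2 - s₀‖ < q * (1 / q) := by gcongr
          _ = 1 := by field_simp
      calc _ ≤ _ := norm_sub_le _ _
        _ < 2 := by
          have := lt_of_lt_of_le k2 (min_le_right _ _)
          linarith
    have hkp : k + p = 0 := by
      rw [norm_mul, norm_tpi] at e6
      by_contra hne
      have h5 : (1 : ℝ) ≤ ‖((k + p : ℤ) : ℂ)‖ := by
        rw [Complex.norm_intCast]
        have : 1 ≤ |k + p| := Int.one_le_abs hne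
        exact_mod_cast this
      have := Real.pi_gt_three
      nlinarith
    have hk' : k = -p := by omega
    rw [hk, hk']
    push_cast
    ring
  have hrep : 1 < ‖mul N y.1 (zz 0)‖ := by
    rw [hzz, hmN', norm_exp, Real.one_lt_exp_iff, mul_re]
    simp only [natCast_re, natCast_im, zero_mul, sub_zero]
    positivity
  exact ⟨fun hyc => LM_of_one hB hSt hyc ha one_pos hβ hL hrep hzk hΛ,
    1, β, zz, Λ, one_pos, hfree, hβ, hL, hzk, hΛ⟩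

/-- outside of `M` the rays have the itinerary of the point -/
theorem LE_side (hB : Base G B cc) (hLam : Lam B cc lam) (hC : Code G B cc lam Z ell)
    (hI : S_IDENT) {n N : ℕ} (hn : 1 ≤ n) {θ : ℕ → ℝ} {a : ℕ → ℤ} {p : ℤ} (hd : n ∣ N)
    (ha : Ang N θ a) {x : ℂ × ℂ × ℂ} {w : ℂ} {e : ℕ → Bool} {m : ℤ}
    (hR : Rep cc Z ell n w e m x) (hLE : LE G B cc n N θ p x) :
    ∃ (θ' : ℕ → ℝ) (a' : ℕ → ℤ), Ang N θ' a' ∧ (∀ k, ∃ j : ℤ, θ' k = θ k + j) ∧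
      Side (w.im / (2 * Real.pi)) e θ' ∧
      ∑ k ∈ Finset.range N, a' k = ((N / n : ℕ) : ℤ) * m + p := by
  obtain ⟨κ, β, zz, Λ, hκ, hfree, hS, hL, hz, hΛ⟩ := hLE
  set η : ℝ := w.im / (2 * Real.pi) with hη
  have hpi := Real.pi_pos
  have hwre : 0 < w.re := hR.hw
  have hne : ∀ (k : ℕ) (m : ℤ), η ≠ θ k + m := by
    intro k m h
    have h1 := hfree w hR.hw hR.hc k m
    rw [← h, hη] at h1
    have h2 : w.im - 2 * Real.pi * (w.im / (2 * Real.pi)) = 0 := by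
      field_simp
      ring
    rw [h2, abs_zero] at h1
    have : 0 < κ * w.re := by positivity
    linarith
  set j : ℕ → ℤ := fun k => ⌊θ k - η / 2⌋ with hj
  set θ' : ℕ → ℝ := fun k => θ k - j k with hθ'
  have hfr : ∀ k, θ' k - η / 2 = Int.fract (θ k - η / 2) := by
    intro k
    simp only [hθ', hj, Int.fract]
    ring
  have hfr0 : ∀ k, Int.fract (θ k - η / 2) ≠ 0 := by
    intro k h
    have h1 : θ k - η / 2 = j k := by
      simp only [hj]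
      have := Int.self_sub_floor (θ k - η / 2)
      rw [h] at this
      linarith
    have h2 := ha.step k
    apply hne (k + 1) (a k - 2 * j k)
    push_cast
    linarith
  have hfr1 : ∀ k, Int.fract (θ k - η / 2) ≠ 1 / 2 := by
    intro k h
    have h1 : θ k - η / 2 = j k + 1 / 2 := by
      simp only [hj]
      have := Int.self_sub_floor (θ k - η / 2)
      rw [h] at this
      linarith
    have h2 := ha.step k
    apply hne (k + 1) (a k - 2 * j k - 1)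
    push_cast
    linarith
  set e' : ℕ → Bool := fun k => decide (1 / 2 < Int.fract (θ k - η / 2)) with he'
  have hside : Side η e' θ' := by
    intro k
    have h1 := hfr k
    have h2 := Int.fract_nonneg (θ k - η / 2)
    have h3 := Int.fract_lt_one (θ k - η / 2)
    have h4 := lt_of_le_of_ne h2 (Ne.symm (hfr0 k))
    by_cases h5 : 1 / 2 < Int.fract (θ k - η / 2)
    · have h6 : bt (e' k) = 1 := by
        have h8 : e' k = true := decide_eq_true h5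
        rw [h8]
        rfl
      rw [h6]
      constructor <;> linarith
    · have h6 : bt (e' k) = 0 := by
        have h8 : e' k = false := decide_eq_false h5
        rw [h8]
        rfl
      rw [h6]
      have h7 := lt_of_le_of_ne (not_lt.1 h5) (hfr1 k)
      constructor <;> linarith
  set a' : ℕ → ℤ := fun k => a k - 2 * j k + j (k + 1) with ha'
  have hper' : ∀ k, j (k + N) = j k := by
    intro k
    simp only [hj, ha.per k]
  have hang : Ang N θ' a' := by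
    refine ⟨ha.pos, ?_, ?_, ?_⟩
    · intro k
      have := ha.step k
      simp only [hθ', ha']
      push_cast
      linarith
    · intro k
      simp only [hθ', ha.per k, hper' k]
    · intro k
      simp only [ha', ha.aper k, hper' k]
      have : j (k + N + 1) = j (k + 1) := by
        have := hper' (k + 1)
        rw [← this]
        congr 1
        ring
      rw [this]
  have hPe' : Per N e' := by
    intro k
    simp only [he', ha.per k]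
  have hθθ : ∀ k, ∃ m : ℤ, θ' k = θ k + m := by
    intro k
    refine ⟨-j k, ?_⟩
    simp only [hθ']
    push_cast
    ring
  have hc := hR.hc
  have hS' : Sec G B (cc w) N θ' κ β := by rw [hc]; exact sec_congr hB hS hθθ
  have hF' : Free cc (cc w) θ' κ := by rw [hc]; exact free_congr hfree hθθ
  obtain ⟨k1, k2⟩ := hI G B cc lam Z ell hB hLam hC w hR.hw N e' θ' a' κ β zz Λ hPe' hang hκ
    hside hF' hS' hL
  have hPe : Per N e := per_dvd hR.per hd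
  have hee : e' = e := by
    refine hC.inj N ha.pos e' e hPe' hPe w hR.hw ?_
    rw [← k1, hR.hz]
    exact hz 0
  refine ⟨θ', a', hang, hθθ, hee ▸ hside, ?_⟩
  rw [hee, hΛ] at k2
  have hNq : N = n * (N / n) := (Nat.mul_div_cancel' hd).symm
  have hLN : LL ell N e w = ((N / n : ℕ) : ℂ) * LL ell n e w := by
    conv_lhs => rw [hNq]
    exact LL_mul hC hR.per w (N / n)
  rw [hLN, hR.hL] at k2
  have h5 : ((∑ k ∈ Finset.range N, a' k : ℤ) : ℂ) * tpi =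
      ((((N / n : ℕ) : ℤ) * m + p : ℤ) : ℂ) * tpi := by
    rw [Int.cast_add, Int.cast_mul, Int.cast_natCast]
    linear_combination k2
  have h6 := mul_right_cancel₀ tpi_ne h5
  exact_mod_cast h6

end

end Pool.Agent.KS6_23.ML.LabB
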