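import Pool.Agent.KS6_23.ML.LabB

set_option autoImplicit false

/-! # Project ML: labels at the parameters of `M` -/

open Complex Set Filter Metric Topology MeasureTheory

namespace Pool.Agent.KS6_23.ML.LabC

open Pool.Agent.KS6_23.ML Pool.Agent.KS6_23.ML.Basic Pool.Agent.KS6_23.ML.LabA
open Pool.Agent.KS6_23.ML.LabB

section
variable {G : ℂ → ℂ → ℝ} {B : ℂ → ℂ → ℂ} {cc : ℂ → ℂ} {lam : ℂ → ℂ → ℂ}
  {Z ell : (ℕ → Bool) → ℂ → ℂ}

/-- two points outside of `M` with the same rays have the same label -/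
theorem same_label (hB : Base G B cc) (hLam : Lam B cc lam) (hC : Code G B cc lam Z ell)
    (hI : S_IDENT) (hCo : S_COMB) {n N : ℕ} (hn : 1 ≤ n) {θ : ℕ → ℝ} {a : ℕ → ℤ} {p : ℤ}
    (hd : n ∣ N) (ha : Ang N θ a) (hp : ¬ (((N / n : ℕ) : ℤ) ∣ p)) {D : Set ℂ}
    {x x' : ℂ × ℂ × ℂ} (hx' : x' ∈ XX n D) {w w' : ℂ} {e e' : ℕ → Bool} {m m' : ℤ}
    (hR : Rep cc Z ell n w e m x) (hR' : Rep cc Z ell n w' e' m' x')
    (hLE : LE G B cc n N θ p x) (hLE' : LE G B cc n N θ p x') : lb n e m = lb n e' m' := by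
  obtain ⟨θ1, a1, h1, h2, h3, h4⟩ := LE_side hB hLam hC hI hn hd ha hR hLE
  obtain ⟨θ2, a2, g1, g2, g3, g4⟩ := LE_side hB hLam hC hI hn hd ha hR' hLE'
  have hNq : N = n * (N / n) := (Nat.mul_div_cancel' hd).symm
  set q : ℕ := N / n with hq
  have hpi := Real.pi_pos
  have h12 : ∀ k, ∃ m : ℤ, θ2 k = θ1 k + m := by
    intro k
    obtain ⟨i, hi⟩ := h2 k
    obtain ⟨j, hj⟩ := g2 k
    exact ⟨j - i, by rw [hi, hj]; push_cast; ring⟩
  have hnd : ¬ ((N : ℤ) ∣ n * ∑ k ∈ Finset.range N, a1 k) := by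
    rw [h4]
    intro hdv
    apply hp
    rw [hNq] at hdv
    push_cast at hdv
    have hn0 : (n : ℤ) ≠ 0 := by omega
    have h5 := Int.dvd_of_mul_dvd_mul_left hn0 hdv
    have h6 : (q : ℤ) ∣ (q : ℤ) * m := Dvd.intro _ rfl
    have h7 := (Int.dvd_add_right h6).1 h5
    exact h7
  obtain ⟨l, hl⟩ := hCo n N θ1 θ2 a1 a2 e e' _ _ hn hd hR.per hR'.per h1 g1 h12 h3 g3 hnd
  obtain ⟨e'', m'', hR'', hlb⟩ := rep_int hB hC hn hx' l hR'
  obtain ⟨θ3, a3, k1, k2, k3, k4⟩ := LE_side hB hLam hC hI hn hd ha hR'' hLE'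
  have hη : (w' + l * tpi).im / (2 * Real.pi) = w'.im / (2 * Real.pi) + l := by
    rw [add_im, int_mul_tpi_im]
    field_simp
  rw [hη] at k3
  set η : ℝ := w.im / (2 * Real.pi)
  set η'' : ℝ := w'.im / (2 * Real.pi) + l
  have key : ∀ k, e'' k = e k ∧ θ3 k = θ1 k := by
    intro k
    obtain ⟨s1, s2⟩ := h3 k
    obtain ⟨t1, t2⟩ := k3 k
    have hbt : ∃ b : ℤ, bt (e k) = b := by
      cases e k
      · exact ⟨0, by simp [bt]⟩
      · exact ⟨1, by simp [bt]⟩
    obtain ⟨b, hb⟩ := hbt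
    have hst := h1.step k
    have u1 : η'' / 2 + bt (e k) / 2 < θ1 k := by
      by_contra hcon
      push Not at hcon
      refine hl (2 * θ1 k - bt (e k)) ?_ (k + 1) (a1 k - b) ?_
      · rw [mem_uIcc]
        left
        constructor <;> linarith
      · rw [hb]
        push_cast
        linarith
    have u2 : θ1 k < η'' / 2 + bt (e k) / 2 + 1 / 2 := by
      by_contra hcon
      push Not at hcon
      refine hl (2 * θ1 k - bt (e k) - 1) ?_ (k + 1) (a1 k - b - 1) ?_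
      · rw [mem_uIcc]
        right
        constructor <;> linarith
      · rw [hb]
        push_cast
        linarith
    have hj : ∃ j : ℤ, θ3 k = θ1 k + j := by
      obtain ⟨i, hi⟩ := h2 k
      obtain ⟨j, hj⟩ := k2 k
      exact ⟨j - i, by rw [hi, hj]; push_cast; ring⟩
    obtain ⟨j, hj⟩ := hj
    have hee : e'' k = e k := by
      by_contra hne
      rw [hj] at t1 t2
      rcases Bool.eq_false_or_eq_true (e k) with h | h
      · have h' : e'' k = false := by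
          rcases Bool.eq_false_or_eq_true (e'' k) with h'' | h''
          · exact absurd (h''.trans h.symm) hne
          · exact h''
        rw [h'] at t1 t2
        rw [h] at u1 u2
        simp only [bt, if_true, Bool.false_eq_true, if_false] at t1 t2 u1 u2
        have v1 : (-1 : ℝ) < j := by linarith
        have v2 : (j : ℝ) < 0 := by linarith
        have v1' : -1 < j := by exact_mod_cast v1
        have v2' : j < 0 := by exact_mod_cast v2
        omega
      · have h' : e'' k = true := by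
          rcases Bool.eq_false_or_eq_true (e'' k) with h'' | h''
          · exact h''
          · exact absurd (h''.trans h.symm) hne
        rw [h'] at t1 t2
        rw [h] at u1 u2
        simp only [bt, if_true, Bool.false_eq_true, if_false] at t1 t2 u1 u2
        have v1 : (0 : ℝ) < j := by linarith
        have v2 : (j : ℝ) < 1 := by linarith
        have v1' : 0 < j := by exact_mod_cast v1
        have v2' : j < 1 := by exact_mod_cast v2
        omega
    refine ⟨hee, ?_⟩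
    rw [hee] at t1 t2
    rw [hj] at t1 t2
    have v1 : (-1 : ℝ) < j := by linarith
    have v2 : (j : ℝ) < 1 := by linarith
    have v1' : -1 < j := by exact_mod_cast v1
    have v2' : j < 1 := by exact_mod_cast v2
    have : j = 0 := by omega
    rw [hj, this]
    simp
  have hee : e'' = e := funext fun k => (key k).1
  have haa : ∀ k, a3 k = a1 k := by
    intro k
    have s1 := h1.step k
    have s2 := k1.step k
    rw [(key k).2, (key (k + 1)).2] at s2
    have : (a3 k : ℝ) = a1 k := by linarith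
    exact_mod_cast this
  have hsum : ∑ k ∈ Finset.range N, a3 k = ∑ k ∈ Finset.range N, a1 k :=
    Finset.sum_congr rfl fun k _ => haa k
  rw [k4, h4] at hsum
  have hq0 : (q : ℤ) ≠ 0 := by
    have := div_pos' hn ha.pos hd
    omega
  have hmm : m'' = m := by
    have := add_right_cancel hsum
    exact mul_left_cancel₀ hq0 this
  rw [← hlb, hee, hmm]

/-- the set of the points where the rays land is closed, off the parabolic parameters -/
theorem LM_closed (hB : Base G B cc) (hSec : S_SEC) (hLand : S_LAND) (hSt : S_STAB) (hP : S_PLY)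
    {n N : ℕ} {θ : ℕ → ℝ} {a : ℕ → ℤ} {p : ℤ} (ha : Ang N θ a)
    {x : ℂ × ℂ × ℂ} (hc : x.1 ∈ MM)
    (hF : ∀ z, (f x.1)^[N] z = z → mul N x.1 z ≠ 1)
    (hfr : ∃ᶠ y in 𝓝 x, y.1 ∈ MM ∧ LM G B n N θ p y) : LM G B n N θ p x := by
  obtain ⟨β, hβ⟩ := hSec G B cc hB x.1 N θ a 1 ha one_pos (free_of_mem hB hc θ 1)
  obtain ⟨zz, Λ, hL, g1, g2, g3, g4, g5⟩ := hLand G B cc hB x.1 N θ a 1 β ha one_pos hβ
  have hN : (f x.1)^[N] (zz 0) = zz 0 := by
    rw [zz_iter g1]
    have := g2 0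
    simpa using this
  have hre : 0 < Λ.re := by
    rcases lt_or_eq_of_le g5 with h | h
    · exact h
    · exfalso
      have h1 := hP G B cc hB x.1 N N θ a 1 β zz Λ ha.pos dvd_rfl ha one_pos hβ hL
        (by
          intro i hi j hj m _
          rw [Nat.div_self (by have := ha.pos; omega)] at hi hj
          omega)
        (by
          intro j
          induction j with
          | zero => simp
          | succ j ih =>
            rw [← ih, ← g2 (j * N)]
            congr 1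
            ring)
      rw [← h, mul_zero] at h1
      have h2 : 0 < Real.arctan (1 / 2) := Real.arctan_pos.2 (by norm_num)
      have h3 : ‖Λ‖ ^ 2 ≤ 0 := by
        by_contra hcon
        push Not at hcon
        have : 0 < 2 * Real.arctan (1 / 2) * ‖Λ‖ ^ 2 := by positivity
        linarith
      have h4 : Λ = 0 := by
        have : ‖Λ‖ = 0 := by nlinarith [norm_nonneg Λ]
        exact norm_eq_zero.1 this
      rw [h4, exp_zero] at g4
      exact hF _ hN g4.symm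
  have hrep : 1 < ‖mul N x.1 (zz 0)‖ := by
    rw [← g4, norm_exp]
    exact Real.one_lt_exp_iff.2 hre
  have key : ∀ e : ℝ, 0 < e → ‖x.2.1 - zz 0‖ < e ∧
      ‖((N / n : ℕ) : ℂ) * x.2.2 - p * tpi - Λ‖ < e := by
    intro e he
    obtain ⟨δ, hδ, hst⟩ := hSt G B cc hB x.1 N θ a 1 β zz Λ hc ha one_pos hβ hL hrep 1 (e / 2)
      one_pos (by linarith)
    have c1 : ∀ᶠ y : ℂ × ℂ × ℂ in 𝓝 x, y.1 ∈ ball x.1 δ :=
      (continuous_fst.tendsto x).eventually_mem (ball_mem_nhds _ hδ)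
    have c2 : ∀ᶠ y : ℂ × ℂ × ℂ in 𝓝 x, y.2.1 ∈ ball x.2.1 (e / 2) :=
      ((continuous_fst.comp continuous_snd).tendsto x).eventually_mem
        (ball_mem_nhds _ (by linarith))
    have c3 : ∀ᶠ y : ℂ × ℂ × ℂ in 𝓝 x, ((N / n : ℕ) : ℂ) * y.2.2 - p * tpi ∈
        ball (((N / n : ℕ) : ℂ) * x.2.2 - p * tpi) (e / 2) := by
      have : Continuous fun y : ℂ × ℂ × ℂ => ((N / n : ℕ) : ℂ) * y.2.2 - p * tpi := by fun_prop
      exact (this.tendsto x).eventually_mem (ball_mem_nhds _ (by linarith))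
    obtain ⟨y, ⟨hyM, hyL⟩, d1, d2, d3⟩ := (hfr.and_eventually (c1.and (c2.and c3))).exists
    obtain ⟨β', hβ'⟩ := hSec G B cc hB y.1 N θ a 1 ha one_pos (free_of_mem hB hyM θ 1)
    obtain ⟨zz', Λ', hL', _⟩ := hLand G B cc hB y.1 N θ a 1 β' ha one_pos hβ'
    obtain ⟨f1, f2⟩ := hyL 1 β' zz' Λ' one_pos hβ' hL'
    obtain ⟨h1, h2⟩ := (hst y.1 (by simpa [dist_eq_norm] using d1)).2 β' zz' Λ' hβ' hL'
    have h3 := h1 0
    have f10 : zz' 0 = y.2.1 := f1 0
    rw [f10] at h3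
    rw [f2] at h2
    have d2' : ‖y.2.1 - x.2.1‖ < e / 2 := by simpa [dist_eq_norm] using d2
    have d3' := mem_ball.1 d3
    rw [dist_eq_norm] at d3'
    constructor
    · calc ‖x.2.1 - zz 0‖ = ‖(y.2.1 - zz 0) - (y.2.1 - x.2.1)‖ := by congr 1; ring
        _ ≤ _ := norm_sub_le _ _
        _ < e := by linarith
    · calc ‖((N / n : ℕ) : ℂ) * x.2.2 - p * tpi - Λ‖
          = ‖(((N / n : ℕ) : ℂ) * y.2.2 - p * tpi - Λ) - (((N / n : ℕ) : ℂ) * y.2.2 - p * tpi -
            (((N / n : ℕ) : ℂ) * x.2.2 - p * tpi))‖ := by congr 1; ring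
        _ ≤ _ := norm_sub_le _ _
        _ < e := by linarith
  have e1 : x.2.1 = zz 0 := by
    by_contra hne
    have h1 : 0 < ‖x.2.1 - zz 0‖ := norm_pos_iff.2 (sub_ne_zero.2 hne)
    exact lt_irrefl _ (key _ h1).1
  have e2 : ((N / n : ℕ) : ℂ) * x.2.2 - p * tpi = Λ := by
    by_contra hne
    have h1 : 0 < ‖((N / n : ℕ) : ℂ) * x.2.2 - p * tpi - Λ‖ :=
      norm_pos_iff.2 (sub_ne_zero.2 hne)
    exact lt_irrefl _ (key _ h1).2
  exact LM_of_one hB hSt hc ha one_pos hβ hL hrep (fun k => by rw [e1, zz_iter g1]) e2.symm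

/-- points of the curve over parameters outside of `M` -/
theorem exterior_near (hX : S_XLOC) {n : ℕ} (hn : 1 ≤ n) {D : Set ℂ} (hD : IsOpen D)
    {x : ℂ × ℂ × ℂ} (hx : x ∈ XX n D) (hs : exp x.2.2 ≠ 1) {E : Set ℂ} (hc : ∃ᶠ c in 𝓝 x.1, c ∈ E)
    {P : ℂ × ℂ × ℂ → Prop} (hP : ∀ᶠ y in 𝓝 x, y ∈ XX n D → P y) :
    ∃ y ∈ XX n D, y.1 ∈ E ∧ P y := by
  obtain ⟨c₀, z₀, s₀⟩ := x
  obtain ⟨hsD, hf, hm⟩ := hx
  simp only at hsD hf hm hs hc
  obtain ⟨δ, ζ, σ, hδ, hζ, hσ, hζ0, hσ0, h1, h2⟩ := hX n c₀ z₀ s₀ hn hf hm hs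
  have hn0 := ball_mem_nhds c₀ hδ
  have hg : ContinuousAt (fun c : ℂ => ((c, ζ c, σ c) : ℂ × ℂ × ℂ)) c₀ :=
    continuousAt_id.prodMk ((hζ.differentiableAt hn0).continuousAt.prodMk
      (hσ.differentiableAt hn0).continuousAt)
  have hg0 : ((c₀, ζ c₀, σ c₀) : ℂ × ℂ × ℂ) = (c₀, z₀, s₀) := by rw [hζ0, hσ0]
  have e1 : ∀ᶠ c in 𝓝 c₀, ((c, ζ c, σ c) : ℂ × ℂ × ℂ) ∈ XX n D → P (c, ζ c, σ c) := by
    have := hg.tendsto
    rw [hg0] at this
    exact this.eventually hP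
  have e2 : ∀ᶠ c in 𝓝 c₀, σ c ∈ D := by
    refine (hσ.differentiableAt hn0).continuousAt.eventually_mem (hD.mem_nhds ?_)
    rw [hσ0]
    exact hsD
  obtain ⟨c, hcE, g1, g2, g3⟩ := (hc.and_eventually (e1.and (e2.and hn0))).exists
  have hmem : ((c, ζ c, σ c) : ℂ × ℂ × ℂ) ∈ XX n D := ⟨g2, (h1 c g3).1, (h1 c g3).2⟩
  exact ⟨_, hmem, hcE, g1 hmem⟩

theorem dist_tpi_int {t : ℝ} (k : ℤ) : 2 * Real.pi * dZ t ≤ ‖tpi * t - k * tpi‖ := by
  have : tpi * t - k * tpi = ((t - k : ℝ) : ℂ) * tpi := by push_cast; ring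
  rw [this, norm_mul, norm_tpi, norm_real, Real.norm_eq_abs, _root_.mul_comm]
  have := round_le t k
  unfold dZ
  have hpi := Real.pi_pos
  gcongr

theorem exp_ne_one {t r : ℝ} (hr : r ≤ dZ t) {s : ℂ} (hs : s ∈ ball (tpi * t) r) :
    exp s ≠ 1 := by
  intro h
  have h1 : exp s = exp 0 := by rw [h, exp_zero]
  rw [exp_eq_iff] at h1
  obtain ⟨k, hk⟩ := h1
  rw [zero_add] at hk
  have h2 := dist_tpi_int (t := t) k
  have h3 : ‖tpi * t - k * tpi‖ < r := by
    rw [← hk, ← dist_eq_norm, dist_comm]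
    exact hs
  have h4 := norm_nonneg (tpi * (t : ℂ) - k * tpi)
  have := Real.pi_gt_three
  nlinarith

theorem isOpen_HP : IsOpen HP := isOpen_lt continuous_const Complex.continuous_re

/-- two ray cycles at the same point have a common point outside of `M` -/
theorem common_exterior (hB : Base G B cc) (hSec : S_SEC) (hLand : S_LAND) (hSt : S_STAB)
    (hP : S_PLY) (hX : S_XLOC) (hInt : S_INT) (hCn : S_CNTN) {n N N' : ℕ} (hn : 1 ≤ n)
    {θ θ' : ℕ → ℝ} {a a' : ℕ → ℤ} {p p' : ℤ} (hd : n ∣ N) (hd' : n ∣ N') (ha : Ang N θ a)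
    (ha' : Ang N' θ' a') {t r : ℝ} (hr : 0 < r) (hrt : r ≤ dZ t) {x : ℂ × ℂ × ℂ}
    (hx : x ∈ XX n (ball (tpi * t) r ∩ HP)) (hc : x.1 ∈ MM) (hL : LM G B n N θ p x)
    (hL' : LM G B n N' θ' p' x) : ∃ y ∈ XX n (ball (tpi * t) r ∩ HP), y.1 ∉ MM ∧
      LE G B cc n N θ p y ∧ LE G B cc n N' θ' p' y := by
  have hopen : IsOpen (ball (tpi * (t : ℂ)) r ∩ HP) := isOpen_ball.inter isOpen_HP
  -- at points over the frontier
  have hfrontier : ∀ x ∈ XX n (ball (tpi * t) r ∩ HP), x.1 ∈ MM → x.1 ∈ closure MMᶜ →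
      LM G B n N θ p x → LM G B n N' θ' p' x → ∃ y ∈ XX n (ball (tpi * t) r ∩ HP), y.1 ∉ MM ∧
      LE G B cc n N θ p y ∧ LE G B cc n N' θ' p' y := by
    intro x hx hc hcl h1 h2
    have s1 := LM_stab hB hSec hLand hSt hX hn hd ha hx hc h1
    have s2 := LM_stab hB hSec hLand hSt hX hn hd' ha' hx hc h2
    have s3 : ∀ᶠ y in 𝓝 x, y ∈ XX n (ball (tpi * t) r ∩ HP) →
        LE G B cc n N θ p y ∧ LE G B cc n N' θ' p' y := by
      filter_upwards [s1, s2] with y h3 h4 hy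
      exact ⟨(h3 hy).2, (h4 hy).2⟩
    exact exterior_near hX hn hopen hx (exp_ne_one hrt hx.1.1)
      (mem_closure_iff_frequently.1 hcl) s3
  by_cases hcl : x.1 ∈ closure MMᶜ
  · exact hfrontier x hx hc hcl hL hL'
  · set F : Set ℂ := {c : ℂ | ∃ z, (f c)^[N] z = z ∧ mul N c z = 1} ∪
      {c : ℂ | ∃ z, (f c)^[N'] z = z ∧ mul N' c z = 1} with hF
    have hFfin : F.Finite := ((hCn N ha.pos).1 1).union ((hCn N' ha'.pos).1 1)
    set A : Set (ℂ × ℂ × ℂ) := {y | y ∈ XX n (ball (tpi * t) r ∩ HP) ∧ y.1 ∈ MM \ F ∧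
      LM G B n N θ p y ∧ LM G B n N' θ' p' y} with hA
    have hAne : A.Nonempty := by
      have s1 := LM_stab hB hSec hLand hSt hX hn hd ha hx hc hL
      have s2 := LM_stab hB hSec hLand hSt hX hn hd' ha' hx hc hL'
      have hint : ∀ᶠ c in 𝓝 x.1, c ∈ MM := by
        have : x.1 ∈ (closure MMᶜ)ᶜ := hcl
        rw [← interior_eq_compl_closure_compl] at this
        exact mem_interior_iff_mem_nhds.1 this
      have hfr : ∃ᶠ c in 𝓝 x.1, c ∈ MM \ F := by
        have h1 : ∀ᶠ c in 𝓝[≠] x.1, c ∉ F := by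
          have h0 : (F \ {x.1})ᶜ ∈ 𝓝 x.1 :=
            (hFfin.subset sdiff_subset).isClosed.isOpen_compl.mem_nhds (by simp)
          filter_upwards [nhdsWithin_le_nhds h0, self_mem_nhdsWithin] with c g1 g2 g3
          exact g1 ⟨g3, g2⟩
        have h2 : ∀ᶠ c in 𝓝[≠] x.1, c ∈ MM \ F := by
          filter_upwards [h1, nhdsWithin_le_nhds hint] with c g1 g2
          exact ⟨g2, g1⟩
        exact (h2.frequently).filter_mono nhdsWithin_le_nhds
      have s3 : ∀ᶠ y in 𝓝 x, y ∈ XX n (ball (tpi * t) r ∩ HP) →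
          (y.1 ∈ MM → LM G B n N θ p y ∧ LM G B n N' θ' p' y) := by
        filter_upwards [s1, s2] with y h3 h4 hy hyM
        exact ⟨(h3 hy).1 hyM, (h4 hy).1 hyM⟩
      obtain ⟨y, hy1, hy2, hy3⟩ := exterior_near hX hn hopen hx (exp_ne_one hrt hx.1.1) hfr s3
      exact ⟨y, hy1, hy2, hy3 hy2.1⟩
    obtain ⟨y, hyA, hyf⟩ := hInt n t r hn hr hrt F hFfin A hAne (fun y hy => ⟨hy.1, hy.2.1⟩) (by
      intro y hy hyM
      constructor
      · rintro ⟨_, _, h3, h4⟩
        have s1 := LM_stab hB hSec hLand hSt hX hn hd ha hy hyM.1 h3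
        have s2 := LM_stab hB hSec hLand hSt hX hn hd' ha' hy hyM.1 h4
        filter_upwards [s1, s2] with v h5 h6 hv hvM
        exact ⟨hv, hvM, (h5 hv).1 hvM.1, (h6 hv).1 hvM.1⟩
      · intro hyA
        by_contra hcon
        apply hyA
        have hfr : ∃ᶠ v in 𝓝 y, v ∈ A := by
          rw [Filter.not_eventually] at hcon
          refine hcon.mono fun v hv => ?_
          push Not at hv
          exact hv.2.2
        refine ⟨hy, hyM, ?_, ?_⟩
        · refine LM_closed hB hSec hLand hSt hP ha hyM.1 ?_ ?_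
          · intro z h1 h2
            exact hyM.2 (Or.inl ⟨z, h1, h2⟩)
          · exact hfr.mono fun v hv => ⟨hv.2.1.1, hv.2.2.1⟩
        · refine LM_closed hB hSec hLand hSt hP ha' hyM.1 ?_ ?_
          · intro z h1 h2
            exact hyM.2 (Or.inr ⟨z, h1, h2⟩)
          · exact hfr.mono fun v hv => ⟨hv.2.1.1, hv.2.2.2⟩)
    refine hfrontier y hyA.1 hyA.2.1.1 ?_ hyA.2.2.1 hyA.2.2.2
    rw [frontier_eq_closure_inter_closure] at hyf
    exact hyf.2

end

end Pool.Agent.KS6_23.ML.LabC
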