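import Pool.Agent.KS6_23.ML.Stm3
import Pool.Agent.KS6_23.ML.LAB

set_option autoImplicit false

/-! # Project ML, stage 2, module 26: labels of points in the strip `0 < Im w < 2 π` -/

open Complex Set Filter Metric Topology MeasureTheory

namespace Pool.Agent.KS6_23.ML.LabE

open Pool.Agent.KS6_23.ML Pool.Agent.KS6_23.ML.Basic Pool.Agent.KS6_23.ML.LabA
open Pool.Agent.KS6_23.ML.LabB Pool.Agent.KS6_23.ML.LabC

/-- bits as integers -/
def be (b : Bool) : ℤ := if b then 1 else 0

theorem be_cast (b : Bool) : (be b : ℝ) = bt b := by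
  cases b <;> simp [be, bt]

theorem sum_per {n : ℕ} {g : ℕ → ℤ} (hg : ∀ k, g (k + n) = g k) (q : ℕ) :
    ∑ k ∈ Finset.range (n * q), g k = q * ∑ k ∈ Finset.range n, g k := by
  have hq : ∀ (q k : ℕ), g (n * q + k) = g k := by
    intro q
    induction q with
    | zero => intro k; simp
    | succ q ih =>
      intro k
      have : n * (q + 1) + k = (n * q + k) + n := by ring
      rw [this, hg, ih]
  induction q with
  | zero => simp
  | succ q ih =>
    rw [Nat.mul_succ, Finset.sum_range_add, ih]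
    have : ∀ k ∈ Finset.range n, g (n * q + k) = g k := fun k _ => hq q k
    rw [Finset.sum_congr rfl this]
    push_cast
    ring

/-- if the angle of the critical value is an integer the class is an integer -/
theorem int_side {n N : ℕ} {e : ℕ → Bool} {θ : ℕ → ℝ} {a : ℕ → ℤ} (he : Per n e) (hd : n ∣ N)
    (ha : Ang N θ a) {j : ℤ} (hs : Side (j : ℝ) e θ) :
    ((N / n : ℕ) : ℤ) ∣ ∑ k ∈ Finset.range N, a k := by
  have hNq : N = n * (N / n) := (Nat.mul_div_cancel' hd).symm
  set q : ℕ := N / n with hq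
  have hper : ∀ k, be (e (k + n)) = be (e k) := fun k => by rw [he k]
  have hperN : be (e N) = be (e 0) := by
    have h1 : ∀ q : ℕ, be (e (n * q)) = be (e 0) := by
      intro q
      induction q with
      | zero => simp
      | succ q ih => rw [Nat.mul_succ, hper, ih]
    rw [hNq]
    exact h1 q
  have hsum : ∑ k ∈ Finset.range N, be (e k) = q * ∑ k ∈ Finset.range n, be (e k) := by
    conv_lhs => rw [hNq]
    exact sum_per hper q
  obtain ⟨i, hi | hi⟩ := Int.even_or_odd' j
  · -- `j = 2 i`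
    have key : ∀ k, a k = i + be (e k) := by
      intro k
      obtain ⟨h1, h2⟩ := hs k
      obtain ⟨h3, h4⟩ := hs (k + 1)
      have h5 := ha.step k
      rw [← be_cast] at h1 h2 h3 h4
      rw [hi] at h1 h2 h3 h4
      push_cast at h1 h2 h3 h4
      have hb : be (e (k + 1)) = 0 ∨ be (e (k + 1)) = 1 := by
        cases e (k + 1) <;> simp [be]
      have hlo : ((i + be (e k) - 1 : ℤ) : ℝ) < (a k : ℝ) := by
        push_cast
        rcases hb with h | h
        · rw [h] at h3 h4
          push_cast at h3 h4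
          linarith
        · rw [h] at h3 h4
          push_cast at h3 h4
          linarith
      have hhi : (a k : ℝ) < ((i + be (e k) + 1 : ℤ) : ℝ) := by
        push_cast
        rcases hb with h | h
        · rw [h] at h3 h4
          push_cast at h3 h4
          linarith
        · rw [h] at h3 h4
          push_cast at h3 h4
          linarith
      have h6 : i + be (e k) - 1 < a k := by exact_mod_cast hlo
      have h7 : a k < i + be (e k) + 1 := by exact_mod_cast hhi
      omega
    rw [Finset.sum_congr rfl fun k _ => key k, Finset.sum_add_distrib, hsum, Finset.sum_const,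
      Finset.card_range]
    refine Dvd.dvd.add ?_ (Dvd.intro _ rfl)
    rw [nsmul_eq_mul]
    conv_rhs => rw [hNq]
    push_cast
    exact ⟨n * i, by ring⟩
  · -- `j = 2 i + 1`
    have key : ∀ k, a k = i + 1 + be (e k) - be (e (k + 1)) := by
      intro k
      obtain ⟨h1, h2⟩ := hs k
      obtain ⟨h3, h4⟩ := hs (k + 1)
      have h5 := ha.step k
      rw [← be_cast] at h1 h2 h3 h4
      rw [hi] at h1 h2 h3 h4
      push_cast at h1 h2 h3 h4
      have hb : be (e (k + 1)) = 0 ∨ be (e (k + 1)) = 1 := by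
        cases e (k + 1) <;> simp [be]
      have hlo : ((i + be (e k) - be (e (k + 1)) : ℤ) : ℝ) < (a k : ℝ) := by
        push_cast
        rcases hb with h | h
        · rw [h] at h3 h4 ⊢
          push_cast at h3 h4 ⊢
          linarith
        · rw [h] at h3 h4 ⊢
          push_cast at h3 h4 ⊢
          linarith
      have hhi : (a k : ℝ) < ((i + 1 + be (e k) - be (e (k + 1)) + 1 : ℤ) : ℝ) := by
        push_cast
        rcases hb with h | h
        · rw [h] at h3 h4 ⊢
          push_cast at h3 h4 ⊢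
          linarith
        · rw [h] at h3 h4 ⊢
          push_cast at h3 h4 ⊢
          linarith
      have h6 : i + be (e k) - be (e (k + 1)) < a k := by exact_mod_cast hlo
      have h7 : a k < i + 1 + be (e k) - be (e (k + 1)) + 1 := by exact_mod_cast hhi
      omega
    have htel : ∑ k ∈ Finset.range N, (be (e k) - be (e (k + 1))) = 0 := by
      rw [Finset.sum_range_sub', hperN, sub_self]
    have h8 : ∑ k ∈ Finset.range N, a k = (N : ℤ) * (i + 1) := by
      have : ∀ k ∈ Finset.range N, a k = (i + 1) + (be (e k) - be (e (k + 1))) := fun k _ => by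
        rw [key k]; ring
      rw [Finset.sum_congr rfl this, Finset.sum_add_distrib, htel, Finset.sum_const,
        Finset.card_range, nsmul_eq_mul, add_zero]
    rw [h8]
    conv_rhs => rw [hNq]
    push_cast
    exact ⟨n * (i + 1), by ring⟩

section
variable {G : ℂ → ℂ → ℝ} {B : ℂ → ℂ → ℂ} {cc : ℂ → ℂ} {lam : ℂ → ℂ → ℂ}
  {Z ell : (ℕ → Bool) → ℂ → ℂ}

/-- exterior points with a class which is not an integer -/
theorem le_int (hB : Base G B cc) (hLam : Lam B cc lam) (hC : Code G B cc lam Z ell)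
    (hI : S_IDENT) {n N : ℕ} (hn : 1 ≤ n) {θ : ℕ → ℝ} {a : ℕ → ℤ} {p : ℤ} (hd : n ∣ N)
    (ha : Ang N θ a) (hp : ¬ (((N / n : ℕ) : ℤ) ∣ p)) {x : ℂ × ℂ × ℂ} {w : ℂ} {e : ℕ → Bool}
    {m : ℤ} (hR : Rep cc Z ell n w e m x) (hLE : LE G B cc n N θ p x) (j : ℤ) :
    w.im ≠ 2 * Real.pi * j := by
  intro hw
  obtain ⟨θ', a', h1, h2, h3, h4⟩ := LE_side hB hLam hC hI hn hd ha hR hLE
  have h5 : w.im / (2 * Real.pi) = j := by
    have := Real.pi_pos
    rw [hw]
    field_simp
  rw [h5] at h3
  have h6 := int_side hR.per hd h1 h3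
  rw [h4] at h6
  exact hp ((Int.dvd_add_right (Dvd.intro _ rfl)).1 h6)

/-- the core of `same_label` -/
theorem same_core (hB : Base G B cc) (hLam : Lam B cc lam) (hC : Code G B cc lam Z ell)
    (hI : S_IDENT) (hCo : S_COMB) {n N : ℕ} (hn : 1 ≤ n) {θ : ℕ → ℝ} {a : ℕ → ℤ} {p : ℤ}
    (hd : n ∣ N) (ha : Ang N θ a) (hp : ¬ (((N / n : ℕ) : ℤ) ∣ p)) {D : Set ℂ}
    {x x' : ℂ × ℂ × ℂ} (hx' : x' ∈ XX n D) {w w' : ℂ} {e e' : ℕ → Bool} {m m' : ℤ}
    (hR : Rep cc Z ell n w e m x) (hR' : Rep cc Z ell n w' e' m' x')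
    (hLE : LE G B cc n N θ p x) (hLE' : LE G B cc n N θ p x') :
    ∃ (θ1 : ℕ → ℝ) (a1 : ℕ → ℤ) (l : ℤ), Ang N θ1 a1 ∧ Side (w.im / (2 * Real.pi)) e θ1 ∧
      ∑ k ∈ Finset.range N, a1 k = ((N / n : ℕ) : ℤ) * m + p ∧
      (∀ y ∈ uIcc (w.im / (2 * Real.pi)) (w'.im / (2 * Real.pi) + l), ∀ (k : ℕ) (m : ℤ),
        y ≠ θ1 k + m) ∧ Rep cc Z ell n (w' + l * tpi) e m x' := by
  obtain ⟨θ1, a1, h1, h2, h3, h4⟩ := LE_side hB hLam hC hI hn hd ha hR hLE
  obtain ⟨θ2, a2, g1, g2, g3, g4⟩ := LE_side hB hLam hC hI hn hd ha hR' hLE'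
  have hNq : N = n * (N / n) := (Nat.mul_div_cancel' hd).symm
  set q : ℕ := N / n with hq
  have hpi := Real.pi_pos
  have h12 : ∀ k, ∃ m : ℤ, θ2 k = θ1 k + m := by
    intro k
    obtain ⟨i, hi⟩ := h2 k
    obtain ⟨j, hj⟩ := g2 k
    exact ⟨j - i, by rw [hi, hj]; push_cast; ring⟩
  have hnd : ¬ ((N : ℤ) ∣ n * ∑ k ∈ Finset.range N, a1 k) := by
    rw [h4]
    intro hdv
    apply hp
    rw [hNq] at hdv
    push_cast at hdv
    have hn0 : (n : ℤ) ≠ 0 := by omega
    have h5 := Int.dvd_of_mul_dvd_mul_left hn0 hdv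
    have h6 : (q : ℤ) ∣ (q : ℤ) * m := Dvd.intro _ rfl
    have h7 := (Int.dvd_add_right h6).1 h5
    exact h7
  obtain ⟨l, hl⟩ := hCo n N θ1 θ2 a1 a2 e e' _ _ hn hd hR.per hR'.per h1 g1 h12 h3 g3 hnd
  obtain ⟨e'', m'', hR'', hlb⟩ := rep_int hB hC hn hx' l hR'
  obtain ⟨θ3, a3, k1, k2, k3, k4⟩ := LE_side hB hLam hC hI hn hd ha hR'' hLE'
  have hη : (w' + l * tpi).im / (2 * Real.pi) = w'.im / (2 * Real.pi) + l := by
    rw [add_im, int_mul_tpi_im]
    field_simp
  rw [hη] at k3
  refine ⟨θ1, a1, l, h1, h3, h4, hl, ?_⟩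
  set η : ℝ := w.im / (2 * Real.pi)
  set η'' : ℝ := w'.im / (2 * Real.pi) + l
  have key : ∀ k, e'' k = e k ∧ θ3 k = θ1 k := by
    intro k
    obtain ⟨s1, s2⟩ := h3 k
    obtain ⟨t1, t2⟩ := k3 k
    have hbt : ∃ b : ℤ, bt (e k) = b := by
      cases e k
      · exact ⟨0, by simp [bt]⟩
      · exact ⟨1, by simp [bt]⟩
    obtain ⟨b, hb⟩ := hbt
    have hst := h1.step k
    have u1 : η'' / 2 + bt (e k) / 2 < θ1 k := by
      by_contra hcon
      push Not at hcon
      refine hl (2 * θ1 k - bt (e k)) ?_ (k + 1) (a1 k - b) ?_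
      · rw [mem_uIcc]
        left
        constructor <;> linarith
      · rw [hb]
        push_cast
        linarith
    have u2 : θ1 k < η'' / 2 + bt (e k) / 2 + 1 / 2 := by
      by_contra hcon
      push Not at hcon
      refine hl (2 * θ1 k - bt (e k) - 1) ?_ (k + 1) (a1 k - b - 1) ?_
      · rw [mem_uIcc]
        right
        constructor <;> linarith
      · rw [hb]
        push_cast
        linarith
    have hj : ∃ j : ℤ, θ3 k = θ1 k + j := by
      obtain ⟨i, hi⟩ := h2 k
      obtain ⟨j, hj⟩ := k2 k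
      exact ⟨j - i, by rw [hi, hj]; push_cast; ring⟩
    obtain ⟨j, hj⟩ := hj
    have hee : e'' k = e k := by
      by_contra hne
      rw [hj] at t1 t2
      rcases Bool.eq_false_or_eq_true (e k) with h | h
      · have h' : e'' k = false := by
          rcases Bool.eq_false_or_eq_true (e'' k) with h'' | h''
          · exact absurd (h''.trans h.symm) hne
          · exact h''
        rw [h'] at t1 t2
        rw [h] at u1 u2
        simp only [bt, if_true, Bool.false_eq_true, if_false] at t1 t2 u1 u2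
        have v1 : (-1 : ℝ) < j := by linarith
        have v2 : (j : ℝ) < 0 := by linarith
        have v1' : -1 < j := by exact_mod_cast v1
        have v2' : j < 0 := by exact_mod_cast v2
        omega
      · have h' : e'' k = true := by
          rcases Bool.eq_false_or_eq_true (e'' k) with h'' | h''
          · exact h''
          · exact absurd (h''.trans h.symm) hne
        rw [h'] at t1 t2
        rw [h] at u1 u2
        simp only [bt, if_true, Bool.false_eq_true, if_false] at t1 t2 u1 u2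
        have v1 : (0 : ℝ) < j := by linarith
        have v2 : (j : ℝ) < 1 := by linarith
        have v1' : 0 < j := by exact_mod_cast v1
        have v2' : j < 1 := by exact_mod_cast v2
        omega
    refine ⟨hee, ?_⟩
    rw [hee] at t1 t2
    rw [hj] at t1 t2
    have v1 : (-1 : ℝ) < j := by linarith
    have v2 : (j : ℝ) < 1 := by linarith
    have v1' : -1 < j := by exact_mod_cast v1
    have v2' : j < 1 := by exact_mod_cast v2
    have : j = 0 := by omega
    rw [hj, this]
    simp
  have hee : e'' = e := funext fun k => (key k).1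
  have haa : ∀ k, a3 k = a1 k := by
    intro k
    have s1 := h1.step k
    have s2 := k1.step k
    rw [(key k).2, (key (k + 1)).2] at s2
    have : (a3 k : ℝ) = a1 k := by linarith
    exact_mod_cast this
  have hsum : ∑ k ∈ Finset.range N, a3 k = ∑ k ∈ Finset.range N, a1 k :=
    Finset.sum_congr rfl fun k _ => haa k
  rw [k4, h4] at hsum
  have hq0 : (q : ℤ) ≠ 0 := by
    have := div_pos' hn ha.pos hd
    omega
  have hmm : m'' = m := by
    have := add_right_cancel hsum
    exact mul_left_cancel₀ hq0 this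
  rw [← hee, ← hmm]
  exact hR''

/-- points with the same rays have the same label in the strip -/
theorem same_strip (hB : Base G B cc) (hLam : Lam B cc lam) (hC : Code G B cc lam Z ell)
    (hI : S_IDENT) (hCo : S_COMB) {n N : ℕ} (hn : 1 ≤ n) {θ : ℕ → ℝ} {a : ℕ → ℤ} {p : ℤ}
    (hd : n ∣ N) (ha : Ang N θ a) (hp : ¬ (((N / n : ℕ) : ℤ) ∣ p)) {D : Set ℂ}
    {x x' : ℂ × ℂ × ℂ} (hx' : x' ∈ XX n D) {e e' : ℕ → Bool} {m m' : ℤ}
    (hR : LX cc Z ell n e m x) (hR' : LX cc Z ell n e' m' x')
    (hLE : LE G B cc n N θ p x) (hLE' : LE G B cc n N θ p x') : e = e' ∧ m = m' := by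
  obtain ⟨_, w, hw1, hw2, hR⟩ := hR
  obtain ⟨_, w', hw1', hw2', hR'⟩ := hR'
  obtain ⟨θ1, a1, l, h1, h3, h4, hl, hR''⟩ := same_core hB hLam hC hI hCo hn hd ha hp hx' hR hR'
    hLE hLE'
  have hpi := Real.pi_pos
  set η : ℝ := w.im / (2 * Real.pi) with hη
  set η' : ℝ := w'.im / (2 * Real.pi) with hη'
  have b1 : 0 < η := by positivity
  have b2 : η < 1 := by rw [hη, div_lt_one (by positivity)]; exact hw2
  have b3 : 0 < η' := by positivity
  have b4 : η' < 1 := by rw [hη', div_lt_one (by positivity)]; exact hw2'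
  have hl0 : l = 0 := by
    by_contra hne
    obtain ⟨j, hj⟩ : ∃ j : ℤ, (j : ℝ) ∈ uIcc η (η' + l) := by
      rcases lt_or_gt_of_ne hne with h | h
      · refine ⟨0, ?_⟩
        rw [mem_uIcc]
        right
        have h5 : (l : ℝ) ≤ -1 := by exact_mod_cast (by omega : l ≤ -1)
        constructor
        · push_cast
          linarith
        · push_cast
          linarith
      · refine ⟨1, ?_⟩
        rw [mem_uIcc]
        left
        have h5 : (1 : ℝ) ≤ l := by exact_mod_cast (by omega : 1 ≤ l)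
        constructor
        · push_cast
          linarith
        · push_cast
          linarith
    have hsub : uIcc η (j : ℝ) ⊆ uIcc η (η' + l) := uIcc_subset_uIcc left_mem_uIcc hj
    have hside : Side (j : ℝ) e θ1 := by
      intro k
      obtain ⟨s1, s2⟩ := h3 k
      have hbt : ∃ b : ℤ, bt (e k) = b := by
        cases e k
        · exact ⟨0, by simp [bt]⟩
        · exact ⟨1, by simp [bt]⟩
      obtain ⟨b, hb⟩ := hbt
      have hst := h1.step k
      constructor
      · by_contra hcon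
        push Not at hcon
        refine hl (2 * θ1 k - bt (e k)) (hsub ?_) (k + 1) (a1 k - b) ?_
        · rw [mem_uIcc]
          left
          constructor <;> linarith
        · rw [hb]
          push_cast
          linarith
      · by_contra hcon
        push Not at hcon
        refine hl (2 * θ1 k - bt (e k) - 1) (hsub ?_) (k + 1) (a1 k - b - 1) ?_
        · rw [mem_uIcc]
          right
          constructor <;> linarith
        · rw [hb]
          push_cast
          linarith
    have h6 := int_side hR.per hd h1 hside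
    rw [h4] at h6
    exact hp ((Int.dvd_add_right (Dvd.intro _ rfl)).1 h6)
  rw [hl0] at hR''
  have h7 : w' + ((0 : ℤ) : ℂ) * tpi = w' := by simp
  rw [h7] at hR''
  exact rep_unique_w hC hn hR'' hR'

/-- exterior points can be moved to the strip -/
theorem to_strip (hB : Base G B cc) (hC : Code G B cc lam Z ell) {n : ℕ} (hn : 1 ≤ n)
    {D : Set ℂ} {x : ℂ × ℂ × ℂ} (hx : x ∈ XX n D) (hM : x.1 ∉ MM)
    (h : ∀ w ∈ HP, cc w = x.1 → ∀ k : ℤ, w.im ≠ 2 * Real.pi * k) :
    ∃ e m, LX cc Z ell n e m x := by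
  obtain ⟨w, hw, hcw⟩ := hB.psurj x.1 hM
  have hpi := Real.pi_pos
  set k : ℤ := -⌊w.im / (2 * Real.pi)⌋ with hk
  have hw' : w + k * tpi ∈ HP := HP_add_int hw k
  have hc' : cc (w + k * tpi) = x.1 := by rw [cc_per_int hB hw, hcw]
  obtain ⟨e, m, hR⟩ := rep_exists hB hC hn hx hw' hc'
  refine ⟨e, m, hM, w + k * tpi, ?_, ?_, hR⟩
  · have h1 : 0 ≤ (w + k * tpi).im := by
      rw [add_im, int_mul_tpi_im, hk]
      have h2 := Int.floor_le (w.im / (2 * Real.pi))
      rw [le_div_iff₀ (by positivity)] at h2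
      push_cast
      linarith
    refine lt_of_le_of_ne h1 fun h2 => ?_
    refine h _ hw' hc' 0 ?_
    rw [← h2]
    simp
  · rw [add_im, int_mul_tpi_im, hk]
    have h2 := Int.lt_floor_add_one (w.im / (2 * Real.pi))
    rw [div_lt_iff₀ (by positivity)] at h2
    push_cast
    linarith

theorem le_strip (hB : Base G B cc) (hLam : Lam B cc lam) (hC : Code G B cc lam Z ell)
    (hI : S_IDENT) {n N : ℕ} (hn : 1 ≤ n) {θ : ℕ → ℝ} {a : ℕ → ℤ} {p : ℤ} (hd : n ∣ N)
    (ha : Ang N θ a) (hp : ¬ (((N / n : ℕ) : ℤ) ∣ p)) {D : Set ℂ} {x : ℂ × ℂ × ℂ}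
    (hx : x ∈ XX n D) (hM : x.1 ∉ MM) (hLE : LE G B cc n N θ p x) :
    ∃ e m, LX cc Z ell n e m x := by
  refine to_strip hB hC hn hx hM fun w hw hcw k => ?_
  obtain ⟨e, m, hR⟩ := rep_exists hB hC hn hx hw hcw
  exact le_int hB hLam hC hI hn hd ha hp hR hLE k

end

end Pool.Agent.KS6_23.ML.LabE
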