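import Pool.Agent.KS6_23.ML.ALL2

set_option autoImplicit false

/-! # Project ML, stage 2: the multiplier criterion -/

open Complex Set Filter Metric Topology

namespace Pool.Agent.KS6_23.ML.MULT

open Pool.Agent.KS6_23.ML Pool.Agent.KS6_23.ML.Basic Pool.Agent.KS6_23.ML.LabC
open Pool.Agent.KS6_23.ML.Curve Pool.Agent.KS6_23.ML.SHEET Pool.Agent.KS6_23.ML.NEST
open Pool.Agent.KS6_23.ML.LOC Pool.Agent.KS6_23.ML.CAN

/-- the sets `S i v` are limbs -/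
theorem limb_S {κ₀ : ℝ} {n : ℕ} {t v : ℝ} {ψ ζ : ℂ → ℂ}
    {lab : ℂ × ℂ × ℂ → Fin (n * 2 ^ (n - 1))} {cl : ℂ × ℂ × ℂ → ℝ}
    {S : Fin (n * 2 ^ (n - 1)) → ℝ → Set ℂ} {i : Fin (n * 2 ^ (n - 1))} (hn : 1 ≤ n)
    (hS : Sep κ₀ n lab cl S) (h : Sheet κ₀ n t ψ ζ)
    (hi : ∀ s ∈ Om κ₀ n t, 0 < s.re → lab (ψ s, ζ s, s) = i) (hv : dZ v ≠ 0)
    (hvO : tpi * (v : ℂ) ∈ Om κ₀ n t) :
    Limb n v (ψ (tpi * v)) (ζ (tpi * v)) (S i v) := by
  obtain ⟨G, B₀, cc, hB⟩ := id BASE.base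
  have hclo := clo_S hB hS h hi hv hvO
  have hmem := h.mem _ hvO
  have hf : (f (ψ (tpi * v)))^[n] (ζ (tpi * v)) = ζ (tpi * v) := hmem.2.1
  have hm : mul n (ψ (tpi * v)) (ζ (tpi * v)) = exp (tpi * v) := hmem.2.2
  refine ⟨hf, hm, hclo.sub, ?_, ?_, ?_⟩
  · refine ⟨{c | ∀ᶠ c' in 𝓝 c, c' ∈ MM → c' ∈ S i v}, ?_, ?_⟩
    · rw [isOpen_iff_mem_nhds]
      intro x hx
      exact eventually_eventually_nhds.2 hx
    · ext c
      constructor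
      · intro hc
        exact ⟨hclo.opn c hc, hclo.sub hc⟩
      · rintro ⟨hc1, hc2⟩
        have hc3 : ∀ᶠ c' in 𝓝 c, c' ∈ MM → c' ∈ S i v := hc1
        exact hc3.self_of_nhds hc2.1
  · refine ⟨closure (S i v), isClosed_closure, ?_⟩
    ext c
    constructor
    · intro hc
      exact ⟨subset_closure hc, hclo.sub hc⟩
    · rintro ⟨hc1, hc2⟩
      rcases hclo.cls hc1 with h1 | h1
      · exact absurd h1 hc2.2
      · exact h1
  · obtain ⟨δ, ζ', σ, hδ, _, _, _, _, _, e2⟩ := XLOC.xloc n _ _ (tpi * v) hn hf hm (Om_exp hvO)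
    have h1 : ∀ᶠ s in 𝓝 (tpi * (v : ℂ)), ζ s ∈ ball (ζ (tpi * v)) δ :=
      (h.zdiff.differentiableAt ((Om_open _ _ _).mem_nhds hvO)).continuousAt.eventually
        (ball_mem_nhds _ hδ)
    obtain ⟨ε, hε, hb⟩ := Metric.eventually_nhds_iff_ball.1 h1
    obtain ⟨δ', hδ', hb'⟩ := Metric.eventually_nhds_iff_ball.1
      (near_sheet hS h hi hv hvO (fun h1 => (hclo.sub h1).2 rfl) hε)
    refine ⟨min δ δ', by positivity, fun c z hc hz hfz hmz hcS => ?_⟩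
    obtain ⟨s, hsO, hre, hs, hsc⟩ := hb' c (by
      rw [mem_ball, dist_eq_norm]
      exact lt_of_lt_of_le hc (min_le_right _ _)) hcS
    have hcδ : c ∈ ball (ψ (tpi * v)) δ := by
      rw [mem_ball, dist_eq_norm]
      exact lt_of_lt_of_le hc (min_le_left _ _)
    have hzδ : z ∈ ball (ζ (tpi * v)) δ := by
      rw [mem_ball, dist_eq_norm]
      exact lt_of_lt_of_le hz (min_le_left _ _)
    have k1 := (e2 c hcδ z hzδ hfz).1
    have hxs := h.mem s hsO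
    have k2 := (e2 c hcδ (ζ s) (hb s (by rw [mem_ball, dist_eq_norm]; exact hs))
      (by rw [← hsc]; exact hxs.2.1)).1
    have k3 : z = ζ s := by rw [k1, k2]
    have k4 := hxs.2.2
    simp only at k4
    rw [hsc, ← k3] at k4
    rw [k4, norm_exp] at hmz
    have := Real.exp_lt_one_iff.1 hmz
    linarith

/-- reduced fractions -/
theorem reduce (p : ℤ) (q : ℕ) (hq : 1 ≤ q) : ∃ (p' : ℤ) (q' : ℕ), 1 ≤ q' ∧ q' ≤ q ∧
    IsCoprime p' (q' : ℤ) ∧ ((p : ℝ) / q = p' / q') := by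
  refine ⟨((p : ℚ) / (q : ℤ)).num, ((p : ℚ) / (q : ℤ)).den, ((p : ℚ) / (q : ℤ)).den_pos, ?_, ?_, ?_⟩
  · have h1 : (((p : ℚ) / ((q : ℤ) : ℚ)).den : ℤ) ∣ (q : ℤ) := by
      have h2 := Rat.den_dvd p q
      rwa [Rat.divInt_eq_div] at h2
    exact Nat.le_of_dvd hq (by exact_mod_cast h1)
  · exact Int.isCoprime_iff_nat_coprime.2 (by simpa using ((p : ℚ) / (q : ℤ)).reduced)
  · have h1 : (((p : ℚ) / ((q : ℤ) : ℚ) : ℚ) : ℝ) = (p : ℝ) / q := by push_cast; rfl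
    rw [← h1]
    conv_lhs => rw [← Rat.num_div_den ((p : ℚ) / ((q : ℤ) : ℚ))]
    push_cast
    rfl

/-- a cycle with a multiplier near the unit circle is in a limb -/
theorem exists_limb : ∃ κ : ℝ, 0 < κ ∧ ∀ (n : ℕ) (c z s : ℂ), 1 ≤ n → c ∈ MM →
    (f c)^[n] z = z → mul n c z = exp s → 0 < s.re →
    s.re < κ * dZ (s.im / (2 * Real.pi)) ^ 2 / n → ∃ (q : ℕ) (p : ℤ) (c₁ z₁ : ℂ) (B : Set ℂ),
      1 ≤ q ∧ IsCoprime p (q : ℤ) ∧ dZ (p / q) ≠ 0 ∧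
      ‖s - tpi * ((p / q : ℝ) : ℂ)‖ ^ 2 ≤ 2 * n * Real.log 2 / q * s.re ∧
      Limb n (p / q) c₁ z₁ B ∧ c ∈ B := by
  obtain ⟨κ₀, hP⟩ := ALL2.sep
  have hκ := hP.pos
  refine ⟨κ₀ / 16, by positivity, fun n c z s hn hc hf hm hre hlt => ?_⟩
  have hn0 : (0 : ℝ) < n := by exact_mod_cast hn
  set t : ℝ := s.im / (2 * Real.pi) with ht
  have hd0 : dZ t ≠ 0 := by
    intro h0
    rw [h0] at hlt
    have : κ₀ / 16 * (0 : ℝ) ^ 2 / n = 0 := by ring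
    linarith
  have him : s.im = 2 * Real.pi * t := by rw [ht]; field_simp
  have hst : s - tpi * (t : ℂ) = (s.re : ℂ) := by
    apply Complex.ext
    · rw [sub_re, re_tpi, ofReal_re, sub_zero]
    · rw [sub_im, im_tpi, ofReal_im, him, sub_self]
  have hns : ‖s - tpi * (t : ℂ)‖ = s.re := by
    rw [hst, norm_real, Real.norm_of_nonneg hre.le]
  have hsD : s ∈ DD (κ₀ / 16) n t := by
    unfold DD
    rw [mem_ball, dist_eq_norm, hns]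
    exact hlt
  obtain ⟨hsO, hcont⟩ := DD_Om hκ hP.le hn hd0 hsD
  obtain ⟨ψ, ζ, h, hψ, hζ⟩ := sheet TRV.trv XLOC.xloc XLOC.xcpt CNTN.cntn κ₀ hκ hP.le hP.unr n t hn
    hd0 s hsO c z hf hm
  obtain ⟨lab, cl, S, hS⟩ := hP.sep n hn
  obtain ⟨i, hi⟩ := lab_const hκ hn hd0 hS h
  have hsD2 : s ∈ DD κ₀ n t := by
    unfold DD at hsD ⊢
    refine ball_subset_ball ?_ hsD
    refine div_le_div_of_nonneg_right ?_ hn0.le
    exact mul_le_mul_of_nonneg_right (by linarith) (sq_nonneg _)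
  have hx := xx h hsO hre hsD2
  have hM : ψ s ∈ MM := by rw [hψ]; exact hc
  obtain ⟨h3, p, q, hq, hcl, h4⟩ := hS.cl_rat _ hd0 _ hx hM
  obtain ⟨p', q', hq', hqq, hco, hpq⟩ := reduce p q hq
  set v : ℝ := cl (ψ s, ζ s, s) with hvdef
  have hv : v = p' / q' := by rw [hcl, hpq]
  have hlog : 0 < Real.log 2 := Real.log_pos (by norm_num)
  have hq0 : (0 : ℝ) < q := by exact_mod_cast hq
  have hq0' : (0 : ℝ) < q' := by exact_mod_cast hq'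
  have hqq' : (q' : ℝ) ≤ q := by exact_mod_cast hqq
  have h5 : ‖s - tpi * (v : ℂ)‖ ^ 2 ≤ 2 * n * Real.log 2 / q' * s.re := by
    refine h4.trans ?_
    simp only
    gcongr
  have h6 : ‖s - tpi * (v : ℂ)‖ ^ 2 ≤ 2 * n * Real.log 2 * s.re := by
    refine h5.trans ?_
    have hq1 : (1 : ℝ) ≤ q' := by exact_mod_cast hq'
    gcongr
    exact div_le_self (by positivity) hq1
  have hvO := hcont hre v h6
  have hL := limb_S hn hS h hi h3 hvO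
  have hmem := hS.mem _ hd0 _ hx hM
  rw [hi s hsO hre] at hmem
  simp only [hψ] at hmem
  refine ⟨q', p', ψ (tpi * v), ζ (tpi * v), S i v, hq', hco, ?_, ?_, ?_, ?_⟩
  · rw [← hv]; exact h3
  · rw [← hv]; exact h5
  · rw [← hv]; exact hL
  · have : cl (c, ζ s, s) = v := by rw [hvdef, hψ]
    rw [this] at hmem
    exact hmem

/-- local data at an indifferent parameter -/
theorem germ {n : ℕ} (hn : 1 ≤ n) {v : ℝ} (hv : dZ v ≠ 0) {c₁ z₁ : ℂ}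
    (hf : (f c₁)^[n] z₁ = z₁) (hm : mul n c₁ z₁ = exp (tpi * v)) :
    ∃ (δ r : ℝ) (σ Z ψ ζ : ℂ → ℂ), 0 < δ ∧ 0 < r ∧
      DifferentiableOn ℂ σ (ball c₁ δ) ∧ σ c₁ = tpi * v ∧
      (∀ c ∈ ball c₁ δ, (f c)^[n] (Z c) = Z c ∧ mul n c (Z c) = exp (σ c)) ∧
      (∀ c ∈ ball c₁ δ, ∀ z ∈ ball z₁ δ, (f c)^[n] z = z → z = Z c) ∧
      DifferentiableOn ℂ ψ (ball (tpi * v) r) ∧ DifferentiableOn ℂ ζ (ball (tpi * v) r) ∧
      ψ (tpi * v) = c₁ ∧ ζ (tpi * v) = z₁ ∧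
      (∀ s ∈ ball (tpi * (v : ℂ)) r, (ψ s, ζ s, s) ∈ XX n univ ∧ exp s ≠ 1 ∧
        ψ s ∈ ball c₁ δ ∧ σ (ψ s) = s) ∧
      ∀ᶠ c in 𝓝 c₁, ψ (σ c) = c := by
  obtain ⟨κ, hκ, hκ1, hexl⟩ := ALL2.exl
  obtain ⟨ψ, ζ, hP⟩ := hexl n v hn hv c₁ z₁ hf hm
  have hrp := UNR.rad_pos hκ (t := v) hv hn
  have hs₀ : tpi * (v : ℂ) ∈ DL κ n v := LIMB2.DD_DL κ n v (mem_ball_self hrp)
  have hDn : DL κ n v ∈ 𝓝 (tpi * (v : ℂ)) := (LIMB2.DL_open κ n v).mem_nhds hs₀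
  have hne : exp (tpi * (v : ℂ)) ≠ 1 := UNIA.DL_exp_ne hκ1 hv hn hs₀
  obtain ⟨δ, Z, σ, hδ, hZ, hσ, hZ0, hσ0, hZσ, huni⟩ := XLOC.xloc n c₁ z₁ (tpi * v) hn hf hm hne
  have hψc : ContinuousAt ψ (tpi * v) := (hP.dψ.differentiableAt hDn).continuousAt
  have hζc : ContinuousAt ζ (tpi * v) := (hP.dζ.differentiableAt hDn).continuousAt
  have e1 : ∀ᶠ s in 𝓝 (tpi * (v : ℂ)), ψ s ∈ ball c₁ δ :=
    hψc.eventually_mem (by rw [hP.ψ0]; exact ball_mem_nhds _ hδ)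
  have e2 : ∀ᶠ s in 𝓝 (tpi * (v : ℂ)), ζ s ∈ ball z₁ δ :=
    hζc.eventually_mem (by rw [hP.ζ0]; exact ball_mem_nhds _ hδ)
  have e3 : ∀ᶠ s in 𝓝 (tpi * (v : ℂ)), s ∈ ball (tpi * (v : ℂ)) δ := ball_mem_nhds _ hδ
  have e4 : ∀ᶠ s in 𝓝 (tpi * (v : ℂ)), exp s ≠ 1 :=
    (continuous_exp.continuousAt).eventually_ne hne
  obtain ⟨r, hr, hb⟩ := Metric.eventually_nhds_iff_ball.1
    (((e1.and e2).and (e3.and e4)).and hDn)
  have hσψ : ∀ s ∈ ball (tpi * (v : ℂ)) r, σ (ψ s) = s := by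
    intro s hs
    obtain ⟨⟨⟨g1, g2⟩, g3, g4⟩, g5⟩ := hb s hs
    have hx := hP.mem s g5
    exact ((huni (ψ s) g1 (ζ s) g2 hx.2.1).2 s g3 hx.2.2).symm
  refine ⟨δ, r, σ, Z, ψ, ζ, hδ, hr, hσ, hσ0, hZσ, fun c hc z hz h => (huni c hc z hz h).1,
    hP.dψ.mono fun s hs => (hb s hs).2, hP.dζ.mono fun s hs => (hb s hs).2, hP.ψ0, hP.ζ0,
    fun s hs => ?_, ?_⟩
  · obtain ⟨⟨⟨g1, g2⟩, g3, g4⟩, g5⟩ := hb s hs
    exact ⟨⟨mem_univ _, (hP.mem s g5).2⟩, g4, g1, hσψ s hs⟩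
  · have h1 := REL.psi_open hP hs₀ (ball_mem_nhds (tpi * (v : ℂ)) hr)
    rw [hP.ψ0] at h1
    filter_upwards [h1] with c hc
    obtain ⟨s, hs, rfl⟩ := hc
    rw [hσψ s hs]

/-- two indifferent cycles of a parameter: the attracting part of the second one is in the limb of
the first one -/
theorem two {n n' : ℕ} (hn : 1 ≤ n) (hn' : 1 ≤ n') {v v' : ℝ} (hv : dZ v ≠ 0) (hv' : dZ v' ≠ 0)
    {c₁ z₁ z₁' : ℂ} (hf : (f c₁)^[n] z₁ = z₁) (hm : mul n c₁ z₁ = exp (tpi * v))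
    (hf' : (f c₁)^[n'] z₁' = z₁') (hm' : mul n' c₁ z₁' = exp (tpi * v'))
    (hne : exp (tpi * (v : ℂ)) ^ n' ≠ exp (tpi * (v' : ℂ)) ^ n) {B : Set ℂ} {r₀ : ℝ}
    (hr₀ : 0 < r₀)
    (hCan : ∀ r : ℝ, 0 < r → r ≤ r₀ → ∀ (ψ ζ : ℂ → ℂ) (T : Set ℂ),
      ContinuousOn ψ (ball (tpi * v) r) →
      ContinuousOn ζ (ball (tpi * v) r) → ψ (tpi * v) = c₁ → ζ (tpi * v) = z₁ →
      (∀ s ∈ ball (tpi * (v : ℂ)) r, (ψ s, ζ s, s) ∈ XX n univ) →
      T ⊆ ball (tpi * (v : ℂ)) r ∩ HP → IsPreconnected T → tpi * (v : ℂ) ∈ closure T →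
      (∀ s ∈ T, ψ s ∈ MM) → ∀ s ∈ T, ψ s ∈ B) :
    ∃ δ : ℝ, 0 < δ ∧ ∀ c z : ℂ, ‖c - c₁‖ < δ → ‖z - z₁'‖ < δ → (f c)^[n'] z = z →
      ‖mul n' c z‖ < 1 → c ∈ B := by
  obtain ⟨δ, r, σ, Z, ψ, ζ, hδ, hr, hσ, hσ0, hZ, hZu, hψ, hζ, hψ0, hζ0, hmem, hinv⟩ :=
    germ hn hv hf hm
  obtain ⟨δ', r', σ', Z', ψ', ζ', hδ', hr', hσ', hσ0', hZ', hZu', hψ', hζ', hψ0', hζ0', hmem',
    hinv'⟩ := germ hn' hv' hf' hm'
  set b : ℝ := min δ δ' with hb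
  have hb0 : 0 < b := by positivity
  have hσb : DifferentiableOn ℂ σ (ball c₁ b) := hσ.mono (ball_subset_ball (min_le_left _ _))
  have hσb' : DifferentiableOn ℂ σ' (ball c₁ b) := hσ'.mono (ball_subset_ball (min_le_right _ _))
  -- the cycles are not both attracting
  have hno : ∀ c ∈ ball c₁ b, ¬ ((σ c).re < 0 ∧ (σ' c).re < 0) := by
    rintro c₂ hc₂ ⟨h1, h2⟩
    have hc1 : ContinuousAt σ c₂ :=
      (hσb.differentiableAt (isOpen_ball.mem_nhds hc₂)).continuousAt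
    have hc2 : ContinuousAt σ' c₂ :=
      (hσb'.differentiableAt (isOpen_ball.mem_nhds hc₂)).continuousAt
    have e1 : ∀ᶠ c in 𝓝 c₂, (σ c).re < 0 :=
      (continuous_re.continuousAt.comp hc1).eventually_lt continuousAt_const h1
    have e2 : ∀ᶠ c in 𝓝 c₂, (σ' c).re < 0 :=
      (continuous_re.continuousAt.comp hc2).eventually_lt continuousAt_const h2
    have e3 : ∀ᶠ c in 𝓝 c₂, exp (σ c) ^ n' = exp (σ' c) ^ n := by
      filter_upwards [e1, e2, isOpen_ball.mem_nhds hc₂] with c g1 g2 g3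
      obtain ⟨k1, k2⟩ := hZ c (ball_subset_ball (min_le_left _ _) g3)
      obtain ⟨k3, k4⟩ := hZ' c (ball_subset_ball (min_le_right _ _) g3)
      have m1 := mul_iter c (Z c) n k1 n'
      have m2 := mul_iter c (Z' c) n' k3 n
      have i1 : (f c)^[n * n'] (Z c) = Z c := by
        rw [Nat.mul_comm]; exact iter_mul c (Z c) n k1 n'
      have i2 : (f c)^[n * n'] (Z' c) = Z' c := iter_mul c (Z' c) n' k3 n
      rw [Nat.mul_comm n' n] at m2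
      rw [k2] at m1
      rw [k4] at m2
      rw [← m1, ← m2]
      have hn0 : n ≠ 0 := by omega
      have hn0' : n' ≠ 0 := by omega
      refine ATU.atu (n * n') c (Z c) (Z' c) (Nat.mul_pos hn hn') i1 i2 ?_ ?_
      · rw [m1, norm_pow, norm_exp]
        exact pow_lt_one₀ (Real.exp_pos _).le (Real.exp_lt_one_iff.2 g1) hn0'
      · rw [m2, norm_pow, norm_exp]
        exact pow_lt_one₀ (Real.exp_pos _).le (Real.exp_lt_one_iff.2 g2) hn0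
    have a1 : AnalyticOnNhd ℂ (fun c => exp (σ c) ^ n') (ball c₁ b) :=
      ((hσb.cexp).pow n').analyticOnNhd isOpen_ball
    have a2 : AnalyticOnNhd ℂ (fun c => exp (σ' c) ^ n) (ball c₁ b) :=
      ((hσb'.cexp).pow n).analyticOnNhd isOpen_ball
    have a3 := a1.eqOn_of_preconnected_of_eventuallyEq a2 (convex_ball _ _).isPreconnected hc₂ e3
      (mem_ball_self hb0)
    simp only [hσ0, hσ0'] at a3
    exact hne a3
  -- a small disc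
  set ρ : ℝ := min r r₀ with hρ
  have hρ0 : 0 < ρ := by positivity
  have hcσ : ContinuousAt σ c₁ := (hσ.differentiableAt (ball_mem_nhds _ hδ)).continuousAt
  have hcψ' : ContinuousAt ψ' (tpi * v') :=
    (hψ'.differentiableAt (ball_mem_nhds _ hr')).continuousAt
  have f1 : ∀ᶠ c in 𝓝 c₁, c ∈ ball c₁ b ∧ σ c ∈ ball (tpi * (v : ℂ)) ρ ∧ ψ (σ c) = c := by
    refine Filter.Eventually.and (ball_mem_nhds _ hb0) (Filter.Eventually.and ?_ hinv)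
    exact hcσ.eventually_mem (by rw [hσ0]; exact ball_mem_nhds _ hρ0)
  have f2 : ∀ᶠ s in 𝓝 (tpi * (v' : ℂ)), s ∈ ball (tpi * (v' : ℂ)) r' ∧ ψ' s ∈ ball c₁ b ∧
      σ (ψ' s) ∈ ball (tpi * (v : ℂ)) ρ ∧ ψ (σ (ψ' s)) = ψ' s := by
    refine Filter.Eventually.and (ball_mem_nhds _ hr') ?_
    have : ∀ᶠ c in 𝓝 (ψ' (tpi * v')), c ∈ ball c₁ b ∧ σ c ∈ ball (tpi * (v : ℂ)) ρ ∧
        ψ (σ c) = c := by rw [hψ0']; exact f1
    exact hcψ'.eventually this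
  obtain ⟨ε, hε, hbε⟩ := Metric.eventually_nhds_iff_ball.1 f2
  set H : Set ℂ := ball (tpi * (v' : ℂ)) ε ∩ {s : ℂ | s.re < 0} with hH
  have hHM : ∀ s ∈ H, ψ' s ∈ MM ∧ 0 < (σ (ψ' s)).re := by
    rintro s ⟨hs, hre⟩
    obtain ⟨g1, g2, g3, g4⟩ := hbε s hs
    obtain ⟨k1, k2, k3, k4⟩ := hmem' s g1
    have hre' : s.re < 0 := hre
    have hσs : (σ' (ψ' s)).re < 0 := by rw [k4]; exact hre'
    have hint : ∀ᶠ c in 𝓝 (ψ' s), c ∈ MM := by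
      have hc2 : ContinuousAt σ' (ψ' s) :=
        (hσb'.differentiableAt (isOpen_ball.mem_nhds g2)).continuousAt
      have e2 : ∀ᶠ c in 𝓝 (ψ' s), (σ' c).re < 0 :=
        (continuous_re.continuousAt.comp hc2).eventually_lt continuousAt_const hσs
      filter_upwards [e2, isOpen_ball.mem_nhds g2] with c j1 j2
      obtain ⟨l1, l2⟩ := hZ' c (ball_subset_ball (min_le_right _ _) j2)
      refine (FRO.fro n' c (Z' c) hn' l1 ?_).1
      rw [l2, norm_exp]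
      exact (Real.exp_lt_one_iff.2 j1).le
    refine ⟨hint.self_of_nhds, ?_⟩
    by_contra hcon
    push Not at hcon
    rcases hcon.lt_or_eq with h1 | h1
    · exact hno _ g2 ⟨h1, hσs⟩
    · obtain ⟨l1, l2⟩ := hZ (ψ' s) (ball_subset_ball (min_le_left _ _) g2)
      have h2 : ‖mul n (ψ' s) (Z (ψ' s))‖ = 1 := by rw [l2, norm_exp, h1, Real.exp_zero]
      have h3 := (FRO.fro n _ _ hn l1 h2.le).2 h2 (by
        rw [l2]
        exact (hmem _ (ball_subset_ball (min_le_left _ _) g3)).2.1)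
      obtain ⟨x, hx1, hx2⟩ := ((mem_closure_iff_frequently.1 h3).and_eventually hint).exists
      exact hx1 hx2
  have hHc : IsPreconnected H :=
    ((convex_ball _ _).inter (convex_halfSpace_re_lt 0)).isPreconnected
  have hgc : ContinuousOn (fun s => σ (ψ' s)) (ball (tpi * (v' : ℂ)) ε) := by
    refine (hσb.continuousOn).comp (hψ'.continuousOn.mono fun s hs => (hbε s hs).1) ?_
    intro s hs
    exact (hbε s hs).2.1
  set T : Set ℂ := (fun s => σ (ψ' s)) '' H with hT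
  have hTB : ∀ s ∈ T, ψ s ∈ B := by
    refine hCan ρ hρ0 (min_le_right _ _) ψ ζ T
      (hψ.continuousOn.mono (ball_subset_ball (min_le_left _ _)))
      (hζ.continuousOn.mono (ball_subset_ball (min_le_left _ _))) hψ0 hζ0
      (fun s hs => (hmem s (ball_subset_ball (min_le_left _ _) hs)).1) ?_
      (hHc.image _ (hgc.mono inter_subset_left)) ?_ ?_
    · rintro _ ⟨s, hs, rfl⟩
      exact ⟨(hbε s hs.1).2.2.1, (hHM s hs).2⟩
    · have h1 : tpi * (v' : ℂ) ∈ closure H := by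
        rw [mem_closure_iff_nhds]
        intro U hU
        obtain ⟨s, g1, g2, g3⟩ := left_near
          (P := fun s => s ∈ U ∧ s ∈ ball (tpi * (v' : ℂ)) ε)
          ((show ∀ᶠ s in 𝓝 (tpi * (v' : ℂ)), s ∈ U from hU).and (ball_mem_nhds _ hε))
        exact ⟨s, g2, g3, g1⟩
      have h2 : ContinuousWithinAt (fun s => σ (ψ' s)) H (tpi * (v' : ℂ)) :=
        ((hgc.continuousAt (ball_mem_nhds _ hε))).continuousWithinAt
      have h3 := h2.mem_closure_image h1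
      simp only [hψ0', hσ0] at h3
      exact h3
    · rintro _ ⟨s, hs, rfl⟩
      simp only
      rw [(hbε s hs.1).2.2.2]
      exact (hHM s hs).1
  -- the end
  have hcσ' : ContinuousAt σ' c₁ := (hσ'.differentiableAt (ball_mem_nhds _ hδ')).continuousAt
  have f3 : ∀ᶠ c in 𝓝 c₁, c ∈ ball c₁ b ∧ σ' c ∈ ball (tpi * (v' : ℂ)) ε ∧ ψ' (σ' c) = c := by
    refine Filter.Eventually.and (ball_mem_nhds _ hb0) (Filter.Eventually.and ?_ hinv')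
    exact hcσ'.eventually_mem (by rw [hσ0']; exact ball_mem_nhds _ hε)
  obtain ⟨η, hη, hbη⟩ := Metric.eventually_nhds_iff_ball.1 f3
  refine ⟨min η δ', by positivity, fun c z hc hz hfz hmz => ?_⟩
  obtain ⟨g1, g2, g3⟩ := hbη c (by
    rw [mem_ball, dist_eq_norm]; exact hc.trans_le (min_le_left _ _))
  have hcδ : c ∈ ball c₁ δ' := by
    rw [mem_ball, dist_eq_norm]; exact hc.trans_le (min_le_right _ _)
  have hzδ : z ∈ ball z₁' δ' := by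
    rw [mem_ball, dist_eq_norm]; exact hz.trans_le (min_le_right _ _)
  have hzZ := hZu' c hcδ z hzδ hfz
  rw [hzZ, (hZ' c hcδ).2, norm_exp, Real.exp_lt_one_iff] at hmz
  have hsH : σ' c ∈ H := ⟨g2, hmz⟩
  have h1 := hTB _ (mem_image_of_mem _ hsH)
  rw [(hbε _ hsH.1).2.2.2, g3] at h1
  exact h1

/-- an open connected subset of `M` which meets a clopen set is in the clopen set -/
theorem sub_of_meet {a : ℂ} {A V : Set ℂ} (ha : a ∈ closure MMᶜ) (hA : Clo a A) (hVo : IsOpen V)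
    (hVc : IsPreconnected V) (hVM : V ⊆ MM) (hne : (V ∩ A).Nonempty) : V ⊆ A := by
  have haV : a ∉ V := by
    intro haV
    obtain ⟨x, hx1, hx2⟩ := mem_closure_iff.1 ha V hVo haV
    exact hx2 (hVM hx1)
  by_contra hns
  obtain ⟨x, hxV, hxA⟩ := not_subset.1 hns
  set u : Set ℂ := interior {c | c ∈ MM → c ∈ A} with hu
  have hVu : V ⊆ u ∪ (closure A)ᶜ := by
    intro y hy
    by_cases h : y ∈ closure A
    · left
      rcases hA.cls h with h2 | h2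
      · exact absurd (h2 ▸ hy) haV
      · exact mem_interior_iff_mem_nhds.2 (hA.opn y h2)
    · exact Or.inr h
  obtain ⟨y, hyV, hyu, hyc⟩ := hVc u (closure A)ᶜ isOpen_interior isClosed_closure.isOpen_compl
    hVu (by
      obtain ⟨y, h1, h2⟩ := hne
      exact ⟨y, h1, mem_interior_iff_mem_nhds.2 (hA.opn y h2)⟩) (by
      refine ⟨x, hxV, fun h => ?_⟩
      rcases hA.cls h with h2 | h2
      · exact haV (h2 ▸ hxV)
      · exact hxA h2)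
  exact hyc (subset_closure (interior_subset hyu (hVM hyV)))

/-- equal multipliers -/
theorem arith {n n' q q' : ℕ} {p p' : ℤ} (hn : 1 ≤ n) (hq : 1 ≤ q) (hq' : 1 ≤ q')
    (hco' : IsCoprime p' (q' : ℤ))
    (h : exp (tpi * ((p / q : ℝ) : ℂ)) ^ n' = exp (tpi * ((p' / q' : ℝ) : ℂ)) ^ n) :
    q' ≤ n * q := by
  rw [← exp_nat_mul, ← exp_nat_mul, exp_eq_iff] at h
  obtain ⟨k, hk⟩ := h
  have hq0 : (q : ℂ) ≠ 0 := by exact_mod_cast (by omega : q ≠ 0)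
  have hq0' : (q' : ℂ) ≠ 0 := by exact_mod_cast (by omega : q' ≠ 0)
  have h1 : tpi * ((n' : ℂ) * ((p : ℂ) / q)) = tpi * ((n : ℂ) * ((p' : ℂ) / q') + k) := by
    push_cast at hk
    linear_combination hk
  have h2 := mul_left_cancel₀ tpi_ne h1
  have h3 : (n' : ℂ) * p * q' = n * p' * q + k * q * q' := by
    field_simp at h2
    linear_combination h2
  have h4 : (n' : ℤ) * p * q' = n * p' * q + k * q * q' := by exact_mod_cast h3
  have h5 : (q' : ℤ) ∣ p' * (n * q) := ⟨n' * p - k * q, by linear_combination (-1 : ℤ) * h4⟩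
  have h6 : (q' : ℤ) ∣ (n * q : ℤ) := hco'.symm.dvd_of_dvd_mul_left h5
  have h7 : q' ∣ n * q := by exact_mod_cast h6
  exact Nat.le_of_dvd (Nat.mul_pos hn hq) h7

/-- good limbs with the same root -/
theorem same_root : ∃ C : ℝ, 0 < C ∧ ∀ (n q n' q' : ℕ) (p p' : ℤ) (c₁ z₁ z₁' : ℂ), 1 ≤ n → 1 ≤ q →
    1 ≤ n' → 1 ≤ q' → IsCoprime p (q : ℤ) → IsCoprime p' (q' : ℤ) →
    C * n ^ 2 ≤ q * dZ (p / q) ^ 2 → C * n' ^ 2 ≤ q' * dZ (p' / q') ^ 2 →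
    (f c₁)^[n] z₁ = z₁ → mul n c₁ z₁ = exp (tpi * ((p / q : ℝ) : ℂ)) →
    (f c₁)^[n'] z₁' = z₁' → mul n' c₁ z₁' = exp (tpi * ((p' / q' : ℝ) : ℂ)) → q' ≤ n * q := by
  obtain ⟨C, hC, hrel⟩ := ALL2.rel
  refine ⟨4 * C, by positivity, ?_⟩
  intro n q n' q' p p' c₁ z₁ z₁' hn hq hn' hq' hco hco' hbig hbig' hf hm hf' hm'
  by_contra hcon
  have hne : exp (tpi * ((p / q : ℝ) : ℂ)) ^ n' ≠ exp (tpi * ((p' / q' : ℝ) : ℂ)) ^ n :=
    fun h => hcon (arith hn hq hq' hco' h)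
  have hd : ∀ (n q : ℕ) (p : ℤ), 1 ≤ n → 4 * C * (n : ℝ) ^ 2 ≤ q * dZ (p / q) ^ 2 →
      dZ (p / q) ≠ 0 := by
    intro n q p hn h h0
    rw [h0] at h
    have hn0 : (0 : ℝ) < n := by exact_mod_cast hn
    have : 0 < 4 * C * (n : ℝ) ^ 2 := by positivity
    linarith [show (q : ℝ) * 0 ^ 2 = 0 by ring]
  have hv := hd n q p hn hbig
  have hv' := hd n' q' p' hn' hbig'
  have hbd : c₁ ∈ closure MMᶜ := MLCR.root_bdry hn hv hf hm
  obtain ⟨B, r₀, hr₀, hL, hclo, -, -, hcan⟩ := ALL2.can n (p / q) c₁ z₁ hn hv hf hm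
  obtain ⟨B', r₀', hr₀', hL', hclo', -, -, hcan'⟩ := ALL2.can n' (p' / q') c₁ z₁' hn' hv' hf' hm'
  obtain ⟨δ, hδ, h1⟩ := two hn hn' hv hv' hf hm hf' hm' hne hr₀ hcan
  obtain ⟨δ', hδ', h2⟩ := two hn' hn hv' hv hf' hm' hf hm hne.symm hr₀' hcan'
  obtain ⟨V, a, za, hVo, hVc, hVa, hVn, haV, haf, ham⟩ := MLCR.comp ALL2.exl hn hv hf hm
  obtain ⟨V', a', za', hVo', hVc', hVa', hVn', haV', haf', ham'⟩ :=
    MLCR.comp ALL2.exl hn' hv' hf' hm'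
  have hVM : V ⊆ MM := fun c hc => by
    obtain ⟨z, g1, g2⟩ := hVa c hc
    exact (FRO.fro n c z hn g1 g2.le).1
  have hVM' : V' ⊆ MM := fun c hc => by
    obtain ⟨z, g1, g2⟩ := hVa' c hc
    exact (FRO.fro n' c z hn' g1 g2.le).1
  have hV'B : V' ⊆ B := by
    refine sub_of_meet hbd hclo hVo' hVc' hVM' ?_
    obtain ⟨c', hc', z', g1, g2, g3, g4⟩ := hVn' δ hδ
    exact ⟨c', hc', h1 c' z' g1 g2 g3 g4⟩
  have hVB' : V ⊆ B' := by
    refine sub_of_meet hbd hclo' hVo hVc hVM ?_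
    obtain ⟨c', hc', z', g1, g2, g3, g4⟩ := hVn δ' hδ'
    exact ⟨c', hc', h2 c' z' g1 g2 g3 g4⟩
  have hquart : ∀ (n q : ℕ) (p : ℤ), 1 ≤ n → 4 * C * (n : ℝ) ^ 2 ≤ q * dZ (p / q) ^ 2 →
      C * n ^ 2 / (q * dZ (p / q) ^ 2) ≤ 1 / 4 ∧ C * (n : ℝ) ^ 2 ≤ q * dZ (p / q) ^ 2 := by
    intro n q p hn h
    have hn0 : (0 : ℝ) < n := by exact_mod_cast hn
    have h3 : 0 < C * (n : ℝ) ^ 2 := by positivity
    refine ⟨?_, by linarith⟩
    rw [div_le_iff₀ (by linarith)]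
    linarith
  obtain ⟨k1, k2⟩ := hquart n q p hn hbig
  obtain ⟨k1', k2'⟩ := hquart n' q' p' hn' hbig'
  have m1 := hrel n q p c₁ z₁ B V a za hn hq hco hv k2 hL hVo hVc hVa hVn haV haf ham a' (hV'B haV')
  have m2 := hrel n' q' p' c₁ z₁' B' V' a' za' hn' hq' hco' hv' k2' hL' hVo' hVc' hVa' hVn' haV'
    haf' ham' a (hVB' haV)
  have m3 : ‖a' - c₁‖ ≤ 1 / 4 * ‖a - c₁‖ := m1.trans (by gcongr)
  have m4 : ‖a - c₁‖ ≤ 1 / 4 * ‖a' - c₁‖ := m2.trans (by gcongr)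
  have m5 : ‖a - c₁‖ ≤ 0 := by linarith [norm_nonneg (a - c₁), norm_nonneg (a' - c₁)]
  have m6 : a = c₁ := sub_eq_zero.1 (norm_le_zero_iff.1 m5)
  rw [m6] at haV
  obtain ⟨x, hx1, hx2⟩ := mem_closure_iff.1 hbd V hVo haV
  exact hx2 (hVM hx1)

/-- the periodic points are finite in number -/
theorem per_finite (c : ℂ) {n : ℕ} (hn : 1 ≤ n) : {z : ℂ | (f c)^[n] z = z}.Finite := by
  classical
  set P : Polynomial ℂ := Polynomial.X ^ 2 + Polynomial.C c with hP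
  set Q : Polynomial ℂ := P.comp^[n] Polynomial.X - Polynomial.X with hQ
  have hPd : P.natDegree = 2 := by rw [hP]; compute_degree!
  have h1 : (P.comp^[n] Polynomial.X).natDegree = 2 ^ n := by
    rw [Polynomial.natDegree_iterate_comp, hPd, Polynomial.natDegree_X, Nat.mul_one]
  have hQ0 : Q ≠ 0 := by
    intro h0
    have h2 : P.comp^[n] Polynomial.X = Polynomial.X := sub_eq_zero.1 h0
    rw [h2, Polynomial.natDegree_X] at h1
    have : 2 ^ 1 ≤ 2 ^ n := Nat.pow_le_pow_right (by norm_num) hn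
    omega
  have hev : ∀ z, Q.eval z = (f c)^[n] z - z := by
    intro z
    rw [hQ, Polynomial.eval_sub, Polynomial.iterate_comp_eval, Polynomial.eval_X]
    congr 2
    funext x
    simp [hP, f]
  refine (Q.roots.toFinset.finite_toSet).subset fun z hz => ?_
  rw [Finset.mem_coe, Multiset.mem_toFinset, Polynomial.mem_roots hQ0, Polynomial.IsRoot.def, hev]
  exact sub_eq_zero.2 hz

/-- the multiplier criterion -/
theorem mult : ∃ κ C : ℝ, 0 < κ ∧ 0 < C ∧ ∀ c ∈ MM,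
    {x : ℕ × ℂ | 1 ≤ x.1 ∧ (f c)^[x.1] x.2 = x.2 ∧ ∃ s : ℂ, mul x.1 c x.2 = exp s ∧ 0 < s.re ∧
      s.re < κ * dZ (s.im / (2 * Real.pi)) ^ 2 / x.1 ∧
      ∀ (p : ℤ) (q : ℕ), 1 ≤ q → IsCoprime p (q : ℤ) → q * dZ (p / q) ^ 2 < C * x.1 ^ 2 →
        2 * x.1 * Real.log 2 / q * s.re < ‖s - tpi * ((p / q : ℝ) : ℂ)‖ ^ 2}.Infinite →
    (∀ U ∈ 𝓝 c, ∃ V ⊆ U ∩ MM, IsConnected V ∧ V ∈ 𝓝[MM] c) ∧
      c ∈ closure {c : ℂ | ∃ (m : ℕ) (z : ℂ), 1 ≤ m ∧ (f c)^[m] z = z ∧ ‖mul m c z‖ < 1} := by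
  obtain ⟨κ, hκ, hlimb⟩ := exists_limb
  obtain ⟨C₁, hC₁, hlc⟩ := ALL2.mlcr
  obtain ⟨C₂, hC₂, hsame⟩ := same_root
  refine ⟨κ, max C₁ C₂, hκ, lt_max_of_lt_left hC₁, fun c hc hinf => ?_⟩
  set C : ℝ := max C₁ C₂ with hCdef
  -- cycles of large periods
  have hlarge : ∀ N : ℕ, ∃ (n q : ℕ) (p : ℤ) (c₁ z₁ : ℂ) (B : Set ℂ), N < n ∧ 1 ≤ n ∧ 1 ≤ q ∧
      IsCoprime p (q : ℤ) ∧ C * n ^ 2 ≤ q * dZ (p / q) ^ 2 ∧ Limb n (p / q) c₁ z₁ B ∧ c ∈ B := by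
    intro N
    have hfin : {x : ℕ × ℂ | 1 ≤ x.1 ∧ x.1 ≤ N ∧ (f c)^[x.1] x.2 = x.2}.Finite := by
      have h1 : {x : ℕ × ℂ | 1 ≤ x.1 ∧ x.1 ≤ N ∧ (f c)^[x.1] x.2 = x.2} ⊆
          ⋃ n ∈ Finset.Icc 1 N, (fun z => (n, z)) '' {z : ℂ | (f c)^[n] z = z} := by
        rintro ⟨n, z⟩ ⟨h1, h2, h3⟩
        simp only [mem_iUnion]
        exact ⟨n, Finset.mem_Icc.2 ⟨h1, h2⟩, z, h3, rfl⟩
      refine Set.Finite.subset (Set.Finite.biUnion (Finset.finite_toSet _) fun n hn => ?_) h1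
      exact (per_finite c (Finset.mem_Icc.1 hn).1).image _
    obtain ⟨⟨n, z⟩, ⟨hn, hf, s, hm, hre, hlt, hpq⟩, hnot⟩ := (hinf.sdiff hfin).nonempty
    simp only at hn hf hm hlt hpq
    obtain ⟨q, p, c₁, z₁, B, hq, hco, hd, hh, hL, hcB⟩ := hlimb n c z s hn hc hf hm hre hlt
    refine ⟨n, q, p, c₁, z₁, B, ?_, hn, hq, hco, ?_, hL, hcB⟩
    · by_contra hN
      exact hnot ⟨hn, by simpa using hN, hf⟩
    · by_contra hN
      push Not at hN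
      exact absurd hh (not_le.2 (hpq p q hq hco hN))
  -- the roots are different
  have hbound : ∀ c₁ : ℂ, ∃ N : ℕ, ∀ (n q : ℕ) (p : ℤ) (z₁ : ℂ) (B : Set ℂ), 1 ≤ n → 1 ≤ q →
      IsCoprime p (q : ℤ) → C * n ^ 2 ≤ q * dZ (p / q) ^ 2 → Limb n (p / q) c₁ z₁ B → n ≤ N := by
    intro c₁
    by_cases hex : ∃ (n q : ℕ) (p : ℤ) (z₁ : ℂ) (B : Set ℂ), 1 ≤ n ∧ 1 ≤ q ∧
      IsCoprime p (q : ℤ) ∧ C * n ^ 2 ≤ q * dZ (p / q) ^ 2 ∧ Limb n (p / q) c₁ z₁ B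
    · obtain ⟨n, q, p, z₁, B, hn, hq, hco, hbig, hL⟩ := hex
      obtain ⟨N, hN⟩ := exists_nat_ge ((n * q : ℝ) / C)
      refine ⟨N, fun n' q' p' z₁' B' hn' hq' hco' hbig' hL' => ?_⟩
      have hle : ∀ m : ℕ, C₂ * (m : ℝ) ^ 2 ≤ C * m ^ 2 := fun m =>
        mul_le_mul_of_nonneg_right (le_max_right _ _) (by positivity)
      have h1 := hsame n q n' q' p p' c₁ z₁ z₁' hn hq hn' hq' hco hco' ((hle n).trans hbig)
        ((hle n').trans hbig') hL.fix hL.mlt hL'.fix hL'.mlt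
      have h2 : (q' : ℝ) ≤ n * q := by exact_mod_cast h1
      have h3 : dZ (p' / q') ≤ 1 / 2 := abs_sub_round _
      have h4 : 0 ≤ dZ (p' / q') := abs_nonneg _
      have hC0 : 0 < C := lt_max_of_lt_left hC₁
      have h5 : C * (n' : ℝ) ^ 2 ≤ n * q := by
        refine hbig'.trans (le_trans ?_ h2)
        have h6 : dZ (p' / q') ^ 2 ≤ 1 := by nlinarith
        have hq0 : (0 : ℝ) ≤ q' := Nat.cast_nonneg _
        nlinarith
      have h7 : (1 : ℝ) ≤ n' := by exact_mod_cast hn'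
      have h8 : (n' : ℝ) ≤ N := by
        refine le_trans ?_ hN
        rw [le_div_iff₀ hC0]
        nlinarith
      exact_mod_cast h8
    · refine ⟨0, fun n q p z₁ B hn hq hco hbig hL => ?_⟩
      exact absurd ⟨n, q, p, z₁, B, hn, hq, hco, hbig, hL⟩ hex
  choose Nf hNf using hbound
  refine hlc c fun F hF => ?_
  obtain ⟨n, q, p, c₁, z₁, B, hNn, hn, hq, hco, hbig, hL, hcB⟩ :=
    hlarge (hF.toFinset.sup Nf)
  refine ⟨n, q, p, c₁, z₁, B, fun hcF => ?_, hn, hq, hco, ?_, hL, hcB⟩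
  · have h1 := hNf c₁ n q p z₁ B hn hq hco hbig hL
    have h2 : Nf c₁ ≤ hF.toFinset.sup Nf := Finset.le_sup (f := Nf) (by simpa using hcF)
    omega
  · exact (mul_le_mul_of_nonneg_right (le_max_left _ _) (by positivity)).trans hbig

end Pool.Agent.KS6_23.ML.MULT
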