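import Mathlib
import Pool.Prelude.Def_F_c31e40fa

set_option autoImplicit false

/-!
# Project ML: definitions and statements

The limbs of the hyperbolic components of the Mandelbrot set, and new points of local connectivity.

`f c z = z ^ 2 + c`; `HP` is the right half plane; `tpi = 2 π i`; angles are measured in turns.
-/

open Complex Set Filter Metric Topology MeasureTheory

namespace Pool.Agent.KS6_23.ML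

/-! ## Basic definitions -/

/-- the quadratic polynomial -/
def f (c z : ℂ) : ℂ := z ^ 2 + c

/-- the Mandelbrot set -/
abbrev MM : Set ℂ := N62a1eb23.mandelbrotSet

/-- the open right half plane -/
def HP : Set ℂ := {w : ℂ | 0 < w.re}

/-- `2 π i` -/
noncomputable def tpi : ℂ := 2 * Real.pi * I

/-- the multiplier of a point of period `n` -/
noncomputable def mul (n : ℕ) (c z : ℂ) : ℂ := deriv ((f c)^[n]) z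

/-- the number of a bit -/
def bt (e : Bool) : ℝ := if e then 1 else 0

/-- `n`-periodic codes -/
def Per (n : ℕ) (e : ℕ → Bool) : Prop := ∀ k, e (k + n) = e k

/-- the shift of a code -/
def sh (j : ℕ) (e : ℕ → Bool) : ℕ → Bool := fun k => e (k + j)

/-- the opposite code -/
def opp (e : ℕ → Bool) : ℕ → Bool := fun k => !(e k)

/-- the number of ones in a period -/
def ones (n : ℕ) (e : ℕ → Bool) : ℕ := ((Finset.range n).filter (fun k => e k = true)).card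

/-! ## The basic objects

`G c z` is Green's function of the filled Julia set of `f c`; `B c ξ` is the inverse of
Boettcher's function at `exp ξ`, it is defined for `Re ξ > G c c / 2 = G c 0`; `cc w` is the
parameter outside of `M` with the external coordinate `exp w`, so that `B (cc w) w = cc w`. -/

/-- Green's function -/
structure Green (G : ℂ → ℂ → ℝ) : Prop where
  gcont : Continuous (fun p : ℂ × ℂ => G p.1 p.2)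
  gnn : ∀ c z, 0 ≤ G c z
  gf : ∀ c z, G c (f c z) = 2 * G c z
  gzero : ∀ c z, G c z = 0 ↔ ∃ R : ℝ, ∀ k : ℕ, ‖(f c)^[k] z‖ ≤ R
  gK : ∀ c z, G c z = 0 → ‖z‖ ^ 2 ≤ 4 * (1 + ‖c‖)
  gM : ∀ c, G c c = 0 ↔ c ∈ MM
  glow : ∀ c z, Real.log ‖z‖ ≤ G c z + Real.log (4 * (1 + ‖c‖))
  gup : ∀ c z, G c z ≤ Real.log (1 + ‖c‖ + ‖z‖)
  gcc : ∀ c, Real.log ‖c‖ ≤ G c c + Real.log 4

/-- the inverse of Boettcher's function -/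
structure Bott (G : ℂ → ℂ → ℝ) (B : ℂ → ℂ → ℂ) : Prop where
  bcont : ContinuousOn (fun p : ℂ × ℂ => B p.1 p.2) {p : ℂ × ℂ | G p.1 p.1 < 2 * p.2.re}
  bdiff : ∀ c ξ, G c c < 2 * ξ.re → DifferentiableAt ℂ (B c) ξ
  bparm : ∀ c ξ, G c c < 2 * ξ.re → DifferentiableAt ℂ (fun c' => B c' ξ) c
  bG : ∀ c ξ, G c c < 2 * ξ.re → G c (B c ξ) = ξ.re
  bf : ∀ c ξ, G c c < 2 * ξ.re → f c (B c ξ) = B c (2 * ξ)
  bper : ∀ c ξ, G c c < 2 * ξ.re → B c (ξ + tpi) = B c ξ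
  binj : ∀ c ξ ξ', G c c < 2 * ξ.re → G c c < 2 * ξ'.re → B c ξ = B c ξ' →
    ∃ k : ℤ, ξ' = ξ + k * tpi
  bsurj : ∀ c z, G c c < 2 * G c z → ∃ ξ : ℂ, ξ.re = G c z ∧ B c ξ = z
  basym : ∃ K : ℝ, 1 ≤ K ∧ ∀ c ξ, 1 ≤ ξ.re → K * ‖c‖ ≤ Real.exp (2 * ξ.re) →
    G c c < 2 * ξ.re ∧ ‖B c ξ * exp (-ξ) - 1‖ ≤ K * ‖c‖ * Real.exp (-(2 * ξ.re))

/-- the parameters outside of `M` -/
structure Para (G : ℂ → ℂ → ℝ) (B : ℂ → ℂ → ℂ) (cc : ℂ → ℂ) : Prop where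
  pdiff : DifferentiableOn ℂ cc HP
  pper : ∀ w ∈ HP, cc (w + tpi) = cc w
  pG : ∀ w ∈ HP, G (cc w) (cc w) = w.re
  pB : ∀ w ∈ HP, B (cc w) w = cc w
  psurj : ∀ c, c ∉ MM → ∃ w ∈ HP, cc w = c
  conn : IsConnected MM

structure Base (G : ℂ → ℂ → ℝ) (B : ℂ → ℂ → ℂ) (cc : ℂ → ℂ) : Prop extends
  Green G, Bott G B, Para G B cc

def S_GREEN : Prop := ∃ G, Green G

def S_BOTT : Prop := ∀ G, Green G → ∃ B, Bott G B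

def S_PARA : Prop := ∀ G B, Green G → Bott G B → ∃ cc, Para G B cc

/-- the basic objects exist -/
def S_BASE : Prop := ∃ G B cc, Base G B cc

/-! ## External rays with sectors -/

/-- the open sector `|Im ζ| < κ Re ζ` -/
def Sk (κ : ℝ) : Set ℂ := {ζ : ℂ | |ζ.im| < κ * ζ.re}

/-- `N`-periodic sequences of angles (in turns, as real numbers) under doubling -/
structure Ang (N : ℕ) (θ : ℕ → ℝ) (a : ℕ → ℤ) : Prop where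
  pos : 1 ≤ N
  step : ∀ k, 2 * θ k = θ (k + 1) + a k
  per : ∀ k, θ (k + N) = θ k
  aper : ∀ k, a (k + N) = a k

/-- extended sectors about the rays of the angles `θ k`: `β k ζ` continues `B c (ζ + 2 π i θ k)` -/
structure Sec (G : ℂ → ℂ → ℝ) (B : ℂ → ℂ → ℂ) (c : ℂ) (N : ℕ) (θ : ℕ → ℝ) (κ : ℝ)
    (β : ℕ → ℂ → ℂ) : Prop where
  diff : ∀ k, DifferentiableOn ℂ (β k) (Sk κ)
  base : ∀ k, ∀ ζ ∈ Sk κ, G c c < 2 * ζ.re → β k ζ = B c (ζ + θ k * tpi)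
  step : ∀ k, ∀ ζ ∈ Sk κ, f c (β k ζ) = β (k + 1) (2 * ζ)
  grn : ∀ k, ∀ ζ ∈ Sk κ, G c (β k ζ) = ζ.re
  per : ∀ k, ∀ ζ ∈ Sk κ, β (k + N) ζ = β k ζ

/-- the critical value is not in the sectors -/
def Free (cc : ℂ → ℂ) (c : ℂ) (θ : ℕ → ℝ) (κ : ℝ) : Prop :=
  ∀ w ∈ HP, cc w = c → ∀ (k : ℕ) (m : ℤ), κ * w.re ≤ |w.im - 2 * Real.pi * (θ k + m)|

/-- existence of extended sectors -/
def S_SEC : Prop := ∀ G B cc, Base G B cc → ∀ (c : ℂ) (N : ℕ) (θ : ℕ → ℝ) (a : ℕ → ℤ) (κ : ℝ),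
  Ang N θ a → 0 < κ → Free cc c θ κ → ∃ β, Sec G B c N θ κ β

/-- the rays land: `zz k` is the landing point of the ray `θ k`, `Λ` is the logarithm of the
multiplier which is given by the ray -/
structure Land (N : ℕ) (κ : ℝ) (β : ℕ → ℂ → ℂ) (zz : ℕ → ℂ) (Λ : ℂ) : Prop where
  lim : ∀ k, Tendsto (β k) (𝓝[Sk (κ / 2)] 0) (𝓝 (zz k))
  lam : ∃ F : ℂ → ℂ, DifferentiableOn ℂ F (Sk κ) ∧ (∀ ζ ∈ Sk κ, exp (F ζ) = β 0 ζ - zz 0) ∧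
    Tendsto (fun ζ => F (2 ^ N * ζ) - F ζ) (𝓝[Sk (κ / 2)] 0) (𝓝 Λ)

/-- extended sectors are disjoint -/
def S_INJ : Prop := ∀ G B cc, Base G B cc → ∀ (c : ℂ) (N : ℕ) (θ : ℕ → ℝ) (a : ℕ → ℤ) (κ : ℝ)
  (β : ℕ → ℂ → ℂ), Ang N θ a → 0 < κ → Sec G B c N θ κ β →
  ∀ k l, ∀ ζ ∈ Sk κ, ∀ ζ' ∈ Sk κ, β k ζ = β l ζ' →
    ∃ m : ℤ, ζ + θ k * tpi = ζ' + θ l * tpi + m * tpi

/-- landing -/
def S_LAND : Prop := ∀ G B cc, Base G B cc → ∀ (c : ℂ) (N : ℕ) (θ : ℕ → ℝ) (a : ℕ → ℤ) (κ : ℝ)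
  (β : ℕ → ℂ → ℂ), Ang N θ a → 0 < κ → Sec G B c N θ κ β →
  ∃ (zz : ℕ → ℂ) (Λ : ℂ), Land N κ β zz Λ ∧ (∀ k, f c (zz k) = zz (k + 1)) ∧
    (∀ k, zz (k + N) = zz k) ∧ (∀ k, G c (zz k) = 0) ∧ exp Λ = mul N c (zz 0) ∧ 0 ≤ Λ.re

/-- the area lemma: `q` families of disjoint curvilinear strips -/
def S_GL : Prop := ∀ (κ lamb : ℝ) (q : ℕ) (F : ℕ → ℂ → ℂ) (Λ : ℂ), 0 < κ → 1 < lamb → 1 ≤ q →
  (∀ j < q, DifferentiableOn ℂ (F j) (Sk κ)) →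
  (∃ δ : ℝ, 0 < δ ∧ ∀ j < q, ∀ j' < q, ∀ ζ ∈ Sk κ, ∀ ζ' ∈ Sk κ, ‖ζ‖ < δ → ‖ζ'‖ < δ →
    exp (F j ζ) = exp (F j' ζ') → j = j' ∧ ζ = ζ') →
  (∀ j < q, Tendsto (fun ζ => F j (lamb * ζ) - F j ζ) (𝓝[Sk κ] 0) (𝓝 Λ)) →
    2 * Real.arctan κ * q * ‖Λ‖ ^ 2 ≤ 2 * Real.pi * Real.log lamb * |Λ.re|

/-- different angles at the same point -/
def Dist (n N : ℕ) (θ : ℕ → ℝ) : Prop :=
  ∀ i < N / n, ∀ j < N / n, ∀ m : ℤ, θ (i * n) = θ (j * n) + m → i = j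

/-- the inequality of Pommerenke, Levin and Yoccoz for a sector; `N = n q`, `q` rays land at `z` -/
def S_PLY : Prop := ∀ G B cc, Base G B cc → ∀ (c : ℂ) (n N : ℕ) (θ : ℕ → ℝ) (a : ℕ → ℤ) (κ : ℝ)
  (β : ℕ → ℂ → ℂ) (zz : ℕ → ℂ) (Λ : ℂ), 1 ≤ n → n ∣ N → Ang N θ a → 0 < κ →
  Sec G B c N θ κ β → Land N κ β zz Λ → Dist n N θ → (∀ j, zz (j * n) = zz 0) →
    2 * Real.arctan (κ / 2) * ‖Λ‖ ^ 2 ≤ 2 * Real.pi * n * Real.log 2 * Λ.re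

/-- stability of the landing at repelling points -/
def S_STAB : Prop := ∀ G B cc, Base G B cc → ∀ (c₀ : ℂ) (N : ℕ) (θ : ℕ → ℝ) (a : ℕ → ℤ) (κ₀ : ℝ)
  (β₀ : ℕ → ℂ → ℂ) (zz₀ : ℕ → ℂ) (Λ₀ : ℂ), c₀ ∈ MM → Ang N θ a → 0 < κ₀ →
  Sec G B c₀ N θ κ₀ β₀ → Land N κ₀ β₀ zz₀ Λ₀ → 1 < ‖mul N c₀ (zz₀ 0)‖ →
  ∀ κ e : ℝ, 0 < κ → 0 < e → ∃ δ : ℝ, 0 < δ ∧ ∀ c, ‖c - c₀‖ < δ → Free cc c θ κ ∧
    ∀ (β : ℕ → ℂ → ℂ) (zz : ℕ → ℂ) (Λ : ℂ), Sec G B c N θ κ β → Land N κ β zz Λ →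
      (∀ k, ‖zz k - zz₀ k‖ < e) ∧ ‖Λ - Λ₀‖ < e

/-- Douady's theorem: a repelling periodic point is the landing point of a periodic ray,
if the Julia set is connected -/
def S_DLT : Prop := ∀ G B cc, Base G B cc → ∀ (c z : ℂ) (n : ℕ), c ∈ MM → 1 ≤ n →
  (f c)^[n] z = z → 1 < ‖mul n c z‖ → ∃ (N : ℕ) (θ : ℕ → ℝ) (a : ℕ → ℤ), n ∣ N ∧ Ang N θ a ∧
    Dist n N θ ∧ ∀ (κ : ℝ) (β : ℕ → ℂ → ℂ) (zz : ℕ → ℂ) (Λ : ℂ), 0 < κ → Sec G B c N θ κ β →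
      Land N κ β zz Λ → ∀ k, zz k = (f c)^[k] z

/-! ## Codes of periodic points for parameters outside of `M` -/

/-- the ray from the critical value to infinity -/
def Gam (B : ℂ → ℂ → ℂ) (cc : ℂ → ℂ) (w : ℂ) : Set ℂ :=
  {z : ℂ | ∃ ξ : ℂ, ξ.im = w.im ∧ w.re ≤ ξ.re ∧ z = B (cc w) ξ}

/-- the branch `lam w z` of the logarithm of `z - cc w` -/
structure Lam (B : ℂ → ℂ → ℂ) (cc : ℂ → ℂ) (lam : ℂ → ℂ → ℂ) : Prop where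
  eq : ∀ w ∈ HP, ∀ z ∉ Gam B cc w, exp (lam w z) = z - cc w
  cont : ContinuousOn (fun p : ℂ × ℂ => lam p.1 p.2) {p : ℂ × ℂ | p.1 ∈ HP ∧ p.2 ∉ Gam B cc p.1}
  opn : IsOpen {p : ℂ × ℂ | p.1 ∈ HP ∧ p.2 ∉ Gam B cc p.1}
  per : ∀ w ∈ HP, ∀ z ∉ Gam B cc w, lam (w + tpi) z = lam w z + tpi
  ray : ∀ w ∈ HP, ∀ ξ : ℂ, w.re < 2 * ξ.re → w.im < 2 * ξ.im → 2 * ξ.im < w.im + 2 * Real.pi →
    exp (lam w (B (cc w) (2 * ξ)) / 2) = B (cc w) ξ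
  asy : ∀ w ∈ HP, ∀ x : ℝ, w.im < x → x < w.im + 2 * Real.pi →
    Tendsto (fun s : ℝ => lam w (B (cc w) (s + x * I)) - (s + x * I)) atTop (𝓝 0)
  sml : ∀ δ : ℝ, 0 < δ → ∃ R : ℝ, 1 ≤ R ∧ ∀ w : ℂ, R ≤ w.re → ∀ z : ℂ,
    ‖z‖ ≤ Real.exp (3 / 4 * w.re) → z ∉ Gam B cc w ∧ ‖lam w z - (w + Real.pi * I)‖ ≤ δ

def S_LAM : Prop := ∀ G B cc, Base G B cc → ∃ lam, Lam B cc lam

/-- the periodic point `Z e w` of `f (cc w)` with the code `e`, and a logarithm `ell e w` of the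
derivative `2 Z e w` -/
structure Code (G : ℂ → ℂ → ℝ) (B : ℂ → ℂ → ℂ) (cc : ℂ → ℂ) (lam : ℂ → ℂ → ℂ)
    (Z ell : (ℕ → Bool) → ℂ → ℂ) : Prop where
  zero : ∀ n, 1 ≤ n → ∀ e, Per n e → ∀ w ∈ HP, G (cc w) (Z e w) = 0
  mem : ∀ n, 1 ≤ n → ∀ e, Per n e → ∀ w ∈ HP, Z e w ∉ Gam B cc w
  zdiff : ∀ n, 1 ≤ n → ∀ e, Per n e → DifferentiableOn ℂ (Z e) HP
  edif : ∀ n, 1 ≤ n → ∀ e, Per n e → DifferentiableOn ℂ (ell e) HP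
  zf : ∀ n, 1 ≤ n → ∀ e, Per n e → ∀ w ∈ HP, f (cc w) (Z e w) = Z (sh 1 e) w
  code : ∀ n, 1 ≤ n → ∀ e, Per n e → ∀ w ∈ HP,
    Z e w = exp (lam w (Z (sh 1 e) w) / 2 + Real.pi * bt (e 0) * I)
  ell_eq : ∀ n, 1 ≤ n → ∀ e, Per n e → ∀ w ∈ HP,
    ell e w = Real.log 2 + lam w (Z (sh 1 e) w) / 2 + Real.pi * bt (e 0) * I
  inj : ∀ n, 1 ≤ n → ∀ e e', Per n e → Per n e' → ∀ w ∈ HP, Z e w = Z e' w → e = e'
  surj : ∀ n, 1 ≤ n → ∀ w ∈ HP, ∀ z : ℂ, (f (cc w))^[n] z = z → ∃ e, Per n e ∧ Z e w = z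
  rep : ∀ n, 1 ≤ n → ∀ e, Per n e → ∀ w ∈ HP, 1 < ‖mul n (cc w) (Z e w)‖
  zT : ∀ n, 1 ≤ n → ∀ e, Per n e → ∀ w ∈ HP, Z e (w + tpi) = Z (opp e) w
  eT : ∀ n, 1 ≤ n → ∀ e, Per n e → ∀ w ∈ HP, ell e (w + tpi) = ell (opp e) w + bt (e 0) * tpi

def S_CODE : Prop := ∀ G B cc lam, Base G B cc → Lam B cc lam → ∃ Z ell, Code G B cc lam Z ell

/-- the logarithm of the multiplier -/
noncomputable def LL (ell : (ℕ → Bool) → ℂ → ℂ) (n : ℕ) (e : ℕ → Bool) (w : ℂ) : ℂ :=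
  ∑ k ∈ Finset.range n, ell (sh k e) w

/-- the angles `θ k` are on the side `e k` of the critical rays if the critical value has the
angle `η` -/
def Side (η : ℝ) (e : ℕ → Bool) (θ : ℕ → ℝ) : Prop :=
  ∀ k, η / 2 + bt (e k) / 2 < θ k ∧ θ k < η / 2 + bt (e k) / 2 + 1 / 2

/-- the rays with a given itinerary land at the point with this code, and the logarithms of the
multiplier -/
def S_IDENT : Prop := ∀ G B cc lam Z ell, Base G B cc → Lam B cc lam → Code G B cc lam Z ell →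
  ∀ w ∈ HP, ∀ (N : ℕ) (e : ℕ → Bool) (θ : ℕ → ℝ) (a : ℕ → ℤ) (κ : ℝ)
  (β : ℕ → ℂ → ℂ) (zz : ℕ → ℂ) (Λ : ℂ), Per N e → Ang N θ a → 0 < κ →
  Side (w.im / (2 * Real.pi)) e θ → Free cc (cc w) θ κ → Sec G B (cc w) N θ κ β →
  Land N κ β zz Λ → zz 0 = Z e w ∧
    Λ = LL ell N e w - (((∑ k ∈ Finset.range N, a k : ℤ)) : ℂ) * tpi

end Pool.Agent.KS6_23.ML
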