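import Pool.Agent.KS6_23.ML.Stm

set_option autoImplicit false

/-!
# Project ML: statements, second part

Combinatorics, counting, the curves of periodic points, labels, the extension theorem, limbs.
-/

open Complex Set Filter Metric Topology MeasureTheory

namespace Pool.Agent.KS6_23.ML

/-! ## Combinatorics -/

/-- rotation numbers -/
def S_ROT : Prop := ∀ (n : ℕ) (e : ℕ → Bool), 1 ≤ n → Per n e → ∃ r : ℝ → ℝ, Continuous r ∧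
  (∀ η, r (η + 2) = r η + n) ∧
  ∀ (η : ℝ) (N : ℕ) (θ : ℕ → ℝ) (a : ℕ → ℤ), n ∣ N → Ang N θ a → Side η e θ →
    (n : ℝ) * ((∑ k ∈ Finset.range N, a k : ℤ) : ℝ) = N * r η

/-- there are angles with a given itinerary, for a dense set of critical values -/
def S_GEN : Prop := ∀ (n : ℕ) (e : ℕ → Bool), 1 ≤ n → Per n e → Dense {η : ℝ |
  ∃ (N : ℕ) (θ : ℕ → ℝ) (a : ℕ → ℤ), n ∣ N ∧ Ang N θ a ∧ Side η e θ ∧ Dist n N θ ∧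
    ∀ (k : ℕ) (m : ℤ), η ≠ θ k + m}

/-- the critical value is always in the same gap of the angles -/
def S_COMB : Prop := ∀ (n N : ℕ) (θ θ' : ℕ → ℝ) (a a' : ℕ → ℤ) (e e' : ℕ → Bool) (η η' : ℝ),
  1 ≤ n → n ∣ N → Per n e → Per n e' → Ang N θ a → Ang N θ' a' →
  (∀ k, ∃ m : ℤ, θ' k = θ k + m) → Side η e θ → Side η' e' θ' →
  ¬ ((N : ℤ) ∣ n * ∑ k ∈ Finset.range N, a k) →
    ∃ l : ℤ, ∀ x ∈ uIcc η (η' + l), ∀ (k : ℕ) (m : ℤ), x ≠ θ k + m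

/-! ## Counting and transversality -/

/-- the number of points of period `n` with a given multiplier -/
def S_CNTN : Prop := ∀ n : ℕ, 1 ≤ n →
  (∀ ρ : ℂ, {c : ℂ | ∃ z, (f c)^[n] z = z ∧ mul n c z = ρ}.Finite) ∧
  ∀ ρ : ℂ, ρ ≠ 1 → ∀ S : Finset (ℂ × ℂ), (∀ x ∈ S, (f x.1)^[n] x.2 = x.2 ∧ mul n x.1 x.2 = ρ) →
    S.card ≤ n * 2 ^ (n - 1)

/-- transversality -/
def S_TRV : Prop := ∀ (n : ℕ) (c₀ z₀ : ℂ) (ζ : ℂ → ℂ), 1 ≤ n → (f c₀)^[n] z₀ = z₀ →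
  mul n c₀ z₀ ≠ 0 → mul n c₀ z₀ ≠ 1 → ‖mul n c₀ z₀‖ ≤ 1 → AnalyticAt ℂ ζ c₀ → ζ c₀ = z₀ →
  (∀ᶠ c in 𝓝 c₀, (f c)^[n] (ζ c) = ζ c) → deriv (fun c => mul n c (ζ c)) c₀ ≠ 0

/-- periodic points which are not repelling, and the Mandelbrot set -/
def S_FRO : Prop := ∀ (n : ℕ) (c z : ℂ), 1 ≤ n → (f c)^[n] z = z → ‖mul n c z‖ ≤ 1 → c ∈ MM ∧
  (‖mul n c z‖ = 1 → mul n c z ≠ 1 → c ∈ closure MMᶜ)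

/-! ## The curves of periodic points -/

/-- periodic points with a logarithm of the multiplier in `D` -/
def XX (n : ℕ) (D : Set ℂ) : Set (ℂ × ℂ × ℂ) :=
  {x | x.2.2 ∈ D ∧ (f x.1)^[n] x.2.1 = x.2.1 ∧ mul n x.1 x.2.1 = exp x.2.2}

/-- the distance to the next integer -/
noncomputable def dZ (t : ℝ) : ℝ := |t - round t|

/-- local structure -/
def S_XLOC : Prop := ∀ (n : ℕ) (c₀ z₀ s₀ : ℂ), 1 ≤ n → (f c₀)^[n] z₀ = z₀ →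
  mul n c₀ z₀ = exp s₀ → exp s₀ ≠ 1 → ∃ (δ : ℝ) (ζ σ : ℂ → ℂ), 0 < δ ∧
    DifferentiableOn ℂ ζ (ball c₀ δ) ∧ DifferentiableOn ℂ σ (ball c₀ δ) ∧ ζ c₀ = z₀ ∧ σ c₀ = s₀ ∧
    (∀ c ∈ ball c₀ δ, (f c)^[n] (ζ c) = ζ c ∧ mul n c (ζ c) = exp (σ c)) ∧
    ∀ c ∈ ball c₀ δ, ∀ z ∈ ball z₀ δ, (f c)^[n] z = z → z = ζ c ∧
      ∀ s ∈ ball s₀ δ, mul n c z = exp s → s = σ c

/-- compactness -/
def S_XCPT : Prop := (∀ n : ℕ, 1 ≤ n → ∀ K : Set ℂ, IsCompact K → IsCompact (XX n K)) ∧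
  ∀ (n : ℕ) (c z : ℂ), 1 ≤ n → (f c)^[n] z = z → ‖mul n c z‖ ≤ 3 → ‖c‖ ≤ 6

/-- a set of periodic points which is open and closed over `M` contains a parameter of the
boundary of `M` -/
def S_INT : Prop := ∀ (n : ℕ) (t r : ℝ), 1 ≤ n → 0 < r → r ≤ dZ t → ∀ F : Set ℂ, F.Finite →
  ∀ A : Set (ℂ × ℂ × ℂ), A.Nonempty → (∀ x ∈ A, x ∈ XX n (ball (tpi * t) r ∩ HP) ∧ x.1 ∈ MM \ F) →
  (∀ x ∈ XX n (ball (tpi * t) r ∩ HP), x.1 ∈ MM \ F →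
    (x ∈ A → ∀ᶠ y in 𝓝 x, y ∈ XX n (ball (tpi * t) r ∩ HP) → y.1 ∈ MM \ F → y ∈ A) ∧
    (x ∉ A → ∀ᶠ y in 𝓝 x, y ∈ XX n (ball (tpi * t) r ∩ HP) → y.1 ∈ MM \ F → y ∉ A)) →
  ∃ x ∈ A, x.1 ∈ frontier MM

/-- the disc on which the inverse of the multiplier will be defined -/
def DD (κ₀ : ℝ) (n : ℕ) (t : ℝ) : Set ℂ := ball (tpi * t) (κ₀ * dZ t ^ 2 / n)

/-- labels are locally constant, and all the labels occur -/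
def S_LAB : Prop := ∃ κ₀ : ℝ, 0 < κ₀ ∧ κ₀ ≤ 1 ∧ ∀ (n : ℕ) (t : ℝ), 1 ≤ n → dZ t ≠ 0 →
  ∃ lab : ℂ × ℂ × ℂ → Fin (n * 2 ^ (n - 1)),
    (∀ x ∈ XX n (DD κ₀ n t ∩ HP), ∀ᶠ y in 𝓝[XX n (DD κ₀ n t ∩ HP)] x, lab y = lab x) ∧
    ∀ i, ∃ x ∈ XX n (DD κ₀ n t ∩ HP), lab x = i

/-- the combinatorial rotation number is locally constant in `M`, and the parameters with a given
rotation number are in a horodisc -/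
def S_CLS : Prop := ∃ κ₀ : ℝ, 0 < κ₀ ∧ κ₀ ≤ 1 ∧ ∀ (n : ℕ) (t : ℝ), 1 ≤ n → dZ t ≠ 0 →
  ∃ cl : ℂ × ℂ × ℂ → ℝ, ∀ x ∈ XX n (DD κ₀ n t ∩ HP), x.1 ∈ MM →
    (∃ (p : ℤ) (q : ℕ), 1 ≤ q ∧ cl x = p / q ∧
      ‖x.2.2 - tpi * cl x‖ ^ 2 ≤ 2 * n * Real.log 2 / q * x.2.2.re) ∧
    ∀ᶠ y in 𝓝 x, y ∈ XX n (DD κ₀ n t ∩ HP) → y.1 ∈ MM → cl y = cl x

/-- the derivative of the multiplier is not zero -/
def S_UNR : Prop := ∃ κ₀ : ℝ, 0 < κ₀ ∧ κ₀ ≤ 1 ∧ ∀ (n : ℕ) (t : ℝ), 1 ≤ n → dZ t ≠ 0 →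
  ∀ x ∈ XX n (DD κ₀ n t), ∀ ζ : ℂ → ℂ, AnalyticAt ℂ ζ x.1 → ζ x.1 = x.2.1 →
    (∀ᶠ c in 𝓝 x.1, (f c)^[n] (ζ c) = ζ c) → deriv (fun c => mul n c (ζ c)) x.1 ≠ 0

/-- the extension theorem: the inverse of the multiplier has an extension to the disc -/
def S_EXT : Prop := ∃ κ₀ : ℝ, 0 < κ₀ ∧ κ₀ ≤ 1 ∧ ∀ (n : ℕ) (t : ℝ), 1 ≤ n → dZ t ≠ 0 →
  ∀ c z : ℂ, (f c)^[n] z = z → mul n c z = exp (tpi * t) →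
    ∃ ψ ζ : ℂ → ℂ, DifferentiableOn ℂ ψ (DD κ₀ n t) ∧ DifferentiableOn ℂ ζ (DD κ₀ n t) ∧
      ψ (tpi * t) = c ∧ ζ (tpi * t) = z ∧ ∀ s ∈ DD κ₀ n t, (ψ s, ζ s, s) ∈ XX n (DD κ₀ n t) ∧
        ‖ψ s‖ ≤ 6 ∧ deriv ψ s ≠ 0

/-- `B` is separated from the rest of `M` by the parameter `c₀` of a cycle of multiplier
`exp (2 π i t)`; `B` does not contain the parameters near `c₀` for which the cycle is attracting -/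
structure Limb (n : ℕ) (t : ℝ) (c₀ z₀ : ℂ) (B : Set ℂ) : Prop where
  fix : (f c₀)^[n] z₀ = z₀
  mlt : mul n c₀ z₀ = exp (tpi * t)
  sub : B ⊆ MM \ {c₀}
  opn : ∃ O : Set ℂ, IsOpen O ∧ B = O ∩ (MM \ {c₀})
  cls : ∃ K : Set ℂ, IsClosed K ∧ B = K ∩ (MM \ {c₀})
  att : ∃ δ : ℝ, 0 < δ ∧ ∀ c z : ℂ, ‖c - c₀‖ < δ → ‖z - z₀‖ < δ → (f c)^[n] z = z →
    ‖mul n c z‖ < 1 → c ∉ B

/-- the limbs are small -/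
def S_LIMB : Prop := ∃ C : ℝ, 0 < C ∧ ∀ (n q : ℕ) (p : ℤ) (c₀ z₀ : ℂ) (B : Set ℂ), 1 ≤ n → 1 ≤ q →
  IsCoprime p (q : ℤ) → dZ (p / q) ≠ 0 → Limb n (p / q) c₀ z₀ B → ∀ c ∈ B,
    ‖c - c₀‖ ≤ C * n ^ 2 / (q * dZ (p / q) ^ 2)

end Pool.Agent.KS6_23.ML
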