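import Pool.Agent.KS6_23.ML.TRVa
import Pool.Agent.KS6_23.ML.XTools

set_option autoImplicit false

/-! # Project ML, module 18: transversality

The derivative of the multiplier with respect to the parameter is not `0` at a periodic point
which is not repelling and not parabolic or superattracting. -/

open Complex Set Filter Metric Topology

namespace Pool.Agent.KS6_23.ML.TRV

open Pool.Agent.KS6_23.ML Pool.Agent.KS6_23.ML.Basic Pool.Agent.KS6_23.ML.XTools

/-- derivative of the iterates with respect to the parameter, along a curve of points -/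
theorem der_par {c₀ : ℂ} {y : ℂ → ℂ} {y' : ℂ} (hy : HasDerivAt y y' c₀) (D : ℕ → ℂ)
    (h0 : D 0 = y') (hD : ∀ n, D (n + 1) = 2 * ((f c₀)^[n] (y c₀)) * D n + 1)
    (n : ℕ) : HasDerivAt (fun c => (f c)^[n] (y c)) (D n) c₀ := by
  induction n with
  | zero => rw [h0]; exact hy
  | succ n ih =>
    have h1 := (ih.pow 2).add (hasDerivAt_id c₀)
    have e : D (n + 1) = ((2 : ℕ) : ℂ) * ((f c₀)^[n] (y c₀)) ^ (2 - 1) * D n + 1 := by
      rw [hD]; norm_num
    rw [e]
    refine h1.congr_of_eventuallyEq (Eventually.of_forall fun w => ?_)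
    exact iter_succ w (y w) n

/-- the logarithmic derivative of a product -/
theorem der_prod {m : ℕ} {g : ℕ → ℂ → ℂ} {s : ℕ → ℂ} {c₀ : ℂ}
    (hf : ∀ j, HasDerivAt (g j) (g j c₀ * s j) c₀) :
    HasDerivAt (fun c => ∏ j ∈ Finset.range m, g j c)
      ((∏ j ∈ Finset.range m, g j c₀) * ∑ j ∈ Finset.range m, s j) c₀ := by
  induction m with
  | zero => simpa using hasDerivAt_const c₀ (1 : ℂ)
  | succ m ih =>
    have h1 := ih.mul (hf m)
    simp only [Finset.prod_range_succ, Finset.sum_range_succ]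
    refine h1.congr_deriv ?_
    ring

/-- the periodic solution of an affine recursion -/
theorem aff_per (m : ℕ) (F s : ℕ → ℂ) (hF : (∏ j ∈ Finset.range m, F j)⁻¹ ≠ 1) :
    ∃ β : ℕ → ℂ, (∀ j, β (j + 1) = β j / F j - s j) ∧ β m = β 0 := by
  obtain ⟨r, hr0, hr⟩ : ∃ r : ℕ → ℂ, r 0 = 0 ∧ ∀ n, r (n + 1) = r n / F n - s n :=
    ⟨fun n => Nat.rec 0 (fun n x => x / F n - s n) n, rfl, fun _ => rfl⟩
  let p : ℕ → ℂ := fun n => (∏ j ∈ Finset.range n, F j)⁻¹
  have hp0 : p 0 = 1 := by simp [p]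
  have hp : ∀ n, p (n + 1) = p n / F n := by
    intro n
    simp only [p]
    rw [Finset.prod_range_succ, mul_inv, div_eq_mul_inv]
  have h1 : 1 - p m ≠ 0 := fun h => hF (sub_eq_zero.mp h).symm
  refine ⟨fun n => r m / (1 - p m) * p n + r n, fun j => ?_, ?_⟩
  · show r m / (1 - p m) * p (j + 1) + r (j + 1) = (r m / (1 - p m) * p j + r j) / F j - s j
    rw [hp, hr]
    ring
  · show r m / (1 - p m) * p m + r m = r m / (1 - p m) * p 0 + r 0
    rw [hp0, hr0]
    field_simp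
    ring

/-- a cycle of exact period `m` which is not repelling and not superattracting -/
structure PD (m : ℕ) (c₀ z₀ : ℂ) : Prop where
  hm : 1 ≤ m
  fix : (f c₀)^[m] z₀ = z₀
  per : ∀ j, 0 < j → j < m → (f c₀)^[j] z₀ ≠ z₀
  ne : mul m c₀ z₀ ≠ 0
  le : ‖mul m c₀ z₀‖ ≤ 1

section

variable {m : ℕ} {c₀ z₀ : ℂ}

theorem b_per (h : PD m c₀ z₀) (j : ℕ) : (f c₀)^[j + m] z₀ = (f c₀)^[j] z₀ := by
  rw [Function.iterate_add_apply]
  exact congrArg _ h.fix

theorem b_mod (h : PD m c₀ z₀) (j : ℕ) : (f c₀)^[j] z₀ = (f c₀)^[j % m] z₀ := by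
  have h1 : ∀ k i : ℕ, (f c₀)^[i + k * m] z₀ = (f c₀)^[i] z₀ := by
    intro k
    induction k with
    | zero => intro i; simp
    | succ k ih =>
      intro i
      rw [Nat.succ_mul, ← add_assoc, b_per h, ih]
  have h2 := h1 (j / m) (j % m)
  rwa [Nat.mod_add_div' j m] at h2

theorem b_ne (h : PD m c₀ z₀) (j : ℕ) : (f c₀)^[j] z₀ ≠ 0 := by
  have h1 : ∏ j ∈ Finset.range m, (2 * (f c₀)^[j] z₀) ≠ 0 := by
    rw [← mul_eq_prod]; exact h.ne
  have h2 := Finset.prod_ne_zero_iff.mp h1 (j % m)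
    (Finset.mem_range.mpr (Nat.mod_lt _ (by have := h.hm; omega)))
  rw [b_mod h]
  intro h3
  apply h2
  rw [h3, mul_zero]

theorem b_inj (h : PD m c₀ z₀) : ∀ i j, i < m → j < m →
    (f c₀)^[i] z₀ = (f c₀)^[j] z₀ → i = j := by
  have key : ∀ i j, i < j → j < m → (f c₀)^[i] z₀ ≠ (f c₀)^[j] z₀ := by
    intro i j hij hj he
    have h1 := congrArg ((f c₀)^[m - j]) he
    rw [← Function.iterate_add_apply, ← Function.iterate_add_apply] at h1
    have h2 : m - j + j = m := by omega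
    rw [h2] at h1
    exact h.per (m - j + i) (by omega) (by omega) (h1.trans h.fix)
  intro i j hi hj he
  rcases lt_trichotomy i j with h1 | h1 | h1
  · exact absurd he (key i j h1 hj)
  · exact h1
  · exact absurd he.symm (key j i h1 hi)

/-- the assembly of a cycle -/
theorem mk_cyc (h : PD m c₀ z₀) (β : ℕ → ℂ) (A : ℂ)
    (recu : ∀ j, β (j + 1) = β j / (2 * (f c₀)^[j] z₀) - A / (2 * ((f c₀)^[j] z₀) ^ 2))
    (h0 : β m = β 0) (hs : ∑ j ∈ Finset.range m, β (j + 1) = 0) :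
    Cyc 2 m c₀ (fun j => (f c₀)^[j] z₀) β A := by
  have hper : ∀ j, β (j + m) = β j := by
    intro j
    induction j with
    | zero => rw [zero_add]; exact h0
    | succ j ih =>
      have e1 : j + 1 + m = (j + m) + 1 := by ring
      rw [e1, recu, recu, ih, b_per h]
  have e2 : ∀ z : ℂ, ((2 : ℕ) : ℂ) * z ^ (2 - 1) = 2 * z := by intro z; norm_num
  refine ⟨le_rfl, h.hm, fun j => iter_succ c₀ z₀ j, b_per h, b_inj h, b_ne h, ?_, ?_, hper, ?_⟩
  · simp only [e2]
    rw [← mul_eq_prod]; exact h.le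
  · intro j
    rw [recu, e2]
    norm_num
  · have e1 := Finset.sum_range_succ β m
    have e2 := Finset.sum_range_succ' β m
    rw [hs, zero_add] at e2
    rw [e2, h0] at e1
    have e3 : β 0 = (∑ j ∈ Finset.range m, β j) + β 0 := e1
    linear_combination -e3

end

/-- transversality for the exact period -/
theorem trans {m : ℕ} {c₀ z₀ : ℂ} (hp : PD m c₀ z₀) (hmu : mul m c₀ z₀ ≠ 1) (y : ℂ → ℂ) (y' κ : ℂ)
    (hyd : HasDerivAt y y' c₀) (hy0 : y c₀ = z₀) (hyf : ∀ᶠ c in 𝓝 c₀, (f c)^[m] (y c) = y c)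
    (hκ : HasDerivAt (fun c => mul m c (y c)) κ c₀) : κ ≠ 0 := by
  intro hκ0
  obtain ⟨D, hDz, hDs⟩ : ∃ D : ℕ → ℂ, D 0 = y' ∧
      ∀ n, D (n + 1) = 2 * ((f c₀)^[n] (y c₀)) * D n + 1 :=
    ⟨fun n => Nat.rec y' (fun n x => 2 * ((f c₀)^[n] (y c₀)) * x + 1) n, rfl, fun _ => rfl⟩
  have hder := der_par hyd D hDz hDs
  have hDm : D m = D 0 := by
    have h3 : (fun c => (f c)^[m] (y c)) =ᶠ[𝓝 c₀] y := by
      filter_upwards [hyf] with c hc
      exact hc
    rw [hDz]
    exact ((hder m).congr_of_eventuallyEq h3.symm).unique hyd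
  rw [hy0] at hDs
  have hlog : HasDerivAt (fun c => mul m c (y c)) (mul m c₀ z₀ *
      ∑ j ∈ Finset.range m, D j / ((f c₀)^[j] z₀)) c₀ := by
    simp only [mul_eq_prod]
    have h3 := der_prod (m := m) (c₀ := c₀)
      (g := fun j c => 2 * (f c)^[j] (y c))
      (s := fun j => D j / ((f c₀)^[j] z₀)) (fun j => by
        have h4 := (hder j).const_mul (2 : ℂ)
        refine h4.congr_deriv ?_
        simp only [hy0]
        have h6 := b_ne hp j
        generalize (f c₀)^[j] z₀ = B at h6 ⊢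
        field_simp)
    simpa only [hy0] using h3
  have hκ2 : κ = mul m c₀ z₀ * ∑ j ∈ Finset.range m, D j / ((f c₀)^[j] z₀) := hκ.unique hlog
  rw [hκ0] at hκ2
  have hg : ∑ j ∈ Finset.range m, D j / ((f c₀)^[j] z₀) = 0 :=
    (mul_eq_zero.mp hκ2.symm).resolve_left hp.ne
  obtain ⟨β, hβ, hβm⟩ := aff_per m (fun j => 2 * (f c₀)^[j] z₀)
    (fun j => 1 / (2 * ((f c₀)^[j] z₀) ^ 2)) (by
      rw [← mul_eq_prod]
      intro h3
      exact hmu (inv_eq_one.mp h3))
  have hsum : ∀ n, ∑ j ∈ Finset.range n, β (j + 1) = β n * D n - β 0 * D 0 +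
      ∑ j ∈ Finset.range n, D j / ((f c₀)^[j] z₀) := by
    intro n
    induction n with
    | zero => simp
    | succ n ih =>
      rw [Finset.sum_range_succ, Finset.sum_range_succ, ih, hDs]
      have e1 : β (n + 1) * (2 * (f c₀)^[n] z₀) = β n - 1 / ((f c₀)^[n] z₀) := by
        rw [hβ]
        have h6 := b_ne hp n
        generalize (f c₀)^[n] z₀ = B at h6 ⊢
        field_simp
      have e2 : β (n + 1) * (2 * (f c₀)^[n] z₀ * D n + 1) =
          (β n - 1 / ((f c₀)^[n] z₀)) * D n + β (n + 1) := by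
        rw [← e1]
        ring
      rw [e2]
      ring
  have hs : ∑ j ∈ Finset.range m, β (j + 1) = 0 := by
    rw [hsum, hg, hβm, hDm]
    ring
  have hc := mk_cyc hp β 1 hβ hβm hs
  exact one_ne_zero (hNOFIX _ _ _ _ _ _ hc).1

/-- **Module 18.** Transversality. -/
theorem trv : S_TRV := by
  intro n c₀ z₀ ζ hn hfix hne0 hne1 hle hζ hζ0 hζf hcon
  obtain ⟨m, hm⟩ : ∃ m, m = Function.minimalPeriod (f c₀) z₀ := ⟨_, rfl⟩
  have hm1 : 1 ≤ m := by
    rw [hm]
    exact Function.IsPeriodicPt.minimalPeriod_pos hn hfix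
  have hmfix : (f c₀)^[m] z₀ = z₀ := by
    rw [hm]
    exact Function.isPeriodicPt_minimalPeriod _ _
  have hmn : m ∣ n := by
    rw [hm]
    exact Function.IsPeriodicPt.minimalPeriod_dvd hfix
  obtain ⟨k, hk⟩ := hmn
  have hk1 : 1 ≤ k := by
    rcases Nat.eq_zero_or_pos k with h | h
    · rw [h, Nat.mul_zero] at hk; omega
    · exact h
  have hmk : mul n c₀ z₀ = mul m c₀ z₀ ^ k := by
    rw [hk]; exact mul_iter c₀ z₀ m hmfix k
  have hPD : PD m c₀ z₀ := by
    refine ⟨hm1, hmfix, ?_, ?_, ?_⟩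
    · intro j hj hjm he
      rw [hm] at hjm
      exact Function.not_isPeriodicPt_of_pos_of_lt_minimalPeriod (by omega) hjm he
    · intro h0
      rw [hmk, h0, zero_pow (by omega)] at hne0
      exact hne0 rfl
    · by_contra h1
      push Not at h1
      rw [hmk, norm_pow] at hle
      have := one_lt_pow₀ h1 (by omega : k ≠ 0)
      linarith
  have hmu1 : mul m c₀ z₀ ≠ 1 := by
    intro h0
    rw [hmk, h0, one_pow] at hne1
    exact hne1 rfl
  -- `ζ` is `m`-periodic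
  obtain ⟨δ, η, y, hδ, hη, hy, hy0, hyF, hyu⟩ := ift_fix hfix hne1
  have hζm : ∀ᶠ c in 𝓝 c₀, (f c)^[m] (ζ c) = ζ c := by
    have hζc : ContinuousAt ζ c₀ := hζ.continuousAt
    have h1 : ∀ᶠ c in 𝓝 c₀, ζ c ∈ ball z₀ η := by
      have := hζc.tendsto
      rw [hζ0] at this
      exact this (ball_mem_nhds z₀ hη)
    have h2 : ∀ᶠ c in 𝓝 c₀, (f c)^[m] (ζ c) ∈ ball z₀ η := by
      have h3 : ContinuousAt (fun c => (f c)^[m] (ζ c)) c₀ :=
        ((cont_iter m).continuousAt (x := (c₀, ζ c₀))).comp' (f := fun c => (c, ζ c))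
          (continuousAt_id.prodMk hζc)
      have := h3.tendsto
      rw [hζ0, hmfix] at this
      exact this (ball_mem_nhds z₀ hη)
    filter_upwards [h1, h2, hζf, ball_mem_nhds c₀ hδ] with c hc1 hc2 hc3 hc4
    have e1 : (f c)^[n] ((f c)^[m] (ζ c)) = (f c)^[m] (ζ c) := by
      rw [← Function.iterate_add_apply, add_comm, Function.iterate_add_apply, hc3]
    rw [hyu c hc4 _ hc2 e1, hyu c hc4 _ hc1 hc3]
  -- the derivative of the multiplier for `m`
  have hmd : DifferentiableAt ℂ (fun c => mul m c (ζ c)) c₀ := by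
    have h1 : DifferentiableAt ℂ (fun p : ℂ × ℂ => mul m p.1 p.2) (c₀, ζ c₀) :=
      (ana_mul m c₀ (ζ c₀)).differentiableAt
    exact h1.comp c₀ (f := fun c => (c, ζ c)) (differentiableAt_id.prodMk hζ.differentiableAt)
  have h1 := trans hPD hmu1 ζ (deriv ζ c₀) _ hζ.differentiableAt.hasDerivAt hζ0 hζm hmd.hasDerivAt
  have h2 : (fun c => mul n c (ζ c)) =ᶠ[𝓝 c₀] fun c => mul m c (ζ c) ^ k := by
    filter_upwards [hζm] with c hc
    rw [hk]; exact mul_iter c (ζ c) m hc k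
  have h3 := (hmd.hasDerivAt.pow k).congr_of_eventuallyEq h2
  rw [h3.deriv] at hcon
  rw [hζ0] at hcon
  have h4 : ((k : ℕ) : ℂ) ≠ 0 := by exact_mod_cast (by omega : k ≠ 0)
  exact (mul_ne_zero (mul_ne_zero h4 (pow_ne_zero _ hPD.ne)) h1) hcon

end Pool.Agent.KS6_23.ML.TRV
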