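import Mathlib

set_option autoImplicit false

/-!
# Transversality: there is no invariant quadratic differential with double poles at a cycle which
is not repelling

The proof for neutral cycles is from the library (project PC of an earlier run); here the
multiplier may be any number of modulus at most `1`, not `0`.
-/

namespace Pool.Agent.KS6_23.ML.TRV

open Complex Metric Set Filter Topology

/-- a cycle `b 0, …, b (m - 1)` of `z ^ d + c` with distinct nonzero points, not repelling;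
`β` are coefficients with the invariance relation -/
structure Cyc (d m : ℕ) (c : ℂ) (b β : ℕ → ℂ) (A : ℂ) : Prop where
  hd : 2 ≤ d
  hm : 1 ≤ m
  step : ∀ j, b (j + 1) = b j ^ d + c
  per : ∀ j, b (j + m) = b j
  inj : ∀ i j, i < m → j < m → b i = b j → i = j
  ne : ∀ j, b j ≠ 0
  neutral : ‖∏ j ∈ Finset.range m, ((d : ℂ) * b j ^ (d - 1))‖ ≤ 1
  recu : ∀ j, β (j + 1) = β j / ((d : ℂ) * b j ^ (d - 1)) - ((d : ℂ) - 1) * A / ((d : ℂ) * b j ^ d)
  bper : ∀ j, β (j + m) = β j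
  sum : ∑ j ∈ Finset.range m, β j = 0

/-- the quadratic differential -/
noncomputable def gg (m : ℕ) (b β : ℕ → ℂ) (A z : ℂ) : ℂ :=
  ∑ j ∈ Finset.range m, (A / (z - b j) ^ 2 + β j / (z - b j))

/-- the primitive `d`-th root of unity -/
noncomputable def om (d : ℕ) : ℂ := Complex.exp (2 * Real.pi * I / d)

/-- the invariance of the quadratic differential -/
def S_FE : Prop := ∀ (d m : ℕ) (c : ℂ) (b β : ℕ → ℂ) (A : ℂ), Cyc d m c b β A → ∀ w : ℂ,
  (∀ j, j < m → w ^ d ≠ b j ^ d) →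
    gg m b β A (w ^ d + c) * ((d : ℂ) * w ^ (d - 1)) ^ 2 =
      ∑ k ∈ Finset.range d, om d ^ (2 * k) * gg m b β A (om d ^ k * w)

/-- decay at infinity -/
def S_DEC : Prop := ∀ (d m : ℕ) (c : ℂ) (b β : ℕ → ℂ) (A : ℂ), Cyc d m c b β A →
  ∃ C R : ℝ, 0 < C ∧ 1 ≤ R ∧ ∀ z : ℂ, R ≤ ‖z‖ → ‖gg m b β A z‖ ≤ C / ‖z‖ ^ 3

/-- change of variables for `w ↦ w ^ d + c` -/
def S_COV : Prop := ∀ (d : ℕ) (c : ℂ), 1 ≤ d → ∀ h : ℂ → ENNReal, Measurable h →
  ∫⁻ w : ℂ, h (w ^ d + c) * ENNReal.ofReal (‖(d : ℂ) * w ^ (d - 1)‖ ^ 2) = d * ∫⁻ z : ℂ, h z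

/-- strictness in the triangle inequality -/
def S_STRICT : Prop := ∀ (d m : ℕ) (c : ℂ) (b β : ℕ → ℂ) (A : ℂ), Cyc d m c b β A →
  ¬ (A = 0 ∧ ∀ j, β j = 0) → ∃ (w₁ : ℂ) (δ γ : ℝ), 0 < δ ∧ 0 < γ ∧
    (∀ w ∈ ball w₁ δ, ∀ j, j < m → δ ≤ ‖w ^ d + c - b j‖) ∧
    ∀ w ∈ ball w₁ δ, ‖∑ k ∈ Finset.range d, om d ^ (2 * k) * gg m b β A (om d ^ k * w)‖ + γ ≤
      ∑ k ∈ Finset.range d, ‖gg m b β A (om d ^ k * w)‖

/-- the radii of the discs about the points of the cycle -/
noncomputable def tj (d : ℕ) (b : ℕ → ℂ) (j : ℕ) : ℝ :=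
  ∏ i ∈ Finset.range j, ‖(d : ℂ) * b i ^ (d - 1)‖

/-- the plane without small discs about the cycle -/
def VV (d m : ℕ) (b : ℕ → ℂ) (r : ℝ) : Set ℂ := {z : ℂ | ∀ j, j < m → r * tj d b j ≤ ‖z - b j‖}


/-- the mass on the preimage of `VV` is at most the mass on `VV` plus `O(r)` -/
def S_ANNp : Prop := ∀ (d m : ℕ) (c : ℂ) (b β : ℕ → ℂ) (A : ℂ), Cyc d m c b β A →
  ∃ C r₀ : ℝ, 0 < C ∧ 0 < r₀ ∧ ∀ r : ℝ, 0 < r → r < r₀ →
    (∫⁻ z in VV d m b r, ENNReal.ofReal ‖gg m b β A z‖) < ⊤ ∧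
    (∫⁻ w in {w : ℂ | w ^ d + c ∈ VV d m b r}, ENNReal.ofReal ‖gg m b β A w‖) ≤
      (∫⁻ z in VV d m b r, ENNReal.ofReal ‖gg m b β A z‖) + ENNReal.ofReal (C * r)


/-- there is no invariant quadratic differential -/
def S_NOFIX : Prop := ∀ (d m : ℕ) (c : ℂ) (b β : ℕ → ℂ) (A : ℂ), Cyc d m c b β A →
  A = 0 ∧ ∀ j, β j = 0


end Pool.Agent.KS6_23.ML.TRV


/-!
# `S_FE`: invariance of the quadratic differential
-/


namespace Pool.Agent.KS6_23.ML.TRV.FE

open Filter Topology Pool.Agent.KS6_23.ML.TRV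

lemma om_prim {d : ℕ} (hd : 2 ≤ d) : IsPrimitiveRoot (om d) d :=
  Complex.isPrimitiveRoot_exp d (by omega)

lemma sum_om {d : ℕ} (hd : 2 ≤ d) (e : ℕ) :
    ∑ k ∈ Finset.range d, om d ^ (k * e) = if d ∣ e then (d : ℂ) else 0 := by
  have h := om_prim hd
  have e1 : ∀ k, om d ^ (k * e) = (om d ^ e) ^ k := fun k => by rw [← pow_mul, mul_comm]
  simp only [e1]
  split_ifs with hde
  · have h1 : om d ^ e = 1 := (h.pow_eq_one_iff_dvd e).2 hde
    simp [h1]
  · have h1 : om d ^ e ≠ 1 := fun h' => hde ((h.pow_eq_one_iff_dvd e).1 h')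
    have h2 := mul_geom_sum (om d ^ e) d
    have h3 : (om d ^ e) ^ d = 1 := by
      rw [← pow_mul, mul_comm, pow_mul, h.pow_eq_one, one_pow]
    rw [h3, sub_self] at h2
    exact (mul_eq_zero.1 h2).resolve_left (sub_ne_zero.2 h1)

lemma om_ne {d : ℕ} (hd : 2 ≤ d) {w b : ℂ} (h : w ^ d ≠ b ^ d) (k : ℕ) :
    om d ^ k * w - b ≠ 0 := by
  intro h'
  apply h
  rw [← sub_eq_zero.1 h', mul_pow, ← pow_mul, mul_comm k d, pow_mul, (om_prim hd).pow_eq_one,
    one_pow, one_mul]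

lemma id1 {d : ℕ} (hd : 2 ≤ d) {w b : ℂ} (h : w ^ d ≠ b ^ d) :
    ∑ k ∈ Finset.range d, om d ^ (2 * k) / (om d ^ k * w - b) =
      d * b * w ^ (d - 2) / (w ^ d - b ^ d) := by
  have hne : w ^ d - b ^ d ≠ 0 := sub_ne_zero.2 h
  have hp := om_prim hd
  have hx : ∀ k, (om d ^ k * w) ^ d = w ^ d := fun k => by
    rw [mul_pow, ← pow_mul, mul_comm k d, pow_mul, hp.pow_eq_one, one_pow, one_mul]
  rw [eq_div_iff hne, Finset.sum_mul]
  have h1 : ∀ k, om d ^ (2 * k) / (om d ^ k * w - b) * (w ^ d - b ^ d) =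
      ∑ i ∈ Finset.range d, om d ^ (k * (i + 2)) * (w ^ i * b ^ (d - 1 - i)) := by
    intro k
    have h2 := geom_sum₂_mul (om d ^ k * w) b d
    rw [hx k] at h2
    rw [← h2, div_mul_eq_mul_div, ← mul_assoc, mul_div_cancel_right₀ _ (om_ne hd h k),
      Finset.mul_sum]
    refine Finset.sum_congr rfl fun i _ => ?_
    rw [mul_pow, ← pow_mul, show k * (i + 2) = 2 * k + k * i by ring, pow_add]
    ring
  rw [Finset.sum_congr rfl fun k _ => h1 k, Finset.sum_comm]
  have h3 : ∀ i ∈ Finset.range d, ∑ k ∈ Finset.range d,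
      om d ^ (k * (i + 2)) * (w ^ i * b ^ (d - 1 - i)) =
        if i = d - 2 then d * b * w ^ (d - 2) else 0 := by
    intro i hi
    rw [← Finset.sum_mul, sum_om hd]
    rw [Finset.mem_range] at hi
    split_ifs with h4 h5 h5
    · rw [h5, show d - 1 - (d - 2) = 1 by omega, pow_one]
      ring
    · exfalso
      obtain ⟨c, hc⟩ := h4
      rcases c with _ | _ | c
      · omega
      · omega
      · have : d * (c + 1 + 1) = d * c + d + d := by ring
        have : 0 ≤ d * c := Nat.zero_le _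
        omega
    · exfalso
      apply h4
      rw [h5, show d - 2 + 2 = d by omega]
    · rw [zero_mul]
  rw [Finset.sum_congr rfl h3, Finset.sum_ite_eq', if_pos (Finset.mem_range.2 (by omega))]

lemma id2 {d : ℕ} (hd : 2 ≤ d) {w b : ℂ} (h : w ^ d ≠ b ^ d) :
    ∑ k ∈ Finset.range d, om d ^ (2 * k) / (om d ^ k * w - b) ^ 2 =
      d * w ^ (d - 2) * ((w ^ d - b ^ d) + d * b ^ d) / (w ^ d - b ^ d) ^ 2 := by
  have hne : w ^ d - b ^ d ≠ 0 := sub_ne_zero.2 h
  have hf : HasDerivAt (fun b : ℂ => ∑ k ∈ Finset.range d, om d ^ (2 * k) / (om d ^ k * w - b))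
      (∑ k ∈ Finset.range d, om d ^ (2 * k) / (om d ^ k * w - b) ^ 2) b := by
    refine HasDerivAt.fun_sum fun k _ => ?_
    have h1 := ((hasDerivAt_const b (om d ^ k * w)).sub (hasDerivAt_id b)).inv (om_ne hd h k)
    have h2 := h1.const_mul (om d ^ (2 * k))
    have e : om d ^ (2 * k) / (om d ^ k * w - b) ^ 2 =
        om d ^ (2 * k) * (-(0 - 1) / (om d ^ k * w - id b) ^ 2) := by
      simp only [id]
      ring
    rw [e]
    exact h2
  have hg : HasDerivAt (fun b : ℂ => (d : ℂ) * b * w ^ (d - 2) / (w ^ d - b ^ d))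
      (d * w ^ (d - 2) * ((w ^ d - b ^ d) + d * b ^ d) / (w ^ d - b ^ d) ^ 2) b := by
    have h1 : HasDerivAt (fun b : ℂ => (d : ℂ) * b * w ^ (d - 2)) ((d : ℂ) * 1 * w ^ (d - 2)) b :=
      ((hasDerivAt_id b).const_mul (d : ℂ)).mul_const _
    have h2 : HasDerivAt (fun b : ℂ => w ^ d - b ^ d) (0 - d * b ^ (d - 1)) b :=
      (hasDerivAt_const b (w ^ d)).sub (hasDerivAt_pow d b)
    have h3 := h1.div h2 hne
    have e : (d : ℂ) * w ^ (d - 2) * ((w ^ d - b ^ d) + d * b ^ d) / (w ^ d - b ^ d) ^ 2 =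
        ((d : ℂ) * 1 * w ^ (d - 2) * (w ^ d - b ^ d) -
          (d : ℂ) * b * w ^ (d - 2) * (0 - d * b ^ (d - 1))) / (w ^ d - b ^ d) ^ 2 := by
      have e2 : b ^ d = b ^ (d - 1) * b := by
        rw [← pow_succ, show d - 1 + 1 = d by omega]
      congr 1
      rw [e2]
      ring
    rw [e]
    exact h3
  have hev : (fun b : ℂ => ∑ k ∈ Finset.range d, om d ^ (2 * k) / (om d ^ k * w - b)) =ᶠ[𝓝 b]
      (fun b : ℂ => (d : ℂ) * b * w ^ (d - 2) / (w ^ d - b ^ d)) := by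
    have h1 : ∀ᶠ b' in 𝓝 b, b' ^ d ≠ w ^ d :=
      (continuous_pow d).continuousAt.eventually_ne (Ne.symm h)
    filter_upwards [h1] with b' hb'
    exact id1 hd (Ne.symm hb')
  exact hf.unique (hg.congr_of_eventuallyEq hev)

theorem t_FE : S_FE := by
  intro d m c b β A hC w hw
  have hd := hC.hd
  have hd0 : (d : ℂ) ≠ 0 := by
    rw [Nat.cast_ne_zero]
    omega
  have hf : ∀ f : ℕ → ℂ, f m = f 0 →
      ∑ j ∈ Finset.range m, f j = ∑ j ∈ Finset.range m, f (j + 1) := by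
    intro f hf
    have h1 := Finset.sum_range_succ f m
    have h2 := Finset.sum_range_succ' f m
    rw [h1, hf] at h2
    exact add_right_cancel h2
  have hb0 : b m = b 0 := by
    have := hC.per 0
    rwa [zero_add] at this
  have hβ0 : β m = β 0 := by
    have := hC.bper 0
    rwa [zero_add] at this
  have hL : gg m b β A (w ^ d + c) = ∑ j ∈ Finset.range m,
      (A / (w ^ d - b j ^ d) ^ 2 + β (j + 1) / (w ^ d - b j ^ d)) := by
    unfold gg
    rw [hf (fun j => A / (w ^ d + c - b j) ^ 2 + β j / (w ^ d + c - b j)) (by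
      rw [hb0, hβ0])]
    refine Finset.sum_congr rfl fun j _ => ?_
    rw [hC.step j, show w ^ d + c - (b j ^ d + c) = w ^ d - b j ^ d by ring]
  have hR : ∑ k ∈ Finset.range d, om d ^ (2 * k) * gg m b β A (om d ^ k * w) =
      ∑ j ∈ Finset.range m, (A * (d * w ^ (d - 2) * ((w ^ d - b j ^ d) + d * b j ^ d) /
        (w ^ d - b j ^ d) ^ 2) + β j * (d * b j * w ^ (d - 2) / (w ^ d - b j ^ d))) := by
    unfold gg
    simp only [Finset.mul_sum]
    rw [Finset.sum_comm]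
    refine Finset.sum_congr rfl fun j hj => ?_
    rw [← id2 hd (hw j (Finset.mem_range.1 hj)), ← id1 hd (hw j (Finset.mem_range.1 hj)),
      Finset.mul_sum, Finset.mul_sum, ← Finset.sum_add_distrib]
    refine Finset.sum_congr rfl fun k _ => ?_
    ring
  have key : ∀ j ∈ Finset.range m, (A / (w ^ d - b j ^ d) ^ 2 + β (j + 1) / (w ^ d - b j ^ d)) *
      ((d : ℂ) * w ^ (d - 1)) ^ 2 =
        (A * (d * w ^ (d - 2) * ((w ^ d - b j ^ d) + d * b j ^ d) /
          (w ^ d - b j ^ d) ^ 2) + β j * (d * b j * w ^ (d - 2) / (w ^ d - b j ^ d))) +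
          d ^ 2 * w ^ (d - 2) * β (j + 1) := by
    intro j hj
    have hne : w ^ d - b j ^ d ≠ 0 := sub_ne_zero.2 (hw j (Finset.mem_range.1 hj))
    have hbj := hC.ne j
    have hu : (w ^ d - b j ^ d) * (w ^ d - b j ^ d)⁻¹ = 1 := mul_inv_cancel₀ hne
    have hW : (w ^ (d - 1)) ^ 2 = w ^ (d - 2) * w ^ d := by
      rw [← pow_mul, ← pow_add]
      congr 1
      omega
    have e1 : (d : ℂ) * b j ^ d * β (j + 1) = β j * b j - ((d : ℂ) - 1) * A := by
      have e2 : b j ^ d = b j ^ (d - 1) * b j := by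
        rw [← pow_succ, show d - 1 + 1 = d by omega]
      have hb1 : b j ^ (d - 1) ≠ 0 := pow_ne_zero _ hbj
      rw [hC.recu j, e2]
      field_simp
    rw [mul_pow, hW]
    simp only [div_eq_mul_inv, ← inv_pow]
    generalize (w ^ d - b j ^ d)⁻¹ = u at hu ⊢
    generalize w ^ (d - 2) = W
    linear_combination d * W * (A * ((d : ℂ) - 1) * u + d * β (j + 1)) * hu + d * W * u * e1
  rw [hL, hR, Finset.sum_mul, Finset.sum_congr rfl key, Finset.sum_add_distrib, ← Finset.mul_sum,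
    ← hf β hβ0, hC.sum, mul_zero, add_zero]

end Pool.Agent.KS6_23.ML.TRV.FE


/-! Change of variables for `w ↦ w ^ d + c` (job 6602, task COV of helper811's project PC). -/

namespace Pool.Agent.KS6_23.ML.TRV.Cov
open MeasureTheory Set Complex Filter

lemma polar (f : ℂ → ENNReal) (hf : Measurable f) : ∫⁻ z, f z =
    ∫⁻ r in Ioi (0:ℝ), ENNReal.ofReal r *
      ∫⁻ t in Ioo (-Real.pi) Real.pi, f ((r : ℂ) * cexp ((t : ℂ) * I)) := by
  rw [← Complex.lintegral_comp_polarCoord_symm f, polarCoord_target, Measure.volume_eq_prod,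
    ← Measure.prod_restrict]
  have hm : Measurable (fun p : ℝ × ℝ => f ((p.1 : ℂ) * cexp ((p.2 : ℂ) * I))) := by
    apply hf.comp
    fun_prop
  have he : ∀ p : ℝ × ℝ, ENNReal.ofReal p.1 • f (Complex.polarCoord.symm p) =
      ENNReal.ofReal p.1 * f ((p.1 : ℂ) * cexp ((p.2 : ℂ) * I)) := by
    intro p
    rw [Complex.polarCoord_symm_apply, smul_eq_mul, Complex.exp_mul_I]
    simp
  simp_rw [he]
  rw [lintegral_prod]
  · apply lintegral_congr
    intro r
    simp only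
    rw [lintegral_const_mul]
    exact hm.comp (measurable_const.prodMk measurable_id)
  · apply Measurable.aemeasurable
    apply Measurable.mul _ hm
    fun_prop

lemma ang (d : ℕ) (hd : 1 ≤ d) (g : ℂ → ENNReal) (hg : Measurable g) :
    ∫⁻ t in Ioo (-Real.pi) Real.pi, g (cexp ((d : ℂ) * ((t : ℂ) * I))) =
      ∫⁻ t in Ioo (-Real.pi) Real.pi, g (cexp ((t : ℂ) * I)) := by
  have : Fact (0 < 2 * Real.pi) := ⟨by positivity⟩
  have e1 : ∀ F : ℝ → ENNReal, ∫⁻ t in Ioo (-Real.pi) Real.pi, F t = ∫⁻ t in Ioc (-Real.pi) (-Real.pi + 2 * Real.pi), F t := by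
    intro F
    have : -Real.pi + 2 * Real.pi = Real.pi := by ring
    rw [this]
    exact setLIntegral_congr Ioo_ae_eq_Ioc
  set F : AddCircle (2 * Real.pi) → ENNReal := fun θ => g ((Real.Angle.toCircle θ : Circle) : ℂ) with hF
  have hFm : Measurable F := by
    apply hg.comp
    apply Continuous.measurable
    refine continuous_subtype_val.comp ?_
    refine continuous_coinduced_dom.2 ?_
    have : ((Real.Angle.toCircle) ∘ (fun t : ℝ => (t : Real.Angle))) = fun t : ℝ => Circle.exp t := by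
      funext t
      exact Real.Angle.toCircle_coe t
    exact (show Continuous (fun t : ℝ => Circle.exp t) from Circle.exp.continuous)
  have e2 := AddCircle.lintegral_preimage (2 * Real.pi) (-Real.pi) F
  have e3 := AddCircle.lintegral_preimage (2 * Real.pi) (-Real.pi) (fun θ => F ((d : ℤ) • θ))
  have hmp := MeasureTheory.Measure.measurePreserving_zsmul (volume : Measure (AddCircle (2 * Real.pi))) (n := (d : ℤ))
    (by exact_mod_cast (by omega : d ≠ 0))
  have e4 := hmp.lintegral_comp hFm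
  rw [e1, e1]
  have e5 : ∀ t : ℝ, F (t : AddCircle (2 * Real.pi)) = g (cexp ((t : ℂ) * I)) := by
    intro t
    have : (Real.Angle.toCircle (t : Real.Angle) : Circle) = Circle.exp t := Real.Angle.toCircle_coe t
    simp only [hF]
    exact congrArg g (by rw [← Circle.coe_exp]; exact congrArg _ this)
  have e6 : ∀ t : ℝ, F ((d : ℤ) • (t : AddCircle (2 * Real.pi))) = g (cexp ((d : ℂ) * ((t : ℂ) * I))) := by
    intro t
    have : (d : ℤ) • (t : AddCircle (2 * Real.pi)) = (((d : ℝ) * t : ℝ) : AddCircle (2 * Real.pi)) := by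
      rw [← AddCircle.coe_zsmul]
      simp
    rw [this, e5]
    congr 2
    push_cast
    ring
  have e7 : ∫⁻ (t : ℝ) in Ioc (-Real.pi) (-Real.pi + 2 * Real.pi), g (cexp ((d : ℂ) * ((t : ℂ) * I))) =
    ∫⁻ (t : ℝ) in Ioc (-Real.pi) (-Real.pi + 2 * Real.pi), F ((d : ℤ) • (t : AddCircle (2 * Real.pi))) :=
    lintegral_congr fun t => (e6 t).symm
  have e8 : ∫⁻ (t : ℝ) in Ioc (-Real.pi) (-Real.pi + 2 * Real.pi), g (cexp (((t : ℂ) * I))) =
    ∫⁻ (t : ℝ) in Ioc (-Real.pi) (-Real.pi + 2 * Real.pi), F ((t : AddCircle (2 * Real.pi))) :=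
    lintegral_congr fun t => (e5 t).symm
  rw [e7, e8, e2, e3, e4]

lemma cov0 (d : ℕ) (hd : 1 ≤ d) (h : ℂ → ENNReal) (hh : Measurable h) :
    ∫⁻ w : ℂ, h (w ^ d) * ENNReal.ofReal (‖(d : ℂ) * w ^ (d - 1)‖ ^ 2) = d * ∫⁻ z : ℂ, h z := by
  rw [polar h hh, polar]
  swap
  · fun_prop
  rw [← lintegral_const_mul]
  swap
  · apply Measurable.mul (by fun_prop)
    apply Measurable.lintegral_prod_right' (f := fun p : ℝ × ℝ => h ((p.1 : ℂ) * cexp ((p.2 : ℂ) * I)))
    apply hh.comp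
    fun_prop
  set Φ : ℝ → ENNReal := fun r => ∫⁻ (t : ℝ) in Ioo (-Real.pi) Real.pi, h ((r : ℂ) * cexp ((t : ℂ) * I)) with hΦ
  have himg : (fun r : ℝ => r ^ d) '' Ioi (0 : ℝ) = Ioi 0 := by
    ext y
    constructor
    · rintro ⟨x, hx, rfl⟩
      exact pow_pos (show (0 : ℝ) < x from hx) d
    · intro hy
      refine ⟨y ^ ((1 : ℝ) / d), Real.rpow_pos_of_pos hy _, ?_⟩
      simp only
      rw [← Real.rpow_natCast, ← Real.rpow_mul (le_of_lt hy)]
      have : (1 : ℝ) / d * d = 1 := by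
        have : (d : ℝ) ≠ 0 := by exact_mod_cast (by omega : d ≠ 0)
        field_simp
      rw [this, Real.rpow_one]
  have hcv := lintegral_image_eq_lintegral_abs_deriv_mul (s := Ioi (0 : ℝ)) (f := fun r : ℝ => r ^ d)
    (f' := fun r => d * r ^ (d - 1)) measurableSet_Ioi
    (fun x _ => (hasDerivAt_pow d x).hasDerivWithinAt)
    (fun x hx y hy hxy => (pow_left_inj₀ (le_of_lt hx) (le_of_lt hy) (by omega)).1 hxy)
    (fun r => (d : ENNReal) * (ENNReal.ofReal r * Φ r))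
  rw [himg] at hcv
  rw [hcv]
  apply setLIntegral_congr_fun measurableSet_Ioi
  intro r hr
  simp only
  have hr0 : (0 : ℝ) < r := hr
  have e1 : ∀ t : ℝ, h (((r : ℂ) * cexp ((t : ℂ) * I)) ^ d) *
      ENNReal.ofReal (‖(d : ℂ) * ((r : ℂ) * cexp ((t : ℂ) * I)) ^ (d - 1)‖ ^ 2) =
      ENNReal.ofReal ((d * r ^ (d - 1)) ^ 2) * h (((r ^ d : ℝ) : ℂ) * cexp ((d : ℂ) * ((t : ℂ) * I))) := by
    intro t
    rw [mul_comm]
    congr 2
    · congr 1
      rw [norm_mul, norm_pow, norm_mul, Complex.norm_exp_ofReal_mul_I, Complex.norm_real,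
        Real.norm_of_nonneg hr0.le, Complex.norm_natCast, mul_one]
    · rw [mul_pow, ← Complex.exp_nat_mul]
      push_cast
      rfl
  simp_rw [e1]
  rw [lintegral_const_mul]
  swap
  · apply hh.comp
    fun_prop
  have e2 := ang d hd (fun u => h (((r ^ d : ℝ) : ℂ) * u)) (hh.comp (by fun_prop))
  rw [e2]
  have e3 : |(d : ℝ) * r ^ (d - 1)| = (d : ℝ) * r ^ (d - 1) := abs_of_nonneg (by positivity)
  have e4 : ENNReal.ofReal r * ENNReal.ofReal ((d * r ^ (d - 1)) ^ 2) =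
      ENNReal.ofReal ((d : ℝ) * r ^ (d - 1)) * ((d : ENNReal) * ENNReal.ofReal (r ^ d)) := by
    rw [← ENNReal.ofReal_natCast, ← ENNReal.ofReal_mul (by positivity), ← ENNReal.ofReal_mul (by positivity),
      ← ENNReal.ofReal_mul (by positivity)]
    congr 1
    obtain ⟨k, rfl⟩ : ∃ k, d = k + 1 := ⟨d - 1, by omega⟩
    simp only [Nat.add_sub_cancel]
    ring
  rw [e3, ← mul_assoc, e4]
  simp only [hΦ, mul_assoc]

/-- change of variables for `w ↦ w ^ d + c` -/
theorem t_COV : Pool.Agent.KS6_23.ML.TRV.S_COV := by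
  intro d c hd h hh
  have := cov0 d hd (fun z => h (z + c)) (hh.comp (by fun_prop))
  rw [this, lintegral_add_right_eq_self h c]

end Pool.Agent.KS6_23.ML.TRV.Cov


/-! Job PC-DEC (for helper811): decay of the quadratic differential. -/


namespace Pool.Agent.KS6_23.ML.TRV.Dec

open Complex Metric Set Filter Topology Pool.Agent.KS6_23.ML.TRV

theorem sum_shift {m : ℕ} {f : ℕ → ℂ} (hf : ∀ j, f (j + m) = f j) :
    ∑ j ∈ Finset.range m, f (j + 1) = ∑ j ∈ Finset.range m, f j := by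
  have h1 := Finset.sum_range_succ f m
  rw [Finset.sum_range_succ'] at h1
  have h2 : f m = f 0 := by rw [← hf 0, zero_add]
  rw [h2] at h1
  exact add_right_cancel h1

theorem cyc_sum {d m : ℕ} {c : ℂ} {b β : ℕ → ℂ} {A : ℂ} (h : Cyc d m c b β A) :
    ∑ j ∈ Finset.range m, (A + β j * b j) = 0 := by
  have hd0 : (d : ℂ) ≠ 0 := by
    have := h.hd
    exact_mod_cast (by omega : d ≠ 0)
  have h1 : ∀ j, β j * b j = ((d : ℂ) - 1) * A + (d : ℂ) * (β (j + 1) * b (j + 1)) -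
      (d : ℂ) * c * β (j + 1) := by
    intro j
    have h2 : β (j + 1) * ((d : ℂ) * b j ^ d) = β j * b j - ((d : ℂ) - 1) * A := by
      rw [h.recu j]
      have h3 : b j ^ d = b j ^ (d - 1) * b j := by
        rw [← pow_succ]
        congr 1
        have := h.hd
        omega
      have h4 : b j ^ (d - 1) ≠ 0 := pow_ne_zero _ (h.ne j)
      have h5 := h.ne j
      rw [h3]
      field_simp
    have h3 : b j ^ d = b (j + 1) - c := by rw [h.step j]; ring
    rw [h3] at h2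
    linear_combination -h2
  have h2 : ∑ j ∈ Finset.range m, β j * b j = m * (((d : ℂ) - 1) * A) +
      (d : ℂ) * ∑ j ∈ Finset.range m, β j * b j := by
    have h3 : ∑ j ∈ Finset.range m, β j * b j = ∑ j ∈ Finset.range m,
        (((d : ℂ) - 1) * A + (d : ℂ) * (β (j + 1) * b (j + 1)) - (d : ℂ) * c * β (j + 1)) :=
      Finset.sum_congr rfl fun j _ => h1 j
    rw [Finset.sum_sub_distrib, Finset.sum_add_distrib, ← Finset.mul_sum, ← Finset.mul_sum,
      ← Finset.mul_sum,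
      sum_shift (f := fun j => β j * b j) (fun j => by simp only [h.bper, h.per]),
      sum_shift (f := β) h.bper, h.sum, Finset.sum_const, Finset.card_range, nsmul_eq_mul,
      mul_zero, sub_zero] at h3
    linear_combination h3
  have hd1 : (d : ℂ) - 1 ≠ 0 := by
    intro h0
    have h3 : (d : ℂ) = 1 := by linear_combination h0
    have h4 : d = 1 := by exact_mod_cast h3
    have := h.hd
    omega
  rw [Finset.sum_add_distrib, Finset.sum_const, Finset.card_range, nsmul_eq_mul]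
  apply mul_left_cancel₀ hd1
  linear_combination -h2

theorem rem_bd {A β b z : ℂ} (h : 2 * ‖b‖ + 1 ≤ ‖z‖) :
    ‖A * (2 * z * b - b ^ 2) / (z ^ 2 * (z - b) ^ 2) + β * b ^ 2 / (z ^ 2 * (z - b))‖ ≤
      (12 * ‖A‖ * ‖b‖ + 2 * ‖β‖ * ‖b‖ ^ 2) / ‖z‖ ^ 3 := by
  have hb0 := norm_nonneg b
  have hz : 0 < ‖z‖ := by linarith
  have h1 : ‖z‖ / 2 ≤ ‖z - b‖ := by
    have := norm_sub_norm_le z b
    linarith
  have h2 : 0 < ‖z - b‖ := by linarith
  have e1 : ‖A * (2 * z * b - b ^ 2) / (z ^ 2 * (z - b) ^ 2)‖ ≤ 12 * ‖A‖ * ‖b‖ / ‖z‖ ^ 3 := by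
    rw [norm_div, norm_mul, norm_mul, norm_pow, norm_pow, div_le_div_iff₀ (by positivity)
      (by positivity)]
    have h3 : ‖2 * z * b - b ^ 2‖ ≤ 3 * ‖z‖ * ‖b‖ := by
      refine (norm_sub_le _ _).trans ?_
      rw [norm_mul, norm_mul, norm_pow, Complex.norm_ofNat]
      nlinarith
    have h4 : (‖z‖ / 2) ^ 2 ≤ ‖z - b‖ ^ 2 := pow_le_pow_left₀ (by positivity) h1 2
    calc ‖A‖ * ‖2 * z * b - b ^ 2‖ * ‖z‖ ^ 3 ≤ ‖A‖ * (3 * ‖z‖ * ‖b‖) * ‖z‖ ^ 3 := by gcongr
      _ = 12 * ‖A‖ * ‖b‖ * (‖z‖ ^ 2 * (‖z‖ / 2) ^ 2) := by ring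
      _ ≤ 12 * ‖A‖ * ‖b‖ * (‖z‖ ^ 2 * ‖z - b‖ ^ 2) := by gcongr
  have e2 : ‖β * b ^ 2 / (z ^ 2 * (z - b))‖ ≤ 2 * ‖β‖ * ‖b‖ ^ 2 / ‖z‖ ^ 3 := by
    rw [norm_div, norm_mul, norm_mul, norm_pow, norm_pow, div_le_div_iff₀ (by positivity)
      (by positivity)]
    calc ‖β‖ * ‖b‖ ^ 2 * ‖z‖ ^ 3 = 2 * ‖β‖ * ‖b‖ ^ 2 * (‖z‖ ^ 2 * (‖z‖ / 2)) := by ring
      _ ≤ 2 * ‖β‖ * ‖b‖ ^ 2 * (‖z‖ ^ 2 * ‖z - b‖) := by gcongr
  rw [add_div]
  exact (norm_add_le _ _).trans (add_le_add e1 e2)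

theorem t_DEC : S_DEC := by
  intro d m c b β A h
  refine ⟨∑ j ∈ Finset.range m, (12 * ‖A‖ * ‖b j‖ + 2 * ‖β j‖ * ‖b j‖ ^ 2) + 1,
    2 * ∑ j ∈ Finset.range m, ‖b j‖ + 1, by positivity, ?_, ?_⟩
  · have : 0 ≤ ∑ j ∈ Finset.range m, ‖b j‖ := by positivity
    linarith
  · intro z hz
    have hS : 0 ≤ ∑ j ∈ Finset.range m, ‖b j‖ := by positivity
    have hz0 : 0 < ‖z‖ := by linarith
    have hzne : z ≠ 0 := norm_pos_iff.1 hz0
    have hb : ∀ j ∈ Finset.range m, 2 * ‖b j‖ + 1 ≤ ‖z‖ := by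
      intro j hj
      have := Finset.single_le_sum (f := fun j => ‖b j‖) (fun i _ => norm_nonneg _) hj
      linarith
    have h1 : gg m b β A z = ∑ j ∈ Finset.range m,
        (A * (2 * z * b j - b j ^ 2) / (z ^ 2 * (z - b j) ^ 2) +
          β j * b j ^ 2 / (z ^ 2 * (z - b j))) := by
      have h2 : ∑ j ∈ Finset.range m, (β j / z + (A + β j * b j) / z ^ 2) = 0 := by
        rw [Finset.sum_add_distrib, ← Finset.sum_div, ← Finset.sum_div, h.sum, cyc_sum h,
          zero_div, zero_div, add_zero]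
      unfold gg
      rw [← sub_zero (∑ j ∈ Finset.range m, (A / (z - b j) ^ 2 + β j / (z - b j))), ← h2,
        ← Finset.sum_sub_distrib]
      refine Finset.sum_congr rfl fun j hj => ?_
      have h3 : z - b j ≠ 0 := by
        intro h0
        have h4 : z = b j := sub_eq_zero.1 h0
        have h5 := hb j hj
        rw [← h4] at h5
        linarith
      field_simp
      ring
    rw [h1]
    calc _ ≤ ∑ j ∈ Finset.range m, ‖A * (2 * z * b j - b j ^ 2) / (z ^ 2 * (z - b j) ^ 2) +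
          β j * b j ^ 2 / (z ^ 2 * (z - b j))‖ := norm_sum_le _ _
      _ ≤ ∑ j ∈ Finset.range m, (12 * ‖A‖ * ‖b j‖ + 2 * ‖β j‖ * ‖b j‖ ^ 2) / ‖z‖ ^ 3 :=
          Finset.sum_le_sum fun j hj => rem_bd (hb j hj)
      _ = (∑ j ∈ Finset.range m, (12 * ‖A‖ * ‖b j‖ + 2 * ‖β j‖ * ‖b j‖ ^ 2)) / ‖z‖ ^ 3 := by
          rw [Finset.sum_div]
      _ ≤ _ := by
          apply div_le_div_of_nonneg_right _ (by positivity)
          linarith

end Pool.Agent.KS6_23.ML.TRV.Dec


/-!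
Project PC: strictness in the triangle inequality.
-/



namespace Pool.Agent.KS6_23.ML.TRV.Str

open Complex Metric Set Filter Topology

open Pool.Agent.KS6_23.ML.TRV

section

variable {d m : ℕ} {c A : ℂ} {b β : ℕ → ℂ}

theorem gg_an {z : ℂ} (h : ∀ j, j < m → z ≠ b j) : AnalyticAt ℂ (gg m b β A) z := by
  have h1 : gg m b β A = fun z => ∑ j ∈ Finset.range m, (A / (z - b j) ^ 2 + β j / (z - b j)) :=
    rfl
  rw [h1]
  refine Finset.analyticAt_fun_sum _ fun j hj => ?_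
  have h2 : z - b j ≠ 0 := sub_ne_zero.2 (h j (Finset.mem_range.1 hj))
  have h3 : AnalyticAt ℂ (fun z : ℂ => z - b j) z := analyticAt_id.sub analyticAt_const
  exact (analyticAt_const.div (h3.pow 2) (pow_ne_zero 2 h2)).add (analyticAt_const.div h3 h2)

theorem om_prim (hd : 2 ≤ d) : IsPrimitiveRoot (om d) d :=
  Complex.isPrimitiveRoot_exp d (by omega)

theorem om_norm (hd : 2 ≤ d) : ‖om d‖ = 1 := (om_prim hd).norm'_eq_one (by omega)

theorem om_ne (hd : 2 ≤ d) : om d ≠ 0 := (om_prim hd).ne_zero (by omega)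

/-- the point `om b₀` is not in the cycle -/
theorem om_b (h : Cyc d m c b β A) (i : ℕ) : om d * b 0 ≠ b i := by
  intro e
  have h1 : b (i + 1) = b 1 := by
    rw [h.step i, ← e, mul_pow, (om_prim h.hd).pow_eq_one, one_mul, ← h.step 0]
  have h2 : ∀ t, b (i + 1 + t) = b (1 + t) := by
    intro t
    induction t with
    | zero => exact h1
    | succ t ih =>
      rw [← Nat.add_assoc, ← Nat.add_assoc, h.step, h.step, ih]
  have h3 := h2 (m - 1)
  have hm := h.hm
  have h4 : i + 1 + (m - 1) = i + m := by omega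
  have h5 : 1 + (m - 1) = 0 + m := by omega
  rw [h4, h5, h.per, h.per] at h3
  rw [h3] at e
  have h6 : om d = 1 := by
    have := mul_right_cancel₀ (h.ne 0) (e.trans (one_mul _).symm)
    exact this
  exact (om_prim h.hd).ne_one (by have := h.hd; omega) h6

/-- the local form at `b₀` -/
theorem local_form (h : Cyc d m c b β A) (hne : ¬ (A = 0 ∧ ∀ j, β j = 0)) :
    ∃ (s : ℕ) (P : ℂ → ℂ), 1 ≤ s ∧ AnalyticAt ℂ P (b 0) ∧ P (b 0) ≠ 0 ∧
      ∀ w, w ≠ b 0 → gg m b β A w * (w - b 0) ^ s = P w := by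
  have hm := h.hm
  have h0 : (0 : ℕ) ∈ Finset.range m := Finset.mem_range.2 (by omega)
  obtain ⟨r, hr⟩ : ∃ r : ℂ → ℂ, r = fun z => ∑ j ∈ (Finset.range m).erase 0,
      (A / (z - b j) ^ 2 + β j / (z - b j)) := ⟨_, rfl⟩
  have hra : AnalyticAt ℂ r (b 0) := by
    rw [hr]
    refine Finset.analyticAt_fun_sum _ fun j hj => ?_
    have hj1 := Finset.mem_erase.1 hj
    have hj2 := Finset.mem_range.1 hj1.2
    have h2 : b 0 - b j ≠ 0 := sub_ne_zero.2 fun e => hj1.1 (h.inj 0 j (by omega) hj2 e).symm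
    have h3 : AnalyticAt ℂ (fun z : ℂ => z - b j) (b 0) := analyticAt_id.sub analyticAt_const
    exact (analyticAt_const.div (h3.pow 2) (pow_ne_zero 2 h2)).add (analyticAt_const.div h3 h2)
  have hg : ∀ w, gg m b β A w = (A / (w - b 0) ^ 2 + β 0 / (w - b 0)) + r w := by
    intro w
    rw [hr]
    unfold gg
    rw [← Finset.add_sum_erase _ _ h0]
  have hi : AnalyticAt ℂ (fun w : ℂ => w - b 0) (b 0) := analyticAt_id.sub analyticAt_const
  by_cases hA : A = 0
  · have hβ : β 0 ≠ 0 := by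
      intro h1
      apply hne
      refine ⟨hA, fun j => ?_⟩
      induction j with
      | zero => exact h1
      | succ j ih => rw [h.recu, ih, hA]; simp
    refine ⟨1, fun w => β 0 + (w - b 0) * r w, le_rfl,
      analyticAt_const.add (hi.mul hra), ?_, fun w hw => ?_⟩
    · simp only [sub_self, zero_mul, add_zero]
      exact hβ
    · have h1 : w - b 0 ≠ 0 := sub_ne_zero.2 hw
      rw [hg, hA]
      field_simp
      ring
  · refine ⟨2, fun w => A + β 0 * (w - b 0) + (w - b 0) ^ 2 * r w, by norm_num,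
      (analyticAt_const.add (analyticAt_const.mul hi)).add ((hi.pow 2).mul hra), ?_,
      fun w hw => ?_⟩
    · simp only [sub_self]
      simp [hA]
    · have h1 : w - b 0 ≠ 0 := sub_ne_zero.2 hw
      rw [hg]
      field_simp

/-- `g` does not vanish identically near `om b₀` -/
theorem not_zero (h : Cyc d m c b β A) (hne : ¬ (A = 0 ∧ ∀ j, β j = 0)) :
    ¬ (gg m b β A =ᶠ[𝓝 (om d * b 0)] 0) := by
  intro h1
  have hc : IsPreconnected ((b '' (Set.Iio m))ᶜ) := by
    refine (Set.Countable.isConnected_compl_of_one_lt_rank ?_ ?_).isPreconnected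
    · rw [Complex.rank_real_complex]
      norm_num
    · exact ((Set.finite_Iio m).image b).countable
  have ha : AnalyticOnNhd ℂ (gg m b β A) ((b '' (Set.Iio m))ᶜ) := by
    intro z hz
    exact gg_an fun j hj e => hz ⟨j, hj, e.symm⟩
  have h0 : om d * b 0 ∈ (b '' (Set.Iio m))ᶜ := by
    rintro ⟨j, _, e⟩
    exact om_b h j e.symm
  have h2 := ha.eqOn_zero_of_preconnected_of_eventuallyEq_zero hc h0 h1
  obtain ⟨s, P, hs, hPa, hP0, hP⟩ := local_form h hne
  -- points near `b₀`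
  have h3 : ∀ᶠ w in 𝓝[≠] (b 0), P w ≠ 0 :=
    (hPa.continuousAt.eventually_ne hP0).filter_mono nhdsWithin_le_nhds
  have h4 : ∀ᶠ w in 𝓝[≠] (b 0), w ∈ (b '' (Set.Iio m))ᶜ := by
    have h5 : IsClosed ((b '' (Set.Iio m)) \ {b 0}) :=
      (((Set.finite_Iio m).image b).subset sdiff_subset).isClosed
    have h6 : ((b '' (Set.Iio m)) \ {b 0})ᶜ ∈ 𝓝 (b 0) :=
      h5.isOpen_compl.mem_nhds fun h7 => h7.2 rfl
    filter_upwards [mem_nhdsWithin_of_mem_nhds h6, self_mem_nhdsWithin] with w hw1 hw2 hw3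
    exact hw1 ⟨hw3, hw2⟩
  have h7 : ∀ᶠ w in 𝓝[≠] (b 0), w ≠ b 0 := self_mem_nhdsWithin
  obtain ⟨w, hw1, hw2, hw3⟩ := (h3.and (h4.and h7)).exists
  apply hw1
  rw [← hP w hw3, h2 hw2]
  simp

/-- the exceptional set -/
theorem exc_fin (h : Cyc d m c b β A) : {w : ℂ | ∃ j, j ≤ m ∧ w ^ d + c = b j}.Finite := by
  have h1 : {w : ℂ | ∃ j, j ≤ m ∧ w ^ d + c = b j} ⊆
      ⋃ j ∈ Finset.range (m + 1), ((Polynomial.nthRoots d (b j - c)).toFinset : Set ℂ) := by
    rintro w ⟨j, hj, hw⟩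
    refine mem_iUnion₂.2 ⟨j, Finset.mem_range.2 (by omega), ?_⟩
    rw [Finset.mem_coe, Multiset.mem_toFinset, Polynomial.mem_nthRoots (by have := h.hd; omega),
      ← hw]
    ring
  refine Set.Finite.subset ?_ h1
  exact Set.Finite.biUnion (Finset.finite_toSet _) fun j _ => Finset.finite_toSet _

/-- the point `w₁` -/
theorem point (h : Cyc d m c b β A) (hne : ¬ (A = 0 ∧ ∀ j, β j = 0)) :
    ∃ w : ℂ, (∀ j, j ≤ m → w ^ d + c ≠ b j) ∧
      ‖gg m b β A w + om d ^ 2 * gg m b β A (om d * w)‖ <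
        ‖gg m b β A w‖ + ‖gg m b β A (om d * w)‖ := by
  obtain ⟨s, P, hs, hPa, hP0, hP⟩ := local_form h hne
  have hQ : AnalyticAt ℂ (fun w => gg m b β A (om d * w)) (b 0) :=
    (gg_an (fun j _ => om_b h j)).fun_comp (analyticAt_const.mul analyticAt_id)
  have hi : AnalyticAt ℂ (fun w : ℂ => w - b 0) (b 0) := analyticAt_id.sub analyticAt_const
  obtain ⟨H, hH⟩ : ∃ H : ℂ → ℂ, H = fun w => (w - b 0) ^ s * gg m b β A (om d * w) * om d ^ 2 /
      P w := ⟨_, rfl⟩
  have hHa : AnalyticAt ℂ H (b 0) := by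
    rw [hH]
    exact (((hi.pow s).mul hQ).mul analyticAt_const).div hPa hP0
  have hH0 : H (b 0) = 0 := by
    rw [hH]
    simp only [sub_self]
    rw [zero_pow (by omega), zero_mul, zero_mul, zero_div]
  have hne0 : ∀ᶠ w in 𝓝 (b 0), P w ≠ 0 := hPa.continuousAt.eventually_ne hP0
  have hexc : ∀ᶠ w in 𝓝 (b 0), w ≠ b 0 → ∀ j, j ≤ m → w ^ d + c ≠ b j := by
    have h5 : IsClosed ({w : ℂ | ∃ j, j ≤ m ∧ w ^ d + c = b j} \ {b 0}) :=
      ((exc_fin h).subset sdiff_subset).isClosed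
    have h6 : ({w : ℂ | ∃ j, j ≤ m ∧ w ^ d + c = b j} \ {b 0})ᶜ ∈ 𝓝 (b 0) :=
      h5.isOpen_compl.mem_nhds fun h7 => h7.2 rfl
    filter_upwards [h6] with w hw1 hw2 j hj e
    exact hw1 ⟨⟨j, hj, e⟩, hw2⟩
  rcases hHa.eventually_constant_or_nhds_le_map_nhds with hconst | hopen
  · exfalso
    apply not_zero h hne
    rw [hH0] at hconst
    -- `Q` vanishes near `b₀`
    have h1 : ∀ᶠ w in 𝓝[≠] (b 0), gg m b β A (om d * w) = 0 := by
      filter_upwards [hconst.filter_mono nhdsWithin_le_nhds,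
        hne0.filter_mono nhdsWithin_le_nhds, self_mem_nhdsWithin] with w hw1 hw2 hw3
      rw [hH] at hw1
      have h2 : (w - b 0) ^ s * gg m b β A (om d * w) * om d ^ 2 = 0 := by
        rcases div_eq_zero_iff.1 hw1 with h3 | h3
        · exact h3
        · exact absurd h3 hw2
      rcases mul_eq_zero.1 h2 with h3 | h3
      · rcases mul_eq_zero.1 h3 with h4 | h4
        · exact absurd (sub_eq_zero.1 (pow_eq_zero_iff (by omega) |>.1 h4)) hw3
        · exact h4
      · exact absurd (pow_eq_zero_iff (by norm_num) |>.1 h3) (om_ne h.hd)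
    have h2 : ∀ᶠ w in 𝓝 (b 0), gg m b β A (om d * w) = 0 :=
      hQ.frequently_zero_iff_eventually_zero.1 h1.frequently
    have h3 : Tendsto (fun z : ℂ => (om d)⁻¹ * z) (𝓝 (om d * b 0)) (𝓝 (b 0)) := by
      have h4 : ContinuousAt (fun z : ℂ => (om d)⁻¹ * z) (om d * b 0) :=
        continuousAt_const.mul continuousAt_id
      have h5 : (om d)⁻¹ * (om d * b 0) = b 0 := inv_mul_cancel_left₀ (om_ne h.hd) _
      have h6 := h4.tendsto
      simp only [h5] at h6
      exact h6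
    filter_upwards [h3.eventually h2] with z hz
    rw [mul_inv_cancel_left₀ (om_ne h.hd)] at hz
    exact hz
  · rw [hH0] at hopen
    have h1 : {w : ℂ | P w ≠ 0 ∧ (w ≠ b 0 → ∀ j, j ≤ m → w ^ d + c ≠ b j)} ∈ 𝓝 (b 0) :=
      hne0.and hexc
    have h2 : H '' {w : ℂ | P w ≠ 0 ∧ (w ≠ b 0 → ∀ j, j ≤ m → w ^ d + c ≠ b j)} ∈ 𝓝 (0 : ℂ) :=
      hopen (image_mem_map h1)
    obtain ⟨ε, hε, hball⟩ := Metric.mem_nhds_iff.1 h2
    obtain ⟨t, ht0, ht1, ht2⟩ : ∃ t : ℝ, 0 < t ∧ t < 1 ∧ t < ε :=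
      ⟨min (ε / 2) (1 / 2), by positivity, (min_le_right _ _).trans_lt (by norm_num),
        (min_le_left _ _).trans_lt (by linarith)⟩
    have h3 : -(t : ℂ) ∈ ball (0 : ℂ) ε := by
      rw [mem_ball_zero_iff, norm_neg, Complex.norm_real, Real.norm_eq_abs, abs_of_pos ht0]
      exact ht2
    obtain ⟨w, ⟨hw1, hw2⟩, hw3⟩ := hball h3
    have hwb : w ≠ b 0 := by
      intro e
      rw [e, hH0] at hw3
      have : (t : ℂ) = 0 := by
        rw [← neg_eq_zero]
        exact hw3.symm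
      exact ht0.ne' (Complex.ofReal_eq_zero.1 this)
    refine ⟨w, hw2 hwb, ?_⟩
    have h4 := hP w hwb
    have h5 : (w - b 0) ^ s ≠ 0 := pow_ne_zero _ (sub_ne_zero.2 hwb)
    have hg0 : gg m b β A w ≠ 0 := by
      intro e
      rw [e, zero_mul] at h4
      exact hw1 h4.symm
    have h6 : om d ^ 2 * gg m b β A (om d * w) = -(t : ℂ) * gg m b β A w := by
      rw [hH] at hw3
      simp only at hw3
      rw [div_eq_iff hw1, ← h4] at hw3
      have h7 : (w - b 0) ^ s * (om d ^ 2 * gg m b β A (om d * w)) =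
          (w - b 0) ^ s * (-(t : ℂ) * gg m b β A w) := by
        linear_combination hw3
      exact mul_left_cancel₀ h5 h7
    have h8 : ‖gg m b β A (om d * w)‖ = t * ‖gg m b β A w‖ := by
      have h9 := congrArg norm h6
      rw [norm_mul, norm_pow, om_norm h.hd, one_pow, one_mul, norm_mul, norm_neg,
        Complex.norm_real, Real.norm_eq_abs, abs_of_pos ht0] at h9
      exact h9
    have h10 : gg m b β A w + om d ^ 2 * gg m b β A (om d * w) =
        ((1 - t : ℝ) : ℂ) * gg m b β A w := by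
      rw [h6]
      push_cast
      ring
    rw [h10, norm_mul, Complex.norm_real, Real.norm_eq_abs, abs_of_pos (by linarith), h8]
    have h11 : 0 < ‖gg m b β A w‖ := norm_pos_iff.2 hg0
    have h12 : 0 < t * ‖gg m b β A w‖ := mul_pos ht0 h11
    have h13 : (1 - t) * ‖gg m b β A w‖ = ‖gg m b β A w‖ - t * ‖gg m b β A w‖ := by ring
    linarith

end

/-- strictness in the triangle inequality -/
theorem t_STRICT : S_STRICT := by
  intro d m c b β A h hne
  obtain ⟨w, hw1, hw2⟩ := point h hne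
  have hd := h.hd
  have hm := h.hm
  -- no poles
  have hpole : ∀ k j, j < m → om d ^ k * w ≠ b j := by
    intro k j hj e
    apply hw1 (j + 1) (by omega)
    rw [h.step j, ← e, mul_pow, ← pow_mul, mul_comm k d, pow_mul, (om_prim hd).pow_eq_one, one_pow,
      one_mul]
  have hcont : ∀ k, ContinuousAt (fun z => gg m b β A (om d ^ k * z)) w := fun k =>
    (gg_an (hpole k)).continuousAt.comp' (continuousAt_const.mul continuousAt_id)
  have hL : ContinuousAt (fun z => ‖∑ k ∈ Finset.range d,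
      om d ^ (2 * k) * gg m b β A (om d ^ k * z)‖) w := by
    refine ContinuousAt.norm ?_
    exact tendsto_finsetSum _ fun k _ => (continuousAt_const.mul (hcont k))
  have hR : ContinuousAt (fun z => ∑ k ∈ Finset.range d, ‖gg m b β A (om d ^ k * z)‖) w :=
    tendsto_finsetSum _ fun k _ => (hcont k).norm
  -- strict inequality at `w`
  have hlt : ‖∑ k ∈ Finset.range d, om d ^ (2 * k) * gg m b β A (om d ^ k * w)‖ <
      ∑ k ∈ Finset.range d, ‖gg m b β A (om d ^ k * w)‖ := by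
    obtain ⟨n, rfl⟩ : ∃ n, d = n + 2 := ⟨d - 2, by omega⟩
    rw [Finset.sum_range_succ', Finset.sum_range_succ', Finset.sum_range_succ',
      Finset.sum_range_succ']
    simp only [zero_add, mul_zero, pow_zero, one_mul, mul_one, pow_one]
    rw [add_assoc, add_assoc]
    refine (norm_add_le _ _).trans_lt ?_
    refine add_lt_add_of_le_of_lt ?_ ?_
    · refine (norm_sum_le _ _).trans (Finset.sum_le_sum fun k _ => ?_)
      rw [norm_mul, norm_pow, om_norm hd, one_pow, one_mul]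
    · rw [add_comm, add_comm ‖gg m b β A (om (n + 2) * w)‖]
      exact hw2
  obtain ⟨γ, hγ⟩ : ∃ γ : ℝ, γ = ((∑ k ∈ Finset.range d, ‖gg m b β A (om d ^ k * w)‖) -
      ‖∑ k ∈ Finset.range d, om d ^ (2 * k) * gg m b β A (om d ^ k * w)‖) / 2 := ⟨_, rfl⟩
  have hγ0 : 0 < γ := by rw [hγ]; linarith
  have hev1 : ∀ᶠ z in 𝓝 w, ‖∑ k ∈ Finset.range d, om d ^ (2 * k) *
      gg m b β A (om d ^ k * z)‖ + γ < ∑ k ∈ Finset.range d, ‖gg m b β A (om d ^ k * z)‖ := by
    have hLγ : ContinuousAt (fun z => ‖∑ k ∈ Finset.range d, om d ^ (2 * k) *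
        gg m b β A (om d ^ k * z)‖ + γ) w := hL.add continuousAt_const
    have hval : ‖∑ k ∈ Finset.range d, om d ^ (2 * k) * gg m b β A (om d ^ k * w)‖ + γ <
        ∑ k ∈ Finset.range d, ‖gg m b β A (om d ^ k * w)‖ := by linarith
    exact hLγ.eventually_lt hR hval
  obtain ⟨j0, hj0, hmin⟩ := (Finset.range m).exists_min_image
    (fun j => ‖w ^ d + c - b j‖) ⟨0, Finset.mem_range.2 (by omega)⟩
  obtain ⟨δ₁, hδ₁⟩ : ∃ δ₁ : ℝ, δ₁ = ‖w ^ d + c - b j0‖ / 2 := ⟨_, rfl⟩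
  have hj0' := Finset.mem_range.1 hj0
  have hpos : 0 < ‖w ^ d + c - b j0‖ := norm_pos_iff.2 (sub_ne_zero.2 (hw1 j0 (by omega)))
  have hδ₁0 : 0 < δ₁ := by rw [hδ₁]; linarith
  have hev2 : ∀ᶠ z in 𝓝 w, ∀ j ∈ Finset.range m, δ₁ < ‖z ^ d + c - b j‖ := by
    rw [Filter.eventually_all_finset]
    intro j hj
    have hcj : ContinuousAt (fun z : ℂ => ‖z ^ d + c - b j‖) w :=
      (((continuousAt_id.pow d).add continuousAt_const).sub continuousAt_const).norm
    refine continuousAt_const.eventually_lt hcj ?_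
    have := hmin j hj
    rw [hδ₁]
    linarith
  obtain ⟨δ₂, hδ₂, hball⟩ := Metric.mem_nhds_iff.1 (hev1.and hev2)
  refine ⟨w, min δ₁ δ₂, γ, lt_min hδ₁0 hδ₂, hγ0, fun z hz j hj => ?_, fun z hz => ?_⟩
  · have hz' := hball (ball_subset_ball (min_le_right _ _) hz)
    exact (min_le_left _ _).trans (hz'.2 j (Finset.mem_range.2 hj)).le
  · have hz' := hball (ball_subset_ball (min_le_right _ _) hz)
    exact hz'.1.le

end Pool.Agent.KS6_23.ML.TRV.Str


/-!
# Mass of the quadratic differential near the cycle (S_ANN), project PC of helper811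
-/


namespace Pool.Agent.KS6_23.ML.TRV.Ann

open Complex Metric Set Filter Topology MeasureTheory Pool.Agent.KS6_23.ML.TRV

theorem taylor (d : ℕ) (b : ℂ) : ∃ K : ℝ, 0 ≤ K ∧ ∀ w : ℂ, ‖w - b‖ ≤ 1 →
    ‖w ^ d - b ^ d - (d : ℂ) * b ^ (d - 1) * (w - b)‖ ≤ K * ‖w - b‖ ^ 2 := by
  induction d with
  | zero =>
    refine ⟨0, le_rfl, fun w _ => ?_⟩
    simp
  | succ d ih =>
    obtain ⟨K, hK, h⟩ := ih
    refine ⟨(‖b‖ + 1) * K + ‖(d : ℂ) * b ^ (d - 1)‖, by positivity, fun w hw => ?_⟩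
    have e : w ^ (d + 1) - b ^ (d + 1) - ((d + 1 : ℕ) : ℂ) * b ^ (d + 1 - 1) * (w - b) =
        w * (w ^ d - b ^ d - (d : ℂ) * b ^ (d - 1) * (w - b)) +
          (d : ℂ) * b ^ (d - 1) * (w - b) ^ 2 := by
      rcases Nat.eq_zero_or_pos d with rfl | hd
      · simp
      · obtain ⟨d', rfl⟩ : ∃ d', d = d' + 1 := ⟨d - 1, by omega⟩
        simp only [Nat.add_sub_cancel]
        push_cast
        ring
    rw [e]
    have h1 : ‖w‖ ≤ ‖b‖ + 1 := by
      calc ‖w‖ = ‖b + (w - b)‖ := by rw [add_sub_cancel]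
        _ ≤ ‖b‖ + ‖w - b‖ := norm_add_le _ _
        _ ≤ ‖b‖ + 1 := by linarith
    refine (norm_add_le _ _).trans ?_
    rw [norm_mul, norm_mul _ ((w - b) ^ 2), norm_pow, add_mul]
    refine add_le_add ?_ le_rfl
    calc ‖w‖ * ‖w ^ d - b ^ d - (d : ℂ) * b ^ (d - 1) * (w - b)‖
        ≤ (‖b‖ + 1) * (K * ‖w - b‖ ^ 2) :=
          mul_le_mul h1 (h w hw) (norm_nonneg _) (by positivity)
      _ = (‖b‖ + 1) * K * ‖w - b‖ ^ 2 := by ring

theorem vol_ann (b : ℂ) (ρ s : ℝ) (hρ : 0 ≤ ρ) (hs : 0 ≤ s) (hs1 : s ≤ 1) :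
    volume (closedBall b ρ \ ball b (ρ * s)) ≤
      ENNReal.ofReal (2 * Real.pi * (1 - s) * ρ ^ 2) := by
  have hsub : ball b (ρ * s) ⊆ closedBall b ρ := by
    refine ball_subset_closedBall.trans (closedBall_subset_closedBall ?_)
    nlinarith
  rw [measure_sdiff hsub measurableSet_ball.nullMeasurableSet measure_ball_lt_top.ne,
    Complex.volume_ball, Complex.volume_closedBall]
  have hpi : (NNReal.pi : ENNReal) = ENNReal.ofReal Real.pi := by
    rw [ENNReal.ofReal, Real.toNNReal_of_nonneg Real.pi_pos.le]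
    rfl
  rw [hpi, ← ENNReal.ofReal_pow hρ, ← ENNReal.ofReal_pow (by positivity),
    ← ENNReal.ofReal_mul (by positivity), ← ENNReal.ofReal_mul (by positivity),
    ← ENNReal.ofReal_sub _ (by positivity)]
  apply ENNReal.ofReal_le_ofReal
  have h1 := Real.pi_pos
  have h2 : ρ ^ 2 * Real.pi - (ρ * s) ^ 2 * Real.pi = Real.pi * ρ ^ 2 * ((1 - s) * (1 + s)) := by
    ring
  rw [h2]
  have h3 : (1 - s) * (1 + s) ≤ (1 - s) * 2 := mul_le_mul_of_nonneg_left (by linarith) (by linarith)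
  have h4 : 0 ≤ Real.pi * ρ ^ 2 := by positivity
  nlinarith [mul_le_mul_of_nonneg_left h3 h4]

theorem ann_mass (g f : ℂ → ℂ) (b b' : ℂ) (l t K ρ₀ C₂ : ℝ) (hl : 0 < l) (ht : 0 < t)
    (hρ₀ : 0 < ρ₀) (hK : 0 ≤ K) (hC : 0 ≤ C₂)
    (hg : ∀ w, 0 < ‖w - b‖ → ‖w - b‖ < ρ₀ → ‖g w‖ ≤ K / ‖w - b‖ ^ 2)
    (hf : ∀ w, ‖w - b‖ ≤ 1 → ‖f w - b'‖ ≤ l * ‖w - b‖ + C₂ * ‖w - b‖ ^ 2) :
    ∃ C r₀ : ℝ, 0 ≤ C ∧ 0 < r₀ ∧ ∀ r : ℝ, 0 < r → r < r₀ →
      ∫⁻ w in {w : ℂ | ‖w - b‖ < r * t ∧ r * (t * l) ≤ ‖f w - b'‖}, ENNReal.ofReal ‖g w‖ ≤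
        ENNReal.ofReal (C * r) := by
  set C₁ : ℝ := C₂ * t / l with hC₁
  have hC₁0 : 0 ≤ C₁ := by positivity
  refine ⟨4 * K * (2 * Real.pi * C₁), min (1 / t) (min (ρ₀ / t) (1 / (2 * (C₁ + 1)))),
    by positivity, by positivity, fun r hr hr0 => ?_⟩
  have hr1 : r * t < 1 := by
    have := hr0.trans_le (min_le_left _ _)
    rwa [lt_div_iff₀ ht] at this
  have hr2 : r * t < ρ₀ := by
    have := hr0.trans_le ((min_le_right _ _).trans (min_le_left _ _))
    rwa [lt_div_iff₀ ht] at this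
  have hr3 : C₁ * r ≤ 1 / 2 := by
    have := hr0.trans_le ((min_le_right _ _).trans (min_le_right _ _))
    rw [lt_div_iff₀ (by positivity)] at this
    nlinarith
  set ρ : ℝ := r * t with hρ
  have hρ0 : 0 < ρ := by positivity
  have hsub : {w : ℂ | ‖w - b‖ < r * t ∧ r * (t * l) ≤ ‖f w - b'‖} ⊆
      closedBall b ρ \ ball b (ρ * (1 - C₁ * r)) := by
    rintro w ⟨h1, h2⟩
    refine ⟨?_, ?_⟩
    · rw [mem_closedBall, dist_eq_norm]
      exact h1.le
    · rw [mem_ball, dist_eq_norm, not_lt]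
      by_contra hc
      push Not at hc
      have h3 := hf w (h1.le.trans hr1.le)
      have h4 : l * ‖w - b‖ + C₂ * ‖w - b‖ ^ 2 ≤ ‖w - b‖ * (l + C₂ * ρ) := by
        have : C₂ * ‖w - b‖ ^ 2 ≤ C₂ * (‖w - b‖ * ρ) := by
          refine mul_le_mul_of_nonneg_left ?_ hC
          rw [pow_two]
          exact mul_le_mul_of_nonneg_left h1.le (norm_nonneg _)
        linarith
      have h5 : 0 < l + C₂ * ρ := by positivity
      have h6 : ‖w - b‖ * (l + C₂ * ρ) < ρ * (1 - C₁ * r) * (l + C₂ * ρ) :=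
        mul_lt_mul_of_pos_right hc h5
      have h7 : C₂ * ρ = C₁ * l * r := by
        rw [hC₁, hρ]
        field_simp
      have h8 : ρ * (1 - C₁ * r) * (l + C₂ * ρ) = ρ * l - ρ * l * (C₁ * r) ^ 2 := by
        rw [h7]
        ring
      have h9 : 0 ≤ ρ * l * (C₁ * r) ^ 2 := by positivity
      have h10 : r * (t * l) = ρ * l := by rw [hρ]; ring
      linarith
  have hm : MeasurableSet (closedBall b ρ \ ball b (ρ * (1 - C₁ * r))) :=
    measurableSet_closedBall.diff measurableSet_ball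
  refine (lintegral_mono_set hsub).trans ?_
  have hb : ∀ w ∈ closedBall b ρ \ ball b (ρ * (1 - C₁ * r)),
      ENNReal.ofReal ‖g w‖ ≤ ENNReal.ofReal (4 * K / ρ ^ 2) := by
    rintro w ⟨h1, h2⟩
    rw [mem_closedBall, dist_eq_norm] at h1
    rw [mem_ball, dist_eq_norm, not_lt] at h2
    have h3 : ρ / 2 ≤ ‖w - b‖ := by nlinarith
    have h4 : 0 < ‖w - b‖ := by linarith
    apply ENNReal.ofReal_le_ofReal
    refine (hg w h4 (h1.trans_lt hr2)).trans ?_
    rw [div_le_div_iff₀ (by positivity) (by positivity)]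
    have h5 : (ρ / 2) ^ 2 ≤ ‖w - b‖ ^ 2 := pow_le_pow_left₀ (by positivity) h3 2
    nlinarith
  refine (setLIntegral_mono' hm hb).trans ?_
  rw [setLIntegral_const]
  refine (mul_le_mul_right (vol_ann b ρ (1 - C₁ * r) hρ0.le (by linarith) (by nlinarith)) _).trans ?_
  rw [← ENNReal.ofReal_mul (by positivity)]
  apply ENNReal.ofReal_le_ofReal
  apply le_of_eq
  have : ρ ≠ 0 := hρ0.ne'
  field_simp
  ring

theorem tj_pos {d m : ℕ} {c : ℂ} {b β : ℕ → ℂ} {A : ℂ} (hc : Cyc d m c b β A) (j : ℕ) :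
    0 < tj d b j := by
  unfold tj
  refine Finset.prod_pos fun i _ => ?_
  have h1 : (d : ℂ) ≠ 0 := by
    have := hc.hd
    exact_mod_cast (by omega : d ≠ 0)
  rw [norm_pos_iff]
  exact mul_ne_zero h1 (pow_ne_zero _ (hc.ne i))

/-- the local bound at a point of the cycle -/
theorem local_bd (m : ℕ) (b β : ℕ → ℂ) (A : ℂ) (hinj : ∀ i j, i < m → j < m → b i = b j → i = j)
    (j : ℕ) (hj : j < m) : ∃ K ρ₀ : ℝ, 0 ≤ K ∧ 0 < ρ₀ ∧ ∀ w, 0 < ‖w - b j‖ → ‖w - b j‖ < ρ₀ →
      ‖gg m b β A w‖ ≤ K / ‖w - b j‖ ^ 2 := by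
  have h1 : ∀ i ∈ Finset.range m, ∃ K : ℝ, 0 ≤ K ∧ ∀ᶠ w in 𝓝 (b j), w ≠ b j →
      ‖A / (w - b i) ^ 2 + β i / (w - b i)‖ ≤ K / ‖w - b j‖ ^ 2 := by
    intro i hi
    rw [Finset.mem_range] at hi
    have hx1 : ∀ᶠ w in 𝓝 (b j), ‖w - b j‖ < 1 := by
      have := Metric.ball_mem_nhds (b j) one_pos
      filter_upwards [this] with w hw
      rwa [mem_ball, dist_eq_norm] at hw
    by_cases hij : i = j
    · subst hij
      refine ⟨‖A‖ + ‖β i‖, by positivity, ?_⟩
      filter_upwards [hx1] with w hw hne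
      have h0 : 0 < ‖w - b i‖ := norm_pos_iff.2 (sub_ne_zero.2 hne)
      refine (norm_add_le _ _).trans ?_
      rw [norm_div, norm_div, norm_pow, add_div]
      refine add_le_add le_rfl ?_
      refine div_le_div_of_nonneg_left (norm_nonneg _) (by positivity) ?_
      nlinarith
    · have hne : b j - b i ≠ 0 := by
        intro h
        exact hij (hinj i j hi hj (sub_eq_zero.1 h).symm)
      have hcont : ContinuousAt (fun w => A / (w - b i) ^ 2 + β i / (w - b i)) (b j) := by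
        refine ContinuousAt.add (ContinuousAt.div continuousAt_const ?_ (pow_ne_zero _ hne))
          (ContinuousAt.div continuousAt_const ?_ hne)
        · fun_prop
        · fun_prop
      have hev := hcont.norm.eventually_lt_const (lt_add_one _)
      refine ⟨‖A / (b j - b i) ^ 2 + β i / (b j - b i)‖ + 1, by positivity, ?_⟩
      filter_upwards [hev, hx1] with w hw hw1 hne'
      have h0 : 0 < ‖w - b j‖ := norm_pos_iff.2 (sub_ne_zero.2 hne')
      refine hw.le.trans ?_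
      rw [le_div_iff₀ (by positivity)]
      have h2 : ‖w - b j‖ ^ 2 ≤ 1 := pow_le_one₀ h0.le hw1.le
      exact mul_le_of_le_one_right (by positivity) h2
  choose! K hK0 hK using h1
  have h2 : ∀ᶠ w in 𝓝 (b j), ∀ i ∈ Finset.range m, w ≠ b j →
      ‖A / (w - b i) ^ 2 + β i / (w - b i)‖ ≤ K i / ‖w - b j‖ ^ 2 :=
    (Filter.eventually_all_finset _).2 hK
  obtain ⟨ρ₀, hρ₀, h3⟩ := Metric.eventually_nhds_iff.1 h2
  refine ⟨∑ i ∈ Finset.range m, K i, ρ₀, Finset.sum_nonneg hK0, hρ₀, fun w hw0 hw => ?_⟩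
  have hne : w ≠ b j := by
    intro h
    rw [h, sub_self, norm_zero] at hw0
    exact lt_irrefl _ hw0
  unfold gg
  rw [Finset.sum_div]
  refine (norm_sum_le _ _).trans (Finset.sum_le_sum fun i hi => ?_)
  exact h3 (by rwa [dist_eq_norm]) i hi hne

/-- finite mass away from the poles -/
theorem fin_mass {d m : ℕ} {c : ℂ} {b β : ℕ → ℂ} {A : ℂ} (h : S_DEC) (hc : Cyc d m c b β A)
    (r : ℝ) (hr : 0 < r) : ∫⁻ z in VV d m b r, ENNReal.ofReal ‖gg m b β A z‖ < ⊤ := by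
  obtain ⟨C, R, hC, hR, hCR⟩ := h d m c b β A hc
  set M : ℝ := ∑ j ∈ Finset.range m, (‖A‖ / (r * tj d b j) ^ 2 + ‖β j‖ / (r * tj d b j)) with hM
  have hM0 : 0 ≤ M := Finset.sum_nonneg fun j _ => by
    have := tj_pos hc j
    positivity
  have hcl : MeasurableSet (VV d m b r) := by
    have : VV d m b r = ⋂ j, ⋂ (_ : j < m), {z : ℂ | r * tj d b j ≤ ‖z - b j‖} := by
      ext z
      simp only [VV, mem_ofPred_eq, mem_iInter]
    rw [this]
    refine (isClosed_iInter fun j => isClosed_iInter fun _ => ?_).measurableSet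
    exact isClosed_le continuous_const (by fun_prop)
  have hb : ∀ z ∈ VV d m b r, ENNReal.ofReal ‖gg m b β A z‖ ≤
      ENNReal.ofReal ((M * (1 + R) ^ 3 + 8 * C) * (1 + ‖z‖) ^ (-(3 : ℝ))) := by
    intro z hz
    apply ENNReal.ofReal_le_ofReal
    have h0 : 0 < 1 + ‖z‖ := by positivity
    rw [Real.rpow_neg h0.le, ← div_eq_mul_inv, le_div_iff₀ (by positivity)]
    have e3 : (1 + ‖z‖) ^ (3 : ℝ) = (1 + ‖z‖) ^ 3 := by
      rw [← Real.rpow_natCast]
      norm_num
    rw [e3]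
    by_cases hz1 : R ≤ ‖z‖
    · have h1 := hCR z hz1
      have h2 : 0 < ‖z‖ := by linarith
      have h3 : (1 + ‖z‖) ^ 3 ≤ (2 * ‖z‖) ^ 3 := pow_le_pow_left₀ h0.le (by linarith) 3
      calc ‖gg m b β A z‖ * (1 + ‖z‖) ^ 3 ≤ C / ‖z‖ ^ 3 * (2 * ‖z‖) ^ 3 :=
            mul_le_mul h1 h3 (by positivity) (by positivity)
        _ = 8 * C := by
            field_simp
            ring
        _ ≤ M * (1 + R) ^ 3 + 8 * C := by
            have : 0 ≤ M * (1 + R) ^ 3 := by positivity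
            linarith
    · push Not at hz1
      have h1 : ‖gg m b β A z‖ ≤ M := by
        unfold gg
        refine (norm_sum_le _ _).trans (Finset.sum_le_sum fun j hj => ?_)
        have h2 := hz j (Finset.mem_range.1 hj)
        have h3 := tj_pos hc j
        have h4 : 0 < r * tj d b j := by positivity
        refine (norm_add_le _ _).trans ?_
        rw [norm_div, norm_div, norm_pow]
        exact add_le_add
          (div_le_div_of_nonneg_left (norm_nonneg _) (by positivity)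
            (pow_le_pow_left₀ h4.le h2 2))
          (div_le_div_of_nonneg_left (norm_nonneg _) h4 h2)
      have h2 : (1 + ‖z‖) ^ 3 ≤ (1 + R) ^ 3 := pow_le_pow_left₀ h0.le (by linarith) 3
      calc ‖gg m b β A z‖ * (1 + ‖z‖) ^ 3 ≤ M * (1 + R) ^ 3 :=
            mul_le_mul h1 h2 (by positivity) hM0
        _ ≤ M * (1 + R) ^ 3 + 8 * C := by linarith
  refine (setLIntegral_mono' hcl hb).trans_lt ?_
  refine (setLIntegral_le_lintegral _ _).trans_lt ?_
  have hi : Integrable (fun z : ℂ => (M * (1 + R) ^ 3 + 8 * C) * (1 + ‖z‖) ^ (-(3 : ℝ))) :=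
    (integrable_one_add_norm (by
      rw [Complex.finrank_real_complex]
      norm_num)).const_mul _
  exact hi.lintegral_lt_top

/-- **PC-ANN**, the strong form. -/
theorem t_ANNp (h : S_DEC) : S_ANNp := by
  intro d m c b β A hc
  have hd0 : (d : ℂ) ≠ 0 := by
    have := hc.hd
    exact_mod_cast (by omega : d ≠ 0)
  have hj : ∀ j ∈ Finset.range m, ∃ C r₀ : ℝ, 0 ≤ C ∧ 0 < r₀ ∧ ∀ r : ℝ, 0 < r → r < r₀ →
      ∫⁻ w in {w : ℂ | ‖w - b j‖ < r * tj d b j ∧
        r * (tj d b j * ‖(d : ℂ) * b j ^ (d - 1)‖) ≤ ‖(w ^ d + c) - b (j + 1)‖},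
          ENNReal.ofReal ‖gg m b β A w‖ ≤ ENNReal.ofReal (C * r) := by
    intro j hj
    obtain ⟨K, ρ₀, hK, hρ₀, hg⟩ := local_bd m b β A hc.inj j (Finset.mem_range.1 hj)
    obtain ⟨C₂, hC₂, ht⟩ := taylor d (b j)
    refine ann_mass (gg m b β A) (fun w => w ^ d + c) (b j) (b (j + 1))
      ‖(d : ℂ) * b j ^ (d - 1)‖ (tj d b j) K ρ₀ C₂
      (norm_pos_iff.2 (mul_ne_zero hd0 (pow_ne_zero _ (hc.ne j)))) (tj_pos hc j) hρ₀ hK hC₂ hg ?_
    intro w hw
    have e : w ^ d + c - b (j + 1) = (w ^ d - b j ^ d - (d : ℂ) * b j ^ (d - 1) * (w - b j)) +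
        (d : ℂ) * b j ^ (d - 1) * (w - b j) := by
      rw [hc.step]
      ring
    change ‖w ^ d + c - b (j + 1)‖ ≤ _
    rw [e]
    refine (norm_add_le _ _).trans ?_
    rw [norm_mul ((d : ℂ) * b j ^ (d - 1))]
    have h1 := ht w hw
    linarith
  choose! C r₀ hC hr₀ hmass using hj
  obtain ⟨r₁, hr₁, hr₁'⟩ : ∃ r₁ : ℝ, 0 < r₁ ∧ ∀ j ∈ Finset.range m, r₁ ≤ r₀ j := by
    have hne : (Finset.range m).Nonempty := ⟨0, Finset.mem_range.2 hc.hm⟩
    refine ⟨(Finset.range m).inf' hne r₀, ?_, fun j hj => Finset.inf'_le _ hj⟩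
    rw [Finset.lt_inf'_iff]
    exact hr₀
  refine ⟨∑ j ∈ Finset.range m, C j + 1, r₁, ?_, hr₁, fun r hr hrr => ⟨fin_mass h hc r hr, ?_⟩⟩
  · have := Finset.sum_nonneg hC
    linarith
  have hsub : {w : ℂ | w ^ d + c ∈ VV d m b r} ⊆ VV d m b r ∪ ⋃ j ∈ Finset.range m,
      {w : ℂ | ‖w - b j‖ < r * tj d b j ∧
        r * (tj d b j * ‖(d : ℂ) * b j ^ (d - 1)‖) ≤ ‖(w ^ d + c) - b (j + 1)‖} := by
    intro w hw
    by_cases hwV : w ∈ VV d m b r
    · exact Or.inl hwV
    · right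
      have h1 : ∃ j, j < m ∧ ‖w - b j‖ < r * tj d b j := by
        by_contra hcon
        push Not at hcon
        exact hwV hcon
      obtain ⟨j, hjm, hj2⟩ := h1
      rw [mem_iUnion₂]
      refine ⟨j, Finset.mem_range.2 hjm, hj2, ?_⟩
      have h3 : tj d b j * ‖(d : ℂ) * b j ^ (d - 1)‖ = tj d b (j + 1) := by
        unfold tj
        rw [Finset.prod_range_succ]
      rw [h3]
      by_cases hjm' : j + 1 < m
      · exact hw (j + 1) hjm'
      · have h4 : j + 1 = m := by omega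
        have h5 : b m = b 0 := by
          have := hc.per 0
          rwa [zero_add] at this
        have h6 : tj d b m ≤ tj d b 0 := by
          unfold tj
          rw [Finset.prod_range_zero, ← norm_prod]
          exact hc.neutral
        rw [h4, h5]
        exact (mul_le_mul_of_nonneg_left h6 hr.le).trans (hw 0 hc.hm)
  refine (lintegral_mono_set hsub).trans ((lintegral_union_le _ _ _).trans ?_)
  refine add_le_add (le_refl _) ?_
  have h2 : ∫⁻ w in ⋃ j ∈ Finset.range m,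
      {w : ℂ | ‖w - b j‖ < r * tj d b j ∧
        r * (tj d b j * ‖(d : ℂ) * b j ^ (d - 1)‖) ≤ ‖(w ^ d + c) - b (j + 1)‖},
          ENNReal.ofReal ‖gg m b β A w‖ ≤ ∑ j ∈ Finset.range m, ∫⁻ w in
      {w : ℂ | ‖w - b j‖ < r * tj d b j ∧
        r * (tj d b j * ‖(d : ℂ) * b j ^ (d - 1)‖) ≤ ‖(w ^ d + c) - b (j + 1)‖},
          ENNReal.ofReal ‖gg m b β A w‖ := by
    refine Finset.induction_on (Finset.range m) ?_ ?_
    · simp
    · intro j s hjs ih
      rw [Finset.set_biUnion_insert, Finset.sum_insert hjs]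
      exact (lintegral_union_le _ _ _).trans (add_le_add (le_refl _) ih)
  refine h2.trans ?_
  refine (Finset.sum_le_sum fun j hj => hmass j hj r hr (hrr.trans_le (hr₁' j hj))).trans ?_
  rw [← ENNReal.ofReal_sum_of_nonneg (fun j hj => mul_nonneg (hC j hj) hr.le)]
  apply ENNReal.ofReal_le_ofReal
  rw [← Finset.sum_mul]
  nlinarith

theorem meas_VV (d m : ℕ) (b : ℕ → ℂ) (r : ℝ) : MeasurableSet (VV d m b r) := by
  have : VV d m b r = ⋂ j, ⋂ (_ : j < m), {z : ℂ | r * tj d b j ≤ ‖z - b j‖} := by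
    ext z
    simp only [VV, mem_ofPred_eq, mem_iInter]
  rw [this]
  refine (isClosed_iInter fun j => isClosed_iInter fun _ => ?_).measurableSet
  exact isClosed_le continuous_const (by fun_prop)

end Pool.Agent.KS6_23.ML.TRV.Ann



/-! # Project PC: there is no invariant quadratic differential -/

namespace Pool.Agent.KS6_23.ML.TRV.Nofix

open Complex Metric Set MeasureTheory Pool.Agent.KS6_23.ML.TRV

theorem om_norm (d : ℕ) : ‖om d‖ = 1 := by
  unfold om
  rw [show (2 * Real.pi * I / d : ℂ) = ((2 * Real.pi / d : ℝ) : ℂ) * I by push_cast; ring]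
  exact Complex.norm_exp_ofReal_mul_I _

theorem om_pow {d : ℕ} (hd : d ≠ 0) : om d ^ d = 1 := by
  unfold om
  rw [← Complex.exp_nat_mul]
  have h : (d : ℂ) ≠ 0 := by exact_mod_cast hd
  rw [show (d : ℂ) * (2 * Real.pi * I / d) = 2 * Real.pi * I by field_simp]
  exact Complex.exp_two_pi_mul_I

theorem gg_meas (m : ℕ) (b β : ℕ → ℂ) (A : ℂ) : Measurable (gg m b β A) := by
  have h : gg m b β A = fun z => ∑ j ∈ Finset.range m, (A / (z - b j) ^ 2 + β j / (z - b j)) := by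
    funext z
    rfl
  rw [h]
  refine Finset.measurable_fun_sum _ fun j _ => ?_
  fun_prop

theorem rot_lint (f : ℂ → ENNReal) (hf : Measurable f) (a : ℂ) (ha : ‖a‖ = 1) :
    ∫⁻ w, f (a * w) = ∫⁻ w, f w := by
  obtain ⟨ca, hca⟩ : ∃ ca : Circle, (ca : ℂ) = a := ⟨⟨a, mem_sphere_zero_iff_norm.2 ha⟩, rfl⟩
  have h := (rotation ca).measurePreserving.lintegral_comp hf
  rw [← h]
  refine lintegral_congr fun w => ?_
  rw [rotation_apply, hca]

theorem VV_meas (d m : ℕ) (b : ℕ → ℂ) (r : ℝ) : MeasurableSet (VV d m b r) := by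
  have h : VV d m b r = ⋂ j, ⋂ (_ : j < m), {z | r * tj d b j ≤ ‖z - b j‖} := by
    ext z
    simp [VV]
  rw [h]
  apply IsClosed.measurableSet
  apply isClosed_iInter
  intro j
  apply isClosed_iInter
  intro _
  exact isClosed_le continuous_const (by fun_prop)

theorem tj_pos {d m : ℕ} {c : ℂ} {b β : ℕ → ℂ} {A : ℂ} (hC : Cyc d m c b β A) (j : ℕ) :
    0 < tj d b j := by
  unfold tj
  apply Finset.prod_pos
  intro i _
  rw [norm_pos_iff]
  apply mul_ne_zero
  · have := hC.hd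
    exact_mod_cast (by omega : d ≠ 0)
  · exact pow_ne_zero _ (hC.ne i)

theorem ne_of_mem {d m : ℕ} {c : ℂ} {b β : ℕ → ℂ} {A : ℂ} (hC : Cyc d m c b β A) {r : ℝ}
    (hr : 0 < r) {w : ℂ} (hw : w ^ d + c ∈ VV d m b r) : ∀ j, j < m → w ^ d ≠ b j ^ d := by
  intro j hj heq
  have key : ∀ i, i < m → w ^ d + c ≠ b i := by
    intro i hi h
    have h1 : r * tj d b i ≤ ‖w ^ d + c - b i‖ := hw i hi
    rw [h, sub_self, norm_zero] at h1
    have := mul_pos hr (tj_pos hC i)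
    linarith
  rw [heq, ← hC.step j] at key
  rcases Nat.lt_or_ge (j + 1) m with h | h
  · exact key (j + 1) h rfl
  · have h1 : j + 1 = 0 + m := by omega
    apply key 0 (by omega)
    rw [h1, hC.per 0]

theorem t_NOFIX (h1 : S_FE) (h2 : S_COV) (h3 : S_STRICT) (h4 : S_ANNp) : S_NOFIX := by
  intro d m c b β A hC
  by_contra hne
  obtain ⟨w₁, δ, γ, hδ, hγ, hball, hgain⟩ := h3 d m c b β A hC hne
  obtain ⟨C, r₀, hC0, hr₀, hann⟩ := h4 d m c b β A hC
  have hd2 := hC.hd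
  have hd0 : d ≠ 0 := by omega
  have hdR : (0 : ℝ) < d := by exact_mod_cast (by omega : 0 < d)
  -- the gain
  have hG : 0 < ENNReal.ofReal γ * volume (ball w₁ δ) := by
    apply ENNReal.mul_pos
    · rw [ne_eq, ENNReal.ofReal_eq_zero]
      linarith
    · exact (measure_ball_pos volume w₁ hδ).ne'
  obtain ⟨ε, hε0, hε1⟩ := ENNReal.lt_iff_exists_nnreal_btwn.1 hG
  have hε0' : (0 : ℝ) < ε := by exact_mod_cast hε0
  -- the radius
  set M : ℝ := ∑ j ∈ Finset.range m, tj d b j + 1 with hM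
  have hMpos : 0 < M := by
    have : 0 ≤ ∑ j ∈ Finset.range m, tj d b j := Finset.sum_nonneg fun j _ => (tj_pos hC j).le
    linarith
  have hMj : ∀ j, j < m → tj d b j ≤ M := by
    intro j hj
    have := Finset.single_le_sum (f := fun j => tj d b j) (fun i _ => (tj_pos hC i).le)
      (Finset.mem_range.2 hj)
    linarith
  obtain ⟨r, hr, hr1, hr2, hr3⟩ : ∃ r : ℝ, 0 < r ∧ r < r₀ ∧ d * (C * r) ≤ ε ∧ r * M ≤ δ := by
    refine ⟨min (r₀ / 2) (min (ε / (d * C)) (δ / M)), ?_, ?_, ?_, ?_⟩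
    · have i1 : 0 < r₀ / 2 := by linarith
      have i2 : 0 < (ε : ℝ) / (d * C) := by positivity
      have i3 : 0 < δ / M := by positivity
      exact lt_min i1 (lt_min i2 i3)
    · exact (min_le_left _ _).trans_lt (by linarith)
    · have i1 : min (r₀ / 2) (min ((ε : ℝ) / (d * C)) (δ / M)) ≤ ε / (d * C) :=
        (min_le_right _ _).trans (min_le_left _ _)
      rw [le_div_iff₀ (by positivity)] at i1
      linarith
    · have i1 : min (r₀ / 2) (min ((ε : ℝ) / (d * C)) (δ / M)) ≤ δ / M :=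
        (min_le_right _ _).trans (min_le_right _ _)
      rwa [le_div_iff₀ hMpos] at i1
  obtain ⟨hfin, hle⟩ := hann r hr hr1
  set V : Set ℂ := VV d m b r with hV
  set U : Set ℂ := {w : ℂ | w ^ d + c ∈ V} with hU
  set F : ℂ → ENNReal := fun z => ENNReal.ofReal ‖gg m b β A z‖ with hF
  have hFm : Measurable F := (gg_meas m b β A).norm.ennreal_ofReal
  have hVm : MeasurableSet V := VV_meas d m b r
  have hUm : MeasurableSet U := by
    have : Measurable fun w : ℂ => w ^ d + c := by fun_prop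
    exact this hVm
  have hsub : ball w₁ δ ⊆ U := by
    intro w hw j hj
    have i1 := hball w hw j hj
    have i2 : r * tj d b j ≤ r * M := mul_le_mul_of_nonneg_left (hMj j hj) hr.le
    linarith
  -- change of variables
  have A1 : (d : ENNReal) * ∫⁻ z in V, F z = ∫⁻ w in U, ENNReal.ofReal
      ‖∑ k ∈ Finset.range d, om d ^ (2 * k) * gg m b β A (om d ^ k * w)‖ := by
    have e1 := h2 d c (by omega) (V.indicator F) (hFm.indicator hVm)
    rw [lintegral_indicator hVm] at e1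
    rw [← e1, ← lintegral_indicator hUm]
    refine lintegral_congr fun w => ?_
    by_cases hw : w ∈ U
    · have hw' : w ^ d + c ∈ V := hw
      have e3 : ‖gg m b β A (w ^ d + c) * ((d : ℂ) * w ^ (d - 1)) ^ 2‖ =
          ‖gg m b β A (w ^ d + c)‖ * ‖(d : ℂ) * w ^ (d - 1)‖ ^ 2 := by
        rw [norm_mul _ (((d : ℂ) * w ^ (d - 1)) ^ 2), norm_pow]
      rw [indicator_of_mem hw', indicator_of_mem hw,
        ← h1 d m c b β A hC w (ne_of_mem hC hr hw'), e3, ENNReal.ofReal_mul (norm_nonneg _)]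
    · have hw' : w ^ d + c ∉ V := hw
      rw [indicator_of_notMem hw', indicator_of_notMem hw, zero_mul]
  -- the gain in the triangle inequality
  have hgm : ∀ k : ℕ, Measurable fun w : ℂ => gg m b β A (om d ^ k * w) := fun k =>
    (gg_meas m b β A).comp (by fun_prop)
  have A2 : (∫⁻ w in U, ENNReal.ofReal
      ‖∑ k ∈ Finset.range d, om d ^ (2 * k) * gg m b β A (om d ^ k * w)‖) +
      ENNReal.ofReal γ * volume (ball w₁ δ) ≤
      ∫⁻ w in U, ∑ k ∈ Finset.range d, F (om d ^ k * w) := by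
    have e1 : ENNReal.ofReal γ * volume (ball w₁ δ) =
        ∫⁻ w in U, (ball w₁ δ).indicator (fun _ => ENNReal.ofReal γ) w := by
      rw [lintegral_indicator_const measurableSet_ball,
        Measure.restrict_apply measurableSet_ball, inter_eq_left.2 hsub]
    rw [e1, ← lintegral_add_right _ (measurable_const.indicator measurableSet_ball)]
    refine lintegral_mono fun w => ?_
    simp only [hF]
    rw [← ENNReal.ofReal_sum_of_nonneg (fun _ _ => norm_nonneg _)]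
    by_cases hw : w ∈ ball w₁ δ
    · rw [indicator_of_mem hw, ← ENNReal.ofReal_add (norm_nonneg _) hγ.le]
      exact ENNReal.ofReal_le_ofReal (hgain w hw)
    · rw [indicator_of_notMem hw, add_zero]
      apply ENNReal.ofReal_le_ofReal
      refine (norm_sum_le _ _).trans (le_of_eq ?_)
      refine Finset.sum_congr rfl fun k _ => ?_
      rw [norm_mul, norm_pow, om_norm, one_pow, one_mul]
  -- rotations
  have A3 : ∫⁻ w in U, ∑ k ∈ Finset.range d, F (om d ^ k * w) =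
      (d : ENNReal) * ∫⁻ w in U, F w := by
    rw [lintegral_finsetSum _ (fun k _ => (hgm k).norm.ennreal_ofReal)]
    have e1 : ∀ k ∈ Finset.range d, ∫⁻ w in U, F (om d ^ k * w) = ∫⁻ w in U, F w := by
      intro k _
      rw [← lintegral_indicator hUm, ← lintegral_indicator hUm,
        ← rot_lint (U.indicator F) (hFm.indicator hUm) (om d ^ k)
          (by rw [norm_pow, om_norm, one_pow])]
      refine lintegral_congr fun w => ?_
      have e2 : (om d ^ k * w) ^ d + c = w ^ d + c := by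
        rw [mul_pow, ← pow_mul, mul_comm k d, pow_mul, om_pow hd0, one_pow, one_mul]
      by_cases hw : w ∈ U
      · have hw' : om d ^ k * w ∈ U := by
          show (om d ^ k * w) ^ d + c ∈ V
          rw [e2]
          exact hw
        rw [indicator_of_mem hw, indicator_of_mem hw']
      · have hw' : om d ^ k * w ∉ U := by
          show ¬ (om d ^ k * w) ^ d + c ∈ V
          rw [e2]
          exact hw
        rw [indicator_of_notMem hw, indicator_of_notMem hw']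
    rw [Finset.sum_congr rfl e1, Finset.sum_const, Finset.card_range, nsmul_eq_mul]
  -- conclusion
  have A4 : (d : ENNReal) * (∫⁻ z in V, F z) + ENNReal.ofReal γ * volume (ball w₁ δ) ≤
      (d : ENNReal) * (∫⁻ z in V, F z) + (d : ENNReal) * ENNReal.ofReal (C * r) := by
    rw [← mul_add]
    calc (d : ENNReal) * (∫⁻ z in V, F z) + ENNReal.ofReal γ * volume (ball w₁ δ) ≤
        (d : ENNReal) * ∫⁻ w in U, F w := by
          rw [A1, ← A3]
          exact A2
      _ ≤ _ := mul_le_mul_right hle _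
  have A5 := (ENNReal.add_le_add_iff_left
    (ENNReal.mul_ne_top (ENNReal.natCast_ne_top d) hfin.ne)).1 A4
  have A6 : (d : ENNReal) * ENNReal.ofReal (C * r) ≤ ε := by
    rw [← ENNReal.ofReal_natCast, ← ENNReal.ofReal_mul hdR.le, ← ENNReal.ofReal_coe_nnreal]
    exact ENNReal.ofReal_le_ofReal hr2
  exact absurd (A5.trans A6) (not_le.2 hε1)

end Pool.Agent.KS6_23.ML.TRV.Nofix

namespace Pool.Agent.KS6_23.ML.TRV

/-- there is no invariant quadratic differential -/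
theorem hNOFIX : S_NOFIX :=
  Nofix.t_NOFIX FE.t_FE Cov.t_COV Str.t_STRICT (Ann.t_ANNp Dec.t_DEC)

end Pool.Agent.KS6_23.ML.TRV
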