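import Pool.Agent.KS6_23.ML.UNIA

set_option autoImplicit false

/-! # Project ML, stage 2, module 27: the inverse of the multiplier is univalent -/

open Complex Set Filter Metric Topology MeasureTheory

namespace Pool.Agent.KS6_23.ML.UNI

open Pool.Agent.KS6_23.ML Pool.Agent.KS6_23.ML.Basic Pool.Agent.KS6_23.ML.LabC
open Pool.Agent.KS6_23.ML.Curve Pool.Agent.KS6_23.ML.UNIA

section
variable {G : ℂ → ℂ → ℝ} {B : ℂ → ℂ → ℂ} {cc : ℂ → ℂ} {lam : ℂ → ℂ → ℂ}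
  {Z ell : (ℕ → Bool) → ℂ → ℂ}

/-- the label of a point -/
def SL (G : ℂ → ℂ → ℝ) (B : ℂ → ℂ → ℂ) (cc : ℂ → ℂ) (Z ell : (ℕ → Bool) → ℂ → ℂ) (n : ℕ)
    (e : ℕ → Bool) (m : ℤ) (y : ℂ × ℂ × ℂ) : Prop :=
  (y.1 ∉ MM → LX cc Z ell n e m y) ∧ (y.1 ∈ MM → ∃ v, LC G B cc Z ell n e m v y)

theorem SL_loc {n : ℕ} (hG : LabG G B cc Z ell n) {e : ℕ → Bool} {m : ℤ} {x : ℂ × ℂ × ℂ}
    (hx : x ∈ XX n HP) (h : SL G B cc Z ell n e m x) :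
    ∀ᶠ y in 𝓝 x, y ∈ XX n HP → SL G B cc Z ell n e m y := by
  by_cases hM : x.1 ∈ MM
  · obtain ⟨v, hv⟩ := h.2 hM
    filter_upwards [hG.cloc e m v x hv] with y h1 hy
    exact ⟨(h1 hy).2, fun h2 => ⟨v, (h1 hy).1 h2⟩⟩
  · filter_upwards [hG.xloc e m x hx (h.1 hM)] with y h1 hy
    exact ⟨fun _ => h1 hy, fun h2 => absurd h2 (h1 hy).1⟩

theorem SL_uni {n : ℕ} (hG : LabG G B cc Z ell n) {e e' : ℕ → Bool} {m m' : ℤ} {x : ℂ × ℂ × ℂ}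
    (h : SL G B cc Z ell n e m x) (h' : SL G B cc Z ell n e' m' x) : e = e' ∧ m = m' := by
  by_cases hM : x.1 ∈ MM
  · obtain ⟨v, hv⟩ := h.2 hM
    obtain ⟨v', hv'⟩ := h'.2 hM
    obtain ⟨h1, h2, _⟩ := hG.cun e m v e' m' v' x hv hv'
    exact ⟨h1, h2⟩
  · exact hG.xlu e m e' m' x (h.1 hM) (h'.1 hM)

theorem psi_cont {κ : ℝ} {n : ℕ} {t : ℝ} {c z : ℂ} {ψ ζ : ℂ → ℂ} (h : PSI κ n t c z ψ ζ) {s : ℂ}
    (hs : s ∈ DL κ n t) : ContinuousAt (fun s => ((ψ s, ζ s, s) : ℂ × ℂ × ℂ)) s := by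
  have hn := (DL_open κ t n).mem_nhds hs
  exact (h.dψ.differentiableAt hn).continuousAt.prodMk
    ((h.dζ.differentiableAt hn).continuousAt.prodMk continuousAt_id)

theorem psi_open {κ : ℝ} {n : ℕ} {t : ℝ} {c z : ℂ} {ψ ζ : ℂ → ℂ} (h : PSI κ n t c z ψ ζ) {s : ℂ}
    (hs : s ∈ DL κ n t) {N : Set ℂ} (hN : N ∈ 𝓝 s) : ψ '' N ∈ 𝓝 (ψ s) := by
  have hA : AnalyticAt ℂ ψ s := h.dψ.analyticAt ((DL_open κ t n).mem_nhds hs)
  rcases hA.eventually_constant_or_nhds_le_map_nhds with h1 | h1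
  · exfalso
    apply h.dne s hs
    have : ψ =ᶠ[𝓝 s] fun _ => ψ s := h1
    rw [this.deriv_eq]
    simp
  · exact h1 (image_mem_map hN)

theorem psi_mem {κ : ℝ} {n : ℕ} {t : ℝ} {c z : ℂ} {ψ ζ : ℂ → ℂ} (h : PSI κ n t c z ψ ζ) {s : ℂ}
    (hs : s ∈ DL κ n t) (hre : 0 < s.re) : (ψ s, ζ s, s) ∈ XX n HP := ⟨hre, (h.mem s hs).2⟩

/-- exterior parameters over the disc are not on the ray of angle `0` -/
theorem ext_not_int (hRI : S_RINE) (hSY : S_SYM) (hB : Base G B cc) {κ t : ℝ} (h0 : 0 < κ)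
    (h1 : κ ≤ 1 / 16) (ht : dZ t ≠ 0) {n : ℕ} (hn : 1 ≤ n) {x : ℂ × ℂ × ℂ} (hx : x ∈ XX n HP)
    (hs : x.2.2 ∈ DL κ n t) : ∀ w ∈ HP, cc w = x.1 → ∀ k : ℤ, w.im ≠ 2 * Real.pi * k := by
  intro w hw hcw k hk
  have hw' : w + ((-k : ℤ) : ℂ) * tpi ∈ HP := HP_add_int hw _
  have hc' : cc (w + ((-k : ℤ) : ℂ) * tpi) = x.1 := by rw [cc_per_int hB hw, hcw]
  have him : (w + ((-k : ℤ) : ℂ) * tpi).im = 0 := by
    rw [add_im, int_mul_tpi_im, hk]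
    push_cast
    ring
  obtain ⟨c, hc, hcc⟩ := hSY G B cc hB _ hw' him
  rw [hc'] at hcc
  obtain ⟨k', hk'⟩ := hRI c n x.2.1 x.2.2 hn hc (by rw [← hcc]; exact hx.2.1)
    (by rw [← hcc]; exact hx.2.2)
  have := far h0 h1 ht hn hs hx.1 k'
  linarith

/-- the sheet has a label -/
theorem sheet (hRI : S_RINE) (hSY : S_SYM) (hB : Base G B cc) {κ t : ℝ} (h0 : 0 < κ)
    (h1 : κ ≤ 1 / 16) (ht : dZ t ≠ 0) {n : ℕ} (hn : 1 ≤ n) (hG : LabG G B cc Z ell n)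
    {c z : ℂ} {ψ ζ : ℂ → ℂ} (h : PSI κ n t c z ψ ζ) :
    ∃ e m, ∀ s ∈ DL κ n t, 0 < s.re → SL G B cc Z ell n e m (ψ s, ζ s, s) := by
  have hex : ∀ s ∈ DL κ n t, 0 < s.re → ∃ e m, SL G B cc Z ell n e m (ψ s, ζ s, s) := by
    intro s hs hre
    by_cases hM : ψ s ∈ MM
    · obtain ⟨e, m, v, hv⟩ := hG.cex (ψ s, ζ s, s) (psi_mem h hs hre) hM
        (fun k => far2 h0 h1 ht hn hs hre k)
      exact ⟨e, m, fun h2 => absurd hM h2, fun _ => ⟨v, hv⟩⟩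
    · obtain ⟨e, m, hv⟩ := hG.xex (ψ s, ζ s, s) (psi_mem h hs hre) hM
        (ext_not_int hRI hSY hB h0 h1 ht hn (psi_mem h hs hre) hs)
      exact ⟨e, m, fun _ => hv, fun h2 => absurd h2 hM⟩
  have hR := R_pos h0 ht hn
  set s₁ : ℂ := tpi * (t : ℂ) + ((κ * dZ t ^ 2 / n / 2 : ℝ) : ℂ) with hs₁
  have hs₁re : s₁.re = κ * dZ t ^ 2 / n / 2 := by
    rw [hs₁, add_re, tpit_re, ofReal_re, zero_add]
  have hs₁D : s₁ ∈ DL κ n t := by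
    refine DD_sub ?_
    unfold DD
    rw [mem_ball, dist_eq_norm, hs₁, add_sub_cancel_left, norm_real, Real.norm_eq_abs,
      abs_of_pos (by positivity)]
    linarith
  have hs₁p : 0 < s₁.re := by rw [hs₁re]; positivity
  obtain ⟨e, m, hem⟩ := hex s₁ hs₁D hs₁p
  refine ⟨e, m, ?_⟩
  set u : Set ℂ := {s | s ∈ DL κ n t ∩ HP ∧ SL G B cc Z ell n e m (ψ s, ζ s, s)} with hu
  have hDo : IsOpen (DL κ n t ∩ HP) := (DL_open κ t n).inter isOpen_HP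
  have hloc : ∀ e' m', ∀ s ∈ DL κ n t ∩ HP, SL G B cc Z ell n e' m' (ψ s, ζ s, s) →
      ∀ᶠ s' in 𝓝 s, s' ∈ DL κ n t ∩ HP ∧ SL G B cc Z ell n e' m' (ψ s', ζ s', s') := by
    intro e' m' s hs h2
    have h3 := (psi_cont h hs.1).eventually (SL_loc hG (psi_mem h hs.1 hs.2) h2)
    filter_upwards [h3, hDo.mem_nhds hs] with s' h4 h5
    exact ⟨h5, h4 (psi_mem h h5.1 h5.2)⟩
  have huo : IsOpen u := by
    rw [isOpen_iff_mem_nhds]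
    rintro s ⟨h2, h3⟩
    exact hloc e m s h2 h3
  have hall : DL κ n t ∩ HP ⊆ u := by
    refine (DLP_convex κ t n).isPreconnected.subset_of_closure_inter_subset huo
      ⟨s₁, ⟨hs₁D, hs₁p⟩, ⟨hs₁D, hs₁p⟩, hem⟩ ?_
    rintro s ⟨h2, h3⟩
    obtain ⟨e', m', h4⟩ := hex s h3.1 h3.2
    obtain ⟨s', h5, h6⟩ := ((mem_closure_iff_frequently.1 h2).and_eventually
      (hloc e' m' s h3 h4)).exists
    obtain ⟨r1, r2⟩ := SL_uni hG h5.2 h6.2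
    refine ⟨h3, ?_⟩
    rw [r1, r2]
    exact h4
  intro s hs hre
  exact (hall ⟨hs, hre⟩).2

/-- the left part -/
theorem left_sub (hFr : S_FRO) {κ : ℝ} {n : ℕ} (hn : 1 ≤ n) {t : ℝ} {c z : ℂ} {ψ ζ : ℂ → ℂ}
    (h : PSI κ n t c z ψ ζ) {s : ℂ} (hs : s ∈ DL κ n t) (hre : s.re ≤ 0) : ψ s ∈ MM := by
  obtain ⟨_, h1, h2⟩ := h.mem s hs
  refine (hFr n (ψ s) (ζ s) hn h1 ?_).1
  rw [h2, norm_exp]
  exact Real.exp_le_one_iff.2 hre

theorem left_open {κ : ℝ} {n : ℕ} {t : ℝ} {c z : ℂ} {ψ ζ : ℂ → ℂ}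
    (h : PSI κ n t c z ψ ζ) : IsOpen (ψ '' (DL κ n t ∩ {s : ℂ | s.re < 0})) := by
  rw [isOpen_iff_mem_nhds]
  rintro _ ⟨s, hs, rfl⟩
  exact psi_open h hs.1 (((DL_open κ t n).inter
    (isOpen_lt Complex.continuous_re continuous_const)).mem_nhds hs)

theorem left_conn {κ : ℝ} {n : ℕ} {t : ℝ} {c z : ℂ} {ψ ζ : ℂ → ℂ}
    (h : PSI κ n t c z ψ ζ) : IsPreconnected (ψ '' (DL κ n t ∩ {s : ℂ | s.re < 0})) :=
  (DLN_convex κ t n).isPreconnected.image _ (h.dψ.continuousOn.mono inter_subset_left)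

/-- the axis is mapped to the closure of the complement of `M` -/
theorem axis (hFr : S_FRO) {κ : ℝ} (h1 : κ ≤ 1 / 16) {n : ℕ} (hn : 1 ≤ n) {t : ℝ} (ht : dZ t ≠ 0)
    {c z : ℂ} {ψ ζ : ℂ → ℂ} (h : PSI κ n t c z ψ ζ) {s : ℂ} (hs : s ∈ DL κ n t) (hre : s.re = 0) :
    ψ s ∈ closure MMᶜ := by
  obtain ⟨_, h2, h3⟩ := h.mem s hs
  have h4 : ‖mul n (ψ s) (ζ s)‖ = 1 := by
    rw [h3, norm_exp]
    simp [hre]
  exact (hFr n (ψ s) (ζ s) hn h2 h4.le).2 h4 (by rw [h3]; exact DL_exp_ne h1 ht hn hs)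

/-- the component does not meet the image of the right part -/
theorem comp_left (hRI : S_RINE) (hSY : S_SYM) (hFr : S_FRO) (hX : S_XLOC) (hK : S_XCPT)
    (hCn : S_CNTN) (hB : Base G B cc) {κ t : ℝ} (h0 : 0 < κ)
    (h1 : κ ≤ 1 / 16) (ht : dZ t ≠ 0) {n : ℕ} (hn : 1 ≤ n) (hG : LabG G B cc Z ell n)
    {c z : ℂ} {ψ ζ : ℂ → ℂ} (h : PSI κ n t c z ψ ζ) {V : Set ℂ} (hVo : IsOpen V)
    (hVc : IsPreconnected V) (hVM : V ⊆ MM) (hVi : ∃ s ∈ DL κ n t, s.re < 0 ∧ ψ s ∈ V) {s₁ : ℂ}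
    (hs₁ : s₁ ∈ DL κ n t) (hs₁V : ψ s₁ ∈ V) : s₁.re < 0 := by
  by_contra hcon
  push Not at hcon
  have hnot : ∀ {c' : ℂ} {O : Set ℂ}, IsOpen O → O ⊆ MM → c' ∈ O → c' ∉ closure MMᶜ := by
    intro c' O hO hOM hc hcl
    obtain ⟨y, hy1, hy2⟩ := ((mem_closure_iff_frequently.1 hcl).and_eventually
      (hO.mem_nhds hc)).exists
    exact hy1 (hOM hy2)
  rcases eq_or_lt_of_le hcon with hre | hre
  · exact hnot hVo hVM hs₁V (axis hFr h1 hn ht h hs₁ hre.symm)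
  obtain ⟨e, m, hSL⟩ := sheet hRI hSY hB h0 h1 ht hn hG h
  obtain ⟨v₁, hv₁⟩ := (hSL s₁ hs₁ hre).2 (hVM hs₁V)
  set S : Set ℂ := SS G B cc Z ell n e m v₁ with hS
  have hScl : closure S ⊆ S ∪ PP n v₁ := SS_closure hK hn hG
  have hv₁n : dZ v₁ ≠ 0 := hG.nint e m v₁ _ hv₁
  -- the connected open set
  set L : Set ℂ := ψ '' (DL κ n t ∩ {s : ℂ | s.re < 0}) with hL
  set W : Set ℂ := V ∪ L with hW
  have hWo : IsOpen W := hVo.union (left_open h)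
  have hWM : W ⊆ MM := by
    rintro x (hx | ⟨s, hs, rfl⟩)
    · exact hVM hx
    · exact left_sub hFr hn h hs.1 (le_of_lt hs.2)
  have hWc : IsPreconnected W := by
    obtain ⟨s, hs1, hs2, hs3⟩ := hVi
    exact IsPreconnected.union (ψ s) hs3 ⟨s, ⟨hs1, hs2⟩, rfl⟩ hVc (left_conn h)
  have hSopen : ∀ c' ∈ W ∩ S, W ∩ S ∈ 𝓝 c' := by
    rintro c' ⟨hc1, x, hx, hx2⟩
    obtain ⟨Y, _, k2⟩ := section_LC hX hn hG hx2
    rw [hx] at k2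
    filter_upwards [k2, hWo.mem_nhds hc1] with c'' l1 l2
    exact ⟨l2, Y c'', l1.1, l1.2.2.1 (hWM l2)⟩
  have hWS : W ⊆ W ∩ S := by
    refine hWc.subset_of_closure_inter_subset (isOpen_iff_mem_nhds.2 hSopen)
      ⟨ψ s₁, Or.inl hs₁V, Or.inl hs₁V, _, rfl, hv₁⟩ ?_
    rintro c' ⟨hc1, hc2⟩
    have hc3 : c' ∈ closure S := closure_mono inter_subset_right hc1
    rcases hScl hc3 with hc4 | hc4
    · exact ⟨hc2, hc4⟩
    · exact absurd (PP_closure hFr hn hv₁n hc4) (hnot hWo hWM hc2)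
  -- a point of the axis
  set s₀ : ℂ := tpi * (t : ℂ) with hs₀
  have hR := R_pos h0 ht hn
  have hs₀D : s₀ ∈ DL κ n t := DD_sub (mem_ball_self hR)
  have hPfin : (PP n v₁).Finite := (hCn n hn).1 _
  have hev : ∀ᶠ s in 𝓝[≠] s₀, ψ s ∉ PP n v₁ := by
    have hd : HasDerivAt ψ (deriv ψ s₀) s₀ :=
      (h.dψ.differentiableAt ((DL_open κ t n).mem_nhds hs₀D)).hasDerivAt
    have e1 : ∀ᶠ s in 𝓝[≠] s₀, ψ s ≠ ψ s₀ := hd.eventually_ne (h.dne s₀ hs₀D)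
    have e2 : ∀ᶠ s in 𝓝 s₀, ψ s ∈ (PP n v₁ \ {ψ s₀})ᶜ := by
      refine hd.continuousAt.eventually_mem ?_
      exact (hPfin.subset sdiff_subset).isClosed.isOpen_compl.mem_nhds (by simp)
    filter_upwards [e1, nhdsWithin_le_nhds e2] with s g1 g2 g3
    exact g2 ⟨g3, g1⟩
  obtain ⟨s₂, hs₂D, hs₂re, hs₂P⟩ : ∃ s ∈ DL κ n t, s.re = 0 ∧ ψ s ∉ PP n v₁ := by
    have h2 : Tendsto (fun ε : ℝ => s₀ + ε * I) (𝓝[≠] 0) (𝓝[≠] s₀) := by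
      rw [tendsto_nhdsWithin_iff]
      constructor
      · have : Continuous fun ε : ℝ => s₀ + (ε : ℂ) * I := by fun_prop
        have h3 := this.tendsto 0
        rw [ofReal_zero, zero_mul, add_zero] at h3
        exact h3.mono_left nhdsWithin_le_nhds
      · filter_upwards [self_mem_nhdsWithin] with ε hε
        simp only [mem_compl_iff, mem_singleton_iff]
        intro h4
        apply hε
        have h5 : (ε : ℂ) * I = 0 := by linear_combination h4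
        rcases mul_eq_zero.1 h5 with h6 | h6
        · exact_mod_cast h6
        · exact absurd h6 I_ne_zero
    have h3 := h2.eventually hev
    have h4 : ∀ᶠ ε : ℝ in 𝓝[≠] 0, s₀ + (ε : ℂ) * I ∈ DL κ n t :=
      (h2.mono_right nhdsWithin_le_nhds).eventually ((DL_open κ t n).mem_nhds hs₀D)
    obtain ⟨ε, g1, g2⟩ := (h3.and h4).exists
    refine ⟨s₀ + (ε : ℂ) * I, g2, ?_, g1⟩
    rw [add_re, hs₀, tpit_re]
    simp
  -- it is in the closure of `W`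
  have hclW : ψ s₂ ∈ closure W := by
    have h2 : Tendsto (fun τ : ℝ => s₂ - (τ : ℂ)) (𝓝[>] 0) (𝓝 s₂) := by
      have : Continuous fun τ : ℝ => s₂ - (τ : ℂ) := by fun_prop
      have h3 := this.tendsto 0
      rw [ofReal_zero, sub_zero] at h3
      exact h3.mono_left nhdsWithin_le_nhds
    have h3 : Tendsto (fun τ : ℝ => ψ (s₂ - (τ : ℂ))) (𝓝[>] 0) (𝓝 (ψ s₂)) :=
      ((h.dψ.differentiableAt ((DL_open κ t n).mem_nhds hs₂D)).continuousAt.tendsto).comp h2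
    refine mem_closure_of_tendsto h3 ?_
    have h4 : ∀ᶠ τ : ℝ in 𝓝[>] 0, 0 < τ := self_mem_nhdsWithin
    filter_upwards [h4, h2.eventually ((DL_open κ t n).mem_nhds hs₂D)] with τ g1 g2
    refine Or.inr ⟨_, ⟨g2, ?_⟩, rfl⟩
    simp only [mem_ofPred_eq, sub_re, hs₂re, ofReal_re]
    linarith
  have hs₂S : ψ s₂ ∈ S := by
    have h2 : ψ s₂ ∈ closure S := closure_mono (hWS.trans inter_subset_right) hclW
    rcases hScl h2 with h3 | h3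
    · exact h3
    · exact absurd h3 hs₂P
  obtain ⟨x₂, hx₂, hx₂L⟩ := hs₂S
  obtain ⟨Y, k1, k2⟩ := section_LC hX hn hG hx₂L
  rw [hx₂] at k1 k2
  have hx₂re : 0 < x₂.2.2.re := hx₂L.1.1
  have hYre : ∀ᶠ c' in 𝓝 (ψ s₂), x₂.2.2.re / 2 < (Y c').2.2.re := by
    have h2 : Tendsto (fun c' => (Y c').2.2.re) (𝓝 (ψ s₂)) (𝓝 x₂.2.2.re) :=
      (Complex.continuous_re.tendsto _).comp
        (((continuous_snd.comp continuous_snd).tendsto x₂).comp k1)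
    exact h2.eventually (lt_mem_nhds (by linarith))
  have hN : ψ '' (DL κ n t ∩ {s | s.re < x₂.2.2.re / 2}) ∈ 𝓝 (ψ s₂) := by
    refine psi_open h hs₂D (((DL_open κ t n).inter
      (isOpen_lt Complex.continuous_re continuous_const)).mem_nhds ⟨hs₂D, ?_⟩)
    simp only [mem_ofPred_eq, hs₂re]
    linarith
  have hcl := axis hFr h1 hn ht h hs₂D hs₂re
  obtain ⟨c', hc', l1, l2, s', ⟨hs'D, hs'⟩, hs'c⟩ := ((mem_closure_iff_frequently.1 hcl).and_eventually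
    (k2.and (hYre.and hN))).exists
  have hs're : 0 < s'.re := by
    by_contra h2
    push Not at h2
    apply hc'
    rw [← hs'c]
    exact left_sub hFr hn h hs'D h2
  have h3 := (hSL s' hs'D hs're).1 (by rw [hs'c]; exact hc')
  have h4 := hG.xuni e m _ _ (l1.2.2.2 hc') h3 (by rw [l1.1]; exact hs'c.symm)
  rw [h4] at l2
  simp only [mem_ofPred_eq] at l2 hs'
  linarith

/-- injectivity away from the axis -/
theorem inj_off (hRI : S_RINE) (hSY : S_SYM) (hFr : S_FRO) (hX : S_XLOC) (hK : S_XCPT)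
    (hCn : S_CNTN) (hAt : S_ATU) (hTop : S_TOP) (hB : Base G B cc) {κ t : ℝ} (h0 : 0 < κ)
    (h1 : κ ≤ 1 / 16) (ht : dZ t ≠ 0) {n : ℕ} (hn : 1 ≤ n) (hG : LabG G B cc Z ell n)
    {c z : ℂ} {ψ ζ : ℂ → ℂ} (h : PSI κ n t c z ψ ζ) {s₁ s₂ : ℂ}
    (hs₁ : s₁ ∈ DL κ n t) (hs₂ : s₂ ∈ DL κ n t) (hre₁ : s₁.re ≠ 0) (hre₂ : s₂.re ≠ 0)
    (he : ψ s₁ = ψ s₂) : s₁ = s₂ := by
  have hR := R_pos h0 ht hn
  have hVi : ∃ s ∈ DL κ n t, s.re < 0 ∧ ψ s ∈ ψ '' (DL κ n t ∩ {s : ℂ | s.re < 0}) := by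
    have h2 : tpi * (t : ℂ) - ((κ * dZ t ^ 2 / n / 2 : ℝ) : ℂ) ∈ DL κ n t := by
      refine DD_sub ?_
      unfold DD
      rw [mem_ball, dist_eq_norm, sub_sub_cancel_left, norm_neg, norm_real, Real.norm_eq_abs,
        abs_of_pos (by positivity)]
      linarith
    have h3 : (tpi * (t : ℂ) - ((κ * dZ t ^ 2 / n / 2 : ℝ) : ℂ)).re < 0 := by
      rw [sub_re, tpit_re, ofReal_re, zero_sub]
      have : 0 < κ * dZ t ^ 2 / n / 2 := by positivity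
      linarith
    exact ⟨_, h2, h3, _, ⟨h2, h3⟩, rfl⟩
  have hLM : ψ '' (DL κ n t ∩ {s : ℂ | s.re < 0}) ⊆ MM := by
    rintro _ ⟨s, hs, rfl⟩
    exact left_sub hFr hn h hs.1 (le_of_lt hs.2)
  have hmix : ∀ {s s' : ℂ}, s ∈ DL κ n t → s' ∈ DL κ n t → s.re < 0 → ψ s = ψ s' → s'.re < 0 := by
    intro s s' hs hs' hre hee
    exact comp_left hRI hSY hFr hX hK hCn hB h0 h1 ht hn hG h (left_open h) (left_conn h) hLM hVi hs'
      ⟨s, ⟨hs, hre⟩, hee⟩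
  rcases lt_or_gt_of_ne hre₁ with hr1 | hr1
  · -- both are attracting
    have hr2 := hmix hs₁ hs₂ hr1 he
    obtain ⟨_, f1, m1⟩ := h.mem s₁ hs₁
    obtain ⟨_, f2, m2⟩ := h.mem s₂ hs₂
    simp only at f1 m1 f2 m2
    have h2 := hAt n (ψ s₁) (ζ s₁) (ζ s₂) hn f1 (by rw [he]; exact f2)
      (by rw [m1, norm_exp]; exact Real.exp_lt_one_iff.2 hr1)
      (by rw [he, m2, norm_exp]; exact Real.exp_lt_one_iff.2 hr2)
    rw [m1, he, m2, exp_eq_iff] at h2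
    obtain ⟨k, hk⟩ := h2
    have h3 := DL_im hs₁
    have h4 := DL_im hs₂
    have h5 := R_le (t := t) h1 hn
    have h6 : dZ t ≤ 1 / 2 := abs_sub_round t
    have h7 : |2 * Real.pi * (k : ℝ)| < 1 := by
      have h8 : 2 * Real.pi * (k : ℝ) = (s₁.im - 2 * Real.pi * t) - (s₂.im - 2 * Real.pi * t) := by
        rw [hk, add_im, int_mul_tpi_im]
        ring
      rw [h8]
      refine (abs_sub _ _).trans_lt ?_
      linarith
    have hk0 : k = 0 := by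
      by_contra hne
      have h8 : (1 : ℝ) ≤ |(k : ℝ)| := by
        have : 1 ≤ |k| := Int.one_le_abs hne
        exact_mod_cast this
      rw [abs_mul, abs_of_pos (by positivity)] at h7
      have := Real.pi_gt_three
      nlinarith
    rw [hk, hk0]
    simp
  · rcases lt_or_gt_of_ne hre₂ with hr2 | hr2
    · exact absurd (hmix hs₂ hs₁ hr2 he.symm) (not_lt.2 hr1.le)
    · obtain ⟨e, m, hSL⟩ := sheet hRI hSY hB h0 h1 ht hn hG h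
      have g1 := hSL s₁ hs₁ hr1
      have g2 := hSL s₂ hs₂ hr2
      by_cases hM : ψ s₁ ∈ MM
      · obtain ⟨v₁, hv₁⟩ := g1.2 hM
        obtain ⟨v₂, hv₂⟩ := g2.2 (he ▸ hM)
        have := pair_unique hTop hX hK hCn hn hG hv₁ hv₂ he
        exact congrArg (fun y : ℂ × ℂ × ℂ => y.2.2) this
      · have := hG.xuni e m _ _ (g1.1 hM) (g2.1 (he ▸ hM)) he
        exact congrArg (fun y : ℂ × ℂ × ℂ => y.2.2) this

end

theorem exists_re_ne {N : Set ℂ} {s : ℂ} (hN : N ∈ 𝓝 s) : ∃ s' ∈ N, s'.re ≠ 0 := by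
  by_cases h : s.re = 0
  · have h2 : Tendsto (fun τ : ℝ => s + (τ : ℂ)) (𝓝[>] 0) (𝓝 s) := by
      have : Continuous fun τ : ℝ => s + (τ : ℂ) := by fun_prop
      have h3 := this.tendsto 0
      rw [ofReal_zero, add_zero] at h3
      exact h3.mono_left nhdsWithin_le_nhds
    have h4 : ∀ᶠ τ : ℝ in 𝓝[>] 0, 0 < τ := self_mem_nhdsWithin
    obtain ⟨τ, g1, g2⟩ := (h4.and (h2.eventually hN)).exists
    refine ⟨_, g2, ?_⟩
    rw [add_re, h, ofReal_re]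
    linarith
  · exact ⟨s, mem_of_mem_nhds hN, h⟩

/-- module 27 -/
theorem uni (hBase : S_BASE) (hLam : S_LAM) (hCode : S_CODE) (hLG : S_LABG) (hRI : S_RINE)
    (hSY : S_SYM) (hFr : S_FRO) (hX : S_XLOC) (hK : S_XCPT) (hCn : S_CNTN) (hAt : S_ATU)
    (hTop : S_TOP) : S_UNI := by
  obtain ⟨G, B, cc, hB⟩ := hBase
  obtain ⟨lam, hl⟩ := hLam G B cc hB
  obtain ⟨Z, ell, hC⟩ := hCode G B cc lam hB hl
  refine ⟨1 / 16, by norm_num, ?_⟩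
  intro κ n t c z ψ ζ h0 h1 hn ht h
  have hG := hLG G B cc lam Z ell hB hl hC n hn
  refine ⟨?_, fun V hVo hVc hVM hVi s hs hsV => comp_left hRI hSY hFr hX hK hCn hB h0 h1 ht hn hG h
    hVo hVc hVM hVi hs hsV⟩
  intro s₁ hs₁ s₂ hs₂ he
  by_contra hne
  obtain ⟨U₁, U₂, hU₁, hU₂, m₁, m₂, hdis⟩ := t2_separation hne
  set N₁ : Set ℂ := U₁ ∩ DL κ n t with hN₁
  set N₂ : Set ℂ := U₂ ∩ DL κ n t with hN₂
  have hN₁o : IsOpen N₁ := hU₁.inter (DL_open κ t n)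
  have hN₂o : IsOpen N₂ := hU₂.inter (DL_open κ t n)
  have h2 : ψ '' N₂ ∈ 𝓝 (ψ s₂) := psi_open h hs₂ (hN₂o.mem_nhds ⟨m₂, hs₂⟩)
  rw [← he] at h2
  have hc₁ : ContinuousAt ψ s₁ := (h.dψ.differentiableAt ((DL_open κ t n).mem_nhds hs₁)).continuousAt
  -- an open neighbourhood of `s₁`
  obtain ⟨O, hOs, hOo, hsO⟩ := _root_.mem_nhds_iff.1 (inter_mem (hN₁o.mem_nhds ⟨m₁, hs₁⟩) (hc₁ h2))
  obtain ⟨s₁', hs₁'O, hs₁'re⟩ := exists_re_ne (hOo.mem_nhds hsO)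
  have hO' : IsOpen (O ∩ {s : ℂ | s.re ≠ 0}) :=
    hOo.inter (isOpen_ne_fun Complex.continuous_re continuous_const)
  have h3 : ψ '' (O ∩ {s : ℂ | s.re ≠ 0}) ∈ 𝓝 (ψ s₁') :=
    psi_open h (hOs hs₁'O).1.2 (hO'.mem_nhds ⟨hs₁'O, hs₁'re⟩)
  obtain ⟨s₂', hs₂'N, hs₂'e⟩ := (hOs hs₁'O).2
  rw [← hs₂'e] at h3
  have hc₂ : ContinuousAt ψ s₂' :=
    (h.dψ.differentiableAt ((DL_open κ t n).mem_nhds hs₂'N.2)).continuousAt
  obtain ⟨s₃, hs₃N, hs₃re⟩ := exists_re_ne (inter_mem (hN₂o.mem_nhds hs₂'N) (hc₂ h3))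
  obtain ⟨s₄, ⟨hs₄O, hs₄re⟩, hs₄e⟩ := hs₃N.2
  have h5 := inj_off hRI hSY hFr hX hK hCn hAt hTop hB h0 h1 ht hn hG h (hOs hs₄O).1.2 hs₃N.1.2
    hs₄re hs₃re hs₄e
  have h6 : s₄ ∈ U₂ := h5 ▸ hs₃N.1.1
  exact Set.disjoint_left.1 hdis (hOs hs₄O).1.1 h6

end Pool.Agent.KS6_23.ML.UNI
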